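import Pool.Agent.Lib_MP_e4b855_nt.Tri.Defs

namespace Pool.Agent.Lib_MP_e4b855_nt.Tri

open PowerSeries Finset

/-- `N s B(r/N)`-series: the generating function of the Bernoulli polynomials at `r / N`, rescaled -/
noncomputable def bgen (N r : ℕ) : ℂ⟦X⟧ :=
  rescale (N : ℂ) (PowerSeries.mk fun n =>
    Polynomial.aeval ((r : ℂ) / N) ((1 / n.factorial : ℚ) • Polynomial.bernoulli n))

theorem bgen_mul {N : ℕ} (hN : 0 < N) (r : ℕ) :
    bgen N r * (exp ℂ ^ N - 1) = C (N : ℂ) * X * exp ℂ ^ r := by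
  have h := Polynomial.bernoulli_generating_function ((r : ℂ) / N)
  have h2 := congrArg (rescale (N : ℂ)) h
  rw [map_mul, map_mul, map_sub, map_one, rescale_rescale, rescale_X] at h2
  have hN0 : (N : ℂ) ≠ 0 := by exact_mod_cast hN.ne'
  rw [show (r : ℂ) / N * N = r by field_simp] at h2
  rw [exp_pow_eq_rescale_exp, exp_pow_eq_rescale_exp]
  exact h2

theorem bser_eq (N : ℕ) (y : ℂ) :
    bser N y = C (1 / (N : ℂ)) * ∑ r ∈ range N, C (y ^ r) * bgen N r := by
  ext k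
  rw [bser, coeff_mk, coeff_C_mul, map_sum, bk, mul_sum, mul_sum, sum_div]
  apply sum_congr rfl
  intro r _
  rw [coeff_C_mul, bgen, coeff_rescale, coeff_mk, map_smul]
  rw [Algebra.smul_def]
  simp only [one_div, map_inv₀, map_natCast]
  field_simp

/-- Piece A1.  `bser N y = s / (y e^s - 1)` when `y ^ N = 1` (also for `y = 1`).
Proof: multiply by `e^{N s} - 1 = (y e^s)^N - 1 = (y e^s - 1) ∑_{r<N} y^r e^{r s}` and use
`Polynomial.bernoulli_generating_function` at `r / N` with `s` replaced by `N s`. -/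
theorem bser_mul {N : ℕ} (hN : 0 < N) {y : ℂ} (hy : y ^ N = 1) :
    bser N y * (C y * exp ℂ - 1) = X := by
  have hN0 : (N : ℂ) ≠ 0 := by exact_mod_cast hN.ne'
  have hne : (exp ℂ ^ N - 1 : ℂ⟦X⟧) ≠ 0 := by
    intro h
    have h1 := congrArg (coeff 1) h
    rw [exp_pow_eq_rescale_exp, map_sub, coeff_rescale, coeff_exp, coeff_one] at h1
    simp at h1
    exact hN.ne' (by exact_mod_cast h1)
  have h1 : bser N y * (exp ℂ ^ N - 1) = X * ∑ r ∈ range N, (C y * exp ℂ) ^ r := by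
    rw [bser_eq, mul_assoc, sum_mul]
    have e : ∀ r ∈ range N, C (y ^ r) * bgen N r * (exp ℂ ^ N - 1) =
        C (N : ℂ) * (X * (C y * exp ℂ) ^ r) := by
      intro r _
      rw [mul_assoc, bgen_mul hN, mul_pow, ← map_pow]
      ring
    rw [sum_congr rfl e, ← mul_sum, ← mul_assoc, ← map_mul, one_div_mul_cancel hN0, map_one,
      one_mul, ← mul_sum]
  have h2 : (∑ r ∈ range N, (C y * exp ℂ) ^ r) * (C y * exp ℂ - 1) = exp ℂ ^ N - 1 := by
    rw [geom_sum_mul, mul_pow, ← map_pow, hy, map_one, one_mul]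
  apply mul_right_cancel₀ hne
  calc bser N y * (C y * exp ℂ - 1) * (exp ℂ ^ N - 1)
      = bser N y * (exp ℂ ^ N - 1) * (C y * exp ℂ - 1) := by ring
    _ = X * ((∑ r ∈ range N, (C y * exp ℂ) ^ r) * (C y * exp ℂ - 1)) := by rw [h1]; ring
    _ = X * (exp ℂ ^ N - 1) := by rw [h2]

/-- `bk N k 1 = B_k`. -/
theorem bk_one {N : ℕ} (hN : 0 < N) (k : ℕ) : bk N k 1 = (_root_.bernoulli k : ℂ) := by
  have h1 := bser_mul hN (one_pow N)
  rw [map_one, one_mul] at h1
  have h2 := bernoulliPowerSeries_mul_exp_sub_one ℂ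
  have hne : (exp ℂ - 1 : ℂ⟦X⟧) ≠ 0 := by
    intro h
    have h1 := congrArg (coeff 1) h
    rw [map_sub, coeff_exp, coeff_one] at h1
    simp at h1
  have h3 : bser N 1 = bernoulliPowerSeries ℂ := mul_right_cancel₀ hne (h1.trans h2.symm)
  have h4 := congrArg (coeff k) h3
  rw [bser, coeff_mk, bernoulliPowerSeries, coeff_mk] at h4
  have hk : (k.factorial : ℂ) ≠ 0 := by exact_mod_cast k.factorial_ne_zero
  rw [div_eq_iff hk] at h4
  rw [h4, map_div₀, map_natCast, div_mul_cancel₀ _ hk]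
  rfl

end Pool.Agent.Lib_MP_e4b855_nt.Tri
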