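import Pool.Agent.Lib_MP_e4b855_nt.Tri.Defs

/-!
# Piece E3: the numerator of `B_m / m` does not divide `m!` for even `12 ≤ m < 230`, `m ≠ 14`

The integers `LL * B_m` (`LL` = product of the primes up to `229`) are computed in the kernel from
the recursion `∑_{k ≤ m} C(m+1, k) B_k = 0`; `loop` carries the row `m + 1` of Pascal's triangle and
the reversed lists of the positive and of the negative parts of `LL * B_k`, `k < m`.
-/

namespace Pool.Agent.Lib_MP_e4b855_nt.Tri

open Finset

namespace BernCAux

/-- next row of Pascal's triangle -/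
def nextRow : ℕ → List ℕ → List ℕ
  | p, [] => [p]
  | p, x :: xs => (p + x) :: nextRow x xs

/-- scalar product, truncated at the end of the shorter list -/
def dot : List ℕ → List ℕ → ℕ
  | [], _ => 0
  | _ :: _, [] => 0
  | c :: cs, a :: as => c * a + dot cs as

/-- the product of the primes up to `229` -/
def LL : ℕ :=
  19078266889580195013601891820992757757219839668357012055907516904309700014933909014729740190

/-- the absolute difference -/
def ad (a b : ℕ) : ℕ := (a - b) + (b - a)

/-- the test for one `m`: `p - n = LL * B_m`, `f = m!` -/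
def test (m p n f : ℕ) : Bool :=
  (m % 2 == 1) || Nat.ble m 11 || (m == 14) ||
    !((f % (ad p n / Nat.gcd (ad p n) (LL * m))) == 0)

/-- compute `LL * B_m` from the previous values and test, `k` times -/
def loop : ℕ → ℕ → List ℕ → List ℕ → List ℕ → ℕ → Bool
  | 0, _, _, _, _, _ => true
  | k + 1, m, row, P, N, f =>
    let sp := dot row.tail.tail P
    let sn := dot row.tail.tail N
    let p := (sn - sp) / (m + 1)
    let n := (sp - sn) / (m + 1)
    (p * (m + 1) + sp == n * (m + 1) + sn) && test m p n f &&
      loop k (m + 1) (nextRow 0 row) (p :: P) (n :: N) (f * (m + 1))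

theorem nextRow_zero (p : ℕ) (xs : List ℕ) : (nextRow p xs).getD 0 0 = p + xs.getD 0 0 := by
  cases xs with
  | nil => simp [nextRow]
  | cons x xs => simp [nextRow]

theorem nextRow_succ (xs : List ℕ) :
    ∀ (p i : ℕ), (nextRow p xs).getD (i + 1) 0 = xs.getD i 0 + xs.getD (i + 1) 0 := by
  induction xs with
  | nil => intro p i; simp [nextRow]
  | cons x xs ih =>
    intro p i
    have h1 : (nextRow p (x :: xs)).getD (i + 1) 0 = (nextRow x xs).getD i 0 := by
      simp only [nextRow, List.getD_cons_succ]
    rw [h1]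
    cases i with
    | zero =>
      rw [nextRow_zero, List.getD_cons_zero, List.getD_cons_succ]
    | succ j =>
      rw [ih x j, List.getD_cons_succ, List.getD_cons_succ]

/-- `r` is the row `k` of Pascal's triangle -/
def IsRow (k : ℕ) (r : List ℕ) : Prop := ∀ i : ℕ, r.getD i 0 = k.choose i

theorem isRow_next {k : ℕ} {r : List ℕ} (h : IsRow k r) : IsRow (k + 1) (nextRow 0 r) := by
  intro i
  cases i with
  | zero => rw [nextRow_zero, h 0, Nat.choose_zero_right, Nat.choose_zero_right]
  | succ j => rw [nextRow_succ, h j, h (j + 1), Nat.choose_succ_succ]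

theorem tail_getD (r : List ℕ) (i : ℕ) : r.tail.getD i 0 = r.getD (i + 1) 0 := by
  cases r with
  | nil => simp
  | cons x xs => rw [List.tail_cons, List.getD_cons_succ]

/-- the reversed lists of the positive and of the negative parts of `LL * B_k`, `k < m` -/
def Good : ℕ → List ℕ → List ℕ → Prop
  | 0, _, _ => True
  | m + 1, p :: P, n :: N => ((p : ℚ) - n = LL * bernoulli m) ∧ Good m P N
  | _ + 1, _, _ => False

theorem dot_sub (m : ℕ) : ∀ (P N : List ℕ), Good m P N → P.length = m → N.length = m →
    ∀ cs : List ℕ, (dot cs P : ℚ) - dot cs N =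
      ∑ i ∈ range m, (cs.getD i 0 : ℚ) * (LL * bernoulli (m - 1 - i)) := by
  induction m with
  | zero =>
    intro P N _ hP hN cs
    rw [List.length_eq_zero_iff] at hP hN
    subst hP
    subst hN
    cases cs <;> simp [dot]
  | succ m ih =>
    intro P N hg hP hN cs
    match P, N, hg with
    | p :: P, n :: N, hg =>
      have hP' : P.length = m := by simpa using hP
      have hN' : N.length = m := by simpa using hN
      rw [Finset.sum_range_succ']
      match cs with
      | [] =>
        have hz : ∀ i : ℕ, (([] : List ℕ).getD i 0 : ℚ) = 0 := by intro i; simp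
        simp only [hz, zero_mul, Finset.sum_const_zero, add_zero, dot, sub_self]
      | c :: cs =>
        have h1 := ih P N hg.2 hP' hN' cs
        have h2 : ∀ i ∈ range m, (((c :: cs).getD (i + 1) 0 : ℕ) : ℚ) *
            (LL * bernoulli (m + 1 - 1 - (i + 1))) =
            (cs.getD i 0 : ℚ) * (LL * bernoulli (m - 1 - i)) := by
          intro i _
          rw [List.getD_cons_succ]
          have : m + 1 - 1 - (i + 1) = m - 1 - i := by omega
          rw [this]
        rw [Finset.sum_congr rfl h2, ← h1, List.getD_cons_zero]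
        have h3 : m + 1 - 1 - 0 = m := by omega
        rw [h3, ← hg.1]
        simp only [dot]
        push_cast
        ring

theorem rec_sum {m : ℕ} (hm : 1 ≤ m) :
    ((m : ℚ) + 1) * bernoulli m +
      ∑ i ∈ range m, ((m + 1).choose (i + 2) : ℚ) * bernoulli (m - 1 - i) = 0 := by
  have h := sum_bernoulli (m + 1)
  rw [if_neg (by omega), Finset.sum_range_succ] at h
  have h1 : ((m + 1).choose m : ℚ) = (m : ℚ) + 1 := by
    rw [Nat.choose_succ_self_right]
    push_cast
    ring
  have h2 : ∑ i ∈ range m, ((m + 1).choose (i + 2) : ℚ) * bernoulli (m - 1 - i) =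
      ∑ k ∈ range m, ((m + 1).choose k : ℚ) * bernoulli k := by
    rw [← Finset.sum_range_reflect (fun k => ((m + 1).choose k : ℚ) * bernoulli k) m]
    refine Finset.sum_congr rfl fun i hi => ?_
    have hi' : i < m := Finset.mem_range.1 hi
    have h3 : (m + 1).choose (i + 2) = (m + 1).choose (m - 1 - i) := by
      rw [← Nat.choose_symm (show i + 2 ≤ m + 1 by omega)]
      congr 1
      omega
    rw [h3]
  rw [h2, ← h1]
  linarith

/-- the values are correct and the test is passed -/
def OK (m : ℕ) : Prop :=
  ∃ p n : ℕ, ((p : ℚ) - n = LL * bernoulli m) ∧ test m p n m.factorial = true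

theorem loop_sound (k : ℕ) : ∀ (m : ℕ) (row P N : List ℕ), 1 ≤ m → IsRow (m + 1) row →
    Good m P N → P.length = m → N.length = m → loop k m row P N m.factorial = true →
    ∀ j, m ≤ j → j < m + k → OK j := by
  induction k with
  | zero => intro m row P N _ _ _ _ _ _ j h1 h2; omega
  | succ k ih =>
    intro m row P N hm hrow hg hP hN hl j hj1 hj2
    simp only [loop, Bool.and_eq_true, beq_iff_eq] at hl
    obtain ⟨⟨he, ht⟩, hl⟩ := hl
    have hd := dot_sub m P N hg hP hN row.tail.tail
    set sp := dot row.tail.tail P with hsp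
    set sn := dot row.tail.tail N with hsn
    set p := (sn - sp) / (m + 1) with hp
    set n := (sp - sn) / (m + 1) with hn
    have hval : (p : ℚ) - n = LL * bernoulli m := by
      have hr := rec_sum hm
      have h1 : ∑ i ∈ range m, (row.tail.tail.getD i 0 : ℚ) * (LL * bernoulli (m - 1 - i)) =
          LL * ∑ i ∈ range m, ((m + 1).choose (i + 2) : ℚ) * bernoulli (m - 1 - i) := by
        rw [Finset.mul_sum]
        refine Finset.sum_congr rfl fun i _ => ?_
        rw [tail_getD, tail_getD, hrow (i + 1 + 1)]
        ring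
      rw [h1] at hd
      have he' : (p : ℚ) * (m + 1) + sp = n * (m + 1) + sn := by exact_mod_cast he
      have hm0 : (m : ℚ) + 1 ≠ 0 := by positivity
      have h3 : ((p : ℚ) - n) * (m + 1) = (LL * bernoulli m) * (m + 1) := by
        have h4 : (LL : ℚ) * (((m : ℚ) + 1) * bernoulli m +
          ∑ i ∈ range m, ((m + 1).choose (i + 2) : ℚ) * bernoulli (m - 1 - i)) = 0 := by
          rw [hr, mul_zero]
        linear_combination he' - hd - h4
      exact mul_right_cancel₀ hm0 h3
    rcases Nat.eq_or_lt_of_le hj1 with h | h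
    · subst h
      exact ⟨p, n, hval, ht⟩
    · refine ih (m + 1) (nextRow 0 row) (p :: P) (n :: N) (by omega) (isRow_next hrow)
        ⟨hval, hg⟩ (by simp [hP]) (by simp [hN]) ?_ j h (by omega)
      rw [Nat.factorial_succ, mul_comm]
      exact hl

theorem num_of_ok {m : ℕ} (hm : 0 < m) (he : m % 2 ≠ 1) (h12 : 12 ≤ m) (h14 : m ≠ 14)
    (h : OK m) : ¬ (bernoulli m / m).num ∣ (m.factorial : ℤ) := by
  obtain ⟨p, n, hv, ht⟩ := h
  have hL : 0 < LL := by unfold LL; norm_num
  have hb : 0 < LL * m := Nat.mul_pos hL hm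
  have hq : bernoulli m / m = Rat.divInt ((p : ℤ) - n) ((LL * m : ℕ) : ℤ) := by
    rw [Rat.divInt_eq_div]
    push_cast
    rw [hv]
    have h1 : (LL : ℚ) ≠ 0 := by exact_mod_cast hL.ne'
    have h2 : (m : ℚ) ≠ 0 := by exact_mod_cast hm.ne'
    field_simp
  have hnum : (bernoulli m / m).num.natAbs = ad p n / Nat.gcd (ad p n) (LL * m) := by
    rw [hq, Rat.num_divInt]
    have h1 : (((LL * m : ℕ) : ℤ)).sign = 1 := Int.sign_eq_one_of_pos (by exact_mod_cast hb)
    rw [h1, one_mul]
    have h2 : ad p n = ((p : ℤ) - n).natAbs := by unfold ad; omega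
    rw [h2]
    have h3 : (((LL * m : ℕ) : ℤ)).gcd ((p : ℤ) - n) = Nat.gcd ((p : ℤ) - n).natAbs (LL * m) := by
      rw [Int.gcd, Int.natAbs_natCast, Nat.gcd_comm]
    rw [h3, Int.natAbs_ediv_of_dvd, Int.natAbs_natCast]
    exact Int.natCast_dvd.2 (Nat.gcd_dvd_left _ _)
  intro hd
  have hd' : (bernoulli m / m).num.natAbs ∣ m.factorial := by
    have := Int.natAbs_dvd_natAbs.2 hd
    rwa [Int.natAbs_natCast] at this
  rw [hnum] at hd'
  have h0 := Nat.mod_eq_zero_of_dvd hd'
  have hble : Nat.ble m 11 = false := by
    rw [Bool.eq_false_iff]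
    intro hc
    have := Nat.le_of_ble_eq_true hc
    omega
  unfold test at ht
  rw [h0, hble] at ht
  have e1 : (m % 2 == 1) = false := by simpa using he
  have e2 : (m == 14) = false := by simpa using h14
  rw [e1, e2] at ht
  simp at ht

set_option maxRecDepth 100000 in
theorem loop_true : loop 229 1 [1, 2, 1] [LL] [0] 1 = true := by decide +kernel

theorem isRow_two : IsRow 2 [1, 2, 1] := by
  intro i
  match i with
  | 0 => rfl
  | 1 => rfl
  | 2 => rfl
  | j + 3 =>
    rw [Nat.choose_eq_zero_of_lt (by omega)]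
    simp

end BernCAux

open BernCAux in
/-- Piece E3.  finite check (compute the Bernoulli numbers in the kernel). -/
theorem bern_not_dvd_small {m : ℕ} (hm : Even m) (h12 : 12 ≤ m) (h14 : m ≠ 14) (h : m < 230) :
    ¬ (bernoulli m / m).num ∣ (m.factorial : ℤ) := by
  refine num_of_ok (by omega) ?_ h12 h14 ?_
  · have := Nat.even_iff.1 hm
    omega
  · refine loop_sound 229 1 [1, 2, 1] [LL] [0] le_rfl isRow_two ?_ rfl rfl loop_true m
      (by omega) (by omega)
    refine ⟨?_, trivial⟩
    rw [bernoulli_zero]
    norm_num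

end Pool.Agent.Lib_MP_e4b855_nt.Tri
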