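import Pool.Agent.Lib_MP_e4b855_nt.Tri.BernB
import Pool.Agent.Lib_MP_e4b855_nt.Tri.BernC

namespace Pool.Agent.Lib_MP_e4b855_nt.Tri

open Finset

/-- Piece E4.  (from the above) -/
theorem bern_exists {m : ℕ} (hm : Even m) (h12 : 12 ≤ m) (h14 : m ≠ 14) :
    ∃ p : ℕ, p.Prime ∧ p ≠ 2 ∧
      (padicValNat p (m * m.factorial) : ℤ) < padicValRat p (bernoulli m) := by
  by_contra hcon
  push Not at hcon
  have hmpos : 0 < m := by omega
  have h2 := bern_val_two hm hmpos
  have hB : bernoulli m ≠ 0 := by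
    intro h
    rw [h, padicValRat.zero] at h2
    omega
  have hm0 : (m : ℚ) ≠ 0 := by exact_mod_cast hmpos.ne'
  have hq : bernoulli m / (m : ℚ) ≠ 0 := div_ne_zero hB hm0
  have hnd : ¬ (bernoulli m / m).num ∣ (m.factorial : ℤ) := by
    by_cases h : 230 ≤ m
    · exact bern_not_dvd_large hm h
    · exact bern_not_dvd_small hm h12 h14 (by omega)
  apply hnd
  rw [Int.dvd_natCast]
  have hnum : (bernoulli m / (m : ℚ)).num.natAbs ≠ 0 := by
    rw [Int.natAbs_ne_zero]
    exact Rat.num_ne_zero.2 hq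
  rw [← Nat.factorization_prime_le_iff_dvd hnum (Nat.factorial_ne_zero m)]
  intro p hp
  haveI := Fact.mk hp
  rw [Nat.factorization_def _ hp, Nat.factorization_def _ hp]
  by_cases hdiv : p ∣ (bernoulli m / (m : ℚ)).num.natAbs
  · have hden : ¬ p ∣ (bernoulli m / (m : ℚ)).den := by
      intro h
      have h3 := Nat.dvd_gcd hdiv h
      rw [Nat.Coprime.gcd_eq_one (bernoulli m / (m : ℚ)).reduced] at h3
      exact hp.one_lt.ne' (Nat.dvd_one.1 h3)
    have hv : padicValRat p (bernoulli m / (m : ℚ)) =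
        (padicValNat p (bernoulli m / (m : ℚ)).num.natAbs : ℤ) := by
      rw [padicValRat_def, padicValNat.eq_zero_of_not_dvd hden, padicValInt]
      simp
    have hv2 : padicValRat p (bernoulli m / (m : ℚ)) =
        padicValRat p (bernoulli m) - (padicValNat p m : ℤ) := by
      rw [padicValRat.div hB hm0, padicValRat.of_nat]
    by_cases hp2 : p = 2
    · subst hp2
      rw [h2] at hv2
      omega
    · have h4 := hcon p hp hp2
      rw [padicValNat.mul hmpos.ne' (Nat.factorial_ne_zero m)] at h4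
      rw [Nat.cast_add] at h4
      have h5 : (padicValNat p (bernoulli m / (m : ℚ)).num.natAbs : ℤ) ≤
          (padicValNat p m.factorial : ℤ) := by
        rw [← hv, hv2]
        omega
      exact_mod_cast h5
  · rw [padicValNat.eq_zero_of_not_dvd hdiv]
    exact Nat.zero_le _

end Pool.Agent.Lib_MP_e4b855_nt.Tri
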