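import Pool.Agent.Lib_MP_e4b855_nt.Tri.Defs

namespace Pool.Agent.Lib_MP_e4b855_nt.Tri

open Finset

/-- `2 / (e^t + 1)` -/
noncomputable def bernaE : PowerSeries ℚ :=
  PowerSeries.mk fun n => 2 * (1 - 2 ^ (n + 1)) * bernoulli (n + 1) / (n + 1).factorial

theorem berna_X_mul : (PowerSeries.X : PowerSeries ℚ) * bernaE =
    2 * bernoulliPowerSeries ℚ - 2 * PowerSeries.rescale 2 (bernoulliPowerSeries ℚ) := by
  have h2 : ∀ f : PowerSeries ℚ, ∀ n, PowerSeries.coeff n (2 * f) = 2 * PowerSeries.coeff n f := by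
    intro f n
    rw [show (2 : PowerSeries ℚ) = PowerSeries.C 2 from (map_ofNat _ 2).symm,
      PowerSeries.coeff_C_mul]
  ext n
  rw [map_sub, h2, h2, PowerSeries.coeff_rescale]
  unfold bernoulliPowerSeries bernaE
  cases n with
  | zero =>
    rw [PowerSeries.coeff_zero_X_mul, PowerSeries.coeff_mk]
    simp
  | succ n =>
    rw [PowerSeries.coeff_succ_X_mul, PowerSeries.coeff_mk, PowerSeries.coeff_mk,
      Algebra.algebraMap_self_apply]
    ring

theorem berna_exp_sub_ne : (PowerSeries.exp ℚ - 1 : PowerSeries ℚ) ≠ 0 := by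
  intro h0
  have h1 := congrArg (PowerSeries.coeff 1) h0
  rw [map_sub, PowerSeries.coeff_exp, PowerSeries.coeff_one] at h1
  simp at h1

theorem berna_mul : bernaE * (PowerSeries.exp ℚ + 1) = 2 := by
  have hb := bernoulliPowerSeries_mul_exp_sub_one ℚ
  have hb2 := congrArg (PowerSeries.rescale (2 : ℚ)) hb
  have he : PowerSeries.rescale (2 : ℚ) (PowerSeries.exp ℚ) = PowerSeries.exp ℚ ^ 2 := by
    have := PowerSeries.exp_pow_eq_rescale_exp (A := ℚ) 2
    rw [this]
    norm_num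
  rw [map_mul, map_sub, map_one, he, PowerSeries.rescale_X,
    show (PowerSeries.C (2 : ℚ)) = (2 : PowerSeries ℚ) from map_ofNat _ 2] at hb2
  have hX : (PowerSeries.X : PowerSeries ℚ) ≠ 0 := PowerSeries.X_ne_zero
  apply mul_left_cancel₀ (mul_ne_zero hX berna_exp_sub_ne)
  have h1 := berna_X_mul
  linear_combination (PowerSeries.exp ℚ - 1) * (PowerSeries.exp ℚ + 1) * h1 +
    2 * (PowerSeries.exp ℚ + 1) * hb - 2 * hb2

/-- the Euler numbers `E_n(0)` -/
noncomputable def bernae (n : ℕ) : ℚ := n.factorial * PowerSeries.coeff n bernaE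

theorem berna_coeff (F : PowerSeries ℚ) (k a : ℕ) :
    (k.factorial : ℚ) * PowerSeries.coeff k (F * PowerSeries.exp ℚ ^ a) =
      ∑ i ∈ range (k + 1), (k.choose i : ℚ) * ((i.factorial : ℚ) * PowerSeries.coeff i F) *
        (a : ℚ) ^ (k - i) := by
  rw [PowerSeries.exp_pow_eq_rescale_exp, PowerSeries.coeff_mul,
    Finset.Nat.sum_antidiagonal_eq_sum_range_succ
      (fun i j => PowerSeries.coeff i F * PowerSeries.coeff j
        (PowerSeries.rescale (a : ℚ) (PowerSeries.exp ℚ))), Finset.mul_sum]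
  refine Finset.sum_congr rfl fun i hi => ?_
  have hik : i ≤ k := Nat.lt_succ_iff.1 (Finset.mem_range.1 hi)
  rw [PowerSeries.coeff_rescale, PowerSeries.coeff_exp, Nat.cast_choose ℚ hik,
    Algebra.algebraMap_self_apply]
  have h1 : (i.factorial : ℚ) ≠ 0 := by exact_mod_cast i.factorial_ne_zero
  have h2 : ((k - i).factorial : ℚ) ≠ 0 := by exact_mod_cast (k - i).factorial_ne_zero
  field_simp

theorem berna_rec (k : ℕ) : ∑ i ∈ range (k + 1), (k.choose i : ℚ) * bernae i + bernae k =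
    if k = 0 then 2 else 0 := by
  have h1 := berna_coeff bernaE k 1
  have h2 := congrArg (PowerSeries.coeff k) berna_mul
  have h3 : PowerSeries.coeff k (2 : PowerSeries ℚ) = if k = 0 then 2 else 0 := by
    rw [show (2 : PowerSeries ℚ) = PowerSeries.C 2 from (map_ofNat _ 2).symm,
      PowerSeries.coeff_C]
  rw [mul_add, mul_one, map_add, h3] at h2
  rw [pow_one] at h1
  simp only [Nat.cast_one, one_pow, mul_one] at h1
  unfold bernae
  rw [← h1, ← mul_add, h2]
  split_ifs with hk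
  · rw [hk]; simp
  · simp

theorem berna_int (k : ℕ) : ∃ z : ℤ, (2 : ℚ) ^ k * bernae k = z := by
  induction k using Nat.strong_induction_on with
  | _ k ih =>
    have h1 := berna_rec k
    rw [Finset.sum_range_succ, Nat.choose_self, Nat.cast_one, one_mul] at h1
    have h2 : ∃ z : ℤ, (2 : ℚ) ^ (k - 1) * ∑ i ∈ range k, (k.choose i : ℚ) * bernae i = z := by
      choose! f hf using ih
      refine ⟨∑ i ∈ range k, (k.choose i : ℤ) * 2 ^ (k - 1 - i) * f i, ?_⟩
      rw [Finset.mul_sum]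
      push_cast
      refine Finset.sum_congr rfl fun i hi => ?_
      have hik : i < k := Finset.mem_range.1 hi
      rw [← hf i hik]
      have h3 : (2 : ℚ) ^ (k - 1) = 2 ^ (k - 1 - i) * 2 ^ i := by
        rw [← pow_add]
        congr 1
        omega
      rw [h3]
      ring
    obtain ⟨z, hz⟩ := h2
    rcases Nat.eq_zero_or_pos k with rfl | hk
    · refine ⟨1, ?_⟩
      simp at h1 ⊢
      linarith
    · refine ⟨-z, ?_⟩
      rw [if_neg hk.ne'] at h1
      have h4 : (2 : ℚ) ^ k = 2 ^ (k - 1) * 2 := by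
        rw [← pow_succ]
        congr 1
        omega
      rw [h4]
      push_cast
      rw [← hz]
      linear_combination (2 : ℚ) ^ (k - 1) * h1

theorem berna_alt {q : ℕ} (hq : Odd q) (k : ℕ) :
    2 * ∑ j ∈ range q, (-1 : ℚ) ^ j * (j : ℚ) ^ k =
      bernae k + ∑ i ∈ range (k + 1), (k.choose i : ℚ) * bernae i * (q : ℚ) ^ (k - i) := by
  have h1 : (∑ j ∈ range q, (-PowerSeries.exp ℚ) ^ j) * (PowerSeries.exp ℚ + 1) =
      1 + PowerSeries.exp ℚ ^ q := by
    have h2 := geom_sum_mul (-PowerSeries.exp ℚ) q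
    rw [hq.neg_pow] at h2
    linear_combination (-1 : PowerSeries ℚ) * h2
  have h3 : 2 * ∑ j ∈ range q, (-PowerSeries.exp ℚ) ^ j = bernaE + bernaE * PowerSeries.exp ℚ ^ q := by
    linear_combination bernaE * h1 - (∑ j ∈ range q, (-PowerSeries.exp ℚ) ^ j) * berna_mul
  have h4 := congrArg (fun F => (k.factorial : ℚ) * PowerSeries.coeff k F) h3
  simp only [map_add, mul_add] at h4
  rw [berna_coeff] at h4
  have h5 : (k.factorial : ℚ) * PowerSeries.coeff k
      (2 * ∑ j ∈ range q, (-PowerSeries.exp ℚ) ^ j) =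
      2 * ∑ j ∈ range q, (-1 : ℚ) ^ j * (j : ℚ) ^ k := by
    rw [show (2 : PowerSeries ℚ) = PowerSeries.C 2 from (map_ofNat _ 2).symm,
      PowerSeries.coeff_C_mul, map_sum, mul_left_comm, Finset.mul_sum]
    congr 1
    refine Finset.sum_congr rfl fun j _ => ?_
    rw [neg_pow, show ((-1 : PowerSeries ℚ) ^ j) = PowerSeries.C ((-1 : ℚ) ^ j) by simp,
      PowerSeries.coeff_C_mul, PowerSeries.exp_pow_eq_rescale_exp, PowerSeries.coeff_rescale,
      PowerSeries.coeff_exp, Algebra.algebraMap_self_apply]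
    have h1 : (k.factorial : ℚ) ≠ 0 := by exact_mod_cast k.factorial_ne_zero
    field_simp
  rw [h5] at h4
  exact h4

/-- `q` does not divide `2^k E_k(0)` if the alternating sum is not divisible by `q` -/
theorem berna_not_dvd {q : ℕ} (hq : q.Prime) (hodd : Odd q) {k : ℕ} {z : ℤ}
    (hz : (2 : ℚ) ^ k * bernae k = z)
    (hS : (∑ j ∈ range q, (-1 : ZMod q) ^ j * (j : ZMod q) ^ k) ≠ 0) : ¬ (q : ℤ) ∣ z := by
  intro hdvd
  have h1 := berna_alt hodd k
  rw [Finset.sum_range_succ, Nat.choose_self, Nat.sub_self, pow_zero, mul_one, Nat.cast_one,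
    one_mul] at h1
  choose f hf using berna_int
  have h2 : (2 : ℤ) * (2 ^ k * ∑ j ∈ range q, (-1 : ℤ) ^ j * (j : ℤ) ^ k) =
      2 * z + ∑ i ∈ range k, (k.choose i : ℤ) * f i * (2 * q) ^ (k - i) := by
    have h3 : ((2 : ℤ) * (2 ^ k * ∑ j ∈ range q, (-1 : ℤ) ^ j * (j : ℤ) ^ k) : ℚ) =
        ((2 * z + ∑ i ∈ range k, (k.choose i : ℤ) * f i * (2 * q) ^ (k - i) : ℤ) : ℚ) := by
      push_cast
      have h4 : ∑ i ∈ range k, (k.choose i : ℚ) * (f i : ℚ) * (2 * (q : ℚ)) ^ (k - i) =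
          2 ^ k * ∑ i ∈ range k, (k.choose i : ℚ) * bernae i * (q : ℚ) ^ (k - i) := by
        rw [Finset.mul_sum]
        refine Finset.sum_congr rfl fun i hi => ?_
        have hik : i < k := Finset.mem_range.1 hi
        rw [← hf i, mul_pow]
        have h5 : (2 : ℚ) ^ k = 2 ^ i * 2 ^ (k - i) := by
          rw [← pow_add]
          congr 1
          omega
        rw [h5]
        ring
      rw [h4, ← hz]
      linear_combination (2 : ℚ) ^ k * h1
    exact_mod_cast h3
  have h5 : (q : ℤ) ∣ (2 : ℤ) * (2 ^ k * ∑ j ∈ range q, (-1 : ℤ) ^ j * (j : ℤ) ^ k) := by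
    rw [h2]
    refine dvd_add (hdvd.mul_left 2) (Finset.dvd_sum fun i hi => ?_)
    have hik : i < k := Finset.mem_range.1 hi
    refine Dvd.dvd.mul_left ?_ _
    exact dvd_pow (Dvd.intro_left 2 rfl) (by omega)
  have hqp : Prime (q : ℤ) := Nat.prime_iff_prime_int.1 hq
  have hq2 : ¬ (q : ℤ) ∣ 2 := by
    intro h6
    have h7 : q ∣ 2 := by exact_mod_cast h6
    have h8 : q = 2 := (Nat.prime_dvd_prime_iff_eq hq Nat.prime_two).1 h7
    rw [h8] at hodd
    exact absurd hodd (by decide)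
  rcases hqp.dvd_or_dvd h5 with h6 | h6
  · exact hq2 h6
  rcases hqp.dvd_or_dvd h6 with h7 | h7
  · exact hq2 (hqp.dvd_of_dvd_pow h7)
  apply hS
  have h9 := (ZMod.intCast_zmod_eq_zero_iff_dvd
    (∑ j ∈ range q, (-1 : ℤ) ^ j * (j : ℤ) ^ k) q).2 h7
  push_cast at h9
  exact h9

theorem berna_period {q : ℕ} [Fact q.Prime] {r : ℕ} (hr : 0 < r) (a : ℕ) :
    (∑ j ∈ range q, (-1 : ZMod q) ^ j * (j : ZMod q) ^ ((q - 1) * a + r)) =
      ∑ j ∈ range q, (-1 : ZMod q) ^ j * (j : ZMod q) ^ r := by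
  refine Finset.sum_congr rfl fun j _ => ?_
  congr 1
  induction a with
  | zero => simp
  | succ a ih =>
    rw [← ih]
    have hq1 : 1 ≤ q := (Fact.out : q.Prime).one_lt.le
    have h1 : (q - 1) * (a + 1) + r = ((q - 1) * a + r - 1) + q := by
      rw [mul_add, mul_one]
      omega
    have h2 : (q - 1) * a + r = ((q - 1) * a + r - 1) + 1 := by omega
    rw [h1, pow_add, ZMod.pow_card]
    conv_rhs => rw [h2, pow_succ]

theorem berna_d3 : (∑ j ∈ range 3, (-1 : ZMod 3) ^ j * (j : ZMod 3) ^ 1) ≠ 0 := by decide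

theorem berna_d5 : (∑ j ∈ range 5, (-1 : ZMod 5) ^ j * (j : ZMod 5) ^ 1) ≠ 0 := by decide

theorem berna_d5' : (∑ j ∈ range 5, (-1 : ZMod 5) ^ j * (j : ZMod 5) ^ 3) ≠ 0 := by decide

theorem berna_d7 : (∑ j ∈ range 7, (-1 : ZMod 7) ^ j * (j : ZMod 7) ^ 1) ≠ 0 := by decide

theorem berna_d7' : (∑ j ∈ range 7, (-1 : ZMod 7) ^ j * (j : ZMod 7) ^ 3) ≠ 0 := by decide

theorem berna_d7'' : (∑ j ∈ range 7, (-1 : ZMod 7) ^ j * (j : ZMod 7) ^ 5) ≠ 0 := by decide

theorem berna_S {q : ℕ} (hq : q = 3 ∨ q = 5 ∨ q = 7) {k : ℕ} (hk : Odd k) :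
    (∑ j ∈ range q, (-1 : ZMod q) ^ j * (j : ZMod q) ^ k) ≠ 0 := by
  rcases hq with rfl | rfl | rfl
  · have : Fact (Nat.Prime 3) := ⟨by norm_num⟩
    have h1 : k = (3 - 1) * (k / 2) + 1 := by
      obtain ⟨b, rfl⟩ := hk
      omega
    rw [h1, berna_period (by norm_num)]
    exact berna_d3
  · have : Fact (Nat.Prime 5) := ⟨by norm_num⟩
    have h0 : k % 4 = 1 ∨ k % 4 = 3 := by
      obtain ⟨b, rfl⟩ := hk
      omega
    rcases h0 with h0 | h0
    · have h1 : k = (5 - 1) * (k / 4) + 1 := by omega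
      rw [h1, berna_period (by norm_num)]
      exact berna_d5
    · have h1 : k = (5 - 1) * (k / 4) + 3 := by omega
      rw [h1, berna_period (by norm_num)]
      exact berna_d5'
  · have : Fact (Nat.Prime 7) := ⟨by norm_num⟩
    have h0 : k % 6 = 1 ∨ k % 6 = 3 ∨ k % 6 = 5 := by
      obtain ⟨b, rfl⟩ := hk
      omega
    rcases h0 with h0 | h0 | h0
    · have h1 : k = (7 - 1) * (k / 6) + 1 := by omega
      rw [h1, berna_period (by norm_num)]
      exact berna_d7
    · have h1 : k = (7 - 1) * (k / 6) + 3 := by omega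
      rw [h1, berna_period (by norm_num)]
      exact berna_d7'
    · have h1 : k = (7 - 1) * (k / 6) + 5 := by omega
      rw [h1, berna_period (by norm_num)]
      exact berna_d7''

/-- Piece E1.  `3, 5, 7` do not divide the numerator of `B_m / m` for even `m ≥ 2`.
Proof: `E_{m-1}(0) = -2 (2^m - 1) B_m / m · ...` is `2`-power-denominator and
`(2^m - 1) B_m / m ≡ ± (1/2) ∑_{0<j<q} (-1)^{j} j^{m-1} (mod q)`; the alternating sums are
nonzero mod `3, 5, 7` for even `m`.  (For `(q-1) ∣ m` it also follows from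
`Bernoulli.vonStaudt_clausen`.) -/
theorem bern_val_small {m : ℕ} (hm : Even m) (h0 : 0 < m) {q : ℕ} (hq : q = 3 ∨ q = 5 ∨ q = 7) :
    padicValRat q (bernoulli m / m) ≤ 0 := by
  have hqp : q.Prime := by
    rcases hq with rfl | rfl | rfl <;> norm_num
  have hqo : Odd q := by
    rcases hq with rfl | rfl | rfl <;> decide
  have : Fact q.Prime := ⟨hqp⟩
  obtain ⟨z, hz⟩ := berna_int (m - 1)
  have hk : Odd (m - 1) := by
    obtain ⟨b, rfl⟩ := hm
    exact ⟨b - 1, by omega⟩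
  have hnd := berna_not_dvd hqp hqo hz (berna_S hq hk)
  have hval : (2 : ℚ) ^ (m - 1) * bernae (m - 1) = (2 : ℚ) ^ m * (1 - 2 ^ m) * (bernoulli m / m) := by
    unfold bernae bernaE
    rw [PowerSeries.coeff_mk]
    obtain ⟨n, rfl⟩ : ∃ n, m = n + 1 := ⟨m - 1, by omega⟩
    rw [Nat.add_sub_cancel, Nat.factorial_succ]
    have h1 : (n.factorial : ℚ) ≠ 0 := by exact_mod_cast n.factorial_ne_zero
    have h2 : ((n : ℚ) + 1) ≠ 0 := by exact_mod_cast n.succ_ne_zero
    push_cast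
    field_simp
    ring
  rw [hval] at hz
  by_cases hB : bernoulli m / (m : ℚ) = 0
  · rw [hB]
    simp
  · have h2m : (2 : ℚ) ^ m ≠ 0 := by positivity
    have h1m : (1 - 2 ^ m : ℚ) ≠ 0 := by
      have h3 : (1 : ℚ) < 2 ^ m := one_lt_pow₀ (by norm_num) h0.ne'
      intro h4
      linarith
    have h5 : padicValRat q ((2 : ℚ) ^ m * (1 - 2 ^ m) * (bernoulli m / m)) = 0 := by
      rw [hz, padicValRat.of_int]
      have : padicValInt q z = 0 := padicValInt.eq_zero_of_not_dvd hnd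
      rw [this]
      rfl
    rw [padicValRat.mul (mul_ne_zero h2m h1m) hB, padicValRat.mul h2m h1m] at h5
    have h6 : 0 ≤ padicValRat q ((2 : ℚ) ^ m) := by
      have : ((2 : ℚ) ^ m) = (((2 : ℤ) ^ m : ℤ) : ℚ) := by push_cast; rfl
      rw [this, padicValRat.of_int]
      exact Int.natCast_nonneg _
    have h7 : 0 ≤ padicValRat q (1 - (2 : ℚ) ^ m) := by
      have : (1 - (2 : ℚ) ^ m) = ((1 - (2 : ℤ) ^ m : ℤ) : ℚ) := by push_cast; rfl
      rw [this, padicValRat.of_int]
      exact Int.natCast_nonneg _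
    linarith

theorem berna_staudt {m : ℕ} (hm : Even m) (h0 : 0 < m) {p : ℕ} (hp : p = 2 ∨ p = 3) :
    padicValRat p (bernoulli m) = -1 := by
  have hpp : p.Prime := by
    rcases hp with rfl | rfl <;> norm_num
  have : Fact p.Prime := ⟨hpp⟩
  obtain ⟨k, hk⟩ := hm
  have hmk : m = 2 * k := by omega
  obtain ⟨z, hz⟩ := Bernoulli.vonStaudt_clausen k
  rw [← hmk] at hz
  set s := (range (m + 2)).filter (fun p => p.Prime ∧ (p - 1) ∣ m) with hs
  have hps : p ∈ s := by
    rw [hs, Finset.mem_filter, Finset.mem_range]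
    refine ⟨?_, hpp, ?_⟩
    · rcases hp with rfl | rfl <;> omega
    · rcases hp with rfl | rfl
      · simp
      · exact ⟨k, hmk⟩
  have hB : bernoulli m = -(1 / (p : ℚ)) + (z - ∑ q ∈ s.erase p, (1 : ℚ) / q) := by
    have h1 : ∑ q ∈ s, (1 : ℚ) / q = 1 / p + ∑ q ∈ s.erase p, (1 : ℚ) / q :=
      (Finset.add_sum_erase s _ hps).symm
    rw [h1] at hz
    linarith
  have hn1 : padicNorm p (-(1 / (p : ℚ))) = p := by
    rw [padicNorm.neg, padicNorm.div, padicNorm.one, padicNorm.padicNorm_p_of_prime]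
    simp
  have hn2 : padicNorm p ((z : ℚ) - ∑ q ∈ s.erase p, (1 : ℚ) / q) ≤ 1 := by
    have h3 : padicNorm p (∑ q ∈ s.erase p, (1 : ℚ) / q) ≤ 1 := by
      apply padicNorm.sum_le'
      · intro q hq
        obtain ⟨hqp, hqs⟩ := Finset.mem_erase.1 hq
        rw [hs, Finset.mem_filter] at hqs
        have : Fact q.Prime := ⟨hqs.2.1⟩
        rw [padicNorm.div, padicNorm.one, padicNorm.padicNorm_of_prime_of_ne (Ne.symm hqp)]
        norm_num
      · exact zero_le_one
    exact (padicNorm.sub).trans (max_le (padicNorm.of_int z) h3)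
  have hp1 : (1 : ℚ) < p := by exact_mod_cast hpp.one_lt
  have hn : padicNorm p (bernoulli m) = p := by
    rw [hB, padicNorm.add_eq_max_of_ne (by rw [hn1]; intro h; rw [← h] at hn2; linarith), hn1,
      max_eq_left (hn2.trans hp1.le)]
  have hB0 : bernoulli m ≠ 0 := by
    intro h
    rw [h, padicNorm.zero] at hn
    linarith
  rw [padicNorm.eq_zpow_of_nonzero hB0] at hn
  have h4 : (p : ℚ) ^ (-padicValRat p (bernoulli m)) = (p : ℚ) ^ (1 : ℤ) := by rw [hn, zpow_one]
  have h5 := zpow_right_injective₀ (by linarith) (ne_of_gt hp1) h4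
  omega

/-- the numerator of `B_m / m` is odd (in fact `v_2 (B_m) = -1`, von Staudt) -/
theorem bern_val_two {m : ℕ} (hm : Even m) (h0 : 0 < m) : padicValRat 2 (bernoulli m) = -1 :=
  berna_staudt hm h0 (Or.inl rfl)

/-- `v_3 (B_m) = -1`, von Staudt -/
theorem bern_val_three {m : ℕ} (hm : Even m) (h0 : 0 < m) :
    padicValRat 3 (bernoulli m) = -1 :=
  berna_staudt hm h0 (Or.inr rfl)

end Pool.Agent.Lib_MP_e4b855_nt.Tri
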