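import Pool.Agent.Lib_MP_e4b855_nt.Tri.BernA

namespace Pool.Agent.Lib_MP_e4b855_nt.Tri

open Finset

/-- a power of `p` divides the denominator when the valuation is negative -/
theorem pow_dvd_den {p k : ℕ} [Fact p.Prime] {q : ℚ} (h : padicValRat p q ≤ -(k : ℤ)) :
    p ^ k ∣ q.den := by
  have h1 : padicValRat p q = (padicValInt p q.num : ℤ) - (padicValNat p q.den : ℤ) := rfl
  have h2 : k ≤ padicValNat p q.den := by omega
  exact (pow_dvd_pow p h2).trans pow_padicValNat_dvd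

/-- the numerator is prime to `p` when the valuation is at most zero -/
theorem num_coprime {p : ℕ} [hp : Fact p.Prime] {q : ℚ} (hq : q ≠ 0) (h : padicValRat p q ≤ 0) :
    Nat.Coprime q.num.natAbs p := by
  rw [Nat.coprime_comm, Nat.Prime.coprime_iff_not_dvd hp.out]
  intro hd
  have h1 : padicValRat p q = (padicValInt p q.num : ℤ) - (padicValNat p q.den : ℤ) := rfl
  have h2 : ¬ p ∣ q.den := by
    intro h3
    have h4 := Nat.dvd_gcd hd h3
    rw [q.reduced] at h4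
    exact hp.out.one_lt.ne' (Nat.dvd_one.mp h4)
  have h3 : padicValNat p q.den = 0 := padicValNat.eq_zero_of_not_dvd h2
  have h4 : 1 ≤ padicValInt p q.num := by
    rw [padicValInt]
    have h5 : q.num.natAbs ≠ 0 := by
      rw [Int.natAbs_ne_zero]
      exact Rat.num_ne_zero.mpr hq
    exact one_le_padicValNat_of_dvd h5 hd
  omega

/-- Legendre: `p ^ n ≤ p ^ ((p-1) v) (p n) ^ (p-1)` with `v = v_p (n!)` -/
theorem legendre_le {p n : ℕ} [hp : Fact p.Prime] (hn : n ≠ 0) :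
    p ^ n ≤ (p ^ padicValNat p n.factorial) ^ (p - 1) * (p * n) ^ (p - 1) := by
  have h1 := sub_one_mul_padicValNat_factorial (p := p) n
  have h2 : (p.digits n).sum ≤ (p - 1) * (p.log n + 1) := by
    have h3 : ∀ d ∈ p.digits n, d ≤ p - 1 := fun d hd => by
      have := Nat.digits_lt_base hp.out.one_lt hd
      omega
    have h4 := List.sum_le_card_nsmul _ _ h3
    rw [Nat.length_digits p n hp.out.one_lt hn, smul_eq_mul, mul_comm] at h4
    exact h4
  have h3 : n ≤ (p - 1) * padicValNat p n.factorial + (p - 1) * (p.log n + 1) := by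
    have h4 : (p.digits n).sum ≤ n := Nat.digit_sum_le p n
    omega
  calc p ^ n ≤ p ^ ((p - 1) * padicValNat p n.factorial + (p - 1) * (p.log n + 1)) :=
        Nat.pow_le_pow_right hp.out.pos h3
    _ = (p ^ padicValNat p n.factorial) ^ (p - 1) * (p ^ (p.log n + 1)) ^ (p - 1) := by
        rw [pow_add, ← pow_mul, ← pow_mul, mul_comm (p - 1) (padicValNat p n.factorial),
          mul_comm (p - 1) (p.log n + 1)]
    _ ≤ (p ^ padicValNat p n.factorial) ^ (p - 1) * (p * n) ^ (p - 1) := by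
        refine Nat.mul_le_mul_left _ (Nat.pow_le_pow_left ?_ _)
        rw [pow_succ, mul_comm]
        exact Nat.mul_le_mul_left _ (Nat.pow_log_le_self p hn)

/-- size of the Bernoulli numbers -/
theorem bern_size {m : ℕ} (hm : Even m) (h0 : 0 < m) :
    2 * (m.factorial : ℝ) ≤ |(bernoulli m : ℝ)| * (2 * Real.pi) ^ m := by
  obtain ⟨k, hk⟩ := hm
  have hk0 : k ≠ 0 := by omega
  have e : m = 2 * k := by omega
  subst e
  have h1 := hasSum_zeta_nat hk0
  have h2 : (1 : ℝ) ≤ (-1) ^ (k + 1) * 2 ^ (2 * k - 1) * Real.pi ^ (2 * k) * bernoulli (2 * k) /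
      (2 * k).factorial := by
    have h3 := sum_le_hasSum ({1} : Finset ℕ) (fun i _ => by positivity) h1
    simpa using h3
  have hf : (0 : ℝ) < (2 * k).factorial := by exact_mod_cast Nat.factorial_pos _
  have h3 : |(-1 : ℝ) ^ (k + 1) * 2 ^ (2 * k - 1) * Real.pi ^ (2 * k) * bernoulli (2 * k) /
      (2 * k).factorial| = |(bernoulli (2 * k) : ℝ)| * (2 ^ (2 * k - 1) * Real.pi ^ (2 * k)) /
        (2 * k).factorial := by
    rw [abs_div, abs_mul, abs_mul, abs_mul, abs_pow, abs_neg, abs_one, one_pow, one_mul,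
      abs_of_pos (by positivity : (0 : ℝ) < 2 ^ (2 * k - 1)),
      abs_of_pos (by positivity : (0 : ℝ) < Real.pi ^ (2 * k)), abs_of_pos hf]
    ring
  have h4 : (1 : ℝ) ≤ |(bernoulli (2 * k) : ℝ)| * (2 ^ (2 * k - 1) * Real.pi ^ (2 * k)) /
        (2 * k).factorial := by
    rw [← h3]
    exact h2.trans (le_abs_self _)
  rw [le_div_iff₀ hf, one_mul] at h4
  have h5 : (2 * Real.pi) ^ (2 * k) = 2 * (2 ^ (2 * k - 1) * Real.pi ^ (2 * k)) := by
    have h6 : 2 * k = (2 * k - 1) + 1 := by omega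
    rw [mul_pow]
    conv_lhs => rw [h6, pow_succ]
    rw [← h6]
    ring
  rw [h5]
  linarith

/-- growth comparison -/
theorem growth {m : ℕ} (h : 230 ≤ m) :
    ((35 / 4 : ℝ) * (m : ℝ) ^ 5) ^ 12 < (48 / 10 : ℝ) ^ m := by
  induction m, h using Nat.le_induction with
  | base => norm_num
  | succ m hm ih =>
    have hm' : (230 : ℝ) ≤ m := by exact_mod_cast hm
    have h1 : ((m : ℝ) + 1) ≤ (231 / 230) * m := by linarith
    have h2 : ((35 / 4 : ℝ) * ((m : ℝ) + 1) ^ 5) ^ 12 ≤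
        (231 / 230) ^ 60 * ((35 / 4 : ℝ) * (m : ℝ) ^ 5) ^ 12 := by
      calc ((35 / 4 : ℝ) * ((m : ℝ) + 1) ^ 5) ^ 12
          ≤ ((35 / 4 : ℝ) * ((231 / 230) * m) ^ 5) ^ 12 := by gcongr
        _ = (231 / 230) ^ 60 * ((35 / 4 : ℝ) * (m : ℝ) ^ 5) ^ 12 := by ring
    have h3 : ((231 : ℝ) / 230) ^ 60 ≤ 48 / 10 := by norm_num
    push_cast
    calc ((35 / 4 : ℝ) * ((m : ℝ) + 1) ^ 5) ^ 12
        ≤ (231 / 230) ^ 60 * ((35 / 4 : ℝ) * (m : ℝ) ^ 5) ^ 12 := h2
      _ ≤ (48 / 10) * ((35 / 4 : ℝ) * (m : ℝ) ^ 5) ^ 12 := by gcongr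
      _ < (48 / 10) * (48 / 10) ^ m := by gcongr
      _ = (48 / 10) ^ (m + 1) := by ring

/-- Piece E2.  size: `|B_m| ≥ 2 m! / (2π)^m` (`riemannZeta_two_mul_nat`), the numerator of `B_m/m`
is prime to `2, 3, 5, 7`, so if it divided `m!` it would be at most
`m! / (2^a 3^b 5^c 7^d)`, which is smaller than `24 (m!) / (m (2π)^m)` for `m ≥ 230`
(`2 · 3^(1/2) · 5^(1/4) · 7^(1/6) > 7.16 > 2π`). -/
theorem bern_not_dvd_large {m : ℕ} (hm : Even m) (h : 230 ≤ m) :
    ¬ (bernoulli m / m).num ∣ (m.factorial : ℤ) := by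
  intro hd
  have h0 : 0 < m := by omega
  have f2 : Fact (Nat.Prime 2) := ⟨Nat.prime_two⟩
  have f3 : Fact (Nat.Prime 3) := ⟨Nat.prime_three⟩
  have f5 : Fact (Nat.Prime 5) := ⟨Nat.prime_five⟩
  have f7 : Fact (Nat.Prime 7) := ⟨by norm_num⟩
  have hmQ : (m : ℚ) ≠ 0 := by exact_mod_cast h0.ne'
  have hB : bernoulli m ≠ 0 := by
    intro hz
    have h1 := bern_size hm h0
    rw [hz] at h1
    have h2 : (0 : ℝ) < m.factorial := by exact_mod_cast Nat.factorial_pos _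
    simp at h1
    linarith
  have hq : bernoulli m / m ≠ 0 := div_ne_zero hB hmQ
  -- valuations
  have v2 : padicValRat 2 (bernoulli m / m) ≤ -((2 : ℕ) : ℤ) := by
    rw [padicValRat.div hB hmQ, bern_val_two hm h0, padicValRat.of_nat]
    have h1 : 1 ≤ padicValNat 2 m := one_le_padicValNat_of_dvd h0.ne' hm.two_dvd
    omega
  have v3 : padicValRat 3 (bernoulli m / m) ≤ -((1 : ℕ) : ℤ) := by
    rw [padicValRat.div hB hmQ, bern_val_three hm h0, padicValRat.of_nat]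
    omega
  have hden : 12 ≤ (bernoulli m / m).den := by
    have h1 : 2 ^ 2 ∣ (bernoulli m / m).den := pow_dvd_den v2
    have h2 : 3 ^ 1 ∣ (bernoulli m / m).den := pow_dvd_den v3
    have h3 : 2 ^ 2 * 3 ^ 1 ∣ (bernoulli m / m).den :=
      Nat.Coprime.mul_dvd_of_dvd_of_dvd (by norm_num) h1 h2
    have h4 := Nat.le_of_dvd (bernoulli m / m).den_pos h3
    norm_num at h4
    exact h4
  set n : ℕ := (bernoulli m / m).num.natAbs with hn
  have c2 : Nat.Coprime n 2 := num_coprime hq (by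
    have : -((2 : ℕ) : ℤ) ≤ 0 := by norm_num
    exact v2.trans this)
  have c3 : Nat.Coprime n 3 := num_coprime hq (bern_val_small hm h0 (Or.inl rfl))
  have c5 : Nat.Coprime n 5 := num_coprime hq (bern_val_small hm h0 (Or.inr (Or.inl rfl)))
  have c7 : Nat.Coprime n 7 := num_coprime hq (bern_val_small hm h0 (Or.inr (Or.inr rfl)))
  have hnd : n ∣ m.factorial := by
    have h1 := Int.natAbs_dvd_natAbs.mpr hd
    simpa using h1
  -- the prime power part
  set X : ℕ := 2 ^ padicValNat 2 m.factorial * 3 ^ padicValNat 3 m.factorial *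
    5 ^ padicValNat 5 m.factorial * 7 ^ padicValNat 7 m.factorial with hX
  have hXd : n * X ∣ m.factorial := by
    have d2 : 2 ^ padicValNat 2 m.factorial ∣ m.factorial := pow_padicValNat_dvd
    have d3 : 3 ^ padicValNat 3 m.factorial ∣ m.factorial := pow_padicValNat_dvd
    have d5 : 5 ^ padicValNat 5 m.factorial ∣ m.factorial := pow_padicValNat_dvd
    have d7 : 7 ^ padicValNat 7 m.factorial ∣ m.factorial := pow_padicValNat_dvd
    have e1 : Nat.Coprime (2 ^ padicValNat 2 m.factorial) (3 ^ padicValNat 3 m.factorial) :=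
      Nat.Coprime.pow _ _ (by norm_num)
    have e2 : Nat.Coprime (2 ^ padicValNat 2 m.factorial * 3 ^ padicValNat 3 m.factorial)
        (5 ^ padicValNat 5 m.factorial) :=
      Nat.Coprime.mul_left (Nat.Coprime.pow _ _ (by norm_num)) (Nat.Coprime.pow _ _ (by norm_num))
    have e3 : Nat.Coprime (2 ^ padicValNat 2 m.factorial * 3 ^ padicValNat 3 m.factorial *
        5 ^ padicValNat 5 m.factorial) (7 ^ padicValNat 7 m.factorial) :=
      Nat.Coprime.mul_left (Nat.Coprime.mul_left (Nat.Coprime.pow _ _ (by norm_num))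
        (Nat.Coprime.pow _ _ (by norm_num))) (Nat.Coprime.pow _ _ (by norm_num))
    have h1 : X ∣ m.factorial :=
      e3.mul_dvd_of_dvd_of_dvd (e2.mul_dvd_of_dvd_of_dvd (e1.mul_dvd_of_dvd_of_dvd d2 d3) d5) d7
    have h2 : Nat.Coprime n X :=
      Nat.Coprime.mul_right (Nat.Coprime.mul_right (Nat.Coprime.mul_right
        (Nat.Coprime.pow_right _ c2) (Nat.Coprime.pow_right _ c3)) (Nat.Coprime.pow_right _ c5))
        (Nat.Coprime.pow_right _ c7)
    exact h2.mul_dvd_of_dvd_of_dvd hnd h1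
  have hle : n * X ≤ m.factorial := Nat.le_of_dvd (Nat.factorial_pos _) hXd
  -- the real inequality
  have hnR : (12 : ℝ) * |(bernoulli m : ℝ)| ≤ n * m := by
    have h1 : (bernoulli m / m : ℚ) = (bernoulli m / m).num / (bernoulli m / m).den :=
      (Rat.num_div_den _).symm
    have h2 : |(bernoulli m : ℝ)| / m = n / ((bernoulli m / m).den : ℝ) := by
      have h3 : ((bernoulli m / m : ℚ) : ℝ) = ((bernoulli m / m).num : ℝ) /
          ((bernoulli m / m).den : ℝ) := by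
        exact_mod_cast congrArg (fun t : ℚ => (t : ℝ)) h1
      have h4 : |((bernoulli m / m : ℚ) : ℝ)| = |(bernoulli m : ℝ)| / m := by
        push_cast
        rw [abs_div, Nat.abs_cast]
      rw [← h4, h3, abs_div, Nat.abs_cast, hn]
      congr 1
      rw [Nat.cast_natAbs]
      push_cast
      rfl
    have hmR : (0 : ℝ) < m := by exact_mod_cast h0
    have hdR : (12 : ℝ) ≤ ((bernoulli m / m).den : ℝ) := by exact_mod_cast hden
    rw [div_eq_div_iff hmR.ne' (by linarith)] at h2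
    calc (12 : ℝ) * |(bernoulli m : ℝ)| ≤ ((bernoulli m / m).den : ℝ) * |(bernoulli m : ℝ)| := by
          gcongr
      _ = n * m := by rw [mul_comm, h2]
  have hsz := bern_size hm h0
  have hpi : (2 * Real.pi) ^ m ≤ (6.2832 : ℝ) ^ m := by
    have h1 := Real.pi_lt_d4
    gcongr
    linarith
  have hfac : (0 : ℝ) < m.factorial := by exact_mod_cast Nat.factorial_pos _
  have hmR : (0 : ℝ) < m := by exact_mod_cast h0
  have hX24 : 24 * (X : ℝ) ≤ m * (6.2832 : ℝ) ^ m := by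
    have h1 : (n : ℝ) * X ≤ m.factorial := by exact_mod_cast hle
    have h2 : 24 * (m.factorial : ℝ) ≤ n * m * (6.2832 : ℝ) ^ m := by
      calc 24 * (m.factorial : ℝ) = 12 * (2 * (m.factorial : ℝ)) := by ring
        _ ≤ 12 * (|(bernoulli m : ℝ)| * (2 * Real.pi) ^ m) := by gcongr
        _ ≤ 12 * (|(bernoulli m : ℝ)| * (6.2832 : ℝ) ^ m) := by gcongr
        _ = (12 * |(bernoulli m : ℝ)|) * (6.2832 : ℝ) ^ m := by ring
        _ ≤ (n * m) * (6.2832 : ℝ) ^ m := by gcongr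
    have hnpos : (0 : ℝ) < n := by
      have h3 : n ≠ 0 := by
        rw [hn, Int.natAbs_ne_zero]
        exact Rat.num_ne_zero.mpr hq
      exact_mod_cast Nat.pos_of_ne_zero h3
    have h3 : (n : ℝ) * (24 * X) ≤ n * (m * (6.2832 : ℝ) ^ m) := by
      calc (n : ℝ) * (24 * X) = 24 * (n * X) := by ring
        _ ≤ 24 * (m.factorial : ℝ) := by gcongr
        _ ≤ n * m * (6.2832 : ℝ) ^ m := h2
        _ = n * (m * (6.2832 : ℝ) ^ m) := by ring
    exact le_of_mul_le_mul_left h3 hnpos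
  -- Legendre
  have L2 := legendre_le (p := 2) h0.ne'
  have L3 := legendre_le (p := 3) h0.ne'
  have L5 := legendre_le (p := 5) h0.ne'
  have L7 := legendre_le (p := 7) h0.ne'
  norm_num at L2 L3 L5 L7
  have L2' : (2 : ℝ) ^ m ≤ 2 ^ padicValNat 2 m.factorial * (2 * m) := by exact_mod_cast L2
  have L3' : (3 : ℝ) ^ m ≤ (3 ^ padicValNat 3 m.factorial) ^ 2 * (3 * m) ^ 2 := by
    exact_mod_cast L3
  have L5' : (5 : ℝ) ^ m ≤ (5 ^ padicValNat 5 m.factorial) ^ 4 * (5 * m) ^ 4 := by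
    exact_mod_cast L5
  have L7' : (7 : ℝ) ^ m ≤ (7 ^ padicValNat 7 m.factorial) ^ 6 * (7 * m) ^ 6 := by
    exact_mod_cast L7
  have hXR : (X : ℝ) = 2 ^ padicValNat 2 m.factorial * 3 ^ padicValNat 3 m.factorial *
    5 ^ padicValNat 5 m.factorial * 7 ^ padicValNat 7 m.factorial := by
    rw [hX]
    push_cast
    ring
  have hK : (18289152000 : ℝ) ^ m ≤ (X : ℝ) ^ 12 * (210 * (m : ℝ) ^ 4) ^ 12 := by
    calc (18289152000 : ℝ) ^ m = ((2 : ℝ) ^ m) ^ 12 * ((3 : ℝ) ^ m) ^ 6 * ((5 : ℝ) ^ m) ^ 3 *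
          ((7 : ℝ) ^ m) ^ 2 := by
          rw [← pow_mul, ← pow_mul, ← pow_mul, ← pow_mul, mul_comm m 12, mul_comm m 6,
            mul_comm m 3, mul_comm m 2, pow_mul, pow_mul, pow_mul, pow_mul, ← mul_pow, ← mul_pow,
            ← mul_pow]
          norm_num
      _ ≤ (2 ^ padicValNat 2 m.factorial * (2 * m)) ^ 12 *
          ((3 ^ padicValNat 3 m.factorial) ^ 2 * (3 * m) ^ 2) ^ 6 *
          ((5 ^ padicValNat 5 m.factorial) ^ 4 * (5 * m) ^ 4) ^ 3 *
          ((7 ^ padicValNat 7 m.factorial) ^ 6 * (7 * m) ^ 6) ^ 2 := by gcongr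
      _ = (X : ℝ) ^ 12 * (210 * (m : ℝ) ^ 4) ^ 12 := by
          rw [hXR]
          ring
  have h24 : (24 * (X : ℝ)) ^ 12 ≤ (m * (6.2832 : ℝ) ^ m) ^ 12 := by gcongr
  have hfin : (18289152000 : ℝ) ^ m ≤ ((35 / 4 : ℝ) * (m : ℝ) ^ 5) ^ 12 * ((6.2832 : ℝ) ^ 12) ^ m := by
    calc (18289152000 : ℝ) ^ m ≤ (X : ℝ) ^ 12 * (210 * (m : ℝ) ^ 4) ^ 12 := hK
      _ = (24 * (X : ℝ)) ^ 12 * ((35 / 4) * (m : ℝ) ^ 4) ^ 12 := by ring
      _ ≤ (m * (6.2832 : ℝ) ^ m) ^ 12 * ((35 / 4) * (m : ℝ) ^ 4) ^ 12 := by gcongr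
      _ = ((35 / 4 : ℝ) * (m : ℝ) ^ 5) ^ 12 * ((6.2832 : ℝ) ^ 12) ^ m := by
          rw [← pow_mul (6.2832 : ℝ) 12 m, mul_comm 12 m, pow_mul]
          ring
  have hg := growth h
  have hr : (48 / 10 : ℝ) * (6.2832 : ℝ) ^ 12 ≤ 18289152000 := by norm_num
  have hlast : (48 / 10 : ℝ) ^ m * ((6.2832 : ℝ) ^ 12) ^ m ≤ 18289152000 ^ m := by
    rw [← mul_pow]
    gcongr
  have hpos : (0 : ℝ) < ((6.2832 : ℝ) ^ 12) ^ m := by positivity
  have := mul_lt_mul_of_pos_right hg hpos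
  linarith

end Pool.Agent.Lib_MP_e4b855_nt.Tri
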