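import Pool.Agent.Lib_MP_e4b855_nt.Tri.Trip2

/-!
# Part III: bounds for the units
-/

namespace Pool.Agent.Lib_MP_e4b855_nt.Tri

open PowerSeries Finset

private theorem ba_aux {N : ℕ} [NeZero N] (L : Type) [Field L] [Algebra ℚ L]
    [IsCyclotomicExtension {N} ℚ L] (P : Polynomial ℤ)
    (hP : ∀ ζ ∈ primitiveRoots N ℂ, Polynomial.aeval ζ P ≠ 0) :
    1 ≤ ∏ ζ ∈ primitiveRoots N ℂ, ‖Polynomial.aeval ζ P‖ := by
  have hN : 0 < N := NeZero.pos N
  have : FiniteDimensional ℚ L := IsCyclotomicExtension.finiteDimensional {N} ℚ L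
  set z : L := IsCyclotomicExtension.zeta N ℚ L with hzdef
  have hz : IsPrimitiveRoot z N := IsCyclotomicExtension.zeta_spec N ℚ L
  have hirr : Irreducible (Polynomial.cyclotomic N ℚ) := Polynomial.cyclotomic.irreducible_rat hN
  set x : L := Polynomial.aeval z P with hx
  have hxint : IsIntegral ℤ x := by
    exact adjoin_le_integralClosure (hz.isIntegral hN)
      (Polynomial.aeval_mem_adjoin_singleton (R := ℤ) (p := P) z)
  have hnorm : IsIntegral ℤ (Algebra.norm ℚ x) := Algebra.isIntegral_norm ℚ hxint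
  obtain ⟨n, hn⟩ := IsIntegrallyClosed.isIntegral_iff.1 hnorm
  have hprod : algebraMap ℚ ℂ (Algebra.norm ℚ x) =
      ∏ ζ ∈ primitiveRoots N ℂ, Polynomial.aeval ζ P := by
    rw [Algebra.norm_eq_prod_embeddings ℚ ℂ x,
      ← Finset.prod_coe_sort (primitiveRoots N ℂ) (fun ζ => Polynomial.aeval ζ P)]
    refine Fintype.prod_equiv (hz.embeddingsEquivPrimitiveRoots ℂ hirr) _ _ fun σ => ?_
    rw [hz.embeddingsEquivPrimitiveRoots_apply_coe ℂ hirr σ, hx]
    have h1 := Polynomial.aeval_algHom_apply (σ.restrictScalars ℤ) z P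
    exact h1.symm
  have hne : (n : ℂ) ≠ 0 := by
    have h1 : algebraMap ℚ ℂ (Algebra.norm ℚ x) ≠ 0 := by
      rw [hprod]
      exact Finset.prod_ne_zero_iff.2 hP
    have h2 : algebraMap ℚ ℂ (Algebra.norm ℚ x) = (n : ℂ) := by
      rw [← hn]
      simp
    rw [← h2]
    exact h1
  have hn0 : n ≠ 0 := by
    rintro rfl
    exact hne (by simp)
  have hval : ∏ ζ ∈ primitiveRoots N ℂ, ‖Polynomial.aeval ζ P‖ = ‖(n : ℂ)‖ := by
    rw [← norm_prod, ← hprod, ← hn]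
    simp
  rw [hval, Complex.norm_intCast]
  have : 1 ≤ |n| := Int.one_le_abs hn0
  exact_mod_cast this

/-- the product of the values of an integer polynomial at the primitive `N`-th roots of unity is an
integer, so is at least `1` in absolute value if it is not zero -/
private theorem ba_one_le_prod {N : ℕ} (hN : 0 < N) (P : Polynomial ℤ)
    (hP : ∀ ζ ∈ primitiveRoots N ℂ, Polynomial.aeval ζ P ≠ 0) :
    1 ≤ ∏ ζ ∈ primitiveRoots N ℂ, ‖Polynomial.aeval ζ P‖ := by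
  have : NeZero N := ⟨hN.ne'⟩
  exact @ba_aux N _ (CyclotomicField N ℚ) _ (CyclotomicField.algebra N ℚ) _ P hP

namespace Trip

variable {m : ℕ} (T : Trip m)

private theorem ba_coeff (i : ZMod 3) (μ : ℕ) (ζ : ℂ) :
    (μ.factorial : ℂ) * coeff μ (T.D i ζ 1) =
      (∑ a ∈ T.S i, ζ ^ a * (a : ℂ) ^ μ) - ∑ a ∈ T.S (i + 1), ζ ^ a * (a : ℂ) ^ μ := by
  have hf : (μ.factorial : ℂ) ≠ 0 := by exact_mod_cast μ.factorial_ne_zero
  unfold D
  rw [map_sub, coeff_J, coeff_J, mul_sub, mul_div_cancel₀ _ hf, mul_div_cancel₀ _ hf]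
  simp only [one_mul]

/-- `μ! coeff μ (D_i ζ 1)` is a sum of `2^m` terms `± a^μ ζ^a` -/
theorem lead_le (i : ZMod 3) (μ : ℕ) {b₀ : ℕ} (hb : ∀ l, ∀ a ∈ T.S l, |a| ≤ 2 ^ b₀) {ζ : ℂ}
    (hζ : ‖ζ‖ = 1) :
    ‖(μ.factorial : ℂ) * coeff μ (T.D i ζ 1)‖ ≤ 2 ^ (m + μ * b₀) := by
  have hm := T.hm
  have hone : ∀ l, ‖∑ a ∈ T.S l, ζ ^ a * (a : ℂ) ^ μ‖ ≤ 2 ^ (m - 1) * 2 ^ (μ * b₀) := by
    intro l
    refine (norm_sum_le _ _).trans ?_
    have hterm : ∀ a ∈ T.S l, ‖ζ ^ a * (a : ℂ) ^ μ‖ ≤ 2 ^ (μ * b₀) := by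
      intro a ha
      rw [norm_mul, norm_zpow, hζ, one_zpow, one_mul, norm_pow, Complex.norm_intCast]
      have h1 : (|(a : ℝ)|) ≤ 2 ^ b₀ := by
        have := hb l a ha
        exact_mod_cast this
      calc |(a : ℝ)| ^ μ ≤ (2 ^ b₀) ^ μ := pow_le_pow_left₀ (abs_nonneg _) h1 μ
        _ = 2 ^ (μ * b₀) := by rw [← pow_mul, mul_comm]
    refine (Finset.sum_le_sum hterm).trans ?_
    rw [Finset.sum_const, T.card, nsmul_eq_mul]
    push_cast
    exact le_refl _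
  rw [ba_coeff]
  refine (norm_sub_le _ _).trans ?_
  have h2 : (2 : ℝ) ^ (m + μ * b₀) = 2 ^ (m - 1) * 2 ^ (μ * b₀) + 2 ^ (m - 1) * 2 ^ (μ * b₀) := by
    obtain ⟨m', rfl⟩ : ∃ m', m = m' + 1 := ⟨m - 1, by omega⟩
    rw [Nat.add_sub_cancel, pow_add, pow_succ]
    ring
  rw [h2]
  exact add_le_add (hone i) (hone (i + 1))

/-- the norm of a nonzero algebraic integer is at least `1` in absolute value (all the factors are
nonzero by `D_lead`; the product is the resultant of a cyclotomic and an integer polynomial) -/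
theorem one_le_norm (i : ZMod 3) {N μ : ℕ} (hN : 0 < N) (hμ : T.al i N = μ) :
    1 ≤ ∏ ζ ∈ primitiveRoots N ℂ, ‖(μ.factorial : ℂ) * coeff μ (T.D i ζ 1)‖ := by
  set P : Polynomial ℤ :=
    (∑ a ∈ T.S i, Polynomial.C (a ^ μ) * Polynomial.X ^ (a % (N : ℤ)).toNat) -
      ∑ a ∈ T.S (i + 1), Polynomial.C (a ^ μ) * Polynomial.X ^ (a % (N : ℤ)).toNat with hP
  have hN' : (N : ℤ) ≠ 0 := by exact_mod_cast hN.ne'
  have hPval : ∀ ζ ∈ primitiveRoots N ℂ, Polynomial.aeval ζ P =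
      (μ.factorial : ℂ) * coeff μ (T.D i ζ 1) := by
    intro ζ hζ
    have hζ' : IsPrimitiveRoot ζ N := (mem_primitiveRoots hN).1 hζ
    have hζ0 : ζ ≠ 0 := hζ'.ne_zero hN.ne'
    have hterm : ∀ a : ℤ, Polynomial.aeval ζ (Polynomial.C (a ^ μ) *
        Polynomial.X ^ (a % (N : ℤ)).toNat) = ζ ^ a * (a : ℂ) ^ μ := by
      intro a
      rw [map_mul, Polynomial.aeval_C, map_pow (Polynomial.aeval ζ), Polynomial.aeval_X]
      have h1 : ζ ^ (a % (N : ℤ)).toNat = ζ ^ a := by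
        rw [← zpow_natCast, Int.toNat_of_nonneg (Int.emod_nonneg a hN')]
        have h2 : a = a % (N : ℤ) + N * (a / (N : ℤ)) := (Int.emod_add_mul_ediv a N).symm
        conv_rhs => rw [h2]
        rw [zpow_add₀ hζ0, zpow_mul, zpow_natCast, hζ'.pow_eq_one, one_zpow, mul_one]
      rw [h1]
      simp [mul_comm]
    rw [ba_coeff, hP, map_sub, map_sum, map_sum]
    simp only [hterm]
  have hne : ∀ ζ ∈ primitiveRoots N ℂ, Polynomial.aeval ζ P ≠ 0 := by
    intro ζ hζ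
    have hζ' : IsPrimitiveRoot ζ N := (mem_primitiveRoots hN).1 hζ
    rw [hPval ζ hζ]
    obtain ⟨U, -, hU, hD⟩ := T.D_lead i hN hζ' (one_ne_zero (α := ℂ))
    refine mul_ne_zero (by exact_mod_cast μ.factorial_ne_zero) ?_
    rw [hD, hμ, coeff_X_pow_mul', if_pos le_rfl, Nat.sub_self, coeff_zero_eq_constantCoeff_apply]
    exact hU
  have hmain := ba_one_le_prod hN P hne
  refine hmain.trans (le_of_eq ?_)
  refine Finset.prod_congr rfl fun ζ hζ => ?_
  rw [hPval ζ hζ]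

end Trip

end Pool.Agent.Lib_MP_e4b855_nt.Tri
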