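import Pool.Agent.Lib_MP_e4b855_nt.Tri.Th

/-! # Part III: the units `eps e η` -/

namespace Pool.Agent.Lib_MP_e4b855_nt.Tri

open Finset

theorem Eps_th_pow {R : Type*} [CommRing R] (c k : ℕ) (η : R) :
    th c (η ^ 3 ^ k) = th (c + k) η := by
  induction k generalizing c with
  | zero => simp
  | succ k ih =>
    rw [pow_succ, pow_mul, th_cube, ih]
    congr 1
    omega

theorem eps_eq {K : Type*} [Field K] (e : ℕ → ℤ) (η : K) (k : ℕ) :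
    eps e (η ^ 3 ^ k) = th k η ^ e 0 * th (k + 1) η ^ e 1 * th (k + 2) η ^ e 2 := by
  simp only [eps, prod_range_succ, prod_range_zero, one_mul, Eps_th_pow]
  rw [Nat.zero_add, Nat.add_comm 1 k, Nat.add_comm 2 k]

theorem eps_ne_zero {K : Type*} [Field K] {η : K} (h : IsPrimitiveRoot η 283) (e : ℕ → ℤ) :
    eps e η ≠ 0 :=
  prod_ne_zero_iff.2 fun c _ => zpow_ne_zero _ (th_ne_zero h c)

theorem Eps_neg {K : Type*} [Field K] {e : ℕ → ℤ} (he : e 0 + e 1 + e 2 = 0) (a : ℕ → K) :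
    ∏ c ∈ range 3, (-a c) ^ e c = ∏ c ∈ range 3, a c ^ e c := by
  have h1 : ∀ c, (-a c) ^ e c = (-1 : K) ^ e c * a c ^ e c := fun c => by
    rw [← mul_zpow, neg_one_mul]
  have h2 : (-1 : K) ^ e 0 * (-1 : K) ^ e 1 * (-1 : K) ^ e 2 = 1 := by
    have hne : (-1 : K) ≠ 0 := by simp
    rw [← zpow_add₀ hne, ← zpow_add₀ hne, he, zpow_zero]
  simp only [h1, prod_mul_distrib]
  rw [prod_range_succ, prod_range_succ, prod_range_succ, prod_range_zero, one_mul, h2, one_mul]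

theorem eps_sq {K : Type*} [Field K] {η : K} (h : η ^ 283 = 1) {e : ℕ → ℤ}
    (he : e 0 + e 1 + e 2 = 0) : eps e (η ^ 2) = eps e η := by
  simp only [eps, th_sq h]
  exact Eps_neg he _

theorem eps_conj {η : ℂ} (h : η ^ 283 = 1) {e : ℕ → ℤ} (he : e 0 + e 1 + e 2 = 0) :
    (starRingEnd ℂ) (eps e η) = eps e η := by
  simp only [eps, map_prod, map_zpow₀, th_conj h]
  exact Eps_neg he _

theorem norm_eps_prod {η : ℂ} (h : IsPrimitiveRoot η 283) {e : ℕ → ℤ}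
    (he : e 0 + e 1 + e 2 = 0) : ‖eps e η‖ * ‖eps e (η ^ 3)‖ * ‖eps e (η ^ 9)‖ = 1 := by
  have h1 : η ^ 283 = 1 := h.pow_eq_one
  have h3 : η ^ 3 = η ^ 3 ^ 1 := by norm_num
  have h9 : η ^ 9 = η ^ 3 ^ 2 := by norm_num
  have h0 : eps e η = eps e (η ^ 3 ^ 0) := by norm_num
  rw [h3, h9, h0, eps_eq, eps_eq, eps_eq]
  have t3 : ‖th 3 η‖ = ‖th 0 η‖ := by
    rw [show (3 : ℕ) = 0 + 3 from rfl, th_three h1, norm_neg]
  have t4 : ‖th 4 η‖ = ‖th 1 η‖ := by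
    rw [show (4 : ℕ) = 1 + 3 from rfl, th_three h1, norm_neg]
  have n0 : ‖th 0 η‖ ≠ 0 := norm_ne_zero_iff.2 (th_ne_zero h 0)
  have n1 : ‖th 1 η‖ ≠ 0 := norm_ne_zero_iff.2 (th_ne_zero h 1)
  have n2 : ‖th 2 η‖ ≠ 0 := norm_ne_zero_iff.2 (th_ne_zero h 2)
  simp only [norm_mul, norm_zpow]
  norm_num only
  rw [t3, t4]
  generalize ‖th 0 η‖ = a at *
  generalize ‖th 1 η‖ = b at *
  generalize ‖th 2 η‖ = c at *
  have key : ∀ x : ℝ, x ≠ 0 → x ^ e 0 * x ^ e 1 * x ^ e 2 = 1 := fun x hx => by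
    rw [← zpow_add₀ hx, ← zpow_add₀ hx, he, zpow_zero]
  calc a ^ e 0 * b ^ e 1 * c ^ e 2 * (b ^ e 0 * c ^ e 1 * a ^ e 2) *
        (c ^ e 0 * a ^ e 1 * b ^ e 2)
      = (a ^ e 0 * a ^ e 1 * a ^ e 2) * (b ^ e 0 * b ^ e 1 * b ^ e 2) *
        (c ^ e 0 * c ^ e 1 * c ^ e 2) := by ring
    _ = 1 := by rw [key a n0, key b n1, key c n2]; norm_num

theorem log_norm_eps {η : ℂ} (h : IsPrimitiveRoot η 283) (e : ℕ → ℤ) :
    Real.log ‖eps e η‖ = ∑ c ∈ range 3, (e c : ℝ) * Real.log ‖th c η‖ := by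
  rw [eps, norm_prod, Real.log_prod]
  · refine sum_congr rfl fun c _ => ?_
    rw [norm_zpow, Real.log_zpow]
  · intro c _
    exact norm_ne_zero_iff.2 (zpow_ne_zero _ (th_ne_zero h c))

end Pool.Agent.Lib_MP_e4b855_nt.Tri
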