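import Mathlib

/-! # Part III: powers of `2` modulo `283 ^ j` -/

namespace Pool.Agent.Lib_MP_e4b855_nt.Tri

open Finset

theorem prime_p : Nat.Prime 283 := by norm_num

theorem two_ne : (2 : ZMod 283) ≠ 0 := by decide

theorem two_pow_aux (s : ℕ) :
    ∃ w : ℤ, ¬ (283 : ℤ) ∣ w ∧ (2 : ℤ) ^ (94 * 283 ^ s) = 1 + 283 ^ (s + 1) * w := by
  have hpi : Prime ((283 : ℕ) : ℤ) := Nat.prime_iff_prime_int.1 prime_p
  have hx : ¬ ((283 : ℕ) : ℤ) ∣ (2 : ℤ) ^ 94 := by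
    intro h
    have h1 := hpi.dvd_of_dvd_pow h
    norm_num at h1
  have hxy : ((283 : ℕ) : ℤ) ∣ (2 : ℤ) ^ 94 - 1 := by norm_num
  have h1 := Int.emultiplicity_pow_sub_pow prime_p (by decide) hxy hx (283 ^ s)
  have h2 : emultiplicity ((283 : ℕ) : ℤ) ((2 : ℤ) ^ 94 - 1) = (1 : ℕ) := by
    rw [emultiplicity_eq_coe]
    constructor <;> norm_num
  have h3 : emultiplicity (283 : ℕ) (283 ^ s : ℕ) = s :=
    emultiplicity_pow_self_of_prime prime_p.prime s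
  rw [one_pow, h2, h3, ← pow_mul] at h1
  have h4 : emultiplicity ((283 : ℕ) : ℤ) ((2 : ℤ) ^ (94 * 283 ^ s) - 1) = ((s + 1 : ℕ) : ℕ∞) := by
    rw [h1]
    push_cast
    rw [add_comm]
  rw [emultiplicity_eq_coe] at h4
  obtain ⟨⟨w, hw⟩, h6⟩ := h4
  refine ⟨w, ?_, ?_⟩
  · intro hd
    apply h6
    rw [hw, pow_succ ((283 : ℕ) : ℤ) (s + 1)]
    exact mul_dvd_mul_left _ (by exact_mod_cast hd)
  · have h7 : (2 : ℤ) ^ (94 * 283 ^ s) = ((2 : ℤ) ^ (94 * 283 ^ s) - 1) + 1 := by ring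
    rw [h7, hw]
    push_cast
    ring

theorem two_pow_mod (j : ℕ) (w : ℤ) (t : ℕ) :
    (283 : ℤ) ^ (j + 2) ∣ (1 + 283 ^ (j + 1) * w) ^ t - (1 + 283 ^ (j + 1) * (w * t)) := by
  induction t with
  | zero => simp
  | succ t ih =>
    obtain ⟨y, hy⟩ := ih
    refine ⟨y * (1 + 283 ^ (j + 1) * w) + 283 ^ j * (w * t * w), ?_⟩
    have e : (1 + 283 ^ (j + 1) * w) ^ t =
        283 ^ (j + 2) * y + (1 + 283 ^ (j + 1) * (w * t)) := by
      rw [← hy]
      ring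
    rw [pow_succ (1 + 283 ^ (j + 1) * w) t, e]
    push_cast
    ring

/-- The class of `x` modulo `283 ^ j` is a power of `2` if this is so modulo `283`.
Induction on `j ≥ 1`: `2^(94·283^(j-1)) = 1 + 283^j w` with `283 ∤ w` (as `2` has order `94` and is
not a Wieferich base), so `(2^(94·283^(j-1)))^t = 1 + 283^j w t` modulo `283^(j+1)`. -/
theorem pow_two_lift {j : ℕ} (hj : 0 < j) {x : ℤ} {i : ℕ} (h : (283 : ℤ) ∣ x - 2 ^ i) :
    ∃ i' : ℕ, (283 ^ j : ℤ) ∣ x - 2 ^ i' := by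
  obtain ⟨j, rfl⟩ : ∃ k, j = k + 1 := ⟨j - 1, by omega⟩
  clear hj
  induction j with
  | zero => exact ⟨i, by rw [zero_add, pow_one]; exact h⟩
  | succ j ih =>
    obtain ⟨i', y, hy⟩ := ih
    obtain ⟨w, hw, hw2⟩ := two_pow_aux j
    have hp : Fact (Nat.Prime 283) := ⟨prime_p⟩
    -- solve `2 ^ i' * w * t ≡ y` modulo `283`
    obtain ⟨t, ht⟩ : ∃ t : ℕ, (283 : ℤ) ∣ y - 2 ^ i' * w * t := by
      have h1 : ((w : ℤ) : ZMod 283) ≠ 0 := by
        intro h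
        exact hw ((ZMod.intCast_zmod_eq_zero_iff_dvd w 283).1 h)
      have h2 : (2 : ZMod 283) ≠ 0 := two_ne
      refine ⟨((y : ZMod 283) * ((2 : ZMod 283) ^ i' * w)⁻¹).val, ?_⟩
      have h3 : ((y - 2 ^ i' * w * (((y : ZMod 283) * ((2 : ZMod 283) ^ i' * w)⁻¹).val : ℤ) : ℤ) :
          ZMod 283) = 0 := by
        push_cast
        rw [ZMod.natCast_zmod_val]
        have h4 : (2 : ZMod 283) ^ i' * w ≠ 0 := mul_ne_zero (pow_ne_zero _ h2) h1
        field_simp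
        ring
      exact (ZMod.intCast_zmod_eq_zero_iff_dvd _ 283).1 h3
    obtain ⟨z, hz⟩ := two_pow_mod j w t
    obtain ⟨v, hv⟩ := ht
    refine ⟨i' + 94 * 283 ^ j * t, v - 2 ^ i' * z, ?_⟩
    have e1 : (2 : ℤ) ^ (i' + 94 * 283 ^ j * t) = 2 ^ i' * (1 + 283 ^ (j + 1) * w) ^ t := by
      rw [pow_add, pow_mul, hw2]
    have e2 : (1 + 283 ^ (j + 1) * w) ^ t =
        283 ^ (j + 2) * z + (1 + 283 ^ (j + 1) * (w * t)) := by
      rw [← hz]
      ring
    have e3 : x = 283 ^ (j + 1) * y + 2 ^ i' := by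
      rw [← hy]
      ring
    have e4 : y = 283 * v + 2 ^ i' * w * t := by
      rw [← hv]
      ring
    rw [e1, e2, e3, e4]
    ring

theorem three_nat : ∀ x < 283, 0 < x → ∃ c < 3, ∃ i < 94, 3 ^ c * 2 ^ i % 283 = x := by
  decide +kernel

/-- every class prime to `283` is `3^c 2^i` -/
theorem three_classes {h : ℤ} (hh : ¬ (283 : ℤ) ∣ h) :
    ∃ c < 3, ∃ i < 94, (283 : ℤ) ∣ h - 3 ^ c * 2 ^ i := by
  have h1 : 0 ≤ h % 283 := Int.emod_nonneg _ (by norm_num)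
  have h2 : h % 283 < 283 := Int.emod_lt_of_pos _ (by norm_num)
  have h3 : h % 283 ≠ 0 := fun h0 => hh (Int.dvd_of_emod_eq_zero h0)
  obtain ⟨c, hc, i, hi, he⟩ := three_nat (h % 283).toNat (by omega) (by omega)
  refine ⟨c, hc, i, hi, ?_⟩
  have h4 : ((3 ^ c * 2 ^ i % 283 : ℕ) : ℤ) = h % 283 := by
    rw [he]
    exact Int.toNat_of_nonneg h1
  push_cast at h4
  omega

/-- the nonzero classes modulo `283` -/
theorem sum_classes {M : Type*} [AddCommMonoid M] (f : ZMod 283 → M) :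
    ∑ h ∈ univ.erase (0 : ZMod 283), f h =
      ∑ c ∈ range 3, ∑ i ∈ range 94, f ((3 ^ c * 2 ^ i : ℕ) : ZMod 283) := by
  rw [← Finset.sum_product' (range 3) (range 94)
    (fun c i => f ((3 ^ c * 2 ^ i : ℕ) : ZMod 283))]
  have himg : (range 3 ×ˢ range 94).image
      (fun p : ℕ × ℕ => ((3 ^ p.1 * 2 ^ p.2 : ℕ) : ZMod 283)) = univ.erase 0 := by
    ext x
    simp only [mem_image, mem_product, mem_range, mem_erase, mem_univ, and_true, Prod.exists]
    constructor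
    · rintro ⟨c, i, -, rfl⟩ h0
      rw [ZMod.natCast_eq_zero_iff] at h0
      rcases (Nat.Prime.dvd_mul prime_p).1 h0 with h | h
      · have := (Nat.Prime.dvd_of_dvd_pow prime_p h)
        norm_num at this
      · have := (Nat.Prime.dvd_of_dvd_pow prime_p h)
        norm_num at this
    · intro hx
      have h1 : 0 < x.val := by
        rw [Nat.pos_iff_ne_zero, Ne, ZMod.val_eq_zero]
        exact hx
      obtain ⟨c, hc, i, hi, he⟩ := three_nat x.val (ZMod.val_lt x) h1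
      refine ⟨c, i, ⟨hc, hi⟩, ?_⟩
      rw [← ZMod.natCast_zmod_val x, ← he, ZMod.natCast_mod]
  have hinj : Set.InjOn (fun p : ℕ × ℕ => ((3 ^ p.1 * 2 ^ p.2 : ℕ) : ZMod 283))
      ((range 3 ×ˢ range 94 : Finset (ℕ × ℕ)) : Set (ℕ × ℕ)) := by
    rw [← Finset.card_image_iff, himg, card_erase_of_mem (mem_univ _), card_univ, ZMod.card,
      card_product, card_range, card_range]
  rw [← himg, Finset.sum_image hinj]

end Pool.Agent.Lib_MP_e4b855_nt.Tri
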