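import Pool.Agent.Lib_MP_e4b855_nt.Tri.BoundA
import Pool.Agent.Lib_MP_e4b855_nt.Tri.Eps
import Pool.Agent.Lib_MP_e4b855_nt.Tri.Two

/-!
# Part III: bounds for the units
-/

namespace Pool.Agent.Lib_MP_e4b855_nt.Tri

open PowerSeries Finset

/-- `ζ^q` is a power `η^(2^i)` -/
def HBB (q : ℕ) (η ζ : ℂ) : Prop := ∃ i : ℕ, ζ ^ q = η ^ 2 ^ i

theorem HBB_mod {N : ℕ} (hN : 0 < N) {ζ : ℂ} (hζ : IsPrimitiveRoot ζ N) (a b : ℕ) :
    ζ ^ a = ζ ^ b ↔ a ≡ b [MOD N] := by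
  have h1 : orderOf ζ = N := hζ.eq_orderOf.symm
  have h2 : ∀ c : ℕ, ζ ^ c = ζ ^ (c % N) := by
    intro c
    have h3 := pow_mod_orderOf ζ c
    rw [h1] at h3
    exact h3.symm
  rw [h2 a, h2 b]
  constructor
  · intro h
    exact hζ.pow_inj (Nat.mod_lt _ hN) (Nat.mod_lt _ hN) h
  · intro h
    rw [h]

theorem HBB_zmod {η : ℂ} (hη : IsPrimitiveRoot η 283) (a b : ℕ) :
    η ^ a = η ^ b ↔ (a : ZMod 283) = b := by
  rw [HBB_mod (by norm_num) hη]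
  exact (ZMod.natCast_eq_natCast_iff a b 283).symm

theorem HBB_class {η : ℂ} (hη : IsPrimitiveRoot η 283) (i k : ℕ) (hk : k ≤ 4) :
    (∃ i' : ℕ, η ^ (3 ^ k * 2 ^ i) = η ^ 2 ^ i') ↔ (k = 0 ∨ k = 3) := by
  have h94 : (2 : ZMod 283) ^ 94 = 1 := by decide +kernel
  have h27 : (27 : ZMod 283) = 2 ^ 55 := by decide +kernel
  constructor
  · rintro ⟨i', h⟩
    rw [HBB_zmod hη] at h
    push_cast at h
    have h2 : ((3 : ZMod 283) ^ k * 2 ^ i) ^ 94 = (2 ^ i') ^ 94 := by rw [h]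
    rw [mul_pow, ← pow_mul 2 i, mul_comm i, pow_mul 2 94, h94, one_pow, mul_one, ← pow_mul 2 i',
      mul_comm i', pow_mul 2 94, h94, one_pow] at h2
    interval_cases k
    · left; rfl
    · exfalso; revert h2; decide +kernel
    · exfalso; revert h2; decide +kernel
    · right; rfl
    · exfalso; revert h2; decide +kernel
  · rintro (rfl | rfl)
    · exact ⟨i, by rw [pow_zero, one_mul]⟩
    · refine ⟨55 + i, ?_⟩
      rw [HBB_zmod hη]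
      push_cast
      rw [pow_add, ← h27]

open Classical in
/-- the indicator of `HBB` -/
noncomputable def HBBi (q : ℕ) (η ζ : ℂ) : ℝ := if HBB q η ζ then 1 else 0

theorem HBBi_nonneg (q : ℕ) (η ζ : ℂ) : 0 ≤ HBBi q η ζ := by
  unfold HBBi; split_ifs <;> norm_num

theorem HBBi_le (q : ℕ) (η ζ : ℂ) : HBBi q η ζ ≤ 1 := by
  unfold HBBi; split_ifs <;> norm_num

theorem HBBi_sum {j : ℕ} (hj : 0 < j) {η : ℂ} (hη : IsPrimitiveRoot η 283) {ζ : ℂ}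
    (hζ : IsPrimitiveRoot ζ (283 ^ j)) :
    HBBi (283 ^ (j - 1)) η ζ + HBBi (283 ^ (j - 1)) η (ζ ^ 3) +
      HBBi (283 ^ (j - 1)) η (ζ ^ 9) = 1 := by
  set q := 283 ^ (j - 1) with hq
  have hζq : IsPrimitiveRoot (ζ ^ q) 283 := by
    refine hζ.pow (by positivity) ?_
    rw [hq, ← pow_succ]
    congr 1
    omega
  obtain ⟨h, hh1, hh2⟩ := hη.eq_pow_of_pow_eq_one hζq.pow_eq_one
  have hco : h.Coprime 283 := (hη.pow_iff_coprime (by norm_num) h).mp (hh2 ▸ hζq)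
  have hnd : ¬ (283 : ℤ) ∣ (h : ℤ) := by
    intro hd
    have hd' : 283 ∣ h := by exact_mod_cast hd
    have h3 : (283 : ℕ) ∣ 1 := by
      rw [← hco.gcd_eq_one]
      exact Nat.dvd_gcd hd' dvd_rfl
    norm_num at h3
  obtain ⟨c, hc, i, -, hci⟩ := three_classes hnd
  have hex : ζ ^ q = η ^ (3 ^ c * 2 ^ i) := by
    rw [← hh2, HBB_zmod hη]
    have h4 : ((h : ℤ) : ZMod 283) = ((3 ^ c * 2 ^ i : ℤ) : ZMod 283) := by
      rw [← sub_eq_zero, ← Int.cast_sub]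
      exact (ZMod.intCast_zmod_eq_zero_iff_dvd _ 283).mpr (by exact_mod_cast hci)
    push_cast at h4 ⊢
    exact h4
  have hval : ∀ k : ℕ, HBB q η (ζ ^ 3 ^ k) ↔
      ∃ i' : ℕ, η ^ (3 ^ (c + k) * 2 ^ i) = η ^ 2 ^ i' := by
    intro k
    unfold HBB
    have h5 : (ζ ^ 3 ^ k) ^ q = η ^ (3 ^ (c + k) * 2 ^ i) := by
      rw [← pow_mul, mul_comm, pow_mul, hex, ← pow_mul, pow_add]
      congr 1
      ring
    rw [h5]
  have e0 := hval 0
  have e1 := hval 1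
  have e2 := hval 2
  rw [HBB_class hη i _ (by omega)] at e0 e1 e2
  rw [pow_zero, pow_one] at e0
  rw [pow_one] at e1
  norm_num at e2
  unfold HBBi
  interval_cases c
  · have f0 : HBB q η ζ := e0.mpr (by norm_num)
    have f1 : ¬ HBB q η (ζ ^ 3) := fun h => by have := e1.mp h; norm_num at this
    have f2 : ¬ HBB q η (ζ ^ 9) := fun h => by have := e2.mp h; norm_num at this
    rw [if_pos f0, if_neg f1, if_neg f2]; norm_num
  · have f0 : ¬ HBB q η ζ := fun h => by have := e0.mp h; norm_num at this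
    have f1 : ¬ HBB q η (ζ ^ 3) := fun h => by have := e1.mp h; norm_num at this
    have f2 : HBB q η (ζ ^ 9) := e2.mpr (by norm_num)
    rw [if_neg f0, if_neg f1, if_pos f2]; norm_num
  · have f0 : ¬ HBB q η ζ := fun h => by have := e0.mp h; norm_num at this
    have f1 : HBB q η (ζ ^ 3) := e1.mpr (by norm_num)
    have f2 : ¬ HBB q η (ζ ^ 9) := fun h => by have := e2.mp h; norm_num at this
    rw [if_neg f0, if_pos f1, if_neg f2]; norm_num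

theorem HBB_cube {N : ℕ} (hN : 1 < N) (h3 : Nat.Coprime 3 N) (f : ℂ → ℝ) :
    ∑ ζ ∈ primitiveRoots N ℂ, f (ζ ^ 3) = ∑ ζ ∈ primitiveRoots N ℂ, f ζ := by
  have hN0 : 0 < N := by omega
  obtain ⟨r, hr⟩ := Nat.exists_mul_mod_eq_one_of_coprime h3 hN
  have hr' : r * 3 ≡ 1 [MOD N] := by
    rw [Nat.ModEq, mul_comm, hr.2, Nat.mod_eq_of_lt hN]
  have hrc : Nat.Coprime r N := Nat.coprime_of_mul_modEq_one 3 hr'
  have key : ∀ ζ : ℂ, IsPrimitiveRoot ζ N → ζ ^ (r * 3) = ζ := by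
    intro ζ hζ
    have h4 : ζ ^ (r * 3) = ζ ^ 1 := by
      rw [HBB_mod hN0 hζ]
      exact hr'
    rw [h4, pow_one]
  refine Finset.sum_bij' (fun ζ _ => ζ ^ 3) (fun ζ _ => ζ ^ r) ?_ ?_ ?_ ?_ ?_
  · intro ζ hζ
    rw [mem_primitiveRoots hN0] at hζ ⊢
    exact hζ.pow_of_coprime 3 h3
  · intro ζ hζ
    rw [mem_primitiveRoots hN0] at hζ ⊢
    exact hζ.pow_of_coprime r hrc
  · intro ζ hζ
    rw [mem_primitiveRoots hN0] at hζ
    rw [← pow_mul, mul_comm, key ζ hζ]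
  · intro ζ hζ
    rw [mem_primitiveRoots hN0] at hζ
    rw [← pow_mul, key ζ hζ]
  · intro ζ _
    rfl

theorem HBB_eps_const {η : ℂ} (hη : η ^ 283 = 1) {e : ℕ → ℤ} (he : e 0 + e 1 + e 2 = 0) (i : ℕ) :
    eps e (η ^ 2 ^ i) = eps e η := by
  induction i with
  | zero => rw [pow_zero, pow_one]
  | succ i ih =>
    have h1 : (η ^ 2 ^ i) ^ 283 = 1 := by rw [← pow_mul, mul_comm, pow_mul, hη, one_pow]
    rw [pow_succ, pow_mul, eps_sq h1 he, ih]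

namespace Trip

variable {m : ℕ} (T : Trip m)

theorem HBB_ne (l : ZMod 3) {N μ : ℕ} (hN : 0 < N) (hμ : T.al l N = μ) {ζ : ℂ}
    (hζ : IsPrimitiveRoot ζ N) : coeff μ (T.D l ζ 1) ≠ 0 := by
  obtain ⟨U, _, hU2, hU3⟩ := T.D_lead l hN hζ (one_ne_zero : (1 : ℂ) ≠ 0)
  rw [hU3, hμ]
  have h := PowerSeries.coeff_X_pow_mul U μ 0
  rw [zero_add] at h
  rw [h, coeff_zero_eq_constantCoeff_apply]
  exact hU2

/-- Let `x_l(ζ) = ‖μ! λ_l(ζ)‖ ≤ B = 2^(m + μ b₀)`, `P_c` the set of the primitive `ζ` with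
`ζ^(283^(j-1)) ∈ {η^(3^c 2^i)}`; `ζ ↦ ζ^3` maps `P_0 → P_1 → P_2 → P_0` bijectively (`η ^ 27 =
η ^ 2^55`), `n = |P_0|`, `A_c(l) = ∏_{ζ ∈ P_c} x_l(ζ) ≤ B^n`, `A_0 A_1 A_2 (l) ≥ 1` (`one_le_norm`),
`A_c(i) = (|ν| ‖eps e (η^(3^c))‖)^n A_c(i+2)` (`eps_sq`), and `∏_c ‖eps e (η^(3^c))‖ = 1`
(`norm_eps_prod`).  Hence `‖eps e η‖^{3n} = [A_0²/(A_1 A_2)](i) · [A_1 A_2/A_0²](i+2)
= [A_0³/(A_0 A_1 A_2)](i) · [(A_1 A_2)³/(A_0 A_1 A_2)²](i+2) ≤ B^{3n} B^{6n}`; the same for the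
inverse with `i` and `i+2` exchanged. -/
theorem eps_bound (i : ZMod 3) {j μ b₀ : ℕ} (hj : 0 < j) (hμ : ∀ l, T.al l (283 ^ j) = μ)
    (hb : ∀ l, ∀ a ∈ T.S l, |a| ≤ 2 ^ b₀) {e : ℕ → ℤ} (he : e 0 + e 1 + e 2 = 0) {ν : ℚ}
    (hν : ν ≠ 0) (h : ∀ ζ : ℂ, IsPrimitiveRoot ζ (283 ^ j) →
      coeff μ (T.D i ζ 1) = (ν : ℂ) * eps e (ζ ^ 283 ^ (j - 1)) * coeff μ (T.D (i + 2) ζ 1))
    {η : ℂ} (hη : IsPrimitiveRoot η 283) :
    ‖eps e η‖ ≤ 2 ^ (3 * (m + μ * b₀)) ∧ 1 ≤ 2 ^ (3 * (m + μ * b₀)) * ‖eps e η‖ := by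
  classical
  have hN : 0 < 283 ^ j := by positivity
  have hN1 : 1 < 283 ^ j := Nat.one_lt_pow hj.ne' (by norm_num)
  have hN3 : Nat.Coprime 3 (283 ^ j) := Nat.Coprime.pow_right j (by norm_num)
  set N := 283 ^ j with hNdef
  set q := 283 ^ (j - 1) with hq
  set P := primitiveRoots N ℂ with hP
  set b : ℝ := ((m + μ * b₀ : ℕ) : ℝ) * Real.log 2 with hbdef
  have hfac : (μ.factorial : ℂ) ≠ 0 := by exact_mod_cast μ.factorial_ne_zero
  let y : ZMod 3 → ℂ → ℝ := fun l ζ => Real.log ‖(μ.factorial : ℂ) * coeff μ (T.D l ζ 1)‖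
  let g : ℂ → ℝ := fun ζ => Real.log ‖eps e (ζ ^ q)‖
  have hζq : ∀ ζ : ℂ, IsPrimitiveRoot ζ N → IsPrimitiveRoot (ζ ^ q) 283 := by
    intro ζ hζ
    refine hζ.pow (by positivity) ?_
    rw [hq, ← pow_succ, hNdef]
    congr 1
    omega
  have hmem : ∀ ζ : ℂ, ζ ∈ P ↔ IsPrimitiveRoot ζ N := fun ζ => mem_primitiveRoots hN
  have hpos : ∀ l, ∀ ζ ∈ P, 0 < ‖(μ.factorial : ℂ) * coeff μ (T.D l ζ 1)‖ := by
    intro l ζ hζ
    exact norm_pos_iff.mpr (mul_ne_zero hfac (T.HBB_ne l hN (hμ l) ((hmem ζ).mp hζ)))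
  have hy_le : ∀ l, ∀ ζ ∈ P, y l ζ ≤ b := by
    intro l ζ hζ
    have h1 : ‖ζ‖ = 1 := ((hmem ζ).mp hζ).norm'_eq_one hN.ne'
    have h2 := T.lead_le l μ hb h1
    have h3 := Real.log_le_log (hpos l ζ hζ) h2
    rw [Real.log_pow] at h3
    exact h3
  have hy_sum : ∀ l, 0 ≤ ∑ ζ ∈ P, y l ζ := by
    intro l
    have h1 := T.one_le_norm l hN (hμ l)
    have h2 : ∑ ζ ∈ P, y l ζ =
        Real.log (∏ ζ ∈ P, ‖(μ.factorial : ℂ) * coeff μ (T.D l ζ 1)‖) := by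
      rw [Real.log_prod]
      intro ζ hζ
      exact (hpos l ζ hζ).ne'
    rw [h2]
    exact Real.log_nonneg h1
  have hg : ∀ ζ ∈ P, y i ζ = Real.log |(ν : ℝ)| + g ζ + y (i + 2) ζ := by
    intro ζ hζ
    have hp := (hmem ζ).mp hζ
    have h1 := h ζ hp
    have h2 : eps e (ζ ^ q) ≠ 0 := eps_ne_zero (hζq ζ hp) e
    have h3 := hpos (i + 2) ζ hζ
    have h4 : |(ν : ℝ)| ≠ 0 := by
      rw [abs_ne_zero]
      exact_mod_cast hν
    have h5 : ‖(μ.factorial : ℂ) * coeff μ (T.D i ζ 1)‖ =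
        |(ν : ℝ)| * ‖eps e (ζ ^ q)‖ * ‖(μ.factorial : ℂ) * coeff μ (T.D (i + 2) ζ 1)‖ := by
      rw [h1]
      simp only [norm_mul]
      have h6 : ‖(ν : ℂ)‖ = |(ν : ℝ)| := by
        rw [← Complex.ofReal_ratCast, Complex.norm_real, Real.norm_eq_abs]
      rw [h6]
      ring
    simp only [y, g]
    rw [h5, Real.log_mul (mul_ne_zero h4 (norm_ne_zero_iff.mpr h2)) h3.ne',
      Real.log_mul h4 (norm_ne_zero_iff.mpr h2)]
  -- the sum of `g`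
  have hg3 : ∀ ζ ∈ P, g ζ + g (ζ ^ 3) + g ((ζ ^ 3) ^ 3) = 0 := by
    intro ζ hζ
    have hp := hζq ζ ((hmem ζ).mp hζ)
    have h1 := norm_eps_prod hp he
    have h2 : eps e (ζ ^ q) ≠ 0 := eps_ne_zero hp e
    have h3 : eps e ((ζ ^ q) ^ 3) ≠ 0 := eps_ne_zero (hp.pow_of_coprime 3 (by norm_num)) e
    have h4 : eps e ((ζ ^ q) ^ 9) ≠ 0 := eps_ne_zero (hp.pow_of_coprime 9 (by norm_num)) e
    have h5 := congrArg Real.log h1
    rw [Real.log_mul (mul_ne_zero (norm_ne_zero_iff.mpr h2) (norm_ne_zero_iff.mpr h3))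
      (norm_ne_zero_iff.mpr h4), Real.log_mul (norm_ne_zero_iff.mpr h2) (norm_ne_zero_iff.mpr h3),
      Real.log_one] at h5
    simp only [g]
    have h6 : (ζ ^ 3) ^ q = (ζ ^ q) ^ 3 := by rw [← pow_mul, ← pow_mul, mul_comm]
    have h7 : ((ζ ^ 3) ^ 3) ^ q = (ζ ^ q) ^ 9 := by
      rw [← pow_mul, ← pow_mul, ← pow_mul]
      congr 1
      ring
    rw [h6, h7]
    exact h5
  have hgs : ∑ ζ ∈ P, g ζ = 0 := by
    have h1 := Finset.sum_congr rfl hg3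
    rw [Finset.sum_add_distrib, Finset.sum_add_distrib, Finset.sum_const_zero] at h1
    have h2 := HBB_cube hN1 hN3 g
    have h3 := HBB_cube hN1 hN3 (fun ζ => g (ζ ^ 3))
    rw [← hP] at h2 h3
    rw [h3, h2] at h1
    linarith
  -- the count
  let w : ℂ → ℝ := HBBi q η
  have hcount : (P.card : ℝ) = 3 * ∑ ζ ∈ P, w ζ := by
    have h1 : ∀ ζ ∈ P, w ζ + w (ζ ^ 3) + w ((ζ ^ 3) ^ 3) = 1 := by
      intro ζ hζ
      have h2 := HBBi_sum hj hη ((hmem ζ).mp hζ)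
      rw [← hq] at h2
      have h3 : (ζ ^ 3) ^ 3 = ζ ^ 9 := by rw [← pow_mul]
      simp only [w]
      rw [h3]
      exact h2
    have h4 := Finset.sum_congr rfl h1
    rw [Finset.sum_add_distrib, Finset.sum_add_distrib, Finset.sum_const, nsmul_eq_mul,
      mul_one] at h4
    have h2 := HBB_cube hN1 hN3 w
    have h3 := HBB_cube hN1 hN3 (fun ζ => w (ζ ^ 3))
    rw [← hP] at h2 h3
    rw [h3, h2] at h4
    linarith
  have hcardpos : (0 : ℝ) < P.card := by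
    have h1 : 0 < P.card := by
      rw [hP, Complex.card_primitiveRoots]
      exact Nat.totient_pos.mpr hN
    exact_mod_cast h1
  set n : ℝ := ∑ ζ ∈ P, w ζ with hn
  have hnpos : 0 < n := by linarith
  have hw0 : ∀ ζ, 0 ≤ w ζ := fun ζ => HBBi_nonneg q η ζ
  have hw1 : ∀ ζ, w ζ ≤ 1 := fun ζ => HBBi_le q η ζ
  -- bounds
  have hA : ∀ l, ∑ ζ ∈ P, w ζ * y l ζ ≤ n * b := by
    intro l
    rw [hn, Finset.sum_mul]
    exact Finset.sum_le_sum fun ζ hζ => mul_le_mul_of_nonneg_left (hy_le l ζ hζ) (hw0 ζ)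
  have hB : ∀ l, ∑ ζ ∈ P, y l ζ - ∑ ζ ∈ P, w ζ * y l ζ ≤ 2 * n * b := by
    intro l
    have h1 : ∑ ζ ∈ P, y l ζ - ∑ ζ ∈ P, w ζ * y l ζ = ∑ ζ ∈ P, (1 - w ζ) * y l ζ := by
      rw [← Finset.sum_sub_distrib]
      refine Finset.sum_congr rfl fun ζ _ => ?_
      ring
    have h2 : ∑ ζ ∈ P, (1 - w ζ) * y l ζ ≤ ∑ ζ ∈ P, (1 - w ζ) * b :=
      Finset.sum_le_sum fun ζ hζ =>
        mul_le_mul_of_nonneg_left (hy_le l ζ hζ) (sub_nonneg.mpr (hw1 ζ))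
    have h3 : ∑ ζ ∈ P, (1 - w ζ) * b = 2 * n * b := by
      rw [← Finset.sum_mul, Finset.sum_sub_distrib, Finset.sum_const, nsmul_eq_mul, mul_one, hcount,
        ← hn]
      ring
    rw [h1, ← h3]
    exact h2
  -- the two identities
  set L := Real.log |(ν : ℝ)| with hL
  have hS : ∑ ζ ∈ P, y i ζ = 3 * n * L + ∑ ζ ∈ P, y (i + 2) ζ := by
    rw [Finset.sum_congr rfl hg, Finset.sum_add_distrib, Finset.sum_add_distrib, hgs,
      Finset.sum_const, nsmul_eq_mul, hcount]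
    ring
  have hgw : ∀ ζ ∈ P, w ζ * g ζ = w ζ * Real.log ‖eps e η‖ := by
    intro ζ hζ
    by_cases hc : HBB q η ζ
    · obtain ⟨k, hk⟩ := hc
      have h1 : g ζ = Real.log ‖eps e η‖ := by
        simp only [g]
        rw [hk, HBB_eps_const hη.pow_eq_one he]
      rw [h1]
    · have h1 : w ζ = 0 := by
        simp only [w]
        unfold HBBi
        rw [if_neg hc]
      rw [h1, zero_mul, zero_mul]
  have hW : ∑ ζ ∈ P, w ζ * y i ζ =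
      n * L + n * Real.log ‖eps e η‖ + ∑ ζ ∈ P, w ζ * y (i + 2) ζ := by
    have h1 : ∀ ζ ∈ P, w ζ * y i ζ = w ζ * L + w ζ * Real.log ‖eps e η‖ + w ζ * y (i + 2) ζ := by
      intro ζ hζ
      rw [hg ζ hζ, ← hgw ζ hζ]
      ring
    rw [Finset.sum_congr rfl h1, Finset.sum_add_distrib, Finset.sum_add_distrib,
      ← Finset.sum_mul, ← Finset.sum_mul]
  have hA1 := hA i
  have hA2 := hA (i + 2)
  have hB1 := hB i
  have hB2 := hB (i + 2)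
  have hS1 := hy_sum i
  have hS2 := hy_sum (i + 2)
  have hup : Real.log ‖eps e η‖ ≤ 3 * b := by
    have h1 : n * Real.log ‖eps e η‖ ≤ n * (3 * b) := by linarith
    exact le_of_mul_le_mul_left h1 hnpos
  have hlo : -(3 * b) ≤ Real.log ‖eps e η‖ := by
    have h1 : n * (-(3 * b)) ≤ n * Real.log ‖eps e η‖ := by linarith
    exact le_of_mul_le_mul_left h1 hnpos
  have hepos : 0 < ‖eps e η‖ := norm_pos_iff.mpr (eps_ne_zero hη e)
  have h2pos : (0 : ℝ) < 2 ^ (3 * (m + μ * b₀)) := by positivity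
  have hlog2 : Real.log ((2 : ℝ) ^ (3 * (m + μ * b₀))) = 3 * b := by
    rw [Real.log_pow, hbdef]
    push_cast
    ring
  constructor
  · rw [← Real.log_le_log_iff hepos h2pos, hlog2]
    exact hup
  · rw [← Real.log_le_log_iff one_pos (mul_pos h2pos hepos), Real.log_one,
      Real.log_mul h2pos.ne' hepos.ne', hlog2]
    linarith

end Trip

end Pool.Agent.Lib_MP_e4b855_nt.Tri
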