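import Mathlib

namespace Pool.Agent.Lib_MP_e4b855_nt.Tri

open Finset Polynomial

/-- Frenkel's lemma: over a domain of characteristic `p`, a nonzero polynomial with exponents `< p`
divisible by `(X - 1)^h` has more than `h` terms. -/
theorem cheb_frenkel {F : Type*} [CommRing F] [IsDomain F] (p : ℕ) [Fact p.Prime] [CharP F p] :
    ∀ (h : ℕ) (Q : F[X]), Q ≠ 0 → (∀ t ∈ Q.support, t < p) → (X - C 1) ^ h ∣ Q →
      h < Q.support.card := by
  intro h
  induction h with
  | zero =>
    intro Q hQ _ _
    exact Finset.card_pos.mpr (Polynomial.support_nonempty.mpr hQ)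
  | succ h ih =>
    intro Q hQ hlt hdvd
    obtain ⟨m, hm⟩ := Polynomial.support_nonempty.mpr hQ
    set Q2 : F[X] := X * derivative Q - C (m : F) * Q with hQ2
    have hcoef : ∀ t, Q2.coeff t = ((t : F) - m) * Q.coeff t := by
      intro t
      rw [hQ2, coeff_sub, coeff_C_mul]
      rcases t with _ | t
      · rw [mul_coeff_zero, coeff_X_zero, zero_mul, Nat.cast_zero]
        ring
      · rw [coeff_X_mul, coeff_derivative]
        push_cast
        ring
    have hsupp : Q2.support = Q.support.erase m := by
      ext t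
      rw [mem_support_iff, hcoef, Finset.mem_erase, mem_support_iff, mul_ne_zero_iff]
      constructor
      · rintro ⟨h1, h2⟩
        refine ⟨?_, h2⟩
        rintro rfl
        exact h1 (sub_self _)
      · rintro ⟨h1, h2⟩
        refine ⟨?_, h2⟩
        intro h3
        rw [sub_eq_zero, CharP.natCast_eq_natCast F p] at h3
        have ht := hlt t (mem_support_iff.mpr h2)
        have hm' := hlt m hm
        exact h1 (Nat.ModEq.eq_of_lt_of_lt h3 ht hm')
    have hdvd2 : (X - C 1) ^ h ∣ Q2 := by
      obtain ⟨R, hR⟩ := hdvd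
      refine dvd_sub (Dvd.dvd.mul_left ?_ _) (Dvd.dvd.mul_left ?_ _)
      · rw [hR, derivative_mul, derivative_X_sub_C_pow, Nat.add_sub_cancel]
        refine dvd_add (Dvd.dvd.mul_right (Dvd.dvd.mul_left (dvd_refl _) _) _)
          (Dvd.dvd.mul_right (pow_dvd_pow _ (Nat.le_succ h)) _)
      · rw [hR]
        exact Dvd.dvd.mul_right (pow_dvd_pow _ (Nat.le_succ h)) _
    have hcard : Q2.support.card + 1 = Q.support.card := by
      rw [hsupp]
      exact Finset.card_erase_add_one hm
    by_cases h0 : Q2 = 0
    · exfalso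
      have h1 : Q.support.erase m = ∅ := by
        rw [← hsupp, h0, support_zero]
      have h2 : Q.support = {m} := by
        rw [← Finset.insert_erase hm, h1, insert_empty_eq]
      have h3 : Q = C (Q.coeff m) * X ^ m := by
        conv_lhs => rw [Q.as_sum_support_C_mul_X_pow, h2, Finset.sum_singleton]
      have h4 : Q.eval 1 = 0 := by
        obtain ⟨R, hR⟩ := hdvd
        rw [hR, eval_mul, eval_pow, eval_sub, eval_X, eval_C, sub_self, zero_pow (Nat.succ_ne_zero h),
          zero_mul]
      rw [h3, eval_mul, eval_C, eval_pow, eval_X, one_pow, mul_one] at h4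
      exact (mem_support_iff.mp hm) h4
    · have := ih Q2 h0 (fun t ht => hlt t (by
        rw [hsupp] at ht
        exact Finset.mem_of_mem_erase ht)) hdvd2
      omega

/-- the reduction step: `π` prime in a Noetherian domain of residue characteristic `p`, all the
`x ∈ S` are `1` modulo `π` -/
theorem cheb_red {R : Type*} [CommRing R] [IsDomain R] [IsNoetherianRing R] (p : ℕ) [Fact p.Prime]
    (π : R) (hπ : Prime π) (hp : π ∣ (p : R)) (S : Finset R) (hS : ∀ x ∈ S, π ∣ x - 1)
    (Q : R[X]) (hlt : ∀ t ∈ Q.support, t < p) (hroot : ∀ x ∈ S, Q.eval x = 0)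
    (hcard : Q.support.card ≤ S.card) : Q = 0 := by
  by_contra hQ
  have hCπ : ¬ IsUnit (C π) := by
    rw [Polynomial.isUnit_C]
    exact hπ.not_isUnit
  obtain ⟨n, P, hnd, hP⟩ := WfDvdMonoid.max_power_factor' hQ hCπ
  have hπn : π ^ n ≠ 0 := pow_ne_zero _ hπ.ne_zero
  have hPcoef : ∀ t, Q.coeff t = π ^ n * P.coeff t := by
    intro t
    rw [hP, ← C_pow, coeff_C_mul]
  have hPsupp : P.support = Q.support := by
    ext t
    rw [mem_support_iff, mem_support_iff, hPcoef, mul_ne_zero_iff]
    exact ⟨fun h => ⟨hπn, h⟩, fun h => h.2⟩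
  have hP0 : P ≠ 0 := by
    rintro rfl
    exact hnd (dvd_zero _)
  have hProot : ∀ x ∈ S, P.eval x = 0 := by
    intro x hx
    have h1 := hroot x hx
    rw [hP, eval_mul, ← C_pow, eval_C] at h1
    exact (mul_eq_zero.mp h1).resolve_left hπn
  have hdvd : (S.val.map fun a => X - C a).prod ∣ P := by
    rw [Multiset.prod_X_sub_C_dvd_iff_le_roots hP0, Multiset.le_iff_subset S.nodup]
    intro x hx
    rw [mem_roots hP0]
    exact hProot x hx
  have hprime : (Ideal.span {π}).IsPrime := (Ideal.span_singleton_prime hπ.ne_zero).mpr hπ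
  let F := R ⧸ (Ideal.span {π})
  have : IsDomain F := Ideal.Quotient.isDomain _
  let φ : R →+* F := Ideal.Quotient.mk (Ideal.span {π})
  have hφ : ∀ x, φ x = 0 ↔ π ∣ x := by
    intro x
    rw [Ideal.Quotient.eq_zero_iff_mem, Ideal.mem_span_singleton]
  have : CharP F p := by
    have h1 : ((p : ℕ) : F) = 0 := by
      have h2 := (hφ (p : R)).mpr hp
      rwa [map_natCast] at h2
    exact (CharP.charP_iff_prime_eq_zero Fact.out).mpr h1
  have hmap : (X - C 1) ^ S.card ∣ P.map φ := by
    have h1 := Polynomial.map_dvd φ hdvd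
    have h2 : Polynomial.map φ (S.val.map fun a => X - C a).prod = (X - C 1) ^ S.card := by
      rw [Polynomial.map_multiset_prod, Multiset.map_map]
      have h3 : S.val.map ((Polynomial.map φ) ∘ fun a => X - C a) =
          S.val.map (fun _ => (X - C 1 : F[X])) := by
        refine Multiset.map_congr rfl ?_
        intro x hx
        have h4 := hS x hx
        rw [← hφ, map_sub, map_one, sub_eq_zero] at h4
        rw [Function.comp_apply, Polynomial.map_sub, map_X, map_C, h4]
      rw [h3, Multiset.map_const', Multiset.prod_replicate]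
      rfl
    rwa [h2] at h1
  have hmapne : P.map φ ≠ 0 := by
    intro h0
    refine hnd ?_
    rw [Polynomial.C_dvd_iff_dvd_coeff]
    intro i
    rw [← hφ, ← coeff_map, h0, coeff_zero]
  have hsub : (P.map φ).support ⊆ P.support := Polynomial.support_map_subset φ P
  have := cheb_frenkel p S.card (P.map φ) hmapne (fun t ht => hlt t (by
    rw [← hPsupp]
    exact hsub ht)) hmap
  have h5 := Finset.card_le_card hsub
  rw [hPsupp] at h5
  omega

end Pool.Agent.Lib_MP_e4b855_nt.Tri
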