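import Mathlib

namespace Pool.Agent.Lib_MP_e4b855_nt.Tri

open Finset Polynomial

/-- `2` not Wieferich: every residue `1 + p m` mod `p^{n+1}` is a power of `2` -/
theorem cheb_pow_two {p : ℕ} [Fact p.Prime] (hp2 : p ≠ 2) (hW : ¬ p ^ 2 ∣ 2 ^ (p - 1) - 1)
    (n m : ℕ) (hm : m < p ^ n) :
    ∃ k : ℕ, (2 : ZMod (p ^ (n + 1))) ^ k = 1 + p * m := by
  have hpp : p.Prime := Fact.out
  have h1le : 1 ≤ 2 ^ (p - 1) := Nat.one_le_two_pow
  have hdvd : p ∣ 2 ^ (p - 1) - 1 := by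
    have h1 : (2 : ZMod p) ^ (p - 1) = 1 := by
      refine ZMod.pow_card_sub_one_eq_one ?_
      intro h0
      have h2 : ((2 : ℕ) : ZMod p) = 0 := by exact_mod_cast h0
      rw [ZMod.natCast_eq_zero_iff] at h2
      exact hp2 ((Nat.prime_dvd_prime_iff_eq hpp Nat.prime_two).mp h2)
    rw [← ZMod.natCast_eq_zero_iff, Nat.cast_sub h1le]
    push_cast
    rw [h1]
    exact sub_self _
  obtain ⟨w, hw⟩ := hdvd
  have hw' : 2 ^ (p - 1) = 1 + p * w := by omega
  have hpw : ¬ (p : ℤ) ∣ (w : ℤ) := by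
    rintro h
    have h' : p ∣ w := by exact_mod_cast h
    obtain ⟨v, hv⟩ := h'
    refine hW ⟨v, ?_⟩
    rw [hw, hv]
    ring
  have hord := ZMod.orderOf_one_add_mul_prime hpp hp2 (w : ℤ) hpw n
  set x : ZMod (p ^ (n + 1)) := 1 + p * ((w : ℤ) : ZMod (p ^ (n + 1))) with hx
  have hx2 : x = 2 ^ (p - 1) := by
    rw [hx]
    have := congrArg (fun t : ℕ => (t : ZMod (p ^ (n + 1)))) hw'
    push_cast at this ⊢
    exact this.symm
  have hpos : 0 < p ^ n := Nat.pow_pos hpp.pos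
  set S : Finset (ZMod (p ^ (n + 1))) :=
    (range (p ^ n)).image (fun m : ℕ => (1 + p * m : ZMod (p ^ (n + 1)))) with hS
  set T : Finset (ZMod (p ^ (n + 1))) := (range (p ^ n)).image (fun k => x ^ k) with hT
  have hTS : T ⊆ S := by
    intro y hy
    rw [hT, Finset.mem_image] at hy
    obtain ⟨k, -, rfl⟩ := hy
    have h2 : ∃ y : ℕ, (1 + p * w) ^ k = 1 + p * y := by
      induction k with
      | zero => exact ⟨0, by ring⟩
      | succ k ih =>
        obtain ⟨y, hy⟩ := ih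
        refine ⟨w + y + p * y * w, ?_⟩
        rw [pow_succ, hy]
        ring
    obtain ⟨y, hy⟩ := h2
    rw [hS, Finset.mem_image]
    refine ⟨y % p ^ n, Finset.mem_range.mpr (Nat.mod_lt _ hpos), ?_⟩
    have h3 : x ^ k = ((1 + p * y : ℕ) : ZMod (p ^ (n + 1))) := by
      rw [← hy, hx]
      push_cast
      ring
    have h4 : ((1 + p * (y % p ^ n) : ℕ) : ZMod (p ^ (n + 1))) =
        ((1 + p * y : ℕ) : ZMod (p ^ (n + 1))) := by
      rw [ZMod.natCast_eq_natCast_iff]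
      refine Nat.ModEq.add_left _ ?_
      rw [pow_succ']
      exact Nat.ModEq.mul_left' p (Nat.mod_modEq y (p ^ n))
    rw [h3, ← h4]
    push_cast
    ring
  have hcT : T.card = p ^ n := by
    rw [hT, Finset.card_image_of_injOn, Finset.card_range]
    intro a ha b hb hab
    rw [Finset.coe_range, Set.mem_Iio, ← hord] at ha hb
    exact pow_injOn_Iio_orderOf ha hb hab
  have hcS : S.card ≤ T.card := by
    rw [hcT, hS]
    exact Finset.card_image_le.trans (by rw [Finset.card_range])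
  have hEq := Finset.eq_of_subset_of_card_le hTS hcS
  have hmS : (1 + p * m : ZMod (p ^ (n + 1))) ∈ T := by
    rw [hEq, hS, Finset.mem_image]
    exact ⟨m, Finset.mem_range.mpr hm, rfl⟩
  rw [hT, Finset.mem_image] at hmS
  obtain ⟨k, -, hk⟩ := hmS
  refine ⟨(p - 1) * k, ?_⟩
  rw [pow_mul, ← hx2, hk]

/-- reindexing `k < P * p` by `k = r₀ + P t` -/
theorem cheb_sum_split {R : Type*} [AddCommMonoid R] (P p : ℕ) (hP : 0 < P) (f : ℕ → R) :
    ∑ k ∈ range (P * p), f k = ∑ r ∈ range P, ∑ t ∈ range p, f (r + P * t) := by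
  rw [← Finset.sum_product']
  refine (Finset.sum_nbij' (fun x : ℕ × ℕ => x.1 + P * x.2) (fun k => (k % P, k / P))
    ?_ ?_ ?_ ?_ ?_).symm
  · rintro ⟨r, t⟩ h
    rw [Finset.mem_product, Finset.mem_range, Finset.mem_range] at h
    rw [Finset.mem_range]
    have h1 : P * t + P ≤ P * p := by
      have := Nat.mul_le_mul_left P (Nat.succ_le_of_lt h.2)
      rwa [Nat.mul_succ] at this
    have := h.1
    simp only
    omega
  · intro k hk
    rw [Finset.mem_range] at hk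
    rw [Finset.mem_product, Finset.mem_range, Finset.mem_range]
    exact ⟨Nat.mod_lt _ hP, Nat.div_lt_of_lt_mul hk⟩
  · rintro ⟨r, t⟩ h
    rw [Finset.mem_product, Finset.mem_range, Finset.mem_range] at h
    rw [Prod.mk.injEq, Nat.add_mul_mod_self_left, Nat.mod_eq_of_lt h.1,
      Nat.add_mul_div_left _ _ hP, Nat.div_eq_of_lt h.1, zero_add]
    exact ⟨rfl, rfl⟩
  · intro k _
    exact Nat.mod_add_div k P
  · rintro ⟨r, t⟩ _
    rfl

/-- the splitting into classes mod `p^n` -/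
theorem cheb_split {R : Type*} [CommRing R] [IsDomain R] {p : ℕ} [Fact p.Prime] (hp2 : p ≠ 2)
    (hW : ¬ p ^ 2 ∣ 2 ^ (p - 1) - 1) (n : ℕ) (z : R) (hz : IsPrimitiveRoot z (p ^ (n + 1)))
    (g : ℕ → R)
    (hg : ∀ i : ℕ, ∑ k ∈ range (p ^ (n + 1)), g k * (z ^ 2 ^ i) ^ k = 0)
    (r₀ : ℕ) (hr₀ : r₀ < p ^ n) (i : ℕ) :
    ∑ t ∈ range p, g (r₀ + p ^ n * t) * ((z ^ p ^ n) ^ 2 ^ i) ^ t = 0 := by
  classical
  have hpp : p.Prime := Fact.out
  have hpos : 0 < p ^ n := Nat.pow_pos hpp.pos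
  have hN0 : 0 < p ^ (n + 1) := Nat.pow_pos hpp.pos
  have hz0 : z ≠ 0 := hz.ne_zero hN0.ne'
  set c : ℕ → R := fun r => ∑ t ∈ range p, g (r + p ^ n * t) * ((z ^ p ^ n) ^ 2 ^ i) ^ t with hc
  set H : R[X] := ∑ r ∈ range (p ^ n), C (z ^ (2 ^ i * r) * c r) * X ^ r with hH
  have hcop : Nat.Coprime (2 ^ i) (p ^ (n + 1)) := by
    refine Nat.Coprime.pow _ _ ?_
    rw [Nat.coprime_primes Nat.prime_two hpp]
    exact fun h => hp2 h.symm
  have hη : IsPrimitiveRoot ((z ^ 2 ^ i) ^ p) (p ^ n) := by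
    have h1 := hz.pow_of_coprime (2 ^ i) hcop
    exact h1.pow hN0 (by rw [pow_succ']) 
  have hHeval : ∀ m ∈ range (p ^ n), H.eval (((z ^ 2 ^ i) ^ p) ^ m) = 0 := by
    intro m hm
    rw [Finset.mem_range] at hm
    obtain ⟨k, hk⟩ := cheb_pow_two hp2 hW n m hm
    have h0 := hg (i + k)
    rw [pow_succ, cheb_sum_split (p ^ n) p hpos] at h0
    rw [hH, eval_finsetSum]
    rw [← h0]
    refine Finset.sum_congr rfl ?_
    intro r _
    rw [eval_mul, eval_C, eval_pow, eval_X, hc]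
    simp only
    rw [Finset.mul_sum, Finset.sum_mul]
    refine Finset.sum_congr rfl ?_
    intro t _
    have hkey : z ^ (2 ^ i * r) * (((z ^ p ^ n) ^ 2 ^ i) ^ t) * (((z ^ 2 ^ i) ^ p) ^ m) ^ r =
        (z ^ 2 ^ (i + k)) ^ (r + p ^ n * t) := by
      rw [← pow_mul, ← pow_mul, ← pow_mul, ← pow_mul, ← pow_mul, ← pow_mul, ← pow_add, ← pow_add]
      refine pow_eq_pow_of_modEq ?_ hz.pow_eq_one
      rw [← ZMod.natCast_eq_natCast_iff]
      have hpn : ((p : ℕ) : ZMod (p ^ (n + 1))) ^ (n + 1) = 0 := by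
        rw [← Nat.cast_pow, ZMod.natCast_self]
      push_cast
      rw [pow_add (2 : ZMod (p ^ (n + 1))) i k, hk]
      have hpn2 : ((p : ℕ) : ZMod (p ^ (n + 1))) ^ n * p = 0 := by
        rw [← hpn]
        exact (pow_succ (p : ZMod (p ^ (n + 1))) n).symm
      linear_combination (-(2 : ZMod (p ^ (n + 1))) ^ i * m * t) * hpn2
    rw [← hkey]
    ring
  have hH0 : H = 0 := by
    refine Polynomial.eq_zero_of_natDegree_lt_card_of_eval_eq_zero' H
      ((range (p ^ n)).image fun m => ((z ^ 2 ^ i) ^ p) ^ m) ?_ ?_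
    · intro y hy
      rw [Finset.mem_image] at hy
      obtain ⟨m, hm, rfl⟩ := hy
      exact hHeval m hm
    · rw [Finset.card_image_of_injOn, Finset.card_range]
      · refine (Polynomial.natDegree_sum_le_of_forall_le (n := p ^ n - 1) _ _ ?_).trans_lt
          (by omega)
        intro r hr
        rw [Finset.mem_range] at hr
        exact (natDegree_C_mul_X_pow_le _ _).trans (by omega)
      · intro a ha b hb hab
        rw [Finset.coe_range, Set.mem_Iio] at ha hb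
        exact hη.pow_inj ha hb hab
  have hcoef : H.coeff r₀ = z ^ (2 ^ i * r₀) * c r₀ := by
    rw [hH, finsetSum_coeff]
    rw [Finset.sum_eq_single r₀]
    · rw [coeff_C_mul, coeff_X_pow_self, mul_one]
    · intro b _ hb
      rw [coeff_C_mul, coeff_X_pow, if_neg (fun h => hb h.symm), mul_zero]
    · intro h
      exact absurd (Finset.mem_range.mpr hr₀) h
  rw [hH0, coeff_zero] at hcoef
  exact (mul_eq_zero.mp hcoef.symm).resolve_left (pow_ne_zero _ hz0)

end Pool.Agent.Lib_MP_e4b855_nt.Tri
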