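import Mathlib
import Pool.Agent.Lib_MP_e4b855_nt.Tri.Cheb1
import Pool.Agent.Lib_MP_e4b855_nt.Tri.Cheb2

namespace Pool.Agent.Lib_MP_e4b855_nt.Tri

open Finset Polynomial IntermediateField NumberField

theorem cheb_sum_zmod {R : Type*} [Semiring R] (N : ℕ) [NeZero N] (f : ZMod N → R) (x : R) :
    ∑ r : ZMod N, f r * x ^ r.val = ∑ k ∈ range N, f (k : ZMod N) * x ^ k := by
  refine Finset.sum_nbij' ZMod.val (fun k => (k : ZMod N)) ?_ ?_ ?_ ?_ ?_
  · intro r _
    exact Finset.mem_range.mpr (ZMod.val_lt r)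
  · intro k _
    exact Finset.mem_univ _
  · intro r _
    exact ZMod.natCast_zmod_val r
  · intro k hk
    exact ZMod.val_cast_of_lt (Finset.mem_range.mp hk)
  · intro r _
    rw [ZMod.natCast_zmod_val]

/-- the abstract form: `R` a Noetherian domain of characteristic zero -/
theorem cheb_abs {p : ℕ} [Fact p.Prime] (hp2 : p ≠ 2) (n : ℕ)
    (hW : ¬ p ^ 2 ∣ 2 ^ (p - 1) - 1) {R : Type*} [CommRing R] [IsDomain R] [CharZero R]
    [IsNoetherianRing R] (z : R) (hz : IsPrimitiveRoot z (p ^ (n + 1)))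
    (hπ : Prime (z - 1)) (hp : z - 1 ∣ (p : R))
    (A B : ZMod (p ^ (n + 1)) → ℤ)
    (hs : ∀ r₀ : ℤ, #{r : ZMod (p ^ (n + 1)) | ((p ^ n : ℕ) : ℤ) ∣ (r.val : ℤ) - r₀ ∧
      (A r ≠ 0 ∨ B r ≠ 0)} ≤ orderOf (2 : ZMod p))
    (hB : ∑ r, (B r : R) * z ^ r.val ≠ 0)
    (hrel : ∀ i : ℕ, (∑ r, (A r : R) * (z ^ 2 ^ i) ^ r.val) * (∑ r, (B r : R) * z ^ r.val) =
      (∑ r, (B r : R) * (z ^ 2 ^ i) ^ r.val) * (∑ r, (A r : R) * z ^ r.val)) :
    ∃ a b : ℤ, b ≠ 0 ∧ ∀ r, b * A r = a * B r := by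
  classical
  have hpp : p.Prime := Fact.out
  have hpos : 0 < p ^ n := Nat.pow_pos hpp.pos
  set SA : R := ∑ r, (A r : R) * z ^ r.val with hSA
  set SB : R := ∑ r, (B r : R) * z ^ r.val with hSB
  set g : ℕ → R := fun k => SB * (A (k : ZMod (p ^ (n + 1))) : R) -
    SA * (B (k : ZMod (p ^ (n + 1))) : R) with hgdef
  have hg : ∀ i : ℕ, ∑ k ∈ range (p ^ (n + 1)), g k * (z ^ 2 ^ i) ^ k = 0 := by
    intro i
    have h1 := hrel i
    rw [cheb_sum_zmod (p ^ (n + 1)) (fun r => (A r : R)),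
      cheb_sum_zmod (p ^ (n + 1)) (fun r => (B r : R))] at h1
    have h2 : ∑ k ∈ range (p ^ (n + 1)), g k * (z ^ 2 ^ i) ^ k =
        SB * (∑ k ∈ range (p ^ (n + 1)), (A (k : ZMod (p ^ (n + 1))) : R) * (z ^ 2 ^ i) ^ k) -
        SA * (∑ k ∈ range (p ^ (n + 1)), (B (k : ZMod (p ^ (n + 1))) : R) * (z ^ 2 ^ i) ^ k) := by
      rw [Finset.mul_sum, Finset.mul_sum, ← Finset.sum_sub_distrib]
      refine Finset.sum_congr rfl ?_
      intro k _
      rw [hgdef]
      ring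
    rw [h2]
    linear_combination h1
  set ω : R := z ^ p ^ n with hω
  have hωp : IsPrimitiveRoot ω p := hz.pow (Nat.pow_pos hpp.pos) (pow_succ p n)
  set h : ℕ := orderOf (2 : ZMod p) with hh
  set S : Finset R := (range h).image (fun i => ω ^ 2 ^ i) with hS
  have hScard : S.card = h := by
    rw [hS, Finset.card_image_of_injOn, Finset.card_range]
    intro a ha b hb hab
    rw [Finset.coe_range, Set.mem_Iio] at ha hb
    have h1 : ω ^ (2 ^ a % p) = ω ^ (2 ^ b % p) := by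
      rw [pow_eq_pow_of_modEq (Nat.mod_modEq (2 ^ a) p) hωp.pow_eq_one,
        pow_eq_pow_of_modEq (Nat.mod_modEq (2 ^ b) p) hωp.pow_eq_one]
      exact hab
    have h2 := hωp.pow_inj (Nat.mod_lt _ hpp.pos) (Nat.mod_lt _ hpp.pos) h1
    have h3 : ((2 ^ a : ℕ) : ZMod p) = ((2 ^ b : ℕ) : ZMod p) := by
      rw [ZMod.natCast_eq_natCast_iff]
      exact h2
    push_cast at h3
    exact pow_injOn_Iio_orderOf ha hb h3
  have hSdvd : ∀ x ∈ S, z - 1 ∣ x - 1 := by
    intro x hx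
    rw [hS, Finset.mem_image] at hx
    obtain ⟨i, -, rfl⟩ := hx
    rw [hω, ← pow_mul]
    have := sub_dvd_pow_sub_pow z 1 (p ^ n * 2 ^ i)
    rwa [one_pow] at this
  have hzero : ∀ k < p ^ (n + 1), g k = 0 := by
    intro k hk
    have hr0 : k % p ^ n < p ^ n := Nat.mod_lt _ hpos
    have ht0 : k / p ^ n < p := Nat.div_lt_of_lt_mul (by rwa [← pow_succ])
    set r₀ := k % p ^ n with hr0def
    set Q : R[X] := ∑ t ∈ range p, C (g (r₀ + p ^ n * t)) * X ^ t with hQ
    have hcoef : ∀ t, Q.coeff t = if t < p then g (r₀ + p ^ n * t) else 0 := by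
      intro t
      rw [hQ, finsetSum_coeff]
      split_ifs with ht
      · rw [Finset.sum_eq_single t]
        · rw [coeff_C_mul, coeff_X_pow_self, mul_one]
        · intro b _ hb
          rw [coeff_C_mul, coeff_X_pow, if_neg (fun h => hb h.symm), mul_zero]
        · intro h'
          exact absurd (Finset.mem_range.mpr ht) h'
      · refine Finset.sum_eq_zero ?_
        intro b hb
        rw [Finset.mem_range] at hb
        rw [coeff_C_mul, coeff_X_pow, if_neg (by omega), mul_zero]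
    have hlt : ∀ t ∈ Q.support, t < p := by
      intro t ht
      rw [mem_support_iff, hcoef] at ht
      by_contra h'
      rw [if_neg h'] at ht
      exact ht rfl
    have hroot : ∀ x ∈ S, Q.eval x = 0 := by
      intro x hx
      rw [hS, Finset.mem_image] at hx
      obtain ⟨i, -, rfl⟩ := hx
      have h1 := cheb_split hp2 hW n z hz g hg r₀ hr0 i
      rw [hQ, eval_finsetSum, ← h1]
      refine Finset.sum_congr rfl ?_
      intro t _
      rw [eval_mul, eval_C, eval_pow, eval_X]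
    have hcard : Q.support.card ≤ S.card := by
      rw [hScard]
      refine le_trans ?_ (hs (r₀ : ℤ))
      have hval : ∀ t < p, ((r₀ + p ^ n * t : ℕ) : ZMod (p ^ (n + 1))).val = r₀ + p ^ n * t := by
        intro t ht
        refine ZMod.val_cast_of_lt ?_
        have h1 : p ^ n * t + p ^ n ≤ p ^ (n + 1) := by
          have := Nat.mul_le_mul_left (p ^ n) (Nat.succ_le_of_lt ht)
          rwa [Nat.mul_succ, ← pow_succ] at this
        omega
      refine Finset.card_le_card_of_injOn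
        (fun t => ((r₀ + p ^ n * t : ℕ) : ZMod (p ^ (n + 1)))) ?_ ?_
      · intro t ht
        rw [Finset.mem_coe] at ht
        have htp := hlt t ht
        rw [mem_support_iff, hcoef, if_pos htp] at ht
        rw [Finset.mem_coe, Finset.mem_filter]
        refine ⟨Finset.mem_univ _, ?_, ?_⟩
        · rw [hval t htp]
          refine ⟨(t : ℤ), ?_⟩
          push_cast
          ring
        · by_contra hcon
          rw [not_or, not_not, not_not] at hcon
          refine ht ?_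
          simp only [hgdef]
          rw [hcon.1, hcon.2, Int.cast_zero, mul_zero, mul_zero, sub_zero]
      · intro t ht t' ht' heq
        rw [Finset.mem_coe] at ht ht'
        have h1 := congrArg ZMod.val heq
        simp only at h1
        rw [hval t (hlt t ht), hval t' (hlt t' ht')] at h1
        exact Nat.eq_of_mul_eq_mul_left hpos (by omega)
    have hQ0 := cheb_red p (z - 1) hπ hp S hSdvd Q hlt hroot hcard
    have h1 := hcoef (k / p ^ n)
    rw [hQ0, coeff_zero, if_pos ht0, hr0def, Nat.mod_add_div] at h1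
    exact h1.symm
  have hrr : ∀ r : ZMod (p ^ (n + 1)), SB * (A r : R) = SA * (B r : R) := by
    intro r
    have h1 := hzero r.val (ZMod.val_lt r)
    simp only [hgdef] at h1
    rw [ZMod.natCast_zmod_val] at h1
    linear_combination h1
  obtain ⟨r₁, hr₁⟩ : ∃ r, B r ≠ 0 := by
    by_contra hcon
    rw [not_exists] at hcon
    refine hB ?_
    rw [hSB]
    refine Finset.sum_eq_zero ?_
    intro r _
    rw [not_not.mp (hcon r), Int.cast_zero, zero_mul]
  refine ⟨A r₁, B r₁, hr₁, ?_⟩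
  intro r
  have h1 : SB * ((B r₁ * A r : ℤ) : R) = SB * ((A r₁ * B r : ℤ) : R) := by
    push_cast
    linear_combination (B r₁ : R) * hrr r - (B r : R) * hrr r₁
  have h2 := mul_left_cancel₀ hB h1
  exact_mod_cast h2

/-- Piece G10a.  Chebotarev-type lemma.  `A B : ZMod (p^j) → ℤ`, `h` = order of `2` mod `p`, `2`
not Wieferich (so the powers of `2` mod `p^j` are all units congruent to a power of `2` mod `p`),
every class mod `p^{j-1}` contains at most `h` residues where `(A, B) ≠ (0, 0)`, and the ratio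
`A(ζ^{2^i}) / B(ζ^{2^i})` does not depend on `i`.  Then `A` and `B` are proportional.
Proof: `g = B(ζ) A - A(ζ) B` has coefficients in `ℤ[ζ]` and vanishes at all `ζ^c`, `c ≡ 2^i (p)`;
split into the classes mod `p^{j-1}`: `g_{r_0}(z)`, `z = ζ_p^{2^i}`, has at most `h` terms and
degree `< p` (after dividing by a monomial); divide by the exact power of the prime
`π = ζ - 1` of `ℤ[ζ]` and reduce: `(z - 1)^h` divides a nonzero polynomial over `𝔽_p` of degree
`< p` with at most `h` terms, impossible. -/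
theorem cheb {p : ℕ} [Fact p.Prime] (hp2 : p ≠ 2) {j : ℕ} (hj : 0 < j) {ζ : ℂ}
    (hζ : IsPrimitiveRoot ζ (p ^ j)) (hW : ¬ p ^ 2 ∣ 2 ^ (p - 1) - 1)
    (A B : ZMod (p ^ j) → ℤ)
    (hs : ∀ r₀ : ℤ, #{r : ZMod (p ^ j) | ((p ^ (j - 1) : ℕ) : ℤ) ∣ (r.val : ℤ) - r₀ ∧
      (A r ≠ 0 ∨ B r ≠ 0)} ≤ orderOf (2 : ZMod p))
    (hB : ∑ r, (B r : ℂ) * ζ ^ r.val ≠ 0)
    (hrel : ∀ i : ℕ, (∑ r, (A r : ℂ) * (ζ ^ 2 ^ i) ^ r.val) * (∑ r, (B r : ℂ) * ζ ^ r.val) =
      (∑ r, (B r : ℂ) * (ζ ^ 2 ^ i) ^ r.val) * (∑ r, (A r : ℂ) * ζ ^ r.val)) :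
    ∃ a b : ℤ, b ≠ 0 ∧ ∀ r, b * A r = a * B r := by
  obtain ⟨n, rfl⟩ : ∃ n, j = n + 1 := ⟨j - 1, by omega⟩
  have hn0 : NeZero (p ^ (n + 1)) := ⟨pow_ne_zero _ (Fact.out : p.Prime).ne_zero⟩
  have hint : IsIntegral ℚ ζ := (hζ.isIntegral (NeZero.pos _)).tower_top
  have hcyc : IsCyclotomicExtension {p ^ (n + 1)} ℚ ℚ⟮ζ⟯ := by
    change IsCyclotomicExtension {p ^ (n + 1)} ℚ (IntermediateField.adjoin ℚ {ζ}).toSubalgebra
    rw [IntermediateField.adjoin_simple_toSubalgebra_of_isAlgebraic hint.isAlgebraic]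
    exact hζ.adjoin_isCyclotomicExtension ℚ
  have hnf : NumberField ℚ⟮ζ⟯ := IsCyclotomicExtension.numberField {p ^ (n + 1)} ℚ _
  have hz0 : IsPrimitiveRoot (AdjoinSimple.gen ℚ ζ) (p ^ (n + 1)) :=
    IsPrimitiveRoot.coe_submonoidClass_iff.mp hζ
  set ι : 𝓞 ℚ⟮ζ⟯ →+* ℂ := (algebraMap ℚ⟮ζ⟯ ℂ).comp (algebraMap (𝓞 ℚ⟮ζ⟯) ℚ⟮ζ⟯) with hι
  have hιinj : Function.Injective ι := by
    rw [hι]
    exact (algebraMap ℚ⟮ζ⟯ ℂ).injective.comp RingOfIntegers.coe_injective
  have hιz : ι hz0.toInteger = ζ := rfl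
  have hsum : ∀ (C : ZMod (p ^ (n + 1)) → ℤ) (x : 𝓞 ℚ⟮ζ⟯),
      ι (∑ r, (C r : 𝓞 ℚ⟮ζ⟯) * x ^ r.val) = ∑ r, (C r : ℂ) * (ι x) ^ r.val := by
    intro C x
    rw [map_sum]
    refine Finset.sum_congr rfl ?_
    intro r _
    rw [map_mul, map_intCast, map_pow]
  refine cheb_abs hp2 n hW hz0.toInteger hz0.toInteger_isPrimitiveRoot hz0.zeta_sub_one_prime
    hz0.toInteger_sub_one_dvd_prime A B hs ?_ ?_
  · intro h0
    refine hB ?_
    have h1 := congrArg ι h0
    rw [hsum, hιz, map_zero] at h1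
    exact h1
  · intro i
    apply hιinj
    rw [map_mul, map_mul, hsum, hsum, hsum, hsum, map_pow, hιz]
    exact hrel i

end Pool.Agent.Lib_MP_e4b855_nt.Tri
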