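import Mathlib

/-!
# Part III: the region of exponents
-/

namespace Pool.Agent.Lib_MP_e4b855_nt.Tri

/-- the region of the exponents `(a, b, -a-b)` for `μ = 1` -/
def Reg (a b : ℤ) : Prop :=
  |(-14071) * a + 155237 * b| ≤ 24963000 ∧ |169308 * a + 14071 * b| ≤ 24963000 ∧
  |155237 * a + 169308 * b| ≤ 24963000

/-- the coordinates from two of the conjugates -/
theorem region_coords {x y A B E : ℝ} (hx : -1.4075 ≤ x) (hx' : x ≤ -1.4067) (hy : 15.5233 ≤ y)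
    (hy' : y ≤ 15.5241) (H0 : |A * x + B * y| ≤ E) (H1 : |A * (y - x) - B * x| ≤ E) :
    |A| ≤ 0.065 * E ∧ |B| ≤ 0.07 * E := by
  have hE : 0 ≤ E := le_trans (abs_nonneg _) H0
  have hD : 264.7 ≤ x ^ 2 - x * y + y ^ 2 := by nlinarith
  have hD0 : 0 < x ^ 2 - x * y + y ^ 2 := by linarith
  have hxa : |x| ≤ 1.4075 := abs_le.2 ⟨by linarith, by linarith⟩
  have hya : |y| ≤ 15.5241 := abs_le.2 ⟨by linarith, by linarith⟩
  have hza : |y - x| ≤ 16.9316 := abs_le.2 ⟨by linarith, by linarith⟩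
  have eA : A * (x ^ 2 - x * y + y ^ 2) = x * (A * x + B * y) + y * (A * (y - x) - B * x) := by ring
  have eB : B * (x ^ 2 - x * y + y ^ 2) =
      (y - x) * (A * x + B * y) - x * (A * (y - x) - B * x) := by ring
  have m1 : |x * (A * x + B * y)| ≤ 1.4075 * E := by
    rw [abs_mul]; exact mul_le_mul hxa H0 (abs_nonneg _) (by norm_num)
  have m2 : |y * (A * (y - x) - B * x)| ≤ 15.5241 * E := by
    rw [abs_mul]; exact mul_le_mul hya H1 (abs_nonneg _) (by norm_num)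
  have m3 : |(y - x) * (A * x + B * y)| ≤ 16.9316 * E := by
    rw [abs_mul]; exact mul_le_mul hza H0 (abs_nonneg _) (by norm_num)
  have m4 : |x * (A * (y - x) - B * x)| ≤ 1.4075 * E := by
    rw [abs_mul]; exact mul_le_mul hxa H1 (abs_nonneg _) (by norm_num)
  have nA : |A| * (x ^ 2 - x * y + y ^ 2) ≤ 16.9316 * E := by
    have h : |A * (x ^ 2 - x * y + y ^ 2)| ≤ 16.9316 * E := by
      rw [eA]
      refine (abs_add_le _ _).trans ?_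
      linarith
    rwa [abs_mul, abs_of_pos hD0] at h
  have nB : |B| * (x ^ 2 - x * y + y ^ 2) ≤ 18.3391 * E := by
    have h : |B * (x ^ 2 - x * y + y ^ 2)| ≤ 18.3391 * E := by
      rw [eB]
      refine (abs_sub _ _).trans ?_
      linarith
    rwa [abs_mul, abs_of_pos hD0] at h
  have kA := mul_le_mul_of_nonneg_left hD (abs_nonneg A)
  have kB := mul_le_mul_of_nonneg_left hD (abs_nonneg B)
  constructor
  · linarith
  · linarith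

/-- the differences of the logarithms -/
theorem region_diff {l0 l1 l2 : ℝ} (h0 : |l0 + 4.7552| ≤ 0.0002) (h1 : |l1 - 12.1756| ≤ 0.0002)
    (h2 : |l2 + 3.3481| ≤ 0.0002) : -1.4075 ≤ l0 - l2 ∧ l0 - l2 ≤ -1.4067 ∧
      15.5233 ≤ l1 - l2 ∧ l1 - l2 ≤ 15.5241 := by
  rw [abs_le] at h0 h1 h2
  refine ⟨?_, ?_, ?_, ?_⟩ <;> linarith [h0.1, h0.2, h1.1, h1.2, h2.1, h2.2]

theorem region_forms {l0 l1 l2 : ℝ} (a b : ℤ) :
    (a : ℝ) * l0 + b * l1 + (-a - b) * l2 = a * (l0 - l2) + b * (l1 - l2) ∧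
    (a : ℝ) * l1 + b * l2 + (-a - b) * l0 = a * ((l1 - l2) - (l0 - l2)) - b * (l0 - l2) ∧
    (a : ℝ) * l2 + b * l0 + (-a - b) * l1 = -(a * (l1 - l2) + b * ((l1 - l2) - (l0 - l2))) := by
  refine ⟨?_, ?_, ?_⟩ <;> ring

/-- The logarithms `l0, l1, l2` and the three conjugates.  Let `M = max |a| |b|`; the differences
`l0 - l2 = -1.4071 ± 0.0004`, `l1 - l2 = 15.5237 ± 0.0004`, `l1 - l0 = 16.9308 ± 0.0004` and the three
inequalities give first `M ≤ 160` and then the claim (`10^4 · 0.0005 · 320 = 1600 ≤ 3000`). -/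
theorem region_one {l0 l1 l2 : ℝ} (h0 : |l0 + 4.7552| ≤ 0.0002) (h1 : |l1 - 12.1756| ≤ 0.0002)
    (h2 : |l2 + 3.3481| ≤ 0.0002) {a b : ℤ}
    (H0 : |(a : ℝ) * l0 + b * l1 + (-a - b) * l2| ≤ 2496)
    (H1 : |(a : ℝ) * l1 + b * l2 + (-a - b) * l0| ≤ 2496)
    (H2 : |(a : ℝ) * l2 + b * l0 + (-a - b) * l1| ≤ 2496) : Reg a b := by
  obtain ⟨d1, d2, d3, d4⟩ := region_diff h0 h1 h2
  obtain ⟨f1, f2, f3⟩ := region_forms (l0 := l0) (l1 := l1) (l2 := l2) a b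
  rw [f1] at H0
  rw [f2] at H1
  rw [f3, abs_neg] at H2
  obtain ⟨x, hx⟩ : ∃ x, x = l0 - l2 := ⟨_, rfl⟩
  obtain ⟨y, hy⟩ : ∃ y, y = l1 - l2 := ⟨_, rfl⟩
  rw [← hx, ← hy] at H0 H1 H2
  rw [← hx] at d1 d2
  rw [← hy] at d3 d4
  obtain ⟨cA, cB⟩ := region_coords d1 d2 d3 d4 H0 H1
  have e1 : |(a : ℝ) * (x + 1.4071)| ≤ 0.0004 * |(a : ℝ)| := by
    rw [abs_mul, mul_comm]
    exact mul_le_mul_of_nonneg_right (abs_le.2 ⟨by linarith, by linarith⟩) (abs_nonneg _)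
  have e2 : |(b : ℝ) * (x + 1.4071)| ≤ 0.0004 * |(b : ℝ)| := by
    rw [abs_mul, mul_comm]
    exact mul_le_mul_of_nonneg_right (abs_le.2 ⟨by linarith, by linarith⟩) (abs_nonneg _)
  have e3 : |(a : ℝ) * (y - 15.5237)| ≤ 0.0004 * |(a : ℝ)| := by
    rw [abs_mul, mul_comm]
    exact mul_le_mul_of_nonneg_right (abs_le.2 ⟨by linarith, by linarith⟩) (abs_nonneg _)
  have e4 : |(b : ℝ) * (y - 15.5237)| ≤ 0.0004 * |(b : ℝ)| := by
    rw [abs_mul, mul_comm]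
    exact mul_le_mul_of_nonneg_right (abs_le.2 ⟨by linarith, by linarith⟩) (abs_nonneg _)
  rw [abs_le] at e1 e2 e3 e4 H0 H1 H2
  have g1 : |((-14071) * a + 155237 * b : ℝ)| ≤ 24963000 := by
    rw [abs_le]
    constructor <;> linarith [e1.1, e1.2, e4.1, e4.2, H0.1, H0.2]
  have g2 : |(169308 * a + 14071 * b : ℝ)| ≤ 24963000 := by
    rw [abs_le]
    constructor <;> linarith [e1.1, e1.2, e2.1, e2.2, e3.1, e3.2, H1.1, H1.2]
  have g3 : |(155237 * a + 169308 * b : ℝ)| ≤ 24963000 := by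
    rw [abs_le]
    constructor <;> linarith [e2.1, e2.2, e3.1, e3.2, e4.1, e4.2, H2.1, H2.2]
  refine ⟨?_, ?_, ?_⟩
  · exact_mod_cast g1
  · exact_mod_cast g2
  · exact_mod_cast g3

/-- `4962 / 283 = 17.53…` -/
theorem region_two {l0 l1 l2 : ℝ} (h0 : |l0 + 4.7552| ≤ 0.0002) (h1 : |l1 - 12.1756| ≤ 0.0002)
    (h2 : |l2 + 3.3481| ≤ 0.0002) {a b : ℤ}
    (H0 : 283 * |(a : ℝ) * l0 + b * l1 + (-a - b) * l2| ≤ 4962)
    (H1 : 283 * |(a : ℝ) * l1 + b * l2 + (-a - b) * l0| ≤ 4962)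
    (H2 : 283 * |(a : ℝ) * l2 + b * l0 + (-a - b) * l1| ≤ 4962) :
    (a = 0 ∧ b = 0) ∨ (a = 1 ∧ b = 0) ∨ (a = 0 ∧ b = 1) ∨ (a = 1 ∧ b = -1) ∨
      (a = -1 ∧ b = 0) ∨ (a = 0 ∧ b = -1) ∨ (a = -1 ∧ b = 1) := by
  obtain ⟨d1, d2, d3, d4⟩ := region_diff h0 h1 h2
  obtain ⟨f1, f2, f3⟩ := region_forms (l0 := l0) (l1 := l1) (l2 := l2) a b
  rw [f1] at H0
  rw [f2] at H1
  rw [f3, abs_neg] at H2
  obtain ⟨x, hx⟩ : ∃ x, x = l0 - l2 := ⟨_, rfl⟩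
  obtain ⟨y, hy⟩ : ∃ y, y = l1 - l2 := ⟨_, rfl⟩
  rw [← hx, ← hy] at H0 H1 H2
  rw [← hx] at d1 d2
  rw [← hy] at d3 d4
  have H0' : |(a : ℝ) * x + b * y| ≤ 17.54 := by linarith
  have H1' : |(a : ℝ) * (y - x) - b * x| ≤ 17.54 := by linarith
  obtain ⟨cA, cB⟩ := region_coords d1 d2 d3 d4 H0' H1'
  have a1 : |a| < 2 := by
    have h : |(a : ℝ)| < 2 := by linarith
    exact_mod_cast h
  have b1 : |b| < 2 := by
    have h : |(b : ℝ)| < 2 := by linarith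
    exact_mod_cast h
  rw [abs_lt] at a1 b1
  have n1 : ¬ (a = 1 ∧ b = 1) := by
    rintro ⟨rfl, rfl⟩
    rw [abs_le] at H1'
    push_cast at H1'
    linarith [H1'.1, H1'.2]
  have n2 : ¬ (a = -1 ∧ b = -1) := by
    rintro ⟨rfl, rfl⟩
    rw [abs_le] at H1'
    push_cast at H1'
    linarith [H1'.1, H1'.2]
  omega

theorem region_pow (n : ℕ) : (3 : ℝ) * (10 + ((n : ℝ) + 3) * 822) ≤ 0.1 * 283 ^ (n + 2) := by
  induction n with
  | zero => norm_num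
  | succ n ih =>
    have h1 : (1 : ℝ) ≤ 283 ^ n := one_le_pow₀ (by norm_num)
    have h2 : (283 : ℝ) ^ (n + 2) = 80089 * 283 ^ n := by ring
    have h3 : (283 : ℝ) ^ (n + 1 + 2) = 22665187 * 283 ^ n := by ring
    rw [h2] at ih
    rw [h3]
    push_cast
    linarith

/-- `3 (10 + 822 μ) / 283^(μ-1) < 0.1` for `μ ≥ 3` -/
theorem region_three {l0 l1 l2 : ℝ} (h0 : |l0 + 4.7552| ≤ 0.0002) (h1 : |l1 - 12.1756| ≤ 0.0002)
    (h2 : |l2 + 3.3481| ≤ 0.0002) {a b : ℤ} {μ : ℕ} (hμ : 3 ≤ μ)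
    (H0 : (283 : ℝ) ^ (μ - 1) * |(a : ℝ) * l0 + b * l1 + (-a - b) * l2| ≤ 3 * (10 + μ * 822))
    (H1 : (283 : ℝ) ^ (μ - 1) * |(a : ℝ) * l1 + b * l2 + (-a - b) * l0| ≤ 3 * (10 + μ * 822))
    (H2 : (283 : ℝ) ^ (μ - 1) * |(a : ℝ) * l2 + b * l0 + (-a - b) * l1| ≤ 3 * (10 + μ * 822)) :
    a = 0 ∧ b = 0 := by
  obtain ⟨d1, d2, d3, d4⟩ := region_diff h0 h1 h2
  obtain ⟨f1, f2, -⟩ := region_forms (l0 := l0) (l1 := l1) (l2 := l2) a b
  rw [f1] at H0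
  rw [f2] at H1
  obtain ⟨n, rfl⟩ : ∃ n, μ = n + 3 := ⟨μ - 3, by omega⟩
  have e : n + 3 - 1 = n + 2 := by omega
  rw [e] at H0 H1
  have hp := region_pow n
  have h283 : (0 : ℝ) < 283 ^ (n + 2) := by positivity
  push_cast at H0 H1
  have H0' : |(a : ℝ) * (l0 - l2) + b * (l1 - l2)| ≤ 0.1 := by
    refine le_of_mul_le_mul_left (H0.trans (hp.trans (le_of_eq ?_))) h283
    ring
  have H1' : |(a : ℝ) * ((l1 - l2) - (l0 - l2)) - b * (l0 - l2)| ≤ 0.1 := by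
    refine le_of_mul_le_mul_left (H1.trans (hp.trans (le_of_eq ?_))) h283
    ring
  obtain ⟨cA, cB⟩ := region_coords d1 d2 d3 d4 H0' H1'
  constructor
  · have h : |(a : ℝ)| < 1 := by linarith
    have h' : |a| < 1 := by exact_mod_cast h
    exact Int.abs_lt_one_iff.1 h'
  · have h : |(b : ℝ)| < 1 := by linarith
    have h' : |b| < 1 := by exact_mod_cast h
    exact Int.abs_lt_one_iff.1 h'

end Pool.Agent.Lib_MP_e4b855_nt.Tri
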