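import Pool.Agent.Lib_MP_e4b855_nt.Tri.Th
import Pool.Agent.Lib_MP_e4b855_nt.Tri.Region

/-!
# Part III: the units modulo a prime
-/

namespace Pool.Agent.Lib_MP_e4b855_nt.Tri

open Finset

/-- a prime `1` modulo `566` -/
abbrev ell : ℕ := 4294007111

theorem ell_prime : ell.Prime := by
  have hfac : ell - 1 = 2 * (5 * (283 * 1517317)) := rfl
  refine lucas_primality ell (11 : ZMod 4294007111) ?_ ?_
  · show (11 : ZMod 4294007111) ^ 4294007110 = 1
    reduce_mod_char
  · intro q hq hqd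
    rw [hfac] at hqd
    have h2 : Nat.Prime 2 := by norm_num
    have h5 : Nat.Prime 5 := by norm_num
    have h283 : Nat.Prime 283 := by norm_num
    have hbig : Nat.Prime 1517317 := by norm_num
    have hcase : q = 2 ∨ q = 5 ∨ q = 283 ∨ q = 1517317 := by
      rcases (Nat.Prime.dvd_mul hq).1 hqd with h | h
      · exact Or.inl ((Nat.prime_dvd_prime_iff_eq hq h2).1 h)
      rcases (Nat.Prime.dvd_mul hq).1 h with h | h
      · exact Or.inr (Or.inl ((Nat.prime_dvd_prime_iff_eq hq h5).1 h))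
      rcases (Nat.Prime.dvd_mul hq).1 h with h | h
      · exact Or.inr (Or.inr (Or.inl ((Nat.prime_dvd_prime_iff_eq hq h283).1 h)))
      · exact Or.inr (Or.inr (Or.inr ((Nat.prime_dvd_prime_iff_eq hq hbig).1 h)))
    rcases hcase with rfl | rfl | rfl | rfl
    · show (11 : ZMod 4294007111) ^ 2147003555 ≠ 1
      reduce_mod_char
      decide
    · show (11 : ZMod 4294007111) ^ 858801422 ≠ 1
      reduce_mod_char
      decide
    · show (11 : ZMod 4294007111) ^ 15173170 ≠ 1
      reduce_mod_char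
      decide
    · show (11 : ZMod 4294007111) ^ 2830 ≠ 1
      reduce_mod_char
      decide

instance : Fact ell.Prime := ⟨ell_prime⟩

/-- a primitive root of unity of order `283` modulo `ell` -/
def zell : ZMod ell := 1126413664

theorem zell_prim : IsPrimitiveRoot zell 283 := by
  have h283 : Fact (Nat.Prime 283) := ⟨by norm_num⟩
  have h1 : zell ^ 283 = 1 := by
    show (1126413664 : ZMod 4294007111) ^ 283 = 1
    reduce_mod_char
  have h2 : zell ≠ 1 := by
    show (1126413664 : ZMod 4294007111) ≠ 1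
    decide
  have h3 := orderOf_eq_prime h1 h2
  rw [← h3]
  exact IsPrimitiveRoot.orderOf zell

/-- the values `th k zell` -/
def tv : ℕ → ZMod ell
  | 0 => 241361135
  | 1 => 3285450081
  | 2 => 3111750467
  | 3 => 4052645976
  | _ => 1008557030

/-- `∏_{i < n} (x ^ (2 ^ i) - y ^ (2 ^ i))` modulo `m`, times `acc` -/
def pn (m : ℕ) : ℕ → ℕ → ℕ → ℕ → ℕ
  | 0, _, _, acc => acc
  | n + 1, x, y, acc => pn m n (x * x % m) (y * y % m) (acc * (x + (m - y)) % m)

theorem pn_eq (m : ℕ) (hm : 0 < m) (n x y acc : ℕ) (hy : y ≤ m) :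
    ((pn m n x y acc : ℕ) : ZMod m) =
      acc * ∏ i ∈ range n, ((x : ZMod m) ^ 2 ^ i - (y : ZMod m) ^ 2 ^ i) := by
  induction n generalizing x y acc with
  | zero => simp [pn]
  | succ n ih =>
    have h1 := ih (x * x % m) (y * y % m) (acc * (x + (m - y)) % m) (Nat.mod_lt _ hm).le
    show ((pn m n (x * x % m) (y * y % m) (acc * (x + (m - y)) % m) : ℕ) : ZMod m) = _
    rw [h1, Finset.prod_range_succ']
    have h2 : ∀ i : ℕ, (((x * x % m : ℕ) : ZMod m)) ^ 2 ^ i = (x : ZMod m) ^ 2 ^ (i + 1) := by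
      intro i
      rw [ZMod.natCast_mod, Nat.cast_mul, ← pow_two, ← pow_mul, pow_succ' 2 i]
    have h3 : ∀ i : ℕ, (((y * y % m : ℕ) : ZMod m)) ^ 2 ^ i = (y : ZMod m) ^ 2 ^ (i + 1) := by
      intro i
      rw [ZMod.natCast_mod, Nat.cast_mul, ← pow_two, ← pow_mul, pow_succ' 2 i]
    simp only [h2, h3]
    rw [ZMod.natCast_mod, Nat.cast_mul, Nat.cast_add, Nat.cast_sub hy, ZMod.natCast_self, pow_zero,
      pow_one, pow_one]
    ring

theorem th_pn {k x y v : ℕ} (hx : zell ^ (142 * 3 ^ k) = (x : ZMod ell))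
    (hy : zell ^ (141 * 3 ^ k) = (y : ZMod ell)) (hy2 : y ≤ ell) (hv : pn ell 47 x y 1 = v) :
    th k zell = (v : ZMod ell) := by
  rw [← hv, pn_eq ell (by norm_num) 47 x y 1 hy2, Nat.cast_one, one_mul, th]
  apply Finset.prod_congr rfl
  intro i _
  rw [← hx, ← hy, ← pow_mul, ← pow_mul, mul_assoc, mul_assoc]

theorem th_zell : ∀ k < 5, th k zell = tv k := by
  intro k hk
  interval_cases k
  · refine th_pn (x := 2135864835) (y := 3088617189) (v := 241361135) ?_ ?_ (by norm_num) (by decide +kernel)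
    · show (1126413664 : ZMod 4294007111) ^ 142 = ((2135864835 : ℕ) : ZMod 4294007111)
      rw [Nat.cast_ofNat]
      reduce_mod_char
    · show (1126413664 : ZMod 4294007111) ^ 141 = ((3088617189 : ℕ) : ZMod 4294007111)
      rw [Nat.cast_ofNat]
      reduce_mod_char
  · refine th_pn (x := 2697202873) (y := 1163279433) (v := 3285450081) ?_ ?_ (by norm_num) (by decide +kernel)
    · show (1126413664 : ZMod 4294007111) ^ 426 = ((2697202873 : ℕ) : ZMod 4294007111)
      rw [Nat.cast_ofNat]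
      reduce_mod_char
    · show (1126413664 : ZMod 4294007111) ^ 423 = ((1163279433 : ℕ) : ZMod 4294007111)
      rw [Nat.cast_ofNat]
      reduce_mod_char
  · refine th_pn (x := 3618408994) (y := 1277848087) (v := 3111750467) ?_ ?_ (by norm_num) (by decide +kernel)
    · show (1126413664 : ZMod 4294007111) ^ 1278 = ((3618408994 : ℕ) : ZMod 4294007111)
      rw [Nat.cast_ofNat]
      reduce_mod_char
    · show (1126413664 : ZMod 4294007111) ^ 1269 = ((1277848087 : ℕ) : ZMod 4294007111)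
      rw [Nat.cast_ofNat]
      reduce_mod_char
  · refine th_pn (x := 3081680497) (y := 3674947611) (v := 4052645976) ?_ ?_ (by norm_num) (by decide +kernel)
    · show (1126413664 : ZMod 4294007111) ^ 3834 = ((3081680497 : ℕ) : ZMod 4294007111)
      rw [Nat.cast_ofNat]
      reduce_mod_char
    · show (1126413664 : ZMod 4294007111) ^ 3807 = ((3674947611 : ℕ) : ZMod 4294007111)
      rw [Nat.cast_ofNat]
      reduce_mod_char
  · refine th_pn (x := 3271226312) (y := 1241206997) (v := 1008557030) ?_ ?_ (by norm_num) (by decide +kernel)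
    · show (1126413664 : ZMod 4294007111) ^ 11502 = ((3271226312 : ℕ) : ZMod 4294007111)
      rw [Nat.cast_ofNat]
      reduce_mod_char
    · show (1126413664 : ZMod 4294007111) ^ 11421 = ((1241206997 : ℕ) : ZMod 4294007111)
      rw [Nat.cast_ofNat]
      reduce_mod_char

/-- the conjugates of the unit with exponents `(a, b, -a-b)` -/
def ev (a b : ℤ) (k : ℕ) : ZMod ell := tv k ^ a * tv (k + 1) ^ b * tv (k + 2) ^ (-a - b)

theorem ev_mul (a b : ℤ) (k : ℕ) : ev (283 * a) (283 * b) k =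
    (tv k ^ 283) ^ a * (tv (k + 1) ^ 283) ^ b * (tv (k + 2) ^ 283) ^ (-a - b) := by
  have h : ∀ (x : ZMod ell) (c : ℤ), x ^ (283 * c) = (x ^ 283) ^ c := by
    intro x c
    rw [zpow_mul]
    rfl
  unfold ev
  rw [show -(283 * a) - 283 * b = 283 * (-a - b) by ring, h, h, h]

theorem inv_of {x y : ZMod ell} (h : x * y = 1) : x⁻¹ = y :=
  inv_eq_of_mul_eq_one_right h

theorem tv_pow0 : tv 0 ^ 283 = (1094886074 : ZMod 4294007111) := by
  show (241361135 : ZMod 4294007111) ^ 283 = (1094886074 : ZMod 4294007111)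
  reduce_mod_char

theorem tv_inv0 : (tv 0 ^ 283)⁻¹ = (859226319 : ZMod 4294007111) := by
  rw [tv_pow0]
  apply inv_of
  show (1094886074 : ZMod 4294007111) * (859226319 : ZMod 4294007111) = 1
  reduce_mod_char

theorem tv_pow1 : tv 1 ^ 283 = (248450624 : ZMod 4294007111) := by
  show (3285450081 : ZMod 4294007111) ^ 283 = (248450624 : ZMod 4294007111)
  reduce_mod_char

theorem tv_inv1 : (tv 1 ^ 283)⁻¹ = (3907348288 : ZMod 4294007111) := by
  rw [tv_pow1]
  apply inv_of
  show (248450624 : ZMod 4294007111) * (3907348288 : ZMod 4294007111) = 1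
  reduce_mod_char

theorem tv_pow2 : tv 2 ^ 283 = (1132924220 : ZMod 4294007111) := by
  show (3111750467 : ZMod 4294007111) ^ 283 = (1132924220 : ZMod 4294007111)
  reduce_mod_char

theorem tv_inv2 : (tv 2 ^ 283)⁻¹ = (1796229217 : ZMod 4294007111) := by
  rw [tv_pow2]
  apply inv_of
  show (1132924220 : ZMod 4294007111) * (1796229217 : ZMod 4294007111) = 1
  reduce_mod_char

theorem tv_pow3 : tv 3 ^ 283 = (3199121037 : ZMod 4294007111) := by
  show (4052645976 : ZMod 4294007111) ^ 283 = (3199121037 : ZMod 4294007111)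
  reduce_mod_char

theorem tv_inv3 : (tv 3 ^ 283)⁻¹ = (3434780792 : ZMod 4294007111) := by
  rw [tv_pow3]
  apply inv_of
  show (3199121037 : ZMod 4294007111) * (3434780792 : ZMod 4294007111) = 1
  reduce_mod_char

theorem tv_pow4 : tv 4 ^ 283 = (4045556487 : ZMod 4294007111) := by
  show (1008557030 : ZMod 4294007111) ^ 283 = (4045556487 : ZMod 4294007111)
  reduce_mod_char

theorem tv_inv4 : (tv 4 ^ 283)⁻¹ = (386658823 : ZMod 4294007111) := by
  rw [tv_pow4]
  apply inv_of
  show (4045556487 : ZMod 4294007111) * (386658823 : ZMod 4294007111) = 1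
  reduce_mod_char

theorem evA0 : ev (283 * 1) (283 * 0) 0 = (2852849234 : ZMod 4294007111) := by
  rw [ev_mul, zpow_one, zpow_zero, mul_one, show (-1 - 0 : ℤ) = -1 by norm_num, zpow_neg_one,
    tv_pow0, tv_inv2]
  show (1094886074 : ZMod 4294007111) * (1796229217 : ZMod 4294007111) = _
  reduce_mod_char

theorem evA1 : ev (283 * 1) (283 * 0) 1 = (3148529754 : ZMod 4294007111) := by
  rw [ev_mul, zpow_one, zpow_zero, mul_one, show (-1 - 0 : ℤ) = -1 by norm_num, zpow_neg_one,
    tv_pow1, tv_inv3]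
  show (248450624 : ZMod 4294007111) * (3434780792 : ZMod 4294007111) = _
  reduce_mod_char

theorem evA2 : ev (283 * 1) (283 * 0) 2 = (429400112 : ZMod 4294007111) := by
  rw [ev_mul, zpow_one, zpow_zero, mul_one, show (-1 - 0 : ℤ) = -1 by norm_num, zpow_neg_one,
    tv_pow2, tv_inv4]
  show (1132924220 : ZMod 4294007111) * (386658823 : ZMod 4294007111) = _
  reduce_mod_char

theorem evB0 : ev (283 * 0) (283 * 1) 0 = (127580248 : ZMod 4294007111) := by
  rw [ev_mul, zpow_one, zpow_zero, one_mul, show (-0 - 1 : ℤ) = -1 by norm_num, zpow_neg_one,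
    tv_pow1, tv_inv2]
  show (248450624 : ZMod 4294007111) * (1796229217 : ZMod 4294007111) = _
  reduce_mod_char

theorem evB1 : ev (283 * 0) (283 * 1) 1 = (3791458159 : ZMod 4294007111) := by
  rw [ev_mul, zpow_one, zpow_zero, one_mul, show (-0 - 1 : ℤ) = -1 by norm_num, zpow_neg_one,
    tv_pow2, tv_inv3]
  show (1132924220 : ZMod 4294007111) * (3434780792 : ZMod 4294007111) = _
  reduce_mod_char

theorem evB2 : ev (283 * 0) (283 * 1) 2 = (2703550178 : ZMod 4294007111) := by
  rw [ev_mul, zpow_one, zpow_zero, one_mul, show (-0 - 1 : ℤ) = -1 by norm_num, zpow_neg_one,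
    tv_pow3, tv_inv4]
  show (3199121037 : ZMod 4294007111) * (386658823 : ZMod 4294007111) = _
  reduce_mod_char

theorem evC0 : ev (283 * 1) (283 * (-1)) 0 = (2703550178 : ZMod 4294007111) := by
  rw [ev_mul, zpow_one, zpow_neg_one, show (-1 - -1 : ℤ) = 0 by norm_num, zpow_zero, mul_one,
    tv_pow0, tv_inv1]
  show (1094886074 : ZMod 4294007111) * (3907348288 : ZMod 4294007111) = _
  reduce_mod_char

theorem evC1 : ev (283 * 1) (283 * (-1)) 1 = (127580248 : ZMod 4294007111) := by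
  rw [ev_mul, zpow_one, zpow_neg_one, show (-1 - -1 : ℤ) = 0 by norm_num, zpow_zero, mul_one,
    tv_pow1, tv_inv2]
  show (248450624 : ZMod 4294007111) * (1796229217 : ZMod 4294007111) = _
  reduce_mod_char

theorem evC2 : ev (283 * 1) (283 * (-1)) 2 = (3791458159 : ZMod 4294007111) := by
  rw [ev_mul, zpow_one, zpow_neg_one, show (-1 - -1 : ℤ) = 0 by norm_num, zpow_zero, mul_one,
    tv_pow2, tv_inv3]
  show (1132924220 : ZMod 4294007111) * (3434780792 : ZMod 4294007111) = _
  reduce_mod_char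

/-- the same for the three points `(283, 0), (0, 283), (283, -283)` -/
theorem check_two {a b a' b' : ℤ}
    (h : (a = 1 ∧ b = 0) ∨ (a = 0 ∧ b = 1) ∨ (a = 1 ∧ b = -1))
    (h' : (a' = 1 ∧ b' = 0) ∨ (a' = 0 ∧ b' = 1) ∨ (a' = 1 ∧ b' = -1))
    (hcol : (ev (283 * a) (283 * b) 1 - ev (283 * a) (283 * b) 0) *
        (ev (283 * a') (283 * b') 2 - ev (283 * a') (283 * b') 0) =
      (ev (283 * a') (283 * b') 1 - ev (283 * a') (283 * b') 0) *
        (ev (283 * a) (283 * b) 2 - ev (283 * a) (283 * b) 0)) : a = a' ∧ b = b' := by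
  rcases h with ⟨rfl, rfl⟩ | ⟨rfl, rfl⟩ | ⟨rfl, rfl⟩ <;>
  rcases h' with ⟨rfl, rfl⟩ | ⟨rfl, rfl⟩ | ⟨rfl, rfl⟩
  · exact ⟨rfl, rfl⟩
  · rw [evA0, evA1, evA2, evB0, evB1, evB2] at hcol
    exact absurd hcol (by decide)
  · rw [evA0, evA1, evA2, evC0, evC1, evC2] at hcol
    exact absurd hcol (by decide)
  · rw [evB0, evB1, evB2, evA0, evA1, evA2] at hcol
    exact absurd hcol (by decide)
  · exact ⟨rfl, rfl⟩
  · rw [evB0, evB1, evB2, evC0, evC1, evC2] at hcol
    exact absurd hcol (by decide)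
  · rw [evC0, evC1, evC2, evA0, evA1, evA2] at hcol
    exact absurd hcol (by decide)
  · rw [evC0, evC1, evC2, evB0, evB1, evB2] at hcol
    exact absurd hcol (by decide)
  · exact ⟨rfl, rfl⟩

end Pool.Agent.Lib_MP_e4b855_nt.Tri
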