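import Pool.Agent.Lib_MP_e4b855_nt.Tri.CheckA

/-!
# Part III: the units modulo a prime, the large computation

The pairs `(a, b)` are treated row by row (`a = 0, ..., 159`), with `c = b + 160`.  Each row is a
batch inversion: `P` is the product of the denominators so far, the product of a whole row is
inverted by a power, and the inverse is brought back along the row.  The list contains, for every
pair, the number `v * 131072 + (512 * a + c)`, where `v` is the quotient.  Then the list is split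
until all parts have at most one element.  All functions are written so that the kernel computes
them quickly: `fce` evaluates its argument before the continuation, and the continuations are
small definitions.
-/

namespace Pool.Agent.Lib_MP_e4b855_nt.Tri

open Finset

namespace Ckb

/-- evaluate `x` before the continuation -/
def fce {α : Type} (x : Nat) (f : Nat → α) : α :=
  Nat.rec (f 0) (fun k _ => f k) (Nat.succ x)

def mm (x y : Nat) : Nat := Nat.mod (Nat.mul x y) 4294007111
def sb (x y : Nat) : Nat := Nat.mod (Nat.sub (Nat.add x 4294007111) y) 4294007111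

def pw1 (ih : Nat → Nat → Nat → Nat) (e b' r' : Nat) : Nat := ih (Nat.div e 2) b' r'
def pw2 (ih : Nat → Nat → Nat → Nat) (e b r b' : Nat) : Nat :=
  fce (cond (Nat.beq (Nat.mod e 2) 1) (mm r b) r) (pw1 ih e b')
def pw (n : Nat) : Nat → Nat → Nat → Nat :=
  Nat.rec (fun _ _ r => r) (fun _ ih e b r => fce (mm b b) (pw2 ih e b r)) n

/-- the inverse (as a power), not proved to be correct but checked at the end of each row -/
def inv (P : Nat) : Nat := pw 32 4294007109 P 1

/-- `e * B ^ n` -/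
def mp (B e : Nat) (n : Nat) : Nat := Nat.rec e (fun _ ih => mm ih B) n

def out1 (y i : Nat) (l : List Nat) (v : Nat) : Nat × List Nat := (mm i y, v :: l)
def out (x y P key : Nat) (l : List Nat) (i : Nat) : Nat × List Nat :=
  fce (Nat.add (Nat.mul (mm (mm x P) i) 131072) key) (out1 y i l)
def outp (x y P key : Nat) (r : Nat × List Nat) : Nat × List Nat :=
  Prod.rec (fun i l => fce i (out x y P key l)) r
def g3 (ih : Nat → Nat → Nat → Nat → Nat → Nat × List Nat) (key x y P P' f0 f1 f2 : Nat) :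
  Nat × List Nat := outp x y P key (ih (Nat.succ key) f0 f1 f2 P')
def g2 (ih : Nat → Nat → Nat → Nat → Nat → Nat × List Nat) (key e2 x y P P' f0 f1 : Nat) :
  Nat × List Nat := fce (mm e2 333179356) (g3 ih key x y P P' f0 f1)
def g1 (ih : Nat → Nat → Nat → Nat → Nat → Nat × List Nat) (key e1 e2 x y P P' f0 : Nat) :
  Nat × List Nat := fce (mm e1 2516484954) (g2 ih key e2 x y P P' f0)
def g0 (ih : Nat → Nat → Nat → Nat → Nat → Nat × List Nat) (key e0 e1 e2 x y P P' : Nat) :
  Nat × List Nat := fce (mm e0 1444389914) (g1 ih key e1 e2 x y P P')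
def gy (ih : Nat → Nat → Nat → Nat → Nat → Nat × List Nat) (key e0 e1 e2 x P y : Nat) :
  Nat × List Nat := fce (mm P y) (g0 ih key e0 e1 e2 x y P)
def gx (ih : Nat → Nat → Nat → Nat → Nat → Nat × List Nat) (key e0 e1 e2 P x : Nat) :
  Nat × List Nat := fce (sb e2 e0) (gy ih key e0 e1 e2 x P)
def gs (ih : Nat → Nat → Nat → Nat → Nat → Nat × List Nat) (key e0 e1 e2 P : Nat) :
  Nat × List Nat := fce (sb e1 e0) (gx ih key e0 e1 e2 P)

/-- one row (`n` elements) put before the list `tl`, with the inverse of the product `P` -/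
def goRow (tl : List Nat) (n : Nat) : Nat → Nat → Nat → Nat → Nat → Nat × List Nat :=
  Nat.rec (fun _ _ _ _ P => (inv P, tl)) (fun _ ih => gs ih) n

def mn (x y : Nat) : Nat := cond (Nat.ble x y) x y
def mx (x y : Nat) : Nat := cond (Nat.ble x y) y x
/-- the last `c` of the row `a` -/
def hi (a : Nat) : Nat := mn (mn (Nat.div (Nat.add 49800920 (Nat.mul 14071 a)) 155237)
  (Nat.div (Nat.sub 27214360 (Nat.mul 169308 a)) 14071))
  (Nat.div (Nat.sub 52052280 (Nat.mul 155237 a)) 169308)
/-- the first `c` of the row `a` -/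
def lo (a : Nat) : Nat := cond (Nat.beq a 0) 161 (mx
  (Nat.div (Nat.add (Nat.sub (Nat.mul 14071 a) 125080) 155236) 155237)
  (Nat.div (Nat.add (Nat.sub 2126280 (Nat.mul 155237 a)) 169307) 169308))

def fin1 (l : List Nat) (i : Nat) : List Nat := cond (Nat.beq i 1) l (0 :: 0 :: l)
def fin (r : Nat × List Nat) : List Nat := Prod.rec (fun i l => fin1 l i) r

def row (tl : List Nat) (a s0 s1 s2 : Nat) : List Nat :=
  fce (lo a) (fun l => fce (Nat.sub (Nat.succ (hi a)) l) (fun m =>
   fce (mp 1444389914 s0 l) (fun e0 => fce (mp 2516484954 s1 l) (fun e1 =>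
   fce (mp 333179356 s2 l) (fun e2 =>
     fin (goRow tl m (Nat.add (Nat.mul a 512) l) e0 e1 e2 1))))))

/-- the list of all elements of the rows `a, ..., a + n - 1` -/
def all (n : Nat) : Nat → Nat → Nat → Nat → List Nat :=
  Nat.rec (fun _ _ _ _ => [])
   (fun _ ih a s0 s1 s2 => fce s0 (fun s0 => fce s1 (fun s1 => fce s2 (fun s2 =>
     row (ih (Nat.succ a) (mm s0 3608566571) (mm s1 2178439143) (mm s2 2801133443))
       a s0 s1 s2)))) n

def pstep (m x : Nat) (ih : List Nat → List Nat → Bool) (a b : List Nat) : Bool :=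
  Bool.rec (ih (x :: a) b) (ih a (x :: b)) (Nat.ble m x)
/-- split the list `l` by `m ≤ x` -/
def part (m : Nat) (k : List Nat → List Nat → Bool) (l : List Nat) :
    List Nat → List Nat → Bool :=
  List.rec k (fun x _ ih => pstep m x ih) l

def pk (ih : Nat → Nat → List Nat → Bool) (s w' s' : Nat) (a b : List Nat) : Bool :=
  Bool.rec false (ih w' s a) (ih w' s' b)
def pc2 (ih : Nat → Nat → List Nat → Bool) (l : List Nat) (s w' s' : Nat) : Bool :=
  part s' (pk ih s w' s') l [] []
def pc1 (ih : Nat → Nat → List Nat → Bool) (l : List Nat) (s w' : Nat) : Bool :=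
  fce (Nat.add s w') (pc2 ih l s w')
def pc0 (ih : Nat → Nat → List Nat → Bool) (w s : Nat) (l : List Nat) : Bool :=
  fce (Nat.div w 2) (pc1 ih l s)
/-- all elements of `l` have different quotients by `131072` -/
def pchk (d : Nat) : Nat → Nat → List Nat → Bool :=
  Nat.rec (fun _ _ l => List.rec true (fun _ t _ => List.rec true (fun _ _ _ => false) t) l)
   (fun _ ih w s l => List.rec true (fun _ t _ =>
     List.rec true (fun _ _ _ => pc0 ih w s l) t) l) d

theorem compute :
    pchk 32 562949953421312 0 (all 160 0 2179664364 1161076146 1072913830) = true := by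
  decide +kernel

/-! ## the list has different quotients -/

theorem part_spec (m : ℕ) (k : List ℕ → List ℕ → Bool) : ∀ l a b : List ℕ,
    (∀ x ∈ a, x < m) → (∀ x ∈ b, m ≤ x) → ∃ a' b' : List ℕ, part m k l a b = k a' b' ∧
      (∀ x ∈ a', x < m) ∧ (∀ x ∈ b', m ≤ x) ∧ (l ++ (a ++ b)).Perm (a' ++ b') := by
  intro l
  induction l with
  | nil => exact fun a b ha hb => ⟨a, b, rfl, ha, hb, List.Perm.refl _⟩
  | cons x l ih =>
    intro a b ha hb
    by_cases hx : m ≤ x
    · have h1 : part m k (x :: l) a b = part m k l a (x :: b) := by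
        have hb' : Nat.ble m x = true := Nat.ble_eq_true_of_le hx
        show (Bool.rec (part m k l (x :: a) b) (part m k l a (x :: b)) (Nat.ble m x) : Bool) = _
        rw [hb']
      obtain ⟨a', b', h2, h3, h4, h5⟩ := ih a (x :: b) ha (by
        intro y hy
        rcases List.mem_cons.1 hy with rfl | hy
        · exact hx
        · exact hb y hy)
      refine ⟨a', b', h1.trans h2, h3, h4, List.Perm.trans ?_ h5⟩
      rw [List.cons_append, ← List.append_assoc, ← List.append_assoc]
      exact List.perm_middle.symm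
    · have h1 : part m k (x :: l) a b = part m k l (x :: a) b := by
        have hb' : Nat.ble m x = false := by
          rw [Bool.eq_false_iff]
          exact fun h => hx (Nat.le_of_ble_eq_true h)
        show (Bool.rec (part m k l (x :: a) b) (part m k l a (x :: b)) (Nat.ble m x) : Bool) = _
        rw [hb']
      obtain ⟨a', b', h2, h3, h4, h5⟩ := ih (x :: a) b (by
        intro y hy
        rcases List.mem_cons.1 hy with rfl | hy
        · exact not_le.1 hx
        · exact ha y hy) hb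
      refine ⟨a', b', h1.trans h2, h3, h4, List.Perm.trans ?_ h5⟩
      rw [List.cons_append]
      exact List.perm_middle.symm

theorem pchk_spec : ∀ (d s : ℕ) (l : List ℕ),
    pchk d (131072 * 2 ^ d) (131072 * s) l = true → (l.map (fun x => x / 131072)).Nodup := by
  intro d
  induction d with
  | zero =>
    intro s l h
    match l, h with
    | [], _ => simp
    | [x], _ => simp
    | x :: y :: t, h => exact absurd (show false = true from h) (by simp)
  | succ d ih =>
    intro s l h
    match l, h with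
    | [], _ => simp
    | [x], _ => simp
    | x :: y :: t, h =>
      have h1 : part (131072 * s + 131072 * 2 ^ (d + 1) / 2)
          (pk (pchk d) (131072 * s) (131072 * 2 ^ (d + 1) / 2)
            (131072 * s + 131072 * 2 ^ (d + 1) / 2)) (x :: y :: t) [] [] = true := h
      have hw : 131072 * 2 ^ (d + 1) / 2 = 131072 * 2 ^ d := by
        rw [pow_succ, ← mul_assoc, Nat.mul_div_cancel _ (by norm_num)]
      rw [hw, ← mul_add] at h1
      obtain ⟨a', b', h2, h3, h4, h5⟩ := part_spec (131072 * (s + 2 ^ d))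
        (pk (pchk d) (131072 * s) (131072 * 2 ^ d) (131072 * (s + 2 ^ d))) (x :: y :: t) [] []
        (by simp) (by simp)
      rw [h2] at h1
      have h6 : pchk d (131072 * 2 ^ d) (131072 * (s + 2 ^ d)) b' = true := by
        by_contra hc
        have hc' := Bool.eq_false_iff.2 hc
        have h7 : (Bool.rec false (pchk d (131072 * 2 ^ d) (131072 * s) a')
          (pchk d (131072 * 2 ^ d) (131072 * (s + 2 ^ d)) b') : Bool) = true := h1
        rw [hc'] at h7
        exact absurd h7 (by simp)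
      have h8 : pchk d (131072 * 2 ^ d) (131072 * s) a' = true := by
        have h7 : (Bool.rec false (pchk d (131072 * 2 ^ d) (131072 * s) a')
          (pchk d (131072 * 2 ^ d) (131072 * (s + 2 ^ d)) b') : Bool) = true := h1
        rw [h6] at h7
        exact h7
      rw [List.append_nil, List.append_nil] at h5
      rw [(h5.map _).nodup_iff, List.map_append, List.nodup_append]
      refine ⟨ih _ _ h8, ih _ _ h6, ?_⟩
      intro u hu v hv
      obtain ⟨p, hp, rfl⟩ := List.mem_map.1 hu
      obtain ⟨q, hq, rfl⟩ := List.mem_map.1 hv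
      have h9 : p / 131072 < s + 2 ^ d := by
        rw [Nat.div_lt_iff_lt_mul (by norm_num), mul_comm]
        exact h3 p hp
      have h10 : s + 2 ^ d ≤ q / 131072 := by
        rw [Nat.le_div_iff_mul_le (by norm_num), mul_comm]
        exact h4 q hq
      exact (lt_of_lt_of_le h9 h10).ne

/-! ## the elements of the list -/

theorem mm_cast (x y : ℕ) : ((mm x y : ℕ) : ZMod ell) = (x : ZMod ell) * y := by
  show (((x * y) % 4294007111 : ℕ) : ZMod 4294007111) = _
  rw [ZMod.natCast_mod, Nat.cast_mul]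

theorem mm_lt (x y : ℕ) : mm x y < ell := Nat.mod_lt _ (by norm_num)

theorem sb_cast {x y : ℕ} (hy : y < ell) : ((sb x y : ℕ) : ZMod ell) = (x : ZMod ell) - y := by
  show (((x + 4294007111 - y) % 4294007111 : ℕ) : ZMod 4294007111) = _
  have h : y ≤ x + 4294007111 := by
    have : y < 4294007111 := hy
    omega
  rw [ZMod.natCast_mod, Nat.cast_sub h, Nat.cast_add, ZMod.natCast_self, add_zero]

theorem mp_cast (B e n : ℕ) : ((mp B e n : ℕ) : ZMod ell) = (e : ZMod ell) * (B : ZMod ell) ^ n := by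
  induction n with
  | zero => rw [pow_zero, mul_one]; rfl
  | succ n ih =>
    show ((mm (mp B e n) B : ℕ) : ZMod ell) = _
    rw [mm_cast, ih, pow_succ, mul_assoc]

theorem mp_lt {B e : ℕ} (he : e < ell) (n : ℕ) : mp B e n < ell := by
  cases n with
  | zero => exact he
  | succ n => exact mm_lt _ _

/-- the element of the list for the pair with the number `key` -/
def El (L : List ℕ) (key : ℕ) (x y : ZMod ell) : Prop :=
  ∃ v : ℕ, v < ell ∧ v * 131072 + key ∈ L ∧ (v : ZMod ell) * y = x ∧ y ≠ 0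

theorem El.mono {L L' : List ℕ} {key : ℕ} {x y : ZMod ell} (h : El L key x y)
    (hL : ∀ u ∈ L, u ∈ L') : El L' key x y := by
  obtain ⟨v, h1, h2, h3, h4⟩ := h
  exact ⟨v, h1, hL _ h2, h3, h4⟩

theorem fce_eq {α : Type} (x : Nat) (f : Nat → α) : fce x f = f x := rfl

theorem goRow_succ (tl : List ℕ) (n key e0 e1 e2 P : ℕ) (r : ℕ × List ℕ)
    (hr : goRow tl n (key + 1) (mm e0 1444389914) (mm e1 2516484954)
      (mm e2 333179356) (mm P (sb e2 e0)) = r) :
    goRow tl (n + 1) key e0 e1 e2 P = (mm r.1 (sb e2 e0),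
        (mm (mm (sb e1 e0) P) r.1 * 131072 + key) :: r.2) := by
  have h1 : goRow tl (n + 1) key e0 e1 e2 P = gs (goRow tl n) key e0 e1 e2 P := rfl
  rw [h1, gs, fce_eq, gx, fce_eq, gy, fce_eq, g0, fce_eq, g1, fce_eq, g2, fce_eq, g3,
    show goRow tl n (Nat.succ key) (mm e0 1444389914) (mm e1 2516484954)
      (mm e2 333179356) (mm P (sb e2 e0)) = r from hr]
  obtain ⟨i, l⟩ := r
  show fce i (out (sb e1 e0) (sb e2 e0) P key l) = _
  rw [fce_eq, out, fce_eq, out1]
  rfl

theorem all_succ (n a s0 s1 s2 : ℕ) : all (n + 1) a s0 s1 s2 =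
    row (all n (a + 1) (mm s0 3608566571) (mm s1 2178439143) (mm s2 2801133443)) a s0 s1 s2 := by
  show fce s0 (fun s0 => fce s1 (fun s1 => fce s2 (fun s2 =>
     row (all n (a + 1) (mm s0 3608566571) (mm s1 2178439143) (mm s2 2801133443))
       a s0 s1 s2))) = _
  rw [fce_eq, fce_eq, fce_eq]

theorem row_eq (tl : List ℕ) (a s0 s1 s2 : ℕ) (r : ℕ × List ℕ)
    (hr : goRow tl (hi a + 1 - lo a) (a * 512 + lo a) (mp 1444389914 s0 (lo a))
    (mp 2516484954 s1 (lo a)) (mp 333179356 s2 (lo a)) 1 = r) :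
    row tl a s0 s1 s2 = fin1 r.2 r.1 := by
  rw [row, fce_eq, fce_eq, fce_eq, fce_eq, fce_eq,
    show goRow tl (Nat.sub (Nat.succ (hi a)) (lo a)) (Nat.add (Nat.mul a 512) (lo a))
      (mp 1444389914 s0 (lo a)) (mp 2516484954 s1 (lo a)) (mp 333179356 s2 (lo a)) 1 = r from hr]
  rfl

theorem goRow_spec (tl : List ℕ) : ∀ (n key e0 e1 e2 P : ℕ), e0 < ell →
    (((goRow tl n key e0 e1 e2 P).1 : ℕ) : ZMod ell) * P = 1 →
    (∃ l, (goRow tl n key e0 e1 e2 P).2 = l ++ tl) ∧
    ∀ j < n, El (goRow tl n key e0 e1 e2 P).2 (key + j)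
      ((e1 : ZMod ell) * 2516484954 ^ j - e0 * 1444389914 ^ j)
      ((e2 : ZMod ell) * 333179356 ^ j - e0 * 1444389914 ^ j) := by
  intro n
  induction n with
  | zero =>
    intro key e0 e1 e2 P _ _
    exact ⟨⟨[], rfl⟩, fun j hj => absurd hj (Nat.not_lt_zero j)⟩
  | succ n ih =>
    intro key e0 e1 e2 P he h
    obtain ⟨r, hr⟩ : ∃ r, goRow tl n (key + 1) (mm e0 1444389914) (mm e1 2516484954)
      (mm e2 333179356) (mm P (sb e2 e0)) = r := ⟨_, rfl⟩
    have h1 := goRow_succ tl n key e0 e1 e2 P r hr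
    have hih := ih (key + 1) (mm e0 1444389914) (mm e1 2516484954)
      (mm e2 333179356) (mm P (sb e2 e0)) (mm_lt _ _)
    rw [hr] at hih
    rw [h1] at h ⊢
    have h2 : ((r.1 : ℕ) : ZMod ell) * ((e2 : ZMod ell) - e0) * P = 1 := by
      have h3 : ((mm r.1 (sb e2 e0) : ℕ) : ZMod ell) * P = 1 := h
      rwa [mm_cast, sb_cast he] at h3
    obtain ⟨⟨l, hl⟩, h4⟩ := hih (by
      rw [mm_cast, sb_cast he, ← h2]
      ring)
    refine ⟨⟨(mm (mm (sb e1 e0) P) r.1 * 131072 + key) :: l, ?_⟩, ?_⟩
    · show (mm (mm (sb e1 e0) P) r.1 * 131072 + key) :: r.2 = _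
      rw [hl, List.cons_append]
    · intro j hj
      cases j with
      | zero =>
        refine ⟨mm (mm (sb e1 e0) P) r.1, mm_lt _ _, List.mem_cons_self, ?_, ?_⟩
        · rw [pow_zero, pow_zero, pow_zero, mul_one, mul_one, mul_one, mm_cast, mm_cast,
            sb_cast he]
          calc ((e1 : ZMod ell) - e0) * P * (r.1 : ZMod ell) * ((e2 : ZMod ell) - e0) =
              ((e1 : ZMod ell) - e0) * ((r.1 : ZMod ell) * ((e2 : ZMod ell) - e0) * P) := by ring
            _ = (e1 : ZMod ell) - e0 := by rw [h2, mul_one]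
        · rw [pow_zero, pow_zero, mul_one, mul_one]
          intro h5
          rw [h5, mul_zero, zero_mul] at h2
          exact zero_ne_one h2
      | succ j =>
        have h5 := h4 j (by omega)
        rw [mm_cast, mm_cast, mm_cast, Nat.cast_ofNat, Nat.cast_ofNat, Nat.cast_ofNat,
          mul_assoc, mul_assoc, mul_assoc, ← pow_succ', ← pow_succ', ← pow_succ',
          show key + 1 + j = key + (j + 1) by omega] at h5
        exact h5.mono (fun u hu => List.mem_cons_of_mem _ hu)

theorem row_spec (tl : List ℕ) (a s0 s1 s2 : ℕ) (hs : s0 < ell)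
    (h : ((row tl a s0 s1 s2).map (fun x => x / 131072)).Nodup) :
    (∃ l, row tl a s0 s1 s2 = l ++ tl) ∧
    ∀ c, lo a ≤ c → c ≤ hi a → El (row tl a s0 s1 s2) (a * 512 + c)
      ((s1 : ZMod ell) * 2516484954 ^ c - s0 * 1444389914 ^ c)
      ((s2 : ZMod ell) * 333179356 ^ c - s0 * 1444389914 ^ c) := by
  obtain ⟨r, hr⟩ : ∃ r, goRow tl (hi a + 1 - lo a) (a * 512 + lo a) (mp 1444389914 s0 (lo a))
    (mp 2516484954 s1 (lo a)) (mp 333179356 s2 (lo a)) 1 = r := ⟨_, rfl⟩
  have h1 := row_eq tl a s0 s1 s2 r hr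
  have h2 : r.1 = 1 := by
    by_contra hc
    have h3 : fin1 r.2 r.1 = 0 :: 0 :: r.2 := by
      have h4 : Nat.beq r.1 1 = false := by
        rw [Bool.eq_false_iff]
        exact fun h => hc (Nat.eq_of_beq_eq_true h)
      show cond (Nat.beq r.1 1) _ _ = _
      rw [h4]
      rfl
    rw [h1, h3] at h
    simp at h
  have h3 : fin1 r.2 r.1 = r.2 := by
    show cond (Nat.beq r.1 1) _ _ = _
    rw [h2]
    rfl
  rw [h3] at h1
  obtain ⟨h4, h5⟩ := goRow_spec tl (hi a + 1 - lo a) (a * 512 + lo a) (mp 1444389914 s0 (lo a))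
    (mp 2516484954 s1 (lo a)) (mp 333179356 s2 (lo a)) 1 (mp_lt hs _) (by
      rw [hr, h2, Nat.cast_one, mul_one])
  rw [hr] at h4 h5
  rw [h1]
  refine ⟨h4, ?_⟩
  intro c hc hc'
  have h6 := h5 (c - lo a) (by omega)
  rw [mp_cast, mp_cast, mp_cast, Nat.cast_ofNat, Nat.cast_ofNat, Nat.cast_ofNat,
    mul_assoc, mul_assoc, mul_assoc, ← pow_add, ← pow_add, ← pow_add,
    show lo a + (c - lo a) = c by omega, show a * 512 + lo a + (c - lo a) = a * 512 + c by omega]
    at h6
  exact h6

theorem all_spec : ∀ (n a s0 s1 s2 : ℕ), s0 < ell →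
    ((all n a s0 s1 s2).map (fun x => x / 131072)).Nodup →
    ∀ i < n, ∀ c, lo (a + i) ≤ c → c ≤ hi (a + i) → El (all n a s0 s1 s2) ((a + i) * 512 + c)
      ((s1 : ZMod ell) * 2178439143 ^ i * 2516484954 ^ c - s0 * 3608566571 ^ i * 1444389914 ^ c)
      ((s2 : ZMod ell) * 2801133443 ^ i * 333179356 ^ c - s0 * 3608566571 ^ i * 1444389914 ^ c) := by
  intro n
  induction n with
  | zero => exact fun a s0 s1 s2 _ _ i hi => absurd hi (Nat.not_lt_zero i)
  | succ n ih =>
    intro a s0 s1 s2 hs h i hi c hc hc'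
    rw [all_succ] at h ⊢
    obtain ⟨⟨l, hl⟩, h2⟩ := row_spec _ a s0 s1 s2 hs h
    cases i with
    | zero =>
      have h3 := h2 c hc hc'
      rw [pow_zero, pow_zero, pow_zero, mul_one, mul_one, mul_one]
      exact h3
    | succ i =>
      rw [hl, List.map_append] at h
      have h3 := ih (a + 1) (mm s0 3608566571) (mm s1 2178439143) (mm s2 2801133443) (mm_lt _ _)
        (List.Nodup.of_append_right h) i (by omega) c
        (by rw [show a + 1 + i = a + (i + 1) by omega]; exact hc)
        (by rw [show a + 1 + i = a + (i + 1) by omega]; exact hc')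
      rw [mm_cast, mm_cast, mm_cast, Nat.cast_ofNat, Nat.cast_ofNat, Nat.cast_ofNat,
        mul_assoc (s1 : ZMod ell), mul_assoc (s0 : ZMod ell), mul_assoc (s2 : ZMod ell),
        ← pow_succ', ← pow_succ', ← pow_succ', show a + 1 + i = a + (i + 1) by omega] at h3
      rw [hl]
      exact h3.mono (fun u hu => List.mem_append_right _ hu)

/-- the list of all elements -/
def LL : List ℕ := all 160 0 2179664364 1161076146 1072913830

theorem LL_nodup : (LL.map (fun x => x / 131072)).Nodup := by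
  apply pchk_spec 32 0
  exact compute

theorem LL_spec {a c : ℕ} (ha : a < 160) (hc : lo a ≤ c) (hc' : c ≤ hi a) :
    El LL (a * 512 + c)
      ((1161076146 : ZMod ell) * 2178439143 ^ a * 2516484954 ^ c -
        2179664364 * 3608566571 ^ a * 1444389914 ^ c)
      ((1072913830 : ZMod ell) * 2801133443 ^ a * 333179356 ^ c -
        2179664364 * 3608566571 ^ a * 1444389914 ^ c) := by
  have h := all_spec 160 0 2179664364 1161076146 1072913830 (by norm_num) LL_nodup a ha c
    (by rw [zero_add]; exact hc) (by rw [zero_add]; exact hc')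
  rw [zero_add, Nat.cast_ofNat, Nat.cast_ofNat, Nat.cast_ofNat] at h
  exact h

/-! ## the pairs -/

theorem mn_ge {x y c : ℕ} (hx : c ≤ x) (hy : c ≤ y) : c ≤ mn x y := by
  unfold mn
  cases Nat.ble x y
  · exact hy
  · exact hx

theorem mx_le {x y c : ℕ} (hx : x ≤ c) (hy : y ≤ c) : mx x y ≤ c := by
  unfold mx
  cases Nat.ble x y
  · exact hx
  · exact hy

theorem le_hi {a c : ℕ} (h1 : 155237 * c ≤ 49800920 + 14071 * a)
    (h2 : 14071 * c + 169308 * a ≤ 27214360) (h3 : 169308 * c + 155237 * a ≤ 52052280) :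
    c ≤ hi a := by
  refine mn_ge (mn_ge ?_ ?_) ?_
  · show c ≤ (49800920 + 14071 * a) / 155237
    omega
  · show c ≤ (27214360 - 169308 * a) / 14071
    omega
  · show c ≤ (52052280 - 155237 * a) / 169308
    omega

theorem lo_le {a c : ℕ} (h0 : a = 0 → 161 ≤ c) (h1 : 14071 * a ≤ 155237 * c + 125080)
    (h2 : 2126280 ≤ 169308 * c + 155237 * a) : lo a ≤ c := by
  by_cases ha : a = 0
  · have h3 : Nat.beq a 0 = true := by
      rw [ha]
      rfl
    rw [lo, h3, cond_true]
    exact h0 ha
  · have h3 : Nat.beq a 0 = false := by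
      rw [Bool.eq_false_iff]
      exact fun h => ha (Nat.eq_of_beq_eq_true h)
    rw [lo, h3, cond_false]
    refine mx_le ?_ ?_
    · show (14071 * a - 125080 + 155236) / 155237 ≤ c
      omega
    · show (2126280 - 155237 * a + 169307) / 169308 ≤ c
      omega

theorem ev_aux {K : Type*} [Field K] {u v t A B s : K} (hA : u = A * t) (hB : v = B * t)
    (hs : s * B ^ 160 = 1) (ht : t ≠ 0) (a c : ℕ) :
    u ^ (a : ℤ) * v ^ ((c : ℤ) - 160) * t ^ (-(a : ℤ) - ((c : ℤ) - 160)) = s * A ^ a * B ^ c := by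
  have hB0 : B ≠ 0 := by
    rintro rfl
    rw [zero_pow (by norm_num), mul_zero] at hs
    exact zero_ne_one hs
  have h1 : t ^ (a : ℤ) * t ^ ((c : ℤ) - 160) * t ^ (-(a : ℤ) - ((c : ℤ) - 160)) = 1 := by
    rw [← zpow_add₀ ht, ← zpow_add₀ ht,
      show (a : ℤ) + ((c : ℤ) - 160) + (-(a : ℤ) - ((c : ℤ) - 160)) = 0 by ring, zpow_zero]
  have h2 : B ^ ((c : ℤ) - 160) = s * B ^ c := by
    rw [zpow_sub₀ hB0, zpow_natCast, eq_inv_of_mul_eq_one_left hs, div_eq_inv_mul]
    norm_cast
  rw [hA, hB, mul_zpow, mul_zpow, h2, zpow_natCast A]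
  calc A ^ a * t ^ (a : ℤ) * (s * B ^ c * t ^ ((c : ℤ) - 160)) * t ^ (-(a : ℤ) - ((c : ℤ) - 160))
      = s * A ^ a * B ^ c *
        (t ^ (a : ℤ) * t ^ ((c : ℤ) - 160) * t ^ (-(a : ℤ) - ((c : ℤ) - 160))) := by ring
    _ = s * A ^ a * B ^ c := by rw [h1, mul_one]

theorem ev0 (a c : ℕ) : ev a ((c : ℤ) - 160) 0 =
    2179664364 * 3608566571 ^ a * 1444389914 ^ c := by
  refine ev_aux (t := tv (0 + 2)) ?_ ?_ ?_ ?_ a c
  · show (241361135 : ZMod 4294007111) = 3608566571 * 3111750467
    reduce_mod_char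
  · show (3285450081 : ZMod 4294007111) = 1444389914 * 3111750467
    reduce_mod_char
  · show (2179664364 : ZMod 4294007111) * 1444389914 ^ 160 = 1
    reduce_mod_char
  · show (3111750467 : ZMod 4294007111) ≠ 0
    decide

theorem ev1 (a c : ℕ) : ev a ((c : ℤ) - 160) 1 =
    1161076146 * 2178439143 ^ a * 2516484954 ^ c := by
  refine ev_aux (t := tv (1 + 2)) ?_ ?_ ?_ ?_ a c
  · show (3285450081 : ZMod 4294007111) = 2178439143 * 4052645976
    reduce_mod_char
  · show (3111750467 : ZMod 4294007111) = 2516484954 * 4052645976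
    reduce_mod_char
  · show (1161076146 : ZMod 4294007111) * 2516484954 ^ 160 = 1
    reduce_mod_char
  · show (4052645976 : ZMod 4294007111) ≠ 0
    decide

theorem ev2 (a c : ℕ) : ev a ((c : ℤ) - 160) 2 =
    1072913830 * 2801133443 ^ a * 333179356 ^ c := by
  refine ev_aux (t := tv (2 + 2)) ?_ ?_ ?_ ?_ a c
  · show (3111750467 : ZMod 4294007111) = 2801133443 * 1008557030
    reduce_mod_char
  · show (4052645976 : ZMod 4294007111) = 333179356 * 1008557030
    reduce_mod_char
  · show (1072913830 : ZMod 4294007111) * 333179356 ^ 160 = 1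
    reduce_mod_char
  · show (1008557030 : ZMod 4294007111) ≠ 0
    decide

theorem reg_el {a b : ℤ} (h : Reg a b) (hp : 0 < a ∨ (a = 0 ∧ 0 < b)) :
    ∃ n c : ℕ, a = n ∧ b = (c : ℤ) - 160 ∧ c < 512 ∧ n < 160 ∧
      El LL (n * 512 + c) (ev a b 1 - ev a b 0) (ev a b 2 - ev a b 0) := by
  obtain ⟨h1, h2, h3⟩ := h
  rw [abs_le] at h1 h2 h3
  have ha0 : 0 ≤ a := by omega
  have hb0 : -160 ≤ b := by omega
  have ha1 : a < 160 := by omega
  have hb1 : b < 352 := by omega
  obtain ⟨n, rfl⟩ := Int.eq_ofNat_of_zero_le ha0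
  obtain ⟨c, hc⟩ := Int.eq_ofNat_of_zero_le (show 0 ≤ b + 160 by omega)
  have hb : b = (c : ℤ) - 160 := by omega
  subst hb
  refine ⟨n, c, rfl, rfl, by omega, by omega, ?_⟩
  rw [ev0, ev1, ev2]
  exact LL_spec (by omega) (lo_le (by omega) (by omega) (by omega))
    (le_hi (by omega) (by omega) (by omega))

end Ckb

open Ckb in
/-- Kernel computation.  For the `35304` pairs with `Reg a b` and `0 < a ∨ (a = 0 ∧ 0 < b)` one has
`ev a b 2 ≠ ev a b 0` and the values `(ev a b 1 - ev a b 0) / (ev a b 2 - ev a b 0)` are pairwise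
distinct. -/
theorem check_one {a b a' b' : ℤ} (h : Reg a b) (hp : 0 < a ∨ (a = 0 ∧ 0 < b)) (h' : Reg a' b')
    (hp' : 0 < a' ∨ (a' = 0 ∧ 0 < b'))
    (hcol : (ev a b 1 - ev a b 0) * (ev a' b' 2 - ev a' b' 0) =
      (ev a' b' 1 - ev a' b' 0) * (ev a b 2 - ev a b 0)) : a = a' ∧ b = b' := by
  obtain ⟨n, c, hn, hc, hc', hn', v, hv, hv1, hv2, hv3⟩ := reg_el h hp
  obtain ⟨n', c', hm, hd, hd', hm', w, hw, hw1, hw2, hw3⟩ := reg_el h' hp'
  have h1 : (v : ZMod ell) = w := by
    have h2 : (v : ZMod ell) * ((ev a b 2 - ev a b 0) * (ev a' b' 2 - ev a' b' 0)) =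
        w * ((ev a b 2 - ev a b 0) * (ev a' b' 2 - ev a' b' 0)) := by
      calc (v : ZMod ell) * ((ev a b 2 - ev a b 0) * (ev a' b' 2 - ev a' b' 0)) =
          (v * (ev a b 2 - ev a b 0)) * (ev a' b' 2 - ev a' b' 0) := by ring
        _ = (w * (ev a' b' 2 - ev a' b' 0)) * (ev a b 2 - ev a b 0) := by rw [hv2, hcol, hw2]
        _ = w * ((ev a b 2 - ev a b 0) * (ev a' b' 2 - ev a' b' 0)) := by ring
    exact mul_right_cancel₀ (mul_ne_zero hv3 hw3) h2
  have h2 : v = w := by
    have h3 := congrArg ZMod.val h1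
    rwa [ZMod.val_cast_of_lt hv, ZMod.val_cast_of_lt hw] at h3
  subst h2
  have h3 : v * 131072 + (n * 512 + c) = v * 131072 + (n' * 512 + c') := by
    refine List.inj_on_of_nodup_map LL_nodup hv1 hw1 ?_
    show (v * 131072 + (n * 512 + c)) / 131072 = (v * 131072 + (n' * 512 + c')) / 131072
    omega
  have h4 : n = n' := by omega
  have h5 : c = c' := by omega
  subst h4
  subst h5
  exact ⟨hn.trans hm.symm, hc.trans hd.symm⟩

end Pool.Agent.Lib_MP_e4b855_nt.Tri
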