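import Pool.Agent.Lib_MP_e4b855_nt.Tri.Trip

namespace Pool.Agent.Lib_MP_e4b855_nt.Tri

open PowerSeries Finset

/-! ### Helpers for piece G1 -/

/-- inversion formula for the residue classes -/
theorem G1_inv (A : Finset ℤ) (k : ℕ) {N : ℕ} (hN : 0 < N) {ω : ℂ} (hω : IsPrimitiveRoot ω N)
    (r : ℤ) : ∑ l ∈ range N, (ω ^ l) ^ (-r) * ∑ a ∈ A, (ω ^ l) ^ a * (a : ℂ) ^ k =
      N * ∑ a ∈ A with (N : ℤ) ∣ a - r, (a : ℂ) ^ k := by
  have hω0 : ω ≠ 0 := hω.ne_zero hN.ne'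
  have key : ∀ b : ℤ, ∑ l ∈ range N, (ω ^ l) ^ b = if (N : ℤ) ∣ b then (N : ℂ) else 0 := by
    intro b
    have h1 : ∀ l : ℕ, (ω ^ l) ^ b = (ω ^ b) ^ l := by
      intro l
      rw [← zpow_natCast, ← zpow_natCast, ← zpow_mul, ← zpow_mul, mul_comm]
    simp only [h1]
    by_cases hb : (N : ℤ) ∣ b
    · rw [if_pos hb, (hω.zpow_eq_one_iff_dvd b).2 hb]
      simp
    · rw [if_neg hb]
      have h2 : ω ^ b ≠ 1 := fun h => hb ((hω.zpow_eq_one_iff_dvd b).1 h)
      rw [geom_sum_eq h2]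
      have h3 : (ω ^ b) ^ N = 1 := by
        rw [← zpow_natCast, ← zpow_mul, mul_comm, zpow_mul, zpow_natCast, hω.pow_eq_one, one_zpow]
      rw [h3, sub_self, zero_div]
  rw [Finset.sum_filter, Finset.mul_sum]
  simp only [Finset.mul_sum]
  rw [Finset.sum_comm]
  refine Finset.sum_congr rfl fun a _ => ?_
  have h4 : ∀ l ∈ range N, (ω ^ l) ^ (-r) * ((ω ^ l) ^ a * (a : ℂ) ^ k) =
      (ω ^ l) ^ (a - r) * (a : ℂ) ^ k := by
    intro l _
    rw [← mul_assoc, ← zpow_add₀ (pow_ne_zero _ hω0)]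
    congr 2
    ring
  rw [Finset.sum_congr rfl h4, ← Finset.sum_mul, key]
  split_ifs <;> ring

/-- vanishing of the twisted moments at the primitive roots gives periodicity of the class
moments -/
theorem G1_per (A B : Finset ℤ) (k : ℕ) {p j : ℕ} (hp : p.Prime) (hj : 0 < j)
    (h : ∀ ζ : ℂ, IsPrimitiveRoot ζ (p ^ j) → ∑ a ∈ A, ζ ^ a * (a : ℂ) ^ k =
      ∑ a ∈ B, ζ ^ a * (a : ℂ) ^ k) (r s : ℤ) :
    (∑ a ∈ A with ((p ^ j : ℕ) : ℤ) ∣ a - (r + s * (p ^ (j - 1) : ℕ)), a ^ k) -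
      (∑ a ∈ B with ((p ^ j : ℕ) : ℤ) ∣ a - (r + s * (p ^ (j - 1) : ℕ)), a ^ k) =
    (∑ a ∈ A with ((p ^ j : ℕ) : ℤ) ∣ a - r, a ^ k) -
      (∑ a ∈ B with ((p ^ j : ℕ) : ℤ) ∣ a - r, a ^ k) := by
  have hN : 0 < p ^ j := pow_pos hp.pos _
  set N := p ^ j with hNdef
  have hNq : N = p * p ^ (j - 1) := by
    rw [hNdef, ← pow_succ', Nat.sub_add_cancel hj]
  have hω : IsPrimitiveRoot (Complex.exp (2 * Real.pi * Complex.I / (N : ℕ))) N :=
    Complex.isPrimitiveRoot_exp N hN.ne'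
  set ω := Complex.exp (2 * Real.pi * Complex.I / (N : ℕ)) with hωdef
  clear_value ω
  have hω0 : ω ≠ 0 := hω.ne_zero hN.ne'
  have hNC : (N : ℂ) ≠ 0 := by exact_mod_cast hN.ne'
  set q : ℤ := ((p ^ (j - 1) : ℕ) : ℤ) with hq
  have hNq' : (N : ℤ) = p * q := by rw [hNq, hq]; push_cast; ring
  have e1 : ∀ r' : ℤ, (N : ℂ) * (((∑ a ∈ A with (N : ℤ) ∣ a - r', a ^ k) -
      (∑ a ∈ B with (N : ℤ) ∣ a - r', a ^ k) : ℤ) : ℂ) =
      ∑ l ∈ range N, (ω ^ l) ^ (-r') * (∑ a ∈ A, (ω ^ l) ^ a * (a : ℂ) ^ k -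
        ∑ a ∈ B, (ω ^ l) ^ a * (a : ℂ) ^ k) := by
    intro r'
    simp only [mul_sub, Finset.sum_sub_distrib]
    rw [G1_inv A k hN hω r', G1_inv B k hN hω r']
    push_cast
    ring
  have e2 : (N : ℂ) * (((∑ a ∈ A with (N : ℤ) ∣ a - (r + s * q), a ^ k) -
      (∑ a ∈ B with (N : ℤ) ∣ a - (r + s * q), a ^ k) : ℤ) : ℂ) =
      (N : ℂ) * (((∑ a ∈ A with (N : ℤ) ∣ a - r, a ^ k) -
      (∑ a ∈ B with (N : ℤ) ∣ a - r, a ^ k) : ℤ) : ℂ) := by
    rw [e1, e1]
    refine Finset.sum_congr rfl fun l _ => ?_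
    by_cases hl : p ∣ l
    · obtain ⟨t, rfl⟩ := hl
      have h5 : (ω ^ (p * t)) ^ (-(r + s * q)) = (ω ^ (p * t)) ^ (-r) := by
        have h6 : -(r + s * q) = -r + q * (-s) := by ring
        rw [h6, zpow_add₀ (pow_ne_zero _ hω0), zpow_mul (ω ^ (p * t)) q (-s)]
        have h7 : (ω ^ (p * t)) ^ q = 1 := by
          rw [← zpow_natCast, ← zpow_mul]
          have h8 : ((p * t : ℕ) : ℤ) * q = N * t := by rw [hNq']; push_cast; ring
          rw [h8, zpow_mul, zpow_natCast ω N, hω.pow_eq_one, one_zpow]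
        rw [h7, one_zpow, mul_one]
      rw [h5]
    · have h9 : IsPrimitiveRoot (ω ^ l) N :=
        hω.pow_of_coprime l (((Nat.Prime.coprime_iff_not_dvd hp).2 hl).symm.pow_right j)
      rw [h _ h9, sub_self, mul_zero, mul_zero]
  have e3 := mul_left_cancel₀ hNC e2
  exact_mod_cast e3

/-- If all lifts mod `p^j` of the class `r` mod `q` contain elements of the symmetric set `A`
with fewer than `2p` elements, then `q ∣ r`. -/
theorem G1_count (A : Finset ℤ) (hA : ∀ a ∈ A, -a ∈ A) {p q : ℕ} (hp : p.Prime) (hp2 : p ≠ 2)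
    (hq0 : 0 < q) (hq : Odd q) (hc : A.card < 2 * p) (r : ℤ)
    (h : ∀ s : ℤ, ∃ a ∈ A, ((p * q : ℕ) : ℤ) ∣ a - (r + s * q)) : (q : ℤ) ∣ r := by
  classical
  by_contra hr
  choose f hfA hf using h
  have hqZ : (q : ℤ) ≠ 0 := by exact_mod_cast hq0.ne'
  have hfq : ∀ s, (q : ℤ) ∣ f s - r := by
    intro s
    have h1 : (q : ℤ) ∣ f s - (r + s * q) := (Dvd.intro_left (p : ℤ) (by push_cast; rfl)).trans (hf s)
    have h2 : f s - r = (f s - (r + s * q)) + s * q := by ring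
    rw [h2]
    exact dvd_add h1 (dvd_mul_left _ _)
  have hinj : ∀ s ∈ range p, ∀ t ∈ range p, f s = f t → s = t := by
    intro s hs t ht hst
    have h1 : ((p * q : ℕ) : ℤ) ∣ ((t : ℤ) - s) * q := by
      have h2 := dvd_sub (hf s) (hf t)
      rw [hst] at h2
      have h3 : f t - (r + (s : ℤ) * q) - (f t - (r + (t : ℤ) * q)) = ((t : ℤ) - s) * q := by ring
      rwa [h3] at h2
    push_cast at h1
    have h4 : (p : ℤ) ∣ (t : ℤ) - s := Int.dvd_of_mul_dvd_mul_right hqZ h1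
    have h5 := Int.eq_zero_of_abs_lt_dvd h4 (by
      have hs' := mem_range.1 hs
      have ht' := mem_range.1 ht
      rw [abs_lt]
      constructor <;> omega)
    omega
  have hsub : (range p).image (fun s : ℕ => f s) ∪ (range p).image (fun s : ℕ => -f s) ⊆ A := by
    intro x hx
    rcases mem_union.1 hx with hx | hx
    · obtain ⟨s, _, rfl⟩ := mem_image.1 hx
      exact hfA s
    · obtain ⟨s, _, rfl⟩ := mem_image.1 hx
      exact hA _ (hfA s)
  have hdis : Disjoint ((range p).image (fun s : ℕ => f s)) ((range p).image (fun s : ℕ => -f s)) := by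
    rw [Finset.disjoint_left]
    intro x hx hx'
    obtain ⟨s, _, rfl⟩ := mem_image.1 hx
    obtain ⟨t, _, ht⟩ := mem_image.1 hx'
    apply hr
    have h1 := dvd_add (hfq s) (hfq t)
    have h2 : f s - r + (f t - r) = -(2 * r) := by
      have : -f (t : ℤ) = f (s : ℤ) := ht
      linarith
    rw [h2, dvd_neg] at h1
    have h3 : IsCoprime (q : ℤ) 2 := by
      rw [Int.isCoprime_iff_gcd_eq_one]
      have := hq.coprime_two_right
      exact_mod_cast this
    exact h3.dvd_of_dvd_mul_left h1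
  have hcard := Finset.card_le_card hsub
  rw [Finset.card_union_of_disjoint hdis, Finset.card_image_of_injOn, Finset.card_image_of_injOn,
    card_range] at hcard
  · omega
  · intro s hs t ht hst
    exact hinj s hs t ht (neg_injective hst)
  · intro s hs t ht hst
    exact hinj s hs t ht hst

/-- If all lifts are nonempty and `|A| < 2p` then some lift contains exactly one element. -/
theorem G1_single (A : Finset ℤ) {p q : ℕ} (hp : p.Prime)
    (hq0 : 0 < q) (hc : A.card < 2 * p) (r : ℤ)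
    (h : ∀ s : ℤ, ∃ a ∈ A, ((p * q : ℕ) : ℤ) ∣ a - (r + s * q)) :
    ∃ s : ℤ, (A.filter fun a => ((p * q : ℕ) : ℤ) ∣ a - (r + s * q)).card = 1 := by
  classical
  by_contra hcon
  push Not at hcon
  have hqZ : (q : ℤ) ≠ 0 := by exact_mod_cast hq0.ne'
  have h2 : ∀ s : ℤ, 2 ≤ (A.filter fun a => ((p * q : ℕ) : ℤ) ∣ a - (r + s * q)).card := by
    intro s
    have h3 := hcon s
    have h4 : 0 < (A.filter fun a => ((p * q : ℕ) : ℤ) ∣ a - (r + s * q)).card := by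
      obtain ⟨a, ha, ha'⟩ := h s
      exact Finset.card_pos.2 ⟨a, mem_filter.2 ⟨ha, ha'⟩⟩
    omega
  have hdis : ∀ s ∈ range p, ∀ t ∈ range p, s ≠ t →
      Disjoint (A.filter fun a => ((p * q : ℕ) : ℤ) ∣ a - (r + (s : ℤ) * q))
        (A.filter fun a => ((p * q : ℕ) : ℤ) ∣ a - (r + (t : ℤ) * q)) := by
    intro s hs t ht hst
    rw [Finset.disjoint_left]
    intro x hx hx'
    apply hst
    have h5 := dvd_sub (mem_filter.1 hx).2 (mem_filter.1 hx').2
    have h3 : x - (r + (s : ℤ) * q) - (x - (r + (t : ℤ) * q)) = ((t : ℤ) - s) * q := by ring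
    rw [h3] at h5
    push_cast at h5
    have h4 : (p : ℤ) ∣ (t : ℤ) - s := Int.dvd_of_mul_dvd_mul_right hqZ h5
    have h5 := Int.eq_zero_of_abs_lt_dvd h4 (by
      have hs' := mem_range.1 hs
      have ht' := mem_range.1 ht
      rw [abs_lt]
      constructor <;> omega)
    omega
  have h6 : ((range p).biUnion fun s => A.filter fun a => ((p * q : ℕ) : ℤ) ∣ a - (r + (s : ℤ) * q))
      ⊆ A := by
    intro x hx
    obtain ⟨s, _, hs⟩ := mem_biUnion.1 hx
    exact (mem_filter.1 hs).1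
  have h7 := Finset.card_le_card h6
  rw [Finset.card_biUnion hdis] at h7
  have h8 : ∑ s ∈ range p, 2 ≤ ∑ s ∈ range p,
      (A.filter fun a => ((p * q : ℕ) : ℤ) ∣ a - (r + (s : ℤ) * q)).card :=
    Finset.sum_le_sum fun s _ => h2 s
  rw [sum_const, card_range, smul_eq_mul] at h8
  omega

theorem G1_card_classes (A : Finset ℤ) {N : ℕ} (hN : 0 < N) :
    (A.card : ℤ) = ∑ r ∈ Finset.Ico (0 : ℤ) N, ∑ a ∈ A with (N : ℤ) ∣ a - r, a ^ 0 := by
  have hN' : (0 : ℤ) < N := by exact_mod_cast hN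
  have h1 := Finset.card_eq_sum_card_fiberwise (f := fun a : ℤ => a % (N : ℤ)) (s := A)
    (t := Finset.Ico (0 : ℤ) N) (by
      intro a _
      simp only [Finset.coe_Ico, Set.mem_Ico]
      exact ⟨Int.emod_nonneg _ hN'.ne', Int.emod_lt_of_pos _ hN'⟩)
  rw [h1]
  push_cast
  refine Finset.sum_congr rfl fun r hr => ?_
  rw [Finset.mem_Ico] at hr
  simp only [pow_zero, Finset.sum_const, nsmul_eq_mul, mul_one]
  congr 2
  refine Finset.filter_congr fun a _ => ?_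
  constructor
  · intro h
    rw [← h]
    exact Int.dvd_self_sub_of_emod_eq rfl
  · intro h
    rw [Int.emod_eq_emod_iff_emod_sub_eq_zero.2 (Int.emod_eq_zero_of_dvd h)]
    exact Int.emod_eq_of_lt hr.1 hr.2

theorem G1_symm (A : Finset ℤ) (hA : ∀ a ∈ A, -a ∈ A) (N k : ℕ) (r : ℤ) :
    ∑ a ∈ A with (N : ℤ) ∣ a - (-r), a ^ k = (-1) ^ k * ∑ a ∈ A with (N : ℤ) ∣ a - r, a ^ k := by
  rw [Finset.mul_sum]
  refine Finset.sum_nbij' (fun a => -a) (fun a => -a) ?_ ?_ ?_ ?_ ?_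
  · intro a ha
    rw [mem_filter] at ha ⊢
    refine ⟨hA _ ha.1, ?_⟩
    have : -a - r = -(a - -r) := by ring
    rw [this, dvd_neg]
    exact ha.2
  · intro a ha
    rw [mem_filter] at ha ⊢
    refine ⟨hA _ ha.1, ?_⟩
    have : -a - -r = -(a - r) := by ring
    rw [this, dvd_neg]
    exact ha.2
  · intro a _; ring
  · intro a _; ring
  · intro a _
    rw [← mul_pow]
    congr 1
    ring

/-- The counting argument: two symmetric sets of equal cardinality `< 2p`. -/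
theorem G1_main (A B : Finset ℤ) (hA : ∀ a ∈ A, -a ∈ A) (hB : ∀ a ∈ B, -a ∈ B)
    (hAB : A.card = B.card) {p q μ : ℕ} (hp : p.Prime) (hp2 : p ≠ 2)
    (hq0 : 0 < q) (hq : Odd q) (hc : A.card < 2 * p)
    (hper : ∀ k < μ, ∀ r s : ℤ,
      (∑ a ∈ A with ((p * q : ℕ) : ℤ) ∣ a - (r + s * q), a ^ k) -
      (∑ a ∈ B with ((p * q : ℕ) : ℤ) ∣ a - (r + s * q), a ^ k) =
      (∑ a ∈ A with ((p * q : ℕ) : ℤ) ∣ a - r, a ^ k) -
      (∑ a ∈ B with ((p * q : ℕ) : ℤ) ∣ a - r, a ^ k))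
    {k : ℕ} (hk : k < μ) (r : ℤ) :
    ∑ a ∈ A with ((p * q : ℕ) : ℤ) ∣ a - r, a ^ k =
      ∑ a ∈ B with ((p * q : ℕ) : ℤ) ∣ a - r, a ^ k := by
  classical
  have hN : 0 < p * q := Nat.mul_pos hp.pos hq0
  -- the case `k = 0`
  have hne : ∀ r : ℤ, ¬ (q : ℤ) ∣ r →
      ∑ a ∈ A with ((p * q : ℕ) : ℤ) ∣ a - r, a ^ 0 =
      ∑ a ∈ B with ((p * q : ℕ) : ℤ) ∣ a - r, a ^ 0 := by
    intro r hr
    by_contra hcon
    rcases lt_or_gt_of_ne hcon with hlt | hgt
    · apply hr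
      refine G1_count B hB hp hp2 hq0 hq (hAB ▸ hc) r fun s => ?_
      have h1 := hper 0 (by omega) r s
      by_contra h2
      push Not at h2
      have h3 : (B.filter fun a => ((p * q : ℕ) : ℤ) ∣ a - (r + s * q)) = ∅ := by
        rw [Finset.filter_eq_empty_iff]
        intro a ha
        exact h2 a ha
      rw [h3, Finset.sum_empty] at h1
      have h4 : 0 ≤ ∑ a ∈ A with ((p * q : ℕ) : ℤ) ∣ a - (r + s * q), a ^ 0 :=
        Finset.sum_nonneg fun a _ => by simp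
      linarith
    · apply hr
      refine G1_count A hA hp hp2 hq0 hq hc r fun s => ?_
      have h1 := hper 0 (by omega) r s
      by_contra h2
      push Not at h2
      have h3 : (A.filter fun a => ((p * q : ℕ) : ℤ) ∣ a - (r + s * q)) = ∅ := by
        rw [Finset.filter_eq_empty_iff]
        intro a ha
        exact h2 a ha
      rw [h3, Finset.sum_empty] at h1
      have h4 : 0 ≤ ∑ a ∈ B with ((p * q : ℕ) : ℤ) ∣ a - (r + s * q), a ^ 0 :=
        Finset.sum_nonneg fun a _ => by simp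
      linarith
  have hzero : ∀ r : ℤ,
      ∑ a ∈ A with ((p * q : ℕ) : ℤ) ∣ a - r, a ^ 0 =
      ∑ a ∈ B with ((p * q : ℕ) : ℤ) ∣ a - r, a ^ 0 := by
    intro r
    by_cases hr : (q : ℤ) ∣ r
    · have hc0 : ∀ r' : ℤ, (q : ℤ) ∣ r' →
          (∑ a ∈ A with ((p * q : ℕ) : ℤ) ∣ a - r', a ^ 0) -
          (∑ a ∈ B with ((p * q : ℕ) : ℤ) ∣ a - r', a ^ 0) =
          (∑ a ∈ A with ((p * q : ℕ) : ℤ) ∣ a - 0, a ^ 0) -
          (∑ a ∈ B with ((p * q : ℕ) : ℤ) ∣ a - 0, a ^ 0) := by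
        rintro r' ⟨s, rfl⟩
        have h1 := hper 0 (by omega) 0 s
        have h2 : (0 : ℤ) + s * q = q * s := by ring
        rw [h2] at h1
        exact h1
      have h3 : (0 : ℤ) = ∑ r' ∈ Finset.Ico (0 : ℤ) ((p * q : ℕ) : ℤ),
          ((∑ a ∈ A with ((p * q : ℕ) : ℤ) ∣ a - r', a ^ 0) -
          (∑ a ∈ B with ((p * q : ℕ) : ℤ) ∣ a - r', a ^ 0)) := by
        rw [Finset.sum_sub_distrib, ← G1_card_classes A hN, ← G1_card_classes B hN, hAB, sub_self]
      have h4 : ∑ r' ∈ Finset.Ico (0 : ℤ) ((p * q : ℕ) : ℤ),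
          ((∑ a ∈ A with ((p * q : ℕ) : ℤ) ∣ a - r', a ^ 0) -
          (∑ a ∈ B with ((p * q : ℕ) : ℤ) ∣ a - r', a ^ 0)) =
          ∑ r' ∈ Finset.Ico (0 : ℤ) ((p * q : ℕ) : ℤ) with (q : ℤ) ∣ r',
          ((∑ a ∈ A with ((p * q : ℕ) : ℤ) ∣ a - 0, a ^ 0) -
          (∑ a ∈ B with ((p * q : ℕ) : ℤ) ∣ a - 0, a ^ 0)) := by
        rw [Finset.sum_filter]
        refine Finset.sum_congr rfl fun r' _ => ?_
        split_ifs with h5
        · exact hc0 r' h5
        · rw [hne r' h5, sub_self]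
      rw [h4, Finset.sum_const, nsmul_eq_mul] at h3
      have h5 : (0 : ℤ) < (((Finset.Ico (0 : ℤ) ((p * q : ℕ) : ℤ)).filter
          fun r' => (q : ℤ) ∣ r').card : ℤ) := by
        have : 0 < ((Finset.Ico (0 : ℤ) ((p * q : ℕ) : ℤ)).filter
          fun r' => (q : ℤ) ∣ r').card := by
          refine Finset.card_pos.2 ⟨0, ?_⟩
          rw [mem_filter, Finset.mem_Ico]
          refine ⟨⟨le_rfl, by exact_mod_cast hN⟩, dvd_zero _⟩
        exact_mod_cast this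
      have h6 := (mul_eq_zero.1 h3.symm).resolve_left h5.ne'
      have h7 := hc0 r hr
      rw [h6] at h7
      exact sub_eq_zero.1 h7
    · exact hne r hr
  rcases Nat.eq_zero_or_pos k with rfl | hk0
  · exact hzero r
  -- `k ≥ 1`
  have hcardeq : ∀ r : ℤ, (A.filter fun a => ((p * q : ℕ) : ℤ) ∣ a - r).card =
      (B.filter fun a => ((p * q : ℕ) : ℤ) ∣ a - r).card := by
    intro r
    have h1 := hzero r
    simp only [pow_zero, Finset.sum_const, nsmul_eq_mul, mul_one] at h1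
    exact_mod_cast h1
  by_cases hall : ∀ s : ℤ, ∃ a ∈ A, ((p * q : ℕ) : ℤ) ∣ a - (r + s * q)
  · have hqr : (q : ℤ) ∣ r := G1_count A hA hp hp2 hq0 hq hc r hall
    obtain ⟨s, hs⟩ := G1_single A hp hq0 hc r hall
    obtain ⟨t, ht⟩ := hqr
    -- odd moments vanish
    have hodd : 
        (∑ a ∈ A with ((p * q : ℕ) : ℤ) ∣ a - r, a ^ 1) -
        (∑ a ∈ B with ((p * q : ℕ) : ℤ) ∣ a - r, a ^ 1) = 0 := by
      have h1 := hper 1 (by omega) r (-(2 * t))
      have h2 : r + -(2 * t) * q = -r := by rw [ht]; ring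
      rw [h2, G1_symm A hA, G1_symm B hB] at h1
      linarith
    have h3 := hper 1 (by omega) r s
    rw [hodd] at h3
    have hs' := hs
    rw [hcardeq] at hs'
    obtain ⟨a, ha⟩ := Finset.card_eq_one.1 hs
    obtain ⟨b, hb⟩ := Finset.card_eq_one.1 hs'
    rw [ha, hb, Finset.sum_singleton, Finset.sum_singleton, pow_one, pow_one] at h3
    have hab : a = b := by linarith
    have h4 := hper k hk r s
    rw [ha, hb, hab, sub_self] at h4
    linarith
  · push Not at hall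
    obtain ⟨s, hs⟩ := hall
    have h1 : (A.filter fun a => ((p * q : ℕ) : ℤ) ∣ a - (r + s * q)) = ∅ := by
      rw [Finset.filter_eq_empty_iff]
      intro a ha
      exact hs a ha
    have h2 : (B.filter fun a => ((p * q : ℕ) : ℤ) ∣ a - (r + s * q)) = ∅ := by
      rw [← Finset.card_eq_zero, ← hcardeq, h1, Finset.card_empty]
    have h4 := hper k hk r s
    rw [h1, h2, Finset.sum_empty, sub_self] at h4
    linarith

namespace Trip

variable {m : ℕ} (T : Trip m)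

/-- Piece G1.  Let `2^{m-1} < 2p`.  Below the order of vanishing at the primitive `p^j`-th roots
of unity the moments of the residue classes mod `p^j` are equal.
Proof: `∑_r c_k(r) ζ^r = 0` for primitive `ζ` means that `c_k(r)` only depends on
`r mod p^{j-1}`.  `k = 0`: if `c_0(r_0) > 0` then all `p` lifts contain elements of `S_i`; for
`r_0 ≠ 0` the classes `±r_0` would contain `≥ 2p > 2^{m-1}` elements; similarly `< 0`; the class
`r_0 = 0` follows from `|S_i| = |S_{i+1}|`.  `k ≥ 1`: if some lift is empty, `c_k(r_0) = 0`;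
otherwise `r_0 = 0` (mod `p^{j-1}`) and by `c_k(-r) = (-1)^k c_k(r)` the odd ones vanish; as
`|S_i| < 2p` some lift contains exactly one element of `S_i`, and (`c_0 = 0`) of `S_{i+1}`;
`c_1 = 0` makes them equal, so `c_k = 0`. -/
theorem class_eq (i : ZMod 3) {p j k : ℕ} (hp : p.Prime) (hp2 : p ≠ 2)
    (hc : 2 ^ (m - 1) < 2 * p) (hj : 0 < j) (hk : k < T.al i (p ^ j)) (r : ℤ) :
    ∑ a ∈ T.S i with ((p ^ j : ℕ) : ℤ) ∣ a - r, a ^ k =
      ∑ a ∈ T.S (i + 1) with ((p ^ j : ℕ) : ℤ) ∣ a - r, a ^ k := by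
  have hNq : p ^ j = p * p ^ (j - 1) := by
    rw [← pow_succ', Nat.sub_add_cancel hj]
  have hN : 0 < p ^ j := pow_pos hp.pos _
  have hper : ∀ k < T.al i (p ^ j), ∀ r s : ℤ,
      (∑ a ∈ T.S i with ((p ^ j : ℕ) : ℤ) ∣ a - (r + s * (p ^ (j - 1) : ℕ)), a ^ k) -
      (∑ a ∈ T.S (i + 1) with ((p ^ j : ℕ) : ℤ) ∣ a - (r + s * (p ^ (j - 1) : ℕ)), a ^ k) =
      (∑ a ∈ T.S i with ((p ^ j : ℕ) : ℤ) ∣ a - r, a ^ k) -
      (∑ a ∈ T.S (i + 1) with ((p ^ j : ℕ) : ℤ) ∣ a - r, a ^ k) := by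
    intro k hk
    refine G1_per (T.S i) (T.S (i + 1)) k hp hj fun ζ hζ => ?_
    obtain ⟨U, _, _, hU⟩ := T.D_lead i hN hζ (one_ne_zero : (1 : ℂ) ≠ 0)
    have h1 := congrArg (coeff k) hU
    rw [coeff_X_pow_mul', if_neg (by omega), D, map_sub, coeff_J, coeff_J, ← sub_div] at h1
    have h2 : (k.factorial : ℂ) ≠ 0 := by exact_mod_cast k.factorial_ne_zero
    have h3 := (div_eq_zero_iff.1 h1).resolve_right h2
    have h4 := sub_eq_zero.1 h3
    simpa only [one_mul] using h4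
  rw [hNq] at hper ⊢
  exact G1_main (T.S i) (T.S (i + 1)) (T.symm i) (T.symm (i + 1))
    (by rw [T.card, T.card]) hp hp2 (pow_pos hp.pos _)
    ((hp.odd_of_ne_two hp2).pow) (by rw [T.card]; exact hc) hper (by rwa [hNq] at hk) r

end Trip

end Pool.Agent.Lib_MP_e4b855_nt.Tri
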