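import Pool.Agent.Lib_MP_e4b855_nt.Tri.Defs

/-!
# Part III: class functions of exponent vectors
-/

namespace Pool.Agent.Lib_MP_e4b855_nt.Tri

open Finset

/-- `∑_{n ≡ x} v_n n^k + (-1)^k ∑_{n ≡ -x} v_n n^k` -/
noncomputable def cc (N : ℕ) (v : ℕ →₀ ℤ) (k : ℕ) (x : ZMod N) : ℤ :=
  v.sum fun n a => a * (n : ℤ) ^ k * ((if (n : ZMod N) = x then 1 else 0) +
    (-1) ^ k * (if (n : ZMod N) = -x then 1 else 0))

theorem cc_sub (N : ℕ) (v w : ℕ →₀ ℤ) (k : ℕ) (x : ZMod N) :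
    cc N (v - w) k x = cc N v k x - cc N w k x := by
  unfold cc
  rw [Finsupp.sum_sub_index]
  intro a b₁ b₂
  ring

/-- powers of a root of unity depend only on the class of the exponent -/
theorem CLA_pow_congr {N : ℕ} {ξ : ℂ} (hξ : ξ ^ N = 1) {a b : ℕ}
    (h : (a : ZMod N) = (b : ZMod N)) : ξ ^ a = ξ ^ b := by
  have h1 : a % N = b % N := (ZMod.natCast_eq_natCast_iff' a b N).1 h
  rw [pow_eq_pow_mod a hξ, pow_eq_pow_mod b hξ, h1]

theorem CLA_pow_neg {N : ℕ} [NeZero N] {ξ : ℂ} (hξ : ξ ^ N = 1) (n : ℕ) :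
    ξ ^ (-(n : ZMod N)).val = (ξ ^ n)⁻¹ := by
  have h0 : ξ ≠ 0 := by
    rintro rfl
    rw [zero_pow (NeZero.ne N)] at hξ
    exact zero_ne_one hξ
  have : ξ ^ ((-(n : ZMod N)).val + n) = ξ ^ 0 := by
    apply CLA_pow_congr hξ
    push_cast
    rw [ZMod.natCast_zmod_val]
    ring
  rw [pow_add, pow_zero] at this
  exact eq_inv_of_mul_eq_one_left this

theorem CLA_sum_val {N : ℕ} [NeZero N] (f : ℕ → ℂ) :
    ∑ l : ZMod N, f l.val = ∑ i ∈ range N, f i := by
  obtain ⟨m, rfl⟩ := Nat.exists_eq_succ_of_ne_zero (NeZero.ne N)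
  exact Fin.sum_univ_eq_sum_range f (m + 1)

theorem Pk_eq_cc {N : ℕ} [NeZero N] (v : ℕ →₀ ℤ) (k : ℕ) {ξ : ℂ} (hξ : ξ ^ N = 1) :
    Pk v k ξ = ∑ x : ZMod N, (cc N v k x : ℂ) * ξ ^ x.val := by
  unfold Pk cc Finsupp.sum
  push_cast
  simp only [Finset.sum_mul]
  rw [Finset.sum_comm]
  refine Finset.sum_congr rfl fun n _ => ?_
  have h1 : ∑ x : ZMod N, (if (n : ZMod N) = x then (1 : ℂ) else 0) * ξ ^ x.val = ξ ^ n := by
    simp only [ite_mul, one_mul, zero_mul]
    rw [Finset.sum_ite_eq]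
    simp only [Finset.mem_univ, if_true]
    apply CLA_pow_congr hξ
    rw [ZMod.natCast_zmod_val]
  have h2 : ∑ x : ZMod N, (if (n : ZMod N) = -x then (1 : ℂ) else 0) * ξ ^ x.val = (ξ ^ n)⁻¹ := by
    have h3 : ∀ x : ZMod N, ((n : ZMod N) = -x) = (-(n : ZMod N) = x) := by
      intro x
      apply propext
      constructor
      · intro h
        rw [h, neg_neg]
      · intro h
        rw [← h, neg_neg]
    simp only [h3, ite_mul, one_mul, zero_mul]
    rw [Finset.sum_ite_eq]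
    simp only [Finset.mem_univ, if_true]
    exact CLA_pow_neg hξ n
  rw [← h2, ← h1]
  rw [Finset.mul_sum, ← Finset.sum_add_distrib, Finset.mul_sum]
  refine Finset.sum_congr rfl fun x _ => ?_
  split_ifs <;> push_cast <;> ring

/-- Fourier inversion: `N cc(x) = ∑_{l < N} Pk v k (ζ^l) ζ^{-l x}` -/
theorem cc_inv {N : ℕ} [NeZero N] (v : ℕ →₀ ℤ) (k : ℕ) {ζ : ℂ} (hζ : IsPrimitiveRoot ζ N)
    (x : ZMod N) : (N : ℂ) * cc N v k x =
      ∑ l : ZMod N, Pk v k (ζ ^ l.val) * (ζ ^ (l.val * x.val))⁻¹ := by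
  have hN : ζ ^ N = 1 := hζ.pow_eq_one
  have h0 : ζ ≠ 0 := hζ.ne_zero (NeZero.ne N)
  have h1 : ∀ l : ZMod N, Pk v k (ζ ^ l.val) * (ζ ^ (l.val * x.val))⁻¹ =
      ∑ y : ZMod N, (cc N v k y : ℂ) * (ζ ^ y.val * (ζ ^ x.val)⁻¹) ^ l.val := by
    intro l
    rw [Pk_eq_cc v k (ξ := ζ ^ l.val) (by rw [← pow_mul, mul_comm, pow_mul, hN, one_pow]),
      Finset.sum_mul]
    refine Finset.sum_congr rfl fun y _ => ?_
    rw [mul_pow, inv_pow, ← pow_mul, ← pow_mul, ← pow_mul, mul_comm l.val y.val,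
      mul_comm l.val x.val]
    ring
  simp only [h1]
  rw [Finset.sum_comm]
  have h2 : ∀ y : ZMod N, ∑ l : ZMod N, (cc N v k y : ℂ) * (ζ ^ y.val * (ζ ^ x.val)⁻¹) ^ l.val =
      if y = x then (cc N v k x : ℂ) * N else 0 := by
    intro y
    rw [← Finset.mul_sum, CLA_sum_val (N := N) (fun i => (ζ ^ y.val * (ζ ^ x.val)⁻¹) ^ i)]
    by_cases hy : y = x
    · subst hy
      rw [if_pos rfl, mul_inv_cancel₀ (pow_ne_zero _ h0)]
      simp
    · rw [if_neg hy]
      have hne : ζ ^ y.val * (ζ ^ x.val)⁻¹ ≠ 1 := by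
        intro h
        rw [mul_inv_eq_one₀ (pow_ne_zero _ h0)] at h
        exact hy (ZMod.val_injective N (hζ.pow_inj (ZMod.val_lt y) (ZMod.val_lt x) h))
      have hp : (ζ ^ y.val * (ζ ^ x.val)⁻¹) ^ N = 1 := by
        rw [mul_pow, inv_pow, ← pow_mul, ← pow_mul, mul_comm, mul_comm y.val, mul_comm x.val,
          pow_mul, pow_mul, hN]
        simp
      have hg := geom_sum_eq hne N
      rw [hp, sub_self, zero_div] at hg
      rw [hg, mul_zero]
  simp only [h2]
  rw [Finset.sum_ite_eq' Finset.univ x]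
  simp only [Finset.mem_univ, if_true]
  ring

theorem cc_eq_zero {N : ℕ} [NeZero N] (v : ℕ →₀ ℤ) (k : ℕ)
    (h : ∀ ξ : ℂ, ξ ^ N = 1 → Pk v k ξ = 0) (x : ZMod N) : cc N v k x = 0 := by
  have hζ := Complex.isPrimitiveRoot_exp N (NeZero.ne N)
  have h1 := cc_inv v k hζ x
  have h2 : ∀ l : ZMod N, Pk v k (Complex.exp (2 * Real.pi * Complex.I / N) ^ l.val) = 0 := by
    intro l
    apply h
    rw [pow_right_comm, hζ.pow_eq_one, one_pow]
  simp only [h2, zero_mul, Finset.sum_const_zero] at h1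
  rcases mul_eq_zero.1 h1 with h3 | h3
  · exact absurd h3 (Nat.cast_ne_zero.2 (NeZero.ne N))
  · exact_mod_cast h3

/-- substitute `l ↦ 2 l` in `cc_inv` -/
theorem cc_two {N : ℕ} [NeZero N] (hN : Odd N) (v : ℕ →₀ ℤ) (k : ℕ)
    (h : ∀ ξ : ℂ, ξ ^ N = 1 → Pk v k (ξ ^ 2) = Pk v k ξ) (x : ZMod N) :
    cc N v k (2 * x) = cc N v k x := by
  set ζ := Complex.exp (2 * Real.pi * Complex.I / N) with hζd
  have hζ : IsPrimitiveRoot ζ N := Complex.isPrimitiveRoot_exp N (NeZero.ne N)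
  have hz : ζ ^ N = 1 := hζ.pow_eq_one
  have h2u : IsUnit (2 : ZMod N) := by
    have h3 : Nat.Coprime 2 N := (Nat.coprime_two_left).2 hN
    have := (ZMod.isUnit_iff_coprime 2 N).2 h3
    simpa using this
  have hbij : Function.Bijective (fun l : ZMod N => 2 * l) := by
    rw [← Finite.injective_iff_bijective]
    intro a b hab
    exact h2u.mul_left_cancel hab
  have h1 := cc_inv v k hζ (2 * x)
  have h2 := cc_inv v k hζ x
  have h3 : ∑ l : ZMod N, Pk v k (ζ ^ l.val) * (ζ ^ (l.val * (2 * x).val))⁻¹ =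
      ∑ l : ZMod N, Pk v k (ζ ^ l.val) * (ζ ^ (l.val * x.val))⁻¹ := by
    refine Fintype.sum_bijective _ hbij _ _ fun l => ?_
    have h4 : ζ ^ (2 * l).val = (ζ ^ l.val) ^ 2 := by
      rw [← pow_mul]
      apply CLA_pow_congr hz
      push_cast
      rw [ZMod.natCast_zmod_val, ZMod.natCast_zmod_val]
      ring
    have h5 : ζ ^ ((2 * l).val * x.val) = ζ ^ (l.val * (2 * x).val) := by
      apply CLA_pow_congr hz
      push_cast
      simp only [ZMod.natCast_zmod_val]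
      ring
    rw [h4, h5, h _ (by rw [← pow_mul, mul_comm, pow_mul, hz, one_pow])]
  have h6 : (N : ℂ) * cc N v k (2 * x) = N * cc N v k x := by
    rw [h1, h2, h3]
  have h7 := mul_left_cancel₀ (Nat.cast_ne_zero.2 (NeZero.ne N)) h6
  exact_mod_cast h7

theorem CLA_count {M q : ℕ} [NeZero M] [NeZero q] [NeZero (M * q)] (x : ℕ) (z : ZMod (M * q)) :
    ∑ t ∈ range q, (if z = ((x + M * t : ℕ) : ZMod (M * q)) then (1 : ℤ) else 0) =
      if (ZMod.castHom (Dvd.intro q rfl : M ∣ M * q) (ZMod M)) z = (x : ZMod M) then 1 else 0 := by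
  split_ifs with hz
  · -- existence of a unique `t`
    have hval : ((z.val : ℕ) : ZMod M) = (x : ZMod M) := by
      rw [← hz]
      conv_rhs => rw [← ZMod.natCast_zmod_val z]
      rw [map_natCast]
    set a := z.val + (M * q) * x with ha
    have hge : x ≤ a := by
      have : 1 ≤ M * q := Nat.one_le_iff_ne_zero.2 (NeZero.ne (M * q))
      nlinarith [Nat.zero_le z.val]
    have hmod : x ≡ a [MOD M] := by
      rw [← ZMod.natCast_eq_natCast_iff, ha]
      push_cast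
      rw [hval]
      simp
    obtain ⟨s, hs⟩ := (Nat.modEq_iff_dvd' hge).1 hmod
    have has : a = x + M * s := by omega
    have hsol : z = ((x + M * (s % q) : ℕ) : ZMod (M * q)) := by
      have h1 : z = (a : ZMod (M * q)) := by
        rw [ha]
        push_cast
        rw [ZMod.natCast_zmod_val]
        have : ((M : ZMod (M * q)) * (q : ZMod (M * q))) = 0 := by
          rw [← Nat.cast_mul, ZMod.natCast_self]
        rw [this]
        ring
      rw [h1, has, ZMod.natCast_eq_natCast_iff]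
      apply Nat.ModEq.add_left
      exact (Nat.ModEq.mul_left' M (Nat.mod_modEq s q)).symm
    rw [Finset.sum_eq_single (s % q)]
    · rw [if_pos hsol]
    · intro t ht hne
      rw [if_neg]
      intro heq
      apply hne
      rw [hsol, ZMod.natCast_eq_natCast_iff] at heq
      have h2 := Nat.ModEq.add_left_cancel' x heq
      have h3 := Nat.ModEq.mul_left_cancel' (NeZero.ne M) h2
      have h4 : s % q % q = t % q := h3
      rw [Nat.mod_mod, Nat.mod_eq_of_lt (Finset.mem_range.1 ht)] at h4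
      exact h4.symm
    · intro hn
      exact absurd (Finset.mem_range.2 (Nat.mod_lt _ (Nat.pos_of_ne_zero (NeZero.ne q)))) hn
  · refine Finset.sum_eq_zero fun t _ => ?_
    rw [if_neg]
    intro heq
    apply hz
    rw [heq, map_natCast]
    push_cast
    simp

/-- reduction modulo `M` -/
theorem cc_red {M q : ℕ} [NeZero M] [NeZero q] [NeZero (M * q)] (v : ℕ →₀ ℤ) (k : ℕ) (x : ℕ) :
    ∑ t ∈ range q, cc (M * q) v k ((x + M * t : ℕ) : ZMod (M * q)) =
      cc M v k (x : ZMod M) := by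
  unfold cc Finsupp.sum
  rw [Finset.sum_comm]
  refine Finset.sum_congr rfl fun n _ => ?_
  rw [← Finset.mul_sum, Finset.sum_add_distrib, ← Finset.mul_sum]
  have h1 := CLA_count (M := M) (q := q) x (n : ZMod (M * q))
  have h2 := CLA_count (M := M) (q := q) x (-(n : ZMod (M * q)))
  rw [map_natCast] at h1
  rw [map_neg, map_natCast] at h2
  have e : ∀ (L : ℕ) (y : ZMod L), ((n : ZMod L) = -y) = (-(n : ZMod L) = y) := by
    intro L y
    apply propext
    constructor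
    · intro h
      rw [h, neg_neg]
    · intro h
      rw [← h, neg_neg]
  simp only [e]
  rw [h1, h2]

theorem cc_zero_zero (N : ℕ) (v : ℕ →₀ ℤ) : cc N v 0 0 = 2 * lev v N := by
  unfold cc lev
  rw [Finsupp.mul_sum]
  refine Finset.sum_congr rfl fun n _ => ?_
  simp only [neg_zero, pow_zero, ZMod.natCast_eq_zero_iff]
  split_ifs <;> ring

end Pool.Agent.Lib_MP_e4b855_nt.Tri
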