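import Pool.Agent.Lib_MP_e4b855_nt.Tri.ClassA

/-! # Part III: class functions, two further lemmas -/

namespace Pool.Agent.Lib_MP_e4b855_nt.Tri

open Finset

/-- `∑_{N ∤ n} v_n f(ζ^n)` for `f(y) = log ‖y - 1‖ = f(y⁻¹)` -/
theorem sum_log_cc {N : ℕ} [NeZero N] (v : ℕ →₀ ℤ) {ζ : ℂ} (hζ : IsPrimitiveRoot ζ N) :
    2 * (v.sum fun n a => if N ∣ n then 0 else (a : ℝ) * Real.log ‖ζ ^ n - 1‖) =
      ∑ x ∈ univ.erase (0 : ZMod N), (cc N v 0 x : ℝ) * Real.log ‖ζ ^ x.val - 1‖ := by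
  have hval : ∀ n : ℕ, ζ ^ (n : ZMod N).val = ζ ^ n := by
    intro n
    rw [ZMod.val_natCast]
    exact (pow_mod_orderOf ζ n).symm ▸ by rw [← hζ.eq_orderOf]
  have hnorm : ‖ζ‖ = 1 := hζ.norm'_eq_one (NeZero.ne N)
  have hinv : ∀ n : ℕ, Real.log ‖ζ ^ (-(n : ZMod N)).val - 1‖ = Real.log ‖ζ ^ n - 1‖ := by
    intro n
    have h1 : ζ ^ (-(n : ZMod N)).val * ζ ^ n = 1 := by
      rw [← hval n, ← pow_add]
      rw [hζ.pow_eq_one_iff_dvd, ← ZMod.natCast_eq_zero_iff]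
      push_cast
      rw [ZMod.natCast_zmod_val, ZMod.natCast_zmod_val]
      simp
    congr 1
    have h2 : ζ ^ (-(n : ZMod N)).val - 1 = -(ζ ^ (-(n : ZMod N)).val * (ζ ^ n - 1)) := by
      rw [mul_sub, h1]
      ring
    rw [h2, norm_neg, norm_mul, norm_pow, hnorm, one_pow, one_mul]
  simp only [cc, Finsupp.sum]
  push_cast
  simp only [Finset.sum_mul]
  rw [Finset.sum_comm, Finset.mul_sum]
  refine Finset.sum_congr rfl fun n _ => ?_
  simp only [pow_zero, mul_one, one_mul]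
  by_cases hn : N ∣ n
  · rw [if_pos hn, mul_zero]
    have hn' : (n : ZMod N) = 0 := (ZMod.natCast_eq_zero_iff n N).mpr hn
    symm
    apply Finset.sum_eq_zero
    intro x hx
    have hx' : x ≠ 0 := (Finset.mem_erase.mp hx).1
    rw [hn', if_neg hx'.symm, if_neg (by simpa [eq_comm] using hx')]
    simp
  · rw [if_neg hn]
    have hn' : (n : ZMod N) ≠ 0 := fun h => hn ((ZMod.natCast_eq_zero_iff n N).mp h)
    have hsplit : ∀ x : ZMod N, (v n : ℝ) * ((if (n : ZMod N) = x then 1 else 0) +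
        (if (n : ZMod N) = -x then 1 else 0)) * Real.log ‖ζ ^ x.val - 1‖ =
        (if x = (n : ZMod N) then (v n : ℝ) * Real.log ‖ζ ^ x.val - 1‖ else 0) +
        (if x = -(n : ZMod N) then (v n : ℝ) * Real.log ‖ζ ^ x.val - 1‖ else 0) := by
      intro x
      have e1 : ((n : ZMod N) = x) = (x = (n : ZMod N)) := propext eq_comm
      have e2 : ((n : ZMod N) = -x) = (x = -(n : ZMod N)) := by
        apply propext
        constructor
        · intro h; rw [h, neg_neg]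
        · intro h; rw [h, neg_neg]
      simp only [e1, e2]
      split_ifs <;> ring
    simp only [hsplit]
    rw [Finset.sum_add_distrib, Finset.sum_ite_eq', Finset.sum_ite_eq',
      if_pos (Finset.mem_erase.mpr ⟨hn', Finset.mem_univ _⟩),
      if_pos (Finset.mem_erase.mpr ⟨neg_ne_zero.mpr hn', Finset.mem_univ _⟩), hval, hinv]
    ring

/-- divisibility.  Let `x = M h`, `gcd(h, p) = 1`.  For `n ≡ x` (resp. `-n ≡ x`) modulo `M p` write
`n = M (h + p w)` (resp. `-n = M (h + p w)`).  If `cc (M p) v k x = 0` for `1 ≤ k < μ` then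
`∑ v (h + p w)^k = 0` for these `k`, so
`∑ v (p w)^(μ-1) = ∑ v ((h + p w) - h)^(μ-1) = (-h)^(μ-1) ∑ v = (-h)^(μ-1) cc (M p) v 0 x`. -/
theorem cc_dvd {p M h μ : ℕ} (hp : p.Prime) (hp2 : p ≠ 2) (hM : 0 < M) (hh : ¬ p ∣ h)
    (v : ℕ →₀ ℤ) (hμ : 0 < μ)
    (H : ∀ k, 0 < k → k < μ → cc (M * p) v k ((M * h : ℕ) : ZMod (M * p)) = 0) :
    (p : ℤ) ^ (μ - 1) ∣ cc (M * p) v 0 ((M * h : ℕ) : ZMod (M * p)) := by
  classical
  set x : ZMod (M * p) := ((M * h : ℕ) : ZMod (M * p)) with hx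
  set Lam : (ℤ → ℤ) → ℤ := fun g => v.sum fun n a =>
    a * ((if (n : ZMod (M * p)) = x then g n else 0) +
      (if (n : ZMod (M * p)) = -x then g (-n) else 0)) with hLam
  have hcc : ∀ k, cc (M * p) v k x = Lam (fun z => z ^ k) := by
    intro k
    simp only [cc, hLam, Finsupp.sum]
    refine Finset.sum_congr rfl fun n _ => ?_
    rw [neg_pow]
    split_ifs <;> ring
  have hsum : ∀ (s : Finset ℕ) (w : ℕ → ℤ), Lam (fun z => ∑ j ∈ s, w j * z ^ j) =
      ∑ j ∈ s, w j * Lam (fun z => z ^ j) := by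
    intro s w
    simp only [hLam, Finsupp.sum, Finset.mul_sum]
    rw [Finset.sum_comm]
    refine Finset.sum_congr rfl fun n _ => ?_
    split_ifs
    · rw [← Finset.sum_add_distrib, Finset.mul_sum]
      refine Finset.sum_congr rfl fun j _ => ?_
      ring
    · rw [add_zero, Finset.mul_sum]
      refine Finset.sum_congr rfl fun j _ => ?_
      ring
    · rw [zero_add, Finset.mul_sum]
      refine Finset.sum_congr rfl fun j _ => ?_
      ring
    · simp
  have hdvd1 : ((M * p : ℕ) : ℤ) ^ (μ - 1) ∣ Lam (fun z => (z - (M * h : ℕ)) ^ (μ - 1)) := by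
    simp only [hLam, Finsupp.sum]
    refine Finset.dvd_sum fun n _ => Dvd.dvd.mul_left (dvd_add ?_ ?_) _
    · split_ifs with h1
      · apply pow_dvd_pow_of_dvd
        rw [← ZMod.intCast_eq_intCast_iff_dvd_sub]
        push_cast
        rw [h1, hx]
        push_cast
        rfl
      · exact dvd_zero _
    · split_ifs with h1
      · apply pow_dvd_pow_of_dvd
        rw [← ZMod.intCast_eq_intCast_iff_dvd_sub]
        push_cast
        rw [h1, neg_neg, hx]
        push_cast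
        rfl
      · exact dvd_zero _
  have hexp : Lam (fun z => (z - (M * h : ℕ)) ^ (μ - 1)) =
      (-(M * h : ℕ) : ℤ) ^ (μ - 1) * Lam (fun z => z ^ 0) := by
    have h1 : (fun z : ℤ => (z - (M * h : ℕ)) ^ (μ - 1)) = fun z : ℤ =>
        ∑ j ∈ range (μ - 1 + 1), ((-(M * h : ℕ) : ℤ) ^ (μ - 1 - j) * ((μ - 1).choose j : ℤ)) *
          z ^ j := by
      funext z
      rw [sub_eq_add_neg, add_pow]
      refine Finset.sum_congr rfl fun j _ => ?_
      ring
    rw [h1, hsum, Finset.sum_eq_single 0]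
    · simp
    · intro j hj hj0
      rw [Finset.mem_range] at hj
      rw [← hcc, H j (Nat.pos_of_ne_zero hj0) (by omega), mul_zero]
    · intro h2
      exact absurd (Finset.mem_range.mpr (by omega)) h2
  rw [hcc 0]
  rw [hexp] at hdvd1
  have h2 : ((M * p : ℕ) : ℤ) ^ (μ - 1) = (M : ℤ) ^ (μ - 1) * (p : ℤ) ^ (μ - 1) := by
    push_cast
    rw [mul_pow]
  have h3 : (-(M * h : ℕ) : ℤ) ^ (μ - 1) * Lam (fun z => z ^ 0) =
      (M : ℤ) ^ (μ - 1) * ((-(h : ℤ)) ^ (μ - 1) * Lam (fun z => z ^ 0)) := by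
    push_cast
    rw [← mul_neg, mul_pow]
    ring
  rw [h2, h3] at hdvd1
  have h4 : (p : ℤ) ^ (μ - 1) ∣ (-(h : ℤ)) ^ (μ - 1) * Lam (fun z => z ^ 0) :=
    Int.dvd_of_mul_dvd_mul_left (pow_ne_zero _ (by exact_mod_cast hM.ne')) hdvd1
  have h5 : IsCoprime ((p : ℤ) ^ (μ - 1)) ((-(h : ℤ)) ^ (μ - 1)) := by
    apply IsCoprime.pow
    apply IsCoprime.neg_right
    exact Nat.isCoprime_iff_coprime.mpr ((Nat.Prime.coprime_iff_not_dvd hp).mpr hh)
  exact h5.dvd_of_dvd_mul_left h4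

end Pool.Agent.Lib_MP_e4b855_nt.Tri
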