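import Mathlib

/-!
# Part III: the units `th c η` (cyclotomic numbers of the cubic field of conductor 283)

For `η ^ 283 = 1`: `142 = 1/2`, `141 = -1/2` modulo 283; `2` has order `94` modulo `283`, the
cosets of `⟨2⟩` are `3^c ⟨2⟩`, `c = 0, 1, 2`; `2^47 = -1`, `27 = 2^55` modulo `283`.
-/

namespace Pool.Agent.Lib_MP_e4b855_nt.Tri

open Finset

/-- `∏_{i < 47} (η^(142·3^c·2^i) − η^(141·3^c·2^i))` -/
def th {R : Type*} [CommRing R] (c : ℕ) (η : R) : R :=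
  ∏ i ∈ range 47, (η ^ (142 * (3 ^ c * 2 ^ i)) - η ^ (141 * (3 ^ c * 2 ^ i)))

/-- `∏_{c < 3} (th c η) ^ e_c` -/
noncomputable def eps {K : Type*} [Field K] (e : ℕ → ℤ) (η : K) : K :=
  ∏ c ∈ range 3, th c η ^ e c

theorem th_pow_congr {R : Type*} [CommRing R] {η : R} (h : η ^ 283 = 1) {a b : ℕ}
    (hab : a % 283 = b % 283) : η ^ a = η ^ b := by
  rw [pow_eq_pow_mod a h, pow_eq_pow_mod b h, hab]

theorem th_cube {R : Type*} [CommRing R] (c : ℕ) (η : R) : th c (η ^ 3) = th (c + 1) η := by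
  unfold th
  refine Finset.prod_congr rfl fun i _ => ?_
  rw [← pow_mul, ← pow_mul]
  congr 2 <;> ring

theorem th_map {R S : Type*} [CommRing R] [CommRing S] (f : R →+* S) (c : ℕ) (η : R) :
    f (th c η) = th c (f η) := by
  unfold th
  rw [map_prod]
  refine Finset.prod_congr rfl fun i _ => ?_
  rw [map_sub, map_pow, map_pow]

/-- with `f_i` the `i`-th factor, `th c (η²) = ∏_{i<47} f_{i+1}` and `f_47 = - f_0` -/
theorem th_sq {R : Type*} [CommRing R] {η : R} (h : η ^ 283 = 1) (c : ℕ) :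
    th c (η ^ 2) = -th c η := by
  have e1 : th c (η ^ 2) = ∏ i ∈ range 47,
      (η ^ (142 * (3 ^ c * 2 ^ (i + 1))) - η ^ (141 * (3 ^ c * 2 ^ (i + 1)))) := by
    unfold th
    refine Finset.prod_congr rfl fun i _ => ?_
    rw [← pow_mul, ← pow_mul]
    congr 2 <;> ring
  have a1 : η ^ (142 * (3 ^ c * 2 ^ (46 + 1))) = η ^ (141 * (3 ^ c * 2 ^ 0)) := by
    apply th_pow_congr h
    have e : 142 * (3 ^ c * 2 ^ (46 + 1)) = 3 ^ c * (142 * 2 ^ 47) := by ring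
    have e' : 141 * (3 ^ c * 2 ^ 0) = 3 ^ c * 141 := by ring
    rw [e, e', Nat.mul_mod, Nat.mul_mod (3 ^ c) 141]
    norm_num
  have a2 : η ^ (141 * (3 ^ c * 2 ^ (46 + 1))) = η ^ (142 * (3 ^ c * 2 ^ 0)) := by
    apply th_pow_congr h
    have e : 141 * (3 ^ c * 2 ^ (46 + 1)) = 3 ^ c * (141 * 2 ^ 47) := by ring
    have e' : 142 * (3 ^ c * 2 ^ 0) = 3 ^ c * 142 := by ring
    rw [e, e', Nat.mul_mod, Nat.mul_mod (3 ^ c) 142]
    norm_num
  have e2 : th c η = (∏ i ∈ range 46,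
      (η ^ (142 * (3 ^ c * 2 ^ (i + 1))) - η ^ (141 * (3 ^ c * 2 ^ (i + 1))))) *
      (η ^ (142 * (3 ^ c * 2 ^ 0)) - η ^ (141 * (3 ^ c * 2 ^ 0))) := by
    unfold th
    rw [Finset.prod_range_succ']
  rw [e1, Finset.prod_range_succ, a1, a2, e2, ← mul_neg, neg_sub]

theorem th_two_pow {R : Type*} [CommRing R] {η : R} (h : η ^ 283 = 1) (c i : ℕ) :
    th c (η ^ 2 ^ i) = (-1) ^ i * th c η := by
  induction i with
  | zero => simp
  | succ i ih =>
    have h1 : (η ^ 2 ^ i) ^ 283 = 1 := by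
      rw [← pow_mul, mul_comm, pow_mul, h, one_pow]
    rw [pow_succ 2 i, pow_mul, th_sq h1, ih, pow_succ]
    ring

/-- `27 = 2^55` modulo `283` -/
theorem th_three {R : Type*} [CommRing R] {η : R} (h : η ^ 283 = 1) (c : ℕ) :
    th (c + 3) η = -th c η := by
  have h1 : th (c + 3) η = th c (η ^ 27) := by
    rw [show c + 3 = c + 1 + 1 + 1 from rfl, ← th_cube, ← th_cube, ← th_cube, ← pow_mul, ← pow_mul]
  have h2 : η ^ 27 = η ^ 2 ^ 55 := th_pow_congr h (by norm_num)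
  rw [h1, h2, th_two_pow h]
  norm_num

theorem th_ne_zero {K : Type*} [Field K] {η : K} (h : IsPrimitiveRoot η 283) (c : ℕ) :
    th c η ≠ 0 := by
  unfold th
  rw [Finset.prod_ne_zero_iff]
  intro i _ h0
  have hη : η ≠ 0 := h.ne_zero (by norm_num)
  have h1 : η ^ (3 ^ c * 2 ^ i) = 1 := by
    have h2 : η ^ (141 * (3 ^ c * 2 ^ i)) * η ^ (3 ^ c * 2 ^ i) =
        η ^ (141 * (3 ^ c * 2 ^ i)) * 1 := by
      rw [← pow_add, mul_one, ← sub_eq_zero.1 h0]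
      congr 1
      ring
    exact mul_left_cancel₀ (pow_ne_zero _ hη) h2
  have h3 := h.dvd_of_pow_eq_one _ h1
  have hp : Nat.Prime 283 := by norm_num
  rcases hp.dvd_mul.1 h3 with h4 | h4
  · have := hp.dvd_of_dvd_pow h4
    norm_num at this
  · have := hp.dvd_of_dvd_pow h4
    norm_num at this

theorem th_conj_eta {η : ℂ} (h : η ^ 283 = 1) : (starRingEnd ℂ) η = η ^ 2 ^ 47 := by
  have h1 : ‖η‖ = 1 := Complex.norm_eq_one_of_pow_eq_one h (by norm_num)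
  have h2 : η ^ 2 ^ 47 = η ^ 282 := th_pow_congr h (by norm_num)
  have h3 : η ≠ 0 := by
    intro h0
    rw [h0, norm_zero] at h1
    exact zero_ne_one h1
  have h4 : η * (starRingEnd ℂ) η = 1 := by
    rw [Complex.mul_conj, Complex.normSq_eq_norm_sq, h1]
    norm_num
  have h5 : η * η ^ 282 = 1 := by
    rw [← pow_succ']
    exact h
  rw [h2]
  exact mul_left_cancel₀ h3 (h4.trans h5.symm)

theorem th_conj {η : ℂ} (h : η ^ 283 = 1) (c : ℕ) :
    (starRingEnd ℂ) (th c η) = -th c η := by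
  rw [th_map, th_conj_eta h, th_two_pow h]
  norm_num

/-- `‖η^(142 x) − η^(141 x)‖ = ‖η^x − 1‖`, and the exponents `3^c 2^i`, `47 ≤ i < 94`, are the
negatives of those with `i < 47` -/
theorem norm_th {η : ℂ} (h : η ^ 283 = 1) (c : ℕ) :
    ‖th c η‖ ^ 2 = ∏ i ∈ range 94, ‖η ^ (3 ^ c * 2 ^ i) - 1‖ := by
  have h1 : ‖η‖ = 1 := Complex.norm_eq_one_of_pow_eq_one h (by norm_num)
  have h2 : ‖th c η‖ = ∏ i ∈ range 47, ‖η ^ (3 ^ c * 2 ^ i) - 1‖ := by
    unfold th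
    rw [norm_prod]
    refine Finset.prod_congr rfl fun i _ => ?_
    have e : η ^ (142 * (3 ^ c * 2 ^ i)) - η ^ (141 * (3 ^ c * 2 ^ i)) =
        η ^ (141 * (3 ^ c * 2 ^ i)) * (η ^ (3 ^ c * 2 ^ i) - 1) := by
      rw [mul_sub, mul_one, ← pow_add]
      congr 2
      ring
    rw [e, norm_mul, norm_pow, h1, one_pow, one_mul]
  have h3 : ∏ i ∈ range 47, ‖η ^ (3 ^ c * 2 ^ (47 + i)) - 1‖ =
      ∏ i ∈ range 47, ‖η ^ (3 ^ c * 2 ^ i) - 1‖ := by
    refine Finset.prod_congr rfl fun i _ => ?_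
    have e : η ^ (3 ^ c * 2 ^ (47 + i)) - 1 = (starRingEnd ℂ) (η ^ (3 ^ c * 2 ^ i) - 1) := by
      rw [map_sub, map_one, map_pow, th_conj_eta h, ← pow_mul]
      congr 2
      ring
    rw [e, RCLike.norm_conj]
  rw [show (94 : ℕ) = 47 + 47 from rfl, Finset.prod_range_add, h3, h2, sq]

end Pool.Agent.Lib_MP_e4b855_nt.Tri
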