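import Pool.Agent.Lib_MP_e4b855_nt.Tri.ClassB
import Pool.Agent.Lib_MP_e4b855_nt.Tri.Th
import Pool.Agent.Lib_MP_e4b855_nt.Tri.Two

/-!
# Part III: structure of the exponent vector at the top level
-/

namespace Pool.Agent.Lib_MP_e4b855_nt.Tri

open Finset

/-- `∑ v_n` over `n ≡ ± 283^(j-1) 3^c` modulo `283^j` -/
noncomputable def cls (j : ℕ) (v : ℕ →₀ ℤ) (c : ℕ) : ℤ :=
  cc (283 ^ j) v 0 ((283 ^ (j - 1) * 3 ^ c : ℕ) : ZMod (283 ^ j))

theorem cls_sub (j : ℕ) (v w : ℕ →₀ ℤ) (c : ℕ) : cls j (v - w) c = cls j v c - cls j w c :=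
  cc_sub _ _ _ _ _

/-- the hypotheses on `v = d_i - d_{i+2}` -/
structure TopLev (j μ : ℕ) (v : ℕ →₀ ℤ) : Prop where
  hj : 0 < j
  hμ : 0 < μ
  A : ∀ r, 0 < r → r < j → ∀ ξ : ℂ, IsPrimitiveRoot ξ (283 ^ r) → Pk v 0 ξ = 0
  B : ∀ ζ : ℂ, IsPrimitiveRoot ζ (283 ^ j) → Pk v 0 (ζ ^ 2) = Pk v 0 ζ
  C : ∀ r, r ≤ j → ∀ ξ : ℂ, IsPrimitiveRoot ξ (283 ^ r) → ∀ k, 0 < k → k < μ → Pk v k ξ = 0
  D : ∀ r, r ≤ j → lev v (283 ^ r) = 0

variable {j μ : ℕ} {v : ℕ →₀ ℤ}

private theorem cle_ord {j : ℕ} {ξ : ℂ} (h : ξ ^ 283 ^ j = 1) :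
    ∃ r ≤ j, IsPrimitiveRoot ξ (283 ^ r) := by
  have h1 : orderOf ξ ∣ 283 ^ j := orderOf_dvd_of_pow_eq_one h
  obtain ⟨r, hr, hr'⟩ := (Nat.dvd_prime_pow (by norm_num : Nat.Prime 283)).1 h1
  exact ⟨r, hr, hr' ▸ IsPrimitiveRoot.orderOf ξ⟩

private theorem cle_one (v : ℕ →₀ ℤ) (h : lev v 1 = 0) : Pk v 0 1 = 0 := by
  have h1 : (lev v 1 : ℂ) = 0 := by rw [h, Int.cast_zero]
  simp only [lev, Finsupp.sum, one_dvd, if_true, Int.cast_sum] at h1
  simp only [Pk, Finsupp.sum, pow_zero, one_pow, inv_one, mul_one]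
  rw [← Finset.sum_mul, h1, zero_mul]

/-- `cc_two` with `N = 283^j`: the hypothesis holds at all `ξ` with `ξ^N = 1` (at lower orders both
sides are `0`; at `ξ = 1`, `Pk v 0 1 = 2 lev v 1 = 0`) -/
theorem TopLev.two (h : TopLev j μ v) (x : ZMod (283 ^ j)) :
    cc (283 ^ j) v 0 (2 * x) = cc (283 ^ j) v 0 x := by
  apply cc_two (Odd.pow (by decide))
  intro ξ hξ
  obtain ⟨r, hr, hr'⟩ := cle_ord hξ
  rcases Nat.eq_zero_or_pos r with rfl | hr0
  · have h1 : ξ = 1 := by simpa using hr'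
    rw [h1, one_pow]
  · rcases Nat.lt_or_ge r j with hlt | hge
    · rw [h.A r hr0 hlt ξ hr', h.A r hr0 hlt (ξ ^ 2)]
      apply hr'.pow_of_coprime
      exact Nat.Coprime.pow_right _ (by norm_num)
    · have : r = j := le_antisymm hr hge
      subst this
      exact h.B ξ hr'

/-- `cc_eq_zero` at level `j - 1` and `cc_red` -/
theorem TopLev.red (h : TopLev j μ v) (x : ℕ) :
    ∑ t ∈ range 283, cc (283 ^ j) v 0 ((x + 283 ^ (j - 1) * t : ℕ) : ZMod (283 ^ j)) = 0 := by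
  have key : ∀ N : ℕ, N = 283 ^ (j - 1) * 283 →
      ∑ t ∈ range 283, cc N v 0 ((x + 283 ^ (j - 1) * t : ℕ) : ZMod N) =
        cc (283 ^ (j - 1)) v 0 (x : ZMod (283 ^ (j - 1))) := by
    rintro N rfl
    exact cc_red v 0 x
  rw [key (283 ^ j) (by rw [← pow_succ, Nat.sub_add_cancel h.hj])]
  apply cc_eq_zero
  intro ξ hξ
  obtain ⟨r, hr, hr'⟩ := cle_ord hξ
  rcases Nat.eq_zero_or_pos r with rfl | hr0
  · have h1 : ξ = 1 := by simpa using hr'
    rw [h1]
    apply cle_one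
    simpa using h.D 0 (Nat.zero_le _)
  · exact h.A r hr0 (by have := h.hj; omega) ξ hr'

private theorem cle_two_pow (h : TopLev j μ v) (i : ℕ) (x : ZMod (283 ^ j)) :
    cc (283 ^ j) v 0 (2 ^ i * x) = cc (283 ^ j) v 0 x := by
  induction i with
  | zero => rw [pow_zero, one_mul]
  | succ i ih => rw [pow_succ', mul_assoc, h.two, ih]

/-- by `pow_two_lift` and `two`: `cc` is invariant under multiplication by `1 + 283 u` -/
theorem TopLev.one_mod (h : TopLev j μ v) (x : ZMod (283 ^ j)) (u : ℤ) :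
    cc (283 ^ j) v 0 ((1 + 283 * (u : ZMod (283 ^ j))) * x) = cc (283 ^ j) v 0 x := by
  obtain ⟨i', hi'⟩ := pow_two_lift h.hj (x := 1 + 283 * u) (i := 0) ⟨u, by ring⟩
  have h1 : ((1 + 283 * u : ℤ) : ZMod (283 ^ j)) = ((2 ^ i' : ℤ) : ZMod (283 ^ j)) := by
    rw [eq_comm, ZMod.intCast_eq_intCast_iff_dvd_sub]
    push_cast
    exact hi'
  push_cast at h1
  rw [h1, cle_two_pow h]

/-- if `x = 283^s h` with `s < j - 1`, `283 ∤ h` then `x + 283^(j-1) t = x (1 + 283 u)`, so all the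
terms of `red` are equal to `cc x`, hence `283 cc x = 0` -/
theorem TopLev.supp (h : TopLev j μ v) {x : ℕ} (hx : ¬ 283 ^ (j - 1) ∣ x) :
    cc (283 ^ j) v 0 (x : ZMod (283 ^ j)) = 0 := by
  have hx0 : x ≠ 0 := by
    rintro rfl
    exact hx (dvd_zero _)
  obtain ⟨s, y, hy, hxy⟩ := Nat.exists_eq_pow_mul_and_not_dvd hx0 283 (by norm_num)
  have hs : s < j - 1 := by
    by_contra hcon
    apply hx
    rw [hxy]
    exact Dvd.dvd.mul_right (pow_dvd_pow _ (by omega)) _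
  have hcop : Nat.Coprime y (283 ^ j) := by
    apply Nat.Coprime.pow_right
    rw [Nat.coprime_comm]
    exact (Nat.Prime.coprime_iff_not_dvd (by norm_num)).2 hy
  have hinv : (y : ZMod (283 ^ j)) * (y : ZMod (283 ^ j))⁻¹ = 1 := ZMod.coe_mul_inv_eq_one y hcop
  have hterm : ∀ t ∈ range 283, cc (283 ^ j) v 0 ((x + 283 ^ (j - 1) * t : ℕ) : ZMod (283 ^ j)) =
      cc (283 ^ j) v 0 (x : ZMod (283 ^ j)) := by
    intro t _
    set u : ℤ := (((y : ZMod (283 ^ j))⁻¹).val : ℤ) * 283 ^ (j - 2 - s) * t with hu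
    rw [← h.one_mod (x : ZMod (283 ^ j)) u]
    congr 1
    rw [hxy, hu]
    push_cast
    rw [ZMod.natCast_zmod_val]
    have e1 : (283 : ZMod (283 ^ j)) ^ (j - 1) = 283 ^ s * (283 * 283 ^ (j - 2 - s)) := by
      rw [← pow_succ', ← pow_add]
      congr 1
      omega
    rw [e1]
    linear_combination (-(283 : ZMod (283 ^ j)) ^ s * 283 * 283 ^ (j - 2 - s) * t) * hinv
  have h1 := h.red x
  rw [Finset.sum_congr rfl hterm, Finset.sum_const, card_range] at h1
  have h2 : (283 : ℤ) * cc (283 ^ j) v 0 (x : ZMod (283 ^ j)) = 0 := by simpa using h1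
  omega

/-- for `y = 283^(j-1) · 3^c 2^i` -/
theorem TopLev.val (h : TopLev j μ v) (c i : ℕ) :
    cc (283 ^ j) v 0 ((283 ^ (j - 1) * (3 ^ c * 2 ^ i) : ℕ) : ZMod (283 ^ j)) = cls j v c := by
  rw [cls, ← cle_two_pow h i ((283 ^ (j - 1) * 3 ^ c : ℕ) : ZMod (283 ^ j))]
  congr 1
  push_cast
  ring

private theorem cle_mod (hj : 0 < j) {a b : ℕ} (hab : ((a : ℕ) : ZMod 283) = ((b : ℕ) : ZMod 283)) :
    ((283 ^ (j - 1) * a : ℕ) : ZMod (283 ^ j)) = ((283 ^ (j - 1) * b : ℕ) : ZMod (283 ^ j)) := by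
  rw [ZMod.natCast_eq_natCast_iff] at hab ⊢
  have h1 : 283 ^ j = 283 ^ (j - 1) * 283 := by
    rw [← pow_succ, Nat.sub_add_cancel hj]
  rw [h1]
  exact Nat.ModEq.mul_left' _ hab

/-- `red` at `x = 0`, `cc_zero_zero`, `D`, `val` and `sum_classes` give `94 (e_0 + e_1 + e_2) = 0` -/
theorem TopLev.sum (h : TopLev j μ v) : cls j v 0 + cls j v 1 + cls j v 2 = 0 := by
  have h1 := h.red 0
  set f : ZMod 283 → ℤ := fun y => cc (283 ^ j) v 0 ((283 ^ (j - 1) * y.val : ℕ) : ZMod (283 ^ j))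
    with hf
  have h2 : ∑ t ∈ range 283, cc (283 ^ j) v 0 ((0 + 283 ^ (j - 1) * t : ℕ) : ZMod (283 ^ j)) =
      ∑ y : ZMod 283, f y := by
    rw [Finset.sum_range]
    simp only [zero_add]
    rfl
  rw [h2, ← Finset.add_sum_erase univ f (Finset.mem_univ 0), sum_classes] at h1
  have h3 : f 0 = 0 := by
    rw [hf]
    simp only [ZMod.val_zero, mul_zero, Nat.cast_zero]
    rw [cc_zero_zero, h.D j le_rfl, mul_zero]
  have h4 : ∀ c ∈ range 3, ∑ i ∈ range 94, f ((3 ^ c * 2 ^ i : ℕ) : ZMod 283) =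
      94 * cls j v c := by
    intro c _
    have : ∀ i ∈ range 94, f ((3 ^ c * 2 ^ i : ℕ) : ZMod 283) = cls j v c := by
      intro i _
      rw [← h.val c i, hf]
      simp only []
      congr 1
      apply cle_mod h.hj
      rw [ZMod.natCast_zmod_val]
    rw [Finset.sum_congr rfl this, Finset.sum_const, card_range]
    simp
  rw [h3, Finset.sum_congr rfl h4, Finset.sum_range_succ, Finset.sum_range_succ,
    Finset.sum_range_succ, Finset.sum_range_zero] at h1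
  omega

/-- `cc_dvd` and `cc_eq_zero` for `1 ≤ k < μ` -/
theorem TopLev.dvd (h : TopLev j μ v) (c : ℕ) : (283 : ℤ) ^ (μ - 1) ∣ cls j v c := by
  have key : ∀ N : ℕ, N = 283 ^ (j - 1) * 283 → (∀ k, 0 < k → k < μ →
      cc N v k ((283 ^ (j - 1) * 3 ^ c : ℕ) : ZMod N) = 0) →
      (283 : ℤ) ^ (μ - 1) ∣ cc N v 0 ((283 ^ (j - 1) * 3 ^ c : ℕ) : ZMod N) := by
    rintro N rfl H
    refine cc_dvd (by norm_num) (by norm_num) (by positivity) ?_ v h.hμ H
    intro h3
    have := Nat.Prime.dvd_of_dvd_pow (by norm_num : Nat.Prime 283) h3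
    omega
  refine key (283 ^ j) (by rw [← pow_succ, Nat.sub_add_cancel h.hj]) ?_
  intro k hk0 hk
  apply cc_eq_zero
  intro ξ hξ
  obtain ⟨r, hr, hr'⟩ := cle_ord hξ
  exact h.C r hr ξ hr' k hk0 hk

/-- `sum_log_cc`, `supp`, `val`, `sum_classes` and `norm_th` -/
theorem TopLev.log (h : TopLev j μ v) {ζ : ℂ} (hζ : IsPrimitiveRoot ζ (283 ^ j)) :
    (v.sum fun n a => if 283 ^ j ∣ n then 0 else (a : ℝ) * Real.log ‖ζ ^ n - 1‖) =
      ∑ c ∈ range 3, (cls j v c : ℝ) * Real.log ‖th c (ζ ^ 283 ^ (j - 1))‖ := by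
  have h0 := sum_log_cc v hζ
  set g : ZMod (283 ^ j) → ℝ := fun x => (cc (283 ^ j) v 0 x : ℝ) * Real.log ‖ζ ^ x.val - 1‖ with hg
  have hN : 283 ^ j = 283 ^ (j - 1) * 283 := by
    rw [← pow_succ, Nat.sub_add_cancel h.hj]
  set η := ζ ^ 283 ^ (j - 1) with hη
  have hη1 : η ^ 283 = 1 := by
    rw [hη, ← pow_mul, ← hN, hζ.pow_eq_one]
  have hηp : IsPrimitiveRoot η 283 := by
    rw [hη]
    exact hζ.pow (by positivity) hN
  have hval : ∀ n : ℕ, ζ ^ (n : ZMod (283 ^ j)).val = ζ ^ n := by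
    intro n
    rw [ZMod.val_natCast]
    exact (pow_mod_orderOf ζ n).symm ▸ by rw [← hζ.eq_orderOf]
  set e : ZMod 283 → ZMod (283 ^ j) := fun y => ((283 ^ (j - 1) * y.val : ℕ) : ZMod (283 ^ j))
    with he
  have h1 : ∑ y ∈ univ.erase (0 : ZMod 283), g (e y) = ∑ x ∈ univ.erase (0 : ZMod (283 ^ j)), g x := by
    refine Finset.sum_of_injOn e ?_ ?_ ?_ ?_
    · intro a _ b _ hab
      simp only [he] at hab
      rw [ZMod.natCast_eq_natCast_iff, hN] at hab
      have h2 := Nat.ModEq.mul_left_cancel' (by positivity) hab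
      have h3 : a.val = b.val := by
        have := h2.eq_of_lt_of_lt (ZMod.val_lt a) (ZMod.val_lt b)
        exact this
      exact ZMod.val_injective _ h3
    · intro a ha
      simp only [Finset.coe_erase, Finset.coe_univ, Set.mem_sdiff, Set.mem_univ, true_and,
        Set.mem_singleton_iff] at ha ⊢
      intro h2
      apply ha
      simp only [he] at h2
      rw [ZMod.natCast_eq_zero_iff, hN] at h2
      have h3 := Nat.dvd_of_mul_dvd_mul_left (by positivity) h2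
      have h4 := Nat.eq_zero_of_dvd_of_lt h3 (ZMod.val_lt a)
      exact (ZMod.val_eq_zero a).1 h4
    · intro x hx hx'
      have h2 : ¬ 283 ^ (j - 1) ∣ x.val := by
        rintro ⟨t, ht⟩
        apply hx'
        have ht2 : t < 283 := by
          have := ZMod.val_lt x
          rw [ht, hN] at this
          exact Nat.lt_of_mul_lt_mul_left this
        have h5 : (t : ZMod 283).val = t := ZMod.val_cast_of_lt ht2
        refine ⟨(t : ZMod 283), ?_, ?_⟩
        · simp only [Finset.coe_erase, Finset.coe_univ, Set.mem_sdiff, Set.mem_univ, true_and,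
            Set.mem_singleton_iff]
          intro h6
          have h7 : t = 0 := by rw [← h5, h6, ZMod.val_zero]
          have h8 : x = 0 := by
            rw [← ZMod.val_eq_zero x, ht, h7, mul_zero]
          exact (Finset.mem_erase.1 hx).1 h8
        · simp only [he]
          rw [h5, ← ht, ZMod.natCast_zmod_val]
      have h3 := h.supp h2
      rw [ZMod.natCast_zmod_val] at h3
      rw [hg]
      simp only [h3, Int.cast_zero, zero_mul]
    · intro a _
      rfl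
  have h2 : ∀ y : ZMod 283, g (e y) =
      (cc (283 ^ j) v 0 (e y) : ℝ) * Real.log ‖η ^ y.val - 1‖ := by
    intro y
    simp only [hg, he]
    rw [hval, pow_mul]
  have hvalη : ∀ n : ℕ, η ^ (n : ZMod 283).val = η ^ n := by
    intro n
    rw [ZMod.val_natCast]
    exact (pow_mod_orderOf η n).symm ▸ by rw [← hηp.eq_orderOf]
  rw [← h1, sum_classes] at h0
  have h3 : ∀ c ∈ range 3, ∑ i ∈ range 94, g (e ((3 ^ c * 2 ^ i : ℕ) : ZMod 283)) =
      2 * ((cls j v c : ℝ) * Real.log ‖th c η‖) := by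
    intro c _
    have h4 : ∀ i ∈ range 94, g (e ((3 ^ c * 2 ^ i : ℕ) : ZMod 283)) =
        (cls j v c : ℝ) * Real.log ‖η ^ (3 ^ c * 2 ^ i) - 1‖ := by
      intro i _
      rw [h2, hvalη, ← h.val c i]
      congr 3
      simp only [he]
      apply cle_mod h.hj
      rw [ZMod.natCast_zmod_val]
    rw [Finset.sum_congr rfl h4, ← Finset.mul_sum, ← Real.log_prod, ← norm_th hη1, Real.log_pow]
    · push_cast
      ring
    · intro i _ h5
      rw [norm_eq_zero, sub_eq_zero, hηp.pow_eq_one_iff_dvd] at h5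
      have h283 : Nat.Prime 283 := by norm_num
      rcases (Nat.Prime.dvd_mul h283).1 h5 with h6 | h6
      · have := Nat.Prime.dvd_of_dvd_pow h283 h6
        omega
      · have := Nat.Prime.dvd_of_dvd_pow h283 h6
        omega
  rw [Finset.sum_congr rfl h3, ← Finset.mul_sum] at h0
  exact mul_left_cancel₀ two_ne_zero h0

end Pool.Agent.Lib_MP_e4b855_nt.Tri
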