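import Mathlib
import Pool.Agent.Lib_MP_e4b855_nt.Reflection

/-!
# Definitions for the proof that `M(k) = 2` for all `k ≥ 4`

Conventions (see BLUEPRINT.md).  `m = k + 1` is even.  All derivatives are with respect to `t`
in `x = ζ e^t`.
-/

namespace Pool.Agent.Lib_MP_e4b855_nt.Tri

open PowerSeries Finset

/-- the power series `e^{a t}` -/
noncomputable def ee (a : ℂ) : ℂ⟦X⟧ := rescale a (exp ℂ)

/-- the power series `∑_{a ∈ A} (ζ e^{s t})^a` -/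
noncomputable def J (A : Finset ℤ) (ζ s : ℂ) : ℂ⟦X⟧ :=
  ∑ a ∈ A, C (ζ ^ a) * ee (s * a)

/-- `D^k P_v (ξ) = ∑_n v_n n^k (ξ^n + (-1)^k ξ^{-n})`, where `P_v = ∑_n v_n (x^n + x^{-n})`. -/
noncomputable def Pk (v : ℕ →₀ ℤ) (k : ℕ) (ξ : ℂ) : ℂ :=
  v.sum fun n c => (c : ℂ) * (n : ℂ) ^ k * (ξ ^ n + (-1) ^ k * (ξ ^ n)⁻¹)

/-- `D^k W_v (ζ)` for `k ≥ 1` and `ζ ^ (p ^ j) = 1`, where `W_v = ∑_r p^{-r} P_v (x^{p^r})`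
(regularised; for `k = 1` the last term is `0 / 0 = 0`). -/
noncomputable def Wk (p j : ℕ) (v : ℕ →₀ ℤ) (k : ℕ) (ζ : ℂ) : ℂ :=
  ∑ i ∈ range j, ((p : ℂ) ^ i) ^ (k - 1) * Pk v k (ζ ^ p ^ i) +
    ((p : ℂ) ^ j) ^ (k - 1) * Pk v k 1 / (1 - (p : ℂ) ^ (k - 1))

/-- the part of `D^k W_v (ζ)` coming from the first `j` terms, any `k ≥ 0` (for `k = 0` the factor
is `p^{-i}`) -/
noncomputable def Wz (p j : ℕ) (v : ℕ →₀ ℤ) (k : ℕ) (ζ : ℂ) : ℂ :=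
  ∑ i ∈ range j, ((p : ℂ) ^ i) ^ ((k : ℤ) - 1) * Pk v k (ζ ^ p ^ i)

/-- the coefficients of `s / (y e^s - 1) = ∑_k bk N k y s^k / k!` for `y ^ N = 1` -/
noncomputable def bk (N k : ℕ) (y : ℂ) : ℂ :=
  (N : ℂ) ^ k / N * ∑ r ∈ range N, y ^ r * (Polynomial.aeval ((r : ℂ) / N) (Polynomial.bernoulli k))

/-- `s / (y e^s - 1)` -/
noncomputable def bser (N : ℕ) (y : ℂ) : ℂ⟦X⟧ := PowerSeries.mk fun k => bk N k y / k.factorial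

/-- `D^k log F_v (ζ)` for `ζ ^ N = 1`, `k ≥ 1` (regular part), `F_v = ∏ (x^{n/2} - x^{-n/2})^{v_n}` -/
noncomputable def Lam (N k : ℕ) (v : ℕ →₀ ℤ) (ζ : ℂ) : ℂ :=
  v.sum fun n c => (c : ℂ) * (n : ℂ) ^ k * (bk N k (ζ ^ n) + if k = 1 then 1 / 2 else 0)

/-- `t d/dt log F_v (ζ e^t)` for `ζ ^ N = 1` -/
noncomputable def LamS (N : ℕ) (v : ℕ →₀ ℤ) (ζ : ℂ) : ℂ⟦X⟧ :=
  PowerSeries.mk fun k => Lam N k v ζ / k.factorial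

/-- `∑_{N ∣ n} v_n` -/
def lev (v : ℕ →₀ ℤ) (N : ℕ) : ℤ := v.sum fun n c => if N ∣ n then c else 0

/-- `T_2 v - v` -/
noncomputable def tw (v : ℕ →₀ ℤ) : ℕ →₀ ℤ := v.mapDomain (fun n => 2 * n) - v

/-- the product `c · e^{-a t} · ∏_n ((ζ e^{s t})^n - 1)^{v_n}` as a Laurent series -/
noncomputable def FF (v : ℕ →₀ ℤ) (ζ s : ℂ) : LaurentSeries ℂ :=
  v.prod fun n c => ((C (ζ ^ n) * ee (s * n) - 1 : ℂ⟦X⟧) : LaurentSeries ℂ) ^ c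

end Pool.Agent.Lib_MP_e4b855_nt.Tri
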