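import Pool.Agent.Lib_MP_e4b855_nt.Tri.Trip

/-!
# Part III: a triple with small entries
-/

namespace Pool.Agent.Lib_MP_e4b855_nt.Tri

open Finset

namespace Trip

/-- representative of `t a` modulo `q` of least absolute value -/
def Desc_phi (q : ℕ) (t a : ℤ) : ℤ := ((t * a : ℤ) : ZMod q).valMinAbs

theorem Desc_eq {q : ℕ} [NeZero q] {t a r : ℤ}
    (h : ((t * a : ℤ) : ZMod q) = ((r : ℤ) : ZMod q)) (hr : 2 * |r| < q) :
    Desc_phi q t a = r := by
  unfold Desc_phi
  rw [ZMod.valMinAbs_spec]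
  refine ⟨h, ?_, ?_⟩
  · have := neg_abs_le r
    linarith
  · have := le_abs_self r
    linarith

theorem Desc_coe {q : ℕ} (t a : ℤ) :
    ((Desc_phi q t a : ℤ) : ZMod q) = ((t * a : ℤ) : ZMod q) := ZMod.coe_valMinAbs _

theorem Desc_neg {q : ℕ} [NeZero q] {t a : ℤ} (h : 2 * |Desc_phi q t a| < q) :
    Desc_phi q t (-a) = -Desc_phi q t a := by
  apply Desc_eq
  · have := Desc_coe (q := q) t a
    push_cast at this ⊢
    rw [this]
    ring
  · rwa [abs_neg]

theorem Desc_add {q : ℕ} [NeZero q] {t a b : ℤ}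
    (h : 2 * |Desc_phi q t a + Desc_phi q t b| < q) :
    Desc_phi q t (a + b) = Desc_phi q t a + Desc_phi q t b := by
  apply Desc_eq
  · have h1 := Desc_coe (q := q) t a
    have h2 := Desc_coe (q := q) t b
    push_cast at h1 h2 ⊢
    rw [h1, h2]
    ring
  · exact h

theorem Desc_three {q : ℕ} [NeZero q] {t a b c : ℤ}
    (h : 2 * |Desc_phi q t a + Desc_phi q t b - Desc_phi q t c| < q) :
    Desc_phi q t (a + b - c) = Desc_phi q t a + Desc_phi q t b - Desc_phi q t c := by
  apply Desc_eq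
  · have h1 := Desc_coe (q := q) t a
    have h2 := Desc_coe (q := q) t b
    have h3 := Desc_coe (q := q) t c
    push_cast at h1 h2 h3 ⊢
    rw [h1, h2, h3]
    ring
  · exact h

theorem Desc_box {q : ℕ} (hq : 0 < q) {k : ℤ} (hk : 0 ≤ k) {v₁ v₂ : ℤ}
    (h : (k * (v₁ % q)) / q = (k * (v₂ % q)) / q) :
    k * |v₁ % q - v₂ % q| < q := by
  have hq' : (0 : ℤ) < q := by exact_mod_cast hq
  have h1 := Int.emod_add_mul_ediv (k * (v₁ % q)) q
  have h2 := Int.emod_add_mul_ediv (k * (v₂ % q)) q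
  have h3 := Int.emod_nonneg (k * (v₁ % q)) hq'.ne'
  have h4 := Int.emod_lt_of_pos (k * (v₁ % q)) hq'
  have h5 := Int.emod_nonneg (k * (v₂ % q)) hq'.ne'
  have h6 := Int.emod_lt_of_pos (k * (v₂ % q)) hq'
  rw [h] at h1
  have h7 : k * |v₁ % q - v₂ % q| = |k * (v₁ % q) - k * (v₂ % q)| := by
    rw [← mul_sub, abs_mul, abs_of_nonneg hk]
  rw [h7, abs_lt]
  constructor <;> linarith

theorem Desc_range {q : ℕ} (hq : 0 < q) {k : ℤ} (hk : 0 < k) (v : ℤ) :
    (k * (v % q)) / q ∈ Finset.Ico (0 : ℤ) k := by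
  have hq' : (0 : ℤ) < q := by exact_mod_cast hq
  have h3 := Int.emod_nonneg v hq'.ne'
  have h4 := Int.emod_lt_of_pos v hq'
  rw [Finset.mem_Ico]
  refine ⟨Int.ediv_nonneg (mul_nonneg hk.le h3) hq'.le, ?_⟩
  exact Int.ediv_lt_of_lt_mul hq' (mul_lt_mul_of_pos_left h4 hk)

theorem Desc_phi_of_box {q : ℕ} [NeZero q] {k : ℤ} (hk : 2 ≤ k) {τ₁ τ₂ a : ℤ}
    (h : (k * ((τ₁ * a) % q)) / q = (k * ((τ₂ * a) % q)) / q) :
    k * |Desc_phi q (τ₁ - τ₂) a| < q := by
  have hq : 0 < q := Nat.pos_of_ne_zero (NeZero.ne q)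
  have h1 := Desc_box hq (by linarith) h
  have h2 : Desc_phi q (τ₁ - τ₂) a = (τ₁ * a) % q - (τ₂ * a) % q := by
    apply Desc_eq
    · push_cast
      ring
    · refine lt_of_le_of_lt ?_ h1
      exact mul_le_mul_of_nonneg_right hk (abs_nonneg _)
  rw [h2]
  exact h1

theorem Desc_mem_pairSums {X : Finset ℤ} {a b : ℤ} (ha : a ∈ X) (hb : b ∈ X) (hab : a ≠ b) :
    a + b ∈ pairSums X := by
  unfold pairSums
  rw [Multiset.mem_map]
  refine ⟨{a, b}, ?_, Finset.sum_pair hab⟩
  rw [Finset.mem_val, Finset.mem_powersetCard]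
  refine ⟨?_, Finset.card_pair hab⟩
  intro x hx
  rw [Finset.mem_insert, Finset.mem_singleton] at hx
  rcases hx with rfl | rfl
  · exact ha
  · exact hb

theorem Desc_exists_of_mem {X : Finset ℤ} {v : ℤ} (h : v ∈ pairSums X) :
    ∃ a ∈ X, ∃ b ∈ X, a + b = v := by
  unfold pairSums at h
  rw [Multiset.mem_map] at h
  obtain ⟨s, hs, rfl⟩ := h
  rw [Finset.mem_val, Finset.mem_powersetCard] at hs
  obtain ⟨hs1, hs2⟩ := hs
  obtain ⟨a, b, hab, rfl⟩ := Finset.card_eq_two.mp hs2
  exact ⟨a, hs1 (by simp), b, hs1 (by simp), by rw [Finset.sum_pair hab]⟩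

theorem Desc_pairSums_image {X : Finset ℤ} {f : ℤ → ℤ} (hinj : Set.InjOn f X)
    (hadd : ∀ a ∈ X, ∀ b ∈ X, f (a + b) = f a + f b) :
    pairSums (X.image f) = (pairSums X).map f := by
  rw [pairSums_eq, pairSums_eq, Finset.image_val_of_injOn hinj, Multiset.powersetCard_map,
    Multiset.map_map, Multiset.map_map]
  apply Multiset.map_congr rfl
  intro s hs
  obtain ⟨hs1, hs2⟩ := Multiset.mem_powersetCard.mp hs
  obtain ⟨a, b, rfl⟩ := Multiset.card_eq_two.mp hs2
  have ha : a ∈ X := Multiset.mem_of_le hs1 (by simp)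
  have hb : b ∈ X := Multiset.mem_of_le hs1 (by simp)
  simp [hadd a ha b hb]

/-- One step of the descent.  Let `q` be a prime with `2 n < q ≤ 4 n` (Bertrand,
`Nat.exists_prime_lt_and_le_two_mul`).  `0 ∉ S_l` (the cardinality is even and `S_l = -S_l`), so
`S_0` has 256 positive elements `x`.  Fix `y ∈ S_1`, `z ∈ S_2`.  As
`9^256 · 40^2 < 2^823 < q`, the pigeonhole principle for `τ ∈ {0, …, q-1}` and the boxes
`⌊9 (τ x mod q)/q⌋` (256 of them), `⌊40 (τ y mod q)/q⌋`, `⌊40 (τ z mod q)/q⌋` gives two values of `τ`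
with the same boxes; let `t` be their difference (`q ∤ t`), `φ(a)` the representative of `t a`
modulo `q` of least absolute value.  Then `|φ| < q/9` on `S_0` and `|φ(y)|, |φ(z)| < q/40`.  For
`a ∈ S_1`, `a ≠ y`: `a + y ∈ pairSums S_1 = pairSums S_0`, so `a = s + s' - y` and
`|φ(a)| < (2/9 + 1/40) q < q/4` (the bound shows `φ(a) = φ(s) + φ(s') - φ(y)`); the same for `S_2`.
So `|φ| < q/4 ≤ n` on the three sets, `φ` is injective on their union (`|a - a'| ≤ 2 n < q`), odd,
and `φ(a) + φ(b)` (`< q/2` in absolute value) is the least residue of `t (a + b)`, so the pair sums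
of the three images agree. -/
theorem small_step (T : Trip 10) {n : ℕ} (hn : 2 ^ 822 < n) (hT : ∀ l, ∀ a ∈ T.S l, |a| ≤ n) :
    ∃ T' : Trip 10, ∀ l, ∀ a ∈ T'.S l, |a| < n := by
  classical
  have hn0 : 0 < n := lt_of_le_of_lt (Nat.zero_le _) hn
  obtain ⟨q, hqp, hq1, hq2⟩ := Nat.exists_prime_lt_and_le_two_mul (2 * n) (by positivity)
  have hq0 : 0 < q := hqp.pos
  have : NeZero q := ⟨hq0.ne'⟩
  have hq823 : 2 ^ 823 < q := by
    have h1 : (2 : ℕ) ^ 823 = 2 ^ 822 * 2 := pow_succ 2 822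
    calc (2 : ℕ) ^ 823 = 2 ^ 822 * 2 := h1
      _ < n * 2 := Nat.mul_lt_mul_of_pos_right hn (by norm_num)
      _ = 2 * n := Nat.mul_comm _ _
      _ < q := hq1
  have hq1' : 2 * (n : ℤ) < q := by exact_mod_cast hq1
  have hq2' : (q : ℤ) ≤ 4 * n := by
    have : (q : ℤ) ≤ 2 * (2 * n) := by exact_mod_cast hq2
    linarith
  have hq0' : (0 : ℤ) < q := by exact_mod_cast hq0
  have hcard : ∀ l, (T.S l).card = 512 := by
    intro l
    rw [T.card l]
    norm_num
  have hne : ∀ l, (T.S l).Nonempty := by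
    intro l
    rw [← Finset.card_pos, hcard l]
    norm_num
  obtain ⟨y, hy⟩ := hne 1
  obtain ⟨z, hz⟩ := hne 2
  set P : Finset ℤ := (T.S 0).filter (fun x => 0 < x) with hP
  have hPcard : P.card ≤ 256 := by
    have h1 : Disjoint P (P.image (fun x => -x)) := by
      rw [Finset.disjoint_left]
      intro a ha hb
      rw [Finset.mem_image] at hb
      obtain ⟨b, hb, hba⟩ := hb
      have h2 : 0 < a := (Finset.mem_filter.mp ha).2
      have h3 : 0 < b := (Finset.mem_filter.mp hb).2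
      linarith
    have h2 : P ∪ P.image (fun x => -x) ⊆ T.S 0 := by
      intro a ha
      rw [Finset.mem_union] at ha
      rcases ha with ha | ha
      · exact (Finset.mem_filter.mp ha).1
      · rw [Finset.mem_image] at ha
        obtain ⟨b, hb, rfl⟩ := ha
        exact T.symm 0 b (Finset.mem_filter.mp hb).1
    have h3 := Finset.card_le_card h2
    rw [Finset.card_union_of_disjoint h1, Finset.card_image_of_injective _ neg_injective,
      hcard 0] at h3
    omega
  -- pigeonhole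
  set f : ℤ → ((P → ℤ) × ℤ × ℤ) := fun τ => (fun x => (9 * ((τ * (x : ℤ)) % q)) / q,
    (40 * ((τ * y) % q)) / q, (40 * ((τ * z) % q)) / q) with hf
  set B : Finset ((P → ℤ) × ℤ × ℤ) := (Fintype.piFinset fun _ : P => Finset.Ico (0 : ℤ) 9) ×ˢ
    (Finset.Ico (0 : ℤ) 40 ×ˢ Finset.Ico (0 : ℤ) 40) with hB
  have hBcard : B.card < (Finset.Ico (0 : ℤ) q).card := by
    have h1 : B.card = 9 ^ P.card * (40 * 40) := by
      rw [hB, Finset.card_product, Finset.card_product, Fintype.card_piFinset]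
      simp
    have h2 : (Finset.Ico (0 : ℤ) q).card = q := by simp
    rw [h1, h2]
    calc 9 ^ P.card * (40 * 40) ≤ 9 ^ 256 * (40 * 40) :=
          Nat.mul_le_mul_right _ (Nat.pow_le_pow_right (by norm_num) hPcard)
      _ < 2 ^ 823 := by decide +kernel
      _ < q := hq823
  obtain ⟨τ₁, hτ₁, τ₂, hτ₂, hτ, hfτ⟩ :=
    Finset.exists_ne_map_eq_of_card_lt_of_maps_to hBcard (f := f) (by
      intro τ _
      simp only [hB, hf, Finset.mem_coe, Finset.mem_product, Fintype.mem_piFinset]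
      exact ⟨fun x => Desc_range hq0 (by norm_num) _, Desc_range hq0 (by norm_num) _,
        Desc_range hq0 (by norm_num) _⟩)
  simp only [hf, Prod.mk.injEq] at hfτ
  obtain ⟨hf1, hf2, hf3⟩ := hfτ
  rw [Finset.mem_Ico] at hτ₁ hτ₂
  clear hBcard hq823 hn
  set t : ℤ := τ₁ - τ₂ with ht
  have ht0 : ((t : ℤ) : ZMod q) ≠ 0 := by
    intro h
    rw [ZMod.intCast_zmod_eq_zero_iff_dvd] at h
    have h1 : t = 0 := by
      apply Int.eq_zero_of_abs_lt_dvd h
      rw [abs_lt]
      constructor <;> linarith [hτ₁.1, hτ₁.2, hτ₂.1, hτ₂.2]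
    exact hτ (by linarith)
  set φ : ℤ → ℤ := Desc_phi q t with hφ
  have hφP : ∀ x ∈ P, 9 * |φ x| < q := fun x hx =>
    Desc_phi_of_box (by norm_num) (congrFun hf1 ⟨x, hx⟩)
  have hφy : 40 * |φ y| < q := Desc_phi_of_box (by norm_num) hf2
  have hφz : 40 * |φ z| < q := Desc_phi_of_box (by norm_num) hf3
  have hφ0 : ∀ x ∈ T.S 0, 9 * |φ x| < q := by
    intro x hx
    rcases lt_trichotomy x 0 with h | h | h
    · have h1 : -x ∈ P := by
        rw [hP, Finset.mem_filter]
        exact ⟨T.symm 0 x hx, by linarith⟩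
      have h2 := hφP (-x) h1
      have h3 : φ (-(-x)) = -φ (-x) := by
        apply Desc_neg
        have := abs_nonneg (Desc_phi q t (-x))
        change 9 * |Desc_phi q t (-x)| < q at h2
        linarith
      rw [neg_neg] at h3
      rw [h3, abs_neg]
      exact h2
    · subst h
      have h1 : φ 0 = 0 := by
        apply Desc_eq
        · simp
        · simpa using hq0'
      rw [h1]
      simpa using hq0'
    · exact hφP x (by rw [hP, Finset.mem_filter]; exact ⟨hx, h⟩)
  have hgen : ∀ l w, w ∈ T.S l → 40 * |φ w| < q → ∀ a ∈ T.S l, 4 * |φ a| < q := by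
    intro l w hw hφw a ha
    by_cases haw : a = w
    · subst haw
      have := abs_nonneg (φ a)
      linarith
    · have h1 : a + w ∈ pairSums (T.S l) := Desc_mem_pairSums ha hw haw
      rw [T.ps l 0] at h1
      obtain ⟨s, hs, s', hs', hss⟩ := Desc_exists_of_mem h1
      have h2 : a = s + s' - w := by linarith
      have h3 := hφ0 s hs
      have h4 := hφ0 s' hs'
      have h5 : |φ s + φ s' - φ w| ≤ |φ s| + |φ s'| + |φ w| := by
        have e1 := abs_add_le (φ s) (φ s')
        have e2 := abs_sub (φ s + φ s') (φ w)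
        linarith
      have h6 : φ a = φ s + φ s' - φ w := by
        rw [h2]
        apply Desc_three
        change 2 * |φ s + φ s' - φ w| < q
        linarith
      rw [h6]
      linarith
  have h4 : ∀ l, ∀ a ∈ T.S l, 4 * |φ a| < q := by
    intro l
    have hl : l = 0 ∨ l = 1 ∨ l = 2 := by
      revert l
      decide
    rcases hl with rfl | rfl | rfl
    · intro a ha
      have h1 := hφ0 a ha
      have h2 := abs_nonneg (φ a)
      linarith
    · exact hgen 1 y hy hφy
    · exact hgen 2 z hz hφz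
  have hinj : ∀ l l' a b, a ∈ T.S l → b ∈ T.S l' → φ a = φ b → a = b := by
    intro l l' a b ha hb hab
    have h1 : ((t * a : ℤ) : ZMod q) = ((t * b : ℤ) : ZMod q) := by
      rw [← Desc_coe, ← Desc_coe]
      exact congrArg _ hab
    have : Fact q.Prime := ⟨hqp⟩
    push_cast at h1
    have h2 := mul_left_cancel₀ ht0 h1
    have h3 : ((a - b : ℤ) : ZMod q) = 0 := by
      push_cast
      rw [h2, sub_self]
    rw [ZMod.intCast_zmod_eq_zero_iff_dvd] at h3
    have h5 : a - b = 0 := by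
      apply Int.eq_zero_of_abs_lt_dvd h3
      have e1 := hT l a ha
      have e2 := hT l' b hb
      have e3 := abs_sub a b
      linarith
    linarith
  have hadd : ∀ l, ∀ a ∈ T.S l, ∀ b ∈ T.S l, φ (a + b) = φ a + φ b := by
    intro l a ha b hb
    apply Desc_add
    change 2 * |φ a + φ b| < q
    have e1 := abs_add_le (φ a) (φ b)
    have e2 := h4 l a ha
    have e3 := h4 l b hb
    linarith
  have hinjOn : ∀ l, Set.InjOn φ (T.S l) := fun l a ha b hb hab =>
    hinj l l a b ha hb hab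
  refine ⟨{
    S := fun l => (T.S l).image φ
    hm := T.hm
    hev := T.hev
    card := fun i => by rw [Finset.card_image_of_injOn (hinjOn i), T.card i]
    symm := ?_
    ne := ?_
    ps := ?_ }, ?_⟩
  · intro i a ha
    rw [Finset.mem_image] at ha ⊢
    obtain ⟨b, hb, rfl⟩ := ha
    refine ⟨-b, T.symm i b hb, ?_⟩
    apply Desc_neg
    have e1 := h4 i b hb
    have e2 := abs_nonneg (φ b)
    change 2 * |φ b| < q
    linarith
  · intro i hi
    apply T.ne i
    apply Finset.Subset.antisymm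
    · intro a ha
      have h1 : φ a ∈ (T.S (i + 1)).image φ := by
        rw [← hi]
        exact Finset.mem_image_of_mem _ ha
      rw [Finset.mem_image] at h1
      obtain ⟨b, hb, hba⟩ := h1
      rw [← hinj _ _ b a hb ha hba]
      exact hb
    · intro a ha
      have h1 : φ a ∈ (T.S i).image φ := by
        rw [hi]
        exact Finset.mem_image_of_mem _ ha
      rw [Finset.mem_image] at h1
      obtain ⟨b, hb, hba⟩ := h1
      rw [← hinj _ _ b a hb ha hba]
      exact hb
  · intro i j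
    rw [Desc_pairSums_image (hinjOn i) (hadd i), Desc_pairSums_image (hinjOn j) (hadd j),
      T.ps i j]
  · intro l a ha
    rw [Finset.mem_image] at ha
    obtain ⟨b, hb, rfl⟩ := ha
    have e1 := h4 l b hb
    linarith

/-- strong induction on a bound for the entries -/
theorem small_trip (T : Trip 10) : ∃ T' : Trip 10, ∀ l, ∀ a ∈ T'.S l, |a| ≤ 2 ^ 822 := by
  have key : ∀ n : ℕ, ∀ T : Trip 10, (∀ l, ∀ a ∈ T.S l, |a| ≤ (n : ℤ)) →
      ∃ T' : Trip 10, ∀ l, ∀ a ∈ T'.S l, |a| ≤ 2 ^ 822 := by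
    intro n
    induction n with
    | zero =>
      intro T hT
      refine ⟨T, fun l a ha => (hT l a ha).trans ?_⟩
      rw [Nat.cast_zero]
      positivity
    | succ k ih =>
      intro T hT
      by_cases hk : k + 1 ≤ 2 ^ 822
      · refine ⟨T, fun l a ha => (hT l a ha).trans ?_⟩
        exact_mod_cast hk
      · rw [not_le] at hk
        obtain ⟨T', hT'⟩ := small_step T hk hT
        apply ih T'
        intro l a ha
        have h1 := hT' l a ha
        push_cast at h1
        linarith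
  obtain ⟨n, hn⟩ : ∃ n : ℕ, ∀ l, ∀ a ∈ T.S l, |a| ≤ (n : ℤ) := by
    refine ⟨∑ l : ZMod 3, ∑ a ∈ T.S l, a.natAbs, fun l a ha => ?_⟩
    have h1 : a.natAbs ≤ ∑ b ∈ T.S l, b.natAbs :=
      Finset.single_le_sum (f := fun b : ℤ => b.natAbs) (fun b _ => Nat.zero_le _) ha
    have h2 : ∑ b ∈ T.S l, b.natAbs ≤ ∑ l : ZMod 3, ∑ b ∈ T.S l, b.natAbs :=
      Finset.single_le_sum (f := fun l : ZMod 3 => ∑ b ∈ T.S l, b.natAbs)
        (fun b _ => Nat.zero_le _) (Finset.mem_univ l)
    rw [Int.abs_eq_natAbs]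
    exact_mod_cast h1.trans h2
  exact key n T hn

end Trip

end Pool.Agent.Lib_MP_e4b855_nt.Tri
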