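import Mathlib

/-!
# Auxiliary facts for `dvd_moment`: moments at `1` of polynomials over `ℤ`
-/

namespace Pool.Agent.Lib_MP_e4b855_nt.Tri

open Finset Polynomial

/-- the operator `x d/dx` -/
noncomputable def DX : ℤ[X] →ₗ[ℤ] ℤ[X] := (LinearMap.mulLeft ℤ X) ∘ₗ derivative

theorem DX_apply (g : ℤ[X]) : DX g = X * derivative g := rfl

theorem DX_mul (g q : ℤ[X]) : DX (g * q) = DX g * q + g * DX q := by
  simp only [DX_apply, derivative_mul]
  ring

theorem DX_monomial (n : ℕ) (c : ℤ) : DX (monomial n c) = monomial n (c * n) := by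
  rw [DX_apply, derivative_monomial]
  rcases n with _ | n
  · simp
  · rw [X_mul_monomial]
    simp

theorem DX_iterate_monomial (n : ℕ) (c : ℤ) (K : ℕ) :
    DX^[K] (monomial n c) = monomial n (c * (n : ℤ) ^ K) := by
  induction K with
  | zero => simp
  | succ K ih =>
    rw [Function.iterate_succ_apply', ih, DX_monomial, pow_succ, mul_assoc]

theorem DX_iterate_sum {ι : Type*} (s : Finset ι) (g : ι → ℤ[X]) (K : ℕ) :
    DX^[K] (∑ i ∈ s, g i) = ∑ i ∈ s, DX^[K] (g i) := by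
  induction K with
  | zero => simp
  | succ K ih => simp only [Function.iterate_succ_apply', ih, map_sum]

/-- all moments of `g` at `1` are divisible by `p ^ r` -/
def GoodP (p r : ℕ) (g : ℤ[X]) : Prop := ∀ K, (p : ℤ) ^ r ∣ (DX^[K] g).eval 1

theorem GoodP.dx {p r : ℕ} {g : ℤ[X]} (h : GoodP p r g) : GoodP p r (DX g) := by
  intro K
  have := h (K + 1)
  rwa [Function.iterate_succ_apply] at this

theorem GoodP.mul {p r s : ℕ} {g q : ℤ[X]} (hg : GoodP p r g) (hq : GoodP p s q) :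
    GoodP p (r + s) (g * q) := by
  intro K
  induction K generalizing g q with
  | zero =>
    simp only [Function.iterate_zero, id_eq, eval_mul, pow_add]
    exact mul_dvd_mul (hg 0) (hq 0)
  | succ K ih =>
    rw [Function.iterate_succ_apply, DX_mul, iterate_map_add, eval_add]
    exact dvd_add (ih hg.dx hq) (ih hg hq.dx)

theorem GoodP.zero (p : ℕ) (g : ℤ[X]) : GoodP p 0 g := fun K => by simp

theorem GoodP.pow {p r : ℕ} {g : ℤ[X]} (hg : GoodP p r g) (n : ℕ) :
    GoodP p (r * n) (g ^ n) := by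
  induction n with
  | zero => exact GoodP.zero p _
  | succ n ih =>
    rw [pow_succ, mul_add, mul_one]
    exact ih.mul hg

theorem GoodP.prod {p : ℕ} {ι : Type*} (s : Finset ι) (r : ι → ℕ) (g : ι → ℤ[X])
    (h : ∀ i ∈ s, GoodP p (r i) (g i)) : GoodP p (∑ i ∈ s, r i) (∏ i ∈ s, g i) := by
  classical
  induction s using Finset.induction_on with
  | empty => exact GoodP.zero p _
  | insert a s ha ih =>
    rw [Finset.sum_insert ha, Finset.prod_insert ha]
    exact (h a (Finset.mem_insert_self a s)).mul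
      (ih fun i hi => h i (Finset.mem_insert_of_mem hi))

theorem goodP_X_pow_sub_one (p : ℕ) : GoodP p 1 (X ^ p - 1 : ℤ[X]) := by
  intro K
  have h1 : (X ^ p - 1 : ℤ[X]) = monomial p 1 - monomial 0 1 := by
    rw [← X_pow_eq_monomial, ← C_1, ← monomial_zero_left]
  rw [h1, iterate_map_sub, DX_iterate_monomial, DX_iterate_monomial]
  rcases K with _ | K
  · simp
  · simp only [eval_sub, eval_monomial, one_pow, mul_one, pow_one, one_mul]
    refine dvd_sub (dvd_pow_self _ (Nat.succ_ne_zero K)) ?_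
    simp

theorem goodP_cyclotomic {p : ℕ} (hp : p.Prime) {l : ℕ} (hl : 2 ≤ l) :
    GoodP p 1 (cyclotomic (p ^ l) ℤ) := by
  intro K
  obtain ⟨n, rfl⟩ : ∃ n, l = n + 1 := ⟨l - 1, by omega⟩
  have hn : 1 ≤ n := by omega
  rw [cyclotomic_prime_pow_eq_geom_sum hp]
  have h1 : ∀ i : ℕ, ((X : ℤ[X]) ^ p ^ n) ^ i = monomial (p ^ n * i) 1 := by
    intro i
    rw [← pow_mul, X_pow_eq_monomial]
  simp only [h1]
  rw [DX_iterate_sum, eval_finsetSum]
  simp only [DX_iterate_monomial, eval_monomial, one_pow, mul_one, pow_one, one_mul]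
  rcases K with _ | K
  · simp
  · refine Finset.dvd_sum fun i _ => ?_
    refine dvd_pow ?_ (Nat.succ_ne_zero K)
    rw [Nat.cast_mul, Nat.cast_pow]
    exact Dvd.dvd.mul_right (dvd_pow_self _ (by omega)) _

/-- linear combinations of moments -/
theorem poly_moment (f : ℤ →₀ ℤ) (ξ : ℂ) (ε : ℕ)
    (h : ∀ k < ε, (f.sum fun n c => (c : ℂ) * (n : ℂ) ^ k * ξ ^ n) = 0) (q : ℂ[X])
    (hq : q.natDegree < ε) : (f.sum fun n c => (c : ℂ) * q.eval (n : ℂ) * ξ ^ n) = 0 := by
  have h1 : ∀ n : ℤ, ∀ c : ℤ, (c : ℂ) * q.eval (n : ℂ) * ξ ^ n =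
      ∑ i ∈ range (q.natDegree + 1), q.coeff i * ((c : ℂ) * (n : ℂ) ^ i * ξ ^ n) := by
    intro n c
    rw [eval_eq_sum_range, Finset.mul_sum, Finset.sum_mul]
    exact Finset.sum_congr rfl fun i _ => by ring
  simp only [h1]
  rw [Finsupp.sum, Finset.sum_comm]
  refine Finset.sum_eq_zero fun i hi => ?_
  rw [← Finset.mul_sum]
  have := h i (by have := Finset.mem_range.1 hi; omega)
  rw [Finsupp.sum] at this
  rw [this, mul_zero]

/-- the polynomial `x^M f` -/
noncomputable def shiftP (f : ℤ →₀ ℤ) (M : ℤ) : ℤ[X] :=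
  ∑ n ∈ f.support, monomial (n + M).toNat (f n)

theorem shiftP_moment (f : ℤ →₀ ℤ) (M : ℤ) (hM : ∀ n ∈ f.support, 0 ≤ n + M) (K : ℕ) :
    (DX^[K] (shiftP f M)).eval 1 = f.sum fun n c => c * (n + M) ^ K := by
  rw [shiftP, DX_iterate_sum, eval_finsetSum, Finsupp.sum]
  refine Finset.sum_congr rfl fun n hn => ?_
  rw [DX_iterate_monomial, eval_monomial, one_pow, mul_one, Int.toNat_of_nonneg (hM n hn)]

/-- from the moments of `x^M f` back to those of `f` -/
theorem dvd_of_shift (f : ℤ →₀ ℤ) (M : ℤ) (P : ℤ)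
    (h : ∀ K : ℕ, P ∣ f.sum fun n c => c * (n + M) ^ K) (K : ℕ) :
    P ∣ f.sum fun n c => c * n ^ K := by
  have h1 : ∀ n c : ℤ, c * n ^ K =
      ∑ i ∈ range (K + 1), (c * (n + M) ^ i) * ((-M) ^ (K - i) * (K.choose i)) := by
    intro n c
    have : n ^ K = ((n + M) + (-M)) ^ K := by ring
    rw [this, add_pow, Finset.mul_sum]
    exact Finset.sum_congr rfl fun i _ => by ring
  simp only [h1]
  rw [Finsupp.sum, Finset.sum_comm]
  refine Finset.dvd_sum fun i _ => ?_
  rw [← Finset.sum_mul]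
  exact Dvd.dvd.mul_right (by simpa [Finsupp.sum] using h i) _

/-- vanishing moments give a high power of `X - ξ` -/
theorem pow_dvd_shiftP (f : ℤ →₀ ℤ) (M : ℤ) (hM : ∀ n ∈ f.support, 0 ≤ n + M) {ξ : ℂ}
    (hξ : ξ ≠ 0) (ε : ℕ)
    (h : ∀ k < ε, (f.sum fun n c => (c : ℂ) * (n : ℂ) ^ k * ξ ^ n) = 0) :
    (X - C ξ) ^ ε ∣ (shiftP f M).map (Int.castRingHom ℂ) := by
  by_cases h0 : (shiftP f M).map (Int.castRingHom ℂ) = 0
  · rw [h0]; exact dvd_zero _
  rcases ε with _ | ε
  · simp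
  rw [← le_rootMultiplicity_iff h0, Nat.succ_le_iff,
    lt_rootMultiplicity_iff_isRoot_iterate_derivative h0]
  intro k hk
  rw [shiftP, Polynomial.map_sum, IsRoot, iterate_derivative_sum, eval_finsetSum]
  have h2 := poly_moment f ξ (ε + 1) h ((descPochhammer ℂ k).comp (X + C (M : ℂ))) (by
    rw [natDegree_comp, natDegree_X_add_C, mul_one, descPochhammer_natDegree]
    omega)
  have h3 : ∀ n ∈ f.support, eval ξ (derivative^[k]
      (Polynomial.map (Int.castRingHom ℂ) (monomial (n + M).toNat (f n)))) * ξ ^ (k : ℤ) =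
        ξ ^ M * ((f n : ℂ) * ((descPochhammer ℂ k).comp (X + C (M : ℂ))).eval (n : ℂ) * ξ ^ n) := by
    intro n hn
    obtain ⟨a, ha⟩ : ∃ a : ℕ, n + M = a := ⟨(n + M).toNat, (Int.toNat_of_nonneg (hM n hn)).symm⟩
    have hn' : n = a - M := by omega
    rw [ha, Int.toNat_natCast, map_monomial, ← C_mul_X_pow_eq_monomial,
      iterate_derivative_C_mul, iterate_derivative_X_pow_eq_natCast_mul, eval_comp]
    have e1 : eval (n : ℂ) (X + C (M : ℂ)) = (a : ℂ) := by
      simp only [eval_add, eval_X, eval_C]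
      rw [hn']; push_cast; ring
    rw [e1, descPochhammer_eval_eq_descFactorial]
    simp only [eval_mul, eval_C, eval_natCast, eval_pow, eval_X, eq_intCast]
    by_cases hka : k ≤ a
    · have e2 : ξ ^ (a - k) * ξ ^ (k : ℤ) = ξ ^ M * ξ ^ n := by
        rw [← zpow_natCast ξ (a - k), ← zpow_add₀ hξ, ← zpow_add₀ hξ]
        congr 1
        rw [hn']; push_cast [Nat.cast_sub hka]; ring
      calc (f n : ℂ) * ((a.descFactorial k : ℂ) * ξ ^ (a - k)) * ξ ^ (k : ℤ)
          = (f n : ℂ) * (a.descFactorial k : ℂ) * (ξ ^ (a - k) * ξ ^ (k : ℤ)) := by ring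
        _ = (f n : ℂ) * (a.descFactorial k : ℂ) * (ξ ^ M * ξ ^ n) := by rw [e2]
        _ = _ := by ring
    · rw [Nat.descFactorial_of_lt (not_le.1 hka)]
      simp
  have h4 : (∑ n ∈ f.support, eval ξ (derivative^[k]
      (Polynomial.map (Int.castRingHom ℂ) (monomial (n + M).toNat (f n))))) * ξ ^ (k : ℤ) = 0 := by
    rw [Finset.sum_mul, Finset.sum_congr rfl h3, ← Finset.mul_sum]
    rw [Finsupp.sum] at h2
    rw [h2, mul_zero]
  exact (mul_eq_zero.1 h4).resolve_right (zpow_ne_zero _ hξ)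

end Pool.Agent.Lib_MP_e4b855_nt.Tri
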