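import Pool.Agent.Lib_MP_e4b855_nt.Tri.Defs
import Pool.Agent.Lib_MP_e4b855_nt.Tri.DvdAux

namespace Pool.Agent.Lib_MP_e4b855_nt.Tri

open Finset

/-- `D^k f (ξ) = ∑ f_n n^k ξ^n` for a Laurent polynomial given by its coefficients -/
noncomputable def Mk (f : ℤ →₀ ℤ) (k : ℕ) (ξ : ℂ) : ℂ :=
  f.sum fun n c => (c : ℂ) * (n : ℂ) ^ k * ξ ^ n

open Polynomial in
/-- a power of a cyclotomic polynomial divides the shifted Laurent polynomial -/
theorem cyclotomic_pow_dvd (f : ℤ →₀ ℤ) (M : ℤ) (hM : ∀ n ∈ f.support, 0 ≤ n + M) {N : ℕ}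
    (hN : 0 < N) (e : ℕ) (h : ∀ ξ : ℂ, IsPrimitiveRoot ξ N → ∀ k < e, Mk f k ξ = 0) :
    (cyclotomic N ℤ) ^ e ∣ shiftP f M := by
  rw [← map_dvd_map (Int.castRingHom ℂ) Int.cast_injective ((cyclotomic.monic N ℤ).pow e),
    Polynomial.map_pow, map_cyclotomic_int,
    cyclotomic_eq_prod_X_sub_primitiveRoots (Complex.isPrimitiveRoot_exp N hN.ne'),
    ← Finset.prod_pow]
  refine Finset.prod_dvd_of_coprime ?_ ?_
  · intro a _ b _ hab
    exact (pairwise_coprime_X_sub_C (s := fun z : ℂ => z) Function.injective_id hab).pow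
  · intro ξ hξ
    have hξ' := (mem_primitiveRoots hN).1 hξ
    exact pow_dvd_shiftP f M hM (hξ'.ne_zero hN.ne') e (h ξ hξ')

open Polynomial in
/-- Piece C0.  Integral divisibility.  If `D^k f` vanishes at all `p`-th roots of unity for
`k < ε` and at the primitive `p^l`-th roots of unity (`2 ≤ l ≤ L`) for `k < β l`, then
`f` is divisible by `(x^p - 1)^ε ∏ Φ_{p^l}^{β l}` in `ℤ[x, x⁻¹]`, and for every product of `r`
factors `x^p - 1`, `Φ_{p^l}` (`l ≥ 2`) and a Laurent polynomial all `D^K` at `1` are divisible by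
`p^r` (Leibniz). -/
theorem dvd_moment {p : ℕ} [Fact p.Prime] (f : ℤ →₀ ℤ) (ε L : ℕ) (β : ℕ → ℕ)
    (h1 : ∀ ξ : ℂ, ξ ^ p = 1 → ∀ k < ε, Mk f k ξ = 0)
    (h2 : ∀ l, 2 ≤ l → l ≤ L → ∀ ξ : ℂ, IsPrimitiveRoot ξ (p ^ l) → ∀ k < β l, Mk f k ξ = 0)
    (K : ℕ) : (p : ℤ) ^ (ε + ∑ l ∈ Icc 2 L, β l) ∣ f.sum fun n c => c * n ^ K := by
  have hp : p.Prime := Fact.out
  obtain ⟨M, hM⟩ : ∃ M : ℤ, ∀ n ∈ f.support, 0 ≤ n + M := by
    obtain ⟨b, hb⟩ := f.support.finite_toSet.bddBelow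
    refine ⟨-b, fun a ha => ?_⟩
    have := hb (by simpa using ha : a ∈ ((f.support : Finset ℤ) : Set ℤ))
    omega
  refine dvd_of_shift f M _ (fun K => ?_) K
  rw [← shiftP_moment f M hM K]
  -- the exponents
  set e : ℕ → ℕ := fun l => if l ≤ 1 then ε else β l with he
  have hdiv : ∏ l ∈ insert 0 (insert 1 (Icc 2 L)), (cyclotomic (p ^ l) ℤ) ^ e l ∣ shiftP f M := by
    rw [← map_dvd_map (Int.castRingHom ℚ) Int.cast_injective
      (monic_prod_of_monic _ _ fun l _ => (cyclotomic.monic _ ℤ).pow _), Polynomial.map_prod]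
    refine Finset.prod_dvd_of_coprime ?_ ?_
    · intro a _ b _ hab
      simp only [Function.onFun, Polynomial.map_pow, map_cyclotomic_int]
      refine (cyclotomic.isCoprime_rat ?_).pow
      exact fun h => hab (Nat.pow_right_injective hp.two_le h)
    · intro l hl
      refine Polynomial.map_dvd _ (cyclotomic_pow_dvd f M hM (pow_pos hp.pos l) _ ?_)
      intro ξ hξ k hk
      by_cases hl1 : l ≤ 1
      · have hk' : k < ε := by simpa [he, hl1] using hk
        refine h1 ξ ?_ k hk'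
        have h3 : p ^ l ∣ p := by
          calc p ^ l ∣ p ^ 1 := pow_dvd_pow p hl1
            _ = p := pow_one p
        exact (hξ.pow_eq_one_iff_dvd p).2 h3
      · have hk' : k < β l := by simpa [he, hl1] using hk
        simp only [Finset.mem_insert, Finset.mem_Icc] at hl
        exact h2 l (by omega) (by omega) ξ hξ k hk'
  have hprod : ∏ l ∈ insert 0 (insert 1 (Icc 2 L)), (cyclotomic (p ^ l) ℤ) ^ e l =
      (X ^ p - 1) ^ ε * ∏ l ∈ Icc 2 L, (cyclotomic (p ^ l) ℤ) ^ β l := by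
    rw [Finset.prod_insert (by simp), Finset.prod_insert (by simp), ← mul_assoc]
    congr 1
    · rw [← cyclotomic_prime_mul_X_sub_one ℤ p]
      simp only [he, pow_zero, pow_one, cyclotomic_one, zero_le, if_true, le_refl, mul_pow]
      ring
    · refine Finset.prod_congr rfl fun l hl => ?_
      have := (Finset.mem_Icc.1 hl).1
      rw [he]
      simp only [if_neg (show ¬ l ≤ 1 by omega)]
  rw [hprod] at hdiv
  obtain ⟨h, hh⟩ := hdiv
  have hgood : GoodP p ((1 * ε + ∑ l ∈ Icc 2 L, 1 * β l) + 0) (shiftP f M) := by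
    rw [hh]
    refine (((goodP_X_pow_sub_one p).pow ε).mul ?_).mul (GoodP.zero p h)
    exact GoodP.prod _ _ _ fun l hl => (goodP_cyclotomic hp (Finset.mem_Icc.1 hl).1).pow _
  simpa using hgood K

end Pool.Agent.Lib_MP_e4b855_nt.Tri
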