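import Pool.Agent.Lib_MP_e4b855_nt.Tri.Defs

namespace Pool.Agent.Lib_MP_e4b855_nt.Tri

open PowerSeries Finset

theorem cc_ee (a : ℂ) : constantCoeff (ee a) = 1 := by
  rw [← coeff_zero_eq_constantCoeff_apply, ee, coeff_rescale, coeff_exp]
  simp

theorem FF_base_ne_zero {n : ℕ} (hn : n ≠ 0) {ζ s : ℂ} (hζ : ζ ≠ 0) (hs : s ≠ 0) :
    (C (ζ ^ n) * ee (s * n) - 1 : ℂ⟦X⟧) ≠ 0 := by
  intro h
  have h1 := congrArg (coeff 1) h
  simp only [map_sub, coeff_C_mul, ee, coeff_rescale, coeff_exp, coeff_one, map_zero] at h1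
  have : ζ ^ n * (s * n) = 0 := by simpa using h1
  have h2 : ζ ^ n ≠ 0 := pow_ne_zero _ hζ
  have h3 : (n : ℂ) ≠ 0 := by exact_mod_cast hn
  exact absurd this (mul_ne_zero h2 (mul_ne_zero hs h3))

theorem FF_base_ne_zero' {n : ℕ} (hn : n ≠ 0) {ζ s : ℂ} (hζ : ζ ≠ 0) (hs : s ≠ 0) :
    ((C (ζ ^ n) * ee (s * n) - 1 : ℂ⟦X⟧) : LaurentSeries ℂ) ≠ 0 := by
  intro h
  apply FF_base_ne_zero hn hζ hs
  have : Function.Injective (HahnSeries.ofPowerSeries ℤ ℂ) := HahnSeries.ofPowerSeries_injective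
  apply this
  rw [map_zero]
  exact h

theorem ne_zero_of_mem_support {v : ℕ →₀ ℤ} (hv : v 0 = 0) {n : ℕ} (hn : n ∈ v.support) :
    n ≠ 0 := by
  rintro rfl
  simp [hv] at hn

/-- Piece A2.  Additivity of the virtual product. -/
theorem FF_add (v w : ℕ →₀ ℤ) (hv : v 0 = 0) (hw : w 0 = 0) {ζ s : ℂ} (hζ : ζ ≠ 0) (hs : s ≠ 0) :
    FF (v + w) ζ s = FF v ζ s * FF w ζ s := by
  unfold FF
  apply Finsupp.prod_add_index
  · intro n _
    simp
  · intro n hn a b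
    have hn0 : n ≠ 0 := by
      rcases Finset.mem_union.1 hn with h | h
      · exact ne_zero_of_mem_support hv h
      · exact ne_zero_of_mem_support hw h
    exact zpow_add₀ (FF_base_ne_zero' hn0 hζ hs) a b

theorem FF_neg (v : ℕ →₀ ℤ) (ζ s : ℂ) : FF (-v) ζ s = (FF v ζ s)⁻¹ := by
  unfold FF
  rw [Finsupp.prod_neg_index (fun n => by simp)]
  unfold Finsupp.prod
  rw [← Finset.prod_inv_distrib]
  refine Finset.prod_congr rfl fun n _ => ?_
  exact zpow_neg _ _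

theorem FF_sub (v w : ℕ →₀ ℤ) (hv : v 0 = 0) (hw : w 0 = 0) {ζ s : ℂ} (hζ : ζ ≠ 0) (hs : s ≠ 0) :
    FF (v - w) ζ s = FF v ζ s / FF w ζ s := by
  rw [sub_eq_add_neg, FF_add v (-w) hv (by simp [hw]) hζ hs, FF_neg, div_eq_mul_inv]

theorem FF_ne_zero (v : ℕ →₀ ℤ) (hv : v 0 = 0) {ζ s : ℂ} (hζ : ζ ≠ 0) (hs : s ≠ 0) :
    FF v ζ s ≠ 0 := by
  unfold FF Finsupp.prod
  rw [Finset.prod_ne_zero_iff]
  intro n hn
  exact zpow_ne_zero _ (FF_base_ne_zero' (ne_zero_of_mem_support hv hn) hζ hs)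

/-- `F_{T_2 v}(x) = F_v(x^2)`. -/
theorem FF_double (v : ℕ →₀ ℤ) {ζ s : ℂ} :
    FF (v.mapDomain (fun n => 2 * n)) ζ s = FF v (ζ ^ 2) (2 * s) := by
  unfold FF
  rw [Finsupp.prod_mapDomain_index_inj (f := fun n : ℕ => 2 * n)
    (fun a b h => by simpa using h)]
  unfold Finsupp.prod
  refine Finset.prod_congr rfl fun n _ => ?_
  have h1 : ζ ^ (2 * n) = (ζ ^ 2) ^ n := by rw [pow_mul]
  have h2 : s * ((2 * n : ℕ) : ℂ) = 2 * s * n := by push_cast; ring
  simp only [h1, h2]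

/-- the local factor -/
theorem FF_factor {n : ℕ} (hn : n ≠ 0) {ζ s : ℂ} {N : ℕ}
    (hζ : IsPrimitiveRoot ζ N) (hs : s ≠ 0) (c : ℤ) :
    ∃ U : ℂ⟦X⟧, constantCoeff U = (if N ∣ n then s * n else ζ ^ n - 1) ^ c ∧
      constantCoeff U ≠ 0 ∧
      ((C (ζ ^ n) * ee (s * n) - 1 : ℂ⟦X⟧) : LaurentSeries ℂ) ^ c =
        HahnSeries.single (if N ∣ n then c else 0) 1 * (U : LaurentSeries ℂ) := by
  have hn' : (n : ℂ) ≠ 0 := by exact_mod_cast hn
  -- the first power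
  obtain ⟨V, hV1, hV2, hV3⟩ : ∃ V : ℂ⟦X⟧,
      constantCoeff V = (if N ∣ n then s * n else ζ ^ n - 1) ∧ constantCoeff V ≠ 0 ∧
      ((C (ζ ^ n) * ee (s * n) - 1 : ℂ⟦X⟧) : LaurentSeries ℂ) =
        HahnSeries.single (if N ∣ n then (1 : ℤ) else 0) 1 * (V : LaurentSeries ℂ) := by
    by_cases hd : N ∣ n
    · simp only [if_pos hd]
      have h1 : ζ ^ n = 1 := (hζ.pow_eq_one_iff_dvd n).2 hd
      have h0 : constantCoeff (C (ζ ^ n) * ee (s * n) - 1 : ℂ⟦X⟧) = 0 := by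
        simp [cc_ee, h1]
      obtain ⟨V, hV⟩ := PowerSeries.X_dvd_iff.2 h0
      have hc : constantCoeff V = s * n := by
        have h2 := congrArg (coeff 1) hV
        have h3 : coeff 1 (X * V) = constantCoeff V := by
          rw [show (1 : ℕ) = 0 + 1 by rfl, PowerSeries.coeff_succ_X_mul]
          simp
        rw [h3] at h2
        rw [← h2]
        simp only [map_sub, coeff_C_mul, ee, coeff_rescale, coeff_exp, coeff_one, h1]
        simp
      refine ⟨V, hc, ?_, ?_⟩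
      · rw [hc]; exact mul_ne_zero hs hn'
      · rw [hV]
        rw [PowerSeries.coe_mul, PowerSeries.coe_X]
    · simp only [if_neg hd]
      have h1 : ζ ^ n ≠ 1 := fun h => hd ((hζ.pow_eq_one_iff_dvd n).1 h)
      have hc : constantCoeff (C (ζ ^ n) * ee (s * n) - 1 : ℂ⟦X⟧) = ζ ^ n - 1 := by
        simp [cc_ee]
      refine ⟨(C (ζ ^ n) * ee (s * n) - 1 : ℂ⟦X⟧), hc, ?_, ?_⟩
      · rw [hc]; exact sub_ne_zero.2 h1
      · rw [show (HahnSeries.single (0 : ℤ) (1 : ℂ)) = 1 from rfl, one_mul]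
  -- inverse of V
  have hinv : ((V⁻¹ : ℂ⟦X⟧) : LaurentSeries ℂ) = ((V : LaurentSeries ℂ))⁻¹ := by
    have h1 : V * V⁻¹ = 1 := PowerSeries.mul_inv_cancel V hV2
    have h2 : (V : LaurentSeries ℂ) * ((V⁻¹ : ℂ⟦X⟧) : LaurentSeries ℂ) = 1 := by
      rw [← PowerSeries.coe_mul, h1, PowerSeries.coe_one]
    exact eq_inv_of_mul_eq_one_right h2
  have hsingle : ∀ m : ℤ, (HahnSeries.single (1 : ℤ) (1 : ℂ) : LaurentSeries ℂ) ^ m =
      HahnSeries.single m 1 := by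
    intro m
    have hp : ∀ k : ℕ, (HahnSeries.single (1 : ℤ) (1 : ℂ) : LaurentSeries ℂ) ^ k =
        HahnSeries.single (k : ℤ) 1 := by
      intro k
      rw [HahnSeries.single_pow]; simp
    rcases le_total 0 m with h | h
    · lift m to ℕ using h
      rw [zpow_natCast, hp]
    · obtain ⟨d, rfl⟩ : ∃ d : ℕ, m = -(d : ℤ) := ⟨(-m).toNat, by omega⟩
      rw [zpow_neg, zpow_natCast, hp]
      symm
      apply eq_inv_of_mul_eq_one_right
      rw [HahnSeries.single_mul_single, one_mul, add_neg_cancel]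
      rfl
  have hpow : ∀ m : ℤ, (HahnSeries.single (if N ∣ n then (1 : ℤ) else 0) (1 : ℂ) :
      LaurentSeries ℂ) ^ m = HahnSeries.single (if N ∣ n then m else 0) 1 := by
    intro m
    by_cases hd : N ∣ n
    · simp only [if_pos hd]; exact hsingle m
    · simp only [if_neg hd]
      rw [show (HahnSeries.single (0 : ℤ) (1 : ℂ)) = 1 from rfl, one_zpow]
  rcases le_total 0 c with h | h
  · lift c to ℕ using h
    refine ⟨V ^ c, ?_, ?_, ?_⟩
    · rw [map_pow, hV1, zpow_natCast]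
    · rw [map_pow]; exact pow_ne_zero _ hV2
    · rw [hV3, mul_zpow, hpow, zpow_natCast, PowerSeries.coe_pow]
  · obtain ⟨d, rfl⟩ : ∃ d : ℕ, c = -(d : ℤ) := ⟨(-c).toNat, by omega⟩
    refine ⟨V⁻¹ ^ d, ?_, ?_, ?_⟩
    · rw [map_pow, PowerSeries.constantCoeff_inv, hV1, zpow_neg, zpow_natCast, inv_pow]
    · rw [map_pow, PowerSeries.constantCoeff_inv]; exact pow_ne_zero _ (inv_ne_zero hV2)
    · rw [hV3, mul_zpow, hpow, zpow_neg, zpow_natCast, PowerSeries.coe_pow, hinv, inv_pow]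

/-- order and leading coefficient of the virtual product at a primitive `N`-th root of unity -/
theorem FF_lead (v : ℕ →₀ ℤ) (hv : v 0 = 0) {ζ s : ℂ} {N : ℕ} (hN : 0 < N)
    (hζ : IsPrimitiveRoot ζ N) (hs : s ≠ 0) :
    ∃ U : ℂ⟦X⟧, constantCoeff U = (v.prod fun n c => (if N ∣ n then s * n else ζ ^ n - 1) ^ c) ∧
      constantCoeff U ≠ 0 ∧
      FF v ζ s = HahnSeries.single (lev v N) 1 * (U : LaurentSeries ℂ) := by
  have key : ∀ S : Finset ℕ, (∀ n ∈ S, n ≠ 0) →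
      ∃ U : ℂ⟦X⟧, constantCoeff U = (∏ n ∈ S, (if N ∣ n then s * n else ζ ^ n - 1) ^ (v n)) ∧
      constantCoeff U ≠ 0 ∧
      (∏ n ∈ S, ((C (ζ ^ n) * ee (s * n) - 1 : ℂ⟦X⟧) : LaurentSeries ℂ) ^ (v n)) =
        HahnSeries.single (∑ n ∈ S, if N ∣ n then v n else 0) 1 * (U : LaurentSeries ℂ) := by
    intro S
    induction S using Finset.induction_on with
    | empty =>
      intro _
      refine ⟨1, by simp, by simp, ?_⟩
      rw [Finset.prod_empty, Finset.sum_empty, PowerSeries.coe_one,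
        show (HahnSeries.single (0 : ℤ) (1 : ℂ)) = 1 from rfl, mul_one]
    | insert a S ha ih =>
      intro hS
      obtain ⟨U, h1, h2, h3⟩ := ih fun n hn => hS n (Finset.mem_insert_of_mem hn)
      obtain ⟨W, g1, g2, g3⟩ := FF_factor (hS a (Finset.mem_insert_self _ _)) hζ hs (v a)
      refine ⟨W * U, ?_, ?_, ?_⟩
      · rw [Finset.prod_insert ha, map_mul, g1, h1]
      · rw [map_mul]; exact mul_ne_zero g2 h2
      · rw [Finset.prod_insert ha, Finset.sum_insert ha, g3, h3, PowerSeries.coe_mul]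
        have : (HahnSeries.single ((if N ∣ a then v a else 0) + ∑ n ∈ S, if N ∣ n then v n else 0)
            (1 : ℂ) : LaurentSeries ℂ) = HahnSeries.single (if N ∣ a then v a else 0) 1 *
              HahnSeries.single (∑ n ∈ S, if N ∣ n then v n else 0) 1 := by
          rw [HahnSeries.single_mul_single, one_mul]
        rw [this]
        ring
  obtain ⟨U, h1, h2, h3⟩ := key v.support fun n hn => ne_zero_of_mem_support hv hn
  exact ⟨U, h1, h2, h3⟩

/-- levels -/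
theorem lev_add (v w : ℕ →₀ ℤ) (N : ℕ) : lev (v + w) N = lev v N + lev w N := by
  unfold lev
  apply Finsupp.sum_add_index'
  · intro n; simp
  · intro n a b; split_ifs <;> simp

theorem lev_sub (v w : ℕ →₀ ℤ) (N : ℕ) : lev (v - w) N = lev v N - lev w N := by
  unfold lev
  apply Finsupp.sum_sub_index
  intro n a b; split_ifs <;> simp

theorem lev_double (v : ℕ →₀ ℤ) {N : ℕ} (hN : Odd N) :
    lev (v.mapDomain (fun n => 2 * n)) N = lev v N := by
  unfold lev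
  rw [Finsupp.sum_mapDomain_index_inj (f := fun n : ℕ => 2 * n) (fun a b h => by simpa using h)]
  unfold Finsupp.sum
  refine Finset.sum_congr rfl fun n _ => ?_
  have : N ∣ 2 * n ↔ N ∣ n :=
    (Nat.Coprime.dvd_mul_left (Nat.coprime_two_right.2 hN))
  simp only [this]

theorem lev_tw (v : ℕ →₀ ℤ) {N : ℕ} (hN : Odd N) : lev (tw v) N = 0 := by
  unfold tw
  rw [lev_sub, lev_double v hN, sub_self]

end Pool.Agent.Lib_MP_e4b855_nt.Tri
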