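import Pool.Agent.Lib_MP_e4b855_nt.Tri.Defs

namespace Pool.Agent.Lib_MP_e4b855_nt.Tri

open PowerSeries Finset

/-- Piece A4.  coefficients -/
theorem coeff_ee (a : ℂ) (k : ℕ) : coeff k (ee a) = a ^ k / k.factorial := by
  unfold ee
  rw [coeff_rescale, coeff_exp]
  simp only [map_div₀, map_one, map_natCast]
  rw [mul_one_div]

theorem ee_add (a b : ℂ) : ee (a + b) = ee a * ee b := by
  unfold ee
  exact (exp_mul_exp_eq_exp_add a b).symm

theorem coeff_J (A : Finset ℤ) (ζ s : ℂ) (k : ℕ) :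
    coeff k (J A ζ s) = (∑ a ∈ A, ζ ^ a * (s * a) ^ k) / k.factorial := by
  unfold J
  rw [map_sum, Finset.sum_div]
  refine Finset.sum_congr rfl fun a _ => ?_
  rw [coeff_C_mul, coeff_ee, mul_div_assoc]

/-- the term of `J` -/
noncomputable def A4_term (ζ s : ℂ) (a : ℤ) : ℂ⟦X⟧ := C (ζ ^ a) * ee (s * a)

theorem A4_term_add {ζ : ℂ} (hζ : ζ ≠ 0) (s : ℂ) (a b : ℤ) :
    A4_term ζ s (a + b) = A4_term ζ s a * A4_term ζ s b := by
  unfold A4_term
  rw [zpow_add₀ hζ, Int.cast_add, mul_add, ee_add, map_mul]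
  ring

theorem A4_term_sq {ζ : ℂ} (hζ : ζ ≠ 0) (s : ℂ) (a : ℤ) :
    A4_term (ζ ^ 2) (2 * s) a = A4_term ζ s a * A4_term ζ s a := by
  rw [← A4_term_add hζ]
  unfold A4_term
  have h1 : (ζ ^ 2) ^ a = ζ ^ (a + a) := by
    rw [← zpow_natCast, ← zpow_mul]
    congr 1
    push_cast
    ring
  have h2 : 2 * s * (a : ℂ) = s * ((a + a : ℤ) : ℂ) := by
    push_cast
    ring
  rw [h1, h2]

theorem A4_two_mul (A : Finset ℤ) {ζ : ℂ} (hζ : ζ ≠ 0) (s : ℂ) :
    2 * ((pairSums A).map (A4_term ζ s)).sum = J A ζ s ^ 2 - J A (ζ ^ 2) (2 * s) := by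
  induction A using Finset.induction_on with
  | empty => simp [pairSums_empty, J]
  | insert x t h ih =>
    rw [pairSums_insert h, Multiset.map_add, Multiset.sum_add, mul_add, ih]
    have h1 : ((t.val.map (fun a => x + a)).map (A4_term ζ s)).sum =
        A4_term ζ s x * J t ζ s := by
      rw [Multiset.map_map]
      unfold J
      rw [Finset.mul_sum]
      change (∑ a ∈ t, A4_term ζ s (x + a)) = _
      refine Finset.sum_congr rfl fun a _ => ?_
      rw [A4_term_add hζ]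
      rfl
    have h2 : J (insert x t) ζ s = A4_term ζ s x + J t ζ s := by
      unfold J
      rw [Finset.sum_insert h]
      rfl
    have h3 : J (insert x t) (ζ ^ 2) (2 * s) =
        A4_term ζ s x * A4_term ζ s x + J t (ζ ^ 2) (2 * s) := by
      rw [← A4_term_sq hζ]
      unfold J
      rw [Finset.sum_insert h]
      rfl
    rw [h1, h2, h3]
    ring

/-- functional equation: `(A - B)(A + B)(x) = (A - B)(x^2)` for `x = ζ e^{s t}` -/
theorem J_fe {A B : Finset ℤ} (h : pairSums A = pairSums B) {ζ : ℂ} (hζ : ζ ≠ 0) (s : ℂ) :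
    (J A ζ s - J B ζ s) * (J A ζ s + J B ζ s) = J A (ζ ^ 2) (2 * s) - J B (ζ ^ 2) (2 * s) := by
  have hA := A4_two_mul A hζ s
  have hB := A4_two_mul B hζ s
  rw [h] at hA
  linear_combination hB - hA

end Pool.Agent.Lib_MP_e4b855_nt.Tri
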