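import Mathlib

namespace Pool.Agent.Lib_MP_e4b855_nt.Tri

/-- Piece G11.  numerical facts for `m = 6, 8, 14, 10` and `p = 691, 3617, 362903, 283` -/
structure Good (m p : ℕ) : Prop where
  prime : p.Prime
  ne_two : p ≠ 2
  large : 3 * m + 2 < p
  card : 2 ^ (m - 1) < 2 * p
  bern_m : padicValRat p (bernoulli m) = 0
  bern_2m : 0 < padicValRat p (bernoulli (2 * m))
  add : ¬ p ∣ 2 ^ m + 1
  sub : ¬ p ∣ 2 ^ m - 1

/-! ### Bernoulli numbers -/

/-- the list of the first Bernoulli numbers, computed by the recursion -/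
def numB : ℕ → List ℚ
  | 0 => []
  | n + 1 => numB n ++
      [1 - ((List.range n).map (fun k => (n.choose k : ℚ) / (n - k + 1) *
        ((numB n)[k]?.getD 0))).sum]

theorem numB_length (n : ℕ) : (numB n).length = n := by
  induction n with
  | zero => rfl
  | succ n ih => rw [numB, List.length_append, ih]; rfl

theorem num_sum (n : ℕ) (f : ℕ → ℚ) :
    ((List.range n).map f).sum = ∑ k ∈ Finset.range n, f k := by
  induction n with
  | zero => rfl
  | succ n ih =>
    rw [List.range_succ, List.map_append, List.sum_append, ih, Finset.sum_range_succ]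
    simp

theorem numB_get (n : ℕ) : ∀ k < n, (numB n)[k]?.getD 0 = bernoulli' k := by
  induction n with
  | zero => intro k hk; omega
  | succ n ih =>
    intro k hk
    rw [numB]
    rcases Nat.lt_succ_iff_lt_or_eq.1 hk with h | rfl
    · rw [List.getElem?_append_left (by rw [numB_length]; exact h)]
      exact ih k h
    · rw [List.getElem?_append_right (by rw [numB_length]), numB_length, Nat.sub_self,
        bernoulli'_def]
      simp only [List.getElem?_cons_zero, Option.getD_some]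
      congr 1
      rw [num_sum]
      refine Finset.sum_congr rfl fun j hj => ?_
      rw [ih j (Finset.mem_range.1 hj)]

theorem num_bern {m : ℕ} (hm : m ≠ 1) {q : ℚ} (h : (numB (m + 1))[m]?.getD 0 = q) :
    bernoulli m = q := by
  rw [bernoulli_eq_bernoulli'_of_ne_one hm, ← h, numB_get _ _ (Nat.lt_succ_self m)]

theorem bern_6 : bernoulli 6 = ((1 : ℤ) : ℚ) / ((42 : ℕ) : ℚ) :=
  num_bern (by decide) (by decide +kernel)

theorem bern_8 : bernoulli 8 = ((-1 : ℤ) : ℚ) / ((30 : ℕ) : ℚ) :=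
  num_bern (by decide) (by decide +kernel)

theorem bern_10 : bernoulli 10 = ((5 : ℤ) : ℚ) / ((66 : ℕ) : ℚ) :=
  num_bern (by decide) (by decide +kernel)

theorem bern_14 : bernoulli 14 = ((7 : ℤ) : ℚ) / ((6 : ℕ) : ℚ) :=
  num_bern (by decide) (by decide +kernel)

theorem bern_12 : bernoulli 12 = ((-691 : ℤ) : ℚ) / ((2730 : ℕ) : ℚ) :=
  num_bern (by decide) (by decide +kernel)

theorem bern_16 : bernoulli 16 = ((-3617 : ℤ) : ℚ) / ((510 : ℕ) : ℚ) :=
  num_bern (by decide) (by decide +kernel)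

theorem bern_20 : bernoulli 20 = ((-174611 : ℤ) : ℚ) / ((330 : ℕ) : ℚ) :=
  num_bern (by decide) (by decide +kernel)

theorem bern_28 : bernoulli 28 = ((-23749461029 : ℤ) : ℚ) / ((870 : ℕ) : ℚ) :=
  num_bern (by decide) (by decide +kernel)

/-! ### Valuations -/

theorem num_val_zero {p : ℕ} (hp : p.Prime) {a : ℤ} {b : ℕ} (ha : ¬ (p : ℤ) ∣ a) (hb : ¬ p ∣ b) :
    padicValRat p ((a : ℚ) / (b : ℚ)) = 0 := by
  haveI := Fact.mk hp
  have ha0 : (a : ℚ) ≠ 0 := by
    intro h
    exact ha (by rw [Int.cast_eq_zero.1 h]; exact dvd_zero _)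
  have hb0 : (b : ℚ) ≠ 0 := by
    intro h
    exact hb (by rw [Nat.cast_eq_zero.1 h]; exact dvd_zero _)
  rw [padicValRat.div ha0 hb0, padicValRat.of_int, padicValRat.of_nat,
    padicValInt.eq_zero_of_not_dvd ha, padicValNat.eq_zero_of_not_dvd hb]
  rfl

theorem num_val_pos {p : ℕ} (hp : p.Prime) {a : ℤ} {b : ℕ} (ha0 : a ≠ 0) (ha : (p : ℤ) ∣ a)
    (hb : ¬ p ∣ b) : 0 < padicValRat p ((a : ℚ) / (b : ℚ)) := by
  haveI := Fact.mk hp
  have ha1 : (a : ℚ) ≠ 0 := Int.cast_ne_zero.2 ha0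
  have hb0 : (b : ℚ) ≠ 0 := by
    intro h
    exact hb (by rw [Nat.cast_eq_zero.1 h]; exact dvd_zero _)
  rw [padicValRat.div ha1 hb0, padicValRat.of_int, padicValRat.of_nat,
    padicValNat.eq_zero_of_not_dvd hb]
  have h1 : 1 ≤ padicValInt p a := by
    unfold padicValInt
    refine one_le_padicValNat_of_dvd (Int.natAbs_ne_zero.2 ha0) ?_
    exact Int.natCast_dvd.1 ha
  push_cast
  omega

theorem good_6 : Good 6 691 := by
  have hp : (691 : ℕ).Prime := by norm_num
  refine ⟨hp, by decide, by decide, by decide, ?_, ?_, by decide, by decide⟩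
  · rw [bern_6]
    exact num_val_zero hp (by decide) (by decide)
  · rw [show 2 * 6 = 12 from rfl, bern_12]
    exact num_val_pos hp (by decide) (by decide) (by decide)

theorem good_8 : Good 8 3617 := by
  have hp : (3617 : ℕ).Prime := by norm_num
  refine ⟨hp, by decide, by decide, by decide, ?_, ?_, by decide, by decide⟩
  · rw [bern_8]
    exact num_val_zero hp (by decide) (by decide)
  · rw [show 2 * 8 = 16 from rfl, bern_16]
    exact num_val_pos hp (by decide) (by decide) (by decide)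

theorem good_14 : Good 14 362903 := by
  have hp : (362903 : ℕ).Prime := by norm_num
  refine ⟨hp, by decide, by decide, by decide, ?_, ?_, by decide, by decide⟩
  · rw [bern_14]
    exact num_val_zero hp (by decide) (by decide)
  · rw [show 2 * 14 = 28 from rfl, bern_28]
    exact num_val_pos hp (by decide) (by decide) (by decide)

theorem good_10 : Good 10 283 := by
  have hp : (283 : ℕ).Prime := by norm_num
  refine ⟨hp, by decide, by decide, by decide, ?_, ?_, by decide, by decide⟩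
  · rw [bern_10]
    exact num_val_zero hp (by decide) (by decide)
  · rw [show 2 * 10 = 20 from rfl, bern_20]
    exact num_val_pos hp (by decide) (by decide) (by decide)

/-! ### Orders of 2 -/

theorem num_pow_one (p k : ℕ) : (2 : ZMod p) ^ k = 1 ↔ p ∣ 2 ^ k - 1 := by
  have h1 : 1 ≤ 2 ^ k := Nat.one_le_two_pow
  rw [← ZMod.natCast_eq_zero_iff, Nat.cast_sub h1, sub_eq_zero]
  push_cast
  rfl

theorem num_ord_ge {p N : ℕ} (hp : p.Prime) (h2 : p ≠ 2)
    (h : ∀ k < N, 0 < k → ¬ p ∣ 2 ^ k - 1) : N ≤ orderOf (2 : ZMod p) := by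
  haveI := Fact.mk hp
  have hne : (2 : ZMod p) ≠ 0 := by
    intro h0
    have h3 : ((2 : ℕ) : ZMod p) = 0 := by exact_mod_cast h0
    rw [ZMod.natCast_eq_zero_iff] at h3
    exact h2 ((Nat.prime_dvd_prime_iff_eq hp Nat.prime_two).1 h3)
  have hpos : 0 < orderOf (2 : ZMod p) := by
    rw [orderOf_pos_iff, isOfFinOrder_iff_pow_eq_one]
    exact ⟨p - 1, Nat.sub_pos_of_lt hp.one_lt, ZMod.pow_card_sub_one_eq_one hne⟩
  by_contra hlt
  exact h _ (not_le.1 hlt) hpos ((num_pow_one _ _).1 (pow_orderOf_eq_one _))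

theorem ord_691 : 2 ^ 5 ≤ orderOf (2 : ZMod 691) :=
  num_ord_ge (by norm_num) (by decide) (by decide +kernel)

theorem ord_3617 : 2 ^ 7 ≤ orderOf (2 : ZMod 3617) :=
  num_ord_ge (by norm_num) (by decide) (by decide +kernel)

theorem num_ord_two {p q r : ℕ} (hq : q.Prime) (hr : r.Prime) (h : p ∣ 2 ^ (q * r) - 1)
    (h1 : ¬ p ∣ 2 ^ q - 1) (h2 : ¬ p ∣ 2 ^ r - 1) : orderOf (2 : ZMod p) = q * r := by
  refine orderOf_eq_of_pow_and_pow_div_prime (Nat.mul_pos hq.pos hr.pos)
    ((num_pow_one _ _).2 h) fun t ht htd => ?_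
  rcases (Nat.Prime.dvd_mul ht).1 htd with h3 | h3
  · rw [(Nat.prime_dvd_prime_iff_eq ht hq).1 h3, Nat.mul_div_cancel_left _ hq.pos]
    exact fun h4 => h2 ((num_pow_one _ _).1 h4)
  · rw [(Nat.prime_dvd_prime_iff_eq ht hr).1 h3, Nat.mul_div_cancel _ hr.pos]
    exact fun h4 => h1 ((num_pow_one _ _).1 h4)

theorem ord_362903 : 2 ^ 13 ≤ orderOf (2 : ZMod 362903) := by
  rw [num_ord_two (q := 421) (r := 431) (by norm_num) (by norm_num) (by decide +kernel)
    (by decide +kernel) (by decide +kernel)]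
  decide

theorem wief_691 : ¬ 691 ^ 2 ∣ 2 ^ (691 - 1) - 1 := by decide +kernel

theorem wief_3617 : ¬ 3617 ^ 2 ∣ 2 ^ (3617 - 1) - 1 := by decide +kernel

theorem wief_362903 : ¬ 362903 ^ 2 ∣ 2 ^ (362903 - 1) - 1 := by decide +kernel

theorem wief_283 : ¬ 283 ^ 2 ∣ 2 ^ (283 - 1) - 1 := by decide +kernel

theorem ord_283 : orderOf (2 : ZMod 283) = 94 :=
  num_ord_two (q := 2) (r := 47) (by norm_num) (by norm_num) (by decide +kernel)
    (by decide +kernel) (by decide +kernel)

end Pool.Agent.Lib_MP_e4b855_nt.Tri
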