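import Pool.Agent.Lib_MP_e4b855_nt.Tri.Dvd

/-!
# The induction for the first order lemma
-/

namespace Pool.Agent.Lib_MP_e4b855_nt.Tri

open Finset

/-- the integral moment at `1` -/
def mom (f : ℤ →₀ ℤ) (k : ℕ) : ℤ := f.sum fun n c => c * n ^ k

/-- the terms with exponent prime to `p` -/
noncomputable def f0 (p : ℕ) (f : ℤ →₀ ℤ) : ℤ →₀ ℤ := f.filter (fun n => ¬ (p : ℤ) ∣ n)

/-- the coefficients `f_{pn}` -/
noncomputable def f1 (p : ℕ) (f : ℤ →₀ ℤ) : ℤ →₀ ℤ :=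
  (f.filter (fun n => (p : ℤ) ∣ n)).mapDomain (fun n => n / p)

/-- the operator `T` -/
noncomputable def TP (p : ℕ) (f : ℤ →₀ ℤ) : ℤ →₀ ℤ := f0 p f + (p : ℤ) • f1 p f

theorem Mk_add (f g : ℤ →₀ ℤ) (k : ℕ) (ξ : ℂ) : Mk (f + g) k ξ = Mk f k ξ + Mk g k ξ := by
  unfold Mk
  exact Finsupp.sum_add_index' (fun n => by simp) (fun n a b => by push_cast; ring)

theorem Mk_smul (a : ℤ) (f : ℤ →₀ ℤ) (k : ℕ) (ξ : ℂ) : Mk (a • f) k ξ = a * Mk f k ξ := by
  unfold Mk
  rw [Finsupp.sum_smul_index (fun n => by simp), Finsupp.mul_sum]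
  exact Finsupp.sum_congr fun n _ => by push_cast; ring

theorem mom_add (f g : ℤ →₀ ℤ) (k : ℕ) : mom (f + g) k = mom f k + mom g k := by
  unfold mom
  exact Finsupp.sum_add_index' (fun n => by simp) (fun n a b => by ring)

theorem mom_smul (a : ℤ) (f : ℤ →₀ ℤ) (k : ℕ) : mom (a • f) k = a * mom f k := by
  unfold mom
  rw [Finsupp.sum_smul_index (fun n => by simp), Finsupp.mul_sum]
  exact Finsupp.sum_congr fun n _ => by ring

theorem filter_split (p : ℕ) (f : ℤ →₀ ℤ) : f = f0 p f + f.filter (fun n => (p : ℤ) ∣ n) := by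
  unfold f0
  rw [add_comm]
  exact (Finsupp.filter_add_filter_not f _).symm

theorem Mk_f1 {p : ℕ} (hp : 0 < p) (f : ℤ →₀ ℤ) (k : ℕ) (ξ : ℂ) :
    Mk (f.filter (fun n => (p : ℤ) ∣ n)) k ξ = (p : ℂ) ^ k * Mk (f1 p f) k (ξ ^ p) := by
  unfold Mk f1
  rw [Finsupp.sum_mapDomain_index (fun n => by simp) (fun n a b => by push_cast; ring),
    Finsupp.mul_sum]
  refine Finsupp.sum_congr fun n hn => ?_
  have hd : (p : ℤ) ∣ n := by
    have := Finsupp.mem_support_iff.1 hn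
    by_contra h
    exact this (Finsupp.filter_apply_neg _ _ h)
  obtain ⟨q, rfl⟩ := hd
  have hp' : (p : ℤ) ≠ 0 := by exact_mod_cast hp.ne'
  rw [Int.mul_ediv_cancel_left _ hp']
  have : ξ ^ ((p : ℤ) * q) = (ξ ^ p) ^ q := by rw [zpow_mul, zpow_natCast]
  rw [this]
  push_cast
  ring

theorem mom_f1 {p : ℕ} (hp : 0 < p) (f : ℤ →₀ ℤ) (k : ℕ) :
    mom (f.filter (fun n => (p : ℤ) ∣ n)) k = (p : ℤ) ^ k * mom (f1 p f) k := by
  unfold mom f1
  rw [Finsupp.sum_mapDomain_index (fun n => by simp) (fun n a b => by ring),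
    Finsupp.mul_sum]
  refine Finsupp.sum_congr fun n hn => ?_
  have hd : (p : ℤ) ∣ n := by
    have := Finsupp.mem_support_iff.1 hn
    by_contra h
    exact this (Finsupp.filter_apply_neg _ _ h)
  obtain ⟨q, rfl⟩ := hd
  have hp' : (p : ℤ) ≠ 0 := by exact_mod_cast hp.ne'
  rw [Int.mul_ediv_cancel_left _ hp']
  ring

/-! ### sums over the `p`-th roots of unity -/

theorem neZero_prime (p : ℕ) [Fact p.Prime] : NeZero p := ⟨(Fact.out : p.Prime).ne_zero⟩

attribute [local instance] neZero_prime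

/-- the `p`-th roots of unity form a finite type -/
@[instance_reducible] noncomputable def fintypeRou (p : ℕ) [Fact p.Prime] : Fintype (rootsOfUnity p ℂ) :=
  Fintype.ofFinite _

attribute [local instance] fintypeRou

theorem rou_card (p : ℕ) [Fact p.Prime] : Fintype.card (rootsOfUnity p ℂ) = p := by
  rw [← Nat.card_eq_fintype_card]
  exact Complex.card_rootsOfUnity p

theorem rou_pow {p : ℕ} (η : rootsOfUnity p ℂ) : ((η : ℂˣ) : ℂ) ^ p = 1 := by
  have := (mem_rootsOfUnity p (η : ℂˣ)).1 η.2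
  rw [← Units.val_pow_eq_pow_val, this, Units.val_one]

theorem rou_sum_zpow {p : ℕ} [Fact p.Prime] (n : ℤ) :
    ∑ η : rootsOfUnity p ℂ, ((η : ℂˣ) : ℂ) ^ n = if (p : ℤ) ∣ n then (p : ℂ) else 0 := by
  have hp : p.Prime := Fact.out
  by_cases h : (p : ℤ) ∣ n
  · obtain ⟨q, rfl⟩ := h
    have h1 : ∀ η : rootsOfUnity p ℂ, ((η : ℂˣ) : ℂ) ^ ((p : ℤ) * q) = 1 := by
      intro η
      rw [zpow_mul, zpow_natCast, rou_pow, one_zpow]
    simp only [h1, Finset.sum_const, Finset.card_univ, rou_card]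
    simp
  · rw [if_neg h]
    have hprim := Complex.isPrimitiveRoot_exp p hp.ne_zero
    set ω : rootsOfUnity p ℂ := hprim.toRootsOfUnity with hω
    have hωv : ((ω : ℂˣ) : ℂ) = Complex.exp (2 * Real.pi * Complex.I / p) := by
      rw [hω]; simp
    have hne : ((ω : ℂˣ) : ℂ) ^ n ≠ 1 := by
      rw [hωv]
      intro h2
      exact h ((hprim.zpow_eq_one_iff_dvd n).1 h2)
    have h3 : ((ω : ℂˣ) : ℂ) ^ n * ∑ η : rootsOfUnity p ℂ, ((η : ℂˣ) : ℂ) ^ n =
        ∑ η : rootsOfUnity p ℂ, ((η : ℂˣ) : ℂ) ^ n := by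
      rw [Finset.mul_sum, ← Equiv.sum_comp (Equiv.mulLeft ω)
        (fun η : rootsOfUnity p ℂ => ((η : ℂˣ) : ℂ) ^ n)]
      refine Finset.sum_congr rfl fun η _ => ?_
      rw [Equiv.coe_mulLeft, Subgroup.coe_mul, Units.val_mul, mul_zpow]
    have h4 : (((ω : ℂˣ) : ℂ) ^ n - 1) * ∑ η : rootsOfUnity p ℂ, ((η : ℂˣ) : ℂ) ^ n = 0 := by
      rw [sub_mul, h3, one_mul, sub_self]
    exact (mul_eq_zero.1 h4).resolve_left (sub_ne_zero.2 hne)

theorem rou_sum_Mk {p : ℕ} [Fact p.Prime] (f : ℤ →₀ ℤ) (k : ℕ) (y : ℂ) :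
    ∑ η : rootsOfUnity p ℂ, Mk f k (((η : ℂˣ) : ℂ) * y) =
      p * Mk (f.filter (fun n => (p : ℤ) ∣ n)) k y := by
  have h1 : Mk (f.filter (fun n => (p : ℤ) ∣ n)) k y =
      ∑ n ∈ f.support, if (p : ℤ) ∣ n then (f n : ℂ) * (n : ℂ) ^ k * y ^ n else 0 := by
    unfold Mk
    rw [Finsupp.sum_filter_index, Finsupp.support_filter, Finset.sum_filter]
  rw [h1]
  simp only [Mk, Finsupp.sum]
  rw [Finset.sum_comm, Finset.mul_sum]
  refine Finset.sum_congr rfl fun n _ => ?_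
  have h2 : ∀ η : rootsOfUnity p ℂ, (f n : ℂ) * (n : ℂ) ^ k * (((η : ℂˣ) : ℂ) * y) ^ n =
      ((f n : ℂ) * (n : ℂ) ^ k * y ^ n) * ((η : ℂˣ) : ℂ) ^ n := by
    intro η
    rw [mul_zpow]; ring
  simp only [h2]
  rw [← Finset.mul_sum, rou_sum_zpow]
  split_ifs
  · ring
  · ring

/-- the sum over the fibre of `y ↦ y^p` depends on `y^p` only -/
theorem rou_sum_congr {p : ℕ} [Fact p.Prime] (g : ℂ → ℂ) {y y' : ℂ} (hy : y' ≠ 0)
    (h : y ^ p = y' ^ p) :
    ∑ η : rootsOfUnity p ℂ, g (((η : ℂˣ) : ℂ) * y) =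
      ∑ η : rootsOfUnity p ℂ, g (((η : ℂˣ) : ℂ) * y') := by
  have hp : p.Prime := Fact.out
  have hq : (y / y') ^ p = 1 := by
    rw [div_pow, h, div_self (pow_ne_zero _ hy)]
  set ω : rootsOfUnity p ℂ := rootsOfUnity.mkOfPowEq (y / y') hq with hω
  have hωv : ((ω : ℂˣ) : ℂ) = y / y' := by rw [hω]; simp
  rw [← Equiv.sum_comp (Equiv.mulRight ω) (fun η : rootsOfUnity p ℂ => g (((η : ℂˣ) : ℂ) * y'))]
  refine Finset.sum_congr rfl fun η _ => ?_
  rw [Equiv.coe_mulRight, Subgroup.coe_mul, Units.val_mul, hωv]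
  congr 1
  field_simp

/-! ### orders -/

theorem prim_of_pow {p : ℕ} [Fact p.Prime] {y z : ℂ} (h : y ^ p = z) {j : ℕ} (hj : 1 ≤ j)
    (hz : IsPrimitiveRoot z (p ^ j)) : IsPrimitiveRoot y (p ^ (j + 1)) := by
  have hp : p.Prime := Fact.out
  obtain ⟨i, rfl⟩ : ∃ i, j = i + 1 := ⟨j - 1, by omega⟩
  have h1 : orderOf y = p ^ (i + 1 + 1) := by
    refine orderOf_eq_prime_pow ?_ ?_
    · rw [pow_succ' p i, pow_mul, h]
      intro h2
      have := (hz.pow_eq_one_iff_dvd _).1 h2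
      have h3 := Nat.le_of_dvd (pow_pos hp.pos i) this
      exact absurd h3 (not_le.2 (Nat.pow_lt_pow_right hp.one_lt (Nat.lt_succ_self i)))
    · rw [pow_succ' p (i + 1), pow_mul, h]
      exact hz.pow_eq_one
  rw [← h1]
  exact IsPrimitiveRoot.orderOf y

theorem prim_rou_mul {p : ℕ} [Fact p.Prime] (η : rootsOfUnity p ℂ) {y : ℂ} {l : ℕ} (hl : 2 ≤ l)
    (hy : IsPrimitiveRoot y (p ^ l)) : IsPrimitiveRoot (((η : ℂˣ) : ℂ) * y) (p ^ l) := by
  have hp : p.Prime := Fact.out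
  obtain ⟨i, rfl⟩ : ∃ i, l = i + 1 := ⟨l - 1, by omega⟩
  refine prim_of_pow (z := y ^ p) ?_ (by omega) ?_
  · rw [mul_pow, rou_pow, one_mul]
  · have : p ^ (i + 1) = p * p ^ i := pow_succ' p i
    exact hy.pow (pow_pos hp.pos _) this

theorem one_or_prim {p : ℕ} [Fact p.Prime] {y : ℂ} (h : y ^ p = 1) :
    y = 1 ∨ IsPrimitiveRoot y (p ^ 1) := by
  by_cases hy : y = 1
  · exact Or.inl hy
  · right
    have h1 : orderOf y = p ^ (0 + 1) := orderOf_eq_prime_pow (by simpa using hy) (by simpa using h)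
    have h2 := IsPrimitiveRoot.orderOf y
    rw [h1] at h2
    simpa using h2

/-- the induction for the first order lemma -/
theorem fo_ind {p : ℕ} [Fact p.Prime] {m : ℕ} (hm : 1 ≤ m) (L : ℕ) :
    ∀ (f : ℤ →₀ ℤ) (W : ℕ → ℂ → ℂ) (ε : ℕ) (α : ℕ → ℕ),
      (∀ j, 1 ≤ j → α j ≤ m - 1) →
      (∀ k < m, ∀ y : ℂ, y ^ (p ^ L) = 1 →
        W k y = Mk f k y + (p : ℂ) ^ ((k : ℤ) - 1) * W k (y ^ p)) →
      (∀ k < ε, W k 1 = 0) →
      (∀ j, 1 ≤ j → j ≤ L → ∀ k < α j, ∀ y : ℂ, IsPrimitiveRoot y (p ^ j) → W k y = 0) →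
      (p : ℤ) ^ (min ε (m - 1) + ∑ j ∈ Icc 1 L, α j) ∣ (p : ℤ) ^ (m - 1) * mom f m := by
  have hp : p.Prime := Fact.out
  have hpC : (p : ℂ) ≠ 0 := by exact_mod_cast hp.ne_zero
  induction L with
  | zero =>
    intro f W ε α _ _ _ _
    simp only [Finset.Icc_eq_empty_of_lt Nat.zero_lt_one, Finset.sum_empty, add_zero]
    exact Dvd.dvd.mul_right (pow_dvd_pow _ (min_le_right _ _)) _
  | succ L ih =>
    intro f W ε α hα hrel hone hprim
    have hα1 := hα 1 le_rfl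
    -- vanishing on the p-th roots of unity
    have hvan1 : ∀ y : ℂ, y ^ p = 1 → ∀ k < min ε (α 1), W k y = 0 := by
      intro y hy k hk
      rcases one_or_prim hy with h | h
      · rw [h]; exact hone k (lt_of_lt_of_le hk (min_le_left _ _))
      · exact hprim 1 le_rfl (by omega) k (lt_of_lt_of_le hk (min_le_right _ _)) y h
    -- P_0
    have hP0 : ∀ k < m, ∀ y : ℂ, y ^ (p ^ (L + 1)) = 1 →
        Mk (f0 p f) k y = W k y - (1 / (p : ℂ)) *
          ∑ η : rootsOfUnity p ℂ, W k (((η : ℂˣ) : ℂ) * y) := by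
      intro k hk y hy
      have h1 : ∀ η : rootsOfUnity p ℂ, W k (((η : ℂˣ) : ℂ) * y) =
          Mk f k (((η : ℂˣ) : ℂ) * y) + (p : ℂ) ^ ((k : ℤ) - 1) * W k (y ^ p) := by
        intro η
        have h2 : (((η : ℂˣ) : ℂ) * y) ^ p = y ^ p := by rw [mul_pow, rou_pow, one_mul]
        rw [hrel k hk, h2]
        rw [mul_pow, hy, mul_one, pow_succ' p L, pow_mul, rou_pow, one_pow]
      simp only [h1]
      rw [Finset.sum_add_distrib, rou_sum_Mk, Finset.sum_const, Finset.card_univ,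
        rou_card, nsmul_eq_mul, hrel k hk y hy]
      have h3 : Mk f k y = Mk (f0 p f) k y + Mk (f.filter (fun n => (p : ℤ) ∣ n)) k y := by
        rw [← Mk_add, ← filter_split]
      rw [h3]
      field_simp
      ring
    have hd0 : (p : ℤ) ^ (min ε (α 1) + ∑ l ∈ Icc 2 (L + 1), α l) ∣ mom (f0 p f) m := by
      refine dvd_moment (f0 p f) (min ε (α 1)) (L + 1) α ?_ ?_ m
      · intro ξ hξ k hk
        have hkm : k < m := by
          have := lt_of_lt_of_le hk (min_le_right _ _)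
          omega
        rw [hP0 k hkm ξ (by rw [pow_succ' p L, pow_mul, hξ, one_pow]), hvan1 ξ hξ k hk]
        rw [Finset.sum_eq_zero, mul_zero, sub_zero]
        intro η _
        exact hvan1 _ (by rw [mul_pow, rou_pow, one_mul, hξ]) k hk
      · intro l hl hlL ξ hξ k hk
        have hkm : k < m := by
          have := hα l (by omega)
          omega
        rw [hP0 k hkm ξ ((hξ.pow_eq_one_iff_dvd _).2 (pow_dvd_pow p hlL)),
          hprim l (by omega) hlL k hk ξ hξ]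
        rw [Finset.sum_eq_zero, mul_zero, sub_zero]
        intro η _
        exact hprim l (by omega) hlL k hk _ (prim_rou_mul η hl hξ)
    -- the function W'
    obtain ⟨rt, hrt⟩ : ∃ rt : ℂ → ℂ, ∀ z, rt z ^ p = z :=
      ⟨fun z => (IsAlgClosed.exists_pow_nat_eq z hp.pos).choose,
        fun z => (IsAlgClosed.exists_pow_nat_eq z hp.pos).choose_spec⟩
    have hIH := ih (TP p f)
      (fun k z => ((p : ℂ) ^ k)⁻¹ * ∑ η : rootsOfUnity p ℂ, W k (((η : ℂˣ) : ℂ) * rt z))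
      (min ε (α 1)) (fun j => α (j + 1)) (fun j _ => hα (j + 1) (by omega)) ?_ ?_ ?_
    · -- conclusion
      have hsum : ∑ j ∈ Icc 1 (L + 1), α j = α 1 + ∑ l ∈ Icc 2 (L + 1), α l := by
        rw [← Finset.insert_Icc_succ_left_eq_Icc (show 1 ≤ L + 1 by omega),
          Finset.sum_insert (by simp)]
        rfl
      have hsum2 : ∑ l ∈ Icc 2 (L + 1), α l = ∑ j ∈ Icc 1 L, α (j + 1) := by
        rw [← Finset.map_add_right_Icc 1 L 1, Finset.sum_map]
        rfl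
      have hmom : (p : ℤ) ^ (m - 1) * mom f m =
          (1 - (p : ℤ) ^ (m - 1)) * ((p : ℤ) ^ (m - 1) * mom (f0 p f) m) +
            (p : ℤ) ^ (m - 1) * ((p : ℤ) ^ (m - 1) * mom (TP p f) m) := by
        have e1 : mom f m = mom (f0 p f) m + (p : ℤ) ^ m * mom (f1 p f) m := by
          rw [← mom_f1 hp.pos, ← mom_add, ← filter_split]
        have e2 : mom (TP p f) m = mom (f0 p f) m + p * mom (f1 p f) m := by
          unfold TP
          rw [mom_add, mom_smul]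
        have e3 : (p : ℤ) ^ m = (p : ℤ) ^ (m - 1) * p := by
          rw [← pow_succ]; congr 1; omega
        rw [e1, e2, e3]
        ring
      rw [hmom]
      refine dvd_add (Dvd.dvd.mul_left ?_ _) ?_
      · refine dvd_trans (pow_dvd_pow _ ?_)
          (by rw [pow_add]; exact mul_dvd_mul (dvd_refl ((p : ℤ) ^ (m - 1))) hd0)
        rw [hsum]
        omega
      · refine dvd_trans (pow_dvd_pow _ ?_)
          (by rw [pow_add]; exact mul_dvd_mul (dvd_refl ((p : ℤ) ^ (m - 1))) hIH)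
        rw [hsum, hsum2]
        omega
    · -- relation
      intro k hk z hz
      have hz0 : z ≠ 0 := by
        rintro rfl
        rw [zero_pow (pow_ne_zero _ hp.ne_zero)] at hz
        exact zero_ne_one hz
      have hzL : z ^ (p ^ (L + 1)) = 1 := by rw [pow_succ p L, pow_mul, hz, one_pow]
      have h1 : ∀ η : rootsOfUnity p ℂ, W k (((η : ℂˣ) : ℂ) * rt z) =
          Mk f k (((η : ℂˣ) : ℂ) * rt z) + (p : ℂ) ^ ((k : ℤ) - 1) * W k z := by
        intro η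
        have h2 : (((η : ℂˣ) : ℂ) * rt z) ^ p = z := by rw [mul_pow, rou_pow, one_mul, hrt]
        rw [hrel k hk, h2]
        rw [pow_succ' p L, pow_mul, h2, hz]
      have h2 : ∑ η : rootsOfUnity p ℂ, W k (((η : ℂˣ) : ℂ) * rt z) =
          p * ((p : ℂ) ^ k * Mk (f1 p f) k z) + p * ((p : ℂ) ^ ((k : ℤ) - 1) * W k z) := by
        simp only [h1]
        rw [Finset.sum_add_distrib, rou_sum_Mk, Finset.sum_const, Finset.card_univ,
          rou_card, nsmul_eq_mul, Mk_f1 hp.pos, hrt]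
      have h3 : (p : ℂ) ^ ((k : ℤ) - 1) = (p : ℂ) ^ k / p := by
        rw [zpow_sub₀ hpC, zpow_natCast, zpow_one]
      have h4 := hP0 k hk z hzL
      have h5 : ∑ η : rootsOfUnity p ℂ, W k (((η : ℂˣ) : ℂ) * rt (z ^ p)) =
          ∑ η : rootsOfUnity p ℂ, W k (((η : ℂˣ) : ℂ) * z) :=
        rou_sum_congr (W k) hz0 (hrt _)
      have hT : Mk (TP p f) k z = Mk (f0 p f) k z + p * Mk (f1 p f) k z := by
        unfold TP
        rw [Mk_add, Mk_smul]
        push_cast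
        rfl
      have hW : W k z = Mk (f0 p f) k z + (1 / (p : ℂ)) *
          ∑ η : rootsOfUnity p ℂ, W k (((η : ℂˣ) : ℂ) * z) := by rw [h4]; ring
      show ((p : ℂ) ^ k)⁻¹ * ∑ η : rootsOfUnity p ℂ, W k (((η : ℂˣ) : ℂ) * rt z) =
        Mk (TP p f) k z + (p : ℂ) ^ ((k : ℤ) - 1) * (((p : ℂ) ^ k)⁻¹ *
          ∑ η : rootsOfUnity p ℂ, W k (((η : ℂˣ) : ℂ) * rt (z ^ p)))
      rw [h5, h2, hT, h3]
      have h6 : ((p : ℂ) ^ k)⁻¹ * (p * ((p : ℂ) ^ k * Mk (f1 p f) k z) +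
          p * ((p : ℂ) ^ k / p * W k z)) = p * Mk (f1 p f) k z + W k z := by
        field_simp
      rw [h6, hW]
      generalize (∑ η : rootsOfUnity p ℂ, W k (((η : ℂˣ) : ℂ) * z)) = S
      field_simp
      ring
    · -- at 1
      intro k hk
      show ((p : ℂ) ^ k)⁻¹ * ∑ η : rootsOfUnity p ℂ, W k (((η : ℂˣ) : ℂ) * rt 1) = 0
      rw [Finset.sum_eq_zero, mul_zero]
      intro η _
      exact hvan1 _ (by rw [mul_pow, rou_pow, one_mul, hrt]) k hk
    · -- primitive roots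
      intro j hj hjL k hk z hz
      show ((p : ℂ) ^ k)⁻¹ * ∑ η : rootsOfUnity p ℂ, W k (((η : ℂˣ) : ℂ) * rt z) = 0
      rw [Finset.sum_eq_zero, mul_zero]
      intro η _
      exact hprim (j + 1) (by omega) (by omega) k hk _
        (prim_of_pow (z := z) (by rw [mul_pow, rou_pow, one_mul, hrt]) hj hz)

end Pool.Agent.Lib_MP_e4b855_nt.Tri
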