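import Pool.Agent.Lib_MP_e4b855_nt.Tri.Dvd
import Pool.Agent.Lib_MP_e4b855_nt.Tri.FirstAux

namespace Pool.Agent.Lib_MP_e4b855_nt.Tri

open Finset

/-- the coefficients of `P_v` -/
noncomputable def symP (v : ℕ →₀ ℤ) : ℤ →₀ ℤ :=
  v.mapDomain (fun n : ℕ => (n : ℤ)) + v.mapDomain (fun n : ℕ => -(n : ℤ))

theorem Mk_symP (v : ℕ →₀ ℤ) (k : ℕ) (ξ : ℂ) : Mk (symP v) k ξ = Pk v k ξ := by
  unfold symP
  rw [Mk_add]
  unfold Mk Pk
  rw [Finsupp.sum_mapDomain_index (fun n => by simp) (fun n a b => by push_cast; ring),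
    Finsupp.sum_mapDomain_index (fun n => by simp) (fun n a b => by push_cast; ring),
    ← Finsupp.sum_add]
  refine Finsupp.sum_congr fun n _ => ?_
  rw [zpow_neg, zpow_natCast]
  have : (((-(n : ℤ) : ℤ) : ℂ)) ^ k = (-1) ^ k * (n : ℂ) ^ k := by
    rw [← mul_pow]; push_cast; ring
  rw [this]
  push_cast
  ring

theorem mom_symP (v : ℕ →₀ ℤ) {m : ℕ} (hev : Even m) :
    mom (symP v) m = 2 * v.sum fun n c => c * (n : ℤ) ^ m := by
  unfold symP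
  rw [mom_add]
  unfold mom
  rw [Finsupp.sum_mapDomain_index (fun n => by simp) (fun n a b => by ring),
    Finsupp.sum_mapDomain_index (fun n => by simp) (fun n a b => by ring),
    two_mul]
  congr 1
  refine Finsupp.sum_congr fun n _ => ?_
  rw [hev.neg_pow]

/-- Piece C1.  First order lemma (see BLUEPRINT, section E: induction on `L` with the operator
`v ↦ v_n (p ∤ n), p v_{pn}` and a general `ε₀ ≤ m`; the induction statement is
`p^{min(ε₀, m-1) + ∑ α_l} ∣ p^{m-1} D^m P(1)`). -/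
theorem first_order {p : ℕ} [Fact p.Prime] (hp2 : p ≠ 2) {m : ℕ} (hm : 2 ≤ m) (hev : Even m)
    (v : ℕ →₀ ℤ) (hv : v 0 = 0) (α : ℕ → ℕ) (L : ℕ) (hL : ∀ j, L < j → α j = 0)
    (hα : ∀ j, 1 ≤ j → α j ≤ m - 1) (h1 : ∀ k < m, Pk v k 1 = 0)
    (hW : ∀ j, 1 ≤ j → ∀ k < α j, ∀ ζ : ℂ, IsPrimitiveRoot ζ (p ^ j) → Wz p j v k ζ = 0) :
    (p : ℤ) ^ (∑ j ∈ Icc 1 L, α j) ∣ v.sum fun n c => c * (n : ℤ) ^ m := by
  have hp : p.Prime := Fact.out
  have hpC : (p : ℂ) ≠ 0 := by exact_mod_cast hp.ne_zero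
  have hone : ∀ k < m, Mk (symP v) k 1 = 0 := fun k hk => by rw [Mk_symP]; exact h1 k hk
  have hmain := fo_ind (p := p) (m := m) (by omega) L (symP v)
    (fun k y => ∑ i ∈ range L, ((p : ℂ) ^ i) ^ ((k : ℤ) - 1) * Mk (symP v) k (y ^ p ^ i)) m α hα
    ?_ ?_ ?_
  · rw [min_eq_right (by omega : m - 1 ≤ m), pow_add, mom_symP v hev] at hmain
    have h2 := (mul_dvd_mul_iff_left (pow_ne_zero (m - 1)
      (show (p : ℤ) ≠ 0 by exact_mod_cast hp.ne_zero))).1 hmain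
    refine IsCoprime.dvd_of_dvd_mul_left ?_ h2
    refine IsCoprime.pow_left ?_
    rw [show (2 : ℤ) = ((2 : ℕ) : ℤ) by norm_num, Nat.isCoprime_iff_coprime]
    exact (Nat.coprime_primes hp Nat.prime_two).2 hp2
  · intro k hk y hy
    have h2 : (p : ℂ) ^ ((k : ℤ) - 1) *
        ∑ i ∈ range L, ((p : ℂ) ^ i) ^ ((k : ℤ) - 1) * Mk (symP v) k ((y ^ p) ^ p ^ i) =
        ∑ i ∈ range L, ((p : ℂ) ^ (i + 1)) ^ ((k : ℤ) - 1) * Mk (symP v) k (y ^ p ^ (i + 1)) := by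
      rw [Finset.mul_sum]
      refine Finset.sum_congr rfl fun i _ => ?_
      rw [← pow_mul, ← pow_succ' p i, pow_succ' (p : ℂ) i, mul_zpow]
      ring
    have h3 := Finset.sum_range_succ' (fun i : ℕ => ((p : ℂ) ^ i) ^ ((k : ℤ) - 1) *
      Mk (symP v) k (y ^ p ^ i)) L
    have h4 := Finset.sum_range_succ (fun i : ℕ => ((p : ℂ) ^ i) ^ ((k : ℤ) - 1) *
      Mk (symP v) k (y ^ p ^ i)) L
    simp only [hy, hone k hk, mul_zero, add_zero] at h4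
    simp only [pow_zero, one_zpow, one_mul, pow_one] at h3
    show (∑ i ∈ range L, ((p : ℂ) ^ i) ^ ((k : ℤ) - 1) * Mk (symP v) k (y ^ p ^ i)) =
      Mk (symP v) k y + (p : ℂ) ^ ((k : ℤ) - 1) *
        ∑ i ∈ range L, ((p : ℂ) ^ i) ^ ((k : ℤ) - 1) * Mk (symP v) k ((y ^ p) ^ p ^ i)
    rw [h2, ← h4, h3, add_comm]
  · intro k hk
    refine Finset.sum_eq_zero fun i _ => ?_
    rw [one_pow, hone k hk, mul_zero]
  · intro j hj hjL k hk y hy
    have hkm : k < m := by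
      have := hα j hj
      omega
    have h2 := hW j hj k hk y hy
    unfold Wz at h2
    show (∑ i ∈ range L, ((p : ℂ) ^ i) ^ ((k : ℤ) - 1) * Mk (symP v) k (y ^ p ^ i)) = 0
    rw [← Finset.sum_range_add_sum_Ico _ hjL]
    have h3 : ∑ i ∈ range j, ((p : ℂ) ^ i) ^ ((k : ℤ) - 1) * Mk (symP v) k (y ^ p ^ i) = 0 := by
      rw [← h2]
      exact Finset.sum_congr rfl fun i _ => by rw [Mk_symP]
    rw [h3, zero_add]
    refine Finset.sum_eq_zero fun i hi => ?_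
    have hji : j ≤ i := (Finset.mem_Ico.1 hi).1
    rw [(hy.pow_eq_one_iff_dvd _).2 (pow_dvd_pow p hji), hone k hkm, mul_zero]

end Pool.Agent.Lib_MP_e4b855_nt.Tri
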