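import Pool.Agent.Lib_MP_e4b855_nt.Tri.BSer
import Pool.Agent.Lib_MP_e4b855_nt.Tri.FF

namespace Pool.Agent.Lib_MP_e4b855_nt.Tri

open PowerSeries Finset

/-- `t F' = L F` -/
def LdfP (F L : ℂ⟦X⟧) : Prop := X * d⁄dX ℂ F = L * F

theorem LdfP.mul {F F' L L' : ℂ⟦X⟧} (h : LdfP F L) (h' : LdfP F' L') :
    LdfP (F * F') (L + L') := by
  unfold LdfP at *
  rw [Derivation.leibniz, smul_eq_mul, smul_eq_mul]
  linear_combination F' * h + F * h'

theorem LdfP.pow {F L : ℂ⟦X⟧} (h : LdfP F L) (n : ℕ) : LdfP (F ^ n) (n * L) := by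
  induction n with
  | zero => unfold LdfP; simp
  | succ n ih =>
    have h1 := ih.mul h
    rw [← pow_succ] at h1
    have h2 : ((n + 1 : ℕ) : ℂ⟦X⟧) * L = n * L + L := by push_cast; ring
    rw [h2]
    exact h1

theorem LdfP.prod {ι : Type*} (s : Finset ι) (F L : ι → ℂ⟦X⟧) (h : ∀ i ∈ s, LdfP (F i) (L i)) :
    LdfP (∏ i ∈ s, F i) (∑ i ∈ s, L i) := by
  classical
  induction s using Finset.induction_on with
  | empty => unfold LdfP; simp
  | insert a s ha ih =>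
    rw [Finset.prod_insert ha, Finset.sum_insert ha]
    exact (h a (Finset.mem_insert_self a s)).mul
      (ih fun i hi => h i (Finset.mem_insert_of_mem hi))

theorem ldf_coeff_ee (a : ℂ) (n : ℕ) : coeff n (ee a) = a ^ n / n.factorial := by
  unfold ee
  rw [coeff_rescale, coeff_exp]
  simp [div_eq_mul_inv]

theorem ldf_deriv_ee (a : ℂ) : d⁄dX ℂ (ee a) = C a * ee a := by
  ext n
  rw [coeff_derivative, coeff_C_mul, ldf_coeff_ee, ldf_coeff_ee, Nat.factorial_succ]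
  have h1 : ((n.factorial : ℕ) : ℂ) ≠ 0 := by exact_mod_cast n.factorial_ne_zero
  have h2 : ((n : ℂ) + 1) ≠ 0 := by exact_mod_cast n.succ_ne_zero
  push_cast
  field_simp
  ring

theorem ldf_C_ee (c a : ℂ) : LdfP (C c * ee a) (C a * X) := by
  unfold LdfP
  rw [Derivation.leibniz, smul_eq_mul, smul_eq_mul, ldf_deriv_ee, derivative_C]
  ring

/-- one factor -/
theorem ldf_factor {N : ℕ} (hN : 0 < N) {ζ : ℂ} (hζ : ζ ^ N = 1) (n : ℕ) :
    LdfP (C (ζ ^ n) * ee ((1 : ℂ) * n) - 1)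
      (C (n : ℂ) * X + rescale (n : ℂ) (bser N (ζ ^ n))) := by
  have hy : (ζ ^ n) ^ N = 1 := by rw [← pow_mul, mul_comm, pow_mul, hζ, one_pow]
  have h1 := congrArg (rescale (n : ℂ)) (bser_mul hN hy)
  rw [map_mul, map_sub, map_mul, map_one, rescale_X] at h1
  have h2 : rescale (n : ℂ) (C (ζ ^ n)) = C (ζ ^ n) := by
    ext k
    rw [coeff_rescale, coeff_C]
    split_ifs with hk
    · rw [hk]; simp
    · simp
  rw [h2] at h1
  change rescale (n : ℂ) (bser N (ζ ^ n)) * (C (ζ ^ n) * ee (n : ℂ) - 1) = C (n : ℂ) * X at h1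
  unfold LdfP
  rw [one_mul, map_sub, Derivation.leibniz, smul_eq_mul, smul_eq_mul, ldf_deriv_ee, derivative_C,
    Derivation.map_one_eq_zero]
  linear_combination (-1 : ℂ⟦X⟧) * h1

theorem ldf_ne {ζ : ℂ} (hζ : ζ ≠ 0) {n : ℕ} (hn : n ≠ 0) :
    (C (ζ ^ n) * ee ((1 : ℂ) * n) - 1 : ℂ⟦X⟧) ≠ 0 := by
  intro h0
  have h1 := congrArg (coeff 1) h0
  rw [map_sub, coeff_C_mul, ldf_coeff_ee, coeff_one] at h1
  simp at h1
  rcases h1 with h1 | h1
  · exact hζ h1.1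
  · exact hn h1

/-- Piece A3.  Logarithmic derivative: if `G = c e^{-a t} F_v` with `2 a = ∑ n v_n` at a root of
unity `ζ ^ N = 1` then `t G' = LamS · G`.
Proof: in the field `LaurentSeries ℂ` the map `f ↦ f'/f` on nonzero power series is additive;
`t (ζ^n e^{n t} - 1)' / (ζ^n e^{n t} - 1) = n t + (bser N (ζ^n))(n t)`. -/
theorem ldf {N : ℕ} (hN : 0 < N) (v : ℕ →₀ ℤ) (hv : v 0 = 0) {ζ : ℂ} (hζ : ζ ^ N = 1)
    (G : ℂ⟦X⟧) {c a : ℂ} (hc : c ≠ 0) (ha : 2 * a = v.sum fun n k => (k : ℂ) * n)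
    (hG : (G : LaurentSeries ℂ) = ((C c * ee (-a) : ℂ⟦X⟧) : LaurentSeries ℂ) * FF v ζ 1) :
    X * d⁄dX ℂ G = LamS N v ζ * G := by
  have hζ0 : ζ ≠ 0 := by
    rintro rfl
    rw [zero_pow hN.ne'] at hζ
    exact zero_ne_one hζ
  set h : ℕ → ℂ⟦X⟧ := fun n => C (ζ ^ n) * ee ((1 : ℂ) * n) - 1 with hh
  set L : ℕ → ℂ⟦X⟧ := fun n => C (n : ℂ) * X + rescale (n : ℂ) (bser N (ζ ^ n)) with hL
  have hne : ∀ n ∈ v.support, h n ≠ 0 := by
    intro n hn
    apply ldf_ne hζ0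
    rintro rfl
    exact (Finsupp.mem_support_iff.1 hn) hv
  have hneL : ∀ n ∈ v.support, ((h n : ℂ⟦X⟧) : LaurentSeries ℂ) ≠ 0 := by
    intro n hn h0
    apply hne n hn
    have h1 : ((h n : ℂ⟦X⟧) : LaurentSeries ℂ) = ((0 : ℂ⟦X⟧) : LaurentSeries ℂ) := by
      rw [h0, PowerSeries.coe_zero]
    exact HahnSeries.ofPowerSeries_injective h1
  set P : ℂ⟦X⟧ := ∏ n ∈ v.support, h n ^ (v n).toNat with hP
  set Q : ℂ⟦X⟧ := ∏ n ∈ v.support, h n ^ (-(v n)).toNat with hQ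
  have hFF : FF v ζ 1 * (Q : LaurentSeries ℂ) = (P : LaurentSeries ℂ) := by
    have hQc : (Q : LaurentSeries ℂ) =
        ∏ n ∈ v.support, ((h n : ℂ⟦X⟧) : LaurentSeries ℂ) ^ (-(v n)).toNat := by
      rw [hQ]
      exact (map_prod (HahnSeries.ofPowerSeries ℤ ℂ) _ _).trans
        (Finset.prod_congr rfl fun n _ => map_pow (HahnSeries.ofPowerSeries ℤ ℂ) _ _)
    have hPc : (P : LaurentSeries ℂ) =
        ∏ n ∈ v.support, ((h n : ℂ⟦X⟧) : LaurentSeries ℂ) ^ (v n).toNat := by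
      rw [hP]
      exact (map_prod (HahnSeries.ofPowerSeries ℤ ℂ) _ _).trans
        (Finset.prod_congr rfl fun n _ => map_pow (HahnSeries.ofPowerSeries ℤ ℂ) _ _)
    rw [hQc, hPc]
    unfold FF Finsupp.prod
    rw [← Finset.prod_mul_distrib]
    refine Finset.prod_congr rfl fun n hn => ?_
    change ((h n : ℂ⟦X⟧) : LaurentSeries ℂ) ^ (v n) * _ = _
    rw [← zpow_natCast, ← zpow_natCast, ← zpow_add₀ (hneL n hn)]
    congr 1
    omega
  have hQ0 : Q ≠ 0 := by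
    rw [hQ]
    exact Finset.prod_ne_zero_iff.2 fun n hn => pow_ne_zero _ (hne n hn)
  have hGQ : G * Q = C c * ee (-a) * P := by
    have h1 : ((G * Q : ℂ⟦X⟧) : LaurentSeries ℂ) = ((C c * ee (-a) * P : ℂ⟦X⟧) : LaurentSeries ℂ) := by
      rw [PowerSeries.coe_mul, PowerSeries.coe_mul (C c * ee (-a)) P, hG, mul_assoc, hFF]
    exact HahnSeries.ofPowerSeries_injective h1
  have hLP : LdfP P (∑ n ∈ v.support, (((v n).toNat : ℕ) : ℂ⟦X⟧) * L n) :=
    LdfP.prod _ _ _ fun n _ => (ldf_factor hN hζ n).pow _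
  have hLQ : LdfP Q (∑ n ∈ v.support, (((-(v n)).toNat : ℕ) : ℂ⟦X⟧) * L n) :=
    LdfP.prod _ _ _ fun n _ => (ldf_factor hN hζ n).pow _
  have hLG := (ldf_C_ee c (-a)).mul hLP
  rw [← hGQ] at hLG
  have hLam : LamS N v ζ = C (-a) * X + (∑ n ∈ v.support, (((v n).toNat : ℕ) : ℂ⟦X⟧) * L n)
      - ∑ n ∈ v.support, (((-(v n)).toNat : ℕ) : ℂ⟦X⟧) * L n := by
    rw [add_sub_assoc, ← Finset.sum_sub_distrib]
    have h1 : ∀ n ∈ v.support, (((v n).toNat : ℕ) : ℂ⟦X⟧) * L n -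
        (((-(v n)).toNat : ℕ) : ℂ⟦X⟧) * L n = C ((v n : ℤ) : ℂ) * L n := by
      intro n _
      rw [← sub_mul]
      congr 1
      have h2 : ((v n : ℤ) : ℂ) = (((v n).toNat : ℕ) : ℂ) - (((-(v n)).toNat : ℕ) : ℂ) := by
        have h3 : (v n : ℤ) = ((v n).toNat : ℤ) - ((-(v n)).toNat : ℤ) := by omega
        have h4 : ((v n : ℤ) : ℂ) = ((((v n).toNat : ℤ) - ((-(v n)).toNat : ℤ) : ℤ) : ℂ) := by
          rw [← h3]
        rw [h4]
        push_cast
        rfl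
      rw [h2, map_sub, map_natCast, map_natCast]
    rw [Finset.sum_congr rfl h1]
    ext k
    unfold LamS Lam Finsupp.sum
    rw [coeff_mk, map_add, map_sum, coeff_C_mul, coeff_X]
    have h5 : ∀ n ∈ v.support, coeff k (C ((v n : ℤ) : ℂ) * L n) =
        ((v n : ℤ) : ℂ) * ((if k = 1 then (n : ℂ) else 0) +
          (n : ℂ) ^ k * (bk N k (ζ ^ n) / k.factorial)) := by
      intro n _
      rw [coeff_C_mul, hL]
      change ((v n : ℤ) : ℂ) * coeff k (C (n : ℂ) * X + rescale (n : ℂ) (bser N (ζ ^ n))) = _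
      rw [map_add, coeff_C_mul, coeff_X, coeff_rescale]
      unfold bser
      rw [coeff_mk]
      congr 2
      split_ifs <;> simp
    rw [Finset.sum_congr rfl h5]
    by_cases hk : k = 1
    · subst hk
      simp only [if_true, Nat.factorial_one, Nat.cast_one, div_one, pow_one, mul_one]
      unfold Finsupp.sum at ha
      have h6 : ∑ n ∈ v.support, ((v n : ℤ) : ℂ) * ((n : ℂ) + (n : ℂ) * bk N 1 (ζ ^ n)) =
          (∑ n ∈ v.support, ((v n : ℤ) : ℂ) * (n : ℂ) * (bk N 1 (ζ ^ n) + 1 / 2)) +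
          (1 / 2 : ℂ) * ∑ n ∈ v.support, ((v n : ℤ) : ℂ) * (n : ℂ) := by
        rw [Finset.mul_sum, ← Finset.sum_add_distrib]
        refine Finset.sum_congr rfl fun n _ => ?_
        ring
      rw [h6, ← ha]
      ring
    · simp only [if_neg hk, mul_zero, zero_add, add_zero]
      rw [Finset.sum_div]
      refine Finset.sum_congr rfl fun n _ => ?_
      ring
  -- cancel `Q`
  unfold LdfP at hLG hLQ
  rw [Derivation.leibniz, smul_eq_mul, smul_eq_mul] at hLG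
  apply mul_right_cancel₀ hQ0
  rw [hLam]
  linear_combination hLG - G * hLQ

end Pool.Agent.Lib_MP_e4b855_nt.Tri
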