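import Pool.Agent.Lib_MP_e4b855_nt.Tri.Trip2
import Pool.Agent.Lib_MP_e4b855_nt.Tri.Ldf

namespace Pool.Agent.Lib_MP_e4b855_nt.Tri

open PowerSeries Finset

namespace Trip

variable {m : ℕ} (T : Trip m)

/-- `G_i = 1 + t^μ W` -/
theorem A8_G (i : ZMod 3) {N : ℕ} (hN : Odd N) {ζ : ℂ} (hζ : IsPrimitiveRoot ζ N) :
    ∃ W : ℂ⟦X⟧, T.G i ζ = 1 + X ^ T.al i N * W := by
  obtain ⟨U, _, _, hU⟩ := T.D_lead i hN.pos hζ (s := 1) one_ne_zero
  refine ⟨U * (T.Q (i + 1) ζ 1)⁻¹, ?_⟩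
  rw [T.G_eq i hN hζ, hU, mul_assoc]

theorem A8_const (i : ZMod 3) {N : ℕ} (hN : Odd N) {ζ : ℂ} (hζ : IsPrimitiveRoot ζ N)
    (h : 0 < T.al i N) : constantCoeff (T.G i ζ) = 1 := by
  obtain ⟨W, hW⟩ := T.A8_G i hN hζ
  rw [hW, map_add, map_one, map_mul, map_pow, constantCoeff_X, zero_pow h.ne', zero_mul, add_zero]

/-- Piece A8.  At a zero of `D_i` of order `μ = α_i(p^j)` the logarithmic derivatives of `G_i` of
orders `1 ≤ k < μ` vanish (`G_i = 1 + D_i/Q_{i+1} = 1 + O(t^μ)`, `ldf`). -/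
theorem flat_k (i : ZMod 3) {p j k : ℕ} (hp : p.Prime) (hp2 : p ≠ 2) {ζ : ℂ}
    (hζ : IsPrimitiveRoot ζ (p ^ j)) (hk1 : 1 ≤ k) (hk : k < T.al i (p ^ j)) :
    Lam (p ^ j) k (T.v i) ζ = 0 := by
  have hN : Odd (p ^ j) := (hp.odd_of_ne_two hp2).pow
  obtain ⟨c, a, hc, ha, hG⟩ := T.G_FF i hN hζ
  have hc0 : c ≠ 0 := by
    rintro rfl
    rw [norm_zero] at hc
    exact zero_ne_one hc
  have hl := ldf hN.pos (T.v i) (T.v_zero i) hζ.pow_eq_one (T.G i ζ) hc0 ha hG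
  obtain ⟨W, hW⟩ := T.A8_G i hN hζ
  have hconst := T.A8_const i hN hζ (by omega)
  have hunit : IsUnit (T.G i ζ) := by
    rw [isUnit_iff_constantCoeff, hconst]
    exact isUnit_one
  have hdvd : X ^ T.al i (p ^ j) ∣ LamS (p ^ j) (T.v i) ζ * T.G i ζ := by
    rw [← hl, X_pow_dvd_iff]
    intro r hr
    cases r with
    | zero => simp
    | succ r =>
      rw [coeff_succ_X_mul, coeff_derivative, hW, map_add, coeff_one, if_neg (by omega),
        coeff_X_pow_mul', if_neg (by omega)]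
      simp
  rw [hunit.dvd_mul_right] at hdvd
  have h1 := X_pow_dvd_iff.1 hdvd k hk
  unfold LamS at h1
  rw [coeff_mk] at h1
  have h2 : (k.factorial : ℂ) ≠ 0 := by exact_mod_cast k.factorial_ne_zero
  rcases div_eq_zero_iff.1 h1 with h | h
  · exact h
  · exact absurd h h2

/-- and `|G_i(ζ)| = 1` (use `FF_lead`, the factors with `p^j ∣ n` give a constant). -/
theorem flat_zero (i : ZMod 3) {p j : ℕ} (hp : p.Prime) (hp2 : p ≠ 2)
    (h : 0 < T.al i (p ^ j)) :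
    ∃ C₀ : ℝ, ∀ ζ : ℂ, IsPrimitiveRoot ζ (p ^ j) →
      ((T.v i).sum fun n c => if p ^ j ∣ n then 0 else (c : ℝ) * Real.log ‖ζ ^ n - 1‖) = C₀ := by
  have hN : Odd (p ^ j) := (hp.odd_of_ne_two hp2).pow
  refine ⟨-((T.v i).sum fun n c => if p ^ j ∣ n then (c : ℝ) * Real.log n else 0), ?_⟩
  intro ζ hζ
  obtain ⟨c, a, hc, ha, hG⟩ := T.G_FF i hN hζ
  obtain ⟨U, hU, hU0, hFF⟩ := FF_lead (T.v i) (T.v_zero i) (s := 1) hN.pos hζ one_ne_zero
  have hlev : lev (T.v i) (p ^ j) = 0 := lev_tw _ hN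
  have hone : (HahnSeries.single (0 : ℤ) (1 : ℂ)) = 1 := rfl
  rw [hlev, hone, one_mul] at hFF
  have hGU : T.G i ζ = C c * ee (-a) * U := by
    have hinj : Function.Injective (HahnSeries.ofPowerSeries ℤ ℂ) :=
      HahnSeries.ofPowerSeries_injective
    apply hinj
    rw [map_mul]
    change (T.G i ζ : LaurentSeries ℂ) = _
    rw [hG, hFF]
  have hee : constantCoeff (ee (-a)) = 1 := by
    have := coeff_ee (-a) 0
    simpa using this
  have hconst := T.A8_const i hN hζ h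
  rw [hGU, map_mul, map_mul, hee, constantCoeff_C, mul_one] at hconst
  have hn1 : ‖constantCoeff U‖ = 1 := by
    have := congrArg norm hconst
    rw [norm_mul, hc, one_mul, norm_one] at this
    exact this
  -- all factors are non zero
  have hne : ∀ n ∈ (T.v i).support,
      (if p ^ j ∣ n then ((1 : ℂ) * n) else ζ ^ n - 1) ≠ 0 := by
    intro n hn
    have hn0 : n ≠ 0 := by
      rintro rfl
      exact (Finsupp.mem_support_iff.1 hn) (T.v_zero i)
    split_ifs with hd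
    · rw [one_mul]
      exact_mod_cast hn0
    · intro h0
      exact hd ((hζ.pow_eq_one_iff_dvd n).1 (sub_eq_zero.1 h0))
  have hlog : ((T.v i).sum fun n c =>
      (c : ℝ) * Real.log ‖(if p ^ j ∣ n then ((1 : ℂ) * n) else ζ ^ n - 1)‖) = 0 := by
    have h1 : Real.log ‖constantCoeff U‖ = 0 := by rw [hn1, Real.log_one]
    rw [hU] at h1
    unfold Finsupp.prod at h1
    rw [norm_prod, Real.log_prod (fun n hn => by
      rw [norm_zpow]
      exact zpow_ne_zero _ (norm_ne_zero_iff.2 (hne n hn)))] at h1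
    rw [← h1]
    unfold Finsupp.sum
    refine Finset.sum_congr rfl fun n _ => ?_
    rw [norm_zpow, Real.log_zpow]
  unfold Finsupp.sum at hlog ⊢
  rw [eq_neg_iff_add_eq_zero, ← Finset.sum_add_distrib]
  refine Eq.trans (Finset.sum_congr rfl fun n _ => ?_) hlog
  beta_reduce
  split_ifs with hd
  · rw [zero_add, one_mul, Complex.norm_natCast]
  · rw [add_zero]

end Trip

end Pool.Agent.Lib_MP_e4b855_nt.Tri
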