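import Pool.Agent.Lib_MP_e4b855_nt.Tri.Trip

namespace Pool.Agent.Lib_MP_e4b855_nt.Tri

open PowerSeries Finset

namespace Trip

variable {m : ℕ} (T : Trip m)

theorem coeff_J_two (A : Finset ℤ) (ζ : ℂ) (k : ℕ) :
    coeff k (J A ζ (2 * 1)) = 2 ^ k * coeff k (J A ζ 1) := by
  unfold J
  rw [map_sum, map_sum, Finset.mul_sum]
  refine Finset.sum_congr rfl fun a _ => ?_
  simp only [coeff_C_mul, ee, coeff_rescale, mul_one, one_mul]
  ring

theorem coeff_D_two (i : ZMod 3) (ζ : ℂ) (k : ℕ) :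
    coeff k (T.D i ζ (2 * 1)) = 2 ^ k * coeff k (T.D i ζ 1) := by
  unfold D
  rw [map_sub, map_sub, coeff_J_two, coeff_J_two]
  ring

theorem cc_J (A : Finset ℤ) (ζ s : ℂ) : constantCoeff (J A ζ s) = ∑ a ∈ A, ζ ^ a := by
  unfold J
  rw [map_sum]
  refine Finset.sum_congr rfl fun a _ => ?_
  rw [map_mul, cc_ee]
  simp

theorem lead_eq (i : ZMod 3) {N : ℕ} (hN : 0 < N) {ζ : ℂ}
    (hζ : IsPrimitiveRoot ζ N) :
    coeff (T.al i N) (T.D i ζ 1) * constantCoeff (T.Q i ζ 1) =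
      2 ^ (T.al i N) * coeff (T.al i N) (T.D i (ζ ^ 2) 1) ∧
      coeff (T.al i N) (T.D i ζ 1) ≠ 0 := by
  obtain ⟨U, -, hU2, hU3⟩ := T.D_lead i hN hζ one_ne_zero
  have h1 : coeff (T.al i N) (T.D i ζ 1) = constantCoeff U := by
    rw [hU3, PowerSeries.coeff_X_pow_mul', if_pos le_rfl, Nat.sub_self,
      coeff_zero_eq_constantCoeff_apply]
  have h2 : coeff (T.al i N) (T.D i ζ 1 * T.Q i ζ 1) =
      constantCoeff U * constantCoeff (T.Q i ζ 1) := by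
    rw [hU3, mul_assoc, PowerSeries.coeff_X_pow_mul', if_pos le_rfl, Nat.sub_self,
      coeff_zero_eq_constantCoeff_apply, map_mul]
  refine ⟨?_, ?_⟩
  · rw [h1, ← h2, T.D_mul_Q i (hζ.ne_zero hN.ne') 1, coeff_D_two]
  · rw [h1]; exact hU2

theorem prod_Q (i : ZMod 3) {N : ℕ} (hN : 0 < N) (hodd : Odd N) :
    ∏ ζ ∈ primitiveRoots N ℂ, constantCoeff (T.Q i ζ 1) =
      ∏ _ζ ∈ primitiveRoots N ℂ, (2 : ℂ) ^ (T.al i N) := by
  obtain ⟨r, hr⟩ := hodd
  have hprim : ∀ ζ ∈ primitiveRoots N ℂ, IsPrimitiveRoot ζ N := fun ζ h =>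
    isPrimitiveRoot_of_mem_primitiveRoots h
  have h1 : ∏ ζ ∈ primitiveRoots N ℂ, (coeff (T.al i N) (T.D i ζ 1) *
      constantCoeff (T.Q i ζ 1)) = ∏ ζ ∈ primitiveRoots N ℂ, (2 ^ (T.al i N) *
        coeff (T.al i N) (T.D i (ζ ^ 2) 1)) :=
    Finset.prod_congr rfl fun ζ h => (T.lead_eq i hN (hprim ζ h)).1
  have h2 : ∏ ζ ∈ primitiveRoots N ℂ, coeff (T.al i N) (T.D i (ζ ^ 2) 1) =
      ∏ ζ ∈ primitiveRoots N ℂ, coeff (T.al i N) (T.D i ζ 1) := by
    refine Finset.prod_nbij' (fun ζ => ζ ^ 2) (fun ζ => ζ ^ (r + 1)) ?_ ?_ ?_ ?_ ?_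
    · intro ζ h
      rw [mem_primitiveRoots hN]
      exact (hprim ζ h).pow_of_coprime 2 (Nat.coprime_two_left.2 ⟨r, hr⟩)
    · intro ζ h
      rw [mem_primitiveRoots hN]
      refine (hprim ζ h).pow_of_coprime (r + 1) ?_
      rw [hr]
      have : Nat.Coprime (r + 1) (2 * (r + 1) - 1) := by
        rw [Nat.coprime_comm]
        have h3 : (r + 1) * 2 - (2 * (r + 1) - 1) = 1 := by omega
        rw [Nat.coprime_iff_gcd_eq_one]
        have h4 := Nat.gcd_dvd_left (2 * (r + 1) - 1) (r + 1)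
        have h5 := Nat.gcd_dvd_right (2 * (r + 1) - 1) (r + 1)
        have h6 : Nat.gcd (2 * (r + 1) - 1) (r + 1) ∣ (r + 1) * 2 - (2 * (r + 1) - 1) :=
          Nat.dvd_sub (h5.mul_right 2) h4
        rw [h3] at h6
        exact Nat.dvd_one.1 h6
      have h7 : 2 * (r + 1) - 1 = 2 * r + 1 := by omega
      rwa [h7] at this
    · intro ζ h
      have h8 : (ζ ^ 2) ^ (r + 1) = ζ ^ N * ζ := by
        rw [← pow_mul, hr, ← pow_succ]; congr 1
      rw [h8, (hprim ζ h).pow_eq_one, one_mul]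
    · intro ζ h
      have h8 : (ζ ^ (r + 1)) ^ 2 = ζ ^ N * ζ := by
        rw [← pow_mul, hr, ← pow_succ]; congr 1; ring
      rw [h8, (hprim ζ h).pow_eq_one, one_mul]
    · intro ζ _; rfl
  rw [Finset.prod_mul_distrib, Finset.prod_mul_distrib, h2] at h1
  have h3 : ∏ ζ ∈ primitiveRoots N ℂ, coeff (T.al i N) (T.D i ζ 1) ≠ 0 := by
    rw [Finset.prod_ne_zero_iff]
    exact fun ζ h => (T.lead_eq i hN (hprim ζ h)).2
  rw [mul_comm (∏ ζ ∈ primitiveRoots N ℂ, (2 : ℂ) ^ (T.al i N))] at h1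
  exact mul_left_cancel₀ h3 h1

theorem sum_symm {A : Finset ℤ} (hA : ∀ a ∈ A, -a ∈ A) {ζ : ℂ} (hζ : ‖ζ‖ = 1) :
    (∑ a ∈ A, ζ ^ a).im = 0 := by
  have hz : ζ ≠ 0 := by
    rintro rfl; simp at hζ
  have h1 : (starRingEnd ℂ) (∑ a ∈ A, ζ ^ a) = ∑ a ∈ A, ζ ^ a := by
    rw [map_sum]
    refine Finset.sum_nbij' (fun a => -a) (fun a => -a) hA hA (by simp) (by simp) ?_
    intro a _
    rw [map_zpow₀, zpow_neg, ← inv_zpow]
    congr 1
    rw [Complex.inv_def, Complex.normSq_eq_norm_sq, hζ]; simp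
  exact Complex.conj_eq_iff_im.1 h1

/-- Piece A9.  Norm bound.  Comparing leading coefficients in `D_mul_Q` and multiplying over all
primitive `p^j`-th roots `ζ` (squaring permutes them): `∏ Q_i(ζ) = 2^{α φ(p^j)}`, and
`|Q_i(ζ)| ≤ 2^m` with equality only if all `ζ^a` (`a ∈ S_i ∪ S_{i+1}`) are equal, hence `= ±1`
by symmetry, hence `= 1` (odd order) and `p^j ∣ a`. -/
theorem al_lt (i : ZMod 3) {p j : ℕ} (hp : p.Prime) (hp2 : p ≠ 2) (hj : 0 < j)
    (hX : ∃ a ∈ T.S i ∪ T.S (i + 1), ¬ (p : ℤ) ∣ a) : T.al i (p ^ j) < m := by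
  by_contra hcon
  push Not at hcon
  set N := p ^ j with hNdef
  have hN : 0 < N := pow_pos hp.pos j
  have hodd : Odd N := (hp.odd_of_ne_two hp2).pow
  have hprod := T.prod_Q i hN hodd
  have hbd : ∀ ζ ∈ primitiveRoots N ℂ, ‖constantCoeff (T.Q i ζ 1)‖ ≤ (2 : ℝ) ^ m := by
    intro ζ h
    have hz : ‖ζ‖ = 1 := (isPrimitiveRoot_of_mem_primitiveRoots h).norm'_eq_one hN.ne'
    have hs : ∀ A : Finset ℤ, ‖∑ a ∈ A, ζ ^ a‖ ≤ A.card := by
      intro A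
      refine (norm_sum_le _ _).trans ?_
      simp [norm_zpow, hz]
    unfold Q
    rw [map_add, cc_J, cc_J]
    refine (norm_add_le _ _).trans ((add_le_add (hs _) (hs _)).trans ?_)
    rw [T.card, T.card]
    have hm := T.hm
    obtain ⟨k, rfl⟩ : ∃ k, m = k + 1 := ⟨m - 1, by omega⟩
    push_cast
    rw [pow_succ]
    linarith
  obtain ⟨ζ, hζm⟩ : ∃ ζ, ζ ∈ primitiveRoots N ℂ := by
    refine ⟨_, (mem_primitiveRoots hN).2 (Complex.isPrimitiveRoot_exp N hN.ne')⟩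
  have hζ := isPrimitiveRoot_of_mem_primitiveRoots hζm
  have hz : ‖ζ‖ = 1 := hζ.norm'_eq_one hN.ne'
  have hge : (2 : ℝ) ^ m ≤ ‖constantCoeff (T.Q i ζ 1)‖ := by
    by_contra hlt
    push Not at hlt
    have h1 := congrArg norm hprod
    rw [norm_prod, norm_prod] at h1
    have h2 : ∏ ξ ∈ primitiveRoots N ℂ, ‖constantCoeff (T.Q i ξ 1)‖ <
        ∏ _ξ ∈ primitiveRoots N ℂ, (2 : ℝ) ^ m := by
      refine Finset.prod_lt_prod ?_ hbd ⟨ζ, hζm, hlt⟩
      intro ξ hξ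
      exact norm_pos_iff.2 (T.Q_const_ne i hodd (isPrimitiveRoot_of_mem_primitiveRoots hξ)
        one_ne_zero)
    have h3 : ∏ _ξ ∈ primitiveRoots N ℂ, (2 : ℝ) ^ m ≤
        ∏ _ξ ∈ primitiveRoots N ℂ, ‖(2 : ℂ) ^ (T.al i N)‖ := by
      refine Finset.prod_le_prod (fun _ _ => by positivity) fun _ _ => ?_
      rw [norm_pow, Complex.norm_ofNat]
      exact pow_le_pow_right₀ (by norm_num) hcon
    linarith
  -- real parts
  have hre1 : ∀ a : ℤ, |(ζ ^ a).re| ≤ 1 := by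
    intro a
    refine (Complex.abs_re_le_norm _).trans ?_
    rw [norm_zpow, hz, one_zpow]
  have hA := T.symm i
  have hB := T.symm (i + 1)
  have hsum : (∑ a ∈ T.S i, (1 - |(ζ ^ a).re|)) + (∑ a ∈ T.S (i + 1), (1 - |(ζ ^ a).re|)) ≤ 0 := by
    have h1 : constantCoeff (T.Q i ζ 1) = ∑ a ∈ T.S i, ζ ^ a + ∑ a ∈ T.S (i + 1), ζ ^ a := by
      unfold Q
      rw [map_add, cc_J, cc_J]
    have h2 : (constantCoeff (T.Q i ζ 1)).im = 0 := by
      rw [h1, Complex.add_im, sum_symm hA hz, sum_symm hB hz, add_zero]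
    have h3 : ‖constantCoeff (T.Q i ζ 1)‖ = |(constantCoeff (T.Q i ζ 1)).re| := by
      have h6 : constantCoeff (T.Q i ζ 1) = ((constantCoeff (T.Q i ζ 1)).re : ℂ) := by
        apply Complex.ext
        · simp
        · simp [h2]
      conv_lhs => rw [h6]
      rw [Complex.norm_real, Real.norm_eq_abs]
    rw [h3, h1, Complex.add_re, Complex.re_sum, Complex.re_sum] at hge
    have h4 : |∑ a ∈ T.S i, (ζ ^ a).re + ∑ a ∈ T.S (i + 1), (ζ ^ a).re| ≤
        ∑ a ∈ T.S i, |(ζ ^ a).re| + ∑ a ∈ T.S (i + 1), |(ζ ^ a).re| :=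
      (abs_add_le _ _).trans (add_le_add (Finset.abs_sum_le_sum_abs _ _)
        (Finset.abs_sum_le_sum_abs _ _))
    rw [Finset.sum_sub_distrib, Finset.sum_sub_distrib]
    simp only [Finset.sum_const, T.card, nsmul_eq_mul, mul_one]
    have hm := T.hm
    obtain ⟨k, hk⟩ : ∃ k, m = k + 1 := ⟨m - 1, by omega⟩
    have h5 : (2 : ℝ) ^ m = 2 ^ (m - 1) + 2 ^ (m - 1) := by
      rw [hk, Nat.add_sub_cancel, pow_succ]; ring
    push_cast
    linarith
  obtain ⟨a, ha, hpa⟩ := hX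
  have hone : 1 - |(ζ ^ a).re| ≤ 0 := by
    have n1 : ∀ b : ℤ, 0 ≤ 1 - |(ζ ^ b).re| := fun b => by linarith [hre1 b]
    have n2 := Finset.sum_nonneg (s := T.S i) fun b _ => n1 b
    have n3 := Finset.sum_nonneg (s := T.S (i + 1)) fun b _ => n1 b
    rcases Finset.mem_union.1 ha with h | h
    · have := Finset.single_le_sum (f := fun b : ℤ => 1 - |(ζ ^ b).re|) (fun b _ => n1 b) h
      linarith
    · have := Finset.single_le_sum (f := fun b : ℤ => 1 - |(ζ ^ b).re|) (fun b _ => n1 b) h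
      linarith
  have habs : |(ζ ^ a).re| = 1 := le_antisymm (hre1 a) (by linarith)
  have hnorm : ‖ζ ^ a‖ = 1 := by rw [norm_zpow, hz, one_zpow]
  have him : (ζ ^ a).im = 0 := by
    have h1 := Complex.sq_norm (ζ ^ a)
    rw [hnorm, Complex.normSq_apply] at h1
    have h2 : (ζ ^ a).re * (ζ ^ a).re = 1 := by
      rw [← abs_mul_abs_self, habs, one_mul]
    have h3 : (ζ ^ a).im * (ζ ^ a).im = 0 := by linarith
    exact mul_self_eq_zero.1 h3
  have hpm : ζ ^ a = 1 ∨ ζ ^ a = -1 := by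
    rcases (abs_eq (by norm_num : (0 : ℝ) ≤ 1)).1 habs with h | h
    · left; apply Complex.ext <;> simp [h, him]
    · right; apply Complex.ext <;> simp [h, him]
  have hpow : (ζ ^ a) ^ N = 1 := by
    rw [← zpow_natCast, ← zpow_mul, mul_comm, zpow_mul, zpow_natCast, hζ.pow_eq_one, one_zpow]
  have h1 : ζ ^ a = 1 := by
    rcases hpm with h | h
    · exact h
    · exfalso
      rw [h, hodd.neg_one_pow] at hpow
      norm_num at hpow
  have h2 : (N : ℤ) ∣ a := (hζ.zpow_eq_one_iff_dvd a).1 h1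
  apply hpa
  refine dvd_trans ?_ h2
  rw [hNdef]
  push_cast
  exact dvd_pow_self _ hj.ne'

end Trip

end Pool.Agent.Lib_MP_e4b855_nt.Tri
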