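import Pool.Agent.Lib_MP_e4b855_nt.Tri.Trip

namespace Pool.Agent.Lib_MP_e4b855_nt.Tri

open Finset

theorem red_g_reflect (A : Finset ℤ) (t : ℤ) {z : ℂ} (hz : z ≠ 0) :
    g (A.image fun a => t - a) z = z ^ t * g A z⁻¹ := by
  unfold g
  rw [Finset.sum_image (fun a _ b _ h => by simpa using h), Finset.mul_sum]
  refine Finset.sum_congr rfl fun a _ => ?_
  rw [zpow_sub₀ hz, inv_zpow, div_eq_mul_inv]

theorem red_symm {k : ℕ} (hk : Odd k) {A B : Finset ℤ} (hA : A.card = 2 ^ k)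
    (hB : B.card = 2 ^ k) (hAB : A ≠ B) (h : pairSums A = pairSums B) :
    ∃ t : ℤ, (∀ a ∈ A, t - a ∈ A) ∧ ∀ b ∈ B, t - b ∈ B := by
  obtain ⟨μ, t, hμ, hD⟩ := exists_sign hAB h
  have hμk : μ = k + 1 := by
    have h1 : 2 ^ μ = 2 ^ (k + 1) := by rw [hμ, hA, hB]; ring
    exact Nat.pow_right_injective (le_refl 2) h1
  have hsign : ((-1 : ℂ)) ^ μ = 1 := by
    rw [hμk]
    exact hk.add_one.neg_one_pow
  have hfin : {z : ℂ | z ≠ 0 ∧ g A z = g B z}.Finite := by
    by_contra hinf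
    exact hAB (eq_of_g_eq (Set.not_finite.1 hinf |>.mono fun z hz => hz) fun z hz _ => hz.2)
  set S : Set ℂ := ({z : ℂ | z ≠ 0 ∧ g A z = g B z} ∪ {0})ᶜ with hS
  have hSinf : S.Infinite := (hfin.union (Set.finite_singleton 0)).infinite_compl
  have key : ∀ z ∈ S, g A z⁻¹ = (z ^ t)⁻¹ * g A z ∧ g B z⁻¹ = (z ^ t)⁻¹ * g B z := by
    intro z hzS
    have hz0 : z ≠ 0 := fun h0 => hzS (Or.inr h0)
    have hDz : g A z - g B z ≠ 0 := by
      intro h0
      exact hzS (Or.inl ⟨hz0, sub_eq_zero.1 h0⟩)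
    have h1 := functional_eq h hz0
    have h2 := functional_eq h (inv_ne_zero hz0)
    have h3 := hD z hz0
    have h4 := hD (z ^ 2) (pow_ne_zero 2 hz0)
    rw [hsign, one_mul] at h3 h4
    have h5 : ((z⁻¹) ^ 2 : ℂ) = (z ^ 2)⁻¹ := inv_pow z 2
    rw [h5, h4, h1, h3] at h2
    have h6 : ((z ^ 2 : ℂ) ^ t) = z ^ t * z ^ t := by
      rw [← zpow_natCast, ← zpow_mul, ← zpow_add₀ hz0]
      congr 1
      push_cast
      ring
    have hzt : z ^ t ≠ 0 := zpow_ne_zero _ hz0
    rw [h6] at h2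
    have h7 : g A z⁻¹ + g B z⁻¹ = (z ^ t)⁻¹ * (g A z + g B z) := by
      have h8 : (z ^ t)⁻¹ * (g A z - g B z) ≠ 0 := mul_ne_zero (inv_ne_zero hzt) hDz
      apply mul_left_cancel₀ h8
      rw [← h2, mul_inv]
      ring
    constructor
    · linear_combination (1 / 2 : ℂ) * h7 + (1 / 2 : ℂ) * h3
    · linear_combination (1 / 2 : ℂ) * h7 - (1 / 2 : ℂ) * h3
  refine ⟨t, ?_, ?_⟩
  · have h1 : A.image (fun a => t - a) = A := by
      apply eq_of_g_eq hSinf
      intro z hz hz0
      rw [red_g_reflect A t hz0, (key z hz).1, ← mul_assoc,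
        mul_inv_cancel₀ (zpow_ne_zero _ hz0), one_mul]
    intro a ha
    have h2 : t - a ∈ A.image (fun a => t - a) := Finset.mem_image_of_mem _ ha
    rwa [h1] at h2
  · have h1 : B.image (fun a => t - a) = B := by
      apply eq_of_g_eq hSinf
      intro z hz hz0
      rw [red_g_reflect B t hz0, (key z hz).2, ← mul_assoc,
        mul_inv_cancel₀ (zpow_ne_zero _ hz0), one_mul]
    intro a ha
    have h2 : t - a ∈ B.image (fun a => t - a) := Finset.mem_image_of_mem _ ha
    rwa [h1] at h2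

theorem red_center {A : Finset ℤ} {t : ℤ} (h : ∀ a ∈ A, t - a ∈ A) :
    2 * ∑ a ∈ A, a = t * A.card := by
  have h1 : ∑ a ∈ A, a = ∑ a ∈ A, (t - a) := by
    refine Finset.sum_nbij' (fun a => t - a) (fun a => t - a) h h ?_ ?_ ?_
    · intro a _
      ring
    · intro a _
      ring
    · intro a _
      ring
  rw [Finset.sum_sub_distrib, Finset.sum_const, nsmul_eq_mul] at h1
  linarith

theorem red_pairSums {X : Finset ℤ} (f h : ℤ → ℤ) (hf : Set.InjOn f X)
    (hh : ∀ x ∈ X, ∀ y ∈ X, f x + f y = h (x + y)) :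
    pairSums (X.image f) = (pairSums X).map h := by
  rw [pairSums_eq, pairSums_eq, Finset.image_val_of_injOn hf, Multiset.powersetCard_map,
    Multiset.map_map, Multiset.map_map]
  apply Multiset.map_congr rfl
  intro s hs
  rw [Multiset.mem_powersetCard] at hs
  obtain ⟨x, y, rfl⟩ := Multiset.card_eq_two.1 hs.2
  have hx : x ∈ X := by
    have := Multiset.mem_of_le hs.1 (by simp : x ∈ ({x, y} : Multiset ℤ))
    exact this
  have hy : y ∈ X := by
    have := Multiset.mem_of_le hs.1 (by simp : y ∈ ({x, y} : Multiset ℤ))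
    exact this
  simp [hh x hx y hy]

/-- Piece F1.  Reduction of the problem to symmetric sets: `exists_sign` (with `μ = k + 1` even)
gives `D(1/x) = x^{-t} D(x)`, hence `A = t - A`; the centre `t` is determined by the sum of `A`,
so it is the same for all three sets; replace `A` by `{2 a - t}` and divide by the gcd of all
elements. -/
theorem reduce {k : ℕ} (hk : Odd k) (hk5 : 5 ≤ k) {A B C : Finset ℤ} (hA : A.card = 2 ^ k)
    (hB : B.card = 2 ^ k) (hC : C.card = 2 ^ k) (hAB : A ≠ B) (hBC : B ≠ C) (hCA : C ≠ A)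
    (h1 : pairSums A = pairSums B) (h2 : pairSums B = pairSums C) :
    ∃ T : Trip (k + 1), ∀ p : ℕ, p.Prime → p ≠ 2 → ∃ i, ∃ a ∈ T.S i, ¬ (p : ℤ) ∣ a := by
  have hpos : (0 : ℤ) < 2 ^ k := by positivity
  obtain ⟨t, hAt, hBt⟩ := red_symm hk hA hB hAB h1
  obtain ⟨t', hBt', hCt'⟩ := red_symm hk hB hC hBC h2
  have htt : t' = t := by
    have e1 := red_center hBt
    have e2 := red_center hBt'
    rw [hB] at e1 e2
    have e3 : t' * ((2 ^ k : ℕ) : ℤ) = t * ((2 ^ k : ℕ) : ℤ) := by rw [← e1, ← e2]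
    have e4 : ((2 ^ k : ℕ) : ℤ) ≠ 0 := by
      push_cast
      exact hpos.ne'
    exact mul_right_cancel₀ e4 e3
  subst htt
  set U : Finset ℤ := A ∪ B ∪ C with hU
  have hAU : A ⊆ U := fun x hx => by simp [hU, hx]
  have hBU : B ⊆ U := fun x hx => by simp [hU, hx]
  have hCU : C ⊆ U := fun x hx => by simp [hU, hx]
  set d : ℤ := U.gcd (fun x => 2 * x - t') with hd
  have hdvd : ∀ x ∈ U, d ∣ 2 * x - t' := fun x hx => Finset.gcd_dvd hx
  have hd0 : d ≠ 0 := by
    intro h0
    have h3 : ∀ x ∈ A, ∀ y ∈ A, x = y := by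
      intro x hx y hy
      have e1 := hdvd x (hAU hx)
      have e2 := hdvd y (hAU hy)
      rw [h0, zero_dvd_iff] at e1 e2
      omega
    have h4 := Finset.card_le_one.2 h3
    rw [hA] at h4
    have h5 : 2 ^ 1 ≤ 2 ^ k := Nat.pow_le_pow_right (by norm_num) (by omega)
    omega
  set f : ℤ → ℤ := fun x => (2 * x - t') / d with hf
  have hfd : ∀ x ∈ U, f x * d = 2 * x - t' := fun x hx => Int.ediv_mul_cancel (hdvd x hx)
  have hinj : Set.InjOn f U := by
    intro x hx y hy hxy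
    have e1 := hfd x hx
    have e2 := hfd y hy
    rw [hxy, e2] at e1
    omega
  have hinjX : ∀ X ⊆ U, Set.InjOn f X := fun X hX => hinj.mono (by exact_mod_cast hX)
  have hcard : ∀ X ⊆ U, X.card = 2 ^ k → (X.image f).card = 2 ^ k := by
    intro X hX hXc
    rw [Finset.card_image_of_injOn (hinjX X hX), hXc]
  have hsymm : ∀ X ⊆ U, (∀ a ∈ X, t' - a ∈ X) → ∀ a ∈ X.image f, -a ∈ X.image f := by
    intro X hX hXt a ha
    obtain ⟨x, hx, rfl⟩ := Finset.mem_image.1 ha
    refine Finset.mem_image.2 ⟨t' - x, hXt x hx, ?_⟩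
    have e1 := hfd x (hX hx)
    have e2 := hfd (t' - x) (hX (hXt x hx))
    apply mul_right_cancel₀ hd0
    rw [e2, neg_mul, e1]
    ring
  have hneq : ∀ X ⊆ U, ∀ Y ⊆ U, X ≠ Y → X.image f ≠ Y.image f := by
    intro X hX Y hY hne heq
    apply hne
    ext a
    constructor
    · intro ha
      have e1 : f a ∈ Y.image f := by
        rw [← heq]
        exact Finset.mem_image_of_mem f ha
      obtain ⟨y, hy, hya⟩ := Finset.mem_image.1 e1
      rwa [← hinj (by exact_mod_cast hY hy) (by exact_mod_cast hX ha) hya]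
    · intro ha
      have e1 : f a ∈ X.image f := by
        rw [heq]
        exact Finset.mem_image_of_mem f ha
      obtain ⟨y, hy, hya⟩ := Finset.mem_image.1 e1
      rwa [← hinj (by exact_mod_cast hX hy) (by exact_mod_cast hY ha) hya]
  have hps : ∀ X ⊆ U, pairSums (X.image f) = (pairSums X).map fun s => (2 * s - 2 * t') / d := by
    intro X hX
    apply red_pairSums f _ (hinjX X hX)
    intro x hx y hy
    have e1 := hfd x (hX hx)
    have e2 := hfd y (hX hy)
    have e3 : 2 * (x + y) - 2 * t' = (f x + f y) * d := by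
      rw [add_mul, e1, e2]
      ring
    show f x + f y = (2 * (x + y) - 2 * t') / d
    rw [e3, Int.mul_ediv_cancel _ hd0]
  let S : ZMod 3 → Finset ℤ := fun i => (![A, B, C] : Fin 3 → Finset ℤ) i |>.image f
  have hSA : S 0 = A.image f := rfl
  have hSB : S 1 = B.image f := rfl
  have hSC : S 2 = C.image f := rfl
  have hcases : ∀ P : ZMod 3 → Prop, P 0 → P 1 → P 2 → ∀ i, P i := by
    intro P p0 p1 p2 i
    have : ∀ i : Fin 3, i = 0 ∨ i = 1 ∨ i = 2 := by decide
    rcases this i with h | h | h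
    · rw [h]; exact p0
    · rw [h]; exact p1
    · rw [h]; exact p2
  have hpsAll : ∀ i, pairSums (S i) = (pairSums A).map fun s => (2 * s - 2 * t') / d := by
    apply hcases
    · rw [hSA, hps A hAU]
    · rw [hSB, hps B hBU, ← h1]
    · rw [hSC, hps C hCU, ← h2, ← h1]
  refine ⟨⟨S, by omega, hk.add_one, ?_, ?_, ?_, ?_⟩, ?_⟩
  · rw [Nat.add_sub_cancel]
    apply hcases
    · rw [hSA]; exact hcard A hAU hA
    · rw [hSB]; exact hcard B hBU hB
    · rw [hSC]; exact hcard C hCU hC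
  · apply hcases
    · rw [hSA]; exact hsymm A hAU hAt
    · rw [hSB]; exact hsymm B hBU hBt
    · rw [hSC]; exact hsymm C hCU hCt'
  · apply hcases
    · rw [show (0 : ZMod 3) + 1 = 1 from rfl, hSA, hSB]; exact hneq A hAU B hBU hAB
    · rw [show (1 : ZMod 3) + 1 = 2 from rfl, hSB, hSC]; exact hneq B hBU C hCU hBC
    · rw [show (2 : ZMod 3) + 1 = 0 from rfl, hSC, hSA]; exact hneq C hCU A hAU hCA
  · intro i j
    rw [hpsAll i, hpsAll j]
  · intro p hp hp2
    by_contra hcon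
    push Not at hcon
    have hall : ∀ x ∈ U, (p : ℤ) ∣ f x := by
      intro x hx
      rw [hU, Finset.mem_union, Finset.mem_union] at hx
      rcases hx with (hx | hx) | hx
      · exact hcon 0 _ (Finset.mem_image_of_mem f hx)
      · exact hcon 1 _ (Finset.mem_image_of_mem f hx)
      · exact hcon 2 _ (Finset.mem_image_of_mem f hx)
    have h3 : (p : ℤ) * d ∣ d := by
      rw [hd]
      apply Finset.dvd_gcd
      intro x hx
      rw [← hd, ← hfd x hx]
      exact mul_dvd_mul_right (hall x hx) d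
    have h4 : (p : ℤ) * d ∣ 1 * d := by rwa [one_mul]
    have h5 : (p : ℤ) ∣ 1 := (mul_dvd_mul_iff_right hd0).1 h4
    have h6 : p ∣ 1 := by exact_mod_cast h5
    exact hp.one_lt.ne' (Nat.dvd_one.1 h6)

end Pool.Agent.Lib_MP_e4b855_nt.Tri
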