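import Pool.Agent.Lib_MP_e4b855_nt.Tri.Inv

namespace Pool.Agent.Lib_MP_e4b855_nt.Tri

open Finset

/-- values of Bernoulli polynomials -/
private noncomputable def trB (k : ℕ) (x : ℂ) : ℂ := Polynomial.aeval x (Polynomial.bernoulli k)

section series

open PowerSeries

private noncomputable def trG (x : ℂ) : ℂ⟦X⟧ :=
  PowerSeries.mk fun n => Polynomial.aeval x ((1 / (n.factorial : ℚ)) • Polynomial.bernoulli n)

private theorem trG_mul (x : ℂ) : trG x * (exp ℂ - 1) = X * rescale x (exp ℂ) :=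
  Polynomial.bernoulli_generating_function x

private theorem tr_exp_ne {M : ℕ} (hM : 0 < M) : (exp ℂ) ^ M - 1 ≠ 0 := by
  intro h
  have h1 := congrArg (coeff 1) h
  rw [exp_pow_eq_rescale_exp, map_sub, coeff_rescale, coeff_exp, coeff_one] at h1
  have : (M : ℂ) = 0 := by simpa using h1
  have h2 : M = 0 := by exact_mod_cast this
  omega

/-- the distribution relation -/
private theorem tr_dist (k : ℕ) {M : ℕ} (hM : 0 < M) (x : ℂ) :
    (M : ℂ) ^ k * ∑ l ∈ range M, trB k ((x + l) / M) = M * trB k x := by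
  have hMc : (M : ℂ) ≠ 0 := by exact_mod_cast hM.ne'
  have key : (∑ l ∈ range M, rescale (M : ℂ) (trG ((x + l) / M))) = C (M : ℂ) * trG x := by
    have h1 : ∀ l : ℕ, rescale (M : ℂ) (trG ((x + l) / M)) * ((exp ℂ) ^ M - 1) =
        C (M : ℂ) * X * rescale x (exp ℂ) * (exp ℂ) ^ l := by
      intro l
      have h := congrArg (rescale (M : ℂ)) (trG_mul ((x + l) / M))
      rw [map_mul, map_mul, map_sub, map_one, rescale_X, rescale_rescale,
        ← exp_pow_eq_rescale_exp] at h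
      rw [h, div_mul_cancel₀ _ hMc, ← exp_mul_exp_eq_exp_add, ← exp_pow_eq_rescale_exp]
      ring
    have h2 : (∑ l ∈ range M, rescale (M : ℂ) (trG ((x + l) / M))) * ((exp ℂ) ^ M - 1) =
        C (M : ℂ) * X * rescale x (exp ℂ) * ∑ l ∈ range M, (exp ℂ) ^ l := by
      rw [Finset.sum_mul, Finset.mul_sum]
      exact Finset.sum_congr rfl fun l _ => h1 l
    have h3 : (∑ l ∈ range M, (exp ℂ) ^ l) * (exp ℂ - 1) = (exp ℂ) ^ M - 1 := geom_sum_mul _ _
    have h4 : (exp ℂ : ℂ⟦X⟧) - 1 ≠ 0 := by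
      have := tr_exp_ne (M := 1) one_pos
      rwa [pow_one] at this
    apply mul_right_cancel₀ (tr_exp_ne hM)
    apply mul_right_cancel₀ h4
    rw [h2, mul_assoc _ (∑ l ∈ range M, (exp ℂ) ^ l), h3]
    calc C (M : ℂ) * X * rescale x (exp ℂ) * ((exp ℂ) ^ M - 1) =
        C (M : ℂ) * (X * rescale x (exp ℂ)) * ((exp ℂ) ^ M - 1) := by ring
      _ = C (M : ℂ) * (trG x * (exp ℂ - 1)) * ((exp ℂ) ^ M - 1) := by rw [trG_mul]
      _ = C (M : ℂ) * trG x * ((exp ℂ) ^ M - 1) * (exp ℂ - 1) := by ring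
  have h5 := congrArg (coeff k) key
  rw [map_sum, coeff_C_mul] at h5
  simp only [coeff_rescale, trG, coeff_mk, map_smul] at h5
  rw [Finset.mul_sum]
  have hk : (k.factorial : ℂ) ≠ 0 := by exact_mod_cast k.factorial_ne_zero
  have h6 := congrArg (fun z => (k.factorial : ℂ) * z) h5
  simp only [Finset.mul_sum, Algebra.smul_def] at h6
  have h7 : (algebraMap ℚ ℂ) (1 / (k.factorial : ℚ)) = 1 / (k.factorial : ℂ) := by simp
  simp only [h7] at h6
  have h8 : ∀ z w : ℂ, (k.factorial : ℂ) * (w * (1 / (k.factorial : ℂ) * z)) = w * z := by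
    intro z w
    field_simp
  simp only [h8] at h6
  exact h6

end series

private theorem tr_dist' {k : ℕ} (hk : 0 < k) {M : ℕ} (hM : 0 < M) (x : ℂ) :
    (M : ℂ) ^ (k - 1) * ∑ l ∈ range M, trB k ((x + l) / M) = trB k x := by
  have hMc : (M : ℂ) ≠ 0 := by exact_mod_cast hM.ne'
  have h := tr_dist k hM x
  obtain ⟨k', rfl⟩ : ∃ k', k = k' + 1 := ⟨k - 1, by omega⟩
  rw [Nat.add_sub_cancel]
  apply mul_left_cancel₀ hMc
  rw [← h]
  ring

/-- reindexing -/
private theorem tr_sum_range_mul (a b : ℕ) (ha : 0 < a) (h : ℕ → ℂ) :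
    ∑ r ∈ range (a * b), h r = ∑ s ∈ range a, ∑ l ∈ range b, h (s + a * l) := by
  rw [← Finset.sum_product']
  symm
  refine Finset.sum_nbij' (fun q : ℕ × ℕ => q.1 + a * q.2) (fun r => (r % a, r / a)) ?_ ?_ ?_ ?_ ?_
  · rintro ⟨s, l⟩ hq
    simp only [mem_product, mem_range] at hq ⊢
    calc s + a * l < a + a * l := by omega
      _ = a * (l + 1) := by ring
      _ ≤ a * b := Nat.mul_le_mul_left _ hq.2
  · intro r hr
    simp only [mem_product, mem_range] at hr ⊢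
    exact ⟨Nat.mod_lt _ ha, Nat.div_lt_of_lt_mul hr⟩
  · rintro ⟨s, l⟩ hq
    simp only [mem_product, mem_range] at hq
    simp only [Prod.mk.injEq]
    constructor
    · rw [Nat.add_mul_mod_self_left, Nat.mod_eq_of_lt hq.1]
    · rw [Nat.add_mul_div_left _ _ ha, Nat.div_eq_of_lt hq.1, zero_add]
  · intro r _
    exact Nat.mod_add_div r a
  · rintro ⟨s, l⟩ _
    rfl

/-- the sum over the residues prime to `p` -/
private noncomputable def trT (p m k : ℕ) (g : ℕ → ℂ) : ℂ :=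
  ∑ r ∈ (range (p ^ m)).filter (fun r => ¬ p ∣ r), trB k ((r : ℂ) / (p ^ m : ℕ)) * g r

/-- one step of the distribution relation -/
private theorem trT_step {p : ℕ} (hp : 0 < p) {m k : ℕ} (hm : 0 < m) (hk : 0 < k) (g : ℕ → ℂ)
    (hg : ∀ a l, g (a + p ^ m * l) = g a) :
    trT p m k g = (p : ℂ) ^ (k - 1) * trT p (m + 1) k g := by
  have hpc : (p : ℂ) ≠ 0 := by exact_mod_cast hp.ne'
  unfold trT
  rw [Finset.sum_filter, Finset.sum_filter, pow_succ p m, tr_sum_range_mul _ _ (by positivity),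
    Finset.mul_sum]
  refine Finset.sum_congr rfl fun s _ => ?_
  have hdvd : ∀ l, p ∣ s + p ^ m * l ↔ p ∣ s := by
    intro l
    have : p ∣ p ^ m * l := Dvd.dvd.mul_right (dvd_pow_self p hm.ne') l
    exact (Nat.dvd_add_iff_left this).symm
  by_cases h : p ∣ s
  · simp [hdvd, h]
  · simp only [hdvd, h, not_false_eq_true, if_true, hg]
    rw [← Finset.sum_mul, ← mul_assoc]
    congr 1
    rw [← tr_dist' hk hp]
    congr 1
    refine Finset.sum_congr rfl fun l _ => ?_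
    congr 1
    push_cast
    field_simp

/-- splitting off the multiples of `p` -/
private theorem tr_split {p : ℕ} (hp : 0 < p) {m k : ℕ} (g : ℕ → ℂ) :
    ∑ r ∈ range (p ^ (m + 1)), trB k ((r : ℂ) / (p ^ (m + 1) : ℕ)) * g r =
      trT p (m + 1) k g + ∑ y ∈ range (p ^ m), trB k ((y : ℂ) / (p ^ m : ℕ)) * g (p * y) := by
  have hpc : (p : ℂ) ≠ 0 := by exact_mod_cast hp.ne'
  rw [← Finset.sum_filter_add_sum_filter_not (range (p ^ (m + 1))) (fun r => ¬ p ∣ r)]
  unfold trT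
  congr 1
  rw [Finset.sum_filter, pow_succ' p m, tr_sum_range_mul _ _ hp]
  rw [Finset.sum_eq_single 0]
  · refine Finset.sum_congr rfl fun l _ => ?_
    have h1 : ¬ ¬ p ∣ 0 + p * l := by
      rw [not_not, zero_add]
      exact dvd_mul_right _ _
    rw [if_pos h1, zero_add]
    congr 2
    push_cast
    rw [mul_div_mul_left _ _ hpc]
  · intro s hs hs0
    refine Finset.sum_eq_zero fun l _ => ?_
    rw [if_neg]
    rw [not_not]
    intro h
    have h2 : p ∣ s := (Nat.dvd_add_iff_left (dvd_mul_right p l)).2 h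
    exact absurd (Nat.le_of_dvd (Nat.pos_of_ne_zero hs0) h2) (not_le.2 (mem_range.1 hs))
  · intro h
    exact absurd (mem_range.2 hp) h

/-- the grouping by valuations -/
private theorem tr_group {p : ℕ} (hp : 0 < p) {k : ℕ} (hk : 0 < k) (j : ℕ) :
    ∀ g : ℕ → ℂ, (∀ a l, g (a + p ^ j * l) = g a) →
    ∑ r ∈ range (p ^ j), trB k ((r : ℂ) / (p ^ j : ℕ)) * g r =
      ∑ i ∈ range j, ((p : ℂ) ^ (k - 1)) ^ i * trT p j k (fun r => g (p ^ i * r)) +
        trB k 0 * g 0 := by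
  induction j with
  | zero =>
    intro g _
    simp
  | succ j ih =>
    intro g hg
    rw [tr_split hp]
    have hg' : ∀ a l, g (p * (a + p ^ j * l)) = g (p * a) := by
      intro a l
      have h := hg (p * a) l
      rw [← h]
      congr 1
      ring
    rw [ih (fun y => g (p * y)) hg', Finset.sum_range_succ']
    have h1 : ∑ i ∈ range j, ((p : ℂ) ^ (k - 1)) ^ i * trT p j k (fun r => g (p * (p ^ i * r))) =
        ∑ i ∈ range j, ((p : ℂ) ^ (k - 1)) ^ (i + 1) *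
          trT p (j + 1) k (fun r => g (p ^ (i + 1) * r)) := by
      refine Finset.sum_congr rfl fun i hi => ?_
      have hj : 0 < j := by
        have := mem_range.1 hi
        omega
      rw [trT_step hp hj hk (fun r => g (p * (p ^ i * r)))]
      · have h2 : (fun r => g (p * (p ^ i * r))) = fun r => g (p ^ (i + 1) * r) := by
          funext r
          congr 1
          ring
        rw [h2]
        ring
      · intro a l
        show g (p * (p ^ i * (a + p ^ j * l))) = g (p * (p ^ i * a))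
        have h3 : p * (p ^ i * (a + p ^ j * l)) = p * (p ^ i * a) + p ^ (j + 1) * (p ^ i * l) := by
          ring
        rw [h3, hg]
    rw [h1]
    have h4 : (fun r => g (p ^ 0 * r)) = g := by
      funext r
      rw [pow_zero, one_mul]
    rw [h4, pow_zero, one_mul, mul_zero]
    ring

/-- the Bernoulli number as a sum over the residues prime to `p` -/
private theorem tr_zero {p : ℕ} (hp : 0 < p) {j k : ℕ} (hj : 0 < j) (hk : 0 < k) :
    (1 - (p : ℂ) ^ (k - 1)) * trB k 0 = ((p : ℂ) ^ (k - 1)) ^ j * trT p j k (fun _ => 1) := by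
  obtain ⟨m, rfl⟩ : ∃ m, j = m + 1 := ⟨j - 1, by omega⟩
  have h := tr_split hp (m := m) (k := k) (fun _ => (1 : ℂ))
  simp only [mul_one] at h
  have h1 := tr_dist' hk (M := p ^ (m + 1)) (by positivity) 0
  have h2 := tr_dist' hk (M := p ^ m) (by positivity) 0
  simp only [zero_add] at h1 h2
  rw [h] at h1
  have h3 : ((p ^ (m + 1) : ℕ) : ℂ) ^ (k - 1) = ((p : ℂ) ^ (k - 1)) ^ (m + 1) := by
    push_cast
    rw [← pow_mul, ← pow_mul, mul_comm]
  have h4 : ((p ^ m : ℕ) : ℂ) ^ (k - 1) = ((p : ℂ) ^ (k - 1)) ^ m := by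
    push_cast
    rw [← pow_mul, ← pow_mul, mul_comm]
  rw [h3] at h1
  rw [h4] at h2
  rw [mul_add] at h1
  have h5 : ((p : ℂ) ^ (k - 1)) ^ (m + 1) * ∑ y ∈ range (p ^ m), trB k ((y : ℂ) / (p ^ m : ℕ)) =
      (p : ℂ) ^ (k - 1) * trB k 0 := by
    rw [← h2]
    ring
  rw [h5] at h1
  linear_combination (-1 : ℂ) * h1

private noncomputable def trPhi (v : ℕ →₀ ℤ) (k : ℕ) (ζ : ℂ) (r : ℕ) : ℂ :=
  v.sum fun n a => (a : ℂ) * (n : ℂ) ^ k * (ζ ^ n) ^ r

private theorem trPhi_per (v : ℕ →₀ ℤ) (k : ℕ) {ζ : ℂ} {N : ℕ} (hζ : ζ ^ N = 1) (a l : ℕ) :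
    trPhi v k ζ (a + N * l) = trPhi v k ζ a := by
  unfold trPhi
  refine Finset.sum_congr rfl fun n _ => ?_
  have h : (ζ ^ n) ^ (a + N * l) = (ζ ^ n) ^ a := by
    rw [pow_add, pow_mul (ζ ^ n) N l, ← pow_mul ζ n N, mul_comm n N, pow_mul ζ N n, hζ, one_pow,
      one_pow, mul_one]
  simp only [h]

private noncomputable def trw (p j : ℕ) (v : ℕ →₀ ℤ) (k : ℕ) (ζ : ℂ) (x : ℕ) : ℂ :=
  ∑ i ∈ range j, ((p : ℂ) ^ (k - 1)) ^ i * trPhi v k ζ (p ^ i * x) +
    ((p : ℂ) ^ (k - 1)) ^ j * trPhi v k ζ 0 / (1 - (p : ℂ) ^ (k - 1))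

private theorem trw_per (p j : ℕ) (v : ℕ →₀ ℤ) (k : ℕ) {ζ : ℂ} {N : ℕ} (hζ : ζ ^ N = 1)
    (a l : ℕ) : trw p j v k ζ (a + N * l) = trw p j v k ζ a := by
  unfold trw
  congr 1
  refine Finset.sum_congr rfl fun i _ => ?_
  have h : p ^ i * (a + N * l) = p ^ i * a + N * (p ^ i * l) := by ring
  rw [h, trPhi_per v k hζ]

/-- the logarithmic derivative as a sum over the residues prime to `p` -/
private theorem tr_Lam {p : ℕ} (hp : 1 < p) {j k : ℕ} (hj : 0 < j) (hk : 0 < k)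
    (v : ℕ →₀ ℤ) {ζ : ℂ} (hζ : ζ ^ (p ^ j) = 1) (a : ℕ) :
    Lam (p ^ j) k v (ζ ^ a) =
      ((p : ℂ) ^ (k - 1)) ^ j * trT p j k (fun r => trw p j v k ζ (a * r)) := by
  have hp0 : 0 < p := by omega
  have hpc : (p : ℂ) ≠ 0 := by exact_mod_cast hp0.ne'
  have hNc : ((p ^ j : ℕ) : ℂ) ≠ 0 := by exact_mod_cast (pow_pos hp0 j).ne'
  have hq : ((p ^ j : ℕ) : ℂ) ^ k / ((p ^ j : ℕ) : ℂ) = ((p : ℂ) ^ (k - 1)) ^ j := by
    obtain ⟨k', rfl⟩ : ∃ k', k = k' + 1 := ⟨k - 1, by omega⟩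
    rw [Nat.add_sub_cancel, pow_succ, mul_div_assoc, div_self hNc, mul_one]
    push_cast
    rw [← pow_mul, ← pow_mul, mul_comm]
  -- Lam in terms of the periodic function
  have h1 : Lam (p ^ j) k v (ζ ^ a) = ((p : ℂ) ^ (k - 1)) ^ j *
      (∑ r ∈ range (p ^ j), trB k ((r : ℂ) / (p ^ j : ℕ)) * trPhi v k ζ (a * r)) +
      (if k = 1 then 1 / 2 else 0) * trPhi v k ζ 0 := by
    unfold Lam trPhi Finsupp.sum
    simp only [bk, hq]
    simp only [Finset.mul_sum]
    rw [Finset.sum_comm, ← Finset.sum_add_distrib]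
    refine Finset.sum_congr rfl fun n _ => ?_
    rw [mul_add, Finset.mul_sum]
    congr 1
    · refine Finset.sum_congr rfl fun r _ => ?_
      have : ((ζ ^ a) ^ n) ^ r = (ζ ^ n) ^ (a * r) := by
        rw [← pow_mul, ← pow_mul, ← pow_mul]
        congr 1
        ring
      rw [this]
      unfold trB
      ring
    · rw [pow_zero]
      ring
  have h2 := tr_group hp0 hk j (fun r => trPhi v k ζ (a * r)) (by
    intro b l
    show trPhi v k ζ (a * (b + p ^ j * l)) = trPhi v k ζ (a * b)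
    have : a * (b + p ^ j * l) = a * b + p ^ j * (a * l) := by ring
    rw [this, trPhi_per v k hζ])
  rw [h1, h2]
  simp only [mul_zero]
  -- the other side
  have h3 : trT p j k (fun r => trw p j v k ζ (a * r)) =
      ∑ i ∈ range j, ((p : ℂ) ^ (k - 1)) ^ i * trT p j k (fun r => trPhi v k ζ (a * (p ^ i * r))) +
        ((p : ℂ) ^ (k - 1)) ^ j * trPhi v k ζ 0 / (1 - (p : ℂ) ^ (k - 1)) *
          trT p j k (fun _ => 1) := by
    unfold trT trw
    simp only [mul_add, Finset.sum_add_distrib, Finset.mul_sum]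
    rw [Finset.sum_comm]
    congr 1
    · refine Finset.sum_congr rfl fun i _ => ?_
      refine Finset.sum_congr rfl fun r _ => ?_
      have : p ^ i * (a * r) = a * (p ^ i * r) := by ring
      rw [this]
      ring
    · refine Finset.sum_congr rfl fun r _ => ?_
      ring
  rw [h3]
  rcases eq_or_ne k 1 with rfl | hk1
  · have h4 : trB 1 0 = -1 / 2 := by
      unfold trB
      rw [Polynomial.bernoulli_one]
      simp
      norm_num
    rw [h4]
    simp
    ring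
  · rw [if_neg hk1]
    have h5 := tr_zero hp0 hj hk
    have h6 : (1 - (p : ℂ) ^ (k - 1)) ≠ 0 := by
      intro h
      have h7 : (p : ℂ) ^ (k - 1) = 1 := by linear_combination -h
      have h8 : p ^ (k - 1) = 1 := by exact_mod_cast h7
      have h9 : 1 < p ^ (k - 1) := Nat.one_lt_pow (by omega) hp
      omega
    have h10 : trB k 0 = ((p : ℂ) ^ (k - 1)) ^ j * trT p j k (fun _ => 1) / (1 - (p : ℂ) ^ (k - 1)) := by
      rw [eq_div_iff h6, ← h5]
      ring
    rw [h10]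
    field_simp
    ring

/-- Piece B2.  TRANSFER, `k ≥ 1`.  With `Φ_c(r) = ∑ v_n n^k ζ^{c n r}` one has
`Lam (p^j) k v (ζ^c) = N^{k-1} ∑_{r mod N} B_k(r/N) Φ_c(r)` (for `k = 1` the term `r = 0` drops
out), and by the distribution relation `∑_{l<M} B_k((x+l)/M) = M^{1-k} B_k(x)` this equals
`N^{k-1} ∑_{s unit} B_k(s/N) w(c s)`, `w(c) = ∑_{i<j} p^{i(k-1)} Φ_c(p^i) +
p^{j(k-1)} Φ_c(0) / (1 - p^{k-1})`; `w(c) + (-1)^k w(-c) = Wk p j v k (ζ^c)`; use `inv_bern`. -/
theorem transfer {p : ℕ} [Fact p.Prime] (hp2 : p ≠ 2) {j k : ℕ} (hj : 0 < j) (hk : 0 < k)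
    (v : ℕ →₀ ℤ) {ζ : ℂ} (hζ : IsPrimitiveRoot ζ (p ^ j))
    (h : ∀ c : ℕ, c.Coprime p → Lam (p ^ j) k v (ζ ^ c) = 0) : Wk p j v k ζ = 0 := by
  have hpp : p.Prime := Fact.out
  have hp1 : 1 < p := hpp.one_lt
  have hζ1 : ζ ^ (p ^ j) = 1 := hζ.pow_eq_one
  have hζ0 : ζ ≠ 0 := hζ.ne_zero (pow_pos hpp.pos j).ne'
  have : NeZero (p ^ j) := ⟨(pow_pos hpp.pos j).ne'⟩
  have hN1 : 1 < p ^ j := Nat.one_lt_pow hj.ne' hp1
  have : Fact (1 < p ^ j) := ⟨hN1⟩
  have hpc : (p : ℂ) ≠ 0 := by exact_mod_cast hpp.ne_zero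
  -- the vanishing of the sums
  have hT : ∀ a : ℕ, a.Coprime p → trT p j k (fun r => trw p j v k ζ (a * r)) = 0 := by
    intro a ha
    have h1 := h a ha
    rw [tr_Lam hp1 hj hk v hζ1] at h1
    have h2 : ((p : ℂ) ^ (k - 1)) ^ j ≠ 0 := pow_ne_zero _ (pow_ne_zero _ hpc)
    exact (mul_eq_zero.1 h1).resolve_left h2
  -- the function on the residues
  have hwmod : ∀ a b : ℕ, (a : ZMod (p ^ j)) = b → trw p j v k ζ a = trw p j v k ζ b := by
    have aux : ∀ a : ℕ, trw p j v k ζ a = trw p j v k ζ (a % p ^ j) := by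
      intro a
      have h1 := trw_per p j v k hζ1 (a % p ^ j) (a / p ^ j)
      rw [Nat.mod_add_div] at h1
      exact h1
    intro a b hab
    rw [ZMod.natCast_eq_natCast_iff'] at hab
    rw [aux a, aux b, hab]
  set f : (ZMod (p ^ j))ˣ → ℂ := fun c =>
    trw p j v k ζ (c : ZMod (p ^ j)).val + (-1) ^ k * trw p j v k ζ ((-c : (ZMod (p ^ j))ˣ) : ZMod (p ^ j)).val
    with hf
  have hcop : ∀ c : (ZMod (p ^ j))ˣ, (c : ZMod (p ^ j)).val.Coprime p := by
    intro c
    have h1 := ZMod.val_coe_unit_coprime c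
    exact Nat.Coprime.coprime_dvd_right (dvd_pow_self p hj.ne') h1
  have hsum : ∀ c : (ZMod (p ^ j))ˣ, ∑ s : (ZMod (p ^ j))ˣ,
      (Polynomial.aeval (((s : ZMod (p ^ j)).val : ℂ) / (p ^ j : ℕ)) (Polynomial.bernoulli k)) *
        trw p j v k ζ ((c * s : (ZMod (p ^ j))ˣ) : ZMod (p ^ j)).val = 0 := by
    intro c
    rw [← hT _ (hcop c)]
    unfold trT
    refine Finset.sum_nbij (fun s : (ZMod (p ^ j))ˣ => (s : ZMod (p ^ j)).val) ?_ ?_ ?_ ?_
    · intro s _
      simp only [mem_filter, mem_range]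
      refine ⟨ZMod.val_lt _, fun hd => ?_⟩
      have h1 := Nat.Coprime.eq_one_of_dvd (hcop s).symm hd
      omega
    · intro s _ s' _ hss
      have h1 : (s : ZMod (p ^ j)) = (s' : ZMod (p ^ j)) := ZMod.val_injective _ hss
      exact Units.ext h1
    · intro r hr
      simp only [coe_filter, mem_range, Set.mem_ofPred_eq] at hr
      have h1 : r.Coprime (p ^ j) :=
        Nat.Coprime.pow_right _ ((Nat.Prime.coprime_iff_not_dvd hpp).2 hr.2).symm
      refine ⟨ZMod.unitOfCoprime r h1, by simp, ?_⟩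
      show ((ZMod.unitOfCoprime r h1 : (ZMod (p ^ j))ˣ) : ZMod (p ^ j)).val = r
      rw [ZMod.coe_unitOfCoprime, ZMod.val_natCast, Nat.mod_eq_of_lt hr.1]
    · intro s _
      unfold trB
      congr 1
      apply hwmod
      rw [ZMod.natCast_val, ZMod.cast_id', id_eq, Nat.cast_mul, ZMod.natCast_val, ZMod.cast_id',
        id_eq, ZMod.natCast_val, ZMod.cast_id', id_eq, Units.val_mul]
  have hf0 : f = 0 := by
    refine inv_bern hp2 hj hk f ?_ ?_
    · intro c
      rw [hf]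
      simp only [neg_neg]
      have h1 : ((-1 : ℂ) ^ k) * (-1) ^ k = 1 := by
        rw [← mul_pow]
        simp
      linear_combination
        (-trw p j v k ζ ((-c : (ZMod (p ^ j))ˣ) : ZMod (p ^ j)).val) * h1
    · intro c
      have h1 := hsum c
      have h2 := hsum (-c)
      rw [hf]
      simp only [mul_add, Finset.sum_add_distrib]
      rw [h1, zero_add]
      have h3 : ∀ s : (ZMod (p ^ j))ˣ, -(c * s) = -c * s := fun s => by rw [neg_mul]
      simp only [h3]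
      calc ∑ s : (ZMod (p ^ j))ˣ,
            (Polynomial.aeval (((s : ZMod (p ^ j)).val : ℂ) / (p ^ j : ℕ)) (Polynomial.bernoulli k)) *
              ((-1) ^ k * trw p j v k ζ ((-c * s : (ZMod (p ^ j))ˣ) : ZMod (p ^ j)).val)
          = (-1) ^ k * ∑ s : (ZMod (p ^ j))ˣ,
            (Polynomial.aeval (((s : ZMod (p ^ j)).val : ℂ) / (p ^ j : ℕ)) (Polynomial.bernoulli k)) *
              trw p j v k ζ ((-c * s : (ZMod (p ^ j))ˣ) : ZMod (p ^ j)).val := by
            rw [Finset.mul_sum]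
            refine Finset.sum_congr rfl fun s _ => ?_
            ring
        _ = 0 := by rw [h2, mul_zero]
  -- the value at one
  have h1 : f 1 = 0 := by rw [hf0]; rfl
  rw [hf] at h1
  simp only at h1
  have hone : trw p j v k ζ ((1 : (ZMod (p ^ j))ˣ) : ZMod (p ^ j)).val = trw p j v k ζ 1 := by
    apply hwmod
    rw [ZMod.natCast_val, ZMod.cast_id', id_eq, Units.val_one, Nat.cast_one]
  have hmone : trw p j v k ζ ((-1 : (ZMod (p ^ j))ˣ) : ZMod (p ^ j)).val =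
      trw p j v k ζ (p ^ j - 1) := by
    apply hwmod
    rw [ZMod.natCast_val, ZMod.cast_id', id_eq, Units.val_neg, Units.val_one, Nat.cast_sub hN1.le,
      ZMod.natCast_self, Nat.cast_one, zero_sub]
  rw [hone, hmone] at h1
  rw [← h1]
  -- compare
  have hPk : ∀ i : ℕ, Pk v k (ζ ^ p ^ i) =
      trPhi v k ζ (p ^ i * 1) + (-1) ^ k * trPhi v k ζ (p ^ i * (p ^ j - 1)) := by
    intro i
    unfold Pk trPhi Finsupp.sum
    rw [Finset.mul_sum, ← Finset.sum_add_distrib]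
    refine Finset.sum_congr rfl fun n _ => ?_
    have h2 : (ζ ^ p ^ i) ^ n = (ζ ^ n) ^ (p ^ i * 1) := by
      rw [mul_one, ← pow_mul, ← pow_mul, mul_comm]
    have h3 : ((ζ ^ p ^ i) ^ n)⁻¹ = (ζ ^ n) ^ (p ^ i * (p ^ j - 1)) := by
      apply inv_eq_of_mul_eq_one_right
      rw [h2, ← pow_add, ← mul_add, Nat.add_sub_cancel' hN1.le, ← pow_mul, ← mul_assoc,
        mul_comm (n * p ^ i), pow_mul, hζ1, one_pow]
    dsimp only
    rw [h3, h2]
    ring
  have hPk1 : Pk v k 1 = trPhi v k ζ 0 + (-1) ^ k * trPhi v k ζ 0 := by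
    unfold Pk trPhi Finsupp.sum
    rw [Finset.mul_sum, ← Finset.sum_add_distrib]
    refine Finset.sum_congr rfl fun n _ => ?_
    dsimp only
    rw [one_pow, inv_one, pow_zero]
    ring
  have hpw : ∀ i : ℕ, ((p : ℂ) ^ i) ^ (k - 1) = ((p : ℂ) ^ (k - 1)) ^ i := fun i => by
    rw [← pow_mul, ← pow_mul, mul_comm]
  unfold Wk trw
  simp only [hPk, hPk1, hpw]
  have h5 : ∑ i ∈ range j, ((p : ℂ) ^ (k - 1)) ^ i *
      (trPhi v k ζ (p ^ i * 1) + (-1) ^ k * trPhi v k ζ (p ^ i * (p ^ j - 1))) =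
      ∑ i ∈ range j, ((p : ℂ) ^ (k - 1)) ^ i * trPhi v k ζ (p ^ i * 1) +
      ∑ i ∈ range j, (-1) ^ k * (((p : ℂ) ^ (k - 1)) ^ i * trPhi v k ζ (p ^ i * (p ^ j - 1))) := by
    rw [← Finset.sum_add_distrib]
    refine Finset.sum_congr rfl fun i _ => ?_
    ring
  have h6 : (-1) ^ k * ∑ i ∈ range j, ((p : ℂ) ^ (k - 1)) ^ i * trPhi v k ζ (p ^ i * (p ^ j - 1)) =
      ∑ i ∈ range j, (-1) ^ k * (((p : ℂ) ^ (k - 1)) ^ i * trPhi v k ζ (p ^ i * (p ^ j - 1))) :=
    Finset.mul_sum _ _ _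
  linear_combination h5 - h6

end Pool.Agent.Lib_MP_e4b855_nt.Tri
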