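import Pool.Agent.Lib_MP_e4b855_nt.Tri.Lim

namespace Pool.Agent.Lib_MP_e4b855_nt.Tri

open Finset

namespace T0

/-- linearity of `ZMod.LFunction` -/
theorem LFunction_sum {N : ℕ} [NeZero N] {ι : Type*} (S : Finset ι) (a : ι → ℂ)
    (F : ι → ZMod N → ℂ) (s : ℂ) :
    ZMod.LFunction (fun r => ∑ i ∈ S, a i * F i r) s = ∑ i ∈ S, a i * ZMod.LFunction (F i) s := by
  simp only [ZMod.LFunction, Finset.mul_sum, Finset.sum_mul]
  rw [Finset.sum_comm]
  refine Finset.sum_congr rfl fun i _ => Finset.sum_congr rfl fun r _ => by ring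

theorem LSeries_shift (d : ℕ) (hd : 0 < d) (f : ℕ → ℂ) (s : ℂ) :
    LSeries (fun m => if d ∣ m then f (m / d) else 0) s = (d : ℂ) ^ (-s) * LSeries f s := by
  have hinj : Function.Injective (fun m : ℕ => d * m) :=
    fun a b h => Nat.eq_of_mul_eq_mul_left hd h
  unfold LSeries
  rw [← hinj.tsum_eq (f := LSeries.term (fun m => if d ∣ m then f (m / d) else 0) s),
    ← tsum_mul_left]
  · refine tsum_congr fun m => ?_
    rcases Nat.eq_zero_or_pos m with rfl | hm
    · simp [LSeries.term]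
    · have hdm : d * m ≠ 0 := by positivity
      rw [LSeries.term_of_ne_zero hdm, LSeries.term_of_ne_zero hm.ne', if_pos (dvd_mul_right d m),
        Nat.mul_div_cancel_left _ hd, Nat.cast_mul, Complex.natCast_mul_natCast_cpow,
        Complex.cpow_neg]
      rw [div_mul_eq_div_div, div_eq_mul_inv, mul_comm, mul_div_assoc', div_eq_mul_inv,
        div_eq_mul_inv]
      ring
  · intro m hm
    by_contra h
    apply hm
    rcases Nat.eq_zero_or_pos m with rfl | hm0
    · simp [LSeries.term]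
    · rw [LSeries.term_of_ne_zero hm0.ne', if_neg, zero_div]
      rintro ⟨k, rfl⟩
      exact h ⟨k, rfl⟩

/-- a function on the unit group orthogonal to all characters is zero -/
theorem eq_zero_of_chars {N : ℕ} [NeZero N] (f : (ZMod N)ˣ → ℂ)
    (h : ∀ χ : DirichletCharacter ℂ N, ∑ c : (ZMod N)ˣ, χ (c : ZMod N) * f c = 0) : f = 0 := by
  funext b
  have h1 : ∑ χ : DirichletCharacter ℂ N, χ ((b : ZMod N)⁻¹) *
      ∑ c : (ZMod N)ˣ, χ (c : ZMod N) * f c = 0 :=
    Finset.sum_eq_zero fun χ _ => by rw [h χ, mul_zero]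
  have h2 : ∑ c : (ZMod N)ˣ, f c * ∑ χ : DirichletCharacter ℂ N,
      χ ((b : ZMod N)⁻¹) * χ (c : ZMod N) = 0 := by
    rw [← h1]
    simp only [Finset.mul_sum]
    rw [Finset.sum_comm]
    refine Finset.sum_congr rfl fun χ _ => Finset.sum_congr rfl fun c _ => by ring
  simp only [DirichletCharacter.sum_char_inv_mul_char_eq ℂ b.isUnit, Units.val_inj] at h2
  simp only [mul_ite, mul_zero, Finset.sum_ite_eq, Finset.mem_univ, if_true] at h2
  have h3 : ((N.totient : ℕ) : ℂ) ≠ 0 := by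
    exact_mod_cast (Nat.totient_pos.2 (NeZero.pos N)).ne'
  exact (mul_eq_zero.1 h2).resolve_right h3

theorem key {p : ℕ} [Fact p.Prime] {j : ℕ} (G : ZMod (p ^ j) → ℂ) (hG0 : G 0 = 0)
    (hGs : ∑ r, G r = 0) (K : ℂ)
    (hK : ∀ c : (ZMod (p ^ j))ˣ,
      ZMod.LFunction (fun r : ZMod (p ^ j) => G ((c : ZMod (p ^ j)) * r)) 1 = K)
    (χ : DirichletCharacter ℂ (p ^ j)) :
    ∑ c : (ZMod (p ^ j))ˣ, χ (c : ZMod (p ^ j)) *
      ∑ i ∈ range j, ((p : ℂ) ^ i)⁻¹ * G (c * ((p ^ i : ℕ) : ZMod (p ^ j))) = 0 := by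
  have hp : p.Prime := Fact.out
  set Ψ : ZMod (p ^ j) → ℂ :=
    fun r => ∑ c : (ZMod (p ^ j))ˣ, χ (c : ZMod (p ^ j)) * G (c * r) with hΨ
  set A : ℕ → ℂ := fun i => Ψ ((p ^ i : ℕ) : ZMod (p ^ j)) with hA
  -- pointwise decomposition
  have hnu : ∀ a : ℕ, p ∣ a → 0 < j → χ⁻¹ (a : ZMod (p ^ j)) = 0 := by
    intro a ha hj
    refine MulChar.map_nonunit _ fun hu => ?_
    rw [ZMod.isUnit_iff_coprime] at hu
    have := Nat.Coprime.coprime_dvd_left ha (Nat.Coprime.coprime_dvd_right (dvd_pow_self p hj.ne') hu)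
    rw [Nat.coprime_self] at this
    exact hp.one_lt.ne' this
  have hpt : ∀ m : ℕ, m ≠ 0 → Ψ m = ∑ i ∈ range j, A i *
      (if p ^ i ∣ m then χ⁻¹ ((m / p ^ i : ℕ) : ZMod (p ^ j)) else 0) := by
    intro m hm
    obtain ⟨k, m', hm', rfl⟩ := Nat.exists_eq_pow_mul_and_not_dvd hm p hp.one_lt.ne'
    have hlow : ∀ i, i < k → 0 < j → (if p ^ i ∣ p ^ k * m' then
        χ⁻¹ ((p ^ k * m' / p ^ i : ℕ) : ZMod (p ^ j)) else 0) = 0 := by
      intro i hi hj
      have e : p ^ k * m' = p ^ i * (p * (p ^ (k - i - 1) * m')) := by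
        obtain ⟨d, rfl⟩ := Nat.exists_eq_add_of_lt hi
        have : i + d + 1 - i - 1 = d := by omega
        rw [this]
        ring
      rw [e, if_pos (dvd_mul_right _ _), Nat.mul_div_cancel_left _ (pow_pos hp.pos i)]
      exact hnu _ (dvd_mul_right _ _) hj
    rcases le_or_gt j k with hjk | hjk
    · have h0 : ((p ^ k * m' : ℕ) : ZMod (p ^ j)) = 0 := by
        rw [ZMod.natCast_eq_zero_iff]
        exact Dvd.dvd.mul_right (pow_dvd_pow p hjk) m'
      rw [h0]
      simp only [hΨ, mul_zero, hG0, Finset.sum_const_zero]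
      symm
      refine Finset.sum_eq_zero fun i hi => ?_
      rw [Finset.mem_range] at hi
      rw [hlow i (by omega) (by omega), mul_zero]
    · rw [Finset.sum_eq_single_of_mem k (Finset.mem_range.2 hjk)]
      · rw [if_pos (dvd_mul_right _ _), Nat.mul_div_cancel_left _ (pow_pos hp.pos k)]
        have hcop : m'.Coprime (p ^ j) :=
          Nat.Coprime.pow_right j ((hp.coprime_iff_not_dvd.2 hm').symm)
        set u : (ZMod (p ^ j))ˣ := ZMod.unitOfCoprime m' hcop with hu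
        have hum : ((m' : ℕ) : ZMod (p ^ j)) = (u : ZMod (p ^ j)) := by
          rw [hu, ZMod.coe_unitOfCoprime]
        rw [hum, Nat.cast_mul, hum]
        simp only [hA, hΨ]
        rw [Finset.sum_mul]
        rw [← Equiv.sum_comp (Equiv.mulRight u⁻¹)]
        refine Finset.sum_congr rfl fun c _ => ?_
        have e1 : (((Equiv.mulRight u⁻¹) c : (ZMod (p ^ j))ˣ) : ZMod (p ^ j)) =
            (c : ZMod (p ^ j)) * ((u⁻¹ : (ZMod (p ^ j))ˣ) : ZMod (p ^ j)) := by simp
        have e2 : χ⁻¹ (u : ZMod (p ^ j)) = χ ((u⁻¹ : (ZMod (p ^ j))ˣ) : ZMod (p ^ j)) := by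
          rw [MulChar.inv_apply, Ring.inverse_unit]
        rw [e1, e2, map_mul]
        have e3 : (c : ZMod (p ^ j)) * ((u⁻¹ : (ZMod (p ^ j))ˣ) : ZMod (p ^ j)) *
            (((p ^ k : ℕ) : ZMod (p ^ j)) * (u : ZMod (p ^ j))) =
            (c : ZMod (p ^ j)) * ((p ^ k : ℕ) : ZMod (p ^ j)) := by
          have : ((u⁻¹ : (ZMod (p ^ j))ˣ) : ZMod (p ^ j)) * (u : ZMod (p ^ j)) = 1 := by simp
          linear_combination (c : ZMod (p ^ j)) * ((p ^ k : ℕ) : ZMod (p ^ j)) * this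
        rw [e3]
        ring
      · intro i hi hik
        rw [Finset.mem_range] at hi
        rcases lt_or_gt_of_ne hik with h | h
        · rw [hlow i h (by omega), mul_zero]
        · rw [if_neg, mul_zero]
          intro hd
          have : p ^ (k + 1) ∣ p ^ k * m' := (pow_dvd_pow p h).trans hd
          rw [pow_succ, Nat.mul_dvd_mul_iff_left (pow_pos hp.pos k)] at this
          exact hm' this
  have hLs : ∀ s : ℂ, 1 < s.re → ZMod.LFunction Ψ s =
      (∑ i ∈ range j, A i * ((p ^ i : ℕ) : ℂ) ^ (-s)) * DirichletCharacter.LFunction χ⁻¹ s := by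
    intro s hs
    rw [ZMod.LFunction_eq_LSeries Ψ hs, DirichletCharacter.LFunction_eq_LSeries _ hs]
    have h1 : LSeries (fun n : ℕ => Ψ n) s = LSeries (∑ i ∈ range j, A i • fun m : ℕ =>
        if p ^ i ∣ m then χ⁻¹ ((m / p ^ i : ℕ) : ZMod (p ^ j)) else 0) s := by
      refine LSeries_congr (fun {m} hm => ?_) s
      rw [hpt m hm, Finset.sum_apply]
      rfl
    rw [h1, LSeries_sum]
    · rw [Finset.sum_mul]
      refine Finset.sum_congr rfl fun i _ => ?_
      rw [LSeries_smul,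
        LSeries_shift (p ^ i) (pow_pos hp.pos i) (fun n => χ⁻¹ ((n : ℕ) : ZMod (p ^ j))) s]
      ring
    · intro i _
      refine LSeriesSummable.smul _ ?_
      refine LSeriesSummable_of_bounded_of_one_lt_re (m := 1) (fun n _ => ?_) hs
      split_ifs
      · exact DirichletCharacter.norm_le_one _ _
      · simp
  -- the sequence tending to 1
  have hseq : Filter.Tendsto (fun n : ℕ => (1 : ℂ) + 1 / ((n : ℂ) + 1)) Filter.atTop
      (nhdsWithin 1 {1}ᶜ) := by
    refine tendsto_nhdsWithin_iff.2 ⟨?_, Filter.Eventually.of_forall fun n => ?_⟩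
    · simpa using tendsto_one_div_add_atTop_nhds_zero_nat (𝕜 := ℂ) |>.const_add 1
    · simp only [Set.mem_compl_iff, Set.mem_singleton_iff, add_eq_left]
      exact one_div_ne_zero (Nat.cast_add_one_ne_zero n)
  have hre : ∀ n : ℕ, 1 < ((1 : ℂ) + 1 / ((n : ℂ) + 1)).re := by
    intro n
    have : (1 : ℂ) + 1 / ((n : ℂ) + 1) = ((1 + 1 / ((n : ℝ) + 1) : ℝ) : ℂ) := by push_cast; ring
    rw [this, Complex.ofReal_re]
    have : (0 : ℝ) < 1 / ((n : ℝ) + 1) := by positivity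
    linarith
  have hΨs : ∑ r, Ψ r = 0 := by
    simp only [hΨ]
    rw [Finset.sum_comm]
    refine Finset.sum_eq_zero fun c _ => ?_
    have h1 : ∑ r : ZMod (p ^ j), G ((c : ZMod (p ^ j)) * r) = ∑ r : ZMod (p ^ j), G r :=
      Equiv.sum_comp (Units.mulLeft c) G
    rw [← Finset.mul_sum, h1, hGs, mul_zero]
  have hc1 : Filter.Tendsto (ZMod.LFunction Ψ) (nhdsWithin 1 {1}ᶜ) (nhds (ZMod.LFunction Ψ 1)) :=
    ((ZMod.differentiableAt_LFunction Ψ 1 (Or.inr hΨs)).continuousAt.tendsto).mono_left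
      nhdsWithin_le_nhds
  set B : ℂ → ℂ := fun s => ∑ i ∈ range j, A i * ((p ^ i : ℕ) : ℂ) ^ (-s) with hB
  have hBc : Continuous B := by
    refine continuous_finsetSum _ fun i _ => continuous_const.mul ?_
    exact Continuous.const_cpow continuous_neg
      (Or.inl (by exact_mod_cast (pow_pos hp.pos i).ne'))
  have hBt : Filter.Tendsto B (nhdsWithin 1 {1}ᶜ) (nhds (B 1)) :=
    (hBc.tendsto 1).mono_left nhdsWithin_le_nhds
  have hB1 : B 1 = 0 := by
    by_cases hχ : χ = 1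
    · -- trivial character: pole
      have hpole := DirichletCharacter.LFunctionTrivChar_residue_one (N := p ^ j)
      have hinv : χ⁻¹ = 1 := by rw [hχ, inv_one]
      have t1 : Filter.Tendsto (fun n : ℕ => (((1 : ℂ) + 1 / ((n : ℂ) + 1)) - 1) *
          ZMod.LFunction Ψ ((1 : ℂ) + 1 / ((n : ℂ) + 1))) Filter.atTop (nhds (0 * ZMod.LFunction Ψ 1)) := by
        refine Filter.Tendsto.mul ?_ (hc1.comp hseq)
        simpa using tendsto_one_div_add_atTop_nhds_zero_nat (𝕜 := ℂ)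
      have t2 : Filter.Tendsto (fun n : ℕ => B ((1 : ℂ) + 1 / ((n : ℂ) + 1)) *
          ((((1 : ℂ) + 1 / ((n : ℂ) + 1)) - 1) *
            DirichletCharacter.LFunctionTrivChar (p ^ j) ((1 : ℂ) + 1 / ((n : ℂ) + 1))))
          Filter.atTop (nhds (B 1 * ∏ q ∈ (p ^ j).primeFactors, (1 - (q : ℂ)⁻¹))) :=
        (hBt.comp hseq).mul (hpole.comp hseq)
      have t3 : (fun n : ℕ => (((1 : ℂ) + 1 / ((n : ℂ) + 1)) - 1) *
          ZMod.LFunction Ψ ((1 : ℂ) + 1 / ((n : ℂ) + 1))) = (fun n : ℕ =>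
          B ((1 : ℂ) + 1 / ((n : ℂ) + 1)) * ((((1 : ℂ) + 1 / ((n : ℂ) + 1)) - 1) *
            DirichletCharacter.LFunctionTrivChar (p ^ j) ((1 : ℂ) + 1 / ((n : ℂ) + 1)))) := by
        funext n
        rw [hLs _ (hre n), hinv]
        simp only [hB, DirichletCharacter.LFunctionTrivChar]
        ring
      rw [t3] at t1
      have h0 := tendsto_nhds_unique t1 t2
      rw [zero_mul] at h0
      refine (mul_eq_zero.1 h0.symm).resolve_right ?_
      refine Finset.prod_ne_zero_iff.2 fun q hq => ?_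
      have hq1 : q.Prime := Nat.prime_of_mem_primeFactors hq
      intro h
      have h' : (q : ℂ)⁻¹ = 1 := (sub_eq_zero.1 h).symm
      have h'' : (q : ℂ) = 1 := by
        rw [← inv_inv (q : ℂ), h', inv_one]
      exact hq1.one_lt.ne' (by exact_mod_cast h'')
    · have hinv : χ⁻¹ ≠ 1 := fun h => hχ (inv_eq_one.1 h)
      have hs0 : ∑ c : (ZMod (p ^ j))ˣ, χ (c : ZMod (p ^ j)) = 0 := by
        obtain ⟨b, hb⟩ := (MulChar.ne_one_iff).1 hχ
        have h1 : χ (b : ZMod (p ^ j)) * ∑ c : (ZMod (p ^ j))ˣ, χ (c : ZMod (p ^ j)) =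
            ∑ c : (ZMod (p ^ j))ˣ, χ (c : ZMod (p ^ j)) := by
          rw [Finset.mul_sum, ← Equiv.sum_comp (Equiv.mulLeft b)
            (fun c : (ZMod (p ^ j))ˣ => χ (c : ZMod (p ^ j)))]
          refine Finset.sum_congr rfl fun c _ => ?_
          simp
        have h2 : (χ (b : ZMod (p ^ j)) - 1) * ∑ c : (ZMod (p ^ j))ˣ, χ (c : ZMod (p ^ j)) = 0 := by
          linear_combination h1
        exact (mul_eq_zero.1 h2).resolve_left (sub_ne_zero.2 hb)
      have hv : ZMod.LFunction Ψ 1 = 0 := by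
        simp only [hΨ]
        rw [LFunction_sum Finset.univ (fun c : (ZMod (p ^ j))ˣ => χ (c : ZMod (p ^ j)))
          (fun (c : (ZMod (p ^ j))ˣ) (r : ZMod (p ^ j)) => G ((c : ZMod (p ^ j)) * r)) 1]
        simp only [hK]
        rw [← Finset.sum_mul, hs0, zero_mul]
      have hd : Filter.Tendsto (DirichletCharacter.LFunction χ⁻¹) (nhdsWithin 1 {1}ᶜ)
          (nhds (DirichletCharacter.LFunction χ⁻¹ 1)) :=
        ((DirichletCharacter.differentiableAt_LFunction χ⁻¹ 1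
          (Or.inr hinv)).continuousAt.tendsto).mono_left nhdsWithin_le_nhds
      have t1 := hc1.comp hseq
      have t2 := (hBt.comp hseq).mul (hd.comp hseq)
      have t3 : (ZMod.LFunction Ψ ∘ fun n : ℕ => (1 : ℂ) + 1 / ((n : ℂ) + 1)) =
          fun n : ℕ => (B ∘ fun n : ℕ => (1 : ℂ) + 1 / ((n : ℂ) + 1)) n *
          (DirichletCharacter.LFunction χ⁻¹ ∘ fun n : ℕ => (1 : ℂ) + 1 / ((n : ℂ) + 1)) n := by
        funext n
        exact hLs _ (hre n)
      rw [t3] at t1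
      have h0 := tendsto_nhds_unique t1 t2
      rw [hv] at h0
      exact (mul_eq_zero.1 h0.symm).resolve_right
        (DirichletCharacter.LFunction_apply_one_ne_zero hinv)
  rw [← hB1]
  simp only [hB, hA, hΨ, Finset.mul_sum]
  rw [Finset.sum_comm]
  refine Finset.sum_congr rfl fun i _ => ?_
  rw [Finset.sum_mul]
  refine Finset.sum_congr rfl fun c _ => ?_
  rw [Complex.cpow_neg, Complex.cpow_one]
  push_cast
  ring

end T0

/-- Piece B4.  TRANSFER, `k = 0`.  For every even character `χ ≠ 1` mod `p^j`: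
`-2 ∑_c χ̄(c) ∑_n v_n log|ζ^{cn} - 1| = L(1, χ) ∑_c χ̄(c) Wz(ζ^c)` (both sides are the value at
`s = 1` of `∑_c χ̄(c) LFunction (r ↦ Pk v 0 (ζ^{c r})) s =
L(s, χ) ∑_c χ̄(c) ∑_{i<j} p^{-i s} Pk v 0 (ζ^{c p^i})`); the trivial character component of
`Wz` vanishes because all level sums vanish. -/
theorem transfer0 {p : ℕ} [Fact p.Prime] (hp2 : p ≠ 2) {j : ℕ} (hj : 0 < j)
    (v : ℕ →₀ ℤ) (hv : v 0 = 0) {ζ : ℂ} (hζ : IsPrimitiveRoot ζ (p ^ j))
    (hlev : ∀ i ≤ j, lev v (p ^ i) = 0) (C₀ : ℝ)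
    (h : ∀ c : ℕ, c.Coprime p →
      (v.sum fun n k => if p ^ j ∣ n then 0 else (k : ℝ) * Real.log ‖(ζ ^ c) ^ n - 1‖) = C₀) :
    Wz p j v 0 ζ = 0 := by
  have hp : p.Prime := Fact.out
  have hN0 : p ^ j ≠ 0 := (pow_pos hp.pos j).ne'
  obtain ⟨a, ha⟩ : ∃ a : (ZMod (p ^ j))ˣ, ZMod.stdAddChar (a : ZMod (p ^ j)) = ζ := by
    obtain ⟨i, _, hic, hi⟩ := (Complex.isPrimitiveRoot_iff ζ (p ^ j) hN0).1 hζ
    refine ⟨ZMod.unitOfCoprime i hic, ?_⟩
    rw [ZMod.coe_unitOfCoprime, ← hi]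
    have := ZMod.stdAddChar_coe (N := p ^ j) (i : ℤ)
    rw [Int.cast_natCast] at this
    rw [this]
    congr 1
    push_cast
    ring
  set e : AddChar (ZMod (p ^ j)) ℂ := ZMod.stdAddChar with he
  set G : ZMod (p ^ j) → ℂ := fun x => Pk v 0 (e x) with hG
  have hpow : ∀ (x : ZMod (p ^ j)) (n : ℕ), e x ^ n = e ((n : ZMod (p ^ j)) * x) := by
    intro x n
    rw [← AddChar.map_nsmul_eq_pow, nsmul_eq_mul]
  have hGe : ∀ x, G x = ∑ n ∈ v.support, (v n : ℂ) *
      (e ((n : ZMod (p ^ j)) * x) + e (-((n : ZMod (p ^ j)) * x))) := by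
    intro x
    simp only [hG, Pk, Finsupp.sum, pow_zero, mul_one, one_mul, hpow]
    refine Finset.sum_congr rfl fun n _ => ?_
    rw [AddChar.map_neg_eq_inv]
  have hlevC : ∀ i ≤ j, ∑ n ∈ v.support, (v n : ℂ) * (if p ^ i ∣ n then 1 else 0) = 0 := by
    intro i hi
    have h1 := hlev i hi
    simp only [lev, Finsupp.sum] at h1
    have h2 : ((∑ n ∈ v.support, (if p ^ i ∣ n then v n else 0) : ℤ) : ℂ) = 0 := by
      rw [h1]; simp
    refine Eq.trans ?_ h2
    push_cast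
    refine Finset.sum_congr rfl fun n _ => ?_
    split_ifs <;> simp
  have hG0 : G 0 = 0 := by
    rw [hGe]
    have h1 := hlevC 0 (Nat.zero_le j)
    simp only [pow_zero, one_dvd, if_true, mul_one] at h1
    simp only [mul_zero, neg_zero, AddChar.map_zero_eq_one]
    rw [← Finset.sum_mul, h1, zero_mul]
  have hGs : ∑ r, G r = 0 := by
    simp only [hGe]
    rw [Finset.sum_comm]
    have h1 := hlevC j le_rfl
    have h2 : ∀ n ∈ v.support, ∑ r : ZMod (p ^ j), (v n : ℂ) *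
        (e ((n : ZMod (p ^ j)) * r) + e (-((n : ZMod (p ^ j)) * r))) =
        ((v n : ℂ) * (if p ^ j ∣ n then 1 else 0)) * (2 * (p ^ j : ℕ)) := by
      intro n _
      have h3 : ∀ b : ZMod (p ^ j), ∑ r : ZMod (p ^ j), e (b * r) =
          if b = 0 then ((p ^ j : ℕ) : ℂ) else 0 := by
        intro b
        have := AddChar.sum_mulShift b (ZMod.isPrimitive_stdAddChar (p ^ j))
        rw [ZMod.card, Nat.cast_ite, Nat.cast_zero] at this
        rw [← this]
        exact Finset.sum_congr rfl fun r _ => by rw [mul_comm]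
      rw [← Finset.mul_sum, Finset.sum_add_distrib, h3]
      have h4 : ∑ r : ZMod (p ^ j), e (-((n : ZMod (p ^ j)) * r)) =
          if (n : ZMod (p ^ j)) = 0 then ((p ^ j : ℕ) : ℂ) else 0 := by
        have := h3 (-(n : ZMod (p ^ j)))
        simp only [neg_eq_zero] at this
        rw [← this]
        exact Finset.sum_congr rfl fun r _ => by rw [neg_mul]
      rw [h4]
      simp only [ZMod.natCast_eq_zero_iff]
      split_ifs
      · ring
      · ring
    rw [Finset.sum_congr rfl h2, ← Finset.sum_mul, h1, zero_mul]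
  have hK : ∀ c : (ZMod (p ^ j))ˣ,
      ZMod.LFunction (fun r : ZMod (p ^ j) => G ((c : ZMod (p ^ j)) * r)) 1 = -2 * (C₀ : ℂ) := by
    intro c
    have h1 : (fun r : ZMod (p ^ j) => G ((c : ZMod (p ^ j)) * r)) = fun r : ZMod (p ^ j) =>
        ∑ n ∈ v.support.filter (fun n => ¬ p ^ j ∣ n), (v n : ℂ) *
        (e (((n : ZMod (p ^ j)) * c) * r) + e (-(((n : ZMod (p ^ j)) * c) * r))) := by
      funext r
      rw [hGe, ← Finset.sum_filter_add_sum_filter_not v.support (fun n => ¬ p ^ j ∣ n)]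
      have h2 : ∑ n ∈ v.support.filter (fun n => ¬ ¬ p ^ j ∣ n), (v n : ℂ) *
          (e ((n : ZMod (p ^ j)) * ((c : ZMod (p ^ j)) * r)) +
            e (-((n : ZMod (p ^ j)) * ((c : ZMod (p ^ j)) * r)))) = 0 := by
        have h3 : ∀ n ∈ v.support.filter (fun n => ¬ ¬ p ^ j ∣ n), (v n : ℂ) *
          (e ((n : ZMod (p ^ j)) * ((c : ZMod (p ^ j)) * r)) +
            e (-((n : ZMod (p ^ j)) * ((c : ZMod (p ^ j)) * r)))) = (v n : ℂ) * 2 := by
          intro n hn
          rw [Finset.mem_filter, not_not] at hn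
          rw [(ZMod.natCast_eq_zero_iff n (p ^ j)).2 hn.2]
          simp only [zero_mul, neg_zero, AddChar.map_zero_eq_one]
          norm_num
        rw [Finset.sum_congr rfl h3, ← Finset.sum_mul]
        have h4 := hlevC j le_rfl
        simp only [mul_ite, mul_one, mul_zero] at h4
        rw [← Finset.sum_filter] at h4
        simp only [not_not]
        rw [h4, zero_mul]
      rw [h2, add_zero]
      exact Finset.sum_congr rfl fun n _ => by rw [mul_assoc]
    rw [h1, T0.LFunction_sum (v.support.filter (fun n => ¬ p ^ j ∣ n)) (fun n => (v n : ℂ))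
      (fun n (r : ZMod (p ^ j)) => e (((n : ZMod (p ^ j)) * c) * r) +
        e (-(((n : ZMod (p ^ j)) * c) * r))) 1]
    have h5 : ∀ n ∈ v.support.filter (fun n => ¬ p ^ j ∣ n), (v n : ℂ) *
        ZMod.LFunction (fun (r : ZMod (p ^ j)) => e (((n : ZMod (p ^ j)) * c) * r) +
        e (-(((n : ZMod (p ^ j)) * c) * r))) 1 = (v n : ℂ) *
          (-2 * (Real.log ‖e ((n : ZMod (p ^ j)) * c) - 1‖ : ℂ)) := by
      intro n hn
      rw [Finset.mem_filter] at hn
      rw [LFunction_cos_one]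
      intro h0
      rw [Units.mul_left_eq_zero, ZMod.natCast_eq_zero_iff] at h0
      exact hn.2 h0
    rw [Finset.sum_congr rfl h5]
    set c' : ℕ := ((a⁻¹ * c : (ZMod (p ^ j))ˣ) : ZMod (p ^ j)).val with hc'
    have hc'1 : ((c' : ℕ) : ZMod (p ^ j)) = ((a⁻¹ * c : (ZMod (p ^ j))ˣ) : ZMod (p ^ j)) := by
      rw [hc', ZMod.natCast_zmod_val]
    have hcop : c'.Coprime p := by
      have h6 : IsUnit ((c' : ℕ) : ZMod (p ^ j)) := by
        rw [hc'1]; exact Units.isUnit _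
      rw [ZMod.isUnit_iff_coprime] at h6
      exact Nat.Coprime.coprime_dvd_right (dvd_pow_self p hj.ne') h6
    have h7 := h c' hcop
    rw [← h7, Finsupp.sum]
    push_cast
    rw [Finset.mul_sum, Finset.sum_filter]
    refine Finset.sum_congr rfl fun n _ => ?_
    have h8 : (ζ ^ c') ^ n = e ((n : ZMod (p ^ j)) * c) := by
      rw [← ha, hpow, hpow, hc'1]
      congr 1
      rw [Units.val_mul]
      have : ((a⁻¹ : (ZMod (p ^ j))ˣ) : ZMod (p ^ j)) * (a : ZMod (p ^ j)) = 1 := by simp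
      linear_combination ((n : ZMod (p ^ j)) * c) * this
    rw [h8]
    by_cases h9 : p ^ j ∣ n
    · simp [h9]
    · simp only [h9, not_false_iff, if_true, if_false]
      push_cast
      ring
  have hf := T0.eq_zero_of_chars (N := p ^ j) (fun c : (ZMod (p ^ j))ˣ =>
    ∑ i ∈ range j, ((p : ℂ) ^ i)⁻¹ * G (c * ((p ^ i : ℕ) : ZMod (p ^ j))))
    (fun χ => T0.key G hG0 hGs (-2 * (C₀ : ℂ)) hK χ)
  have hfa := congrFun hf a
  simp only [Pi.zero_apply] at hfa
  rw [← hfa]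
  unfold Wz
  refine Finset.sum_congr rfl fun i _ => ?_
  simp only [hG]
  have h1 : ((p : ℂ) ^ i) ^ (((0 : ℕ) : ℤ) - 1) = ((p : ℂ) ^ i)⁻¹ := by simp
  rw [h1, ← ha, hpow, mul_comm (a : ZMod (p ^ j))]

end Pool.Agent.Lib_MP_e4b855_nt.Tri
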