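import Pool.Agent.Lib_MP_e4b855_nt.Tri.One
import Pool.Agent.Lib_MP_e4b855_nt.Tri.Flat
import Pool.Agent.Lib_MP_e4b855_nt.Tri.Norm
import Pool.Agent.Lib_MP_e4b855_nt.Tri.Transfer
import Pool.Agent.Lib_MP_e4b855_nt.Tri.Transfer0
import Pool.Agent.Lib_MP_e4b855_nt.Tri.First
import Pool.Agent.Lib_MP_e4b855_nt.Tri.Bern
import Pool.Agent.Lib_MP_e4b855_nt.Tri.Reduce

namespace Pool.Agent.Lib_MP_e4b855_nt.Tri

open Finset

namespace Trip

variable {m : ℕ} (T : Trip m)

theorem v_lev (i : ZMod 3) {N : ℕ} (hN : Odd N) : lev (T.v i) N = 0 := lev_tw _ hN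

/-- the `p`-adic bound for `∑ v_n n^m` -/
theorem first_dvd (i : ZMod 3) {p : ℕ} [Fact p.Prime] (hp2 : p ≠ 2)
    (hX : ∃ a ∈ T.S i ∪ T.S (i + 1), ¬ (p : ℤ) ∣ a) {L : ℕ}
    (hL : ∀ j, L < j → T.al i (p ^ j) = 0) :
    (p : ℤ) ^ (∑ j ∈ Icc 1 L, T.al i (p ^ j)) ∣ (T.v i).sum fun n c => c * (n : ℤ) ^ m := by
  have hp := (Fact.out : p.Prime)
  have hpodd : Odd p := hp.odd_of_ne_two hp2
  have hm := T.hm
  refine first_order hp2 (by omega) T.hev (T.v i) (T.v_zero i) (fun j => T.al i (p ^ j)) L hL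
    ?_ (fun k hk => T.mom_zero i hk) ?_
  · intro j hj
    have := T.al_lt i hp hp2 hj hX
    omega
  · intro j hj k hk ζ hζ
    have hj0 : 0 < j := hj
    have hkm : k < m := lt_trans hk (T.al_lt i hp hp2 hj0 hX)
    rcases Nat.eq_zero_or_pos k with rfl | hk0
    · obtain ⟨C₀, hC⟩ := T.flat_zero i hp hp2 (j := j) hk
      exact transfer0 hp2 hj0 (T.v i) (T.v_zero i) hζ
        (fun i' _ => T.v_lev i (hpodd.pow)) C₀
        (fun c hc => hC _ (hζ.pow_of_coprime c (hc.pow_right j)))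
    · have h := transfer hp2 hj0 hk0 (T.v i) hζ
        (fun c hc => T.flat_k i hp hp2 (hζ.pow_of_coprime c (hc.pow_right j)) hk0 hk)
      have h1 := T.mom_zero i hkm
      unfold Wk at h
      rw [h1] at h
      unfold Wz
      have e : ((k : ℤ) - 1) = ((k - 1 : ℕ) : ℤ) := by omega
      simpa [e] using h

/-- Part I -/
theorem partOne (h12 : 12 ≤ m) (h14 : m ≠ 14)
    (hprim : ∀ p : ℕ, p.Prime → p ≠ 2 → ∃ i, ∃ a ∈ T.S i, ¬ (p : ℤ) ∣ a) : False := by
  obtain ⟨p, hp, hp2, hval⟩ := bern_exists T.hev h12 h14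
  haveI : Fact p.Prime := ⟨hp⟩
  obtain ⟨i, a, ha, hpa⟩ := hprim p hp hp2
  obtain ⟨L, hL⟩ := T.exists_bound p hp.one_lt
  have hdvd := T.first_dvd i hp2 ⟨a, mem_union_left _ ha, hpa⟩ (L := L) (hL i)
  have hdel := T.del_val i p (hL i)
  have hmm := T.mom_m i
  have hm := T.hm
  set s : ℤ := (T.v i).sum fun n c => c * (n : ℤ) ^ m with hs
  have hs' : ((T.v i).sum fun n c => (c : ℚ) * (n : ℚ) ^ m) = (s : ℚ) := by
    rw [hs]; simp [Finsupp.sum]
  rw [hs'] at hmm
  have hB : bernoulli m ≠ 0 := bernoulli_ne_zero T.hev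
  have hd0 := T.del_ne_zero i
  have hrhs : (m * m.factorial * T.del i : ℚ) ≠ 0 := by
    refine mul_ne_zero (mul_ne_zero ?_ ?_) hd0
    · exact_mod_cast (by omega : m ≠ 0)
    · exact_mod_cast m.factorial_ne_zero
  have hs0 : (s : ℚ) ≠ 0 := by
    intro h0
    rw [h0, mul_zero] at hmm
    exact hrhs hmm.symm
  have h2 : (2 : ℚ) ^ m ≠ 0 := by positivity
  have e1 : padicValRat p (bernoulli m * 2 ^ m * (s : ℚ)) =
      padicValRat p (bernoulli m) + padicValRat p (s : ℚ) := by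
    rw [padicValRat.mul (mul_ne_zero hB h2) hs0, padicValRat.mul hB h2]
    have : padicValRat p ((2 : ℚ) ^ m) = 0 := by
      rw [padicValRat.pow (2 : ℚ)]
      suffices h : padicValRat p (2 : ℚ) = 0 by rw [h, mul_zero]
      have h3 : padicValRat p ((2 : ℕ) : ℚ) = padicValNat p 2 := padicValRat.of_nat
      have h4 : padicValNat p 2 = 0 := by
        apply padicValNat.eq_zero_of_not_dvd
        intro h5
        exact hp2 ((Nat.prime_dvd_prime_iff_eq hp Nat.prime_two).mp h5)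
      rw [h4] at h3
      simpa using h3
    rw [this]; ring
  have e2 : padicValRat p (m * m.factorial * T.del i : ℚ) =
      padicValNat p (m * m.factorial) + padicValRat p (T.del i) := by
    rw [padicValRat.mul (by
      refine mul_ne_zero ?_ ?_
      · exact_mod_cast (by omega : m ≠ 0)
      · exact_mod_cast m.factorial_ne_zero) hd0]
    congr 1
    have : ((m * m.factorial : ℕ) : ℚ) = (m : ℚ) * m.factorial := by push_cast; ring
    rw [← this, padicValRat.of_nat]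
  rw [hmm, e2, hdel] at e1
  have e3 : (∑ j ∈ Icc 1 L, (T.al i (p ^ j) : ℤ)) ≤ padicValRat p (s : ℚ) := by
    have hs1 : s ≠ 0 := by exact_mod_cast hs0
    rw [padicValRat.of_int]
    have := (padicValInt_dvd_iff (p := p) (∑ j ∈ Icc 1 L, T.al i (p ^ j)) s).mp hdvd
    rcases this with h | h
    · exact absurd h hs1
    · exact_mod_cast h
  omega

end Trip

end Pool.Agent.Lib_MP_e4b855_nt.Tri
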