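import Pool.Agent.Lib_MP_e4b855_nt.Tri.PartTwo

/-! Part II: main theorem (helper56) -/

namespace Pool.Agent.Lib_MP_e4b855_nt.Tri

open PowerSeries Finset

namespace Trip

variable {m : ℕ} (T : Trip m)

/-- the polynomial `W^*` of a letter -/
noncomputable def WPl (p N K : ℕ) (H : ZMod 3 → Polynomial ℚ) (l : ZMod 3) : Polynomial ℚ :=
  WP p N K m (T.v l) (H l)

theorem gn_WPl {p : ℕ} [Fact p.Prime] (hp2 : p ≠ 2) (hc : 2 ^ (m - 1) < 2 * p) {N : ℕ}
    (hN : ∀ l, ∀ n ∈ (T.v l).support, n ≤ N) {J L K : ℕ} (hJL : J ≤ L) (l : ZMod 3)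
    (h1 : ∀ j ∈ Icc 1 J, 1 ≤ T.al l (p ^ j)) (H : ZMod 3 → Polynomial ℚ)
    (hH : ∀ n, padicNorm p ((H l).coeff n) ≤ 1) (hJK : J ≤ K)
    (hK : K + ∑ j ∈ Ioc J L, T.al l (p ^ j) ≤ m * (K - J)) :
    gn p J (T.WPl p N K H l) ≤ ((p : ℝ) ^ (∑ j ∈ Ioc J L, T.al l (p ^ j)))⁻¹ := by
  have hp := (Fact.out : p.Prime)
  have hp1 : (1 : ℝ) < p := by exact_mod_cast hp.one_lt
  have hp0 : (0 : ℝ) < p := by linarith
  have hm := T.hm
  set E := ∑ j ∈ Ioc J L, T.al l (p ^ j) with hE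
  have hB : (0 : ℝ) ≤ ((p : ℝ) ^ E)⁻¹ := by positivity
  have h2 : ∀ r : ℕ, padicNorm p ((p : ℚ) ^ r) = ((p : ℚ) ^ r)⁻¹ := by
    intro r
    induction r with
    | zero => simp
    | succ r ih => rw [pow_succ, padicNorm.mul, ih, padicNorm.padicNorm_p hp.one_lt, mul_inv]
  have hnorm : ∀ r : ℕ, ((padicNorm p (((p : ℚ) ^ r)⁻¹) : ℚ) : ℝ) = (p : ℝ) ^ r := by
    intro r
    have : padicNorm p (((p : ℚ) ^ r)⁻¹) = (p : ℚ) ^ r := by
      have h1 : padicNorm p (((p : ℚ) ^ r)⁻¹) = (padicNorm p ((p : ℚ) ^ r))⁻¹ := by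
        have := padicNorm.div (p := p) 1 ((p : ℚ) ^ r)
        simpa using this
      rw [h1]
      rw [h2 r, inv_inv]
    rw [this]; push_cast; rfl
  unfold WPl WP
  apply gn_add_le
  · apply gn_sum_le _ _ _ hB
    intro r _
    rw [gn_mul, gn_mul, gn_C, gn_X_pow _ hp2, one_mul, hnorm]
    have h2 := gn_expand hp2 (m := m) (by omega) hJL (fun j => T.al l (p ^ j)) h1 _
      (T.PP_dvd hp2 hc hN l L) r
    calc (p : ℝ) ^ r * gn p J (Polynomial.expand ℚ (p ^ r) ((PP N (T.v l)).map (Int.castRingHom ℚ)))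
        ≤ (p : ℝ) ^ r * ((p : ℝ) ^ (r + E))⁻¹ := by
          apply mul_le_mul_of_nonneg_left h2 (by positivity)
      _ = ((p : ℝ) ^ E)⁻¹ := by rw [pow_add]; field_simp
  · rw [gn_mul, gn_C, hnorm]
    have e : Polynomial.X ^ N * ((Polynomial.X - 1) ^ m * H l) =
        (Polynomial.X - 1) ^ m * (Polynomial.X ^ N * H l) := by ring
    rw [e]
    have h2 := gn_expand_H hp2 (m := m) hJK (Polynomial.X ^ N * H l) (by
      intro n
      rw [Polynomial.coeff_X_pow_mul']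
      split_ifs
      · exact hH _
      · simp)
    calc (p : ℝ) ^ K * gn p J (Polynomial.expand ℚ (p ^ K)
          ((Polynomial.X - 1) ^ m * (Polynomial.X ^ N * H l)))
        ≤ (p : ℝ) ^ K * ((p : ℝ) ^ (m * (K - J)))⁻¹ := by
          apply mul_le_mul_of_nonneg_left h2 (by positivity)
      _ ≤ (p : ℝ) ^ K * ((p : ℝ) ^ (K + E))⁻¹ := by
          apply mul_le_mul_of_nonneg_left _ (by positivity)
          apply inv_anti₀ (by positivity)
          exact pow_le_pow_right₀ hp1.le hK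
      _ = ((p : ℝ) ^ E)⁻¹ := by rw [pow_add]; field_simp

theorem gn_DPz {p : ℕ} [Fact p.Prime] (hp2 : p ≠ 2) {N : ℕ}
    (hN : ∀ l, ∀ a ∈ T.S l, 0 ≤ a + N) {J L : ℕ} (hJL : J ≤ L) (l : ZMod 3)
    (h1 : ∀ j ∈ Icc 1 J, 1 ≤ T.al l (p ^ j)) :
    gn p J ((T.DPz N l).map (Int.castRingHom ℚ)) ≤
      ((p : ℝ) ^ (∑ j ∈ Ioc J L, T.al l (p ^ j)))⁻¹ := by
  have hm := T.hm
  have h2 := gn_expand hp2 (m := m) (by omega) hJL (fun j => T.al l (p ^ j)) h1 _
      (T.DPz_dvd hN l L) 0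
  rw [pow_zero, Polynomial.expand_one, zero_add] at h2
  exact h2

/-- coefficients of the jets of `W^*` -/
theorem coeff_WS' {p : ℕ} [Fact p.Prime] {K j k : ℕ} (H : ZMod 3 → Polynomial ℚ) (l : ZMod 3)
    (hH : ∀ k ≤ 2 * m, (((Polynomial.X - 1) ^ m * H l).sum fun n c => c * (n : ℚ) ^ k) =
      T.hw p l k) {ζ : ℂ} (hζ : ζ ^ p ^ j = 1) (hjK : j ≤ K) (hk : 0 < k) (hk2 : k ≤ 2 * m) :
    coeff k (WS p K m (T.v l) (H l) ζ) = Wk p j (T.v l) k ζ / k.factorial := by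
  have hm := T.hm
  refine coeff_WS (Fact.out : p.Prime).one_lt (T.v l) (H l) hζ hjK hk ?_ ?_
  · rw [hH k hk2, T.hw_eq]
  · rintro rfl
    exact T.mom_zero l (by omega)

theorem jets_common (i : ZMod 3) {p : ℕ} [Fact p.Prime] (hp2 : p ≠ 2)
    (hc : 2 ^ (m - 1) < 2 * p) {K j μ : ℕ} (H : ZMod 3 → Polynomial ℚ)
    (hH : ∀ l, ∀ k ≤ 2 * m, (((Polynomial.X - 1) ^ m * H l).sum fun n c => c * (n : ℚ) ^ k) =
      T.hw p l k) (hj0 : 0 < j) (hjK : j ≤ K) (hμ0 : 0 < μ) (hμ : ∀ l, T.al l (p ^ j) = μ)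
    {a b : ℤ} (hb : b ≠ 0)
    (hab : ∀ ζ : ℂ, IsPrimitiveRoot ζ (p ^ j) →
      (b : ℂ) * coeff μ (T.D i ζ 1) = a * coeff μ (T.D (i + 2) ζ 1)) {ζ : ℂ}
    (hζ : IsPrimitiveRoot ζ (p ^ j)) :
    X ^ (3 * μ) ∣ T.D i ζ 1 * WS p K m (T.v (i + 2)) (H (i + 2)) ζ -
      T.D (i + 2) ζ 1 * WS p K m (T.v i) (H i) ζ := by
  have hp := (Fact.out : p.Prime)
  have hm := T.hm
  have hpj : 0 < p ^ j := pow_pos hp.pos j
  have hodd : Odd (p ^ j) := (hp.odd_of_ne_two hp2).pow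
  have hμm : μ ≤ m := by rw [← hμ 0]; exact T.al_le_m 0 hp hp2 hc j
  have hb' : (b : ℂ) ≠ 0 := by exact_mod_cast hb
  have hζ1 : ζ ^ p ^ j = 1 := hζ.pow_eq_one
  have hW0 : ∀ l, ∀ k < μ, coeff k (WS p K m (T.v l) (H l) ζ) = 0 := by
    intro l k hk
    have hkm : k < m := by omega
    have hz := T.Wz_van l hp2 hj0 (k := k) (by rw [hμ]; exact hk) hkm hζ
    rcases Nat.eq_zero_or_pos k with rfl | hk0
    · rw [coeff_WS_zero hp.one_lt (by omega) (T.v l) (H l) hζ1 hjK (T.mom_zero l (by omega)), hz]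
    · rw [T.coeff_WS' H l (hH l) hζ1 hjK hk0 (by omega)]
      have h1 := T.mom_zero l hkm
      have : Wk p j (T.v l) k ζ = 0 := by
        unfold Wk
        rw [h1]
        unfold Wz at hz
        have e : ((k : ℤ) - 1) = ((k - 1 : ℕ) : ℤ) := by omega
        rw [e] at hz
        simpa using hz
      rw [this, zero_div]
  refine three_mul_dvd hb' (T.ratio_flat i hodd hμ hab hζ) ?_ ?_ ?_
  · rw [X_pow_dvd_iff]
    intro k hk
    rw [map_sub, coeff_C_mul, coeff_C_mul]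
    rcases Nat.eq_zero_or_pos k with rfl | hk0
    · rw [hW0 i 0 hμ0, hW0 (i + 2) 0 hμ0]; simp
    · rw [T.coeff_WS' H i (hH i) hζ1 hjK hk0 (by omega),
        T.coeff_WS' H (i + 2) (hH (i + 2)) hζ1 hjK hk0 (by omega)]
      have := T.Wk_ratio i hp2 hj0 hμ0 hμ hab hk0 hk hζ
      rw [← mul_div_assoc, ← mul_div_assoc, this, sub_self]
  · have := T.X_pow_dvd_D (i + 2) hpj hζ
    rwa [hμ] at this
  · rw [X_pow_dvd_iff]
    exact fun k hk => hW0 (i + 2) k hk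

/-- the situation at `1` -/
theorem jets_one (i : ZMod 3) {p : ℕ} [Fact p.Prime] {K : ℕ} (H : ZMod 3 → Polynomial ℚ)
    (hH : ∀ l, ∀ k ≤ 2 * m, (((Polynomial.X - 1) ^ m * H l).sum fun n c => c * (n : ℚ) ^ k) =
      T.hw p l k) :
    X ^ (3 * m) ∣ T.D i 1 1 * WS p K m (T.v (i + 2)) (H (i + 2)) 1 -
      T.D (i + 2) 1 1 * WS p K m (T.v i) (H i) 1 ∧
    coeff (3 * m) (T.D i 1 1 * WS p K m (T.v (i + 2)) (H (i + 2)) 1 -
      T.D (i + 2) 1 1 * WS p K m (T.v i) (H i) 1) =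
    ((T.del i * T.del (i + 1) * T.del (i + 2) * (2 * m / (4 ^ m * (2 ^ m - 1))) *
      (1 / (bernoulli m * (1 - (p : ℚ) ^ (m - 1))) -
        (2 ^ m + 1) / (bernoulli (2 * m) * (1 - (p : ℚ) ^ (2 * m - 1)))) : ℚ) : ℂ) := by
  have hp := (Fact.out : p.Prime)
  have hm := T.hm
  have hev := T.hev
  have hev2 : Even (2 * m) := even_two_mul m
  have hζ1 : (1 : ℂ) ^ p ^ 0 = 1 := one_pow _
  have hd0 : ∀ l, ((T.del l : ℚ) : ℂ) ≠ 0 := fun l => by exact_mod_cast T.del_ne_zero l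
  have hμ : ∀ l, T.al l 1 = m := fun l => T.al_one l
  have hone : IsPrimitiveRoot (1 : ℂ) 1 := IsPrimitiveRoot.one
  have hab : ∀ ζ : ℂ, IsPrimitiveRoot ζ 1 → ((T.del (i + 2) : ℚ) : ℂ) * coeff m (T.D i ζ 1) =
      ((T.del i : ℚ) : ℂ) * coeff m (T.D (i + 2) ζ 1) := by
    intro ζ hζ
    rw [IsPrimitiveRoot.one_right_iff] at hζ
    subst hζ
    rw [T.coeff_D_one i one_ne_zero, T.coeff_D_one (i + 2) one_ne_zero]
    ring
  have hWcoef : ∀ l, ∀ k, 0 < k → k ≤ 2 * m → coeff k (WS p K m (T.v l) (H l) 1) =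
      Pk (T.v l) k 1 / (1 - (p : ℂ) ^ (k - 1)) / k.factorial := by
    intro l k hk0 hk
    rw [T.coeff_WS' H l (hH l) hζ1 (Nat.zero_le K) hk0 hk]
    unfold Wk
    simp
  have hWc0 : ∀ l, coeff 0 (WS p K m (T.v l) (H l) 1) = 0 := by
    intro l
    rw [coeff_WS_zero hp.one_lt (by omega) (T.v l) (H l) hζ1 (Nat.zero_le K)
      (T.mom_zero l (by omega))]
    simp [Wz]
  have h1 := T.ratio_flat i odd_one hμ hab hone
  have h2 : X ^ (2 * m) ∣ C ((T.del (i + 2) : ℚ) : ℂ) * WS p K m (T.v i) (H i) 1 -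
      C ((T.del i : ℚ) : ℂ) * WS p K m (T.v (i + 2)) (H (i + 2)) 1 := by
    rw [X_pow_dvd_iff]
    intro k hk
    rw [map_sub, coeff_C_mul, coeff_C_mul]
    rcases Nat.eq_zero_or_pos k with rfl | hk0
    · rw [hWc0, hWc0]; simp
    · rw [hWcoef i k hk0 hk.le, hWcoef (i + 2) k hk0 hk.le]
      have := T.mom_mid i hk
      rw [← mul_div_assoc, ← mul_div_assoc, ← mul_div_assoc, ← mul_div_assoc, this, sub_self]
  have h3 : X ^ m ∣ T.D (i + 2) 1 1 := by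
    have := T.X_pow_dvd_D (i + 2) one_pos hone
    rwa [hμ] at this
  have h4 : X ^ m ∣ WS p K m (T.v (i + 2)) (H (i + 2)) 1 := by
    rw [X_pow_dvd_iff]
    intro k hk
    rcases Nat.eq_zero_or_pos k with rfl | hk0
    · exact hWc0 _
    · rw [hWcoef (i + 2) k hk0 (by omega), T.mom_zero (i + 2) hk]; simp
  refine ⟨three_mul_dvd (hd0 (i + 2)) h1 h2 h3 h4, ?_⟩
  have h5 := coeff_three h1 h2 h3 h4
  have e7 : coeff (2 * m) (C ((T.del (i + 2) : ℚ) : ℂ) * WS p K m (T.v i) (H i) 1 -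
      C ((T.del i : ℚ) : ℂ) * WS p K m (T.v (i + 2)) (H (i + 2)) 1) =
      ((T.del (i + 2) : ℚ) : ℂ) * coeff (2 * m) (WS p K m (T.v i) (H i) 1) -
      ((T.del i : ℚ) : ℂ) * coeff (2 * m) (WS p K m (T.v (i + 2)) (H (i + 2)) 1) := by
    rw [map_sub, coeff_C_mul, coeff_C_mul]
  rw [T.D_ratio_one i, T.coeff_D_one (i + 2) one_ne_zero, one_pow, mul_one, e7,
    hWcoef _ m (by omega) (by omega), hWcoef i (2 * m) (by omega) le_rfl,
    hWcoef (i + 2) (2 * m) (by omega) le_rfl, Pk_one, Pk_one, Pk_one, hev.neg_one_pow,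
    hev2.neg_one_pow] at h5
  have hmm := T.mom_m (i + 2)
  have h2m := T.mom_2m i
  set A : ℚ := (T.v (i + 2)).sum fun n c => (c : ℚ) * (n : ℚ) ^ m with hA
  set B : ℚ := (T.v i).sum fun n c => (c : ℚ) * (n : ℚ) ^ (2 * m) with hB
  set B' : ℚ := (T.v (i + 2)).sum fun n c => (c : ℚ) * (n : ℚ) ^ (2 * m) with hB'
  have hbm : bernoulli m ≠ 0 := bernoulli_ne_zero hev
  have hb2m : bernoulli (2 * m) ≠ 0 := bernoulli_ne_zero hev2
  have h2pow : (2 : ℚ) ^ m - 1 ≠ 0 := by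
    have : (1 : ℚ) < 2 ^ m := one_lt_pow₀ (by norm_num) (by omega)
    linarith
  have hq : ∀ k : ℕ, 2 ≤ k → (1 - (p : ℚ) ^ (k - 1)) ≠ 0 := by
    intro k hk
    have : (1 : ℚ) < (p : ℚ) ^ (k - 1) := one_lt_pow₀ (by exact_mod_cast hp.one_lt) (by omega)
    linarith
  have hq1 := hq m (by omega)
  have hq2 := hq (2 * m) (by omega)
  have hfm : (m.factorial : ℚ) ≠ 0 := by exact_mod_cast m.factorial_ne_zero
  have hf2m : ((2 * m).factorial : ℚ) ≠ 0 := by exact_mod_cast (2 * m).factorial_ne_zero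
  have hAeq : A = m * m.factorial * T.del (i + 2) / (bernoulli m * 2 ^ m) := by
    rw [eq_div_iff (by positivity : bernoulli m * 2 ^ m ≠ 0)]
    linarith
  have hBeq : T.del (i + 2) * B - T.del i * B' = (2 * m).factorial * m * (2 ^ m + 1) /
      (4 ^ m * (2 ^ m - 1)) * (T.del i * T.del (i + 1) * T.del (i + 2)) / bernoulli (2 * m) := by
    rw [eq_div_iff hb2m]
    linarith
  have h6 : ((T.del (i + 2) : ℚ) : ℂ) * coeff (3 * m) (T.D i 1 1 *
      WS p K m (T.v (i + 2)) (H (i + 2)) 1 - T.D (i + 2) 1 1 * WS p K m (T.v i) (H i) 1) =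
      ((T.del i * T.del (i + 1) * T.del (i + 2) / (2 ^ m * (2 ^ m - 1)) *
        ((1 + 1) * A / (1 - (p : ℚ) ^ (m - 1)) / m.factorial) - T.del (i + 2) *
        ((1 + 1) * (T.del (i + 2) * B - T.del i * B') / (1 - (p : ℚ) ^ (2 * m - 1)) /
          (2 * m).factorial) : ℚ) : ℂ) := by
    rw [h5]; push_cast; ring
  rw [hBeq, hAeq] at h6
  apply mul_left_cancel₀ (hd0 (i + 2))
  rw [h6, ← Rat.cast_mul]
  congr 1
  have h4m : (4 : ℚ) ^ m = 2 ^ m * 2 ^ m := by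
    rw [← mul_pow]; norm_num
  rw [h4m]
  field_simp
  ring

/-- Part II: if at every common level the ratios of the leading coefficients are rational, there
is a contradiction. -/
theorem partTwo {p : ℕ} (hg : Good m p)
    (hR : ∀ j μ : ℕ, 0 < j → 0 < μ → (∀ l, T.al l (p ^ j) = μ) → ∀ i : ZMod 3,
      ∃ a b : ℤ, a ≠ 0 ∧ b ≠ 0 ∧ ∀ ζ : ℂ, IsPrimitiveRoot ζ (p ^ j) →
        (b : ℂ) * coeff μ (T.D i ζ 1) = a * coeff μ (T.D (i + 2) ζ 1)) : False := by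
  have hp := hg.prime
  haveI : Fact p.Prime := ⟨hp⟩
  have hp2 := hg.ne_two
  have hc := hg.card
  have hlarge := hg.large
  have hm := T.hm
  have hev := T.hev
  obtain ⟨J, i, hJ1, hJ2⟩ := T.levels hp hp2 hc
  obtain ⟨L₀, hL₀⟩ := T.exists_bound p hp.one_lt
  set L := max L₀ J with hLdef
  have hJL : J ≤ L := le_max_right _ _
  have hL : ∀ l, ∀ j, L < j → T.al l (p ^ j) = 0 := fun l j hj =>
    hL₀ l j (lt_of_le_of_lt (le_max_left _ _) hj)
  obtain ⟨N, hN1, hN2⟩ := T.exists_shift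
  set E := ∑ j ∈ Ioc J L, T.al i (p ^ j) with hE
  set K := 2 * J + E + 1 with hKdef
  have hJK : J ≤ K := by omega
  have hi2 : i + 2 ≠ i := by
    intro h
    have : (2 : ZMod 3) = 0 := by
      have := congrArg (fun x => x - i) h
      simpa using this
    exact absurd this (by decide)
  have hE2 : ∑ j ∈ Ioc J L, T.al (i + 2) (p ^ j) = 0 := by
    apply Finset.sum_eq_zero
    intro j hj
    exact hJ2 j (Finset.mem_Ioc.mp hj).1 (i + 2) hi2
  -- the polynomials `H`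
  have hHex : ∀ l, ∃ H : Polynomial ℚ, (∀ n, padicNorm p (H.coeff n) ≤ 1) ∧
      ∀ k ≤ 2 * m, (((Polynomial.X - 1) ^ m * H).sum fun n c => c * (n : ℚ) ^ k) = T.hw p l k := by
    intro l
    apply exists_H (m := m) (M := 2 * m) (by omega) (T.hw p l) (fun k _ => T.hw_norm l k)
    intro k hk
    unfold hw
    rw [if_pos hk]
  choose H hH1 hH2 using hHex
  have h1i : ∀ j ∈ Icc 1 J, 1 ≤ T.al i (p ^ j) := by
    intro j hj
    exact (hJ1 j (Finset.mem_Icc.mp hj).1 (Finset.mem_Icc.mp hj).2).1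
  have h1i2 : ∀ j ∈ Icc 1 J, 1 ≤ T.al (i + 2) (p ^ j) := by
    intro j hj
    rw [(hJ1 j (Finset.mem_Icc.mp hj).1 (Finset.mem_Icc.mp hj).2).2 (i + 2)]
    exact h1i j hj
  have hmK : K + E ≤ m * (K - J) := by
    have h6 : 6 * (K - J) ≤ m * (K - J) := Nat.mul_le_mul_right _ hm
    omega
  set Di : Polynomial ℚ := (T.DPz N i).map (Int.castRingHom ℚ) with hDi
  set Di2 : Polynomial ℚ := (T.DPz N (i + 2)).map (Int.castRingHom ℚ) with hDi2
  set Wi : Polynomial ℚ := T.WPl p N K H i with hWi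
  set Wi2 : Polynomial ℚ := T.WPl p N K H (i + 2) with hWi2
  set F : Polynomial ℚ := Di * Wi2 - Di2 * Wi with hF
  have hp1 : (1 : ℝ) < p := by exact_mod_cast hp.one_lt
  have hp0 : (0 : ℝ) < p := by linarith
  -- Gauss norm
  have gDi : gn p J Di ≤ ((p : ℝ) ^ E)⁻¹ := T.gn_DPz hp2 hN1 hJL i h1i
  have gDi2 : gn p J Di2 ≤ 1 := by
    have := T.gn_DPz hp2 hN1 hJL (i + 2) h1i2
    rw [hE2, pow_zero, inv_one] at this
    exact this
  have gWi : gn p J Wi ≤ ((p : ℝ) ^ E)⁻¹ := T.gn_WPl hp2 hc hN2 hJL i h1i H (hH1 i) hJK hmK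
  have gWi2 : gn p J Wi2 ≤ 1 := by
    have := T.gn_WPl hp2 hc hN2 hJL (i + 2) h1i2 H (hH1 (i + 2)) hJK (by rw [hE2]; omega)
    rw [hE2, pow_zero, inv_one] at this
    exact this
  have gF : gn p J F ≤ ((p : ℝ) ^ E)⁻¹ := by
    have hB : (0 : ℝ) ≤ ((p : ℝ) ^ E)⁻¹ := by positivity
    rw [hF, sub_eq_add_neg]
    apply gn_add_le
    · rw [gn_mul]
      calc gn p J Di * gn p J Wi2 ≤ ((p : ℝ) ^ E)⁻¹ * 1 :=
            mul_le_mul gDi gWi2 (gn_nonneg _ _) hB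
        _ = _ := mul_one _
    · rw [gn_neg, gn_mul]
      calc gn p J Di2 * gn p J Wi ≤ 1 * ((p : ℝ) ^ E)⁻¹ :=
            mul_le_mul gDi2 gWi (gn_nonneg _ _) zero_le_one
        _ = _ := one_mul _
  -- jets
  have jF : ∀ j ≤ K, ∀ ζ : ℂ, IsPrimitiveRoot ζ (p ^ j) → jt ζ F =
      C (ζ ^ N) * ee N * (C (ζ ^ (N * p ^ K)) * ee ((N * p ^ K : ℕ) : ℂ)) *
        (T.D i ζ 1 * WS p K m (T.v (i + 2)) (H (i + 2)) ζ -
          T.D (i + 2) ζ 1 * WS p K m (T.v i) (H i) ζ) := by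
    intro j hj ζ hζ
    have hpj : p ^ j ≠ 0 := (pow_pos hp.pos j).ne'
    have hζ0 : ζ ≠ 0 := hζ.ne_zero hpj
    have hζK : ζ ^ p ^ K = 1 := by
      obtain ⟨d, hd⟩ : p ^ j ∣ p ^ K := pow_dvd_pow _ hj
      rw [hd, pow_mul, hζ.pow_eq_one, one_pow]
    rw [hF, map_sub, map_mul, map_mul, hDi, hDi2, T.jt_DPz hN1 i hζ0, T.jt_DPz hN1 (i + 2) hζ0,
      hWi, hWi2]
    unfold WPl
    rw [jt_WP hp.pos (hN2 i) (H i) hζ0 hζK, jt_WP hp.pos (hN2 (i + 2)) (H (i + 2)) hζ0 hζK]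
    ring
  have hone : IsPrimitiveRoot (1 : ℂ) (p ^ 0) := by rw [pow_zero]; exact IsPrimitiveRoot.one
  obtain ⟨o1, o2⟩ := T.jets_one i (p := p) (K := K) H hH2
  have hF0 : X ^ (3 * m) ∣ jt 1 F := by
    rw [jF 0 (Nat.zero_le _) 1 hone]
    exact Dvd.dvd.mul_left o1 _
  have hFj : ∀ j ∈ Icc 1 J, ∃ ζ : ℂ, IsPrimitiveRoot ζ (p ^ j) ∧
      X ^ (3 * T.al i (p ^ j)) ∣ jt ζ F := by
    intro j hj
    obtain ⟨hj1, hj2⟩ := Finset.mem_Icc.mp hj
    have hpj : p ^ j ≠ 0 := (pow_pos hp.pos j).ne'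
    have hζ := Complex.isPrimitiveRoot_exp (p ^ j) hpj
    refine ⟨_, hζ, ?_⟩
    rw [jF j (by omega) _ hζ]
    refine Dvd.dvd.mul_left ?_ _
    obtain ⟨hμ0, hμ⟩ := hJ1 j hj1 hj2
    obtain ⟨a, b, ha, hb, hab⟩ := hR j (T.al i (p ^ j)) hj1 hμ0 hμ i
    exact T.jets_common i hp2 hc H hH2 hj1 (by omega) hμ0 hμ hb hab hζ
  have hdiv := prod_dvd (p := p) F (3 * m) J (fun j => 3 * T.al i (p ^ j)) hF0 hFj
  -- the degree condition
  have hZ : 3 * m + ∑ j ∈ Icc 1 J, 3 * T.al i (p ^ j) * (p ^ j - p ^ (j - 1)) <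
      p ^ (J + 1) - p ^ J - 1 := by
    have h1 : ∑ j ∈ Icc 1 J, 3 * T.al i (p ^ j) * (p ^ j - p ^ (j - 1)) ≤
        3 * m * (p ^ J - 1) := by
      calc ∑ j ∈ Icc 1 J, 3 * T.al i (p ^ j) * (p ^ j - p ^ (j - 1))
          ≤ ∑ j ∈ Icc 1 J, 3 * m * (p ^ j - p ^ (j - 1)) := by
            apply Finset.sum_le_sum
            intro j _
            apply Nat.mul_le_mul_right
            apply Nat.mul_le_mul_left
            exact T.al_le_m i hp hp2 hc j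
        _ = 3 * m * (p ^ J - 1) := by
            rw [← Finset.mul_sum]
            congr 1
            have : ∀ J : ℕ, ∑ j ∈ Icc 1 J, (p ^ j - p ^ (j - 1)) = p ^ J - 1 := by
              intro J
              induction J with
              | zero => simp
              | succ J ih =>
                rw [Finset.sum_Icc_succ_top (by omega), ih, Nat.add_sub_cancel]
                have h2 : p ^ J ≤ p ^ (J + 1) := Nat.pow_le_pow_right hp.pos (by omega)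
                have h3 : 1 ≤ p ^ J := Nat.one_le_pow _ _ hp.pos
                omega
            exact this J
    have h3 : 1 ≤ p ^ J := Nat.one_le_pow _ _ hp.pos
    have h4 : 3 * m * (p ^ J - 1) + 3 * m = 3 * m * p ^ J := by
      obtain ⟨q, hq⟩ : ∃ q, p ^ J = q + 1 := ⟨p ^ J - 1, by omega⟩
      rw [hq]; simp; ring
    have h5 : (3 * m + 3) * p ^ J ≤ p * p ^ J := Nat.mul_le_mul_right _ (by omega)
    have h6 : p ^ (J + 1) = p * p ^ J := by rw [pow_succ, mul_comm]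
    have h7 : (3 * m + 3) * p ^ J = 3 * m * p ^ J + 3 * p ^ J := by ring
    rw [h6]
    omega
  have hbound := gauss_bound (p := p) J hp2 (3 * m) (fun j => 3 * T.al i (p ^ j)) E F hdiv hZ gF
  -- the coefficient
  have htay := taylor_coeff F (3 * m) hF0
  set f3 : ℚ := T.del i * T.del (i + 1) * T.del (i + 2) * (2 * m / (4 ^ m * (2 ^ m - 1))) *
      (1 / (bernoulli m * (1 - (p : ℚ) ^ (m - 1))) -
        (2 ^ m + 1) / (bernoulli (2 * m) * (1 - (p : ℚ) ^ (2 * m - 1)))) with hf3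
  have hco : coeff (3 * m) (jt 1 F) = ((f3 : ℚ) : ℂ) := by
    rw [jF 0 (Nat.zero_le _) 1 hone]
    obtain ⟨R, hR⟩ := o1
    rw [hR] at o2 ⊢
    have e : C ((1 : ℂ) ^ N) * ee N * (C ((1 : ℂ) ^ (N * p ^ K)) * ee ((N * p ^ K : ℕ) : ℂ)) *
        (X ^ (3 * m) * R) = X ^ (3 * m) * (ee N * ee ((N * p ^ K : ℕ) : ℂ) * R) := by
      rw [one_pow, one_pow, map_one]; ring
    rw [e]
    have h1 := coeff_X_pow_mul (ee (N : ℂ) * ee ((N * p ^ K : ℕ) : ℂ) * R) (3 * m) 0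
    have h2 := coeff_X_pow_mul R (3 * m) 0
    rw [zero_add] at h1 h2
    rw [h1]
    rw [h2] at o2
    have h3 : coeff 0 (ee (N : ℂ) * ee ((N * p ^ K : ℕ) : ℂ) * R) = coeff 0 R := by
      rw [coeff_zero_eq_constantCoeff_apply, coeff_zero_eq_constantCoeff_apply, map_mul, map_mul]
      have h4 : ∀ a : ℂ, constantCoeff (ee a) = 1 := by
        intro a
        rw [← coeff_zero_eq_constantCoeff_apply, coeff_ee]; simp
      rw [h4, h4]; ring
    rw [h3, o2]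
  have hfeq : (Polynomial.taylor 1 F).coeff (3 * m) = f3 := by
    rw [hco] at htay
    exact_mod_cast htay.symm
  rw [hfeq] at hbound
  -- valuations
  have hdd : ∀ l, padicNorm p (T.del l) = ((p : ℚ) ^ (∑ j ∈ Icc 1 L, T.al l (p ^ j)))⁻¹ := by
    intro l
    have h1 := T.del_val l p (hL l)
    rw [padicNorm.eq_zpow_of_nonzero (T.del_ne_zero l), h1, ← zpow_natCast, ← zpow_neg]
    push_cast
    rfl
  have hsplit : ∀ l, ∑ j ∈ Icc 1 L, T.al l (p ^ j) =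
      ∑ j ∈ Icc 1 J, T.al l (p ^ j) + ∑ j ∈ Ioc J L, T.al l (p ^ j) := by
    intro l
    rw [← Finset.sum_union]
    · congr 1
      ext j
      simp only [Finset.mem_union, Finset.mem_Icc, Finset.mem_Ioc]
      omega
    · rw [Finset.disjoint_left]
      intro j h1 h2
      simp only [Finset.mem_Icc, Finset.mem_Ioc] at h1 h2
      omega
  have hi1 : i + 1 ≠ i := by
    intro h
    have : (1 : ZMod 3) = 0 := by
      have := congrArg (fun x => x - i) h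
      simpa using this
    exact absurd this (by decide)
  have hS : ∀ l, ∑ j ∈ Icc 1 J, T.al l (p ^ j) = ∑ j ∈ Icc 1 J, T.al i (p ^ j) := by
    intro l
    apply Finset.sum_congr rfl
    intro j hj
    exact (hJ1 j (Finset.mem_Icc.mp hj).1 (Finset.mem_Icc.mp hj).2).2 l
  have hE1 : ∑ j ∈ Ioc J L, T.al (i + 1) (p ^ j) = 0 := by
    apply Finset.sum_eq_zero
    intro j hj
    exact hJ2 j (Finset.mem_Ioc.mp hj).1 (i + 1) hi1
  have hddd : padicNorm p (T.del i * T.del (i + 1) * T.del (i + 2)) =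
      ((p : ℚ) ^ (E + ∑ j ∈ Icc 1 J, 3 * T.al i (p ^ j)))⁻¹ := by
    rw [padicNorm.mul, padicNorm.mul, hdd, hdd, hdd, hsplit, hsplit (i + 1), hsplit (i + 2), hE1,
      hE2, hS (i + 1), hS (i + 2), ← Finset.mul_sum, ← hE, add_zero, ← mul_inv, ← mul_inv,
      ← pow_add, ← pow_add]
    congr 2
    ring
  have hpq : (0 : ℚ) < p := by exact_mod_cast hp.pos
  have hnat1 : ∀ n : ℕ, ¬ p ∣ n → padicNorm p (n : ℚ) = 1 := fun n hn =>
    (padicNorm.nat_eq_one_iff n).mpr hn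
  have hmp : ¬ p ∣ 2 * m := by
    intro h
    have := Nat.le_of_dvd (by omega) h
    omega
  have hn2m : padicNorm p (2 * m : ℚ) = 1 := by
    have := hnat1 (2 * m) hmp
    push_cast at this
    exact this
  have hn4 : padicNorm p ((4 : ℚ) ^ m) = 1 := by
    have h1 : ¬ p ∣ 4 ^ m := by
      intro h
      have h2 := hp.dvd_of_dvd_pow h
      have h3 : p ∣ 2 ^ 2 := by simpa using h2
      have h4 := hp.dvd_of_dvd_pow h3
      have := Nat.le_of_dvd (by norm_num) h4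
      omega
    have := hnat1 (4 ^ m) h1
    push_cast at this
    exact this
  have hnsub : padicNorm p ((2 : ℚ) ^ m - 1) = 1 := by
    have h1 := hnat1 (2 ^ m - 1) hg.sub
    rw [Nat.cast_sub (Nat.one_le_two_pow)] at h1
    push_cast at h1
    exact h1
  have hnadd : padicNorm p ((2 : ℚ) ^ m + 1) = 1 := by
    have h1 := hnat1 (2 ^ m + 1) hg.add
    push_cast at h1
    exact h1
  have hnq : ∀ k : ℕ, 2 ≤ k → padicNorm p (1 - (p : ℚ) ^ (k - 1)) = 1 := by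
    intro k hk
    have e2 : (1 - (p : ℚ) ^ (k - 1)) = ((1 - (p : ℤ) ^ (k - 1) : ℤ) : ℚ) := by push_cast; rfl
    rw [e2, padicNorm.int_eq_one_iff]
    intro hd
    have h4 : (p : ℤ) ∣ (p : ℤ) ^ (k - 1) := dvd_pow_self _ (by omega)
    have h5 : (p : ℤ) ∣ 1 := by
      have := dvd_add hd h4
      simpa using this
    have h6 := hp.one_lt
    have h7 := Int.le_of_dvd one_pos h5
    omega
  have hbm : bernoulli m ≠ 0 := bernoulli_ne_zero hev
  have hb2m : bernoulli (2 * m) ≠ 0 := bernoulli_ne_zero (even_two_mul m)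
  have hnB : padicNorm p (bernoulli m) = 1 := by
    rw [padicNorm.eq_zpow_of_nonzero hbm, hg.bern_m]; simp
  have hnB2 : padicNorm p (bernoulli (2 * m)) < 1 := by
    rw [padicNorm.eq_zpow_of_nonzero hb2m]
    apply zpow_lt_one_of_neg₀
    · exact_mod_cast hp.one_lt
    · have := hg.bern_2m
      omega
  have hnB20 : 0 < padicNorm p (bernoulli (2 * m)) :=
    lt_of_le_of_ne (padicNorm.nonneg _) (Ne.symm (fun h => hb2m (padicNorm.zero_of_padicNorm_eq_zero h)))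
  set x : ℚ := 1 / (bernoulli m * (1 - (p : ℚ) ^ (m - 1))) with hx
  set y : ℚ := (2 ^ m + 1) / (bernoulli (2 * m) * (1 - (p : ℚ) ^ (2 * m - 1))) with hy
  have hnx : padicNorm p x = 1 := by
    rw [hx, padicNorm.div, padicNorm.mul, hnB, hnq m (by omega)]; simp
  have hny : 1 < padicNorm p y := by
    rw [hy, padicNorm.div, padicNorm.mul, hnadd, hnq (2 * m) (by omega), mul_one]
    exact one_lt_one_div hnB20 hnB2
  have hnxy : padicNorm p (x - y) = padicNorm p y := by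
    have h1 : padicNorm p x ≠ padicNorm p (-y) := by
      rw [padicNorm.neg, hnx]; exact hny.ne
    rw [sub_eq_add_neg, padicNorm.add_eq_max_of_ne h1, padicNorm.neg, hnx]
    exact max_eq_right hny.le
  have hf3n : padicNorm p f3 = ((p : ℚ) ^ (E + ∑ j ∈ Icc 1 J, 3 * T.al i (p ^ j)))⁻¹ *
      padicNorm p y := by
    rw [hf3, padicNorm.mul, padicNorm.mul, hddd, padicNorm.div, hn2m, padicNorm.mul, hn4, hnsub,
      hnxy]
    ring
  rw [hf3n] at hbound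
  have hpos : (0 : ℚ) < ((p : ℚ) ^ (E + ∑ j ∈ Icc 1 J, 3 * T.al i (p ^ j)))⁻¹ := by positivity
  have : ((p : ℚ) ^ (E + ∑ j ∈ Icc 1 J, 3 * T.al i (p ^ j)))⁻¹ * padicNorm p y ≤
      ((p : ℚ) ^ (E + ∑ j ∈ Icc 1 J, 3 * T.al i (p ^ j)))⁻¹ * 1 := by
    rw [mul_one]; exact hbound
  have := le_of_mul_le_mul_left this hpos
  linarith

end Trip

end Pool.Agent.Lib_MP_e4b855_nt.Tri
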