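import Pool.Agent.Lib_MP_e4b855_nt.Tri.Trip

namespace Pool.Agent.Lib_MP_e4b855_nt.Tri

open PowerSeries Finset

namespace Trip

variable {m : ℕ} (T : Trip m)

/-! ### Piece A6b -/

theorem G_eq (i : ZMod 3) {N : ℕ} (hN : Odd N) {ζ : ℂ} (hζ : IsPrimitiveRoot ζ N) :
    T.G i ζ = 1 + T.D i ζ 1 * (T.Q (i + 1) ζ 1)⁻¹ := by
  have h1 := T.Q_const_ne (i + 1) hN hζ one_ne_zero
  have h2 := T.Q_sub i ζ 1
  have h3 : T.Q (i + 2) ζ 1 = T.Q (i + 1) ζ 1 + T.D i ζ 1 := by rw [← h2]; ring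
  unfold G
  rw [h3, add_mul, PowerSeries.mul_inv_cancel _ h1]

private lemma tri2_D_ne (i : ZMod 3) {N : ℕ} (hN : 0 < N) {ζ s : ℂ} (hζ : IsPrimitiveRoot ζ N)
    (hs : s ≠ 0) : T.D i ζ s ≠ 0 := by
  obtain ⟨U, -, hU, hD⟩ := T.D_lead i hN hζ hs
  rw [hD]
  refine mul_ne_zero (pow_ne_zero _ X_ne_zero) ?_
  rintro rfl
  exact hU (by simp)

private lemma tri2_Q_ne (i : ZMod 3) {N : ℕ} (hN : Odd N) {ζ : ℂ} (hζ : IsPrimitiveRoot ζ N) :
    T.Q i ζ 1 ≠ 0 := by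
  intro h
  exact T.Q_const_ne i hN hζ one_ne_zero (by rw [h]; simp)

private lemma tri2_ee_add (a b : ℂ) : ee a * ee b = ee (a + b) := by
  unfold ee
  exact (PowerSeries.exp_mul_exp_eq_exp_add a b)

private lemma tri2_ee_ne (a : ℂ) : ee a ≠ 0 := by
  intro h
  have h1 := tri2_ee_add a (-a)
  rw [h, zero_mul, add_neg_cancel] at h1
  have h2 : ee 0 = 1 := by
    unfold ee
    simp
  rw [h2] at h1
  exact zero_ne_one h1

/-- `Q_j (ζ e^t)` as a quotient of virtual products -/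
private lemma tri2_Q (j : ZMod 3) {N : ℕ} (hN : Odd N) {ζ : ℂ} (hζ : IsPrimitiveRoot ζ N) :
    ((T.Q j ζ 1 : ℂ⟦X⟧) : LaurentSeries ℂ) =
      ((C (ζ ^ (-T.M j)) * ee (-(T.M j : ℂ)) : ℂ⟦X⟧) : LaurentSeries ℂ) *
        (FF (T.d j) (ζ ^ 2) 2 / FF (T.d j) ζ 1) := by
  have hζ0 : ζ ≠ 0 := hζ.ne_zero hN.pos.ne'
  have hD := T.D_eq j hζ0 (one_ne_zero)
  have hD2 := T.D_eq j (pow_ne_zero 2 hζ0) (two_ne_zero)
  have hmul := T.D_mul_Q j hζ0 1
  rw [mul_one] at hmul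
  have hDne := tri2_D_ne T j hN.pos hζ one_ne_zero
  have hFF := FF_ne_zero (T.d j) (T.d_zero j) hζ0 (one_ne_zero (α := ℂ))
  have hmul' := congrArg (fun f : ℂ⟦X⟧ => (f : LaurentSeries ℂ)) hmul
  simp only [PowerSeries.coe_mul] at hmul'
  rw [hD, hD2] at hmul'
  have he : (T.e j : ℂ) ≠ 0 := by
    rcases T.e_eq j with h | h <;> rw [h] <;> simp
  have hmon : (C ((T.e j : ℂ) * (ζ ^ 2) ^ (-T.M j)) * ee (-(2 * T.M j)) : ℂ⟦X⟧) =
      (C ((T.e j : ℂ) * ζ ^ (-T.M j)) * ee (-(1 * T.M j)) : ℂ⟦X⟧) *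
        (C (ζ ^ (-T.M j)) * ee (-(T.M j : ℂ)) : ℂ⟦X⟧) := by
    have h1 : ee (-(2 * (T.M j : ℂ))) = ee (-(1 * (T.M j : ℂ))) * ee (-(T.M j : ℂ)) := by
      rw [tri2_ee_add]; congr 1; ring
    have h2 : ((T.e j : ℂ) * (ζ ^ 2) ^ (-T.M j)) = ((T.e j : ℂ) * ζ ^ (-T.M j)) * ζ ^ (-T.M j) := by
      rw [mul_assoc, ← zpow_add₀ hζ0]
      congr 1
      rw [← zpow_natCast, ← zpow_mul]
      congr 1
      push_cast
      ring
    rw [h1, h2, map_mul C]
    ring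
  rw [hmon] at hmul'
  have hc : ((C ((T.e j : ℂ) * ζ ^ (-T.M j)) * ee (-(1 * T.M j)) : ℂ⟦X⟧) : LaurentSeries ℂ) ≠ 0 := by
    intro h
    rw [h, zero_mul] at hD
    exact hDne ((HahnSeries.ofPowerSeries_injective (Γ := ℤ) (R := ℂ)) (by simpa using hD))
  have h3 : ((C ((T.e j : ℂ) * ζ ^ (-T.M j)) * ee (-(1 * T.M j)) : ℂ⟦X⟧) : LaurentSeries ℂ) *
      (FF (T.d j) ζ 1 * ((T.Q j ζ 1 : ℂ⟦X⟧) : LaurentSeries ℂ)) =
      ((C ((T.e j : ℂ) * ζ ^ (-T.M j)) * ee (-(1 * T.M j)) : ℂ⟦X⟧) : LaurentSeries ℂ) *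
      (((C (ζ ^ (-T.M j)) * ee (-(T.M j : ℂ)) : ℂ⟦X⟧) : LaurentSeries ℂ) * FF (T.d j) (ζ ^ 2) 2) := by
    rw [← mul_assoc, hmul']
    rw [PowerSeries.coe_mul, mul_assoc]
  have h4 := mul_left_cancel₀ hc h3
  rw [mul_div_assoc', eq_div_iff hFF, mul_comm, h4]

theorem G_FF (i : ZMod 3) {N : ℕ} (hN : Odd N) {ζ : ℂ} (hζ : IsPrimitiveRoot ζ N) :
    ∃ c a : ℂ, ‖c‖ = 1 ∧ 2 * a = ((T.v i).sum fun n k => (k : ℂ) * n) ∧
      (T.G i ζ : LaurentSeries ℂ) = ((C c * ee (-a) : ℂ⟦X⟧) : LaurentSeries ℂ) *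
        FF (T.v i) ζ 1 := by
  have hζ0 : ζ ≠ 0 := hζ.ne_zero hN.pos.ne'
  have hu0 : (T.d (i + 2) - T.d (i + 1)) 0 = 0 := by simp [T.d_zero]
  have hmd0 : ((T.d (i + 2) - T.d (i + 1)).mapDomain (fun n => 2 * n)) 0 = 0 := by
    have := Finsupp.mapDomain_apply (f := fun n : ℕ => 2 * n)
      (fun a b (h : 2 * a = 2 * b) => by omega) (T.d (i + 2) - T.d (i + 1)) 0
    simpa [hu0] using this
  refine ⟨ζ ^ (-(T.M (i + 2) - T.M (i + 1))), ((T.M (i + 2) - T.M (i + 1) : ℤ) : ℂ), ?_, ?_, ?_⟩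
  · rw [norm_zpow, hζ.norm'_eq_one hN.pos.ne', one_zpow]
  · have hsum : (T.v i).sum (fun n (k : ℤ) => k * (n : ℤ)) = 2 * (T.M (i + 2) - T.M (i + 1)) := by
      unfold v tw
      have hlin : ∀ a b : ℕ →₀ ℤ, (a - b).sum (fun n (k : ℤ) => k * (n : ℤ)) =
          a.sum (fun n (k : ℤ) => k * (n : ℤ)) - b.sum (fun n (k : ℤ) => k * (n : ℤ)) := by
        intro a b
        exact Finsupp.sum_sub_index (by intros; ring)
      rw [hlin, Finsupp.sum_mapDomain_index (by intros; ring) (by intros; ring)]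
      have h2 : ((T.d (i + 2) - T.d (i + 1)).sum fun n (k : ℤ) => k * ((2 * n : ℕ) : ℤ)) =
          2 * (T.d (i + 2) - T.d (i + 1)).sum fun n (k : ℤ) => k * (n : ℤ) := by
        rw [Finsupp.mul_sum]
        refine Finsupp.sum_congr fun n _ => ?_
        push_cast; ring
      rw [h2, hlin, T.two_mul_M, T.two_mul_M]
      ring
    have hcast := congrArg (fun z : ℤ => (z : ℂ)) hsum
    simp only [Finsupp.sum, Int.cast_sum, Int.cast_mul, Int.cast_natCast] at hcast ⊢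
    rw [hcast]
    push_cast
    ring
  · have hQ2 := tri2_Q T (i + 2) hN hζ
    have hQ1 := tri2_Q T (i + 1) hN hζ
    have hQ1ne := T.Q_const_ne (i + 1) hN hζ one_ne_zero
    have hGQ : T.G i ζ * T.Q (i + 1) ζ 1 = T.Q (i + 2) ζ 1 := by
      unfold G
      rw [mul_assoc, PowerSeries.inv_mul_cancel _ hQ1ne, mul_one]
    have hQ1L : ((T.Q (i + 1) ζ 1 : ℂ⟦X⟧) : LaurentSeries ℂ) ≠ 0 := by
      intro h
      exact tri2_Q_ne T (i + 1) hN hζ
        ((HahnSeries.ofPowerSeries_injective (Γ := ℤ) (R := ℂ)) (by simpa using h))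
    apply mul_right_cancel₀ hQ1L
    rw [← PowerSeries.coe_mul, hGQ, hQ2, hQ1]
    have hv : FF (T.v i) ζ 1 = (FF (T.d (i + 2)) (ζ ^ 2) 2 / FF (T.d (i + 1)) (ζ ^ 2) 2) /
        (FF (T.d (i + 2)) ζ 1 / FF (T.d (i + 1)) ζ 1) := by
      unfold v tw
      rw [FF_sub _ _ hmd0 hu0 hζ0 one_ne_zero, FF_double, mul_one,
        FF_sub _ _ (T.d_zero _) (T.d_zero _) (pow_ne_zero 2 hζ0) two_ne_zero,
        FF_sub _ _ (T.d_zero _) (T.d_zero _) hζ0 one_ne_zero]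
    rw [hv]
    have n1 := FF_ne_zero (T.d (i + 2)) (T.d_zero _) hζ0 (one_ne_zero (α := ℂ))
    have n2 := FF_ne_zero (T.d (i + 1)) (T.d_zero _) hζ0 (one_ne_zero (α := ℂ))
    have n3 := FF_ne_zero (T.d (i + 2)) (T.d_zero _) (pow_ne_zero 2 hζ0) (two_ne_zero (α := ℂ))
    have n4 := FF_ne_zero (T.d (i + 1)) (T.d_zero _) (pow_ne_zero 2 hζ0) (two_ne_zero (α := ℂ))
    have hmon : (C (ζ ^ (-T.M (i + 2))) * ee (-(T.M (i + 2) : ℂ)) : ℂ⟦X⟧) =
        (C (ζ ^ (-(T.M (i + 2) - T.M (i + 1)))) *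
          ee (-((T.M (i + 2) - T.M (i + 1) : ℤ) : ℂ)) : ℂ⟦X⟧) *
        (C (ζ ^ (-T.M (i + 1))) * ee (-(T.M (i + 1) : ℂ)) : ℂ⟦X⟧) := by
      have h1 : ee (-(T.M (i + 2) : ℂ)) = ee (-((T.M (i + 2) - T.M (i + 1) : ℤ) : ℂ)) *
          ee (-(T.M (i + 1) : ℂ)) := by
        rw [tri2_ee_add]; congr 1; push_cast; ring
      have h2 : ζ ^ (-T.M (i + 2)) = ζ ^ (-(T.M (i + 2) - T.M (i + 1))) * ζ ^ (-T.M (i + 1)) := by
        rw [← zpow_add₀ hζ0]; congr 1; ring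
      rw [h1, h2, map_mul C]
      ring
    rw [hmon, PowerSeries.coe_mul]
    field_simp

theorem v_zero (i : ZMod 3) : T.v i 0 = 0 := by
  unfold v tw
  have hu0 : (T.d (i + 2) - T.d (i + 1)) 0 = 0 := by simp [T.d_zero]
  have hmd0 : ((T.d (i + 2) - T.d (i + 1)).mapDomain (fun n => 2 * n)) 0 = 0 := by
    have := Finsupp.mapDomain_apply (f := fun n : ℕ => 2 * n)
      (fun a b (h : 2 * a = 2 * b) => by omega) (T.d (i + 2) - T.d (i + 1)) 0
    simpa [hu0] using this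
  rw [Finsupp.sub_apply, hmd0, hu0, sub_zero]

theorem del_ne_zero (i : ZMod 3) : T.del i ≠ 0 := by
  unfold del
  refine mul_ne_zero ?_ ?_
  · rcases T.e_eq i with h | h <;> rw [h] <;> simp
  · unfold Finsupp.prod
    rw [Finset.prod_ne_zero_iff]
    intro n hn
    refine zpow_ne_zero _ ?_
    rw [Nat.cast_ne_zero]
    rintro rfl
    exact (Finsupp.mem_support_iff.mp hn) (T.d_zero i)

private lemma tri2_sum_d (i : ZMod 3) : ((T.d i).sum fun _ c => c) = m := by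
  have h1 := T.al_cast i (N := 1) one_pos
  rw [T.al_one] at h1
  rw [h1]
  unfold lev
  simp

theorem coeff_D_one (i : ZMod 3) {s : ℂ} (hs : s ≠ 0) :
    coeff m (T.D i 1 s) = (T.del i : ℂ) * s ^ m := by
  obtain ⟨U, hU, -, hD⟩ := T.D_lead i (N := 1) one_pos (IsPrimitiveRoot.one) hs
  rw [hD, T.al_one, coeff_X_pow_mul', if_pos le_rfl, Nat.sub_self,
    coeff_zero_eq_constantCoeff_apply, hU]
  unfold del
  have h1 : ((T.d i).prod fun n c => (if 1 ∣ n then s * (n : ℂ) else (1 : ℂ) ^ n - 1) ^ c) =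
      s ^ m * ((T.d i).prod fun n c => (n : ℂ) ^ c) := by
    have h2 : ((T.d i).prod fun n c => (if 1 ∣ n then s * (n : ℂ) else (1 : ℂ) ^ n - 1) ^ c) =
        ((T.d i).prod fun n c => s ^ c * (n : ℂ) ^ c) := by
      refine Finsupp.prod_congr fun n _ => ?_
      rw [if_pos (one_dvd n), mul_zpow]
    rw [h2, Finsupp.prod_mul]
    congr 1
    unfold Finsupp.prod
    have h3 := tri2_sum_d T i
    unfold Finsupp.sum at h3
    rw [← zpow_natCast, ← h3]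
    clear h3 h2 hD hU
    induction (T.d i).support using Finset.induction_on with
    | empty => simp
    | insert a t ha ih => rw [Finset.prod_insert ha, Finset.sum_insert ha, zpow_add₀ hs, ih]
  rw [h1, one_zpow, mul_one]
  push_cast
  ring

private lemma tri2_coeff_J (A : Finset ℤ) (s : ℂ) (k : ℕ) :
    coeff k (J A 1 s) = s ^ k * coeff k (J A 1 1) := by
  unfold J ee
  simp only [map_sum, one_zpow, map_one, one_mul, coeff_rescale, coeff_exp, Finset.mul_sum, mul_pow]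
  refine Finset.sum_congr rfl fun a _ => ?_
  ring

theorem coeff_D_one_lt (i : ZMod 3) (s : ℂ) {k : ℕ} (hk : k < m) : coeff k (T.D i 1 s) = 0 := by
  have h1 : coeff k (T.D i 1 s) = s ^ k * coeff k (T.D i 1 1) := by
    unfold D
    rw [map_sub, map_sub, tri2_coeff_J _ s, tri2_coeff_J (T.S (i + 1)) s]
    ring
  obtain ⟨U, -, -, hD⟩ := T.D_lead i (N := 1) one_pos (IsPrimitiveRoot.one) (one_ne_zero (α := ℂ))
  rw [h1, hD, T.al_one, coeff_X_pow_mul', if_neg (by omega), mul_zero]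

theorem del_sum (i : ZMod 3) : T.del i + T.del (i + 1) + T.del (i + 2) = 0 := by
  have h := congrArg (coeff m) (T.D_sum i 1 1)
  simp only [map_add, map_zero] at h
  rw [T.coeff_D_one i one_ne_zero, T.coeff_D_one (i + 1) one_ne_zero,
    T.coeff_D_one (i + 2) one_ne_zero, one_pow, mul_one, mul_one, mul_one] at h
  exact_mod_cast h

private lemma tri2_lev_zero (i : ZMod 3) {N : ℕ} (hN : ∀ n ∈ (T.d i).support, n < N) :
    lev (T.d i) N = 0 := by
  unfold lev Finsupp.sum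
  refine Finset.sum_eq_zero fun n hn => ?_
  refine if_neg ?_
  intro hdvd
  have hn0 : n ≠ 0 := by
    rintro rfl
    exact (Finsupp.mem_support_iff.mp hn) (T.d_zero i)
  exact absurd (Nat.le_of_dvd (Nat.pos_of_ne_zero hn0) hdvd) (by have := hN n hn; omega)

private lemma tri2_bound (p : ℕ) (hp : 1 < p) :
    ∃ L : ℕ, ∀ i : ZMod 3, ∀ n ∈ (T.d i).support, n < p ^ L := by
  refine ⟨∑ i : ZMod 3, ∑ n ∈ (T.d i).support, n, fun i n hn => ?_⟩
  have h1 : n ≤ ∑ n ∈ (T.d i).support, n :=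
    Finset.single_le_sum (f := fun n : ℕ => n) (fun _ _ => Nat.zero_le _) hn
  have h2 : ∑ n ∈ (T.d i).support, n ≤ ∑ i : ZMod 3, ∑ n ∈ (T.d i).support, n :=
    Finset.single_le_sum (f := fun i : ZMod 3 => ∑ n ∈ (T.d i).support, n)
      (fun _ _ => Nat.zero_le _) (Finset.mem_univ i)
  exact lt_of_le_of_lt (h1.trans h2) (Nat.lt_pow_self hp)

/-- all large levels are zero -/
theorem exists_bound (p : ℕ) (hp : 1 < p) :
    ∃ L : ℕ, ∀ i : ZMod 3, ∀ j, L < j → T.al i (p ^ j) = 0 := by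
  obtain ⟨L, hL⟩ := tri2_bound T p hp
  refine ⟨L, fun i j hj => ?_⟩
  unfold al
  rw [tri2_lev_zero T i, Int.toNat_zero]
  intro n hn
  exact (hL i n hn).trans_le (Nat.pow_le_pow_right (by omega) hj.le)

theorem del_val (i : ZMod 3) (p : ℕ) [Fact p.Prime] {L : ℕ}
    (hL : ∀ j, L < j → T.al i (p ^ j) = 0) :
    padicValRat p (T.del i) = ∑ j ∈ Icc 1 L, (T.al i (p ^ j) : ℤ) := by
  have hp : p.Prime := Fact.out
  obtain ⟨B, hB⟩ := tri2_bound T p hp.one_lt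
  have hn0 : ∀ n ∈ (T.d i).support, n ≠ 0 := by
    rintro n hn rfl
    exact (Finsupp.mem_support_iff.mp hn) (T.d_zero i)
  have hval : padicValRat p (T.del i) = ∑ n ∈ (T.d i).support, (T.d i n) * (padicValNat p n : ℤ) := by
    unfold del Finsupp.prod
    have hprod : ∀ t ⊆ (T.d i).support, (∏ n ∈ t, (n : ℚ) ^ (T.d i n)) ≠ 0 ∧
        padicValRat p (∏ n ∈ t, (n : ℚ) ^ (T.d i n)) = ∑ n ∈ t, (T.d i n) * (padicValNat p n : ℤ) := by
      intro t
      induction t using Finset.induction_on with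
      | empty => simp
      | insert a t ha ih =>
        intro hsub
        have hat := hn0 a (hsub (Finset.mem_insert_self a t))
        obtain ⟨h1, h2⟩ := ih ((Finset.subset_insert a t).trans hsub)
        have h3 : (a : ℚ) ^ (T.d i a) ≠ 0 := zpow_ne_zero _ (Nat.cast_ne_zero.mpr hat)
        rw [Finset.prod_insert ha, Finset.sum_insert ha]
        refine ⟨mul_ne_zero h3 h1, ?_⟩
        rw [padicValRat.mul h3 h1, h2, padicValRat.zpow, padicValRat.of_nat]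
    obtain ⟨h1, h2⟩ := hprod _ (Finset.Subset.refl _)
    have he : (T.e i : ℚ) ≠ 0 := by
      rcases T.e_eq i with h | h <;> rw [h] <;> simp
    rw [padicValRat.mul he h1, h2]
    rcases T.e_eq i with h | h <;> rw [h] <;> simp
  rw [hval]
  have hsumB : ∑ n ∈ (T.d i).support, (T.d i n) * (padicValNat p n : ℤ) =
      ∑ j ∈ Icc 1 (B + L), lev (T.d i) (p ^ j) := by
    unfold lev Finsupp.sum
    rw [Finset.sum_comm]
    refine Finset.sum_congr rfl fun n hn => ?_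
    rw [← Finset.sum_filter, Finset.sum_const, nsmul_eq_mul, mul_comm]
    congr 1
    have h5 : (Icc 1 (B + L)).filter (fun j => p ^ j ∣ n) = Icc 1 (padicValNat p n) := by
      ext j
      rw [Finset.mem_filter, Finset.mem_Icc, Finset.mem_Icc, padicValNat_dvd_iff_le (hn0 n hn)]
      constructor
      · rintro ⟨⟨h1, _⟩, h2⟩; exact ⟨h1, h2⟩
      · rintro ⟨h1, h2⟩
        refine ⟨⟨h1, ?_⟩, h2⟩
        have h6 : p ^ j ∣ n := (padicValNat_dvd_iff_le (hn0 n hn)).mpr h2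
        have h7 := Nat.le_of_dvd (Nat.pos_of_ne_zero (hn0 n hn)) h6
        have h8 := hB i n hn
        have h9 : p ^ j < p ^ B := h7.trans_lt h8
        have := (Nat.pow_lt_pow_iff_right hp.one_lt).mp h9
        omega
    rw [h5]
    simp
  rw [hsumB]
  symm
  have hsub : Icc 1 L ⊆ Icc 1 (B + L) := Finset.Icc_subset_Icc_right (by omega)
  rw [← Finset.sum_subset hsub]
  · refine Finset.sum_congr rfl fun j _ => ?_
    exact T.al_cast i (pow_pos hp.pos j)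
  · intro j hj hj'
    rw [Finset.mem_Icc] at hj hj'
    have h1 := hL j (by omega)
    have h2 := T.al_cast i (N := p ^ j) (pow_pos hp.pos j)
    rw [← h2, h1]
    rfl

end Trip

end Pool.Agent.Lib_MP_e4b855_nt.Tri
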