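import Pool.Agent.Lib_MP_e4b855_nt.Tri.Cheb
import Pool.Agent.Lib_MP_e4b855_nt.Tri.Class
import Pool.Agent.Lib_MP_e4b855_nt.Tri.Trip2

namespace Pool.Agent.Lib_MP_e4b855_nt.Tri

open PowerSeries Finset

theorem G10_scale (A : Finset ℤ) (ζ : ℂ) (k : ℕ) :
    coeff k (J A ζ 2) = 2 ^ k * coeff k (J A ζ 1) := by
  rw [coeff_J, coeff_J, ← mul_div_assoc, Finset.mul_sum]
  congr 1
  refine Finset.sum_congr rfl fun a _ => ?_
  rw [mul_pow, one_mul]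
  ring

/-- powers of roots of unity depend on the residue class only -/
theorem G10_val {n : ℕ} [NeZero n] {ζ : ℂ} (hζ : ζ ^ n = 1) (a : ℤ) :
    ζ ^ ((a : ZMod n)).val = ζ ^ a := by
  have hn : 0 < n := Nat.pos_of_ne_zero (NeZero.ne n)
  have hζ0 : ζ ≠ 0 := by
    rintro rfl
    rw [zero_pow hn.ne'] at hζ
    exact zero_ne_one hζ
  have h1 : (((a : ZMod n)).val : ℤ) = a % (n : ℤ) := ZMod.val_intCast a
  have h2 : ζ ^ a = ζ ^ (a % (n : ℤ)) := by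
    conv_lhs => rw [← Int.mul_ediv_add_emod a n]
    rw [zpow_add₀ hζ0, zpow_mul, zpow_natCast, hζ, one_zpow, one_mul]
  rw [h2, ← h1, zpow_natCast]

/-- class moments -/
noncomputable def G10_cl (n : ℕ) [NeZero n] (S S' : Finset ℤ) (k : ℕ) (r : ZMod n) : ℤ :=
  ∑ a ∈ S.filter (fun a : ℤ => (a : ZMod n) = r), a ^ k - ∑ a ∈ S'.filter (fun a : ℤ => (a : ZMod n) = r), a ^ k

theorem G10_sum {n : ℕ} [NeZero n] {ζ : ℂ} (hζ : ζ ^ n = 1) (S : Finset ℤ) (k : ℕ) :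
    ∑ r : ZMod n, ((∑ a ∈ S.filter (fun a : ℤ => (a : ZMod n) = r), a ^ k : ℤ) : ℂ) * ζ ^ r.val =
      k.factorial * coeff k (J S ζ 1) := by
  have h1 : ∀ r : ZMod n, ((∑ a ∈ S.filter (fun a : ℤ => (a : ZMod n) = r), a ^ k : ℤ) : ℂ) * ζ ^ r.val =
      ∑ a ∈ S.filter (fun a : ℤ => (a : ZMod n) = r), (a : ℂ) ^ k * ζ ^ a := by
    intro r
    push_cast
    rw [Finset.sum_mul]
    refine Finset.sum_congr rfl fun a ha => ?_
    rw [← (Finset.mem_filter.1 ha).2, G10_val hζ]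
  rw [Finset.sum_congr rfl fun r _ => h1 r, Finset.sum_fiberwise, coeff_J]
  have hk : (k.factorial : ℂ) ≠ 0 := by exact_mod_cast k.factorial_ne_zero
  rw [mul_div_cancel₀ _ hk]
  refine Finset.sum_congr rfl fun a _ => ?_
  rw [one_mul]
  ring

theorem G10_cl_sum {n : ℕ} [NeZero n] {ζ : ℂ} (hζ : ζ ^ n = 1) (S S' : Finset ℤ) (k : ℕ) :
    ∑ r : ZMod n, (G10_cl n S S' k r : ℂ) * ζ ^ r.val =
      k.factorial * (coeff k (J S ζ 1) - coeff k (J S' ζ 1)) := by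
  rw [mul_sub, ← G10_sum hζ S k, ← G10_sum hζ S' k, ← Finset.sum_sub_distrib]
  refine Finset.sum_congr rfl fun r _ => ?_
  rw [G10_cl]
  push_cast
  ring

namespace Trip

variable {m : ℕ} (T : Trip m)

theorem G10_coeff (i : ZMod 3) {N : ℕ} (hN : Odd N) {μ : ℕ} (hμ0 : 0 < μ)
    (hμ : ∀ l, T.al l N = μ) {ζ : ℂ} (hζ : IsPrimitiveRoot ζ N) :
    constantCoeff (T.D i ζ 1) = 0 ∧ coeff μ (T.D i ζ 1) ≠ 0 ∧
      2 ^ μ * coeff μ (T.D i (ζ ^ 2) 1) = coeff μ (T.D i ζ 1) * constantCoeff (T.Q i ζ 1) := by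
  obtain ⟨U, hU1, hU2, hU3⟩ := T.D_lead i hN.pos hζ (one_ne_zero : (1 : ℂ) ≠ 0)
  rw [hμ i] at hU3
  have h0 : coeff μ (T.D i ζ 1) = constantCoeff U := by
    have h := coeff_X_pow_mul U μ 0
    rw [zero_add] at h
    rw [hU3, h, coeff_zero_eq_constantCoeff_apply]
  refine ⟨?_, ?_, ?_⟩
  · rw [hU3, map_mul, map_pow, constantCoeff_X, zero_pow hμ0.ne', zero_mul]
  · rw [h0]
    exact hU2
  · have h1 := T.D_mul_Q i (hζ.ne_zero hN.pos.ne') 1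
    rw [mul_one] at h1
    have h2 : coeff μ (T.D i (ζ ^ 2) 2) = 2 ^ μ * coeff μ (T.D i (ζ ^ 2) 1) := by
      rw [D, D, map_sub, map_sub, G10_scale, G10_scale, mul_sub]
    rw [← h2, ← h1, h0, hU3, mul_assoc]
    have h := coeff_X_pow_mul (U * T.Q i ζ 1) μ 0
    rw [zero_add] at h
    rw [h, coeff_zero_eq_constantCoeff_apply, map_mul]

theorem G10_e1 (i : ZMod 3) : i + 2 + 2 = i + 1 := by
  revert i; decide

theorem G10_Q (i : ZMod 3) {N : ℕ} (hN : Odd N) {μ : ℕ} (hμ0 : 0 < μ)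
    (hμ : ∀ l, T.al l N = μ) {ζ : ℂ} (hζ : IsPrimitiveRoot ζ N) :
    constantCoeff (T.Q (i + 2) ζ 1) = constantCoeff (T.Q i ζ 1) := by
  have e1 : i + 2 + 2 = i + 1 := G10_e1 i
  have e2 : i + 2 + 1 = i := (A6_three i).2
  have h1 := congrArg constantCoeff (T.Q_sub i ζ 1)
  have h2 := congrArg constantCoeff (T.Q_sub (i + 2) ζ 1)
  rw [e1, e2] at h2
  rw [map_sub, (T.G10_coeff i hN hμ0 hμ hζ).1] at h1
  rw [map_sub, (T.G10_coeff (i + 2) hN hμ0 hμ hζ).1] at h2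
  rw [sub_eq_zero.1 h1, sub_eq_zero.1 h2]

/-- the ratio of the leading coefficients at common zeros is invariant under `ζ ↦ ζ²` -/
theorem ratio_sq (i : ZMod 3) {N : ℕ} (hN : Odd N) {μ : ℕ} (hμ0 : 0 < μ)
    (hμ : ∀ l, T.al l N = μ) {ζ : ℂ} (hζ : IsPrimitiveRoot ζ N) :
    coeff μ (T.D i (ζ ^ 2) 1) * coeff μ (T.D (i + 2) ζ 1) =
      coeff μ (T.D (i + 2) (ζ ^ 2) 1) * coeff μ (T.D i ζ 1) := by
  obtain ⟨-, -, h1⟩ := T.G10_coeff i hN hμ0 hμ hζ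
  obtain ⟨-, -, h2⟩ := T.G10_coeff (i + 2) hN hμ0 hμ hζ
  rw [T.G10_Q i hN hμ0 hμ hζ] at h2
  have h3 : (2 : ℂ) ^ μ ≠ 0 := pow_ne_zero _ two_ne_zero
  apply mul_left_cancel₀ h3
  rw [← mul_assoc, ← mul_assoc, h1, h2]
  ring

theorem G10_ratio_pow (i : ZMod 3) {N : ℕ} (hN : Odd N) {μ : ℕ} (hμ0 : 0 < μ)
    (hμ : ∀ l, T.al l N = μ) {ζ : ℂ} (hζ : IsPrimitiveRoot ζ N) (n : ℕ) :
    coeff μ (T.D i (ζ ^ 2 ^ n) 1) * coeff μ (T.D (i + 2) ζ 1) =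
      coeff μ (T.D (i + 2) (ζ ^ 2 ^ n) 1) * coeff μ (T.D i ζ 1) := by
  induction n with
  | zero =>
    rw [pow_zero, pow_one]
    ring
  | succ n ih =>
    have hζ' : IsPrimitiveRoot (ζ ^ 2 ^ n) N :=
      hζ.pow_of_coprime _ (Nat.Coprime.pow_left n (Nat.coprime_two_left.mpr hN))
    have h1 := T.ratio_sq i hN hμ0 hμ hζ'
    have h2 : (ζ ^ 2 ^ n) ^ 2 = ζ ^ 2 ^ (n + 1) := by rw [← pow_mul, ← pow_succ]
    rw [h2] at h1
    obtain ⟨-, h3, -⟩ := T.G10_coeff (i + 2) hN hμ0 hμ hζ'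
    apply mul_left_cancel₀ h3
    linear_combination coeff μ (T.D (i + 2) ζ 1) * h1 +
      coeff μ (T.D (i + 2) (ζ ^ 2 ^ (n + 1)) 1) * ih

/-- all three sets have the same nonempty classes -/
theorem G10_mem (i : ZMod 3) {p j μ : ℕ} (hp : p.Prime) (hp2 : p ≠ 2)
    (hc : 2 ^ (m - 1) < 2 * p) (hj : 0 < j) (hμ0 : 0 < μ)
    (hμ : ∀ l, T.al l (p ^ j) = μ) [NeZero (p ^ j)] (r : ZMod (p ^ j))
    (h : ∃ a ∈ T.S (i + 1), (a : ZMod (p ^ j)) = r) : ∃ a ∈ T.S i, (a : ZMod (p ^ j)) = r := by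
  by_contra hcon
  push Not at hcon
  have hk : 0 < T.al i (p ^ j) := by rw [hμ]; exact hμ0
  have h1 := T.class_eq i hp hp2 hc hj hk (r.val : ℤ)
  simp only [pow_zero, Finset.sum_const, nsmul_eq_mul, mul_one] at h1
  have hiff : ∀ a : ℤ, ((p ^ j : ℕ) : ℤ) ∣ a - (r.val : ℤ) ↔ (a : ZMod (p ^ j)) = r := by
    intro a
    rw [← ZMod.intCast_eq_intCast_iff_dvd_sub]
    constructor
    · intro h
      rw [← h]
      simp
    · intro h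
      rw [h]
      simp
  have h2 : (T.S i).filter (fun a => ((p ^ j : ℕ) : ℤ) ∣ a - (r.val : ℤ)) = ∅ := by
    refine Finset.filter_eq_empty_iff.2 fun a ha hd => ?_
    exact hcon a ha ((hiff a).1 hd)
  rw [h2, Finset.card_empty] at h1
  obtain ⟨a, ha, har⟩ := h
  have h3 : a ∈ (T.S (i + 1)).filter (fun a => ((p ^ j : ℕ) : ℤ) ∣ a - (r.val : ℤ)) :=
    Finset.mem_filter.2 ⟨ha, (hiff a).2 har⟩
  have h4 : 0 < ((T.S (i + 1)).filter (fun a => ((p ^ j : ℕ) : ℤ) ∣ a - (r.val : ℤ))).card :=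
    Finset.card_pos.2 ⟨a, h3⟩
  have h5 : (((T.S (i + 1)).filter (fun a => ((p ^ j : ℕ) : ℤ) ∣ a - (r.val : ℤ))).card : ℤ) = 0 := by
    rw [← h1]
    simp
  omega

/-- Piece G10b.  Rationality of the ratio at the common level `j` (from `cheb`, `class_eq`):
`A(r)`, `B(r)` = `μ`-th class moments of `D_i`, `D_{i+2}`; by `class_eq` (`k = 0`) the three sets
have the same nonempty classes, at most `2^{m-1}` of them. -/
theorem rational_ratio (i : ZMod 3) {p j μ : ℕ} (hp : p.Prime) (hp2 : p ≠ 2)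
    (hc : 2 ^ (m - 1) < 2 * p) (hord : 2 ^ (m - 1) ≤ orderOf (2 : ZMod p))
    (hW : ¬ p ^ 2 ∣ 2 ^ (p - 1) - 1) (hj : 0 < j) (hμ0 : 0 < μ)
    (hμ : ∀ l, T.al l (p ^ j) = μ) :
    ∃ a b : ℤ, a ≠ 0 ∧ b ≠ 0 ∧ ∀ ζ : ℂ, IsPrimitiveRoot ζ (p ^ j) →
      (b : ℂ) * coeff μ (T.D i ζ 1) = a * coeff μ (T.D (i + 2) ζ 1) := by
  have : Fact p.Prime := ⟨hp⟩
  have hodd : Odd (p ^ j) := (hp.odd_of_ne_two hp2).pow
  have hpj : p ^ j ≠ 0 := pow_ne_zero _ hp.ne_zero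
  have : NeZero (p ^ j) := ⟨hpj⟩
  have e1 : i + 1 + 1 = i + 2 := (A6_three i).1
  have e2 : i + 2 + 1 = i := (A6_three i).2
  have hfac : (μ.factorial : ℂ) ≠ 0 := by exact_mod_cast μ.factorial_ne_zero
  have hζ0 : IsPrimitiveRoot (Complex.exp (2 * Real.pi * Complex.I / (p ^ j : ℕ))) (p ^ j) :=
    Complex.isPrimitiveRoot_exp _ hpj
  set ζ0 := Complex.exp (2 * Real.pi * Complex.I / (p ^ j : ℕ)) with hζ0def
  have hA : ∀ l : ZMod 3, ∀ ζ : ℂ, ζ ^ p ^ j = 1 →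
      ∑ r : ZMod (p ^ j), (G10_cl (p ^ j) (T.S l) (T.S (l + 1)) μ r : ℂ) * ζ ^ r.val =
        μ.factorial * coeff μ (T.D l ζ 1) := by
    intro l ζ hζ
    rw [G10_cl_sum hζ, D, map_sub]
  have hnon : ∀ (l : ZMod 3) (r : ZMod (p ^ j)), G10_cl (p ^ j) (T.S l) (T.S (l + 1)) μ r ≠ 0 →
      (∃ a ∈ T.S l, (a : ZMod (p ^ j)) = r) ∨ ∃ a ∈ T.S (l + 1), (a : ZMod (p ^ j)) = r := by
    intro l r hr
    by_contra hcon
    push Not at hcon
    apply hr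
    have h1 : (T.S l).filter (fun a : ℤ => (a : ZMod (p ^ j)) = r) = ∅ :=
      Finset.filter_eq_empty_iff.2 fun a ha => hcon.1 a ha
    have h2 : (T.S (l + 1)).filter (fun a : ℤ => (a : ZMod (p ^ j)) = r) = ∅ :=
      Finset.filter_eq_empty_iff.2 fun a ha => hcon.2 a ha
    rw [G10_cl, h1, h2]
    simp
  have hcl : ∀ r : ZMod (p ^ j), (G10_cl (p ^ j) (T.S i) (T.S (i + 1)) μ r ≠ 0 ∨
      G10_cl (p ^ j) (T.S (i + 2)) (T.S (i + 2 + 1)) μ r ≠ 0) → ∃ a ∈ T.S i, (a : ZMod (p ^ j)) = r := by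
    intro r hr
    have h01 : (∃ a ∈ T.S (i + 1), (a : ZMod (p ^ j)) = r) → ∃ a ∈ T.S i, (a : ZMod (p ^ j)) = r :=
      T.G10_mem i hp hp2 hc hj hμ0 hμ r
    have h12 : (∃ a ∈ T.S (i + 2), (a : ZMod (p ^ j)) = r) →
        ∃ a ∈ T.S (i + 1), (a : ZMod (p ^ j)) = r := by
      have := T.G10_mem (i + 1) hp hp2 hc hj hμ0 hμ r
      rwa [e1] at this
    rcases hr with hr | hr
    · rcases hnon i r hr with h | h
      · exact h
      · exact h01 h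
    · rcases hnon (i + 2) r hr with h | h
      · exact h01 (h12 h)
      · rwa [e2] at h
  obtain ⟨a, b, hb, hab⟩ := cheb hp2 hj hζ0 hW (G10_cl (p ^ j) (T.S i) (T.S (i + 1)) μ)
    (G10_cl (p ^ j) (T.S (i + 2)) (T.S (i + 2 + 1)) μ)
    (by
      intro r₀
      refine le_trans ?_ hord
      rw [← T.card i]
      refine le_trans (Finset.card_le_card (t := (T.S i).image (fun a : ℤ => (a : ZMod (p ^ j)))) ?_)
        Finset.card_image_le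
      intro r hr
      obtain ⟨a, ha, har⟩ := hcl r (Finset.mem_filter.1 hr).2.2
      exact Finset.mem_image.2 ⟨a, ha, har⟩)
    (by
      rw [hA (i + 2) ζ0 hζ0.pow_eq_one]
      exact mul_ne_zero hfac (T.G10_coeff (i + 2) hodd hμ0 hμ hζ0).2.1)
    (by
      intro n
      have hn : (ζ0 ^ 2 ^ n) ^ p ^ j = 1 := by
        rw [← pow_mul, mul_comm, pow_mul, hζ0.pow_eq_one, one_pow]
      rw [hA i _ hn, hA (i + 2) _ hn, hA i ζ0 hζ0.pow_eq_one, hA (i + 2) ζ0 hζ0.pow_eq_one]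
      linear_combination (μ.factorial : ℂ) ^ 2 * T.G10_ratio_pow i hodd hμ0 hμ hζ0 n)
  have hall : ∀ ζ : ℂ, IsPrimitiveRoot ζ (p ^ j) →
      (b : ℂ) * coeff μ (T.D i ζ 1) = a * coeff μ (T.D (i + 2) ζ 1) := by
    intro ζ hζ
    have h1 := hA i ζ hζ.pow_eq_one
    have h2 := hA (i + 2) ζ hζ.pow_eq_one
    have h3 : (b : ℂ) * ∑ r : ZMod (p ^ j), (G10_cl (p ^ j) (T.S i) (T.S (i + 1)) μ r : ℂ) * ζ ^ r.val =
        a * ∑ r : ZMod (p ^ j), (G10_cl (p ^ j) (T.S (i + 2)) (T.S (i + 2 + 1)) μ r : ℂ) * ζ ^ r.val := by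
      rw [Finset.mul_sum, Finset.mul_sum]
      refine Finset.sum_congr rfl fun r _ => ?_
      have h4 : (b : ℂ) * (G10_cl (p ^ j) (T.S i) (T.S (i + 1)) μ r : ℂ) =
          a * (G10_cl (p ^ j) (T.S (i + 2)) (T.S (i + 2 + 1)) μ r : ℂ) := by
        exact_mod_cast hab r
      rw [← mul_assoc, h4, mul_assoc]
    rw [h1, h2] at h3
    apply mul_left_cancel₀ hfac
    linear_combination h3
  refine ⟨a, b, ?_, hb, hall⟩
  rintro rfl
  have h1 := hall ζ0 hζ0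
  rw [Int.cast_zero, zero_mul] at h1
  rcases mul_eq_zero.1 h1 with h | h
  · exact hb (by exact_mod_cast h)
  · exact (T.G10_coeff i hodd hμ0 hμ hζ0).2.1 h

end Trip

end Pool.Agent.Lib_MP_e4b855_nt.Tri
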