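import Pool.Agent.Lib_MP_e4b855_nt.Even
import Pool.Agent.Lib_MP_e4b855_nt.Tri.PartOne
import Pool.Agent.Lib_MP_e4b855_nt.Tri.PartTwoMain
import Pool.Agent.Lib_MP_e4b855_nt.Tri.Num
import Pool.Agent.Lib_MP_e4b855_nt.Tri.Rational
import Pool.Agent.Lib_MP_e4b855_nt.Tri.Reduce

/-! # No three sets of `2 ^ k` integers with the same pair sums (helper56) -/

namespace Pool.Agent.Lib_MP_e4b855_nt.Tri

open Finset

theorem no_trip_6 (T : Trip 6) : False :=
  T.partTwo good_6 fun _ _ hj hμ0 hμ i =>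
    T.rational_ratio i good_6.prime good_6.ne_two good_6.card ord_691 wief_691 hj hμ0 hμ

theorem no_trip_8 (T : Trip 8) : False :=
  T.partTwo good_8 fun _ _ hj hμ0 hμ i =>
    T.rational_ratio i good_8.prime good_8.ne_two good_8.card ord_3617 wief_3617 hj hμ0 hμ

theorem no_trip_14 (T : Trip 14) : False :=
  T.partTwo good_14 fun _ _ hj hμ0 hμ i =>
    T.rational_ratio i good_14.prime good_14.ne_two good_14.card ord_362903 wief_362903 hj hμ0 hμ

/-- odd exponents, except for `k = 9` -/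
theorem odd_at_most_two {k : ℕ} (hk : Odd k) (hk5 : 5 ≤ k) (h9 : k = 9 → Trip 10 → False)
    {X Y Z : Finset ℤ} (hX : X.card = 2 ^ k) (hY : Y.card = 2 ^ k) (hZ : Z.card = 2 ^ k)
    (hXY : pairSums X = pairSums Y) (hXZ : pairSums X = pairSums Z) (hne : X ≠ Y)
    (hne' : X ≠ Z) : Y = Z := by
  by_contra hYZ
  obtain ⟨T, hT⟩ := reduce hk hk5 hX hY hZ hne hYZ (Ne.symm hne') hXY (hXY.symm.trans hXZ)
  rcases (by
    obtain ⟨r, hr⟩ := hk
    omega : k = 5 ∨ k = 7 ∨ k = 9 ∨ k = 13 ∨ (12 ≤ k + 1 ∧ k + 1 ≠ 14)) with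
    rfl | rfl | rfl | rfl | ⟨h1, h2⟩
  · exact no_trip_6 T
  · exact no_trip_8 T
  · exact h9 rfl T
  · exact no_trip_14 T
  · exact T.partOne h1 h2 hT

/-- `M(k) = 2` (if there is no triple for `k = 9`) -/
theorem greatest_two (k : ℕ) (hk : 4 ≤ k) (h9 : k = 9 → Trip 10 → False) :
    IsGreatest {m : ℕ | ∃ F : Finset (Finset ℤ), F.card = m ∧ (∀ X ∈ F, X.card = 2 ^ k) ∧
      ∀ X ∈ F, ∀ Y ∈ F, pairSums X = pairSums Y} 2 := by
  constructor
  · obtain ⟨X, Y, hne, hX, hY, h⟩ := Even.exists_two (k - 1)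
    rw [Nat.sub_add_cancel (by omega)] at hX hY
    refine ⟨{X, Y}, Finset.card_pair hne, ?_, ?_⟩
    · intro Z hZ
      simp only [Finset.mem_insert, Finset.mem_singleton] at hZ
      rcases hZ with rfl | rfl <;> assumption
    · intro Z hZ W hW
      simp only [Finset.mem_insert, Finset.mem_singleton] at hZ hW
      rcases hZ with rfl | rfl <;> rcases hW with rfl | rfl <;> simp [h]
  · rintro m ⟨F, hFm, hFc, hF⟩
    by_contra hm
    have h3 : 2 < F.card := by omega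
    obtain ⟨X, hX, Y, hY, Z, hZ, hXY, hXZ, hYZ⟩ := Finset.two_lt_card.mp h3
    rcases Nat.even_or_odd k with he | ho
    · exact hYZ (Even.at_most_two he (by omega) (hFc X hX) (hFc Y hY) (hFc Z hZ) (hF X hX Y hY)
        (hF X hX Z hZ) hXY hXZ)
    · refine hYZ (odd_at_most_two ho ?_ h9 (hFc X hX) (hFc Y hY) (hFc Z hZ) (hF X hX Y hY)
        (hF X hX Z hZ) hXY hXZ)
      obtain ⟨r, hr⟩ := ho
      omega

theorem greatest_two_ne_nine (k : ℕ) (hk : 4 ≤ k) (h9 : k ≠ 9) :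
    IsGreatest {m : ℕ | ∃ F : Finset (Finset ℤ), F.card = m ∧ (∀ X ∈ F, X.card = 2 ^ k) ∧
      ∀ X ∈ F, ∀ Y ∈ F, pairSums X = pairSums Y} 2 :=
  greatest_two k hk fun h => absurd h h9

end Pool.Agent.Lib_MP_e4b855_nt.Tri
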