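import Mathlib

namespace Pool.Agent.Lib_MP_e4b855_nt.Tri

open Finset Polynomial

/-- the radius `p^{-1/w}`, `w = p^{J+1} - p^J - 1` -/
noncomputable def rad (p J : ℕ) : ℝ :=
  (1 / (p : ℝ)) ^ (1 / ((p ^ (J + 1) - p ^ J - 1 : ℕ) : ℝ))

/-- the Gauss norm of radius `p^{-1/w}` in the variable `X - 1` -/
noncomputable def gn (p J : ℕ) [Fact p.Prime] (f : ℚ[X]) : ℝ :=
  (taylor 1 f).gaussNorm (Rat.AbsoluteValue.padic p) (rad p J)

variable {p : ℕ} [Fact p.Prime] (J : ℕ)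

theorem rad_pos (p : ℕ) [hp : Fact p.Prime] (J : ℕ) : 0 < rad p J := by
  unfold rad
  have : (0 : ℝ) < p := by exact_mod_cast hp.out.pos
  positivity

theorem rad_le_one (p : ℕ) [hp : Fact p.Prime] (J : ℕ) : rad p J ≤ 1 := by
  unfold rad
  have h1 : (1 : ℝ) ≤ p := by exact_mod_cast hp.out.one_lt.le
  apply Real.rpow_le_one (by positivity)
  · rw [div_le_one (by positivity)]; exact h1
  · positivity

theorem padic_na (p : ℕ) [Fact p.Prime] : IsNonarchimedean (Rat.AbsoluteValue.padic p) := by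
  intro x y
  simp only [Rat.AbsoluteValue.padic_eq_padicNorm]
  exact_mod_cast padicNorm.nonarchimedean

/-- Piece G6 (`Polynomial.gaussNorm_mul` etc. are in Mathlib) -/
theorem gn_mul (f g : ℚ[X]) : gn p J (f * g) = gn p J f * gn p J g := by
  unfold gn
  rw [taylor_mul, gaussNorm_mul (padic_na p) (rad_pos p J)]

theorem gn_add_le (f g : ℚ[X]) {B : ℝ} (hf : gn p J f ≤ B) (hg : gn p J g ≤ B) :
    gn p J (f + g) ≤ B := by
  unfold gn at *
  rw [map_add]
  exact (isNonarchimedean_gaussNorm _ (padic_na p) (rad_pos p J).le _ _).trans (max_le hf hg)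

theorem gn_C (c : ℚ) : gn p J (C c) = padicNorm p c := by
  unfold gn
  rw [taylor_C, gaussNorm_C, Rat.AbsoluteValue.padic_eq_padicNorm]

theorem gn_sum_le {ι : Type*} (s : Finset ι) (f : ι → ℚ[X]) {B : ℝ} (hB : 0 ≤ B)
    (h : ∀ i ∈ s, gn p J (f i) ≤ B) : gn p J (∑ i ∈ s, f i) ≤ B := by
  classical
  induction s using Finset.induction_on with
  | empty =>
    rw [Finset.sum_empty]
    have : gn p J (0 : ℚ[X]) = 0 := by
      have := gn_C (p := p) J 0
      rw [C_0] at this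
      rw [this]; simp
    rw [this]; exact hB
  | insert a s ha ih =>
    rw [Finset.sum_insert ha]
    exact gn_add_le J _ _ (h a (Finset.mem_insert_self _ _))
      (ih fun i hi => h i (Finset.mem_insert_of_mem hi))

theorem gn_neg (f : ℚ[X]) : gn p J (-f) = gn p J f := by
  have h1 : -f = C (-1) * f := by simp
  rw [h1, gn_mul, gn_C, padicNorm.neg, padicNorm.one]
  simp

theorem gn_pow (f : ℚ[X]) (n : ℕ) : gn p J (f ^ n) = gn p J f ^ n := by
  induction n with
  | zero =>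
    rw [pow_zero, pow_zero, ← C_1, gn_C, padicNorm.one]; simp
  | succ n ih => rw [pow_succ, pow_succ, gn_mul, ih]

theorem gn_X : gn p J (X : ℚ[X]) = 1 := by
  apply le_antisymm
  · unfold gn
    rw [taylor_X]
    refine (isNonarchimedean_gaussNorm _ (padic_na p) (rad_pos p J).le _ _).trans (max_le ?_ ?_)
    · rw [← monomial_one_one_eq_X, gaussNorm_monomial, Rat.AbsoluteValue.padic_eq_padicNorm]
      simpa using rad_le_one p J
    · rw [gaussNorm_C, Rat.AbsoluteValue.padic_eq_padicNorm]; simp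
  · unfold gn
    rw [taylor_X]
    have := le_gaussNorm (Rat.AbsoluteValue.padic p) (X + C 1 : ℚ[X]) (rad_pos p J).le 0
    refine le_trans (le_of_eq ?_) this
    simp [Rat.AbsoluteValue.padic_eq_padicNorm]

theorem gn_X_pow (_hp2 : p ≠ 2) (n : ℕ) : gn p J (X ^ n : ℚ[X]) = 1 := by
  rw [gn_pow, gn_X, one_pow]

theorem gn_nonneg (f : ℚ[X]) : 0 ≤ gn p J f := gaussNorm_nonneg _ _ (rad_pos p J).le

/-- `p`-integral coefficients -/
theorem gn_le_one (hp2 : p ≠ 2) (f : ℚ[X]) (hf : ∀ n, padicNorm p (f.coeff n) ≤ 1) :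
    gn p J f ≤ 1 := by
  rw [f.as_sum_range_C_mul_X_pow]
  refine gn_sum_le J _ _ zero_le_one fun i _ => ?_
  rw [gn_mul, gn_C, gn_X_pow J hp2, mul_one]
  exact_mod_cast hf i

theorem gn_monic_ge {f : ℚ[X]} (hf : f.Monic) : rad p J ^ f.natDegree ≤ gn p J f := by
  unfold gn
  have := le_gaussNorm (Rat.AbsoluteValue.padic p) (taylor 1 f) (rad_pos p J).le f.natDegree
  refine le_trans (le_of_eq ?_) this
  have h1 : (taylor 1 f).coeff f.natDegree = 1 := by
    rw [coeff_taylor_natDegree]; exact hf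
  rw [h1, map_one, one_mul]

theorem rad_pow {Z : ℕ} (hZ : Z < p ^ (J + 1) - p ^ J - 1) :
    1 / (p : ℝ) < rad p J ^ Z := by
  have hp : p.Prime := Fact.out
  have h0 : (0 : ℝ) < p := by exact_mod_cast hp.pos
  have h1 : (1 : ℝ) < p := by exact_mod_cast hp.one_lt
  set w := p ^ (J + 1) - p ^ J - 1 with hw
  have hw0 : (0 : ℝ) < w := by exact_mod_cast (Nat.zero_le _).trans_lt hZ
  unfold rad
  rw [← hw, ← Real.rpow_natCast, ← Real.rpow_mul (by positivity)]
  conv_lhs => rw [← Real.rpow_one (1 / (p : ℝ))]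
  apply Real.rpow_lt_rpow_of_exponent_gt (by positivity)
  · rw [div_lt_one h0]; exact h1
  · rw [one_div, inv_mul_lt_iff₀ hw0, mul_one]
    exact_mod_cast hZ

/-- Piece G6, main: lower bound for the valuation of the leading Taylor coefficient. -/
theorem gauss_bound (hp2 : p ≠ 2) (n0 : ℕ) (n : ℕ → ℕ) (E : ℕ) (F : ℚ[X])
    (hdiv : (X - 1) ^ n0 * ∏ j ∈ Icc 1 J, cyclotomic (p ^ j) ℚ ^ n j ∣ F)
    (hZ : n0 + ∑ j ∈ Icc 1 J, n j * (p ^ j - p ^ (j - 1)) < p ^ (J + 1) - p ^ J - 1)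
    (hG : gn p J F ≤ ((p : ℝ) ^ E)⁻¹) :
    padicNorm p ((taylor 1 F).coeff n0) ≤ ((p : ℚ) ^ (E + ∑ j ∈ Icc 1 J, n j))⁻¹ := by
  have hp : p.Prime := Fact.out
  have h0 : (0 : ℝ) < p := by exact_mod_cast hp.pos
  have h1 : (1 : ℝ) < p := by exact_mod_cast hp.one_lt
  obtain ⟨G, rfl⟩ := hdiv
  set P := ∏ j ∈ Icc 1 J, cyclotomic (p ^ j) ℚ ^ n j with hP
  -- the coefficient
  have hcoef : (taylor 1 ((X - 1) ^ n0 * P * G)).coeff n0 =
      (p : ℚ) ^ (∑ j ∈ Icc 1 J, n j) * G.eval 1 := by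
    have e1 : taylor 1 ((X - 1 : ℚ[X]) ^ n0 * P * G) = X ^ n0 * taylor 1 (P * G) := by
      rw [mul_assoc, taylor_mul, taylor_pow, map_sub, taylor_X]
      congr 2
      simp
    rw [e1, coeff_X_pow_mul', if_pos le_rfl, Nat.sub_self, taylor_coeff_zero, eval_mul]
    congr 1
    rw [hP, eval_prod, ← Finset.prod_pow_eq_pow_sum]
    refine Finset.prod_congr rfl fun j hj => ?_
    obtain ⟨k, rfl⟩ : ∃ k, j = k + 1 := ⟨j - 1, by have := (Finset.mem_Icc.1 hj).1; omega⟩
    rw [eval_pow, eval_one_cyclotomic_prime_pow]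
  -- Gauss norms
  have hPge : ∀ s : Finset ℕ, (∀ j ∈ s, 1 ≤ j) →
      rad p J ^ (∑ j ∈ s, n j * (p ^ j - p ^ (j - 1))) ≤
        gn p J (∏ j ∈ s, cyclotomic (p ^ j) ℚ ^ n j) := by
    classical
    intro s
    induction s using Finset.induction_on with
    | empty =>
      intro _
      rw [Finset.sum_empty, Finset.prod_empty, pow_zero, ← C_1, gn_C, padicNorm.one]; simp
    | insert a s ha ih =>
      intro hs
      rw [Finset.sum_insert ha, Finset.prod_insert ha, gn_mul, pow_add]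
      have i1 := ih fun j hj => hs j (Finset.mem_insert_of_mem hj)
      have ha1 := hs a (Finset.mem_insert_self _ _)
      have i2 : rad p J ^ (n a * (p ^ a - p ^ (a - 1))) ≤ gn p J (cyclotomic (p ^ a) ℚ ^ n a) := by
        rw [gn_pow, mul_comm, pow_mul]
        refine pow_le_pow_left₀ (pow_nonneg (rad_pos p J).le _) ?_ _
        have := gn_monic_ge (p := p) J (cyclotomic.monic (p ^ a) ℚ)
        rw [natDegree_cyclotomic, Nat.totient_prime_pow hp ha1] at this
        have h2 : p ^ (a - 1) * (p - 1) = p ^ a - p ^ (a - 1) := by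
          obtain ⟨b, rfl⟩ : ∃ b, a = b + 1 := ⟨a - 1, by omega⟩
          rw [Nat.add_sub_cancel, pow_succ, Nat.mul_sub, mul_one]
        rwa [h2] at this
      exact mul_le_mul i2 i1 (pow_nonneg (rad_pos p J).le _) (gn_nonneg J _)
  have hX1 : rad p J ^ n0 ≤ gn p J ((X - 1 : ℚ[X]) ^ n0) := by
    rw [gn_pow]
    refine pow_le_pow_left₀ (rad_pos p J).le ?_ _
    have := gn_monic_ge (p := p) J (monic_X_sub_C (1 : ℚ))
    rwa [natDegree_X_sub_C, pow_one, C_1] at this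
  have hPP := hPge (Icc 1 J) fun j hj => (Finset.mem_Icc.1 hj).1
  rw [← hP] at hPP
  set Z := n0 + ∑ j ∈ Icc 1 J, n j * (p ^ j - p ^ (j - 1)) with hZdef
  have hprod : rad p J ^ Z ≤ gn p J ((X - 1) ^ n0 * P) := by
    rw [gn_mul, hZdef, pow_add]
    exact mul_le_mul hX1 hPP (pow_nonneg (rad_pos p J).le _) (gn_nonneg J _)
  have hGge : ((padicNorm p (G.eval 1) : ℚ) : ℝ) ≤ gn p J G := by
    unfold gn
    have := le_gaussNorm (Rat.AbsoluteValue.padic p) (taylor 1 G) (rad_pos p J).le 0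
    rw [taylor_coeff_zero, pow_zero, mul_one, Rat.AbsoluteValue.padic_eq_padicNorm] at this
    exact this
  rw [gn_mul] at hG
  have hrZ := rad_pow (p := p) J hZ
  have hrZ0 : 0 < rad p J ^ Z := pow_pos (rad_pos p J) _
  have hfin : rad p J ^ Z * (padicNorm p (G.eval 1) : ℝ) ≤ ((p : ℝ) ^ E)⁻¹ := by
    refine le_trans (mul_le_mul hprod hGge ?_ (gn_nonneg J _)) hG
    exact_mod_cast padicNorm.nonneg _
  have hGE : padicNorm p (G.eval 1) ≤ ((p : ℚ) ^ E)⁻¹ := by
    by_cases hg : G.eval 1 = 0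
    · rw [hg, padicNorm.zero]; positivity
    · rw [padicNorm.eq_zpow_of_nonzero hg] at hfin ⊢
      set v := padicValRat p (G.eval 1) with hv
      have q0 : (0 : ℝ) < (p : ℝ) ^ (-v) := zpow_pos h0 _
      have q1 : 1 / (p : ℝ) * (p : ℝ) ^ (-v) < ((p : ℝ) ^ E)⁻¹ := by
        have q4 : 1 / (p : ℝ) * (p : ℝ) ^ (-v) < rad p J ^ Z * (p : ℝ) ^ (-v) :=
          mul_lt_mul_of_pos_right hrZ q0
        push_cast at hfin
        exact lt_of_lt_of_le q4 hfin
      have q2 : (p : ℝ) ^ (-v - 1) < (p : ℝ) ^ (-(E : ℤ)) := by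
        rw [zpow_sub₀ h0.ne', zpow_one, zpow_neg _ (E : ℤ), zpow_natCast, div_eq_inv_mul,
          ← one_div]
        exact q1
      have q3 : -v - 1 < -(E : ℤ) := (zpow_lt_zpow_iff_right₀ h1).1 q2
      have h1q : (1 : ℚ) ≤ p := by exact_mod_cast hp.one_lt.le
      rw [← zpow_natCast, ← zpow_neg]
      exact zpow_le_zpow_right₀ h1q (by omega)
  rw [hcoef, padicNorm.mul, pow_add, mul_inv, mul_comm]
  refine mul_le_mul hGE ?_ (padicNorm.nonneg _) (by positivity)
  have hpw : ∀ k : ℕ, padicNorm p ((p : ℚ) ^ k) = ((p : ℚ) ^ k)⁻¹ := by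
    intro k
    induction k with
    | zero => simp
    | succ k ih =>
      rw [pow_succ, padicNorm.mul, ih, padicNorm.padicNorm_p_of_prime, mul_inv]
  rw [hpw]

end Pool.Agent.Lib_MP_e4b855_nt.Tri
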