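import Pool.Agent.Lib_MP_e4b855_nt.Tri.Gauss

namespace Pool.Agent.Lib_MP_e4b855_nt.Tri

open Finset Polynomial

variable {p : ℕ} [Fact p.Prime]

theorem gw_w_pos (hp2 : p ≠ 2) (J : ℕ) : 1 ≤ p ^ (J + 1) - p ^ J - 1 := by
  have hp : p.Prime := Fact.out
  have h3 : 3 ≤ p := by
    have := hp.two_le
    omega
  have h1 : 1 ≤ p ^ J := Nat.one_le_pow _ _ hp.pos
  have h2 : p ^ J * 3 ≤ p ^ J * p := Nat.mul_le_mul_left _ h3
  rw [pow_succ]
  omega

theorem gw_rad_pow_le (hp2 : p ≠ 2) (J : ℕ) {d : ℕ} (hd : p ^ (J + 1) - p ^ J - 1 ≤ d) :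
    rad p J ^ d ≤ (p : ℝ)⁻¹ := by
  have hp : p.Prime := Fact.out
  have h0 : (0 : ℝ) < p := by exact_mod_cast hp.pos
  have h1 : (1 : ℝ) < p := by exact_mod_cast hp.one_lt
  have hw := gw_w_pos (p := p) hp2 J
  set w := p ^ (J + 1) - p ^ J - 1 with hwdef
  have hw0 : (0 : ℝ) < w := by exact_mod_cast hw
  unfold rad
  rw [← hwdef, ← Real.rpow_natCast, ← Real.rpow_mul (by positivity), inv_eq_one_div]
  conv_rhs => rw [← Real.rpow_one (1 / (p : ℝ))]
  apply Real.rpow_le_rpow_of_exponent_ge (by positivity)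
  · rw [div_le_one h0]; exact h1.le
  · rw [one_div, inv_mul_eq_div, le_div_iff₀ hw0, one_mul]
    exact_mod_cast hd

/-- the norm of the image of a polynomial over `ℤ` -/
theorem gw_int (hp2 : p ≠ 2) (J : ℕ) (f : ℤ[X]) : gn p J (f.map (Int.castRingHom ℚ)) ≤ 1 := by
  apply gn_le_one J hp2
  intro n
  rw [coeff_map]
  exact padicNorm.of_int _

theorem gw_taylor (n : ℕ) : taylor 1 (cyclotomic n ℚ) =
    ((cyclotomic n ℤ).comp (X + 1)).map (Int.castRingHom ℚ) := by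
  rw [taylor_apply, Polynomial.map_comp, map_cyclotomic]
  simp

theorem gw_cyc_le_one (hp2 : p ≠ 2) (J n : ℕ) : gn p J (cyclotomic n ℚ) ≤ 1 := by
  have h := gw_int (p := p) hp2 J (cyclotomic n ℤ)
  rwa [map_cyclotomic] at h

theorem gw_cyc_small (hp2 : p ≠ 2) {J j : ℕ} (hJ : J < j) :
    gn p J (cyclotomic (p ^ j) ℚ) ≤ (p : ℝ)⁻¹ := by
  have hp : p.Prime := Fact.out
  obtain ⟨k, rfl⟩ : ∃ k, j = k + 1 := ⟨j - 1, by omega⟩
  unfold gn
  obtain ⟨i, hi⟩ := exists_eq_gaussNorm (Rat.AbsoluteValue.padic p) (rad p J)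
    (taylor 1 (cyclotomic (p ^ (k + 1)) ℚ))
  rw [hi, gw_taylor, coeff_map, Rat.AbsoluteValue.padic_eq_padicNorm]
  set E := (cyclotomic (p ^ (k + 1)) ℤ).comp (X + 1) with hE
  have hEis := cyclotomic_prime_pow_comp_X_add_one_isEisensteinAt p k
  rw [← hE] at hEis
  have hr0 := (rad_pos p J).le
  have hr1 := rad_le_one p J
  have hp0 : (0 : ℝ) < p := by exact_mod_cast hp.pos
  have hmonic : (cyclotomic (p ^ (k + 1)) ℤ).Monic := cyclotomic.monic _ _
  have hdeg : E.natDegree = p ^ k * (p - 1) := by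
    rw [hE, natDegree_comp, show (X + 1 : ℤ[X]) = X + C 1 by simp, natDegree_X_add_C, mul_one,
      natDegree_cyclotomic, Nat.totient_prime_pow hp (Nat.succ_pos k), Nat.succ_sub_one]
  rcases lt_trichotomy i E.natDegree with h | h | h
  · have h1 : (p : ℤ) ∣ E.coeff i := by
      have h2 := hEis.mem h
      rwa [Ideal.submodule_span_eq, Ideal.mem_span_singleton] at h2
    have h3 : padicNorm p ((E.coeff i : ℤ) : ℚ) ≤ (p : ℚ) ^ (-(1 : ℕ) : ℤ) := by
      rw [← padicNorm.dvd_iff_norm_le]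
      simpa using h1
    have h4 : ((padicNorm p (Int.castRingHom ℚ (E.coeff i)) : ℚ) : ℝ) ≤ (p : ℝ)⁻¹ := by
      have h5 : (padicNorm p ((E.coeff i : ℤ) : ℚ) : ℚ) ≤ (p : ℚ)⁻¹ := by
        refine h3.trans (le_of_eq ?_)
        rw [zpow_neg, zpow_natCast, pow_one]
      have h6 : (((padicNorm p ((E.coeff i : ℤ) : ℚ)) : ℚ) : ℝ) ≤ (((p : ℚ)⁻¹ : ℚ) : ℝ) := by
        exact_mod_cast h5
      rw [eq_intCast]
      refine h6.trans (le_of_eq ?_)
      push_cast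
      rfl
    calc ((padicNorm p (Int.castRingHom ℚ (E.coeff i)) : ℚ) : ℝ) * rad p J ^ i
        ≤ (p : ℝ)⁻¹ * 1 := mul_le_mul h4 (pow_le_one₀ hr0 hr1) (pow_nonneg hr0 _) (by positivity)
      _ = (p : ℝ)⁻¹ := mul_one _
  · have h1 : ((padicNorm p (Int.castRingHom ℚ (E.coeff i)) : ℚ) : ℝ) ≤ 1 := by
      rw [eq_intCast]
      exact_mod_cast padicNorm.of_int (p := p) (E.coeff i)
    have h2 : rad p J ^ i ≤ (p : ℝ)⁻¹ := by
      apply gw_rad_pow_le hp2
      rw [h, hdeg]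
      have h3 : p ^ J ≤ p ^ k := Nat.pow_le_pow_right hp.pos (by omega)
      have h4 : p ^ (J + 1) - p ^ J = p ^ J * (p - 1) := by
        rw [pow_succ, Nat.mul_sub, mul_one]
      rw [h4]
      have h5 := Nat.mul_le_mul_right (p - 1) h3
      omega
    calc ((padicNorm p (Int.castRingHom ℚ (E.coeff i)) : ℚ) : ℝ) * rad p J ^ i
        ≤ 1 * (p : ℝ)⁻¹ := mul_le_mul h1 h2 (pow_nonneg hr0 _) zero_le_one
      _ = (p : ℝ)⁻¹ := one_mul _
  · rw [coeff_eq_zero_of_natDegree_lt h]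
    simp only [map_zero, padicNorm.zero, Rat.cast_zero, zero_mul]
    positivity

theorem gw_X_pow_sub_one (hp2 : p ≠ 2) (J r : ℕ) :
    gn p J (X ^ p ^ r - 1 : ℚ[X]) ≤ ((p : ℝ) ^ (r - J))⁻¹ := by
  have hp : p.Prime := Fact.out
  have hp0 : (0 : ℝ) < p := by exact_mod_cast hp.pos
  induction r with
  | zero =>
    have h := gw_int (p := p) hp2 J (X - 1)
    simpa using h
  | succ r ih =>
    rw [← cyclotomic_prime_pow_mul_X_pow_sub_one ℚ p r, gn_mul]
    by_cases hJ : J < r + 1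
    · have h1 := gw_cyc_small (p := p) hp2 hJ
      have h2 : r + 1 - J = (r - J) + 1 := by omega
      rw [h2, pow_succ (p : ℝ) (r - J), mul_inv, mul_comm]
      exact mul_le_mul ih h1 (gn_nonneg J _) (by positivity)
    · have h1 := gw_cyc_le_one (p := p) hp2 J (p ^ (r + 1))
      have h2 : r + 1 - J = r - J := by omega
      rw [h2, ← one_mul ((p : ℝ) ^ (r - J))⁻¹]
      exact mul_le_mul h1 ih (gn_nonneg J _) zero_le_one

omit [Fact p.Prime] in
theorem gw_expand_X (r : ℕ) : expand ℚ (p ^ r) (X - 1) = X ^ p ^ r - 1 := by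
  rw [map_sub, expand_X, map_one]

theorem gw_expand_cyc (r : ℕ) {j : ℕ} (hj : 1 ≤ j) :
    expand ℚ (p ^ r) (cyclotomic (p ^ j) ℚ) = cyclotomic (p ^ (j + r)) ℚ := by
  have hp : p.Prime := Fact.out
  induction r with
  | zero => simp
  | succ r ih =>
    rw [pow_succ, mul_comm, expand_mul, ih,
      cyclotomic_expand_eq_cyclotomic hp (dvd_pow_self p (by omega)) ℚ, ← pow_succ]
    rfl

/-- Piece G7.  `|Φ_{p^j}(x)| = 1/p` for `j > J`, `= r^{φ(p^j)}` for `1 ≤ j ≤ J`, in the Gauss norm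
of radius `r = p^{-1/w}`. -/
theorem gn_expand (hp2 : p ≠ 2) {m J L : ℕ} (hm : 1 ≤ m) (hJL : J ≤ L) (α : ℕ → ℕ)
    (h1 : ∀ j ∈ Icc 1 J, 1 ≤ α j) (P : ℤ[X])
    (hdiv : (X - 1) ^ m * ∏ j ∈ Icc 1 L, cyclotomic (p ^ j) ℤ ^ α j ∣ P) (r : ℕ) :
    gn p J (expand ℚ (p ^ r) (P.map (Int.castRingHom ℚ))) ≤
      ((p : ℝ) ^ (r + ∑ j ∈ Ioc J L, α j))⁻¹ := by
  have hp : p.Prime := Fact.out
  have hp0 : (0 : ℝ) < p := by exact_mod_cast hp.pos
  have hp1 : (1 : ℝ) ≤ p := by exact_mod_cast hp.one_lt.le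
  obtain ⟨G, rfl⟩ := hdiv
  have e1 : expand ℚ (p ^ r) ((((X - 1) ^ m * ∏ j ∈ Icc 1 L, cyclotomic (p ^ j) ℤ ^ α j) * G).map
      (Int.castRingHom ℚ)) = ((X ^ p ^ r - 1) ^ m *
        ∏ j ∈ Icc 1 L, cyclotomic (p ^ (j + r)) ℚ ^ α j) *
        (expand ℤ (p ^ r) G).map (Int.castRingHom ℚ) := by
    rw [Polynomial.map_mul, Polynomial.map_mul, Polynomial.map_pow, Polynomial.map_prod, map_mul,
      map_mul, map_pow, Polynomial.map_sub, map_X, Polynomial.map_one, gw_expand_X, map_prod,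
      map_expand]
    congr 2
    refine Finset.prod_congr rfl fun j hj => ?_
    rw [Polynomial.map_pow, map_cyclotomic, map_pow, gw_expand_cyc r (Finset.mem_Icc.1 hj).1]
  rw [e1, gn_mul, gn_mul, gn_pow]
  have hprod : ∀ s : Finset ℕ, gn p J (∏ j ∈ s, cyclotomic (p ^ (j + r)) ℚ ^ α j) ≤
      ((p : ℝ) ^ (∑ j ∈ s, if J < j + r then α j else 0))⁻¹ := by
    classical
    intro s
    induction s using Finset.induction_on with
    | empty =>
      rw [Finset.prod_empty, Finset.sum_empty, pow_zero, inv_one, ← C_1, gn_C, padicNorm.one]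
      simp
    | insert a s ha ih =>
      rw [Finset.prod_insert ha, Finset.sum_insert ha, gn_mul, gn_pow, pow_add (p : ℝ), mul_inv]
      refine mul_le_mul ?_ ih (gn_nonneg J _) (by positivity)
      split_ifs with hJ
      · rw [← inv_pow]
        exact pow_le_pow_left₀ (gn_nonneg J _) (gw_cyc_small hp2 hJ) _
      · rw [pow_zero, inv_one]
        exact pow_le_one₀ (gn_nonneg J _) (gw_cyc_le_one hp2 J _)
  have hA : gn p J (X ^ p ^ r - 1 : ℚ[X]) ^ m ≤ ((p : ℝ) ^ ((r - J) * m))⁻¹ := by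
    rw [pow_mul, ← inv_pow]
    exact pow_le_pow_left₀ (gn_nonneg J _) (gw_X_pow_sub_one hp2 J r) _
  have hB := hprod (Icc 1 L)
  have hC : gn p J ((expand ℤ (p ^ r) G).map (Int.castRingHom ℚ)) ≤ 1 := gw_int hp2 J _
  have hexp : r + ∑ j ∈ Ioc J L, α j ≤
      (r - J) * m + ∑ j ∈ Icc 1 L, if J < j + r then α j else 0 := by
    have h2 : ∑ j ∈ Icc 1 L, (if J < j + r then α j else 0) =
        (∑ j ∈ Icc 1 J, if J < j + r then α j else 0) +
          ∑ j ∈ Ioc J L, if J < j + r then α j else 0 := by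
      rw [← Finset.sum_union]
      · congr 1
        ext x
        simp only [Finset.mem_union, Finset.mem_Icc, Finset.mem_Ioc]
        omega
      · rw [Finset.disjoint_left]
        intro x hx hx'
        rw [Finset.mem_Icc] at hx
        rw [Finset.mem_Ioc] at hx'
        omega
    have h3 : ∑ j ∈ Ioc J L, (if J < j + r then α j else 0) = ∑ j ∈ Ioc J L, α j := by
      refine Finset.sum_congr rfl fun j hj => ?_
      rw [Finset.mem_Ioc] at hj
      rw [if_pos (by omega)]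
    have h4 : J - (J - r) ≤ ∑ j ∈ Icc 1 J, if J < j + r then α j else 0 := by
      have h5 : (Ioc (J - r) J).card = J - (J - r) := Nat.card_Ioc _ _
      rw [← h5, Finset.card_eq_sum_ones]
      calc ∑ j ∈ Ioc (J - r) J, 1 ≤ ∑ j ∈ Ioc (J - r) J, (if J < j + r then α j else 0) := by
            refine Finset.sum_le_sum fun j hj => ?_
            rw [Finset.mem_Ioc] at hj
            rw [if_pos (by omega)]
            exact h1 j (Finset.mem_Icc.2 ⟨by omega, hj.2⟩)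
        _ ≤ ∑ j ∈ Icc 1 J, (if J < j + r then α j else 0) := by
            refine Finset.sum_le_sum_of_subset fun j hj => ?_
            rw [Finset.mem_Ioc] at hj
            exact Finset.mem_Icc.2 ⟨by omega, hj.2⟩
    have h6 : (r - J) * 1 ≤ (r - J) * m := Nat.mul_le_mul_left _ hm
    rw [h2, h3]
    omega
  calc gn p J (X ^ p ^ r - 1 : ℚ[X]) ^ m *
        gn p J (∏ j ∈ Icc 1 L, cyclotomic (p ^ (j + r)) ℚ ^ α j) *
        gn p J ((expand ℤ (p ^ r) G).map (Int.castRingHom ℚ))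
      ≤ (((p : ℝ) ^ ((r - J) * m))⁻¹ *
          ((p : ℝ) ^ (∑ j ∈ Icc 1 L, if J < j + r then α j else 0))⁻¹) * 1 := by
        refine mul_le_mul (mul_le_mul hA hB (gn_nonneg J _) (by positivity)) hC (gn_nonneg J _)
          (by positivity)
    _ = ((p : ℝ) ^ ((r - J) * m + ∑ j ∈ Icc 1 L, if J < j + r then α j else 0))⁻¹ := by
        rw [mul_one, ← mul_inv, ← pow_add]
    _ ≤ ((p : ℝ) ^ (r + ∑ j ∈ Ioc J L, α j))⁻¹ :=
        inv_anti₀ (by positivity) (pow_le_pow_right₀ hp1 hexp)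

theorem gn_expand_H (hp2 : p ≠ 2) {m J K : ℕ} (hJK : J ≤ K) (H : ℚ[X])
    (hH : ∀ n, padicNorm p (H.coeff n) ≤ 1) :
    gn p J (expand ℚ (p ^ K) ((X - 1) ^ m * H)) ≤ ((p : ℝ) ^ (m * (K - J)))⁻¹ := by
  have hp : p.Prime := Fact.out
  have hp0 : (0 : ℝ) < p := by exact_mod_cast hp.pos
  rw [map_mul, map_pow, gw_expand_X, gn_mul, gn_pow]
  have h1 : gn p J (X ^ p ^ K - 1 : ℚ[X]) ^ m ≤ ((p : ℝ) ^ (m * (K - J)))⁻¹ := by
    rw [mul_comm, pow_mul, ← inv_pow]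
    exact pow_le_pow_left₀ (gn_nonneg J _) (gw_X_pow_sub_one hp2 J K) _
  have h2 : gn p J (expand ℚ (p ^ K) H) ≤ 1 := by
    apply gn_le_one J hp2
    intro n
    rw [coeff_expand (pow_pos hp.pos K)]
    split_ifs
    · exact hH _
    · rw [padicNorm.zero]
      exact zero_le_one
  calc gn p J (X ^ p ^ K - 1 : ℚ[X]) ^ m * gn p J (expand ℚ (p ^ K) H)
      ≤ ((p : ℝ) ^ (m * (K - J)))⁻¹ * 1 := mul_le_mul h1 h2 (gn_nonneg J _) (by positivity)
    _ = ((p : ℝ) ^ (m * (K - J)))⁻¹ := mul_one _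

end Pool.Agent.Lib_MP_e4b855_nt.Tri
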