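import Mathlib

namespace Pool.Agent.Lib_MP_e4b855_nt.Tri

open Finset Polynomial

/-- `p`-integral rationals -/
def G8_R (p : ℕ) [Fact p.Prime] : Subring ℚ where
  carrier := {q | padicNorm p q ≤ 1}
  mul_mem' := by
    intro a b ha hb
    change padicNorm p (a * b) ≤ 1
    rw [padicNorm.mul]
    exact mul_le_one₀ ha (padicNorm.nonneg _) hb
  one_mem' := by
    change padicNorm p 1 ≤ 1
    rw [padicNorm.one]
  add_mem' := by
    intro a b ha hb
    exact le_trans padicNorm.nonarchimedean (max_le ha hb)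
  zero_mem' := by
    change padicNorm p 0 ≤ 1
    rw [padicNorm.zero]
    exact zero_le_one
  neg_mem' := by
    intro a ha
    change padicNorm p (-a) ≤ 1
    rw [padicNorm.neg]
    exact ha

theorem G8_mem {p : ℕ} [Fact p.Prime] (q : ℚ) : q ∈ G8_R p ↔ padicNorm p q ≤ 1 := Iff.rfl

/-- moments -/
noncomputable def G8_mu (k : ℕ) (f : ℚ[X]) : ℚ := f.sum fun n c => c * (n : ℚ) ^ k

theorem G8_add (k : ℕ) (f g : ℚ[X]) : G8_mu k (f + g) = G8_mu k f + G8_mu k g := by
  unfold G8_mu
  exact Polynomial.sum_add_index f g _ (fun n => by simp) (fun n a b => by ring)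

theorem G8_monomial (k n : ℕ) (a : ℚ) : G8_mu k (monomial n a) = a * (n : ℚ) ^ k := by
  unfold G8_mu
  exact Polynomial.sum_monomial_index a _ (by simp)

theorem G8_zero (k : ℕ) : G8_mu k 0 = 0 := by
  unfold G8_mu
  exact Polynomial.sum_zero_index _

theorem G8_C_mul (k : ℕ) (a : ℚ) (f : ℚ[X]) : G8_mu k (C a * f) = a * G8_mu k f := by
  induction f using Polynomial.induction_on' with
  | add f g hf hg => rw [mul_add, G8_add, G8_add, hf, hg, mul_add]
  | monomial n b => rw [C_mul_monomial, G8_monomial, G8_monomial]; ring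

theorem G8_mu_zero (f : ℚ[X]) : G8_mu 0 f = f.eval 1 := by
  induction f using Polynomial.induction_on' with
  | add f g hf hg => rw [G8_add, hf, hg, eval_add]
  | monomial n b => rw [G8_monomial, eval_monomial]; simp

theorem G8_succ (k : ℕ) (f : ℚ[X]) : G8_mu (k + 1) f = G8_mu k (X * derivative f) := by
  induction f using Polynomial.induction_on' with
  | add f g hf hg => rw [G8_add, hf, hg, derivative_add, mul_add, G8_add]
  | monomial n b =>
    rw [G8_monomial, derivative_monomial]
    rcases n with _ | n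
    · simp [G8_zero]
    · rw [Nat.add_sub_cancel, X_mul_monomial, G8_monomial]
      ring

theorem G8_theta (i : ℕ) (G : ℚ[X]) :
    X * derivative ((X - 1) ^ (i + 1) * G) =
      (X - 1) ^ i * (X * (((i + 1 : ℕ) : ℚ[X]) * G + (X - 1) * derivative G)) := by
  rw [derivative_mul, derivative_pow, Nat.add_sub_cancel]
  have h : derivative (X - 1 : ℚ[X]) = 1 := by simp
  rw [h]
  simp only [map_natCast]
  ring

theorem G8_low (k : ℕ) : ∀ (i : ℕ) (G : ℚ[X]), k < i → G8_mu k ((X - 1) ^ i * G) = 0 := by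
  induction k with
  | zero =>
    intro i G hi
    rw [G8_mu_zero, eval_mul, eval_pow]
    simp [hi.ne']
  | succ k ih =>
    intro i G hi
    obtain ⟨i, rfl⟩ : ∃ j, i = j + 1 := ⟨i - 1, by omega⟩
    rw [G8_succ, G8_theta]
    exact ih i _ (by omega)

theorem G8_diag (i : ℕ) : ∀ G : ℚ[X], G8_mu i ((X - 1) ^ i * G) = (i.factorial : ℚ) * G.eval 1 := by
  induction i with
  | zero =>
    intro G
    rw [G8_mu_zero]
    simp
  | succ i ih =>
    intro G
    rw [G8_succ, G8_theta, ih]
    simp only [eval_mul, eval_add, eval_sub, eval_X, eval_one, eval_natCast, sub_self, zero_mul,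
      add_zero, one_mul]
    rw [Nat.factorial_succ]
    push_cast
    ring

theorem G8_int_mul {p : ℕ} [Fact p.Prime] {f g : ℚ[X]} (hf : ∀ n, f.coeff n ∈ G8_R p)
    (hg : ∀ n, g.coeff n ∈ G8_R p) : ∀ n, (f * g).coeff n ∈ G8_R p := by
  intro n
  rw [coeff_mul]
  exact Subring.sum_mem _ fun x _ => (G8_R p).mul_mem (hf _) (hg _)

theorem G8_int_X {p : ℕ} [Fact p.Prime] (i : ℕ) : ∀ n, ((X - 1 : ℚ[X]) ^ i).coeff n ∈ G8_R p := by
  induction i with
  | zero =>
    intro n
    rw [pow_zero, coeff_one]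
    split_ifs
    · exact (G8_R p).one_mem
    · exact (G8_R p).zero_mem
  | succ i ih =>
    rw [pow_succ]
    refine G8_int_mul ih fun n => ?_
    rw [coeff_sub, coeff_X, coeff_one]
    refine (G8_R p).sub_mem ?_ ?_
    · split_ifs
      · exact (G8_R p).one_mem
      · exact (G8_R p).zero_mem
    · split_ifs
      · exact (G8_R p).one_mem
      · exact (G8_R p).zero_mem

theorem G8_int_mu {p : ℕ} [Fact p.Prime] (k : ℕ) {f : ℚ[X]} (hf : ∀ n, f.coeff n ∈ G8_R p) :
    G8_mu k f ∈ G8_R p := by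
  unfold G8_mu
  rw [Polynomial.sum_def]
  exact Subring.sum_mem _ fun n _ =>
    (G8_R p).mul_mem (hf n) ((G8_R p).pow_mem (natCast_mem (G8_R p) n) k)

/-- Piece G8.  A `p`-integral polynomial divisible by `(x-1)^m` with prescribed moments up to
`M < p` (triangular system with diagonal `i!` in the basis `(x-1)^i`). -/
theorem exists_H {p : ℕ} [Fact p.Prime] {m M : ℕ} (hM : M < p) (w : ℕ → ℚ)
    (hw : ∀ k ≤ M, padicNorm p (w k) ≤ 1) (hw0 : ∀ k < m, w k = 0) :
    ∃ H : ℚ[X], (∀ n, padicNorm p (H.coeff n) ≤ 1) ∧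
      ∀ k ≤ M, (((X - 1) ^ m * H).sum fun n c => c * (n : ℚ) ^ k) = w k := by
  have key : ∀ K : ℕ, K ≤ M + 1 → ∃ H : ℚ[X], (∀ n, H.coeff n ∈ G8_R p) ∧
      ∀ k < K, G8_mu k ((X - 1) ^ m * H) = w k := by
    intro K
    induction K with
    | zero =>
      intro _
      exact ⟨0, fun n => by rw [coeff_zero]; exact (G8_R p).zero_mem, fun k hk => absurd hk (by omega)⟩
    | succ K ih =>
      intro hK
      obtain ⟨H, hH1, hH2⟩ := ih (by omega)
      by_cases hKm : K < m
      · refine ⟨H, hH1, fun k hk => ?_⟩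
        rcases Nat.lt_succ_iff_lt_or_eq.1 hk with h | h
        · exact hH2 k h
        · rw [h, G8_low K m H hKm, hw0 K hKm]
      · push Not at hKm
        set a : ℚ := (w K - G8_mu K ((X - 1) ^ m * H)) / (K.factorial : ℚ) with ha
        have hfac : (K.factorial : ℚ) ≠ 0 := by exact_mod_cast K.factorial_ne_zero
        have haR : a ∈ G8_R p := by
          have h1 : w K - G8_mu K ((X - 1) ^ m * H) ∈ G8_R p :=
            (G8_R p).sub_mem (hw K (by omega)) (G8_int_mu K (G8_int_mul (G8_int_X m) hH1))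
          have h2 : padicNorm p (K.factorial : ℚ) = 1 := by
            rw [padicNorm.nat_eq_one_iff]
            rw [(Fact.out : p.Prime).dvd_factorial]
            omega
          rw [G8_mem] at h1 ⊢
          rw [ha, padicNorm.div, h2, div_one]
          exact h1
        refine ⟨H + C a * (X - 1) ^ (K - m), fun n => ?_, fun k hk => ?_⟩
        · rw [coeff_add, coeff_C_mul]
          exact (G8_R p).add_mem (hH1 n) ((G8_R p).mul_mem haR (G8_int_X _ n))
        · have e : (X - 1 : ℚ[X]) ^ m * (H + C a * (X - 1) ^ (K - m)) =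
              (X - 1) ^ m * H + C a * ((X - 1) ^ K * 1) := by
            have : (X - 1 : ℚ[X]) ^ K = (X - 1) ^ m * (X - 1) ^ (K - m) := by
              rw [← pow_add, Nat.add_sub_cancel' hKm]
            rw [this]
            ring
          rw [e, G8_add, G8_C_mul]
          rcases Nat.lt_succ_iff_lt_or_eq.1 hk with h | h
          · rw [hH2 k h, G8_low k K 1 h, mul_zero, add_zero]
          · rw [h, G8_diag, eval_one, mul_one, ha]
            field_simp
            ring
  obtain ⟨H, hH1, hH2⟩ := key (M + 1) le_rfl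
  exact ⟨H, hH1, fun k hk => hH2 k (by omega)⟩

end Pool.Agent.Lib_MP_e4b855_nt.Tri
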