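import Mathlib

namespace Pool.Agent.Lib_MP_e4b855_nt.Tri

open Finset

/-- the gamma factor does not vanish on the right half plane -/
theorem invA_gamma_pos {N : ℕ} (χ : DirichletCharacter ℂ N) {s : ℂ} (hs : 0 < s.re) :
    DirichletCharacter.gammaFactor χ s ≠ 0 := by
  rcases χ.even_or_odd with h | h
  · rw [h.gammaFactor_def]
    exact Complex.Gammaℝ_ne_zero_of_re_pos hs
  · rw [h.gammaFactor_def]
    refine Complex.Gammaℝ_ne_zero_of_re_pos ?_
    rw [Complex.add_re, Complex.one_re]
    linarith

/-- the gamma factor at `1 - k` does not vanish if the parity is `(-1)^k` -/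
theorem invA_gamma_neg {N : ℕ} (χ : DirichletCharacter ℂ N) {k : ℕ}
    (hχ : χ (-1) = (-1) ^ k) :
    DirichletCharacter.gammaFactor χ (1 - k) ≠ 0 := by
  rcases χ.even_or_odd with h | h
  · rw [h.gammaFactor_def, Ne, Complex.Gammaℝ_eq_zero_iff]
    rintro ⟨n, hn⟩
    have h1 : χ (-1) = 1 := h
    rw [hχ] at h1
    have hke : Even k := by
      by_contra hodd
      rw [Nat.not_even_iff_odd] at hodd
      rw [hodd.neg_one_pow] at h1
      norm_num at h1
    obtain ⟨m, hm⟩ := hke
    have h2 : ((1 + 2 * n : ℕ) : ℂ) = ((m + m : ℕ) : ℂ) := by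
      rw [← hm]
      push_cast
      linear_combination hn
    have h3 := Nat.cast_injective h2
    omega
  · rw [h.gammaFactor_def, Ne, Complex.Gammaℝ_eq_zero_iff]
    rintro ⟨n, hn⟩
    have h1 : χ (-1) = -1 := h
    rw [hχ] at h1
    have hke : ¬ Even k := by
      intro he
      rw [he.neg_one_pow] at h1
      norm_num at h1
    rw [Nat.not_even_iff_odd] at hke
    obtain ⟨m, hm⟩ := hke
    have h2 : ((2 + 2 * n : ℕ) : ℂ) = ((2 * m + 1 : ℕ) : ℂ) := by
      rw [← hm]
      push_cast
      linear_combination hn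
    have h3 := Nat.cast_injective h2
    omega

/-- the root number of a primitive character is not zero -/
theorem invA_rootNumber {N : ℕ} [NeZero N] {χ : DirichletCharacter ℂ N} (hp : χ.IsPrimitive) :
    DirichletCharacter.rootNumber χ ≠ 0 := by
  rcases eq_or_ne N 1 with rfl | hN
  · rw [DirichletCharacter.rootNumber_modOne]
    exact one_ne_zero
  · have hχ1 : χ ≠ 1 := by
      intro h
      rw [h, DirichletCharacter.isPrimitive_def, DirichletCharacter.conductor_one] at hp
      exact hN hp.symm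
    intro h0
    have h1 := hp.completedLFunction_one_sub 0
    rw [h0, mul_zero, zero_mul, sub_zero] at h1
    have h2 := χ.LFunction_eq_completed_div_gammaFactor 1 (Or.inr hN)
    rw [h1, zero_div] at h2
    exact DirichletCharacter.LFunction_apply_one_ne_zero hχ1 h2

/-- primitive characters -/
theorem invA_prim {N : ℕ} [NeZero N] {χ : DirichletCharacter ℂ N} (hp : χ.IsPrimitive)
    {k : ℕ} (hk : 0 < k) (hχ : χ (-1) = (-1) ^ k) (hor : χ ≠ 1 ∨ k ≠ 1) :
    DirichletCharacter.LFunction χ (1 - k) ≠ 0 := by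
  have hkc : (k : ℂ) ≠ 1 ∨ k = 1 := by
    by_cases h : k = 1
    · exact Or.inr h
    · refine Or.inl ?_
      intro h'
      exact h (by exact_mod_cast h')
  have hN : (1 - (k : ℂ)) ≠ 0 ∨ N ≠ 1 := by
    rcases hkc with h | h
    · left
      intro h'
      exact h (by linear_combination -h')
    · right
      intro hN1
      subst hN1
      rcases hor with h' | h'
      · exact h' (DirichletCharacter.level_one χ)
      · exact h' h
  have hre : (1 : ℝ) ≤ (k : ℂ).re := by
    rw [Complex.natCast_re]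
    exact_mod_cast hk
  have hinv : χ⁻¹ ≠ 1 ∨ (k : ℂ) ≠ 1 := by
    rcases hor with h | h
    · left
      intro h'
      exact h (inv_eq_one.mp h')
    · right
      intro h'
      exact h (by exact_mod_cast h')
  have hL : DirichletCharacter.LFunction χ⁻¹ (k : ℂ) ≠ 0 :=
    DirichletCharacter.LFunction_ne_zero_of_one_le_re _ hinv hre
  have hk0 : (k : ℂ) ≠ 0 := by exact_mod_cast hk.ne'
  have h1 := χ⁻¹.LFunction_eq_completed_div_gammaFactor (k : ℂ) (Or.inl hk0)
  have hC : DirichletCharacter.completedLFunction χ⁻¹ (k : ℂ) ≠ 0 := by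
    intro h'
    rw [h', zero_div] at h1
    exact hL h1
  rw [χ.LFunction_eq_completed_div_gammaFactor _ hN, hp.completedLFunction_one_sub]
  refine div_ne_zero (mul_ne_zero (mul_ne_zero ?_ (invA_rootNumber hp)) hC)
    (invA_gamma_neg χ hχ)
  rw [Ne, Complex.cpow_eq_zero_iff]
  rintro ⟨h', -⟩
  exact NeZero.ne (N : ℂ) h'

/-- Piece B1a.  `L(1 - k, χ) ≠ 0` for `k ≥ 1`, `χ` mod `p^j` of parity `(-1)^k` (`p` prime). -/
theorem invA_main {p : ℕ} [Fact p.Prime] {j k : ℕ} (hk : 0 < k)
    (χ : DirichletCharacter ℂ (p ^ j)) (hχ : χ (-1) = (-1) ^ k) :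
    DirichletCharacter.LFunction χ (1 - k) ≠ 0 := by
  have hpp : p.Prime := Fact.out
  have hdvd := χ.conductor_dvd_level
  obtain ⟨i, hi, hcond⟩ := (Nat.dvd_prime_pow hpp).mp hdvd
  have hM0 : NeZero χ.conductor := ⟨χ.conductor_ne_zero⟩
  have hprim := χ.primitiveCharacter_isPrimitive
  have hcl := χ.changeLevel_primitiveCharacter
  have hpar : χ.primitiveCharacter (-1) = (-1) ^ k := by
    rw [← hχ]
    have h1 := χ.primitiveCharacter_apply_of_isCoprime (a := -1)
      (by exact isCoprime_one_left.neg_left)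
    push_cast at h1
    exact h1
  have hs : (1 - (k : ℂ)) ≠ 1 := by
    intro h'
    have : (k : ℂ) = 0 := by linear_combination -h'
    exact hk.ne' (by exact_mod_cast this)
  have hor : χ.primitiveCharacter ≠ 1 ∨ k ≠ 1 := by
    by_cases hk1 : k = 1
    · left
      intro h'
      rw [h', hk1, MulChar.one_apply isUnit_one.neg] at hpar
      norm_num at hpar
    · exact Or.inr hk1
  rw [← hcl, DirichletCharacter.LFunction_changeLevel _ _ (Or.inr hs)]
  refine mul_ne_zero (invA_prim hprim hk hpar hor) ?_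
  rw [Finset.prod_ne_zero_iff]
  intro q hq
  have hqp : q = p := by
    have h1 := Nat.prime_of_mem_primeFactors hq
    have h2 := Nat.dvd_of_mem_primeFactors hq
    exact (Nat.prime_dvd_prime_iff_eq h1 hpp).mp (h1.dvd_of_dvd_pow h2)
  subst hqp
  rcases Nat.eq_zero_or_pos i with h0 | hpos
  · have hc1 : χ.conductor = 1 := by rw [hcond, h0, pow_zero]
    have h1 : χ.primitiveCharacter = 1 := DirichletCharacter.level_one' _ hc1
    have hk2 : k ≠ 1 := by
      rcases hor with h' | h'
      · exact absurd h1 h'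
      · exact h'
    have hu : IsUnit (q : ZMod χ.conductor) := by
      rw [ZMod.isUnit_iff_coprime, hc1]
      exact Nat.coprime_one_right q
    rw [h1, MulChar.one_apply hu, one_mul]
    have hexp : -(1 - (k : ℂ)) = ((k - 1 : ℕ) : ℂ) := by
      rw [Nat.cast_sub hk]
      push_cast
      ring
    rw [hexp, Complex.cpow_natCast]
    intro h'
    have h2 : ((q ^ (k - 1) : ℕ) : ℂ) = ((1 : ℕ) : ℂ) := by
      push_cast
      linear_combination -h'
    have h3 := Nat.cast_injective h2
    have h4 : 1 < q ^ (k - 1) := Nat.one_lt_pow (by omega) hpp.one_lt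
    omega
  · have hnu : ¬ IsUnit (q : ZMod χ.conductor) := by
      rw [ZMod.isUnit_iff_coprime, hcond, Nat.coprime_pow_right_iff hpos, Nat.coprime_self]
      exact hpp.one_lt.ne'
    rw [MulChar.map_nonunit _ hnu, zero_mul, sub_zero]
    exact one_ne_zero

end Pool.Agent.Lib_MP_e4b855_nt.Tri
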