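import Pool.Agent.Lib_MP_e4b855_nt.Tri.Lim

/-!
# Generalised Bernoulli numbers and injectivity of the convolution (piece B1b, B1c)
-/

namespace Pool.Agent.Lib_MP_e4b855_nt.Tri

open Finset

/-- the Hurwitz zeta function at `1 - k`, `k ≥ 1`, for `0 < x < 1` -/
theorem invB_hurwitz {k : ℕ} (hk : 0 < k) {x : ℝ} (hx0 : 0 < x) (hx1 : x < 1) :
    HurwitzZeta.hurwitzZeta (x : UnitAddCircle) (1 - k) =
      -1 / k * Polynomial.aeval (x : ℂ) (Polynomial.bernoulli k) := by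
  obtain ⟨m, rfl⟩ : ∃ m, k = m + 1 := ⟨k - 1, by omega⟩
  rcases Nat.eq_zero_or_pos m with rfl | hm
  · have h1 : (1 : ℂ) - ((0 + 1 : ℕ) : ℂ) = 0 := by simp
    rw [h1, hurwitzZeta_zero hx0 hx1, zero_add, Polynomial.bernoulli_one]
    simp only [map_sub, Polynomial.aeval_X, Polynomial.aeval_C, Nat.cast_one]
    rw [map_inv₀, map_ofNat]
    ring
  · have h1 : (1 : ℂ) - ((m + 1 : ℕ) : ℂ) = -(m : ℂ) := by push_cast; ring
    rw [h1, HurwitzZeta.hurwitzZeta_neg_nat hm.ne' ⟨hx0.le, hx1.le⟩,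
      Polynomial.eval_map_algebraMap]
    push_cast
    rfl

/-- a function on the units of `ZMod N` which is orthogonal to all characters vanishes -/
theorem invB_fourier {N : ℕ} [NeZero N] (f : (ZMod N)ˣ → ℂ)
    (h : ∀ χ : DirichletCharacter ℂ N, ∑ c : (ZMod N)ˣ, χ (c : ZMod N) * f c = 0) : f = 0 := by
  classical
  funext a
  have h1 : ∑ χ : DirichletCharacter ℂ N, χ ((a : ZMod N)⁻¹) *
      ∑ c : (ZMod N)ˣ, χ (c : ZMod N) * f c = 0 := by
    refine Finset.sum_eq_zero fun χ _ => ?_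
    rw [h χ, mul_zero]
  have h2 : ∑ χ : DirichletCharacter ℂ N, χ ((a : ZMod N)⁻¹) *
      ∑ c : (ZMod N)ˣ, χ (c : ZMod N) * f c =
      ∑ c : (ZMod N)ˣ, (if (a : ZMod N) = c then (N.totient : ℂ) else 0) * f c := by
    simp only [Finset.mul_sum]
    rw [Finset.sum_comm]
    refine Finset.sum_congr rfl fun c _ => ?_
    rw [← DirichletCharacter.sum_char_inv_mul_char_eq ℂ a.isUnit (c : ZMod N), Finset.sum_mul]
    refine Finset.sum_congr rfl fun χ _ => ?_
    rw [mul_assoc]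
  rw [h2, Finset.sum_eq_single a (fun c _ hc => by
    rw [if_neg (fun e => hc (Units.ext e).symm), zero_mul])
    (fun hn => absurd (Finset.mem_univ a) hn), if_pos rfl] at h1
  have h3 : (N.totient : ℂ) ≠ 0 := by
    exact_mod_cast (Nat.totient_pos.2 (NeZero.pos N)).ne'
  exact (mul_eq_zero.1 h1).resolve_left h3

theorem invB_char_inv {N : ℕ} (χ : DirichletCharacter ℂ N) (s : (ZMod N)ˣ) :
    χ ((s⁻¹ : (ZMod N)ˣ) : ZMod N) = χ⁻¹ (s : ZMod N) := by
  have h1 : χ (s : ZMod N) * χ ((s⁻¹ : (ZMod N)ˣ) : ZMod N) = 1 := by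
    rw [← map_mul, Units.mul_inv, map_one]
  rw [MulChar.inv_apply_eq_inv']
  exact eq_inv_of_mul_eq_one_right h1

/-- convolution and characters -/
theorem invB_conv {N : ℕ} [NeZero N] (b f : (ZMod N)ˣ → ℂ) (χ : DirichletCharacter ℂ N) :
    ∑ c : (ZMod N)ˣ, χ (c : ZMod N) * ∑ s : (ZMod N)ˣ, b s * f (c * s) =
      (∑ s : (ZMod N)ˣ, b s * χ⁻¹ (s : ZMod N)) * ∑ c : (ZMod N)ˣ, χ (c : ZMod N) * f c := by
  have h1 : ∀ s : (ZMod N)ˣ, ∑ c : (ZMod N)ˣ, χ (c : ZMod N) * f (c * s) =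
      χ⁻¹ (s : ZMod N) * ∑ c : (ZMod N)ˣ, χ (c : ZMod N) * f c := by
    intro s
    rw [← Equiv.sum_comp (Equiv.mulRight s) (fun c : (ZMod N)ˣ => χ (c : ZMod N) * f c),
      Finset.mul_sum]
    refine Finset.sum_congr rfl fun c _ => ?_
    show χ (c : ZMod N) * f (c * s) = χ⁻¹ (s : ZMod N) * (χ ((c * s : (ZMod N)ˣ) : ZMod N) * f (c * s))
    have h2 : χ⁻¹ (s : ZMod N) * χ (s : ZMod N) = 1 := by
      rw [← invB_char_inv, ← map_mul, Units.inv_mul, map_one]
    rw [Units.val_mul, map_mul]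
    calc χ (c : ZMod N) * f (c * s) = (χ⁻¹ (s : ZMod N) * χ (s : ZMod N)) * (χ (c : ZMod N) * f (c * s)) := by
          rw [h2, one_mul]
      _ = _ := by ring
  calc ∑ c : (ZMod N)ˣ, χ (c : ZMod N) * ∑ s : (ZMod N)ˣ, b s * f (c * s)
      = ∑ c : (ZMod N)ˣ, ∑ s : (ZMod N)ˣ, b s * (χ (c : ZMod N) * f (c * s)) := by
        refine Finset.sum_congr rfl fun c _ => ?_
        rw [Finset.mul_sum]
        refine Finset.sum_congr rfl fun s _ => ?_
        ring
    _ = ∑ s : (ZMod N)ˣ, b s * ∑ c : (ZMod N)ˣ, χ (c : ZMod N) * f (c * s) := by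
        rw [Finset.sum_comm]
        refine Finset.sum_congr rfl fun s _ => ?_
        rw [Finset.mul_sum]
    _ = _ := by
        rw [Finset.sum_mul]
        refine Finset.sum_congr rfl fun s _ => ?_
        rw [h1, mul_assoc]

/-- Piece B1b -/
theorem invB_bernoulli {N : ℕ} [NeZero N] (hN : 1 < N) {k : ℕ} (hk : 0 < k)
    (χ : DirichletCharacter ℂ N) :
    DirichletCharacter.LFunction χ (1 - k) = - (N : ℂ) ^ (k - 1) / k *
      ∑ s : (ZMod N)ˣ, (Polynomial.aeval (((s : ZMod N).val : ℂ) / N) (Polynomial.bernoulli k)) *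
        χ (s : ZMod N) := by
  have hN0 : (0 : ℝ) < N := by exact_mod_cast NeZero.pos N
  have : Fact (1 < N) := ⟨hN⟩
  unfold DirichletCharacter.LFunction ZMod.LFunction
  have h1 : (N : ℂ) ^ (-(1 - (k : ℂ))) = (N : ℂ) ^ (k - 1) := by
    have e : -(1 - (k : ℂ)) = ((k - 1 : ℕ) : ℂ) := by
      rw [Nat.cast_sub hk]
      push_cast
      ring
    rw [e, Complex.cpow_natCast]
  have h2 : ∑ j : ZMod N, χ j * HurwitzZeta.hurwitzZeta (ZMod.toAddCircle j) (1 - k) =
      ∑ s : (ZMod N)ˣ, χ (s : ZMod N) * (-1 / k *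
        Polynomial.aeval (((s : ZMod N).val : ℂ) / N) (Polynomial.bernoulli k)) := by
    symm
    refine Fintype.sum_of_injective (fun s : (ZMod N)ˣ => (s : ZMod N)) Units.val_injective _ _ ?_ ?_
    · intro j hj
      have : ¬ IsUnit j := fun h => hj ⟨h.unit, rfl⟩
      rw [χ.map_nonunit this, zero_mul]
    · intro s
      have hv : 0 < (s : ZMod N).val := by
        rw [Nat.pos_iff_ne_zero]
        intro e
        exact s.ne_zero ((ZMod.val_eq_zero _).1 e)
      have hx0 : (0 : ℝ) < ((s : ZMod N).val : ℝ) / N := by positivity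
      have hx1 : ((s : ZMod N).val : ℝ) / N < 1 := by
        rw [div_lt_one hN0]
        exact_mod_cast ZMod.val_lt _
      show _ = χ (s : ZMod N) * HurwitzZeta.hurwitzZeta (ZMod.toAddCircle (s : ZMod N)) (1 - k)
      rw [ZMod.toAddCircle_apply, invB_hurwitz hk hx0 hx1]
      push_cast
      rfl
  rw [h1, h2, Finset.mul_sum, Finset.mul_sum]
  refine Finset.sum_congr rfl fun s _ => ?_
  ring

/-- Piece B1c, with the nonvanishing as a hypothesis -/
theorem invB_inj {N : ℕ} [NeZero N] (hN : 1 < N) {k : ℕ} (hk : 0 < k)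
    (hL : ∀ χ : DirichletCharacter ℂ N, χ (-1) = (-1) ^ k →
      DirichletCharacter.LFunction χ (1 - k) ≠ 0)
    (f : (ZMod N)ˣ → ℂ) (hpar : ∀ c, f (-c) = (-1) ^ k * f c)
    (h : ∀ c, ∑ s : (ZMod N)ˣ,
      (Polynomial.aeval (((s : ZMod N).val : ℂ) / N) (Polynomial.bernoulli k)) *
        f (c * s) = 0) : f = 0 := by
  refine invB_fourier f fun χ => ?_
  have hsq : χ (-1) = 1 ∨ χ (-1) = -1 := by
    have : χ (-1) * χ (-1) = 1 := by
      rw [← map_mul]
      simp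
    exact mul_self_eq_one_iff.1 this
  have hpm : ((-1 : ℂ)) ^ k = 1 ∨ ((-1 : ℂ)) ^ k = -1 := neg_one_pow_eq_or ℂ k
  by_cases hp : χ (-1) = (-1) ^ k
  · have h1 := invB_conv (fun s : (ZMod N)ˣ =>
      Polynomial.aeval (((s : ZMod N).val : ℂ) / N) (Polynomial.bernoulli k)) f χ
    simp only [h, mul_zero, Finset.sum_const_zero] at h1
    have h2 : χ⁻¹ (-1) = (-1) ^ k := by
      rw [MulChar.inv_apply_eq_inv', hp]
      rcases hpm with e | e <;> rw [e] <;> norm_num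
    have h3 := hL χ⁻¹ h2
    rw [invB_bernoulli hN hk] at h3
    exact (mul_eq_zero.1 h1.symm).resolve_left (right_ne_zero_of_mul h3)
  · have h1 : ∑ c : (ZMod N)ˣ, χ (c : ZMod N) * f c =
        -∑ c : (ZMod N)ˣ, χ (c : ZMod N) * f c := by
      conv_lhs => rw [← Equiv.sum_comp (Equiv.neg (ZMod N)ˣ)
        (fun c : (ZMod N)ˣ => χ (c : ZMod N) * f c)]
      rw [← Finset.sum_neg_distrib]
      refine Finset.sum_congr rfl fun c _ => ?_
      show χ ((-c : (ZMod N)ˣ) : ZMod N) * f (-c) = -(χ (c : ZMod N) * f c)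
      have h2 : χ (-1) * (-1) ^ k = -1 := by
        rcases hsq with e | e <;> rcases hpm with e' | e' <;> rw [e, e'] at hp ⊢ <;>
          first
            | exact absurd rfl hp
            | norm_num
      have h3 : ((-c : (ZMod N)ˣ) : ZMod N) = -1 * (c : ZMod N) := by
        rw [Units.val_neg, neg_one_mul]
      rw [h3, map_mul, hpar]
      calc χ (-1) * χ (c : ZMod N) * ((-1) ^ k * f c)
          = (χ (-1) * (-1) ^ k) * (χ (c : ZMod N) * f c) := by ring
        _ = _ := by rw [h2]; ring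
    have h2 : (2 : ℂ) * ∑ c : (ZMod N)ˣ, χ (c : ZMod N) * f c = 0 := by
      linear_combination h1
    exact (mul_eq_zero.1 h2).resolve_left two_ne_zero

end Pool.Agent.Lib_MP_e4b855_nt.Tri
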