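import Pool.Agent.Lib_MP_e4b855_nt.Tri.Lim
import Pool.Agent.Lib_MP_e4b855_nt.Tri.InvA
import Pool.Agent.Lib_MP_e4b855_nt.Tri.InvB

namespace Pool.Agent.Lib_MP_e4b855_nt.Tri

open Finset

/-- Piece B1a.  `L(1 - k, χ) ≠ 0` for `k ≥ 1`, `χ` mod `p^j` of parity `(-1)^k` (`p` prime).
Primitive characters: functional equation `DirichletCharacter.completedLFunction_one_sub`,
`LFunction_ne_zero_of_one_le_re`; imprimitive: `LFunction_changeLevel` (the Euler factor at `p` is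
`1` unless `χ` is trivial, when it is `1 - p^{k-1}`, `k ≥ 2` even). -/
theorem LFunction_one_sub_ne_zero {p : ℕ} [Fact p.Prime] {j k : ℕ} (hk : 0 < k)
    (χ : DirichletCharacter ℂ (p ^ j)) (hχ : χ (-1) = (-1) ^ k) :
    DirichletCharacter.LFunction χ (1 - k) ≠ 0 :=
  invA_main hk χ hχ

/-- Piece B1b.  the generalised Bernoulli numbers (`HurwitzZeta.hurwitzZeta_neg_nat` for `k ≥ 2`,
`hurwitzZeta_zero` of `Lim.lean` for `k = 1`) -/
theorem LFunction_eq_bernoulli {N : ℕ} [NeZero N] (hN : 1 < N) {k : ℕ} (hk : 0 < k)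
    (χ : DirichletCharacter ℂ N) :
    DirichletCharacter.LFunction χ (1 - k) = - (N : ℂ) ^ (k - 1) / k *
      ∑ s : (ZMod N)ˣ, (Polynomial.aeval (((s : ZMod N).val : ℂ) / N) (Polynomial.bernoulli k)) *
        χ (s : ZMod N) :=
  invB_bernoulli hN hk χ

/-- Piece B1c.  Injectivity of the convolution with Bernoulli polynomials. -/
theorem inv_bern {p : ℕ} [Fact p.Prime] (hp2 : p ≠ 2) {j k : ℕ} (hj : 0 < j) (hk : 0 < k)
    (f : (ZMod (p ^ j))ˣ → ℂ) (hpar : ∀ c, f (-c) = (-1) ^ k * f c)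
    (h : ∀ c, ∑ s : (ZMod (p ^ j))ˣ,
      (Polynomial.aeval (((s : ZMod (p ^ j)).val : ℂ) / (p ^ j : ℕ)) (Polynomial.bernoulli k)) *
        f (c * s) = 0) : f = 0 := by
  have hp : 1 < p := (Fact.out : p.Prime).one_lt
  exact invB_inj (Nat.one_lt_pow hj.ne' hp) hk (fun χ hχ => LFunction_one_sub_ne_zero hk χ hχ) f hpar h

end Pool.Agent.Lib_MP_e4b855_nt.Tri
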