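import Pool.Agent.Lib_MP_e4b855_nt.Tri.Fe

namespace Pool.Agent.Lib_MP_e4b855_nt.Tri

open PowerSeries Finset

/-- the expansion of a polynomial at `x = ζ e^t` -/
noncomputable def jt (ζ : ℂ) : Polynomial ℚ →ₐ[ℚ] ℂ⟦X⟧ := Polynomial.aeval (C ζ * exp ℂ)

theorem G5_jt_eq (ζ : ℂ) (f : Polynomial ℚ) :
    jt ζ f = f.sum fun n c => C (c : ℂ) * (C ζ * exp ℂ) ^ n := by
  rw [jt, Polynomial.aeval_def, Polynomial.eval₂_eq_sum, Polynomial.sum_def, Polynomial.sum_def]
  refine sum_congr rfl (fun n _ => ?_)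
  rw [PowerSeries.algebraMap_apply]
  rfl

theorem G5_coeff_one_X_mul (V : ℂ⟦X⟧) : coeff 1 (X * V) = constantCoeff V := by
  have h := coeff_succ_X_mul 0 V
  rwa [zero_add, coeff_zero_eq_constantCoeff_apply] at h

theorem jt_X_pow (ζ : ℂ) (n : ℕ) : jt ζ (Polynomial.X ^ n) = C (ζ ^ n) * ee n := by
  rw [map_pow, jt, Polynomial.aeval_X, mul_pow, exp_pow_eq_rescale_exp, map_pow, ee]

/-- Piece G5 -/
theorem coeff_jt (ζ : ℂ) (f : Polynomial ℚ) (k : ℕ) :
    coeff k (jt ζ f) = (f.sum fun n c => (c : ℂ) * ζ ^ n * (n : ℂ) ^ k) / k.factorial := by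
  rw [G5_jt_eq, Polynomial.sum_def, Polynomial.sum_def, map_sum, sum_div]
  refine sum_congr rfl (fun n _ => ?_)
  rw [mul_pow, exp_pow_eq_rescale_exp, ← map_pow]
  have h := coeff_ee (n : ℂ) k
  rw [ee] at h
  rw [coeff_C_mul, coeff_C_mul, h]
  ring

theorem G5_rescale (a : ℂ) (n : ℕ) :
    rescale (n : ℂ) (C a * exp ℂ) = C a * exp ℂ ^ n := by
  rw [exp_pow_eq_rescale_exp]
  ext k
  rw [coeff_rescale, coeff_C_mul, coeff_C_mul, coeff_rescale]
  ring

theorem jt_expand (ζ : ℂ) (n : ℕ) (f : Polynomial ℚ) :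
    jt ζ (Polynomial.expand ℚ n f) = rescale (n : ℂ) (jt (ζ ^ n) f) := by
  rw [jt, Polynomial.expand_aeval, jt, Polynomial.aeval_def, Polynomial.aeval_def,
    Polynomial.hom_eval₂, G5_rescale, mul_pow, ← map_pow]
  have h : (rescale (n : ℂ)).comp (algebraMap ℚ ℂ⟦X⟧) = algebraMap ℚ ℂ⟦X⟧ := Subsingleton.elim _ _
  rw [h]

theorem G5_const (ζ : ℂ) (f : Polynomial ℚ) :
    constantCoeff (jt ζ f) = Polynomial.aeval ζ f := by
  rw [← coeff_zero_eq_constantCoeff_apply, coeff_jt, Polynomial.aeval_def,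
    Polynomial.eval₂_eq_sum]
  simp

theorem G5_coeff_one (ζ : ℂ) (f : Polynomial ℚ) :
    coeff 1 (jt ζ f) = ζ * Polynomial.aeval ζ f.derivative := by
  induction f using Polynomial.induction_on' with
  | add p q hp hq => rw [map_add, map_add, hp, hq, Polynomial.derivative_add, map_add, mul_add]
  | monomial n a =>
    rw [coeff_jt, Polynomial.sum_monomial_index _ _ (by simp), Polynomial.derivative_monomial,
      Polynomial.aeval_monomial]
    rcases n with _ | n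
    · simp
    · simp only [Nat.add_sub_cancel, Nat.factorial_one, Nat.cast_one, div_one, pow_one]
      have : (algebraMap ℚ ℂ) (a * ((n + 1 : ℕ) : ℚ)) = (a : ℂ) * ((n + 1 : ℕ) : ℂ) := by
        rw [map_mul]
        simp
      rw [this, pow_succ]
      ring

theorem jet_cyclotomic_pow_dvd {N : ℕ} (hN : 0 < N) {ζ : ℂ} (hζ : IsPrimitiveRoot ζ N)
    (f : Polynomial ℚ) (μ : ℕ) (h : X ^ μ ∣ jt ζ f) : Polynomial.cyclotomic N ℚ ^ μ ∣ f := by
  have hζ0 : ζ ≠ 0 := hζ.ne_zero hN.ne'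
  have hroot : Polynomial.aeval ζ (Polynomial.cyclotomic N ℚ) = 0 := by
    have h1 : Polynomial.cyclotomic N ℚ = minpoly ℚ ζ :=
      Polynomial.cyclotomic_eq_minpoly_rat hζ hN
    rw [h1, minpoly.aeval]
  have hsep : (Polynomial.cyclotomic N ℚ).Separable :=
    (Polynomial.cyclotomic.irreducible_rat hN).separable
  obtain ⟨V, hV⟩ : X ∣ jt ζ (Polynomial.cyclotomic N ℚ) := by
    rw [X_dvd_iff, G5_const, hroot]
  have hV0 : constantCoeff V ≠ 0 := by
    have h1 : coeff 1 (jt ζ (Polynomial.cyclotomic N ℚ)) = constantCoeff V := by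
      rw [hV, G5_coeff_one_X_mul]
    rw [← h1, G5_coeff_one]
    exact mul_ne_zero hζ0 (hsep.aeval_derivative_ne_zero hroot)
  induction μ with
  | zero => simp
  | succ μ ih =>
    obtain ⟨g, hg⟩ := ih ((pow_dvd_pow _ (Nat.le_succ μ)).trans h)
    rw [hg, map_mul, map_pow, hV, mul_pow, mul_assoc, pow_succ] at h
    have h2 := (mul_dvd_mul_iff_left (pow_ne_zero μ (X_ne_zero : (X : ℂ⟦X⟧) ≠ 0))).mp h
    rw [X_dvd_iff, map_mul, map_pow, mul_eq_zero, G5_const] at h2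
    rcases h2 with h2 | h2
    · exact absurd h2 (pow_ne_zero _ hV0)
    · have h3 : Polynomial.cyclotomic N ℚ ∣ g := by
        rw [Polynomial.cyclotomic_eq_minpoly_rat hζ hN]
        exact minpoly.dvd ℚ ζ h2
      rw [hg, pow_succ]
      exact mul_dvd_mul_left _ h3

theorem G5_X_sub_one_pow_dvd (f : Polynomial ℚ) (n0 : ℕ) (h0 : X ^ n0 ∣ jt 1 f) :
    (Polynomial.X - 1) ^ n0 ∣ f := by
  have := jet_cyclotomic_pow_dvd one_pos IsPrimitiveRoot.one f n0 h0
  rwa [Polynomial.cyclotomic_one] at this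

theorem prod_dvd {p : ℕ} [Fact p.Prime] (f : Polynomial ℚ) (n0 J : ℕ) (n : ℕ → ℕ)
    (h0 : X ^ n0 ∣ jt 1 f)
    (h : ∀ j ∈ Icc 1 J, ∃ ζ : ℂ, IsPrimitiveRoot ζ (p ^ j) ∧ X ^ n j ∣ jt ζ f) :
    (Polynomial.X - 1) ^ n0 * ∏ j ∈ Icc 1 J, Polynomial.cyclotomic (p ^ j) ℚ ^ n j ∣ f := by
  have hp : 1 < p := (Fact.out : p.Prime).one_lt
  refine IsCoprime.mul_dvd ?_ (G5_X_sub_one_pow_dvd f n0 h0) ?_
  · refine IsCoprime.prod_right (fun j hj => IsCoprime.pow ?_)
    have h1 : (1 : ℕ) ≠ p ^ j := by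
      have : 1 < p ^ j := Nat.one_lt_pow (by have := (mem_Icc.mp hj).1; omega) hp
      omega
    have := Polynomial.cyclotomic.isCoprime_rat h1
    rwa [Polynomial.cyclotomic_one] at this
  · refine Finset.prod_dvd_of_coprime ?_ (fun j hj => ?_)
    · intro i _ j _ hij
      refine IsCoprime.pow (Polynomial.cyclotomic.isCoprime_rat ?_)
      intro heq
      exact hij (Nat.pow_right_injective hp heq)
    · obtain ⟨ζ, hζ, hd⟩ := h j hj
      exact jet_cyclotomic_pow_dvd (pow_pos (by omega) j) hζ f (n j) hd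

theorem prod_dvd_int {p : ℕ} [Fact p.Prime] (f : Polynomial ℤ) (n0 J : ℕ) (n : ℕ → ℕ)
    (h0 : X ^ n0 ∣ jt 1 (f.map (Int.castRingHom ℚ)))
    (h : ∀ j ∈ Icc 1 J, ∃ ζ : ℂ, IsPrimitiveRoot ζ (p ^ j) ∧
      X ^ n j ∣ jt ζ (f.map (Int.castRingHom ℚ))) :
    (Polynomial.X - 1) ^ n0 * ∏ j ∈ Icc 1 J, Polynomial.cyclotomic (p ^ j) ℤ ^ n j ∣ f := by
  have h1 := prod_dvd (p := p) (f.map (Int.castRingHom ℚ)) n0 J n h0 h
  have hmonic : ((Polynomial.X - 1) ^ n0 *
      ∏ j ∈ Icc 1 J, Polynomial.cyclotomic (p ^ j) ℤ ^ n j : Polynomial ℤ).Monic := by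
    refine Polynomial.Monic.mul ?_ ?_
    · have : (Polynomial.X - 1 : Polynomial ℤ).Monic := by
        have := Polynomial.monic_X_sub_C (1 : ℤ)
        rwa [map_one] at this
      exact this.pow _
    · exact Polynomial.monic_prod_of_monic _ _ (fun j _ => (Polynomial.cyclotomic.monic _ _).pow _)
  rw [← Polynomial.map_dvd_map (Int.castRingHom ℚ) Int.cast_injective hmonic]
  refine dvd_trans (dvd_of_eq ?_) h1
  rw [Polynomial.map_mul, Polynomial.map_pow, Polynomial.map_sub, Polynomial.map_X,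
    Polynomial.map_one, Polynomial.map_prod]
  congr 1
  refine prod_congr rfl (fun j _ => ?_)
  rw [Polynomial.map_pow, Polynomial.map_cyclotomic]

theorem taylor_coeff (f : Polynomial ℚ) (μ : ℕ) (h : X ^ μ ∣ jt 1 f) :
    coeff μ (jt 1 f) = (((Polynomial.taylor 1 f).coeff μ : ℚ) : ℂ) := by
  obtain ⟨g, hg⟩ := G5_X_sub_one_pow_dvd f μ h
  have h1 : jt 1 (Polynomial.X - 1) = exp ℂ - 1 := by
    rw [map_sub, map_one, jt, Polynomial.aeval_X, map_one, one_mul]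
  obtain ⟨W, hW⟩ : X ∣ (exp ℂ - 1 : ℂ⟦X⟧) := by
    rw [X_dvd_iff, map_sub, constantCoeff_exp]
    simp
  have hW0 : constantCoeff W = 1 := by
    have h2 : coeff 1 (exp ℂ - 1 : ℂ⟦X⟧) = constantCoeff W := by
      rw [hW, G5_coeff_one_X_mul]
    rw [← h2, map_sub, coeff_exp, coeff_one]
    simp
  have h3 : coeff μ (jt 1 f) = constantCoeff (W ^ μ * jt 1 g) := by
    rw [hg, map_mul, map_pow, h1, hW, mul_pow, mul_assoc, coeff_X_pow_mul', if_pos le_rfl,
      Nat.sub_self, coeff_zero_eq_constantCoeff_apply]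
  rw [h3, map_mul, map_pow, hW0, one_pow, one_mul, G5_const]
  have h4 : (Polynomial.taylor 1 f).coeff μ = g.eval 1 := by
    rw [hg, Polynomial.taylor_mul, Polynomial.taylor_pow, map_sub, Polynomial.taylor_X,
      Polynomial.taylor_one]
    simp only [map_one, add_sub_cancel_right]
    rw [Polynomial.coeff_X_pow_mul', if_pos le_rfl, Nat.sub_self, Polynomial.taylor_coeff_zero]
  rw [h4]
  have h5 : Polynomial.aeval (1 : ℂ) g = algebraMap ℚ ℂ (g.eval 1) := by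
    have := Polynomial.aeval_algebraMap_apply_eq_algebraMap_eval (A := ℂ) (1 : ℚ) g
    rwa [map_one] at this
  rw [h5]
  rfl

end Pool.Agent.Lib_MP_e4b855_nt.Tri
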