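import Pool.Agent.Lib_MP_e4b855_nt.Tri.Defs

namespace Pool.Agent.Lib_MP_e4b855_nt.Tri

open Finset Filter Topology

/-- summation by parts -/
lemma lim_parts (a c : ℕ → ℂ) (n : ℕ) :
    ∑ i ∈ range n, c i * a i = c n * ∑ i ∈ range n, a i +
      ∑ i ∈ range n, (c i - c (i + 1)) * ∑ k ∈ range (i + 1), a k := by
  induction n with
  | zero => simp
  | succ n ih =>
    rw [sum_range_succ, ih, sum_range_succ _ n, sum_range_succ (fun i => (c i - c (i + 1)) *
      ∑ k ∈ range (i + 1), a k) n, sum_range_succ a n]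
    ring

/-- the weights -/
noncomputable def limc (s : ℝ) (n : ℕ) : ℝ := if n = 0 then 0 else ((n : ℝ) ^ s)⁻¹

lemma limc_diff_bound {s : ℝ} (hs1 : 1 ≤ s) (hs2 : s ≤ 2) (n : ℕ) :
    |limc s n - limc s (n + 1)| ≤ 4 / ((n : ℝ) + 1) ^ 2 := by
  rcases Nat.eq_zero_or_pos n with rfl | hn
  · simp [limc]
  · have hn0 : n ≠ 0 := hn.ne'
    have hnR : (1 : ℝ) ≤ n := by exact_mod_cast hn
    have hpos : (0 : ℝ) < n := by linarith
    simp only [limc, hn0, if_false, Nat.succ_ne_zero, Nat.cast_add, Nat.cast_one]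
    have hb : 1 - s / ((n : ℝ) + 1) ≤ ((n : ℝ) / (n + 1)) ^ s := by
      have h := one_add_mul_self_le_rpow_one_add (s := -(1 / ((n : ℝ) + 1)))
        (by
          have : 1 / ((n : ℝ) + 1) ≤ 1 := by
            rw [div_le_one (by linarith)]; linarith
          linarith) hs1
      have e : 1 + -(1 / ((n : ℝ) + 1)) = (n : ℝ) / (n + 1) := by field_simp; ring
      rw [e] at h
      calc 1 - s / ((n : ℝ) + 1) = 1 + s * -(1 / ((n : ℝ) + 1)) := by ring
        _ ≤ _ := h
    have hb2 : ((n : ℝ) / (n + 1)) ^ s ≤ 1 :=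
      Real.rpow_le_one (by positivity) (by rw [div_le_one (by linarith)]; linarith) (by linarith)
    have hdiv : ((n : ℝ) / (n + 1)) ^ s = (n : ℝ) ^ s / ((n : ℝ) + 1) ^ s :=
      Real.div_rpow hpos.le (by linarith) s
    have hps : 0 < (n : ℝ) ^ s := Real.rpow_pos_of_pos hpos s
    have hps1 : 0 < ((n : ℝ) + 1) ^ s := Real.rpow_pos_of_pos (by linarith) s
    have hle : (n : ℝ) ≤ (n : ℝ) ^ s := by
      calc (n : ℝ) = (n : ℝ) ^ (1 : ℝ) := (Real.rpow_one _).symm
        _ ≤ (n : ℝ) ^ s := Real.rpow_le_rpow_of_exponent_le hnR hs1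
    have e : ((n : ℝ) ^ s)⁻¹ - (((n : ℝ) + 1) ^ s)⁻¹ =
        ((n : ℝ) ^ s)⁻¹ * (1 - ((n : ℝ) / (n + 1)) ^ s) := by
      rw [hdiv]; field_simp
    rw [e, abs_of_nonneg (mul_nonneg (by positivity) (by linarith))]
    calc ((n : ℝ) ^ s)⁻¹ * (1 - ((n : ℝ) / (n + 1)) ^ s)
        ≤ (n : ℝ)⁻¹ * (2 / ((n : ℝ) + 1)) := by
          apply mul_le_mul
          · exact inv_anti₀ hpos hle
          · have : s / ((n : ℝ) + 1) ≤ 2 / ((n : ℝ) + 1) := by gcongr
            linarith
          · linarith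
          · positivity
      _ ≤ 4 / ((n : ℝ) + 1) ^ 2 := by
          rw [inv_mul_eq_div, div_div, div_le_div_iff₀ (by positivity) (by positivity)]
          nlinarith

lemma limc_tendsto {s : ℝ} (hs : 0 < s) : Tendsto (limc s) atTop (𝓝 0) := by
  have h : Tendsto (fun n : ℕ => ((n : ℝ) ^ s)⁻¹) atTop (𝓝 0) :=
    ((tendsto_rpow_atTop hs).comp tendsto_natCast_atTop_atTop).inv_tendsto_atTop
  refine h.congr' ?_
  filter_upwards [eventually_ge_atTop 1] with n hn
  rw [limc, if_neg (by omega)]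

/-- the partial sums of the powers of a number of absolute value one -/
lemma geom_bound {z : ℂ} (hz : ‖z‖ = 1) (hz1 : z ≠ 1) (n : ℕ) :
    ‖∑ i ∈ range n, z ^ i‖ ≤ 2 / ‖z - 1‖ := by
  rw [geom_sum_eq hz1, norm_div]
  gcongr
  calc ‖z ^ n - 1‖ ≤ ‖z ^ n‖ + ‖(1 : ℂ)‖ := norm_sub_le _ _
    _ = 2 := by rw [norm_pow, hz]; norm_num

/-- the common value -/
noncomputable def limT (z : ℂ) (s : ℝ) : ℂ :=
  ∑' i : ℕ, ((limc s i : ℂ) - limc s (i + 1)) * ∑ k ∈ range (i + 1), z ^ k

lemma limT_term_bound {z : ℂ} (hz : ‖z‖ = 1) (hz1 : z ≠ 1) {s : ℝ} (hs1 : 1 ≤ s) (hs2 : s ≤ 2)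
    (i : ℕ) : ‖((limc s i : ℂ) - limc s (i + 1)) * ∑ k ∈ range (i + 1), z ^ k‖ ≤
      4 / ((i : ℝ) + 1) ^ 2 * (2 / ‖z - 1‖) := by
  rw [norm_mul]
  apply mul_le_mul _ (geom_bound hz hz1 _) (norm_nonneg _) (by positivity)
  rw [← Complex.ofReal_sub, Complex.norm_real]
  exact limc_diff_bound hs1 hs2 i

lemma lim_summable_bound (B : ℝ) : Summable fun i : ℕ => 4 / ((i : ℝ) + 1) ^ 2 * B := by
  apply Summable.mul_right
  have h : Summable fun i : ℕ => 1 / ((i + 1 : ℕ) : ℝ) ^ 2 :=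
    (summable_nat_add_iff 1).mpr (Real.summable_one_div_nat_pow.mpr one_lt_two)
  refine (h.mul_left 4).congr fun i => ?_
  push_cast
  ring

lemma limT_summable {z : ℂ} (hz : ‖z‖ = 1) (hz1 : z ≠ 1) {s : ℝ} (hs1 : 1 ≤ s) (hs2 : s ≤ 2) :
    Summable fun i : ℕ => ((limc s i : ℂ) - limc s (i + 1)) * ∑ k ∈ range (i + 1), z ^ k :=
  Summable.of_norm_bounded (lim_summable_bound _) (limT_term_bound hz hz1 hs1 hs2)

lemma limT_tendsto {z : ℂ} (hz : ‖z‖ = 1) (hz1 : z ≠ 1) {s : ℝ} (hs1 : 1 ≤ s) (hs2 : s ≤ 2) :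
    Tendsto (fun n => ∑ i ∈ range n, (limc s i : ℂ) * z ^ i) atTop (𝓝 (limT z s)) := by
  have h1 := (limT_summable hz hz1 hs1 hs2).hasSum.tendsto_sum_nat
  have h2 : Tendsto (fun n => (limc s n : ℂ) * ∑ i ∈ range n, z ^ i) atTop (𝓝 0) := by
    rw [tendsto_zero_iff_norm_tendsto_zero]
    have h3 : Tendsto (fun n => |limc s n| * (2 / ‖z - 1‖)) atTop (𝓝 0) := by
      have := (limc_tendsto (s := s) (by linarith)).abs.mul_const (2 / ‖z - 1‖)
      simpa using this
    refine squeeze_zero (fun _ => norm_nonneg _) (fun n => ?_) h3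
    rw [norm_mul, Complex.norm_real, Real.norm_eq_abs]
    exact mul_le_mul_of_nonneg_left (geom_bound hz hz1 n) (abs_nonneg _)
  have h4 := h2.add h1
  rw [zero_add] at h4
  refine h4.congr fun n => ?_
  exact (lim_parts (fun i => z ^ i) (fun i => (limc s i : ℂ)) n).symm

/-- continuity of the common value -/
lemma limT_continuous {z : ℂ} (hz : ‖z‖ = 1) (hz1 : z ≠ 1) :
    Tendsto (limT z) (𝓝[>] 1) (𝓝 (limT z 1)) := by
  refine tendsto_tsum_of_dominated_convergence (lim_summable_bound (2 / ‖z - 1‖)) ?_ ?_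
  · intro i
    have hc : ∀ n : ℕ, Tendsto (fun s : ℝ => (limc s n : ℂ)) (𝓝[>] 1) (𝓝 (limc 1 n : ℂ)) := by
      intro n
      have : Continuous fun s : ℝ => limc s n := by
        rcases Nat.eq_zero_or_pos n with rfl | hn
        · simp only [limc, if_true]; exact continuous_const
        · simp only [limc, hn.ne', if_false]
          have hn' : (0 : ℝ) < n := by exact_mod_cast hn
          exact (Real.continuous_const_rpow hn'.ne').inv₀
            fun s => (Real.rpow_pos_of_pos hn' s).ne'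
      exact ((Complex.continuous_ofReal.comp this).tendsto 1).mono_left nhdsWithin_le_nhds
    exact ((hc i).sub (hc (i + 1))).mul_const _
  · have : ∀ᶠ s : ℝ in 𝓝[>] 1, s ∈ Set.Ioo (1 : ℝ) 2 := Ioo_mem_nhdsGT (by norm_num)
    filter_upwards [this] with s hs i
    exact limT_term_bound hz hz1 hs.1.le hs.2.le i

/-- the exponential -/
lemma lim_norm (x : ℝ) : ‖Complex.exp (2 * Real.pi * Complex.I * x)‖ = 1 := by
  rw [show (2 * Real.pi * Complex.I * x : ℂ) = ((2 * Real.pi * x : ℝ) : ℂ) * Complex.I by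
    push_cast; ring]
  exact Complex.norm_exp_ofReal_mul_I _

lemma lim_polar (x : ℝ) : 1 - Complex.exp (2 * Real.pi * Complex.I * x) =
    ((2 * Real.sin (Real.pi * x) : ℝ) : ℂ) *
      Complex.exp (((Real.pi * x - Real.pi / 2 : ℝ) : ℂ) * Complex.I) := by
  have e1 : Complex.exp (((Real.pi * x - Real.pi / 2 : ℝ) : ℂ) * Complex.I) =
      Complex.exp (Real.pi * x * Complex.I) * (-Complex.I) := by
    rw [← Complex.exp_neg_pi_div_two_mul_I, ← Complex.exp_add]
    congr 1; push_cast; ring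
  rw [e1]
  have e2 : Complex.exp (2 * Real.pi * Complex.I * x) =
      Complex.exp (Real.pi * x * Complex.I) * Complex.exp (Real.pi * x * Complex.I) := by
    rw [← Complex.exp_add]; congr 1; ring
  rw [e2]
  push_cast
  rw [Complex.exp_mul_I]
  have hsc := Complex.sin_sq_add_cos_sq (Real.pi * x : ℂ)
  generalize Complex.sin (Real.pi * x : ℂ) = S at *
  generalize Complex.cos (Real.pi * x : ℂ) = K at *
  have hI := Complex.I_sq
  linear_combination (-1) * hsc + S ^ 2 * hI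

lemma lim_sin_pos {x : ℝ} (hx0 : 0 < x) (hx1 : x < 1) : 0 < 2 * Real.sin (Real.pi * x) := by
  have := Real.sin_pos_of_pos_of_lt_pi (x := Real.pi * x) (by positivity)
    (by nlinarith [Real.pi_pos])
  linarith

lemma lim_ne_one {x : ℝ} (hx0 : 0 < x) (hx1 : x < 1) :
    Complex.exp (2 * Real.pi * Complex.I * x) ≠ 1 := by
  intro h
  have h1 := lim_polar x
  rw [h, sub_self] at h1
  have h2 := lim_sin_pos hx0 hx1
  have h3 := mul_ne_zero (Complex.ofReal_ne_zero.mpr h2.ne')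
    (Complex.exp_ne_zero (((Real.pi * x - Real.pi / 2 : ℝ) : ℂ) * Complex.I))
  exact h3 h1.symm

lemma lim_log {x : ℝ} (hx0 : 0 < x) (hx1 : x < 1) :
    Complex.log (1 - Complex.exp (2 * Real.pi * Complex.I * x)) =
      (Real.log (2 * Real.sin (Real.pi * x)) : ℂ) +
        ((Real.pi * x - Real.pi / 2 : ℝ) : ℂ) * Complex.I := by
  rw [lim_polar, Complex.log_ofReal_mul (lim_sin_pos hx0 hx1) (Complex.exp_ne_zero _),
    Complex.log_exp]
  · simp only [Complex.mul_im, Complex.ofReal_re, Complex.I_im, mul_one, Complex.ofReal_im,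
      Complex.I_re, mul_zero, add_zero]
    nlinarith [Real.pi_pos]
  · simp only [Complex.mul_im, Complex.ofReal_re, Complex.I_im, mul_one, Complex.ofReal_im,
      Complex.I_re, mul_zero, add_zero]
    nlinarith [Real.pi_pos]

lemma lim_norm_sub {x : ℝ} (hx0 : 0 < x) (hx1 : x < 1) :
    ‖Complex.exp (2 * Real.pi * Complex.I * x) - 1‖ = 2 * Real.sin (Real.pi * x) := by
  rw [norm_sub_rev, lim_polar, norm_mul, Complex.norm_exp_ofReal_mul_I, mul_one,
    Complex.norm_real, Real.norm_of_nonneg (lim_sin_pos hx0 hx1).le]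

lemma lim_re_pos {x r : ℝ} (hx0 : 0 < x) (hx1 : x < 1) (hr0 : 0 ≤ r) (hr1 : r ≤ 1) :
    0 < (1 - Complex.exp (2 * Real.pi * Complex.I * x) * r).re := by
  have hz := lim_norm x
  have hz1 := lim_ne_one hx0 hx1
  generalize Complex.exp (2 * Real.pi * Complex.I * x) = z at *
  have h1 : z.re ≤ ‖z‖ := Complex.re_le_norm z
  have h2 : z.re ≠ 1 := by
    intro h
    have h3 : z.re ^ 2 + z.im ^ 2 = 1 := by
      have := Complex.sq_norm z
      rw [hz, Complex.normSq_apply] at this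
      nlinarith
    have h4 : z.im = 0 := by
      have : z.im ^ 2 = 0 := by rw [h] at h3; linarith
      exact pow_eq_zero_iff two_ne_zero |>.mp this
    exact hz1 (Complex.ext h h4)
  have h3 : z.re < 1 := lt_of_le_of_ne (hz ▸ h1) h2
  simp only [Complex.sub_re, Complex.one_re, Complex.mul_re, Complex.ofReal_re, Complex.ofReal_im,
    mul_zero, sub_zero]
  rcases le_or_gt z.re 0 with h | h
  · nlinarith
  · nlinarith

/-- the limit from the Abel side -/
lemma limT_one {x : ℝ} (hx0 : 0 < x) (hx1 : x < 1) :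
    limT (Complex.exp (2 * Real.pi * Complex.I * x)) 1 =
      -Complex.log (1 - Complex.exp (2 * Real.pi * Complex.I * x)) := by
  have hz := lim_norm x
  have hz1 := lim_ne_one hx0 hx1
  have hre := fun r => lim_re_pos (r := r) hx0 hx1
  generalize Complex.exp (2 * Real.pi * Complex.I * x) = z at *
  have h1 := limT_tendsto hz hz1 le_rfl one_le_two
  have h2 := Complex.tendsto_tsum_powerSeries_nhdsWithin_lt h1
  rw [tendsto_map'_iff] at h2
  have h3 : Tendsto (fun r : ℝ => -Complex.log (1 - z * r)) (𝓝[<] 1)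
      (𝓝 (-Complex.log (1 - z))) := by
    have hc : ContinuousAt (fun r : ℝ => -Complex.log (1 - z * r)) 1 := by
      apply ContinuousAt.neg
      apply ContinuousAt.clog
      · fun_prop
      · left
        exact hre 1 zero_le_one le_rfl
    have := hc.tendsto.mono_left (nhdsWithin_le_nhds (s := Set.Iio 1))
    simpa using this
  refine tendsto_nhds_unique h2 (h3.congr' ?_)
  have : ∀ᶠ r : ℝ in 𝓝[<] 1, r ∈ Set.Ioo (0 : ℝ) 1 := Ioo_mem_nhdsLT (by norm_num)
  filter_upwards [this] with r hr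
  have hs := Complex.hasSum_taylorSeries_neg_log (z := z * r) (by
    rw [norm_mul, hz, one_mul, Complex.norm_real, Real.norm_of_nonneg hr.1.le]; exact hr.2)
  rw [← hs.tsum_eq]
  simp only [Function.comp]
  refine tsum_congr fun n => ?_
  rcases Nat.eq_zero_or_pos n with rfl | hn
  · simp [limc]
  · rw [limc, if_neg hn.ne', Real.rpow_one, mul_pow]
    push_cast
    rw [div_eq_mul_inv]
    ring

/-- the limit from the zeta side -/
lemma limT_eq {x : ℝ} (hx0 : 0 < x) (hx1 : x < 1) {s : ℝ} (hs1 : 1 < s) (hs2 : s ≤ 2) :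
    limT (Complex.exp (2 * Real.pi * Complex.I * x)) s =
      HurwitzZeta.expZeta (x : UnitAddCircle) s := by
  have h1 := limT_tendsto (lim_norm x) (lim_ne_one hx0 hx1) hs1.le hs2
  have h2 := (HurwitzZeta.hasSum_expZeta_of_one_lt_re x (s := s) (by simpa using hs1)).tendsto_sum_nat
  refine tendsto_nhds_unique h1 (h2.congr fun n => ?_)
  refine sum_congr rfl fun i _ => ?_
  rcases Nat.eq_zero_or_pos i with rfl | hi
  · rw [limc, if_pos rfl]
    have : (s : ℂ) ≠ 0 := by
      rw [Complex.ofReal_ne_zero]; linarith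
    simp [Complex.zero_cpow this]
  · rw [limc, if_neg hi.ne', Complex.ofReal_inv, Complex.ofReal_cpow (Nat.cast_nonneg i),
      ← Complex.exp_nat_mul, div_eq_mul_inv, mul_comm, Complex.ofReal_natCast]
    congr 2
    ring

/-- Piece B3.  Value at `s = 1` of the periodic zeta function: `∑_{r ≥ 1} e(rx)/r = -log(1-e(x))`.
Proof: with `S(n) = ∑_{r ≤ n} e(rx)` bounded, summation by parts gives, for real `s > 1`,
`expZeta x s = ∑ S(n) (n^{-s} - (n+1)^{-s})` and, for `|z| < 1`, `z` real,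
`-log(1 - z e(x)) = ∑ S(n) (z^n/n - z^{n+1}/(n+1))`; both tend to `∑ S(n)/(n(n+1))`.
`expZeta x` is continuous at `1` (`differentiableAt_expZeta`). -/
theorem expZeta_one {x : ℝ} (hx0 : 0 < x) (hx1 : x < 1) :
    HurwitzZeta.expZeta (x : UnitAddCircle) 1 =
      -Complex.log (1 - Complex.exp (2 * Real.pi * Complex.I * x)) := by
  rw [← limT_one hx0 hx1]
  have hx : (x : UnitAddCircle) ≠ 0 := by
    intro h
    rw [AddCircle.coe_eq_zero_iff] at h
    obtain ⟨n, hn⟩ := h
    simp only [zsmul_eq_mul, mul_one] at hn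
    rw [← hn] at hx0 hx1
    have h1 : 0 < n := by exact_mod_cast hx0
    have h2 : n < 1 := by exact_mod_cast hx1
    omega
  have h1 : Tendsto (fun s : ℝ => HurwitzZeta.expZeta (x : UnitAddCircle) s) (𝓝[>] 1)
      (𝓝 (HurwitzZeta.expZeta (x : UnitAddCircle) 1)) := by
    have hc : ContinuousAt (fun s : ℝ => HurwitzZeta.expZeta (x : UnitAddCircle) s) 1 := by
      have h := (HurwitzZeta.differentiableAt_expZeta (x : UnitAddCircle) ((1 : ℝ) : ℂ)
        (Or.inr hx)).continuousAt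
      exact ContinuousAt.comp (f := fun s : ℝ => (s : ℂ)) h Complex.continuous_ofReal.continuousAt
    have := hc.tendsto.mono_left (nhdsWithin_le_nhds (s := Set.Ioi 1))
    simpa using this
  refine tendsto_nhds_unique h1 ((limT_continuous (lim_norm x) (lim_ne_one hx0 hx1)).congr' ?_)
  have : ∀ᶠ s : ℝ in 𝓝[>] 1, s ∈ Set.Ioo (1 : ℝ) 2 := Ioo_mem_nhdsGT (by norm_num)
  filter_upwards [this] with s hs
  exact limT_eq hx0 hx1 hs.1 hs.2.le

lemma expZeta_neg_one {x : ℝ} (hx0 : 0 < x) (hx1 : x < 1) :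
    HurwitzZeta.expZeta (-(x : UnitAddCircle)) 1 =
      -((Real.log (2 * Real.sin (Real.pi * x)) : ℂ) -
        ((Real.pi * x - Real.pi / 2 : ℝ) : ℂ) * Complex.I) := by
  have h1 : -(x : UnitAddCircle) = ((1 - x : ℝ) : UnitAddCircle) := by
    rw [AddCircle.coe_sub, AddCircle.coe_period, zero_sub]
  rw [h1, expZeta_one (by linarith) (by linarith), lim_log (by linarith) (by linarith)]
  have h2 : Real.sin (Real.pi * (1 - x)) = Real.sin (Real.pi * x) := by
    rw [← Real.sin_pi_sub (Real.pi * x)]; congr 1; ring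
  rw [h2]
  push_cast
  ring

/-- consequence via `HurwitzZeta.hurwitzZeta_one_sub` at `s = 1` -/
theorem hurwitzZeta_zero {x : ℝ} (hx0 : 0 < x) (hx1 : x < 1) :
    HurwitzZeta.hurwitzZeta (x : UnitAddCircle) 0 = 1 / 2 - x := by
  have hx : (x : UnitAddCircle) ≠ 0 := by
    intro h
    rw [AddCircle.coe_eq_zero_iff] at h
    obtain ⟨n, hn⟩ := h
    simp only [zsmul_eq_mul, mul_one] at hn
    rw [← hn] at hx0 hx1
    have h1 : 0 < n := by exact_mod_cast hx0
    have h2 : n < 1 := by exact_mod_cast hx1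
    omega
  have h := HurwitzZeta.hurwitzZeta_one_sub (x : UnitAddCircle) (s := 1) (by
    intro n h
    have := congrArg Complex.re h
    simp at this
    have hn : (0 : ℝ) ≤ n := Nat.cast_nonneg n
    linarith) (Or.inl hx)
  rw [sub_self] at h
  rw [h, expZeta_neg_one hx0 hx1, expZeta_one hx0 hx1, lim_log hx0 hx1, Complex.Gamma_one]
  have e1 : Complex.exp (-Real.pi * Complex.I * 1 / 2) = -Complex.I := by
    rw [show (-Real.pi * Complex.I * 1 / 2 : ℂ) = -Real.pi / 2 * Complex.I by ring]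
    exact Complex.exp_neg_pi_div_two_mul_I
  have e2 : Complex.exp (Real.pi * Complex.I * 1 / 2) = Complex.I := by
    rw [show (Real.pi * Complex.I * 1 / 2 : ℂ) = Real.pi / 2 * Complex.I by ring]
    exact Complex.exp_pi_div_two_mul_I
  rw [e1, e2, Complex.cpow_neg_one]
  have hpi : (Real.pi : ℂ) ≠ 0 := Complex.ofReal_ne_zero.mpr Real.pi_ne_zero
  push_cast
  field_simp
  have hI := Complex.I_sq
  ring_nf
  rw [hI]
  ring

/-- value at `s = 1`: `∑_{r ≥ 1} (e(jr/N) + e(-jr/N)) / r = -2 log |1 - e(j/N)|`. -/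
theorem LFunction_cos_one {N : ℕ} [NeZero N] (j : ZMod N) (hj : j ≠ 0) :
    ZMod.LFunction (fun r : ZMod N => ZMod.stdAddChar (j * r) + ZMod.stdAddChar (-(j * r))) 1 =
      -2 * (Real.log ‖ZMod.stdAddChar j - 1‖ : ℂ) := by
  have hadd : ∀ Φ Ψ : ZMod N → ℂ, ∀ s : ℂ, ZMod.LFunction (fun r => Φ r + Ψ r) s =
      ZMod.LFunction Φ s + ZMod.LFunction Ψ s := by
    intro Φ Ψ s
    simp only [ZMod.LFunction, add_mul, sum_add_distrib, mul_add]
  rw [hadd]
  have h2 : (fun r : ZMod N => (ZMod.stdAddChar (-(j * r)) : ℂ)) =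
      fun r => (ZMod.stdAddChar (-j * r) : ℂ) := by
    funext r; rw [neg_mul]
  rw [h2, ZMod.LFunction_stdAddChar_eq_expZeta j 1 (Or.inl hj),
    ZMod.LFunction_stdAddChar_eq_expZeta (-j) 1 (Or.inl (neg_ne_zero.mpr hj)), map_neg,
    ZMod.toAddCircle_apply]
  have hN : (0 : ℝ) < N := by exact_mod_cast NeZero.pos N
  have hjv : 0 < j.val := Nat.pos_of_ne_zero (by rwa [Ne, ZMod.val_eq_zero])
  have hx0 : 0 < (j.val : ℝ) / N := by
    have : (0 : ℝ) < j.val := by exact_mod_cast hjv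
    positivity
  have hx1 : (j.val : ℝ) / N < 1 := by
    rw [div_lt_one hN]; exact_mod_cast ZMod.val_lt j
  rw [expZeta_neg_one hx0 hx1, expZeta_one hx0 hx1, lim_log hx0 hx1]
  have h3 : (ZMod.stdAddChar j : ℂ) =
      Complex.exp (2 * Real.pi * Complex.I * (((j.val : ℝ) / N : ℝ) : ℂ)) := by
    rw [ZMod.stdAddChar_apply, ZMod.toCircle_apply]
    congr 1; push_cast; ring
  rw [h3, lim_norm_sub hx0 hx1]
  ring

end Pool.Agent.Lib_MP_e4b855_nt.Tri
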