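import Pool.Agent.Lib_MP_e4b855_nt.Tri.Trip2
import Pool.Agent.Lib_MP_e4b855_nt.Tri.Ldf

namespace Pool.Agent.Lib_MP_e4b855_nt.Tri

open PowerSeries Finset

namespace Trip

variable {m : ℕ} (T : Trip m)

/-- Piece A7.  `bernoulli k ≠ 0` for even `k`. -/
theorem bernoulli_ne_zero {k : ℕ} (hk : Even k) : _root_.bernoulli k ≠ 0 := by
  obtain ⟨j, hj⟩ := hk
  rcases Nat.eq_zero_or_pos j with h0 | h0
  · subst h0
    simp only [add_zero] at hj
    subst hj
    rw [_root_.bernoulli_zero]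
    exact one_ne_zero
  · have h2 : k = 2 * j := by omega
    subst h2
    intro hb
    have hs := hasSum_zeta_nat (k := j) (by omega)
    rw [hb] at hs
    have hle := le_hasSum hs 1 (fun n _ => by positivity)
    norm_num at hle

private theorem one_coeff_DQ (i : ZMod 3) {k : ℕ} (hk : k < m) :
    coeff k (T.D i 1 1 * (T.Q (i + 1) 1 1)⁻¹) = 0 := by
  rw [PowerSeries.coeff_mul]
  refine Finset.sum_eq_zero fun p hp => ?_
  rw [Finset.HasAntidiagonal.mem_antidiagonal] at hp
  rw [T.coeff_D_one_lt i 1 (by omega), zero_mul]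

private theorem one_coeff_DQ_m (i : ZMod 3) :
    coeff m (T.D i 1 1 * (T.Q (i + 1) 1 1)⁻¹) = (T.del i : ℂ) * (2 ^ m)⁻¹ := by
  rw [PowerSeries.coeff_mul, Finset.sum_eq_single (m, 0)]
  · rw [T.coeff_D_one i one_ne_zero, one_pow, mul_one, PowerSeries.coeff_zero_eq_constantCoeff_apply,
      PowerSeries.constantCoeff_inv, T.Q_one (i + 1) 1]
  · intro p hp hne
    rw [Finset.HasAntidiagonal.mem_antidiagonal] at hp
    have hlt : p.1 < m := by
      rcases Nat.lt_or_ge p.1 m with h | h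
      · exact h
      · exfalso
        apply hne
        ext
        · simp only; omega
        · simp only; omega
    rw [T.coeff_D_one_lt i 1 hlt, zero_mul]
  · intro h
    exact absurd (Finset.HasAntidiagonal.mem_antidiagonal.mpr (by simp)) h

private theorem one_coeff_G (i : ZMod 3) {k : ℕ} (hk : k < m) :
    coeff k (T.G i 1) = if k = 0 then 1 else 0 := by
  rw [T.G_eq i odd_one IsPrimitiveRoot.one, map_add, one_coeff_DQ T i hk, add_zero, PowerSeries.coeff_one]

private theorem one_coeff_G_m (i : ZMod 3) :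
    coeff m (T.G i 1) = (T.del i : ℂ) * (2 ^ m)⁻¹ := by
  have hm := T.hm
  rw [T.G_eq i odd_one IsPrimitiveRoot.one, map_add, one_coeff_DQ_m T i, PowerSeries.coeff_one,
    if_neg (by omega), zero_add]

private theorem one_coeff_XG (i : ZMod 3) (k : ℕ) :
    coeff k (X * d⁄dX ℂ (T.G i 1)) = coeff k (T.G i 1) * k := by
  cases k with
  | zero => simp
  | succ n =>
    rw [PowerSeries.coeff_succ_X_mul, PowerSeries.coeff_derivative]
    push_cast
    rfl

private theorem one_ldf (i : ZMod 3) :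
    X * d⁄dX ℂ (T.G i 1) = LamS 1 (T.v i) 1 * T.G i 1 := by
  obtain ⟨c, a, hc, ha, hG⟩ := T.G_FF i odd_one IsPrimitiveRoot.one
  have hc0 : c ≠ 0 := by
    rintro rfl
    rw [norm_zero] at hc
    exact zero_ne_one hc
  exact ldf Nat.one_pos (T.v i) (T.v_zero i) (one_pow 1) (T.G i 1) hc0 ha hG

private theorem one_Lam (v : ℕ →₀ ℤ) (k : ℕ) :
    Lam 1 k v 1 = ((_root_.bernoulli k : ℂ) + if k = 1 then 1 / 2 else 0) *
      (v.sum fun n c => (c : ℂ) * (n : ℂ) ^ k) := by
  unfold Lam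
  rw [Finsupp.mul_sum]
  refine Finsupp.sum_congr fun n _ => ?_
  rw [one_pow, bk_one Nat.one_pos]
  ring

private theorem one_coeff_LamS (v : ℕ →₀ ℤ) (k : ℕ) :
    coeff k (LamS 1 v 1) = Lam 1 k v 1 / k.factorial := by
  unfold LamS
  rw [PowerSeries.coeff_mk]

private theorem one_LamG (i : ZMod 3) {k : ℕ} (hk : k < m) :
    coeff k (LamS 1 (T.v i) 1 * T.G i 1) = coeff k (LamS 1 (T.v i) 1) := by
  rw [PowerSeries.coeff_mul, Finset.sum_eq_single (k, 0)]
  · rw [one_coeff_G T i (by omega), if_pos rfl, mul_one]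
  · intro p hp hne
    rw [Finset.HasAntidiagonal.mem_antidiagonal] at hp
    have h0 : p.2 ≠ 0 := by
      intro h
      apply hne
      ext
      · simp only; omega
      · simp only; omega
    rw [one_coeff_G T i (k := p.2) (by omega), if_neg h0, mul_zero]
  · intro h
    exact absurd (Finset.HasAntidiagonal.mem_antidiagonal.mpr (by simp)) h

private theorem one_Lam_zero (i : ZMod 3) {k : ℕ} (hk : k < m) : Lam 1 k (T.v i) 1 = 0 := by
  have h := congrArg (coeff k) (one_ldf T i)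
  rw [one_coeff_XG, one_LamG T i hk, one_coeff_G T i hk, one_coeff_LamS] at h
  have hf : ((k.factorial : ℕ) : ℂ) ≠ 0 := by exact_mod_cast k.factorial_ne_zero
  have h2 : Lam 1 k (T.v i) 1 / k.factorial = 0 := by
    rw [← h]
    by_cases hk0 : k = 0
    · subst hk0; simp
    · rw [if_neg hk0, zero_mul]
  rcases div_eq_zero_iff.mp h2 with h3 | h3
  · exact h3
  · exact absurd h3 hf

private theorem one_Lam_m (i : ZMod 3) :
    Lam 1 m (T.v i) 1 / m.factorial = (T.del i : ℂ) * (2 ^ m)⁻¹ * m := by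
  have hm := T.hm
  have h := congrArg (coeff m) (one_ldf T i)
  rw [one_coeff_XG, one_coeff_G_m T i] at h
  rw [h, PowerSeries.coeff_mul, Finset.sum_eq_single (m, 0)]
  · rw [one_coeff_G T i (by omega), if_pos rfl, mul_one, one_coeff_LamS]
  · intro p hp hne
    rw [Finset.HasAntidiagonal.mem_antidiagonal] at hp
    have h0 : p.2 ≠ 0 := by
      intro h
      apply hne
      ext
      · simp only; omega
      · simp only; omega
    by_cases h1 : p.2 = m
    · have h2 : p.1 = 0 := by omega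
      rw [h2, one_coeff_LamS, one_Lam_zero T i (by omega), zero_div, zero_mul]
    · rw [one_coeff_G T i (k := p.2) (by omega), if_neg h0, mul_zero]
  · intro h
    exact absurd (Finset.HasAntidiagonal.mem_antidiagonal.mpr (by simp)) h

/-- moments at `1` below `m` vanish: from `t G_i' = LamS 1 (v_i) 1 · G_i`,
`G_i = 1 + D_i / Q_{i+1}`, the coefficient of `t^k` in `LamS 1 v 1` is
`B_k / k! · ∑ v_n n^k` (`k ≠ 1`). -/
theorem mom_zero (i : ZMod 3) {k : ℕ} (hk : k < m) : Pk (T.v i) k 1 = 0 := by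
  have hP : Pk (T.v i) k 1 = (1 + (-1) ^ k) * ((T.v i).sum fun n c => (c : ℂ) * (n : ℂ) ^ k) := by
    unfold Pk
    rw [Finsupp.mul_sum]
    refine Finsupp.sum_congr fun n _ => ?_
    rw [one_pow, inv_one, mul_one]
    ring
  rw [hP]
  rcases Nat.even_or_odd k with he | ho
  · have h1 := one_Lam_zero T i hk
    rw [one_Lam] at h1
    have hk1 : k ≠ 1 := by
      rintro rfl
      exact absurd he (by decide)
    rw [if_neg hk1, add_zero] at h1
    have hb : ((_root_.bernoulli k : ℚ) : ℂ) ≠ 0 := by exact_mod_cast bernoulli_ne_zero he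
    rcases mul_eq_zero.mp h1 with h2 | h2
    · exact absurd h2 hb
    · rw [h2, mul_zero]
  · rw [ho.neg_one_pow]
    ring

theorem mom_m (i : ZMod 3) :
    _root_.bernoulli m * 2 ^ m * ((T.v i).sum fun n c => (c : ℚ) * (n : ℚ) ^ m) =
      m * m.factorial * T.del i := by
  have hm := T.hm
  have h := one_Lam_m T i
  rw [one_Lam, if_neg (by omega), add_zero] at h
  have hf : ((m.factorial : ℕ) : ℂ) ≠ 0 := by exact_mod_cast m.factorial_ne_zero
  have h2 : ((2 : ℂ) ^ m) ≠ 0 := pow_ne_zero _ two_ne_zero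
  have h3 : ((_root_.bernoulli m : ℚ) : ℂ) * 2 ^ m * ((T.v i).sum fun n c => (c : ℂ) * (n : ℂ) ^ m) =
      m * m.factorial * (T.del i : ℂ) := by
    rw [div_eq_iff hf] at h
    calc ((_root_.bernoulli m : ℚ) : ℂ) * 2 ^ m * ((T.v i).sum fun n c => (c : ℂ) * (n : ℂ) ^ m)
        = 2 ^ m * (((_root_.bernoulli m : ℚ) : ℂ) * ((T.v i).sum fun n c => (c : ℂ) * (n : ℂ) ^ m)) := by ring
      _ = 2 ^ m * ((T.del i : ℂ) * (2 ^ m)⁻¹ * m * m.factorial) := by rw [h]
      _ = (2 ^ m * (2 ^ m)⁻¹) * (m * m.factorial * (T.del i : ℂ)) := by ring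
      _ = m * m.factorial * (T.del i : ℂ) := by rw [mul_inv_cancel₀ h2, one_mul]
  have h4 : (((_root_.bernoulli m * 2 ^ m * ((T.v i).sum fun n c => (c : ℚ) * (n : ℚ) ^ m) : ℚ)) : ℂ) =
      ((m * m.factorial * T.del i : ℚ) : ℂ) := by
    unfold Finsupp.sum at h3 ⊢
    push_cast
    exact h3
  exact_mod_cast h4

end Trip

end Pool.Agent.Lib_MP_e4b855_nt.Tri
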