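import Pool.Agent.Lib_MP_e4b855_nt.Tri.Ratio
import Pool.Agent.Lib_MP_e4b855_nt.Tri.Ldf
import Pool.Agent.Lib_MP_e4b855_nt.Tri.One

namespace Pool.Agent.Lib_MP_e4b855_nt.Tri

open PowerSeries Finset

theorem LR_dvd_deriv {n : ℕ} {F : ℂ⟦X⟧} (h : X ^ n ∣ F) : X ^ n ∣ X * d⁄dX ℂ F := by
  rw [X_pow_dvd_iff] at h ⊢
  intro k hk
  cases k with
  | zero => simp
  | succ j =>
    rw [coeff_succ_X_mul, coeff_derivative, h (j + 1) hk, zero_mul]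

theorem LR_coeff_Xd (F : ℂ⟦X⟧) (k : ℕ) : coeff k (X * d⁄dX ℂ F) = coeff k F * k := by
  cases k with
  | zero => simp
  | succ n =>
    rw [coeff_succ_X_mul, coeff_derivative]
    push_cast
    rfl

theorem LR_dvd_of_mul_unit {n : ℕ} {L F : ℂ⟦X⟧} (hF : constantCoeff F ≠ 0)
    (h : X ^ n ∣ L * F) : X ^ n ∣ L := by
  have h1 : L = L * F * F⁻¹ := by
    rw [mul_assoc, PowerSeries.mul_inv_cancel F hF, mul_one]
  rw [h1]
  exact h.mul_right _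

/-- product of two series of order at least `n`: the coefficient at `2 n` -/
theorem LR_coeff_mul {n : ℕ} {F F' : ℂ⟦X⟧} (h : X ^ n ∣ F) (h' : X ^ n ∣ F') :
    coeff (2 * n) (F * F') = coeff n F * coeff n F' := by
  obtain ⟨A, rfl⟩ := h
  obtain ⟨B, rfl⟩ := h'
  have e1 : (X ^ n * A * (X ^ n * B) : ℂ⟦X⟧) = X ^ (2 * n) * (A * B) := by
    rw [two_mul, pow_add]; ring
  have e2 : ∀ (j : ℕ) (E : ℂ⟦X⟧), coeff j (X ^ j * E) = constantCoeff E := by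
    intro j E
    have := coeff_X_pow_mul E j 0
    rw [zero_add] at this
    rw [this, coeff_zero_eq_constantCoeff_apply]
  rw [e1, e2, e2, e2, map_mul]

/-- the coefficient of lowest order of a product -/
theorem LR_coeff_mul_unit {n : ℕ} {F E : ℂ⟦X⟧} (h : X ^ n ∣ F) :
    coeff n (F * E) = coeff n F * constantCoeff E := by
  obtain ⟨A, rfl⟩ := h
  have e2 : ∀ (j : ℕ) (E : ℂ⟦X⟧), coeff j (X ^ j * E) = constantCoeff E := by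
    intro j E
    have := coeff_X_pow_mul E j 0
    rw [zero_add] at this
    rw [this, coeff_zero_eq_constantCoeff_apply]
  rw [mul_assoc, e2, e2, map_mul]

namespace Trip

variable {m : ℕ} (T : Trip m)

theorem LR_dvd_D (i : ZMod 3) {N : ℕ} (hN : Odd N) {μ : ℕ} (hμ : ∀ l, T.al l N = μ) {ζ : ℂ}
    (hζ : IsPrimitiveRoot ζ N) : X ^ μ ∣ T.D i ζ 1 := by
  obtain ⟨U, -, -, hU⟩ := T.D_lead i hN.pos hζ (one_ne_zero : (1 : ℂ) ≠ 0)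
  rw [hU, hμ i]
  exact dvd_mul_right _ _

/-- the differential equation for `G_i` in terms of `F = D_i / Q_{i+1}` -/
theorem LR_ode (i : ZMod 3) {N : ℕ} (hN : Odd N) {ζ : ℂ} (hζ : IsPrimitiveRoot ζ N) :
    X * d⁄dX ℂ (T.D i ζ 1 * (T.Q (i + 1) ζ 1)⁻¹) =
      LamS N (T.v i) ζ * (1 + T.D i ζ 1 * (T.Q (i + 1) ζ 1)⁻¹) := by
  obtain ⟨c, a, hc, ha, hG⟩ := T.G_FF i hN hζ
  have hc0 : c ≠ 0 := by
    rintro rfl
    rw [norm_zero] at hc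
    exact zero_ne_one hc
  have h := ldf hN.pos (T.v i) (T.v_zero i) hζ.pow_eq_one (T.G i ζ) hc0 ha hG
  rw [T.G_eq i hN hζ] at h
  rw [← h, map_add, Derivation.map_one_eq_zero, zero_add]

theorem LR_dvd_F (i : ZMod 3) {N : ℕ} (hN : Odd N) {μ : ℕ} (hμ : ∀ l, T.al l N = μ) {ζ : ℂ}
    (hζ : IsPrimitiveRoot ζ N) : X ^ μ ∣ T.D i ζ 1 * (T.Q (i + 1) ζ 1)⁻¹ :=
  (T.LR_dvd_D i hN hμ hζ).mul_right _

theorem LR_const (i : ZMod 3) {N : ℕ} (hN : Odd N) {μ : ℕ} (hμ0 : 0 < μ)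
    (hμ : ∀ l, T.al l N = μ) {ζ : ℂ}
    (hζ : IsPrimitiveRoot ζ N) :
    constantCoeff (1 + T.D i ζ 1 * (T.Q (i + 1) ζ 1)⁻¹) = 1 := by
  have h := T.LR_dvd_F i hN hμ hζ
  rw [X_pow_dvd_iff] at h
  have h0 := h 0 hμ0
  rw [coeff_zero_eq_constantCoeff_apply] at h0
  rw [map_add, h0, map_one, add_zero]

theorem LR_dvd_LamS (i : ZMod 3) {N : ℕ} (hN : Odd N) {μ : ℕ} (hμ0 : 0 < μ)
    (hμ : ∀ l, T.al l N = μ) {ζ : ℂ}
    (hζ : IsPrimitiveRoot ζ N) : X ^ μ ∣ LamS N (T.v i) ζ := by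
  apply LR_dvd_of_mul_unit (F := 1 + T.D i ζ 1 * (T.Q (i + 1) ζ 1)⁻¹)
  · rw [T.LR_const i hN hμ0 hμ hζ]
    exact one_ne_zero
  · rw [← T.LR_ode i hN hζ]
    exact LR_dvd_deriv (T.LR_dvd_F i hN hμ hζ)

theorem LR_idx (i : ZMod 3) : i + 2 + 1 = i ∧ i + 2 + 2 = i + 1 := by
  revert i; decide

/-- the main identity: `C b * F_i - C a * F_{i+2}` -/
theorem LR_key (i : ZMod 3) {N : ℕ} (hN : Odd N) {ζ : ℂ} (hζ : IsPrimitiveRoot ζ N) (a b : ℂ) :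
    C b * (T.D i ζ 1 * (T.Q (i + 1) ζ 1)⁻¹) - C a * (T.D (i + 2) ζ 1 * (T.Q i ζ 1)⁻¹) =
      (C b * T.D i ζ 1 - C a * T.D (i + 2) ζ 1) * (T.Q (i + 1) ζ 1)⁻¹ -
      C a * (T.D (i + 2) ζ 1 * T.D (i + 2) ζ 1 * ((T.Q (i + 1) ζ 1)⁻¹ * (T.Q i ζ 1)⁻¹)) := by
  have hq1 := PowerSeries.mul_inv_cancel _ (T.Q_const_ne (i + 1) hN hζ (one_ne_zero : (1 : ℂ) ≠ 0))
  have hq2 := PowerSeries.mul_inv_cancel _ (T.Q_const_ne i hN hζ (one_ne_zero : (1 : ℂ) ≠ 0))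
  have hs := T.Q_sub (i + 2) ζ 1
  rw [(LR_idx i).1, (LR_idx i).2] at hs
  -- hs : Q (i+1) - Q i = D (i+2)
  have h1 : (T.Q i ζ 1)⁻¹ - (T.Q (i + 1) ζ 1)⁻¹ =
      T.D (i + 2) ζ 1 * ((T.Q (i + 1) ζ 1)⁻¹ * (T.Q i ζ 1)⁻¹) := by
    rw [← hs]
    linear_combination (-(T.Q i ζ 1)⁻¹) * hq1 + (T.Q (i + 1) ζ 1)⁻¹ * hq2
  linear_combination (-(C a * T.D (i + 2) ζ 1)) * h1

theorem LR_main (i : ZMod 3) {N : ℕ} (hN : Odd N) {ζ : ℂ} (hζ : IsPrimitiveRoot ζ N) (a b : ℂ) :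
    C b * LamS N (T.v i) ζ - C a * LamS N (T.v (i + 2)) ζ =
      X * d⁄dX ℂ ((C b * T.D i ζ 1 - C a * T.D (i + 2) ζ 1) * (T.Q (i + 1) ζ 1)⁻¹ -
      C a * (T.D (i + 2) ζ 1 * T.D (i + 2) ζ 1 * ((T.Q (i + 1) ζ 1)⁻¹ * (T.Q i ζ 1)⁻¹))) -
      C b * (LamS N (T.v i) ζ * (T.D i ζ 1 * (T.Q (i + 1) ζ 1)⁻¹)) +
      C a * (LamS N (T.v (i + 2)) ζ * (T.D (i + 2) ζ 1 * (T.Q i ζ 1)⁻¹)) := by
  rw [← T.LR_key i hN hζ a b]
  have h1 := T.LR_ode i hN hζ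
  have h2 := T.LR_ode (i + 2) hN hζ
  rw [(LR_idx i).1] at h2
  have h3 : X * d⁄dX ℂ (C b * (T.D i ζ 1 * (T.Q (i + 1) ζ 1)⁻¹) -
      C a * (T.D (i + 2) ζ 1 * (T.Q i ζ 1)⁻¹)) =
      C b * (X * d⁄dX ℂ (T.D i ζ 1 * (T.Q (i + 1) ζ 1)⁻¹)) -
      C a * (X * d⁄dX ℂ (T.D (i + 2) ζ 1 * (T.Q i ζ 1)⁻¹)) := by
    rw [map_sub, Derivation.leibniz (d⁄dX ℂ) (C b) _, Derivation.leibniz (d⁄dX ℂ) (C a) _,
      derivative_C, derivative_C]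
    simp only [smul_eq_mul, mul_zero, add_zero]
    ring
  rw [h3, h1, h2]
  ring

theorem LR_Lam (v : ℕ →₀ ℤ) (k : ℕ) :
    Lam 1 k v 1 = ((_root_.bernoulli k : ℂ) + if k = 1 then 1 / 2 else 0) *
      (v.sum fun n c => (c : ℂ) * (n : ℂ) ^ k) := by
  unfold Lam
  rw [Finsupp.mul_sum]
  refine Finsupp.sum_congr fun n _ => ?_
  rw [one_pow, bk_one Nat.one_pos]
  ring

theorem LR_coeff_LamS (v : ℕ →₀ ℤ) (k : ℕ) :
    coeff k (LamS 1 v 1) = Lam 1 k v 1 / k.factorial := by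
  unfold LamS
  rw [coeff_mk]

theorem LR_Pk (v : ℕ →₀ ℤ) (k : ℕ) :
    Pk v k 1 = (1 + (-1) ^ k) * (v.sum fun n c => (c : ℂ) * (n : ℂ) ^ k) := by
  unfold Pk
  rw [Finsupp.mul_sum]
  refine Finsupp.sum_congr fun n _ => ?_
  rw [one_pow, inv_one, mul_one]
  ring

theorem LR_flat (i : ZMod 3) :
    X ^ (2 * m) ∣ C ((T.del (i + 2) : ℚ) : ℂ) * T.D i 1 1 -
      C ((T.del i : ℚ) : ℂ) * T.D (i + 2) 1 1 := by
  refine T.ratio_flat i odd_one (fun l => T.al_one l) ?_ IsPrimitiveRoot.one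
  intro ζ hζ
  have h1 : ζ = 1 := by simpa using hζ.pow_eq_one
  subst h1
  rw [T.coeff_D_one i one_ne_zero, T.coeff_D_one (i + 2) one_ne_zero]
  ring

end Trip

namespace Trip

variable {m : ℕ} (T : Trip m)

/-- Piece G4.  `t G_i' = LamS · G_i`, `G_i = 1 + D_i/Q_{i+1}`, `G_{i+2} = 1 + D_{i+2}/Q_i`,
`Q_{i+1} - Q_i = D_{i+2}`; so `LamS(v_i) = t (D_i/Q_{i+1})' + O(t^{2μ})`. -/
theorem LamS_ratio (i : ZMod 3) {N : ℕ} (hN : Odd N) {μ : ℕ} (hμ0 : 0 < μ)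
    (hμ : ∀ l, T.al l N = μ) {a b : ℂ} {ζ : ℂ} (hζ : IsPrimitiveRoot ζ N)
    (h : X ^ (2 * μ) ∣ C b * T.D i ζ 1 - C a * T.D (i + 2) ζ 1) :
    X ^ (2 * μ) ∣ C b * LamS N (T.v i) ζ - C a * LamS N (T.v (i + 2)) ζ := by
  rw [T.LR_main i hN hζ a b]
  have hD2 := T.LR_dvd_D (i + 2) hN hμ hζ
  have hF1 := T.LR_dvd_F i hN hμ hζ
  have hF2 := T.LR_dvd_F (i + 2) hN hμ hζ
  rw [(LR_idx i).1] at hF2
  have hL1 := T.LR_dvd_LamS i hN hμ0 hμ hζ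
  have hL2 := T.LR_dvd_LamS (i + 2) hN hμ0 hμ hζ
  have e : (X : ℂ⟦X⟧) ^ (2 * μ) = X ^ μ * X ^ μ := by rw [two_mul, pow_add]
  refine dvd_add (dvd_sub (LR_dvd_deriv (dvd_sub (h.mul_right _) ?_)) ?_) ?_
  · rw [e]
    exact ((mul_dvd_mul hD2 hD2).mul_right _).mul_left _
  · rw [e]
    exact (mul_dvd_mul hL1 hF1).mul_left _
  · rw [e]
    exact (mul_dvd_mul hL2 hF2).mul_left _

/-- the next coefficient at `1`, in terms of moments: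
`[t^{2m}] (δ_{i+2} log G_i - δ_i log G_{i+2}) = δ_0 δ_1 δ_2 (2^m + 1) / (2 · 4^m (2^m - 1))` -/
theorem mom_2m (i : ZMod 3) :
    _root_.bernoulli (2 * m) *
      (T.del (i + 2) * ((T.v i).sum fun n c => (c : ℚ) * (n : ℚ) ^ (2 * m)) -
        T.del i * ((T.v (i + 2)).sum fun n c => (c : ℚ) * (n : ℚ) ^ (2 * m))) =
      (2 * m).factorial * m * (2 ^ m + 1) / (4 ^ m * (2 ^ m - 1)) *
        (T.del i * T.del (i + 1) * T.del (i + 2)) := by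
  have hm := T.hm
  have hμ : ∀ l, T.al l 1 = m := fun l => T.al_one l
  have h1r : IsPrimitiveRoot (1 : ℂ) 1 := IsPrimitiveRoot.one
  have hm0 : 0 < m := by omega
  have hflat := T.LR_flat i
  have hD1 := T.LR_dvd_D i odd_one hμ h1r
  have hD2 := T.LR_dvd_D (i + 2) odd_one hμ h1r
  have hF1 := T.LR_dvd_F i odd_one hμ h1r
  have hF2 := T.LR_dvd_F (i + 2) odd_one hμ h1r
  rw [(LR_idx i).1] at hF2
  have hL1 := T.LR_dvd_LamS i odd_one hm0 hμ h1r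
  have hL2 := T.LR_dvd_LamS (i + 2) odd_one hm0 hμ h1r
  have hQ : ∀ j, constantCoeff (T.Q j 1 1)⁻¹ = ((2 : ℂ) ^ m)⁻¹ := by
    intro j
    rw [PowerSeries.constantCoeff_inv, T.Q_one j 1]
  have hd : ∀ j, coeff m (T.D j 1 1) = (T.del j : ℂ) := by
    intro j
    rw [T.coeff_D_one j one_ne_zero, one_pow, mul_one]
  -- leading coefficients of the quotients
  have cF1 : coeff m (T.D i 1 1 * (T.Q (i + 1) 1 1)⁻¹) = (T.del i : ℂ) * ((2 : ℂ) ^ m)⁻¹ := by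
    rw [LR_coeff_mul_unit hD1, hd, hQ]
  have cF2 : coeff m (T.D (i + 2) 1 1 * (T.Q i 1 1)⁻¹) =
      (T.del (i + 2) : ℂ) * ((2 : ℂ) ^ m)⁻¹ := by
    rw [LR_coeff_mul_unit hD2, hd, hQ]
  -- leading coefficients of `LamS`
  have cL1 : coeff m (LamS 1 (T.v i) 1) = (T.del i : ℂ) * ((2 : ℂ) ^ m)⁻¹ * m := by
    have h := congrArg (coeff m) (T.LR_ode i odd_one h1r)
    rw [LR_coeff_Xd, LR_coeff_mul_unit hL1, T.LR_const i odd_one hm0 hμ h1r, mul_one, cF1] at h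
    exact h.symm
  have cL2 : coeff m (LamS 1 (T.v (i + 2)) 1) = (T.del (i + 2) : ℂ) * ((2 : ℂ) ^ m)⁻¹ * m := by
    have h := congrArg (coeff m) (T.LR_ode (i + 2) odd_one h1r)
    rw [LR_coeff_Xd, LR_coeff_mul_unit hL2, T.LR_const (i + 2) odd_one hm0 hμ h1r, mul_one,
      (LR_idx i).1, cF2] at h
    exact h.symm
  have hmain := congrArg (coeff (2 * m)) (T.LR_main i odd_one h1r
    ((T.del i : ℚ) : ℂ) ((T.del (i + 2) : ℚ) : ℂ))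
  rw [map_add, map_sub, map_sub, LR_coeff_Xd, map_sub, coeff_C_mul, coeff_C_mul, coeff_C_mul,
    coeff_C_mul, coeff_C_mul, LR_coeff_mul hL1 hF1, LR_coeff_mul hL2 hF2,
    LR_coeff_mul_unit hflat, T.D_ratio_one i, cF1, cF2, cL1, cL2] at hmain
  have hDD : coeff (2 * m) (T.D (i + 2) 1 1 * T.D (i + 2) 1 1 *
      ((T.Q (i + 1) 1 1)⁻¹ * (T.Q i 1 1)⁻¹)) =
      (T.del (i + 2) : ℂ) * (T.del (i + 2) : ℂ) * (((2 : ℂ) ^ m)⁻¹ * ((2 : ℂ) ^ m)⁻¹) := by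
    have e : (X : ℂ⟦X⟧) ^ (2 * m) = X ^ m * X ^ m := by rw [two_mul, pow_add]
    rw [LR_coeff_mul_unit (n := 2 * m) (by rw [e]; exact mul_dvd_mul hD2 hD2),
      LR_coeff_mul hD2 hD2, hd, map_mul, hQ, hQ]
  rw [hDD, hQ, LR_coeff_LamS, LR_coeff_LamS, LR_Lam, LR_Lam, if_neg (by omega), add_zero] at hmain
  have hf : (((2 * m).factorial : ℕ) : ℂ) ≠ 0 := by exact_mod_cast (2 * m).factorial_ne_zero
  have h2 : ((2 : ℂ) ^ m) ≠ 0 := pow_ne_zero _ two_ne_zero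
  have h2' : ((2 : ℂ) ^ m - 1) ≠ 0 := by
    have h3 : (1 : ℕ) < 2 ^ m := Nat.one_lt_two_pow hm0.ne'
    have h4 : ((2 : ℂ) ^ m) ≠ 1 := by
      intro h5
      have h6 : ((2 ^ m : ℕ) : ℂ) = ((1 : ℕ) : ℂ) := by push_cast; exact h5
      have h7 : (2 ^ m : ℕ) = 1 := by exact_mod_cast h6
      omega
    exact sub_ne_zero.2 h4
  have h4m : (4 : ℂ) ^ m = 2 ^ m * 2 ^ m := by
    rw [← mul_pow]; norm_num
  have hsum : (T.del (i + 1) : ℂ) = -(T.del i : ℂ) - (T.del (i + 2) : ℂ) := by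
    have h5 : T.del (i + 1) = -T.del i - T.del (i + 2) := by
      linear_combination T.del_sum i
    rw [h5]
    push_cast
    ring
  have hfin : ((_root_.bernoulli (2 * m) : ℚ) : ℂ) *
      ((T.del (i + 2) : ℂ) * ((T.v i).sum fun n c => (c : ℂ) * (n : ℂ) ^ (2 * m)) -
        (T.del i : ℂ) * ((T.v (i + 2)).sum fun n c => (c : ℂ) * (n : ℂ) ^ (2 * m))) =
      (2 * m).factorial * m * (2 ^ m + 1) / (4 ^ m * (2 ^ m - 1)) *
        ((T.del i : ℂ) * (T.del (i + 1) : ℂ) * (T.del (i + 2) : ℂ)) := by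
    have e1 : ((_root_.bernoulli (2 * m) : ℚ) : ℂ) *
      ((T.del (i + 2) : ℂ) * ((T.v i).sum fun n c => (c : ℂ) * (n : ℂ) ^ (2 * m)) -
        (T.del i : ℂ) * ((T.v (i + 2)).sum fun n c => (c : ℂ) * (n : ℂ) ^ (2 * m))) =
      (2 * m).factorial *
        ((T.del (i + 2) : ℂ) * ((_root_.bernoulli (2 * m) : ℂ) *
          ((T.v i).sum fun n c => (c : ℂ) * (n : ℂ) ^ (2 * m)) / (2 * m).factorial) -
        (T.del i : ℂ) * ((_root_.bernoulli (2 * m) : ℂ) *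
          ((T.v (i + 2)).sum fun n c => (c : ℂ) * (n : ℂ) ^ (2 * m)) / (2 * m).factorial)) := by
      field_simp
    rw [e1, hmain, hsum, h4m]
    push_cast
    rw [hsum]
    field_simp
    ring
  have hfinQ : ((_root_.bernoulli (2 * m) *
      (T.del (i + 2) * ((T.v i).sum fun n c => (c : ℚ) * (n : ℚ) ^ (2 * m)) -
        T.del i * ((T.v (i + 2)).sum fun n c => (c : ℚ) * (n : ℚ) ^ (2 * m))) : ℚ) : ℂ) =
      (((2 * m).factorial * m * (2 ^ m + 1) / (4 ^ m * (2 ^ m - 1)) *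
        (T.del i * T.del (i + 1) * T.del (i + 2)) : ℚ) : ℂ) := by
    unfold Finsupp.sum at hfin ⊢
    push_cast
    exact hfin
  exact_mod_cast hfinQ

/-- moments between `m` and `2 m` are proportional to `δ` -/
theorem mom_mid (i : ZMod 3) {k : ℕ} (hk : k < 2 * m) :
    ((T.del (i + 2) : ℚ) : ℂ) * Pk (T.v i) k 1 = ((T.del i : ℚ) : ℂ) * Pk (T.v (i + 2)) k 1 := by
  have hm := T.hm
  have hμ : ∀ l, T.al l 1 = m := fun l => T.al_one l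
  have h1r : IsPrimitiveRoot (1 : ℂ) 1 := IsPrimitiveRoot.one
  have hdvd := T.LamS_ratio i odd_one (by omega) hμ h1r (T.LR_flat i)
  rw [X_pow_dvd_iff] at hdvd
  have h := hdvd k hk
  rw [map_sub, coeff_C_mul, coeff_C_mul, LR_coeff_LamS, LR_coeff_LamS, LR_Lam, LR_Lam] at h
  rw [LR_Pk, LR_Pk]
  rcases Nat.even_or_odd k with he | ho
  · have hk1 : k ≠ 1 := by
      rintro rfl
      exact absurd he (by decide)
    rw [if_neg hk1, add_zero] at h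
    have hb : ((_root_.bernoulli k : ℚ) : ℂ) ≠ 0 := by exact_mod_cast bernoulli_ne_zero he
    have hf : ((k.factorial : ℕ) : ℂ) ≠ 0 := by exact_mod_cast k.factorial_ne_zero
    have h3 : ((_root_.bernoulli k : ℚ) : ℂ) / k.factorial *
        (((T.del (i + 2) : ℚ) : ℂ) * ((T.v i).sum fun n c => (c : ℂ) * (n : ℂ) ^ k) -
          ((T.del i : ℚ) : ℂ) * ((T.v (i + 2)).sum fun n c => (c : ℂ) * (n : ℂ) ^ k)) = 0 := by
      rw [← h]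
      ring
    have h4 : ((_root_.bernoulli k : ℚ) : ℂ) / k.factorial ≠ 0 := div_ne_zero hb hf
    have h5 := (mul_eq_zero.mp h3).resolve_left h4
    linear_combination (1 + (-1) ^ k) * h5
  · rw [ho.neg_one_pow]
    ring

end Trip

end Pool.Agent.Lib_MP_e4b855_nt.Tri
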