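import Pool.Agent.Lib_MP_e4b855_nt.Tri.Class
import Pool.Agent.Lib_MP_e4b855_nt.Tri.Trip2
import Pool.Agent.Lib_MP_e4b855_nt.Tri.Norm

namespace Pool.Agent.Lib_MP_e4b855_nt.Tri

open PowerSeries Finset

/-- a power moment twisted by an `N`-th root of unity only depends on the class moments -/
private lemma g2_fiber (A : Finset ℤ) {N : ℕ} (hN : 0 < N) {ζ : ℂ} (hζ : ζ ^ N = 1) (k : ℕ) :
    ∑ a ∈ A, ζ ^ a * (a : ℂ) ^ k =
      ∑ r ∈ Finset.Ico (0 : ℤ) N, ζ ^ r * ((∑ a ∈ A with (N : ℤ) ∣ a - r, a ^ k : ℤ) : ℂ) := by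
  classical
  have hN' : (0 : ℤ) < N := by exact_mod_cast hN
  have hζ0 : ζ ≠ 0 := by
    rintro rfl
    rw [zero_pow hN.ne'] at hζ
    exact zero_ne_one hζ
  have hmap : ∀ a ∈ A, a % (N : ℤ) ∈ Finset.Ico (0 : ℤ) N := fun a _ =>
    Finset.mem_Ico.2 ⟨Int.emod_nonneg a hN'.ne', Int.emod_lt_of_pos a hN'⟩
  rw [← Finset.sum_fiberwise_of_maps_to hmap]
  refine Finset.sum_congr rfl fun r hr => ?_
  rw [Finset.mem_Ico] at hr
  have hfil : A.filter (fun a => a % (N : ℤ) = r) = A.filter (fun a => (N : ℤ) ∣ a - r) := by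
    refine Finset.filter_congr fun a _ => ?_
    constructor
    · intro h
      rw [← h]
      exact Int.dvd_self_sub_emod
    · intro h
      have h1 : a % (N : ℤ) = r % (N : ℤ) := Int.emod_eq_emod_iff_emod_sub_eq_zero.2
        (Int.emod_eq_zero_of_dvd h)
      rw [h1, Int.emod_eq_of_lt hr.1 hr.2]
  rw [hfil, Int.cast_sum, Finset.mul_sum]
  refine Finset.sum_congr rfl fun a ha => ?_
  rw [Finset.mem_filter] at ha
  obtain ⟨c, hc⟩ := ha.2
  have h1 : ζ ^ a = ζ ^ r := by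
    have h2 : a = r + (N : ℤ) * c := by linarith
    rw [h2, zpow_add₀ hζ0, zpow_mul, zpow_natCast, hζ, one_zpow, mul_one]
  rw [h1]
  push_cast
  ring

private lemma g2_class {A B : Finset ℤ} {N : ℕ} (hN : 0 < N) {ζ : ℂ} (hζ : ζ ^ N = 1) (k : ℕ)
    (h : ∀ r : ℤ, ∑ a ∈ A with (N : ℤ) ∣ a - r, a ^ k = ∑ a ∈ B with (N : ℤ) ∣ a - r, a ^ k) :
    ∑ a ∈ A, ζ ^ a * (a : ℂ) ^ k = ∑ a ∈ B, ζ ^ a * (a : ℂ) ^ k := by
  rw [g2_fiber A hN hζ k, g2_fiber B hN hζ k]
  refine Finset.sum_congr rfl fun r _ => ?_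
  rw [h r]

namespace Trip

variable {m : ℕ} (T : Trip m)

/-- Piece G2.  orders do not increase with the level (also `j = 0`) -/
theorem al_mono (i : ZMod 3) {p : ℕ} (hp : p.Prime) (hp2 : p ≠ 2) (hc : 2 ^ (m - 1) < 2 * p)
    (j : ℕ) : T.al i (p ^ (j + 1)) ≤ T.al i (p ^ j) := by
  have hN : 0 < p ^ j := pow_pos hp.pos j
  have hN1 : 0 < p ^ (j + 1) := pow_pos hp.pos (j + 1)
  have hζ : IsPrimitiveRoot (Complex.exp (2 * Real.pi * Complex.I / ((p ^ j : ℕ) : ℂ))) (p ^ j) :=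
    Complex.isPrimitiveRoot_exp (p ^ j) hN.ne'
  set ζ := Complex.exp (2 * Real.pi * Complex.I / ((p ^ j : ℕ) : ℂ)) with hζdef
  by_contra hlt
  push Not at hlt
  have hζN : ζ ^ (p ^ (j + 1)) = 1 := by
    rw [pow_succ, pow_mul, hζ.pow_eq_one, one_pow]
  have h0 : coeff (T.al i (p ^ j)) (T.D i ζ 1) = 0 := by
    unfold D
    rw [map_sub, coeff_J, coeff_J]
    simp only [one_mul]
    rw [g2_class hN1 hζN (T.al i (p ^ j))
      (fun r => T.class_eq i hp hp2 hc (Nat.succ_pos j) hlt r), sub_self]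
  exact (T.lead_eq i hN hζ).2 h0

/-- product of the values of `Q_i` over the primitive `N`-th roots of unity (from `prod_Q` in
`Norm.lean`) -/
theorem prod_Q_odd (i : ZMod 3) {N : ℕ} (hN : Odd N) :
    ∏ ζ ∈ primitiveRoots N ℂ, constantCoeff (T.Q i ζ 1) = 2 ^ (T.al i N * N.totient) := by
  rw [T.prod_Q i hN.pos hN, Finset.prod_const, Complex.card_primitiveRoots, ← pow_mul]

/-- if two letters vanish at the primitive `N`-th roots of unity (`N` odd) then all three vanish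
to the same order -/
theorem types {i i' : ZMod 3} (hne : i ≠ i') {N : ℕ} (hN : Odd N) (h : 0 < T.al i N)
    (h' : 0 < T.al i' N) (l : ZMod 3) : T.al l N = T.al i N := by
  have hN0 : 0 < N := hN.pos
  have hcc : ∀ i₁, 0 < T.al i₁ N → ∀ ζ ∈ primitiveRoots N ℂ, constantCoeff (T.D i₁ ζ 1) = 0 := by
    intro i₁ h1 ζ hζ
    obtain ⟨U, -, -, hU⟩ := T.D_lead i₁ hN0 (isPrimitiveRoot_of_mem_primitiveRoots hζ)
      (one_ne_zero (α := ℂ))
    rw [hU, map_mul, map_pow, constantCoeff_X, zero_pow h1.ne', zero_mul]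
  have hall : ∀ ζ ∈ primitiveRoots N ℂ, ∀ q : ZMod 3, constantCoeff (T.D q ζ 1) = 0 := by
    intro ζ hζ
    have h1 := hcc i h ζ hζ
    have h2 := hcc i' h' ζ hζ
    have h3 := congrArg constantCoeff (T.D_sum i ζ 1)
    rw [map_add, map_add, map_zero, h1, zero_add] at h3
    have hi' : i' = i + 1 ∨ i' = i + 2 := by
      revert hne; clear * -; revert i i'; decide
    have h4 : constantCoeff (T.D (i + 1) ζ 1) = 0 ∧ constantCoeff (T.D (i + 2) ζ 1) = 0 := by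
      rcases hi' with rfl | rfl
      · rw [h2, zero_add] at h3
        exact ⟨h2, h3⟩
      · rw [h2, add_zero] at h3
        exact ⟨h3, h2⟩
    intro q
    have hq : q = i ∨ q = i + 1 ∨ q = i + 2 := by
      clear * -; revert i q; decide
    rcases hq with rfl | rfl | rfl
    · exact h1
    · exact h4.1
    · exact h4.2
  have hQ : ∀ ζ ∈ primitiveRoots N ℂ, ∀ q : ZMod 3,
      constantCoeff (T.Q (q + 1) ζ 1) = constantCoeff (T.Q q ζ 1) := by
    intro ζ hζ q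
    have h1 := congrArg constantCoeff (T.Q_sub (q + 2) ζ 1)
    rw [hall ζ hζ (q + 2), map_sub] at h1
    have h2 : q + 2 + 2 = q + 1 := by clear * -; revert q; decide
    have h3 : q + 2 + 1 = q := by clear * -; revert q; decide
    rw [h2, h3] at h1
    exact sub_eq_zero.1 h1
  have hstep : ∀ q : ZMod 3, T.al (q + 1) N = T.al q N := by
    intro q
    have h1 := T.prod_Q_odd (q + 1) hN
    have h2 := T.prod_Q_odd q hN
    rw [Finset.prod_congr rfl (fun ζ hζ => hQ ζ hζ q), h2] at h1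
    have h3 : (2 : ℕ) ^ (T.al q N * N.totient) = 2 ^ (T.al (q + 1) N * N.totient) := by
      exact_mod_cast h1
    have h4 := Nat.pow_right_injective le_rfl h3
    exact (Nat.eq_of_mul_eq_mul_right (Nat.totient_pos.2 hN0) h4).symm
  have hl : l = i ∨ l = i + 1 ∨ l = i + 1 + 1 := by
    clear * -; revert i l; decide
  rcases hl with rfl | rfl | rfl
  · rfl
  · exact hstep i
  · rw [hstep, hstep]

/-- the common levels are `1, …, J`; above `J` only the letter `i₀` can vanish -/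
theorem levels {p : ℕ} (hp : p.Prime) (hp2 : p ≠ 2) (hc : 2 ^ (m - 1) < 2 * p) :
    ∃ (J : ℕ) (i₀ : ZMod 3), (∀ j, 1 ≤ j → j ≤ J → 0 < T.al i₀ (p ^ j) ∧
        ∀ i, T.al i (p ^ j) = T.al i₀ (p ^ j)) ∧
      ∀ j, J < j → ∀ i, i ≠ i₀ → T.al i (p ^ j) = 0 := by
  classical
  have hodd : ∀ j, Odd (p ^ j) := fun j => (hp.odd_of_ne_two hp2).pow
  have hanti : ∀ i, Antitone (fun j => T.al i (p ^ j)) := fun i =>
    antitone_nat_of_succ_le fun j => T.al_mono i hp hp2 hc j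
  obtain ⟨L, hL⟩ := T.exists_bound p hp.one_lt
  set P : ℕ → Prop := fun j => ∃ i i' : ZMod 3, i ≠ i' ∧ 0 < T.al i (p ^ j) ∧
    0 < T.al i' (p ^ j) with hP
  have hm := T.hm
  have hP0 : P 0 := by
    refine ⟨0, 1, by decide, ?_, ?_⟩
    · rw [pow_zero, T.al_one]; omega
    · rw [pow_zero, T.al_one]; omega
  set J := Nat.findGreatest P L with hJ
  have hPJ : P J := Nat.findGreatest_spec (Nat.zero_le L) hP0
  have hnot : ∀ j, J < j → ¬ P j := by
    intro j hj hPj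
    rcases le_or_gt j L with h1 | h1
    · exact Nat.findGreatest_is_greatest hj h1 hPj
    · obtain ⟨i, i', -, h2, -⟩ := hPj
      rw [hL i j h1] at h2
      exact lt_irrefl 0 h2
  have key : ∃ i₀ : ZMod 3, ∀ j, J < j → ∀ i, i ≠ i₀ → T.al i (p ^ j) = 0 := by
    by_cases hex : ∃ i₀ : ZMod 3, 0 < T.al i₀ (p ^ (J + 1))
    · obtain ⟨i₀, hi₀⟩ := hex
      refine ⟨i₀, fun j hj i hi => ?_⟩
      by_contra hne
      have h1 : 0 < T.al i (p ^ j) := Nat.pos_of_ne_zero hne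
      have h2 : T.al i (p ^ j) ≤ T.al i (p ^ (J + 1)) := hanti i (Nat.succ_le_of_lt hj)
      exact hnot (J + 1) (Nat.lt_succ_self J) ⟨i, i₀, hi, lt_of_lt_of_le h1 h2, hi₀⟩
    · refine ⟨0, fun j hj i _ => ?_⟩
      by_contra hne
      have h1 : 0 < T.al i (p ^ j) := Nat.pos_of_ne_zero hne
      have h2 : T.al i (p ^ j) ≤ T.al i (p ^ (J + 1)) := hanti i (Nat.succ_le_of_lt hj)
      exact hex ⟨i, lt_of_lt_of_le h1 h2⟩
  obtain ⟨i₀, hi₀⟩ := key
  refine ⟨J, i₀, fun j _ hj => ?_, hi₀⟩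
  obtain ⟨i, i', hne, h1, h2⟩ := hPJ
  have h3 : 0 < T.al i (p ^ j) := lt_of_lt_of_le h1 (hanti i hj)
  have h4 : 0 < T.al i' (p ^ j) := lt_of_lt_of_le h2 (hanti i' hj)
  have h5 := T.types hne (hodd j) h3 h4
  refine ⟨?_, fun l => ?_⟩
  · rw [h5 i₀]; exact h3
  · rw [h5 l, h5 i₀]

end Trip

end Pool.Agent.Lib_MP_e4b855_nt.Tri
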