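import Pool.Agent.Lib_MP_e4b855_nt.Tri.LogRatio
import Pool.Agent.Lib_MP_e4b855_nt.Tri.Transfer
import Pool.Agent.Lib_MP_e4b855_nt.Tri.Mono
import Pool.Agent.Lib_MP_e4b855_nt.Tri.Rational

/-!
# Part III: the exponents of `D_i / D_{i+2}` at the first level with irrational ratio

`v = d_i - d_{i+2}`.  `λ_i(ζ) = coeff μ (D_i ζ 1)`.
-/

namespace Pool.Agent.Lib_MP_e4b855_nt.Tri

open PowerSeries Finset

theorem low_Lam_sub (N k : ℕ) (v w : ℕ →₀ ℤ) (ζ : ℂ) :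
    Lam N k (v - w) ζ = Lam N k v ζ - Lam N k w ζ := by
  unfold Lam
  exact Finsupp.sum_sub_index (by intros; push_cast; ring)

theorem low_LamS_sub (N : ℕ) (v w : ℕ →₀ ℤ) (ζ : ℂ) :
    LamS N (v - w) ζ = LamS N v ζ - LamS N w ζ := by
  ext k
  unfold LamS
  rw [map_sub, coeff_mk, coeff_mk, coeff_mk, low_Lam_sub, sub_div]

namespace Trip

variable {m : ℕ} (T : Trip m)

/-- `ratio_flat` for a set of primitive roots closed under squaring -/
theorem ratio_flat_gen (i : ZMod 3) {N : ℕ} (hN : Odd N) {μ : ℕ} (hμ : ∀ l, T.al l N = μ)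
    {a b : ℂ} {O : ℂ → Prop} (hO1 : ∀ ζ, O ζ → IsPrimitiveRoot ζ N) (hO2 : ∀ ζ, O ζ → O (ζ ^ 2))
    (hab : ∀ ζ : ℂ, O ζ →
      b * coeff μ (T.D i ζ 1) = a * coeff μ (T.D (i + 2) ζ 1)) {ζ : ℂ}
    (hO : O ζ) :
    X ^ (2 * μ) ∣ C b * T.D i ζ 1 - C a * T.D (i + 2) ζ 1 := by
  rw [X_pow_dvd_iff]
  intro k hk
  revert ζ
  induction k using Nat.strong_induction_on with
  | _ k ih =>
  rcases lt_trichotomy k μ with hlt | heq | hgt
  · intro ζ hO
    have hζ := hO1 ζ hO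
    rw [map_sub, coeff_C_mul, coeff_C_mul, T.G3_D_lt i hN.pos hμ hζ k hlt,
      T.G3_D_lt (i + 2) hN.pos hμ hζ k hlt]
    ring
  · intro ζ hO
    subst heq
    rw [map_sub, coeff_C_mul, coeff_C_mul, hab ζ hO, sub_self]
  · -- the recursion
    have hrec : ∀ ζ : ℂ, O ζ →
        2 ^ k * coeff k (C b * T.D i (ζ ^ 2) 1 - C a * T.D (i + 2) (ζ ^ 2) 1) =
        coeff k (C b * T.D i ζ 1 - C a * T.D (i + 2) ζ 1) *
          constantCoeff (T.Q (i + 2) ζ 1) := by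
      intro ζ hO
      have hζ := hO1 ζ hO
      have h1 := congrArg (coeff k) (T.G3_fe i (hζ.ne_zero hN.pos.ne') a b)
      have h2 : coeff k (C b * T.D i (ζ ^ 2) 2 - C a * T.D (i + 2) (ζ ^ 2) 2) =
          2 ^ k * coeff k (C b * T.D i (ζ ^ 2) 1 - C a * T.D (i + 2) (ζ ^ 2) 1) := by
        rw [map_sub, map_sub, coeff_C_mul, coeff_C_mul, coeff_C_mul, coeff_C_mul,
          T.G3_coeff_D i (ζ ^ 2) 2, T.G3_coeff_D (i + 2) (ζ ^ 2) 2]
        ring
      rw [h2, map_add, coeff_C_mul, (T.G3_prod_lt i hN.pos hμ hζ).1 k hk, mul_zero, add_zero,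
        G3_coeff_mul (fun j hj => ih j hj (by omega) hO)] at h1
      exact h1
    obtain ⟨g, hg⟩ : ∃ g : ℂ → ℂ, g = fun ζ =>
        coeff k (C b * T.D i ζ 1 - C a * T.D (i + 2) ζ 1) / coeff μ (T.D (i + 2) ζ 1) :=
      ⟨_, rfl⟩
    have hstep : ∀ ζ : ℂ, O ζ → g ζ = 2 ^ (k - μ) * g (ζ ^ 2) := by
      intro ζ hO
      have hζ := hO1 ζ hO
      have hζ2 : IsPrimitiveRoot (ζ ^ 2) N := by simpa using G3_sq hN hζ 1
      have h1 := hrec ζ hO
      have h2 := T.G3_lead (i + 2) hN hμ hζ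
      have h3 := T.G3_D_ne (i + 2) hN.pos hμ hζ
      have h4 := T.G3_D_ne (i + 2) hN.pos hμ hζ2
      have h5 := T.Q_const_ne (i + 2) hN hζ (one_ne_zero (α := ℂ))
      have h6 : (2 : ℂ) ^ k = 2 ^ (k - μ) * 2 ^ μ := by
        rw [← pow_add, Nat.sub_add_cancel hgt.le]
      rw [hg]
      simp only
      rw [mul_div_assoc', div_eq_div_iff h3 h4]
      apply mul_right_cancel₀ h5
      have h7 : (2 : ℂ) ^ μ ≠ 0 := pow_ne_zero _ two_ne_zero
      apply mul_right_cancel₀ h7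
      linear_combination (-(2 : ℂ) ^ μ * coeff μ (T.D (i + 2) (ζ ^ 2) 1)) * h1 +
        (2 : ℂ) ^ (k - μ) * 2 ^ μ *
          coeff k (C b * T.D i (ζ ^ 2) 1 - C a * T.D (i + 2) (ζ ^ 2) 1) * h2 +
        (coeff k (C b * T.D i (ζ ^ 2) 1 - C a * T.D (i + 2) (ζ ^ 2) 1) *
          (2 ^ μ * coeff μ (T.D (i + 2) (ζ ^ 2) 1))) * h6
    have hOpow : ∀ (r : ℕ) (ζ : ℂ), O ζ → O (ζ ^ 2 ^ r) := by
      intro r
      induction r with
      | zero => intro ζ hO; simpa using hO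
      | succ r ihr =>
        intro ζ hO
        have h9 : (ζ ^ 2 ^ r) ^ 2 = ζ ^ 2 ^ (r + 1) := by
          rw [← pow_mul, ← pow_succ]
        rw [← h9]
        exact hO2 _ (ihr ζ hO)
    have hiter : ∀ (r : ℕ) (ζ : ℂ), O ζ →
        g ζ = (2 ^ (k - μ)) ^ r * g (ζ ^ 2 ^ r) := by
      intro r
      induction r with
      | zero => intro ζ _; simp
      | succ r ihr =>
        intro ζ hO
        have h9 : (ζ ^ 2 ^ r) ^ 2 = ζ ^ 2 ^ (r + 1) := by
          rw [← pow_mul, ← pow_succ]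
        rw [ihr ζ hO, hstep _ (hOpow r ζ hO), h9]
        ring
    intro ζ hO
    have hζ := hO1 ζ hO
    have hfix : ζ ^ 2 ^ N.totient = ζ := by
      have h1 : 2 ^ N.totient ≡ 1 [MOD N] :=
        Nat.ModEq.pow_totient (Nat.coprime_two_left.mpr hN)
      have h2 : 1 ≤ 2 ^ N.totient := Nat.one_le_two_pow
      obtain ⟨t, ht⟩ := (Nat.modEq_iff_dvd' h2).1 h1.symm
      have h3 : 2 ^ N.totient = N * t + 1 := by omega
      rw [h3, pow_succ, pow_mul, hζ.pow_eq_one, one_pow, one_mul]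
    have h1 := hiter N.totient ζ hO
    rw [hfix] at h1
    have htot : 0 < N.totient := Nat.totient_pos.2 hN.pos
    have hbig : ((2 : ℂ) ^ (k - μ)) ^ N.totient ≠ 1 := by
      rw [← pow_mul]
      intro h
      have h2 : ((2 : ℕ) ^ ((k - μ) * N.totient) : ℕ) = 1 := by exact_mod_cast h
      have h3 : 1 < 2 ^ ((k - μ) * N.totient) :=
        Nat.one_lt_two_pow (Nat.mul_ne_zero (by omega) htot.ne')
      omega
    have hg0 : g ζ = 0 := by
      have h2 : (((2 : ℂ) ^ (k - μ)) ^ N.totient - 1) * g ζ = 0 := by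
        linear_combination -h1
      rcases mul_eq_zero.1 h2 with h3 | h3
      · exact absurd (sub_eq_zero.1 h3) hbig
      · exact h3
    rw [hg] at hg0
    simp only at hg0
    rcases div_eq_zero_iff.1 hg0 with h3 | h3
    · exact h3
    · exact absurd h3 (T.G3_D_ne (i + 2) hN.pos hμ hζ)

/-- as `ratio_flat`, but with the ratio depending on `ζ` (it is constant on the orbit of `ζ` under
squaring by `G10_ratio_pow`; the proof of `ratio_flat` only uses this orbit) -/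
theorem ratio_flat_orbit (i : ZMod 3) {N : ℕ} (hN : Odd N) {μ : ℕ} (hμ0 : 0 < μ)
    (hμ : ∀ l, T.al l N = μ) {ζ : ℂ} (hζ : IsPrimitiveRoot ζ N) :
    X ^ (2 * μ) ∣ C (coeff μ (T.D (i + 2) ζ 1)) * T.D i ζ 1 -
      C (coeff μ (T.D i ζ 1)) * T.D (i + 2) ζ 1 := by
  refine T.ratio_flat_gen i hN hμ (O := fun z => ∃ r : ℕ, z = ζ ^ 2 ^ r) ?_ ?_ ?_ ⟨0, by simp⟩
  · rintro z ⟨r, rfl⟩
    exact G3_sq hN hζ r
  · rintro z ⟨r, rfl⟩
    exact ⟨r + 1, by rw [← pow_mul, ← pow_succ]⟩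
  · rintro z ⟨r, rfl⟩
    have h := T.G10_ratio_pow i hN hμ0 hμ hζ r
    linear_combination h

/-- the differential equation of `D_l` -/
theorem low_ode (l : ZMod 3) {N : ℕ} (hN : Odd N) {ζ : ℂ} (hζ : IsPrimitiveRoot ζ N) :
    X * d⁄dX ℂ (T.D l ζ 1) = LamS N (T.d l) ζ * T.D l ζ 1 := by
  have hζ0 : ζ ≠ 0 := hζ.ne_zero hN.pos.ne'
  have he : (T.e l : ℂ) ≠ 0 := by
    rcases T.e_eq l with h | h <;> rw [h] <;> simp
  refine ldf hN.pos (T.d l) (T.d_zero l) hζ.pow_eq_one (T.D l ζ 1)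
    (c := (T.e l : ℂ) * ζ ^ (-T.M l)) (a := (T.M l : ℂ)) ?_ ?_ ?_
  · exact mul_ne_zero he (zpow_ne_zero _ hζ0)
  · have hcast := congrArg (fun z : ℤ => (z : ℂ)) (T.two_mul_M l)
    simp only [Finsupp.sum, Int.cast_sum, Int.cast_mul, Int.cast_natCast, Int.cast_ofNat] at hcast
    rw [Finsupp.sum, hcast]
  · have h := T.D_eq l hζ0 (one_ne_zero (α := ℂ))
    rw [one_mul] at h
    exact h

/-- With `b = λ_{i+2}(ζ)`, `a = λ_i(ζ)`, `E = C b D_i - C a D_{i+2} = O(t^{2μ})`, `L_l = LamS N d_l ζ`: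
`X D_l' = L_l D_l` (`ldf` and `D_eq`, `two_mul_M`), so
`C b (L_i - L_{i+2}) D_i = X E' - L_{i+2} E = O(t^{2μ})`, and `D_i = t^μ · unit`. -/
theorem lam_low (i : ZMod 3) {N : ℕ} (hN : Odd N) {μ : ℕ} (hμ0 : 0 < μ)
    (hμ : ∀ l, T.al l N = μ) {ζ : ℂ} (hζ : IsPrimitiveRoot ζ N) {k : ℕ} (hk : k < μ) :
    Lam N k (T.d i - T.d (i + 2)) ζ = 0 := by
  set a : ℂ := coeff μ (T.D i ζ 1) with ha
  set b : ℂ := coeff μ (T.D (i + 2) ζ 1) with hb
  have hb0 : b ≠ 0 := T.G3_D_ne (i + 2) hN.pos hμ hζ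
  have hE : X ^ (2 * μ) ∣ C b * T.D i ζ 1 - C a * T.D (i + 2) ζ 1 :=
    T.ratio_flat_orbit i hN hμ0 hμ hζ
  have h1 := T.low_ode i hN hζ
  have h2 := T.low_ode (i + 2) hN hζ
  have hkey : C b * ((LamS N (T.d i) ζ - LamS N (T.d (i + 2)) ζ) * T.D i ζ 1) =
      X * d⁄dX ℂ (C b * T.D i ζ 1 - C a * T.D (i + 2) ζ 1) -
        LamS N (T.d (i + 2)) ζ * (C b * T.D i ζ 1 - C a * T.D (i + 2) ζ 1) := by
    rw [map_sub, Derivation.leibniz (d⁄dX ℂ) (C b) _, Derivation.leibniz (d⁄dX ℂ) (C a) _,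
      derivative_C, derivative_C]
    simp only [smul_eq_mul, mul_zero, add_zero]
    linear_combination (-(C b)) * h1 + C a * h2
  have hdvd : X ^ (2 * μ) ∣ C b * ((LamS N (T.d i) ζ - LamS N (T.d (i + 2)) ζ) * T.D i ζ 1) := by
    rw [hkey]
    exact dvd_sub (LR_dvd_deriv hE) (hE.mul_left _)
  have hdvd2 : X ^ (2 * μ) ∣ (LamS N (T.d i) ζ - LamS N (T.d (i + 2)) ζ) * T.D i ζ 1 := by
    have h3 : (LamS N (T.d i) ζ - LamS N (T.d (i + 2)) ζ) * T.D i ζ 1 =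
        C b⁻¹ * (C b * ((LamS N (T.d i) ζ - LamS N (T.d (i + 2)) ζ) * T.D i ζ 1)) := by
      rw [← mul_assoc (C b⁻¹), ← map_mul, inv_mul_cancel₀ hb0, map_one, one_mul]
    rw [h3]
    exact hdvd.mul_left _
  obtain ⟨U, -, hU0, hU⟩ := T.D_lead i hN.pos hζ (one_ne_zero (α := ℂ))
  rw [hμ] at hU
  have hdvd3 : X ^ μ ∣ (LamS N (T.d i) ζ - LamS N (T.d (i + 2)) ζ) * U := by
    have h4 : (LamS N (T.d i) ζ - LamS N (T.d (i + 2)) ζ) * T.D i ζ 1 =
        X ^ μ * ((LamS N (T.d i) ζ - LamS N (T.d (i + 2)) ζ) * U) := by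
      rw [hU]; ring
    rw [h4, two_mul, pow_add] at hdvd2
    exact (mul_dvd_mul_iff_left (pow_ne_zero μ (X_ne_zero (R := ℂ)))).1 hdvd2
  have h5 := LR_dvd_of_mul_unit hU0 hdvd3
  rw [← low_LamS_sub, X_pow_dvd_iff] at h5
  have h6 := h5 k hk
  unfold LamS at h6
  rw [coeff_mk] at h6
  have h7 : (k.factorial : ℂ) ≠ 0 := by exact_mod_cast k.factorial_ne_zero
  rcases div_eq_zero_iff.1 h6 with h | h
  · exact h
  · exact absurd h h7

/-- the case `N = 1` of `lam_low` (`al_one`) and `bernoulli_ne_zero` (`LR_Lam`, `LR_Pk`) -/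
theorem mom_low (i : ZMod 3) {k : ℕ} (hk : k < m) : Pk (T.d i - T.d (i + 2)) k 1 = 0 := by
  have h1 := T.lam_low i odd_one (by omega) (fun l => T.al_one l) IsPrimitiveRoot.one hk
  rw [LR_Lam] at h1
  rw [LR_Pk]
  rcases Nat.even_or_odd k with he | ho
  · have hb : ((_root_.bernoulli k : ℚ) : ℂ) ≠ 0 := by exact_mod_cast bernoulli_ne_zero he
    rw [if_neg (by rintro rfl; exact absurd he (by decide)), add_zero] at h1
    rw [(mul_eq_zero.1 h1).resolve_left hb, mul_zero]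
  · rw [ho.neg_one_pow]
    ring

theorem low_anti {p : ℕ} (hp : p.Prime) (hp2 : p ≠ 2) (hc : 2 ^ (m - 1) < 2 * p) (l : ZMod 3) :
    Antitone (fun j => T.al l (p ^ j)) :=
  antitone_nat_of_succ_le fun j => T.al_mono l hp hp2 hc j

/-- levels below a common level are common (`al_mono`, `types`) -/
theorem low_common {p : ℕ} (hp : p.Prime) (hp2 : p ≠ 2) (hc : 2 ^ (m - 1) < 2 * p) {j μ : ℕ}
    (hμ0 : 0 < μ) (hμ : ∀ l, T.al l (p ^ j) = μ) {r : ℕ} (hr : r ≤ j) :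
    ∃ μ', μ ≤ μ' ∧ ∀ l, T.al l (p ^ r) = μ' := by
  have hge : ∀ l, μ ≤ T.al l (p ^ r) := by
    intro l
    have h := T.low_anti hp hp2 hc l hr
    simp only at h
    rw [hμ l] at h
    exact h
  have hodd : Odd (p ^ r) := (hp.odd_of_ne_two hp2).pow
  refine ⟨T.al 0 (p ^ r), hge 0, fun l => ?_⟩
  exact T.types (i := 0) (i' := 1) (by decide) hodd (lt_of_lt_of_le hμ0 (hge 0))
    (lt_of_lt_of_le hμ0 (hge 1)) l

theorem low_lev {p : ℕ} (hp : p.Prime) (hp2 : p ≠ 2) (hc : 2 ^ (m - 1) < 2 * p) {j μ : ℕ}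
    (hμ0 : 0 < μ) (hμ : ∀ l, T.al l (p ^ j) = μ) (i : ZMod 3) {r : ℕ} (hr : r ≤ j) :
    lev (T.d i - T.d (i + 2)) (p ^ r) = 0 := by
  obtain ⟨μ', -, h⟩ := T.low_common hp hp2 hc hμ0 hμ hr
  have hpos : 0 < p ^ r := pow_pos hp.pos r
  rw [lev_sub, ← T.al_cast i hpos, ← T.al_cast (i + 2) hpos, h i, h (i + 2), sub_self]

/-- Induction on `r` from `transfer` (with `lam_low` at `p^r`), `mom_low` and the definition of
`Wk`. -/
theorem low_Pk {p : ℕ} [Fact p.Prime] (hp2 : p ≠ 2) (hc : 2 ^ (m - 1) < 2 * p) {j μ : ℕ}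
    (hμ0 : 0 < μ) (hμ : ∀ l, T.al l (p ^ j) = μ) (i : ZMod 3) {r : ℕ} (hr : r ≤ j) {k : ℕ}
    (hk0 : 0 < k) (hk : k < μ) {ξ : ℂ} (hξ : IsPrimitiveRoot ξ (p ^ r)) :
    Pk (T.d i - T.d (i + 2)) k ξ = 0 := by
  have hp : p.Prime := Fact.out
  have hμm : μ ≤ m := by
    have h := T.low_anti hp hp2 hc 0 (Nat.zero_le j)
    simp only [pow_zero] at h
    rw [hμ 0, T.al_one] at h
    exact h
  revert ξ
  induction r using Nat.strong_induction_on with
  | _ r ih =>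
  intro ξ hξ
  rcases Nat.eq_zero_or_pos r with h0 | hr0
  · subst h0
    have h1 : ξ = 1 := by
      rw [pow_zero] at hξ
      exact IsPrimitiveRoot.one_right_iff.1 hξ
    rw [h1]
    exact T.mom_low i (by omega)
  · obtain ⟨μ', hμμ', hμ'⟩ := T.low_common hp hp2 hc hμ0 hμ hr
    have hodd : Odd (p ^ r) := (hp.odd_of_ne_two hp2).pow
    have hW := transfer hp2 hr0 hk0 (T.d i - T.d (i + 2)) hξ (fun c hcp =>
      T.lam_low i hodd (by omega) hμ' (hξ.pow_of_coprime c (hcp.pow_right r)) (by omega))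
    unfold Wk at hW
    rw [T.mom_low i (by omega), mul_zero, zero_div, add_zero,
      Finset.sum_eq_single 0] at hW
    · rw [pow_zero, one_pow, one_mul, pow_zero, pow_one] at hW
      exact hW
    · intro s hs hs0
      have hsr : s < r := Finset.mem_range.1 hs
      have hprim : IsPrimitiveRoot (ξ ^ p ^ s) (p ^ (r - s)) := by
        refine hξ.pow (pow_pos hp.pos r) ?_
        rw [← pow_add]
        congr 1
        omega
      rw [ih (r - s) (by omega) (by omega) hprim, mul_zero]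
    · intro h
      exact absurd (Finset.mem_range.2 hr0) h

end Trip

end Pool.Agent.Lib_MP_e4b855_nt.Tri
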