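import Pool.Agent.Lib_MP_e4b855_nt.Tri.LowA
import Pool.Agent.Lib_MP_e4b855_nt.Tri.Transfer0

/-!
# Part III: values of `P_v` (`v = d_i - d_{i+2}`) at the levels up to the first irrational one
-/

namespace Pool.Agent.Lib_MP_e4b855_nt.Tri

open PowerSeries Finset

/-- the first value from the vanishing of `Wz` -/
theorem LB_first {p : ℕ} {r : ℕ} (hr : 0 < r) (v : ℕ →₀ ℤ) {ξ : ℂ}
    (hW : Wz p r v 0 ξ = 0) (h : ∀ i, 0 < i → i < r → Pk v 0 (ξ ^ p ^ i) = 0) : Pk v 0 ξ = 0 := by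
  unfold Wz at hW
  rw [Finset.sum_eq_single_of_mem 0 (Finset.mem_range.2 hr)] at hW
  · simpa using hW
  · intro i hi hi0
    rw [h i (Nat.pos_of_ne_zero hi0) (Finset.mem_range.1 hi), mul_zero]

/-- `Pk` of `tw v` -/
theorem LB_Pk_tw (v : ℕ →₀ ℤ) (ξ : ℂ) : Pk (tw v) 0 ξ = Pk v 0 (ξ ^ 2) - Pk v 0 ξ := by
  unfold Pk tw
  rw [Finsupp.sum_sub_index]
  · congr 1
    rw [Finsupp.sum_mapDomain_index_inj (f := fun n : ℕ => 2 * n) (fun a b h => by simpa using h)]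
    refine Finsupp.sum_congr fun n _ => ?_
    simp only [pow_zero]
    rw [pow_mul]
  · intro n a b
    push_cast
    ring

namespace Trip

variable {m : ℕ} (T : Trip m)

theorem LB_log (i : ZMod 3) {N : ℕ} (hN : 0 < N) {μ : ℕ}
    (hμ : ∀ l, T.al l N = μ) {ζ : ℂ} (hζ : IsPrimitiveRoot ζ N) :
    Real.log ‖coeff μ (T.D i ζ 1)‖ =
      ((T.d i).sum fun n a => if N ∣ n then (a : ℝ) * Real.log n else 0) +
      ((T.d i).sum fun n a => if N ∣ n then 0 else (a : ℝ) * Real.log ‖ζ ^ n - 1‖) := by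
  obtain ⟨U, hU1, hU2, hU3⟩ := T.D_lead i hN hζ (one_ne_zero : (1 : ℂ) ≠ 0)
  rw [hμ i] at hU3
  have h0 : coeff μ (T.D i ζ 1) = constantCoeff U := by
    have h := coeff_X_pow_mul U μ 0
    rw [zero_add] at h
    rw [hU3, h, coeff_zero_eq_constantCoeff_apply]
  have hprod : (T.d i).prod (fun n c => (if N ∣ n then (1 : ℂ) * n else ζ ^ n - 1) ^ c) ≠ 0 := by
    intro h
    apply hU2
    rw [hU1, h, mul_zero]
  have he : ‖(T.e i : ℂ)‖ = 1 := by
    rcases T.e_eq i with h | h <;> rw [h] <;> simp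
  have hz : ‖ζ ^ (-T.M i)‖ = 1 := by rw [norm_zpow, hζ.norm'_eq_one hN.ne', one_zpow]
  rw [h0, hU1, norm_mul, norm_mul, he, hz, one_mul, one_mul]
  unfold Finsupp.prod at hprod ⊢
  rw [Finset.prod_ne_zero_iff] at hprod
  rw [norm_prod, Real.log_prod (fun n hn => norm_ne_zero_iff.2 (hprod n hn)), Finsupp.sum,
    Finsupp.sum, ← Finset.sum_add_distrib]
  refine Finset.sum_congr rfl fun n _ => ?_
  rw [norm_zpow, Real.log_zpow]
  by_cases h : N ∣ n
  · simp only [h, if_true, one_mul, add_zero, Complex.norm_natCast]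
  · simp only [h, if_false, zero_add]

/-- absolute values of the leading coefficients (`D_lead`) -/
theorem log_lead (i : ZMod 3) {N : ℕ} (hN : 0 < N) {μ : ℕ}
    (hμ : ∀ l, T.al l N = μ) {ζ : ℂ} (hζ : IsPrimitiveRoot ζ N) :
    Real.log ‖coeff μ (T.D i ζ 1)‖ - Real.log ‖coeff μ (T.D (i + 2) ζ 1)‖ =
      ((T.d i - T.d (i + 2)).sum fun n a => if N ∣ n then (a : ℝ) * Real.log n else 0) +
      ((T.d i - T.d (i + 2)).sum fun n a =>
        if N ∣ n then 0 else (a : ℝ) * Real.log ‖ζ ^ n - 1‖) := by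
  rw [T.LB_log i hN hμ hζ, T.LB_log (i + 2) hN hμ hζ, Finsupp.sum_sub_index, Finsupp.sum_sub_index]
  · ring
  · intro n a b
    split_ifs
    · simp
    · push_cast
      ring
  · intro n a b
    split_ifs
    · push_cast
      ring
    · simp

/-- A common level with constant ratio, all lower levels being so too: `transfer0` gives
`Wz p r v 0 ξ = 0`; induction on `r` with the definition of `Wz`. -/
theorem low_rational {p : ℕ} [Fact p.Prime] (hp2 : p ≠ 2) (hc : 2 ^ (m - 1) < 2 * p) {j μ : ℕ}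
    (hμ0 : 0 < μ) (hμ : ∀ l, T.al l (p ^ j) = μ)
    (hlow : ∀ r μ' : ℕ, 0 < r → r < j → 0 < μ' → (∀ l, T.al l (p ^ r) = μ') → ∀ i : ZMod 3,
      ∃ a b : ℤ, a ≠ 0 ∧ b ≠ 0 ∧ ∀ ζ : ℂ, IsPrimitiveRoot ζ (p ^ r) →
        (b : ℂ) * coeff μ' (T.D i ζ 1) = a * coeff μ' (T.D (i + 2) ζ 1))
    (i : ZMod 3) {r : ℕ} (hr0 : 0 < r) (hr : r < j) {ξ : ℂ} (hξ : IsPrimitiveRoot ξ (p ^ r)) :
    Pk (T.d i - T.d (i + 2)) 0 ξ = 0 := by
  have hp : p.Prime := Fact.out
  have hodd : Odd p := hp.odd_of_ne_two hp2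
  have hv0 : (T.d i - T.d (i + 2)) 0 = 0 := by
    rw [Finsupp.sub_apply, T.d_zero, T.d_zero, sub_self]
  have key : ∀ r : ℕ, 0 < r → r < j → ∀ ξ : ℂ, IsPrimitiveRoot ξ (p ^ r) →
      Pk (T.d i - T.d (i + 2)) 0 ξ = 0 := by
    intro r
    induction r using Nat.strong_induction_on with
    | _ r ih =>
      intro hr0 hr ξ hξ
      obtain ⟨μ', hμμ', hμ'⟩ := T.low_common hp hp2 hc hμ0 hμ hr.le
      have hμ'0 : 0 < μ' := by omega
      obtain ⟨a, b, ha, hb, hab⟩ := hlow r μ' hr0 hr hμ'0 hμ' i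
      have hpr : 0 < p ^ r := pow_pos hp.pos r
      have hoddr : Odd (p ^ r) := hodd.pow
      have hW : Wz p r (T.d i - T.d (i + 2)) 0 ξ = 0 := by
        refine transfer0 hp2 hr0 _ hv0 hξ
          (fun i' hi' => T.low_lev hp hp2 hc hμ0 hμ i (hi'.trans hr.le))
          (Real.log ‖(a : ℂ)‖ - Real.log ‖(b : ℂ)‖ -
            ((T.d i - T.d (i + 2)).sum fun n a => if p ^ r ∣ n then (a : ℝ) * Real.log n else 0))
          ?_
        intro c hc'
        have hξc : IsPrimitiveRoot (ξ ^ c) (p ^ r) :=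
          hξ.pow_of_coprime c (Nat.Coprime.pow_right r hc')
        have h1 := T.log_lead i hpr hμ' hξc
        have h2 := hab _ hξc
        have hx := (T.G10_coeff i hoddr hμ'0 hμ' hξc).2.1
        have hy := (T.G10_coeff (i + 2) hoddr hμ'0 hμ' hξc).2.1
        have h3 := congrArg (fun z : ℂ => Real.log ‖z‖) h2
        have haC : (a : ℂ) ≠ 0 := by exact_mod_cast ha
        have hbC : (b : ℂ) ≠ 0 := by exact_mod_cast hb
        simp only [norm_mul] at h3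
        rw [Real.log_mul (norm_ne_zero_iff.2 hbC) (norm_ne_zero_iff.2 hx),
          Real.log_mul (norm_ne_zero_iff.2 haC) (norm_ne_zero_iff.2 hy)] at h3
        linarith
      refine LB_first hr0 _ hW ?_
      intro i' hi'0 hi'r
      refine ih (r - i') (by omega) (by omega) (by omega) _ ?_
      refine hξ.pow hpr ?_
      rw [← pow_add]
      congr 1
      omega
  exact key r hr0 hr ξ hξ

/-- At the level `j`: the ratio is invariant under `ζ ↦ ζ²` (`ratio_sq`), so by `log_lead`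
`∑_{p^j ∤ n} (tw v)_n log ‖ζ^n - 1‖ = 0` for all `ζ`; `transfer0` for `tw v` (`lev_tw`) gives
`Wz p j (tw v) 0 ζ = 0`, `Pk (tw v) 0 ξ = Pk v 0 (ξ²) - Pk v 0 ξ`, and the terms of lower level
vanish by `low_rational`. -/
theorem top_sq {p : ℕ} [Fact p.Prime] (hp2 : p ≠ 2) (hc : 2 ^ (m - 1) < 2 * p) {j μ : ℕ}
    (hj : 0 < j) (hμ0 : 0 < μ) (hμ : ∀ l, T.al l (p ^ j) = μ)
    (hlow : ∀ r μ' : ℕ, 0 < r → r < j → 0 < μ' → (∀ l, T.al l (p ^ r) = μ') → ∀ i : ZMod 3,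
      ∃ a b : ℤ, a ≠ 0 ∧ b ≠ 0 ∧ ∀ ζ : ℂ, IsPrimitiveRoot ζ (p ^ r) →
        (b : ℂ) * coeff μ' (T.D i ζ 1) = a * coeff μ' (T.D (i + 2) ζ 1))
    (i : ZMod 3) {ζ : ℂ} (hζ : IsPrimitiveRoot ζ (p ^ j)) :
    Pk (T.d i - T.d (i + 2)) 0 (ζ ^ 2) = Pk (T.d i - T.d (i + 2)) 0 ζ := by
  have hp : p.Prime := Fact.out
  have hodd : Odd p := hp.odd_of_ne_two hp2
  have hpj : 0 < p ^ j := pow_pos hp.pos j
  have hoddj : Odd (p ^ j) := hodd.pow
  have hv0 : (T.d i - T.d (i + 2)) 0 = 0 := by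
    rw [Finsupp.sub_apply, T.d_zero, T.d_zero, sub_self]
  obtain ⟨v, hv⟩ : ∃ v, v = T.d i - T.d (i + 2) := ⟨_, rfl⟩
  have htw0 : (tw v) 0 = 0 := by
    have h1 : (v.mapDomain (fun n => 2 * n)) 0 = 0 := by
      have := Finsupp.mapDomain_apply (f := fun n : ℕ => 2 * n)
        (fun a b (h : 2 * a = 2 * b) => by omega) v 0
      rw [hv, hv0] at this
      rw [hv]
      simpa using this
    unfold tw
    rw [Finsupp.sub_apply, h1, hv, hv0, sub_self]
  -- the logarithmic sum is invariant under squaring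
  have hsq : ∀ ξ : ℂ, IsPrimitiveRoot ξ (p ^ j) →
      (v.sum fun n a => if p ^ j ∣ n then 0 else (a : ℝ) * Real.log ‖(ξ ^ 2) ^ n - 1‖) =
      (v.sum fun n a => if p ^ j ∣ n then 0 else (a : ℝ) * Real.log ‖ξ ^ n - 1‖) := by
    intro ξ hξ
    have hξ2 : IsPrimitiveRoot (ξ ^ 2) (p ^ j) :=
      hξ.pow_of_coprime 2 (Nat.coprime_two_left.2 hoddj)
    have h1 := T.log_lead i hpj hμ hξ
    have h2 := T.log_lead i hpj hμ hξ2
    have h3 := T.ratio_sq i hoddj hμ0 hμ hξ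
    have hx := (T.G10_coeff i hoddj hμ0 hμ hξ).2.1
    have hy := (T.G10_coeff (i + 2) hoddj hμ0 hμ hξ).2.1
    have hx2 := (T.G10_coeff i hoddj hμ0 hμ hξ2).2.1
    have hy2 := (T.G10_coeff (i + 2) hoddj hμ0 hμ hξ2).2.1
    have h4 := congrArg (fun z : ℂ => Real.log ‖z‖) h3
    simp only [norm_mul] at h4
    rw [Real.log_mul (norm_ne_zero_iff.2 hx2) (norm_ne_zero_iff.2 hy),
      Real.log_mul (norm_ne_zero_iff.2 hy2) (norm_ne_zero_iff.2 hx)] at h4
    rw [← hv] at h1 h2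
    linarith
  have hW : Wz p j (tw v) 0 ζ = 0 := by
    refine transfer0 hp2 hj _ htw0 hζ (fun i' _ => lev_tw v hodd.pow) 0 ?_
    intro c hc'
    have hζc : IsPrimitiveRoot (ζ ^ c) (p ^ j) :=
      hζ.pow_of_coprime c (Nat.Coprime.pow_right j hc')
    have h1 := hsq _ hζc
    unfold tw
    rw [Finsupp.sum_sub_index, Finsupp.sum_mapDomain_index_inj (f := fun n : ℕ => 2 * n)
      (fun a b h => by simpa using h), sub_eq_zero, ← h1]
    · refine Finsupp.sum_congr fun n _ => ?_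
      have h2 : p ^ j ∣ 2 * n ↔ p ^ j ∣ n :=
        Nat.Coprime.dvd_mul_left (Nat.coprime_two_right.2 hoddj)
      simp only [h2]
      rw [pow_mul]
    · intro n a b
      split_ifs
      · simp
      · push_cast
        ring
  have hfirst : Pk (tw v) 0 ζ = 0 := by
    refine LB_first hj _ hW ?_
    intro i' hi'0 hi'j
    have hprim : IsPrimitiveRoot (ζ ^ p ^ i') (p ^ (j - i')) := by
      refine hζ.pow hpj ?_
      rw [← pow_add]
      congr 1
      omega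
    have hprim2 : IsPrimitiveRoot ((ζ ^ p ^ i') ^ 2) (p ^ (j - i')) :=
      hprim.pow_of_coprime 2 (Nat.coprime_two_left.2 hodd.pow)
    rw [LB_Pk_tw, hv, T.low_rational hp2 hc hμ0 hμ hlow i (by omega) (by omega) hprim,
      T.low_rational hp2 hc hμ0 hμ hlow i (by omega) (by omega) hprim2, sub_zero]
  rw [LB_Pk_tw, sub_eq_zero, hv] at hfirst
  exact hfirst

end Trip

end Pool.Agent.Lib_MP_e4b855_nt.Tri
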