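import Pool.Agent.Lib_MP_e4b855_nt.Tri.TwoPoly
import Pool.Agent.Lib_MP_e4b855_nt.Tri.Num

/-! Part II: assembly (helper56) -/

namespace Pool.Agent.Lib_MP_e4b855_nt.Tri

open PowerSeries Finset

theorem coeff_mul_of_dvd {f g : ℂ⟦X⟧} {a b : ℕ} (hf : X ^ a ∣ f) (hg : X ^ b ∣ g) :
    coeff (a + b) (f * g) = coeff a f * coeff b g := by
  obtain ⟨f, rfl⟩ := hf
  obtain ⟨g, rfl⟩ := hg
  have e : X ^ a * f * (X ^ b * g) = X ^ (a + b) * (f * g) := by ring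
  rw [e]
  have h1 := coeff_X_pow_mul (f * g) (a + b) 0
  have h2 := coeff_X_pow_mul f a 0
  have h3 := coeff_X_pow_mul g b 0
  rw [zero_add] at h1 h2 h3
  rw [h1, h2, h3]
  simp

theorem three_mul_dvd {D D' W W' : ℂ⟦X⟧} {a b : ℂ} (hb : b ≠ 0) {μ : ℕ}
    (h1 : X ^ (2 * μ) ∣ C b * D - C a * D') (h2 : X ^ (2 * μ) ∣ C b * W - C a * W')
    (h3 : X ^ μ ∣ D') (h4 : X ^ μ ∣ W') : X ^ (3 * μ) ∣ D * W' - D' * W := by
  have e : C b * (D * W' - D' * W) = (C b * D - C a * D') * W' - D' * (C b * W - C a * W') := by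
    ring
  have h5 : X ^ (3 * μ) ∣ C b * (D * W' - D' * W) := by
    rw [e]
    have e3 : 3 * μ = 2 * μ + μ := by ring
    refine dvd_sub ?_ ?_
    · rw [e3, pow_add]; exact mul_dvd_mul h1 h4
    · rw [e3, add_comm, pow_add]; exact mul_dvd_mul h3 h2
  have h6 : (C b⁻¹ : ℂ⟦X⟧) * (C b * (D * W' - D' * W)) = D * W' - D' * W := by
    rw [← mul_assoc, ← map_mul, inv_mul_cancel₀ hb, map_one, one_mul]
  rw [← h6]
  exact Dvd.dvd.mul_left h5 _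

theorem coeff_three {D D' W W' : ℂ⟦X⟧} {a b : ℂ} {μ : ℕ}
    (h1 : X ^ (2 * μ) ∣ C b * D - C a * D') (h2 : X ^ (2 * μ) ∣ C b * W - C a * W')
    (h3 : X ^ μ ∣ D') (h4 : X ^ μ ∣ W') :
    b * coeff (3 * μ) (D * W' - D' * W) =
      coeff (2 * μ) (C b * D - C a * D') * coeff μ W' -
        coeff μ D' * coeff (2 * μ) (C b * W - C a * W') := by
  have e : C b * (D * W' - D' * W) = (C b * D - C a * D') * W' - D' * (C b * W - C a * W') := by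
    ring
  have e3 : 3 * μ = 2 * μ + μ := by ring
  have e4 : 3 * μ = μ + 2 * μ := by ring
  have h5 : coeff (3 * μ) (C b * (D * W' - D' * W)) = b * coeff (3 * μ) (D * W' - D' * W) :=
    coeff_C_mul _ _ _
  rw [← h5, e, map_sub]
  congr 1
  · rw [e3]; exact coeff_mul_of_dvd h1 h4
  · rw [e4]; exact coeff_mul_of_dvd h3 h2

namespace Trip

variable {m : ℕ} (T : Trip m)

theorem exists_shift : ∃ N : ℕ, (∀ l, ∀ a ∈ T.S l, 0 ≤ a + N) ∧
    ∀ l, ∀ n ∈ (T.v l).support, n ≤ N := by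
  refine ⟨(∑ l, ∑ a ∈ T.S l, a.natAbs) + ∑ l, ∑ n ∈ (T.v l).support, n, ?_, ?_⟩
  · intro l a ha
    have h1 : a.natAbs ≤ ∑ a ∈ T.S l, a.natAbs :=
      Finset.single_le_sum (f := fun a : ℤ => a.natAbs) (fun _ _ => Nat.zero_le _) ha
    have h2 : ∑ a ∈ T.S l, a.natAbs ≤ ∑ l, ∑ a ∈ T.S l, a.natAbs :=
      Finset.single_le_sum (f := fun l => ∑ a ∈ T.S l, a.natAbs) (fun _ _ => Nat.zero_le _)
        (Finset.mem_univ l)
    push_cast
    have h3 : (0 : ℤ) ≤ ∑ l, ∑ n ∈ (T.v l).support, (n : ℤ) :=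
      Finset.sum_nonneg fun _ _ => Finset.sum_nonneg fun _ _ => Int.natCast_nonneg _
    have h4 : ((∑ l, ∑ a ∈ T.S l, a.natAbs : ℕ) : ℤ) = ∑ l, ∑ a ∈ T.S l, (a.natAbs : ℤ) := by
      push_cast; rfl
    have h5 : (a.natAbs : ℤ) ≤ ∑ l, ∑ a ∈ T.S l, (a.natAbs : ℤ) := by
      rw [← h4]; exact_mod_cast h1.trans h2
    have h6 : -(a.natAbs : ℤ) ≤ a := by omega
    simp only [Int.natCast_natAbs] at h5 h6
    linarith
  · intro l n hn
    have h1 : n ≤ ∑ n ∈ (T.v l).support, n :=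
      Finset.single_le_sum (f := fun n : ℕ => n) (fun _ _ => Nat.zero_le _) hn
    have h2 : ∑ n ∈ (T.v l).support, n ≤ ∑ l, ∑ n ∈ (T.v l).support, n :=
      Finset.single_le_sum (f := fun l => ∑ n ∈ (T.v l).support, n) (fun _ _ => Nat.zero_le _)
        (Finset.mem_univ l)
    omega

/-- the integral polynomial `x^N D_l(x)` -/
noncomputable def DPz (N : ℕ) (l : ZMod 3) : Polynomial ℤ := pol N (T.S l) - pol N (T.S (l + 1))

theorem jt_DPz {N : ℕ} (hN : ∀ l, ∀ a ∈ T.S l, 0 ≤ a + N) (l : ZMod 3) {ζ : ℂ} (hζ : ζ ≠ 0) :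
    jt ζ ((T.DPz N l).map (Int.castRingHom ℚ)) = C (ζ ^ N) * ee N * T.D l ζ 1 := by
  unfold DPz D
  rw [Polynomial.map_sub, map_sub, jt_pol (hN l) hζ, jt_pol (hN (l + 1)) hζ]
  ring

theorem X_pow_dvd_D (l : ZMod 3) {M : ℕ} (hM : 0 < M) {ζ : ℂ} (hζ : IsPrimitiveRoot ζ M) :
    X ^ T.al l M ∣ T.D l ζ 1 := by
  obtain ⟨U, _, _, h⟩ := T.D_lead l hM hζ one_ne_zero
  exact ⟨U, h⟩

theorem DPz_dvd {p : ℕ} [Fact p.Prime] {N : ℕ} (hN : ∀ l, ∀ a ∈ T.S l, 0 ≤ a + N) (l : ZMod 3)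
    (L : ℕ) : (Polynomial.X - 1) ^ m * ∏ j ∈ Icc 1 L,
      Polynomial.cyclotomic (p ^ j) ℤ ^ T.al l (p ^ j) ∣ T.DPz N l := by
  have hp := (Fact.out : p.Prime)
  apply prod_dvd_int (p := p) _ m L (fun j => T.al l (p ^ j))
  · rw [T.jt_DPz hN l one_ne_zero]
    have := T.X_pow_dvd_D l one_pos IsPrimitiveRoot.one
    rw [T.al_one] at this
    exact Dvd.dvd.mul_left this _
  · intro j hj
    have hpj : 0 < p ^ j := pow_pos hp.pos j
    have hζ := Complex.isPrimitiveRoot_exp (p ^ j) hpj.ne'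
    refine ⟨_, hζ, ?_⟩
    rw [T.jt_DPz hN l (hζ.ne_zero hpj.ne')]
    exact Dvd.dvd.mul_left (T.X_pow_dvd_D l hpj hζ) _

theorem PP_dvd {p : ℕ} [Fact p.Prime] (hp2 : p ≠ 2) (hc : 2 ^ (m - 1) < 2 * p) {N : ℕ}
    (hN : ∀ l, ∀ n ∈ (T.v l).support, n ≤ N) (l : ZMod 3) (L : ℕ) :
    (Polynomial.X - 1) ^ m * ∏ j ∈ Icc 1 L,
      Polynomial.cyclotomic (p ^ j) ℤ ^ T.al l (p ^ j) ∣ PP N (T.v l) := by
  have hp := (Fact.out : p.Prime)
  apply prod_dvd_int (p := p) _ m L (fun j => T.al l (p ^ j))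
  · rw [jt_PP (hN l) one_ne_zero]
    refine Dvd.dvd.mul_left ?_ _
    rw [X_pow_dvd_iff]
    intro k hk
    unfold PS
    rw [coeff_mk, T.mom_zero l hk, zero_div]
  · intro j hj
    have hj0 : 0 < j := (Finset.mem_Icc.mp hj).1
    have hpj : 0 < p ^ j := pow_pos hp.pos j
    have hζ := Complex.isPrimitiveRoot_exp (p ^ j) hpj.ne'
    refine ⟨_, hζ, ?_⟩
    rw [jt_PP (hN l) (hζ.ne_zero hpj.ne')]
    refine Dvd.dvd.mul_left ?_ _
    rw [X_pow_dvd_iff]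
    intro k hk
    unfold PS
    rw [coeff_mk, T.Pk_van l hp2 hc hj0 hk hζ, zero_div]

/-- the prescribed moments of `H` -/
noncomputable def hw (p : ℕ) (l : ZMod 3) (k : ℕ) : ℚ :=
  if k < m then 0 else (1 + (-1) ^ k) * ((T.v l).sum fun n c => (c : ℚ) * (n : ℚ) ^ k) /
    (1 - (p : ℚ) ^ (k - 1))

theorem Pk_one (v : ℕ →₀ ℤ) (k : ℕ) :
    Pk v k 1 = (((1 + (-1) ^ k) * (v.sum fun n c => (c : ℚ) * (n : ℚ) ^ k) : ℚ) : ℂ) := by
  unfold Pk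
  rw [Finsupp.sum, Finsupp.sum]
  push_cast
  rw [Finset.mul_sum]
  apply Finset.sum_congr rfl
  intro n _
  simp
  ring

theorem hw_eq {p : ℕ} (l : ZMod 3) (k : ℕ) :
    ((T.hw p l k : ℚ) : ℂ) = Pk (T.v l) k 1 / (1 - (p : ℂ) ^ (k - 1)) := by
  unfold hw
  split_ifs with h
  · rw [T.mom_zero l h]; simp
  · rw [Pk_one]; push_cast; ring

theorem hw_norm {p : ℕ} [Fact p.Prime] (l : ZMod 3) (k : ℕ) : padicNorm p (T.hw p l k) ≤ 1 := by
  unfold hw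
  split_ifs with h
  · simp
  · have hm := T.hm
    have hk : 1 ≤ k - 1 := by omega
    have e1 : (1 + (-1) ^ k) * ((T.v l).sum fun n c => (c : ℚ) * (n : ℚ) ^ k) =
        (((1 + (-1) ^ k) * ((T.v l).sum fun n c => c * (n : ℤ) ^ k) : ℤ) : ℚ) := by
      rw [Finsupp.sum, Finsupp.sum]; push_cast; rfl
    have e2 : (1 - (p : ℚ) ^ (k - 1)) = ((1 - (p : ℤ) ^ (k - 1) : ℤ) : ℚ) := by push_cast; rfl
    rw [padicNorm.div, e1, e2]
    have h3 : padicNorm p ((1 - (p : ℤ) ^ (k - 1) : ℤ) : ℚ) = 1 := by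
      rw [padicNorm.int_eq_one_iff]
      intro hd
      have h4 : (p : ℤ) ∣ (p : ℤ) ^ (k - 1) := dvd_pow_self _ (by omega)
      have h5 : (p : ℤ) ∣ 1 := by
        have := dvd_add hd h4
        simpa using this
      have h6 := (Fact.out : p.Prime).one_lt
      have h7 := Int.le_of_dvd one_pos h5
      omega
    rw [h3, div_one]
    exact padicNorm.of_int _

end Trip

end Pool.Agent.Lib_MP_e4b855_nt.Tri
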