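import Pool.Agent.Lib_MP_e4b855_nt.Tri.Th

/-!
# Part III: Gaussian periods of the cubic field of conductor 283
-/

namespace Pool.Agent.Lib_MP_e4b855_nt.Tri

open Finset

/-- Gaussian period -/
def gp {R : Type*} [CommRing R] (c : ℕ) (η : R) : R := ∑ i ∈ range 94, η ^ (3 ^ c * 2 ^ i)

theorem gp_cube {R : Type*} [CommRing R] (c : ℕ) (η : R) : gp c (η ^ 3) = gp (c + 1) η := by
  unfold gp
  refine Finset.sum_congr rfl fun i _ => ?_
  rw [← pow_mul]
  congr 1
  ring

namespace PerAux

variable {R : Type*} [CommRing R]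

theorem pow_congr {η : R} (h : η ^ 283 = 1) {a b : ℕ} (hab : a % 283 = b % 283) :
    η ^ a = η ^ b := by
  rw [pow_eq_pow_mod a h, pow_eq_pow_mod b h, hab]

theorem sum_shift (f : ℕ → R) (hf : ∀ i, f (i + 94) = f i) (s : ℕ) :
    ∑ i ∈ range 94, f (i + s) = ∑ i ∈ range 94, f i := by
  induction s with
  | zero => rfl
  | succ s ih =>
    rw [← ih]
    have h1 : ∑ i ∈ range 95, f (i + s) = ∑ i ∈ range 94, f (i + s) + f (94 + s) :=
      Finset.sum_range_succ (fun i => f (i + s)) 94
    have h2 : ∑ i ∈ range 95, f (i + s) = ∑ i ∈ range 94, f (i + 1 + s) + f (0 + s) :=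
      Finset.sum_range_succ' (fun i => f (i + s)) 94
    have h3 : f (94 + s) = f (0 + s) := by
      rw [Nat.add_comm 94 s, Nat.zero_add]; exact hf s
    have h4 : ∑ i ∈ range 94, f (i + (s + 1)) = ∑ i ∈ range 94, f (i + 1 + s) :=
      Finset.sum_congr rfl fun i _ => by congr 1; ring
    rw [h4]
    rw [h1, h3] at h2
    exact (add_right_cancel h2).symm

/-- evaluation of lists -/
def ev (η : R) : List ℤ → R
  | [] => 0
  | a :: l => (a : R) + η * ev η l

/-- cyclic shift -/
def rot (h : ℕ) (L : List ℤ) : List ℤ := L.drop (283 - h) ++ L.take (283 - h)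

theorem ev_append (η : R) (A B : List ℤ) : ev η (A ++ B) = ev η A + η ^ A.length * ev η B := by
  induction A with
  | nil => simp [ev]
  | cons a l ih =>
    simp only [List.cons_append, ev, ih, List.length_cons]
    ring

theorem length_rot (h : ℕ) (L : List ℤ) (hL : L.length = 283) : (rot h L).length = 283 := by
  simp only [rot, List.length_append, List.length_drop, List.length_take, hL]
  omega

theorem ev_rot {η : R} (hη : η ^ 283 = 1) (h : ℕ) (hh : h ≤ 283) (L : List ℤ)
    (hL : L.length = 283) : ev η (rot h L) = η ^ h * ev η L := by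
  have h1 : ev η L = ev η (L.take (283 - h)) + η ^ (283 - h) * ev η (L.drop (283 - h)) := by
    have h2 := ev_append η (L.take (283 - h)) (L.drop (283 - h))
    rw [List.take_append_drop] at h2
    rw [h2, List.length_take, hL, min_eq_left (by omega)]
  rw [rot, ev_append, List.length_drop, hL, h1, mul_add, ← mul_assoc, ← pow_add]
  have h3 : h + (283 - h) = 283 := by omega
  have h4 : 283 - (283 - h) = h := by omega
  rw [h3, h4, hη, one_mul, add_comm]

theorem ev_sub (η : R) (A B : List ℤ) (h : A.length = B.length) :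
    ev η (List.zipWith (· - ·) A B) = ev η A - ev η B := by
  induction A generalizing B with
  | nil =>
    cases B with
    | nil => simp [ev]
    | cons b l => simp at h
  | cons a l ih =>
    cases B with
    | nil => simp at h
    | cons b m =>
      simp only [List.length_cons, Nat.add_right_cancel_iff] at h
      simp only [List.zipWith_cons_cons, ev, ih m h]
      push_cast
      ring

theorem ev_add (η : R) (A B : List ℤ) (h : A.length = B.length) :
    ev η (List.zipWith (· + ·) A B) = ev η A + ev η B := by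
  induction A generalizing B with
  | nil =>
    cases B with
    | nil => simp [ev]
    | cons b l => simp at h
  | cons a l ih =>
    cases B with
    | nil => simp at h
    | cons b m =>
      simp only [List.length_cons, Nat.add_right_cancel_iff] at h
      simp only [List.zipWith_cons_cons, ev, ih m h]
      push_cast
      ring

theorem ev_range (η : R) (n : ℕ) (f : ℕ → ℤ) :
    ev η ((List.range n).map f) = ∑ k ∈ range n, (f k : R) * η ^ k := by
  induction n with
  | zero => simp [ev]
  | succ n ih =>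
    rw [List.range_succ, List.map_append, ev_append, ih, Finset.sum_range_succ]
    simp [ev, mul_comm]

/-- coefficient function constant on the classes -/
def coef (a b c d : ℤ) (k : ℕ) : ℤ :=
  if k ^ 94 % 283 = 0 then a else if k ^ 94 % 283 = 1 then b
  else if k ^ 94 % 283 = 238 then c else d


/-- the classes -/
def cls (v : ℕ) : Finset ℕ := (range 283).filter (fun k => k ^ 94 % 283 = v)

def cv : ℕ → ℕ
  | 0 => 1
  | 1 => 238
  | _ => 44

theorem cls_eq (c : ℕ) (hc : c < 3) :
    cls (cv c) = (range 94).image (fun i => (3 ^ c * 2 ^ i) % 283) := by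
  interval_cases c <;> decide +kernel

theorem cls_inj (c : ℕ) (hc : c < 3) :
    ∀ i ∈ range 94, ∀ j ∈ range 94, (3 ^ c * 2 ^ i) % 283 = (3 ^ c * 2 ^ j) % 283 → i = j := by
  interval_cases c <;> decide +kernel

theorem gp_eq {η : R} (h : η ^ 283 = 1) (c : ℕ) (hc : c < 3) :
    gp c η = ∑ k ∈ cls (cv c), η ^ k := by
  rw [cls_eq c hc, Finset.sum_image]
  · unfold gp
    exact Finset.sum_congr rfl fun i _ => pow_eq_pow_mod _ h
  · intro i hi j hj hij
    exact cls_inj c hc i hi j hj hij

theorem cls_zero : cls 0 = {0} := by decide +kernel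

theorem cls_all : ∀ k ∈ range 283, k ^ 94 % 283 = 0 ∨ k ^ 94 % 283 = 1 ∨ k ^ 94 % 283 = 238 ∨
    k ^ 94 % 283 = 44 := by decide +kernel

theorem coef_sum {η : R} (h : η ^ 283 = 1) (a b c d : ℤ) :
    ∑ k ∈ range 283, (coef a b c d k : R) * η ^ k =
      a + b * gp 0 η + c * gp 1 η + d * gp 2 η := by
  have h1 : ∑ k ∈ range 283, (coef a b c d k : R) * η ^ k =
      ∑ k ∈ range 283, ((if k ^ 94 % 283 = 0 then (a : R) * η ^ k else 0) +
        (if k ^ 94 % 283 = 1 then (b : R) * η ^ k else 0) +
        (if k ^ 94 % 283 = 238 then (c : R) * η ^ k else 0) +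
        (if k ^ 94 % 283 = 44 then (d : R) * η ^ k else 0)) := by
    refine Finset.sum_congr rfl fun k hk => ?_
    rcases cls_all k hk with h0 | h0 | h0 | h0 <;> simp [coef, h0]
  rw [h1, Finset.sum_add_distrib, Finset.sum_add_distrib, Finset.sum_add_distrib,
    ← Finset.sum_filter, ← Finset.sum_filter, ← Finset.sum_filter, ← Finset.sum_filter,
    ← Finset.mul_sum, ← Finset.mul_sum, ← Finset.mul_sum, ← Finset.mul_sum]
  have e0 : ∑ i ∈ range 283 with i ^ 94 % 283 = 0, η ^ i = 1 := by
    have := cls_zero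
    unfold cls at this
    rw [this]; simp
  have e1 : ∑ i ∈ range 283 with i ^ 94 % 283 = 1, η ^ i = gp 0 η := (gp_eq h 0 (by norm_num)).symm
  have e2 : ∑ i ∈ range 283 with i ^ 94 % 283 = 238, η ^ i = gp 1 η :=
    (gp_eq h 1 (by norm_num)).symm
  have e3 : ∑ i ∈ range 283 with i ^ 94 % 283 = 44, η ^ i = gp 2 η :=
    (gp_eq h 2 (by norm_num)).symm
  rw [e0, e1, e2, e3]
  ring

theorem ev_coef {η : R} (h : η ^ 283 = 1) (a b c d : ℤ) :
    ev η ((List.range 283).map (coef a b c d)) =
      a + b * gp 0 η + c * gp 1 η + d * gp 2 η := by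
  rw [ev_range, coef_sum h]

/-- one step of the product -/
def stepP (L : List ℤ) (h : ℕ) : List ℤ := List.zipWith (· - ·) L (rot h L)

/-- one step of a sum of rotations -/
def stepS (B : List ℤ) (L : List ℤ) (h : ℕ) : List ℤ := List.zipWith (· + ·) L (rot h B)

def expo (c : ℕ) : List ℕ := (List.range 94).map (fun i => (3 ^ c * 2 ^ i) % 283)

theorem length_zip {A B : List ℤ} {f : ℤ → ℤ → ℤ} (hA : A.length = 283) (hB : B.length = 283) :
    (List.zipWith f A B).length = 283 := by
  simp [hA, hB]

theorem foldP {η : R} (hη : η ^ 283 = 1) (E : List ℕ) (hE : ∀ h ∈ E, h ≤ 283) (L : List ℤ)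
    (hL : L.length = 283) :
    ev η (E.foldl stepP L) = (E.map (fun h => 1 - η ^ h)).prod * ev η L := by
  induction E generalizing L with
  | nil => simp
  | cons h E ih =>
    rw [List.foldl_cons, ih (fun k hk => hE k (List.mem_cons_of_mem _ hk)) (stepP L h)
      (length_zip hL (length_rot h L hL)), List.map_cons, List.prod_cons]
    have h1 : ev η (stepP L h) = (1 - η ^ h) * ev η L := by
      unfold stepP
      rw [ev_sub η L _ (by rw [hL, length_rot h L hL]),
        ev_rot hη h (hE h List.mem_cons_self) L hL]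
      ring
    rw [h1]
    ring

theorem foldS {η : R} (hη : η ^ 283 = 1) (B : List ℤ) (hB : B.length = 283) (E : List ℕ)
    (hE : ∀ h ∈ E, h ≤ 283) (L : List ℤ) (hL : L.length = 283) :
    ev η (E.foldl (stepS B) L) = (E.map (fun h => η ^ h)).sum * ev η B + ev η L := by
  induction E generalizing L with
  | nil => simp
  | cons h E ih =>
    rw [List.foldl_cons, ih (fun k hk => hE k (List.mem_cons_of_mem _ hk)) (stepS B L h)
      (length_zip hL (length_rot h B hB)), List.map_cons, List.sum_cons]
    have h1 : ev η (stepS B L h) = ev η L + η ^ h * ev η B := by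
      unfold stepS
      rw [ev_add η L _ (by rw [hL, length_rot h B hB]),
        ev_rot hη h (hE h List.mem_cons_self) B hB]
    rw [h1]
    ring

theorem expo_le (c : ℕ) : ∀ h ∈ expo c, h ≤ 283 := by
  intro h hh
  simp only [expo, List.mem_map] at hh
  obtain ⟨i, _, rfl⟩ := hh
  exact (Nat.mod_lt _ (by norm_num)).le

theorem sum_list (g : ℕ → R) (n : ℕ) : ((List.range n).map g).sum = ∑ i ∈ range n, g i := by
  induction n with
  | zero => simp
  | succ n ih => rw [List.range_succ, List.map_append, List.sum_append, ih,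
      Finset.sum_range_succ]; simp

theorem prod_list (g : ℕ → R) (n : ℕ) : ((List.range n).map g).prod = ∏ i ∈ range n, g i := by
  induction n with
  | zero => simp
  | succ n ih => rw [List.range_succ, List.map_append, List.prod_append, ih,
      Finset.prod_range_succ]; simp

theorem sum_expo {η : R} (h : η ^ 283 = 1) (c : ℕ) :
    ((expo c).map (fun k => η ^ k)).sum = gp c η := by
  rw [expo, List.map_map, sum_list]
  exact Finset.sum_congr rfl fun i _ => (pow_eq_pow_mod _ h).symm

theorem prod_expo {η : R} (h : η ^ 283 = 1) :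
    ((expo 0).map (fun k => 1 - η ^ k)).prod = ∏ i ∈ range 94, (1 - η ^ 2 ^ i) := by
  rw [expo, List.map_map, prod_list]
  refine Finset.prod_congr rfl fun i _ => ?_
  simp only [Function.comp, pow_zero, one_mul]
  rw [pow_eq_pow_mod (2 ^ i) h]

theorem tab_mul_zero :
    (expo 0).foldl (stepS ((List.range 283).map (coef 0 1 0 0)))
      ((List.range 283).map (coef 0 0 0 0)) = (List.range 283).map (coef 94 27 34 32) := by
  decide +kernel

theorem tab_mul_one :
    (expo 0).foldl (stepS ((List.range 283).map (coef 0 0 1 0)))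
      ((List.range 283).map (coef 0 0 0 0)) = (List.range 283).map (coef 0 34 32 28) := by
  decide +kernel

theorem tab_prod :
    (expo 0).foldl stepP ((List.range 283).map (coef 1 0 0 0)) =
      (List.range 283).map (coef 7108938 (-868729) 473295 319807) := by
  decide +kernel

theorem len_coef (a b c d : ℤ) : ((List.range 283).map (coef a b c d)).length = 283 := by simp

end PerAux

open PerAux

/-- `27 = 2^55` modulo `283` -/
theorem gp_three {R : Type*} [CommRing R] {η : R} (h : η ^ 283 = 1) (c : ℕ) :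
    gp (c + 3) η = gp c η := by
  unfold gp
  have h1 : ∀ i, η ^ (3 ^ (c + 3) * 2 ^ i) = η ^ (3 ^ c * 2 ^ (i + 55)) := by
    intro i
    apply pow_congr h
    have h2 : 3 ^ (c + 3) * 2 ^ i = 27 * (3 ^ c * 2 ^ i) := by ring
    have h3 : 3 ^ c * 2 ^ (i + 55) = 2 ^ 55 * (3 ^ c * 2 ^ i) := by ring
    rw [h2, h3]
    have h4 : 27 ≡ 2 ^ 55 [MOD 283] := by decide +kernel
    exact Nat.ModEq.mul_right _ h4
  rw [Finset.sum_congr rfl fun i _ => h1 i]
  refine sum_shift (fun i => η ^ (3 ^ c * 2 ^ i)) ?_ 55
  intro i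
  apply pow_congr h
  have h3 : 3 ^ c * 2 ^ (i + 94) = 2 ^ 94 * (3 ^ c * 2 ^ i) := by ring
  rw [h3]
  have h4 : 2 ^ 94 ≡ 1 [MOD 283] := by decide +kernel
  have h5 := Nat.ModEq.mul_right (3 ^ c * 2 ^ i) h4
  rw [one_mul] at h5
  exact h5

theorem gp_sum {η : ℂ} (h : IsPrimitiveRoot η 283) : gp 0 η + gp 1 η + gp 2 η = -1 := by
  have h1 := h.geom_sum_eq_zero (by norm_num)
  have h2 := coef_sum h.pow_eq_one 1 1 1 1
  have h3 : ∑ k ∈ range 283, (coef 1 1 1 1 k : ℂ) * η ^ k = ∑ k ∈ range 283, η ^ k := by
    refine Finset.sum_congr rfl fun k _ => ?_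
    have : coef 1 1 1 1 k = 1 := by unfold coef; split_ifs <;> rfl
    rw [this]; simp
  rw [h3, h1] at h2
  push_cast at h2
  linear_combination -h2

/-- counting (kernel computation): among the `94²` sums `2^i + 2^j` modulo `283` the class `0` occurs
94 times and each element of `⟨2⟩, 3⟨2⟩, 9⟨2⟩` occurs 27, 34, 32 times -/
theorem gp_mul_zero {R : Type*} [CommRing R] {η : R} (h : η ^ 283 = 1) :
    gp 0 η * gp 0 η = 94 + 27 * gp 0 η + 34 * gp 1 η + 32 * gp 2 η := by
  have h1 := foldS h _ (len_coef 0 1 0 0) (expo 0) (expo_le 0) _ (len_coef 0 0 0 0)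
  rw [tab_mul_zero, sum_expo h, ev_coef h, ev_coef h, ev_coef h] at h1
  push_cast at h1
  linear_combination -h1

/-- counting: `2^i + 3·2^j`: 0, 34, 32, 28 -/
theorem gp_mul_one {R : Type*} [CommRing R] {η : R} (h : η ^ 283 = 1) :
    gp 0 η * gp 1 η = 34 * gp 0 η + 32 * gp 1 η + 28 * gp 2 η := by
  have h1 := foldS h _ (len_coef 0 0 1 0) (expo 0) (expo_le 0) _ (len_coef 0 0 0 0)
  rw [tab_mul_one, sum_expo h, ev_coef h, ev_coef h, ev_coef h] at h1
  push_cast at h1
  linear_combination -h1

/-- kernel computation in `ℤ[x]/(x^283 - 1)` (lists of 283 integers; multiplication by `1 - x^h` is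
`L - rotate h L`, 94 times; all coefficients stay below `2 · 10^8`).  The result is `7108938` at
`1`, `-868729` on `⟨2⟩`, `473295` on `3⟨2⟩`, `319807` on `9⟨2⟩`. -/
theorem prod_one_sub {R : Type*} [CommRing R] {η : R} (h : η ^ 283 = 1) :
    ∏ i ∈ range 94, (1 - η ^ 2 ^ i) =
      7108938 - 868729 * gp 0 η + 473295 * gp 1 η + 319807 * gp 2 η := by
  have h1 := foldP h (expo 0) (expo_le 0) _ (len_coef 1 0 0 0)
  rw [tab_prod, prod_expo h, ev_coef h, ev_coef h] at h1
  push_cast at h1
  linear_combination -h1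

end Pool.Agent.Lib_MP_e4b855_nt.Tri
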