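import Pool.Agent.Lib_MP_e4b855_nt.Tri.PerA

/-!
# Part III: numerical values of the units
-/

namespace Pool.Agent.Lib_MP_e4b855_nt.Tri

open Finset

/-- the cubic polynomial of the periods -/
private def perB_f (x : ℝ) : ℝ := x ^ 3 + x ^ 2 - 94 * x + 304

private theorem perB_cont : Continuous perB_f := by
  unfold perB_f
  fun_prop

private theorem perB_root0 : ∃ x : ℝ, 4.2287410650388295 ≤ x ∧ x ≤ 4.2287410650388296 ∧
    x ^ 3 + x ^ 2 - 94 * x + 304 = 0 := by
  have h1 : (4.2287410650388295 : ℝ) ≤ 4.2287410650388296 := by norm_num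
  have h2 := intermediate_value_Icc' h1 (perB_cont.continuousOn)
  have h3 : (0 : ℝ) ∈ Set.Icc (perB_f 4.2287410650388296) (perB_f 4.2287410650388295) := by
    constructor
    · unfold perB_f; norm_num
    · unfold perB_f; norm_num
  obtain ⟨x, hx, hx'⟩ := h2 h3
  exact ⟨x, hx.1, hx.2, hx'⟩

private theorem perB_root1 : ∃ x : ℝ, -11.4870218398300591 ≤ x ∧ x ≤ -11.4870218398300590 ∧
    x ^ 3 + x ^ 2 - 94 * x + 304 = 0 := by
  have h1 : (-11.4870218398300591 : ℝ) ≤ -11.4870218398300590 := by norm_num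
  have h2 := intermediate_value_Icc h1 (perB_cont.continuousOn)
  have h3 : (0 : ℝ) ∈ Set.Icc (perB_f (-11.4870218398300591)) (perB_f (-11.4870218398300590)) := by
    constructor
    · unfold perB_f; norm_num
    · unfold perB_f; norm_num
  obtain ⟨x, hx, hx'⟩ := h2 h3
  exact ⟨x, hx.1, hx.2, hx'⟩

private theorem perB_root2 : ∃ x : ℝ, 6.2582807747912294 ≤ x ∧ x ≤ 6.2582807747912295 ∧
    x ^ 3 + x ^ 2 - 94 * x + 304 = 0 := by
  have h1 : (6.2582807747912294 : ℝ) ≤ 6.2582807747912295 := by norm_num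
  have h2 := intermediate_value_Icc h1 (perB_cont.continuousOn)
  have h3 : (0 : ℝ) ∈ Set.Icc (perB_f (6.2582807747912294)) (perB_f (6.2582807747912295)) := by
    constructor
    · unfold perB_f; norm_num
    · unfold perB_f; norm_num
  obtain ⟨x, hx, hx'⟩ := h2 h3
  exact ⟨x, hx.1, hx.2, hx'⟩

/-- the quadratic map permutes the roots cyclically (by the approximate values) -/
private theorem perB_quad {r s : ℝ} {a b c d : ℝ} (h1 : a ≤ r) (h2 : r ≤ b)
    (h : s = (r ^ 2 + 5 * r - 62) / 2) (ha : 0 ≤ a + 5 / 2)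
    (hc : c ≤ (a ^ 2 + 5 * a - 62) / 2) (hd : (b ^ 2 + 5 * b - 62) / 2 ≤ d) : c ≤ s ∧ s ≤ d := by
  subst h
  constructor
  · nlinarith
  · nlinarith

private theorem perB_quad' {r s : ℝ} {a b c d : ℝ} (h1 : a ≤ r) (h2 : r ≤ b)
    (h : s = (r ^ 2 + 5 * r - 62) / 2) (hb : b + 5 / 2 ≤ 0)
    (hc : c ≤ (b ^ 2 + 5 * b - 62) / 2) (hd : (a ^ 2 + 5 * a - 62) / 2 ≤ d) : c ≤ s ∧ s ≤ d := by
  subst h
  constructor
  · nlinarith
  · nlinarith

/-- The periods are real, `g1 = (g0² + 5 g0 - 62)/2` (from `gp_mul_zero`, `gp_sum`), the same with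
`η^3`; `g0³ + g0² - 94 g0 + 304 = 0` (from `gp_mul_one`).  So `g0` is within `10^-15` of one of the
three roots; replacing `η` by `η^3` or `η^9` we get these values (exact values:
`g0 = 4.228741065038829532…`, `g1 = -11.487021839830059018…`, `g2 = 6.258280774791229485…`). -/
theorem exists_eta_periods : ∃ (η : ℂ) (g0 g1 g2 : ℝ), IsPrimitiveRoot η 283 ∧
    gp 0 η = g0 ∧ gp 1 η = g1 ∧ gp 2 η = g2 ∧
    |g0 - 4.228741065038829| ≤ 1 / 10 ^ 14 ∧ |g1 + 11.487021839830059| ≤ 1 / 10 ^ 14 ∧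
    |g2 - 6.258280774791229| ≤ 1 / 10 ^ 14 := by
  obtain ⟨η, hη⟩ : ∃ η : ℂ, IsPrimitiveRoot η 283 :=
    ⟨_, Complex.isPrimitiveRoot_exp 283 (by norm_num)⟩
  obtain ⟨r0, a0, b0, e0⟩ := perB_root0
  obtain ⟨r1, a1, b1, e1⟩ := perB_root1
  obtain ⟨r2, a2, b2, e2⟩ := perB_root2
  have hpow : η ^ 283 = 1 := hη.pow_eq_one
  have hsum := gp_sum hη
  have hm0 := gp_mul_zero hpow
  have hm1 := gp_mul_one hpow
  have hs : r0 + r1 + r2 = -1 := by
    have h01 : r0 - r1 ≠ 0 := by
      intro h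
      linarith
    have h02 : r0 - r2 ≠ 0 := by
      intro h
      linarith
    have h12 : r1 - r2 ≠ 0 := by
      intro h
      linarith
    have p1 : r0 ^ 2 + r0 * r1 + r1 ^ 2 + r0 + r1 - 94 = 0 := by
      apply mul_left_cancel₀ h01
      linear_combination e0 - e1
    have p2 : r0 ^ 2 + r0 * r2 + r2 ^ 2 + r0 + r2 - 94 = 0 := by
      apply mul_left_cancel₀ h02
      linear_combination e0 - e2
    have p3 : r0 + r1 + r2 + 1 = 0 := by
      apply mul_left_cancel₀ h12
      linear_combination p1 - p2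
    linarith
  have key : ∀ x : ℂ, x ^ 3 + x ^ 2 - 94 * x + 304 = 0 → x = r0 ∨ x = r1 ∨ x = r2 := by
    intro x hx
    have e0' : (r0 : ℂ) ^ 3 + (r0 : ℂ) ^ 2 - 94 * r0 + 304 = 0 := by exact_mod_cast e0
    have e1' : (r1 : ℂ) ^ 3 + (r1 : ℂ) ^ 2 - 94 * r1 + 304 = 0 := by exact_mod_cast e1
    have hs' : (r0 : ℂ) + r1 + r2 = -1 := by exact_mod_cast hs
    by_cases h0 : x = r0
    · exact Or.inl h0
    by_cases h1 : x = r1
    · exact Or.inr (Or.inl h1)
    right; right
    have h0' : x - r0 ≠ 0 := sub_ne_zero.2 h0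
    have h1' : x - r1 ≠ 0 := sub_ne_zero.2 h1
    have h01 : (r0 : ℂ) - r1 ≠ 0 := by
      intro h
      have h2 : r0 - r1 = 0 := by exact_mod_cast h
      linarith
    have p1 : x ^ 2 + x * r0 + (r0 : ℂ) ^ 2 + x + r0 - 94 = 0 := by
      apply mul_left_cancel₀ h0'
      linear_combination hx - e0'
    have p2 : x ^ 2 + x * r1 + (r1 : ℂ) ^ 2 + x + r1 - 94 = 0 := by
      apply mul_left_cancel₀ h1'
      linear_combination hx - e1'
    have p3 : x + r0 + r1 + 1 = 0 := by
      apply mul_left_cancel₀ h01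
      linear_combination p1 - p2
    linear_combination p3 - hs'
  have hy : gp 1 η = ((gp 0 η) ^ 2 + 5 * gp 0 η - 62) / 2 := by
    have hz : gp 2 η = -1 - gp 0 η - gp 1 η := by linear_combination hsum
    rw [hz] at hm0
    linear_combination (-1 / 2) * hm0
  have hz : gp 2 η = -1 - gp 0 η - gp 1 η := by linear_combination hsum
  have hx : (gp 0 η) ^ 3 + (gp 0 η) ^ 2 - 94 * gp 0 η + 304 = 0 := by
    rw [hz] at hm1
    have h1 : gp 0 η * gp 1 η = 6 * gp 0 η + 4 * gp 1 η - 28 := by linear_combination hm1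
    rw [hy] at h1
    linear_combination 2 * h1
  have habs : ∀ x c : ℝ, c - 1 / 10 ^ 14 ≤ x → x ≤ c + 1 / 10 ^ 14 → |x - c| ≤ 1 / 10 ^ 14 := by
    intro x c h1 h2
    rw [abs_le]
    constructor <;> linarith
  have hc3 : IsPrimitiveRoot (η ^ 3) 283 := hη.pow_of_coprime 3 (by norm_num)
  have hc9 : IsPrimitiveRoot ((η ^ 3) ^ 3) 283 := hc3.pow_of_coprime 3 (by norm_num)
  have g3 : gp 3 η = gp 0 η := gp_three hpow 0
  have g4 : gp 4 η = gp 1 η := gp_three hpow 1
  rcases key _ hx with h | h | h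
  · refine ⟨η, r0, (r0 ^ 2 + 5 * r0 - 62) / 2, -1 - r0 - (r0 ^ 2 + 5 * r0 - 62) / 2, hη, h, ?_, ?_,
      ?_, ?_, ?_⟩
    · rw [hy, h]; push_cast; ring
    · rw [hz, hy, h]; push_cast; ring
    · apply habs
      · norm_num at a0 ⊢; linarith
      · norm_num at b0 ⊢; linarith
    · have h5 := perB_quad a0 b0 rfl (c := -11.487021839830061) (d := -11.487021839830058)
        (by norm_num) (by norm_num) (by norm_num)
      rw [abs_le]
      constructor
      · norm_num at h5 ⊢; linarith [h5.1]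
      · norm_num at h5 ⊢; linarith [h5.2]
    · have h5 := perB_quad a0 b0 rfl (c := -11.487021839830061) (d := -11.487021839830058)
        (by norm_num) (by norm_num) (by norm_num)
      apply habs
      · norm_num at h5 b0 ⊢; linarith [h5.2]
      · norm_num at h5 a0 ⊢; linarith [h5.1]
  · refine ⟨(η ^ 3) ^ 3, -1 - r1 - (r1 ^ 2 + 5 * r1 - 62) / 2, r1, (r1 ^ 2 + 5 * r1 - 62) / 2, hc9,
      ?_, ?_, ?_, ?_, ?_, ?_⟩
    · rw [gp_cube, gp_cube, hz, hy, h]; push_cast; ring
    · rw [gp_cube, gp_cube, g3, h]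
    · rw [gp_cube, gp_cube, g4, hy, h]; push_cast; ring
    · have h5 := perB_quad' a1 b1 rfl (c := 6.2582807747912285) (d := 6.2582807747912305)
        (by norm_num) (by norm_num) (by norm_num)
      apply habs
      · norm_num at h5 b1 ⊢; linarith [h5.2]
      · norm_num at h5 a1 ⊢; linarith [h5.1]
    · rw [abs_le]
      constructor
      · norm_num at a1 ⊢; linarith
      · norm_num at b1 ⊢; linarith
    · have h5 := perB_quad' a1 b1 rfl (c := 6.2582807747912285) (d := 6.2582807747912305)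
        (by norm_num) (by norm_num) (by norm_num)
      apply habs
      · norm_num at h5 ⊢; linarith [h5.1]
      · norm_num at h5 ⊢; linarith [h5.2]
  · refine ⟨η ^ 3, (r2 ^ 2 + 5 * r2 - 62) / 2, -1 - r2 - (r2 ^ 2 + 5 * r2 - 62) / 2, r2, hc3,
      ?_, ?_, ?_, ?_, ?_, ?_⟩
    · rw [gp_cube, hy, h]; push_cast; ring
    · rw [gp_cube, hz, hy, h]; push_cast; ring
    · rw [gp_cube, g3, h]
    · have h5 := perB_quad a2 b2 rfl (c := 4.2287410650388285) (d := 4.2287410650388305)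
        (by norm_num) (by norm_num) (by norm_num)
      apply habs
      · norm_num at h5 ⊢; linarith [h5.1]
      · norm_num at h5 ⊢; linarith [h5.2]
    · have h5 := perB_quad a2 b2 rfl (c := 4.2287410650388285) (d := 4.2287410650388305)
        (by norm_num) (by norm_num) (by norm_num)
      rw [abs_le]
      constructor
      · norm_num at h5 b2 ⊢; linarith [h5.2]
      · norm_num at h5 a2 ⊢; linarith [h5.1]
    · apply habs
      · norm_num at a2 ⊢; linarith
      · norm_num at b2 ⊢; linarith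

/-- bounds for the logarithm in base 2 from comparisons of natural powers -/
private theorem perB_logb_lower {v : ℝ} {a b k : ℕ} (e : ℤ) (hv : (a : ℝ) / b ≤ v) (ha : 0 < a)
    (hb : 0 < b) (hk : 0 < k) (h : (b : ℝ) ^ k * (2 : ℝ) ^ e ≤ (a : ℝ) ^ k) :
    (e : ℝ) / k ≤ Real.logb 2 v := by
  have ha' : (0 : ℝ) < a := by exact_mod_cast ha
  have hb' : (0 : ℝ) < b := by exact_mod_cast hb
  have hk' : (0 : ℝ) < k := by exact_mod_cast hk
  have h1 : (0 : ℝ) < (a : ℝ) / b := by positivity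
  have h2 : (2 : ℝ) ^ e ≤ ((a : ℝ) / b) ^ k := by
    rw [div_pow, le_div_iff₀ (by positivity)]
    linarith
  have h3 : (e : ℝ) ≤ Real.logb 2 (((a : ℝ) / b) ^ k) := by
    rw [Real.le_logb_iff_rpow_le (by norm_num) (by positivity), Real.rpow_intCast]
    exact h2
  rw [Real.logb_pow] at h3
  rw [div_le_iff₀ hk']
  have h4 : Real.logb 2 ((a : ℝ) / b) ≤ Real.logb 2 v :=
    Real.logb_le_logb_of_le (by norm_num) h1 hv
  nlinarith

private theorem perB_logb_upper {v : ℝ} {a b k : ℕ} (e : ℤ) (hv0 : 0 < v) (hv : v ≤ (a : ℝ) / b)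
    (ha : 0 < a) (hb : 0 < b) (hk : 0 < k) (h : (a : ℝ) ^ k ≤ (b : ℝ) ^ k * (2 : ℝ) ^ e) :
    Real.logb 2 v ≤ (e : ℝ) / k := by
  have ha' : (0 : ℝ) < a := by exact_mod_cast ha
  have hb' : (0 : ℝ) < b := by exact_mod_cast hb
  have hk' : (0 : ℝ) < k := by exact_mod_cast hk
  have h1 : (0 : ℝ) < (a : ℝ) / b := by positivity
  have h2 : ((a : ℝ) / b) ^ k ≤ (2 : ℝ) ^ e := by
    rw [div_pow, div_le_iff₀ (by positivity)]
    linarith
  have h3 : Real.logb 2 (((a : ℝ) / b) ^ k) ≤ (e : ℝ) := by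
    rw [Real.logb_le_iff_le_rpow (by norm_num) (by positivity), Real.rpow_intCast]
    exact h2
  rw [Real.logb_pow] at h3
  rw [le_div_iff₀ hk']
  have h4 : Real.logb 2 v ≤ Real.logb 2 ((a : ℝ) / b) :=
    Real.logb_le_logb_of_le (by norm_num) hv0 hv
  nlinarith

private theorem perB_n1 : 1000000 ^ 2500 ≤ 1371 ^ 2500 * 2 ^ 23777 := by decide +kernel

private theorem perB_n2 : 13714 ^ 2500 * 2 ^ 23775 ≤ 10000000 ^ 2500 := by decide +kernel

private theorem perB_n3 : 2 ^ 60877 ≤ 21402440 ^ 2500 := by decide +kernel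

private theorem perB_n4 : 21402442 ^ 2500 ≤ 2 ^ 60879 := by decide +kernel

private theorem perB_n5 : 1000000 ^ 2500 ≤ 9643 ^ 2500 * 2 ^ 16741 := by decide +kernel

private theorem perB_n6 : 96435 ^ 2500 * 2 ^ 16740 ≤ 10000000 ^ 2500 := by decide +kernel

private theorem perB_gp_pow (k c : ℕ) (η : ℂ) : gp k (η ^ 3 ^ c) = gp (c + k) η := by
  unfold gp
  refine Finset.sum_congr rfl (fun i _ => ?_)
  rw [← pow_mul, pow_add]
  congr 1
  ring

private theorem perB_norm {η : ℂ} (h : η ^ 283 = 1) (c : ℕ) :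
    ‖th c η‖ ^ 2 =
      ‖7108938 - 868729 * gp c η + 473295 * gp (c + 1) η + 319807 * gp (c + 2) η‖ := by
  have h1 : (η ^ 3 ^ c) ^ 283 = 1 := by rw [← pow_mul, mul_comm, pow_mul, h, one_pow]
  have h2 := prod_one_sub h1
  rw [perB_gp_pow, perB_gp_pow, perB_gp_pow] at h2
  rw [norm_th h, add_zero] at *
  rw [← h2, norm_prod]
  refine Finset.prod_congr rfl (fun i _ => ?_)
  rw [norm_sub_rev, ← pow_mul]

private theorem perB_log {x v : ℝ} (h : x ^ 2 = |v|) (hv : 0 < v) :
    Real.logb 2 x = Real.logb 2 v / 2 := by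
  rw [abs_of_pos hv] at h
  rw [← h, Real.logb_pow]
  push_cast
  ring

/-- `‖th c η‖² = ‖∏_{i<94} (1 - η^(3^c 2^i))‖ = |7108938 - 868729 g_c + 473295 g_{c+1} +
319807 g_{c+2}|` (`norm_th`, `prod_one_sub` at `η^(3^c)`); the three values are `0.00137117…`,
`21402440.98898…`, `0.00964341…`.  The bounds for the logarithm in base 2 follow from comparisons of
integer powers, e.g. `2^(-23777) ≤ (0.001371)^2500`, `(0.0013714)^2500 ≤ 2^(-23775)`.
Exact values of `logb 2 ‖th c η‖`: `-4.7551865…`, `12.1756360…`, `-3.3481203…`. -/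
theorem exists_eta : ∃ η : ℂ, IsPrimitiveRoot η 283 ∧
    |Real.logb 2 ‖th 0 η‖ + 4.7552| ≤ 0.0002 ∧
    |Real.logb 2 ‖th 1 η‖ - 12.1756| ≤ 0.0002 ∧
    |Real.logb 2 ‖th 2 η‖ + 3.3481| ≤ 0.0002 := by
  obtain ⟨η, g0, g1, g2, hη, h0, h1, h2, b0, b1, b2⟩ := exists_eta_periods
  have hpow : η ^ 283 = 1 := hη.pow_eq_one
  have h3 : gp 3 η = gp 0 η := gp_three hpow 0
  have h4 : gp 4 η = gp 1 η := gp_three hpow 1
  rw [abs_le] at b0 b1 b2
  refine ⟨η, hη, ?_, ?_, ?_⟩
  · have hn := perB_norm hpow 0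
    simp only [zero_add] at hn
    rw [h0, h1, h2] at hn
    have hn' : ‖th 0 η‖ ^ 2 = |7108938 - 868729 * g0 + 473295 * g1 + 319807 * g2| := by
      rw [hn, ← Real.norm_eq_abs, ← Complex.norm_real]
      push_cast
      rfl
    have v1 : ((1371 : ℕ) : ℝ) / ((1000000 : ℕ) : ℝ) ≤
        7108938 - 868729 * g0 + 473295 * g1 + 319807 * g2 := by
      push_cast
      norm_num at b0 b1 b2 ⊢
      linarith [b0.1, b0.2, b1.1, b1.2, b2.1, b2.2]
    have v2 : 7108938 - 868729 * g0 + 473295 * g1 + 319807 * g2 ≤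
        ((13714 : ℕ) : ℝ) / ((10000000 : ℕ) : ℝ) := by
      push_cast
      norm_num at b0 b1 b2 ⊢
      linarith [b0.1, b0.2, b1.1, b1.2, b2.1, b2.2]
    have v0 : 0 < 7108938 - 868729 * g0 + 473295 * g1 + 319807 * g2 :=
      lt_of_lt_of_le (by positivity) v1
    rw [perB_log hn' v0]
    have l1 := perB_logb_lower (k := 2500) (-23777) v1 (by norm_num) (by norm_num) (by norm_num) (by
      rw [zpow_neg, ← div_eq_mul_inv, div_le_iff₀ (by positivity)]
      have := perB_n1
      exact_mod_cast this)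
    have l2 := perB_logb_upper (k := 2500) (-23775) v0 v2 (by norm_num) (by norm_num) (by norm_num) (by
      rw [zpow_neg, ← div_eq_mul_inv, le_div_iff₀ (by positivity)]
      have := perB_n2
      exact_mod_cast this)
    push_cast at l1 l2
    rw [abs_le]
    constructor
    · linarith
    · linarith
  · have hn := perB_norm hpow 1
    norm_num at hn
    rw [h3, h0, h1, h2] at hn
    have hn' : ‖th 1 η‖ ^ 2 = |7108938 - 868729 * g1 + 473295 * g2 + 319807 * g0| := by
      rw [hn, ← Real.norm_eq_abs, ← Complex.norm_real]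
      push_cast
      rfl
    have v1 : ((21402440 : ℕ) : ℝ) / ((1 : ℕ) : ℝ) ≤
        7108938 - 868729 * g1 + 473295 * g2 + 319807 * g0 := by
      push_cast
      norm_num at b0 b1 b2 ⊢
      linarith [b0.1, b0.2, b1.1, b1.2, b2.1, b2.2]
    have v2 : 7108938 - 868729 * g1 + 473295 * g2 + 319807 * g0 ≤
        ((21402442 : ℕ) : ℝ) / ((1 : ℕ) : ℝ) := by
      push_cast
      norm_num at b0 b1 b2 ⊢
      linarith [b0.1, b0.2, b1.1, b1.2, b2.1, b2.2]
    have v0 : 0 < 7108938 - 868729 * g1 + 473295 * g2 + 319807 * g0 :=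
      lt_of_lt_of_le (by positivity) v1
    rw [perB_log hn' v0]
    have l1 := perB_logb_lower (k := 2500) 60877 v1 (by norm_num) (by norm_num) (by norm_num) (by
      have := perB_n3
      have h5 : (2 : ℝ) ^ (60877 : ℕ) ≤ (21402440 : ℝ) ^ 2500 := by exact_mod_cast this
      simpa using h5)
    have l2 := perB_logb_upper (k := 2500) 60879 v0 v2 (by norm_num) (by norm_num) (by norm_num) (by
      have := perB_n4
      have h5 : (21402442 : ℝ) ^ 2500 ≤ (2 : ℝ) ^ (60879 : ℕ) := by exact_mod_cast this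
      simpa using h5)
    push_cast at l1 l2
    rw [abs_le]
    constructor
    · linarith
    · linarith
  · have hn := perB_norm hpow 2
    norm_num at hn
    rw [h4, h3, h0, h1, h2] at hn
    have hn' : ‖th 2 η‖ ^ 2 = |7108938 - 868729 * g2 + 473295 * g0 + 319807 * g1| := by
      rw [hn, ← Real.norm_eq_abs, ← Complex.norm_real]
      push_cast
      rfl
    have v1 : ((9643 : ℕ) : ℝ) / ((1000000 : ℕ) : ℝ) ≤
        7108938 - 868729 * g2 + 473295 * g0 + 319807 * g1 := by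
      push_cast
      norm_num at b0 b1 b2 ⊢
      linarith [b0.1, b0.2, b1.1, b1.2, b2.1, b2.2]
    have v2 : 7108938 - 868729 * g2 + 473295 * g0 + 319807 * g1 ≤
        ((96435 : ℕ) : ℝ) / ((10000000 : ℕ) : ℝ) := by
      push_cast
      norm_num at b0 b1 b2 ⊢
      linarith [b0.1, b0.2, b1.1, b1.2, b2.1, b2.2]
    have v0 : 0 < 7108938 - 868729 * g2 + 473295 * g0 + 319807 * g1 :=
      lt_of_lt_of_le (by positivity) v1
    rw [perB_log hn' v0]
    have l1 := perB_logb_lower (k := 2500) (-16741) v1 (by norm_num) (by norm_num) (by norm_num) (by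
      rw [zpow_neg, ← div_eq_mul_inv, div_le_iff₀ (by positivity)]
      have := perB_n5
      exact_mod_cast this)
    have l2 := perB_logb_upper (k := 2500) (-16740) v0 v2 (by norm_num) (by norm_num) (by norm_num) (by
      rw [zpow_neg, ← div_eq_mul_inv, le_div_iff₀ (by positivity)]
      have := perB_n6
      exact_mod_cast this)
    push_cast at l1 l2
    rw [abs_le]
    constructor
    · linarith
    · linarith

end Pool.Agent.Lib_MP_e4b855_nt.Tri
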