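import Pool.Agent.Lib_MP_e4b855_nt.Tri.Trip2

namespace Pool.Agent.Lib_MP_e4b855_nt.Tri

open PowerSeries Finset

namespace Trip

variable {m : ℕ} (T : Trip m)

theorem G3_idx : ∀ i : ZMod 3, i + 1 + 2 = i ∧ i + 1 + 1 = i + 2 := by decide

theorem G3_coeff_D (i : ZMod 3) (ζ s : ℂ) (k : ℕ) :
    coeff k (T.D i ζ s) = s ^ k * coeff k (T.D i ζ 1) := by
  unfold D
  rw [map_sub, map_sub, coeff_J, coeff_J, coeff_J, coeff_J, mul_sub]
  have h : ∀ A : Finset ℤ, (∑ a ∈ A, ζ ^ a * (s * (a : ℂ)) ^ k) / (k.factorial : ℂ) =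
      s ^ k * ((∑ a ∈ A, ζ ^ a * (1 * (a : ℂ)) ^ k) / (k.factorial : ℂ)) := by
    intro A
    rw [mul_div_assoc', Finset.mul_sum]
    congr 1
    refine Finset.sum_congr rfl fun a _ => ?_
    rw [mul_pow, mul_pow]
    ring
  rw [h, h]

theorem G3_fe (i : ZMod 3) {ζ : ℂ} (hζ : ζ ≠ 0) (a b : ℂ) :
    C b * T.D i (ζ ^ 2) 2 - C a * T.D (i + 2) (ζ ^ 2) 2 =
      (C b * T.D i ζ 1 - C a * T.D (i + 2) ζ 1) * T.Q (i + 2) ζ 1 +
        C b * (T.D i ζ 1 * T.D (i + 1) ζ 1) := by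
  have h1 := T.D_mul_Q i hζ 1
  have h2 := T.D_mul_Q (i + 2) hζ 1
  have h3 := T.Q_sub (i + 1) ζ 1
  obtain ⟨e1, e2⟩ := G3_idx i
  rw [e1, e2] at h3
  rw [mul_one] at h1 h2
  linear_combination (-C b) * h1 + C a * h2 + C b * T.D i ζ 1 * h3

theorem G3_coeff_mul {f g : ℂ⟦X⟧} {k : ℕ} (h : ∀ j < k, coeff j f = 0) :
    coeff k (f * g) = coeff k f * constantCoeff g := by
  obtain ⟨f', hf⟩ := X_pow_dvd_iff.2 h
  rw [hf, mul_assoc, coeff_X_pow_mul', if_pos le_rfl, Nat.sub_self, coeff_X_pow_mul',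
    if_pos le_rfl, Nat.sub_self, coeff_zero_eq_constantCoeff_apply,
    coeff_zero_eq_constantCoeff_apply, map_mul]

theorem G3_prod_lt (i : ZMod 3) {N : ℕ} (hN : 0 < N) {μ : ℕ} (hμ : ∀ l, T.al l N = μ) {ζ : ℂ}
    (hζ : IsPrimitiveRoot ζ N) :
    (∀ k < 2 * μ, coeff k (T.D i ζ 1 * T.D (i + 1) ζ 1) = 0) ∧
      coeff (2 * μ) (T.D i ζ 1 * T.D (i + 1) ζ 1) =
        coeff μ (T.D i ζ 1) * coeff μ (T.D (i + 1) ζ 1) := by
  obtain ⟨U, -, -, hU⟩ := T.D_lead i hN hζ (one_ne_zero (α := ℂ))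
  obtain ⟨V, -, -, hV⟩ := T.D_lead (i + 1) hN hζ (one_ne_zero (α := ℂ))
  rw [hμ] at hU hV
  have hUV : T.D i ζ 1 * T.D (i + 1) ζ 1 = X ^ (2 * μ) * (U * V) := by
    rw [hU, hV]; ring
  constructor
  · intro k hk
    rw [hUV, coeff_X_pow_mul', if_neg (by omega)]
  · rw [hUV, coeff_X_pow_mul', if_pos le_rfl, Nat.sub_self, hU, hV, coeff_X_pow_mul',
      if_pos le_rfl, Nat.sub_self, coeff_X_pow_mul', if_pos le_rfl, Nat.sub_self,
      coeff_zero_eq_constantCoeff_apply, coeff_zero_eq_constantCoeff_apply,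
      coeff_zero_eq_constantCoeff_apply, map_mul]

theorem G3_D_lt (i : ZMod 3) {N : ℕ} (hN : 0 < N) {μ : ℕ} (hμ : ∀ l, T.al l N = μ) {ζ : ℂ}
    (hζ : IsPrimitiveRoot ζ N) : ∀ k < μ, coeff k (T.D i ζ 1) = 0 := by
  intro k hk
  obtain ⟨U, -, -, hU⟩ := T.D_lead i hN hζ (one_ne_zero (α := ℂ))
  rw [hμ] at hU
  rw [hU, coeff_X_pow_mul', if_neg (by omega)]

theorem G3_D_ne (i : ZMod 3) {N : ℕ} (hN : 0 < N) {μ : ℕ} (hμ : ∀ l, T.al l N = μ) {ζ : ℂ}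
    (hζ : IsPrimitiveRoot ζ N) : coeff μ (T.D i ζ 1) ≠ 0 := by
  obtain ⟨U, -, hU0, hU⟩ := T.D_lead i hN hζ (one_ne_zero (α := ℂ))
  rw [hμ] at hU
  rw [hU, coeff_X_pow_mul', if_pos le_rfl, Nat.sub_self, coeff_zero_eq_constantCoeff_apply]
  exact hU0

theorem G3_sq {N : ℕ} (hN : Odd N) {ζ : ℂ} (hζ : IsPrimitiveRoot ζ N) (r : ℕ) :
    IsPrimitiveRoot (ζ ^ 2 ^ r) N :=
  hζ.pow_of_coprime _ ((Nat.coprime_two_left.mpr hN).pow_left r)

/-- leading coefficients -/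
theorem G3_lead (i : ZMod 3) {N : ℕ} (hN : Odd N) {μ : ℕ} (hμ : ∀ l, T.al l N = μ) {ζ : ℂ}
    (hζ : IsPrimitiveRoot ζ N) :
    2 ^ μ * coeff μ (T.D i (ζ ^ 2) 1) = coeff μ (T.D i ζ 1) * constantCoeff (T.Q i ζ 1) := by
  have h1 := T.D_mul_Q i (hζ.ne_zero hN.pos.ne') 1
  rw [mul_one] at h1
  rw [← T.G3_coeff_D, ← h1, G3_coeff_mul (T.G3_D_lt i hN.pos hμ hζ)]

/-- Piece G3.  If the ratio of the leading coefficients of `D_i` and `D_{i+2}` at the common zeros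
of order `N` (odd, also `N = 1`) is the constant `a : b` then `b D_i - a D_{i+2} = O(t^{2μ})`.
Proof: `f(ζ,t) = D_i / D_{i+2}` satisfies `f(ζ²,2t) = f(ζ,t) Q_i/Q_{i+2}`,
`Q_i - Q_{i+2} = D_{i+1} = O(t^μ)`; so `2^k f_k(ζ²) = f_k(ζ)` for `k < μ` (given `f_0` constant),
and iterating `f_k = 0` for `1 ≤ k < μ`. -/
theorem ratio_flat (i : ZMod 3) {N : ℕ} (hN : Odd N) {μ : ℕ} (hμ : ∀ l, T.al l N = μ) {a b : ℂ}
    (hab : ∀ ζ : ℂ, IsPrimitiveRoot ζ N →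
      b * coeff μ (T.D i ζ 1) = a * coeff μ (T.D (i + 2) ζ 1)) {ζ : ℂ}
    (hζ : IsPrimitiveRoot ζ N) :
    X ^ (2 * μ) ∣ C b * T.D i ζ 1 - C a * T.D (i + 2) ζ 1 := by
  rw [X_pow_dvd_iff]
  intro k hk
  revert ζ
  induction k using Nat.strong_induction_on with
  | _ k ih =>
  rcases lt_trichotomy k μ with hlt | heq | hgt
  · intro ζ hζ
    rw [map_sub, coeff_C_mul, coeff_C_mul, T.G3_D_lt i hN.pos hμ hζ k hlt,
      T.G3_D_lt (i + 2) hN.pos hμ hζ k hlt]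
    ring
  · intro ζ hζ
    subst heq
    rw [map_sub, coeff_C_mul, coeff_C_mul, hab ζ hζ, sub_self]
  · -- the recursion
    have hrec : ∀ ζ : ℂ, IsPrimitiveRoot ζ N →
        2 ^ k * coeff k (C b * T.D i (ζ ^ 2) 1 - C a * T.D (i + 2) (ζ ^ 2) 1) =
        coeff k (C b * T.D i ζ 1 - C a * T.D (i + 2) ζ 1) *
          constantCoeff (T.Q (i + 2) ζ 1) := by
      intro ζ hζ
      have h1 := congrArg (coeff k) (T.G3_fe i (hζ.ne_zero hN.pos.ne') a b)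
      have h2 : coeff k (C b * T.D i (ζ ^ 2) 2 - C a * T.D (i + 2) (ζ ^ 2) 2) =
          2 ^ k * coeff k (C b * T.D i (ζ ^ 2) 1 - C a * T.D (i + 2) (ζ ^ 2) 1) := by
        rw [map_sub, map_sub, coeff_C_mul, coeff_C_mul, coeff_C_mul, coeff_C_mul,
          T.G3_coeff_D i (ζ ^ 2) 2, T.G3_coeff_D (i + 2) (ζ ^ 2) 2]
        ring
      rw [h2, map_add, coeff_C_mul, (T.G3_prod_lt i hN.pos hμ hζ).1 k hk, mul_zero, add_zero,
        G3_coeff_mul (fun j hj => ih j hj (by omega) hζ)] at h1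
      exact h1
    obtain ⟨g, hg⟩ : ∃ g : ℂ → ℂ, g = fun ζ =>
        coeff k (C b * T.D i ζ 1 - C a * T.D (i + 2) ζ 1) / coeff μ (T.D (i + 2) ζ 1) :=
      ⟨_, rfl⟩
    have hstep : ∀ ζ : ℂ, IsPrimitiveRoot ζ N → g ζ = 2 ^ (k - μ) * g (ζ ^ 2) := by
      intro ζ hζ
      have hζ2 : IsPrimitiveRoot (ζ ^ 2) N := by simpa using G3_sq hN hζ 1
      have h1 := hrec ζ hζ
      have h2 := T.G3_lead (i + 2) hN hμ hζ
      have h3 := T.G3_D_ne (i + 2) hN.pos hμ hζ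
      have h4 := T.G3_D_ne (i + 2) hN.pos hμ hζ2
      have h5 := T.Q_const_ne (i + 2) hN hζ (one_ne_zero (α := ℂ))
      have h6 : (2 : ℂ) ^ k = 2 ^ (k - μ) * 2 ^ μ := by
        rw [← pow_add, Nat.sub_add_cancel hgt.le]
      rw [hg]
      simp only
      rw [mul_div_assoc', div_eq_div_iff h3 h4]
      apply mul_right_cancel₀ h5
      have h7 : (2 : ℂ) ^ μ ≠ 0 := pow_ne_zero _ two_ne_zero
      apply mul_right_cancel₀ h7
      linear_combination (-(2 : ℂ) ^ μ * coeff μ (T.D (i + 2) (ζ ^ 2) 1)) * h1 +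
        (2 : ℂ) ^ (k - μ) * 2 ^ μ *
          coeff k (C b * T.D i (ζ ^ 2) 1 - C a * T.D (i + 2) (ζ ^ 2) 1) * h2 +
        (coeff k (C b * T.D i (ζ ^ 2) 1 - C a * T.D (i + 2) (ζ ^ 2) 1) *
          (2 ^ μ * coeff μ (T.D (i + 2) (ζ ^ 2) 1))) * h6
    have hiter : ∀ (r : ℕ) (ζ : ℂ), IsPrimitiveRoot ζ N →
        g ζ = (2 ^ (k - μ)) ^ r * g (ζ ^ 2 ^ r) := by
      intro r
      induction r with
      | zero => intro ζ _; simp
      | succ r ihr =>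
        intro ζ hζ
        have h9 : (ζ ^ 2 ^ r) ^ 2 = ζ ^ 2 ^ (r + 1) := by
          rw [← pow_mul, ← pow_succ]
        rw [ihr ζ hζ, hstep _ (G3_sq hN hζ r), h9]
        ring
    intro ζ hζ
    have hfix : ζ ^ 2 ^ N.totient = ζ := by
      have h1 : 2 ^ N.totient ≡ 1 [MOD N] :=
        Nat.ModEq.pow_totient (Nat.coprime_two_left.mpr hN)
      have h2 : 1 ≤ 2 ^ N.totient := Nat.one_le_two_pow
      obtain ⟨t, ht⟩ := (Nat.modEq_iff_dvd' h2).1 h1.symm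
      have h3 : 2 ^ N.totient = N * t + 1 := by omega
      rw [h3, pow_succ, pow_mul, hζ.pow_eq_one, one_pow, one_mul]
    have h1 := hiter N.totient ζ hζ
    rw [hfix] at h1
    have htot : 0 < N.totient := Nat.totient_pos.2 hN.pos
    have hbig : ((2 : ℂ) ^ (k - μ)) ^ N.totient ≠ 1 := by
      rw [← pow_mul]
      intro h
      have h2 : ((2 : ℕ) ^ ((k - μ) * N.totient) : ℕ) = 1 := by exact_mod_cast h
      have h3 : 1 < 2 ^ ((k - μ) * N.totient) :=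
        Nat.one_lt_two_pow (Nat.mul_ne_zero (by omega) htot.ne')
      omega
    have hg0 : g ζ = 0 := by
      have h2 : (((2 : ℂ) ^ (k - μ)) ^ N.totient - 1) * g ζ = 0 := by
        linear_combination -h1
      rcases mul_eq_zero.1 h2 with h3 | h3
      · exact absurd (sub_eq_zero.1 h3) hbig
      · exact h3
    rw [hg] at hg0
    simp only at hg0
    rcases div_eq_zero_iff.1 hg0 with h3 | h3
    · exact h3
    · exact absurd h3 (T.G3_D_ne (i + 2) hN.pos hμ hζ)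

/-- the next coefficient at `1`: `f = (δ_i/δ_{i+2}) (1 + δ_{i+1} t^m / (2^m (2^m - 1)) + …)` -/
theorem D_ratio_one (i : ZMod 3) :
    coeff (2 * m) (C ((T.del (i + 2) : ℚ) : ℂ) * T.D i 1 1 -
      C ((T.del i : ℚ) : ℂ) * T.D (i + 2) 1 1) =
      ((T.del i * T.del (i + 1) * T.del (i + 2) / (2 ^ m * (2 ^ m - 1)) : ℚ) : ℂ) := by
  have hμ : ∀ l, T.al l 1 = m := T.al_one
  have hc : ∀ l, coeff m (T.D l 1 1) = (T.del l : ℂ) := by
    intro l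
    rw [T.coeff_D_one l one_ne_zero, one_pow, mul_one]
  have hone : IsPrimitiveRoot (1 : ℂ) 1 := IsPrimitiveRoot.one
  have hflat : X ^ (2 * m) ∣ C ((T.del (i + 2) : ℚ) : ℂ) * T.D i 1 1 -
      C ((T.del i : ℚ) : ℂ) * T.D (i + 2) 1 1 := by
    refine T.ratio_flat i odd_one hμ (fun ζ hζ => ?_) hone
    have h1 : ζ = 1 := IsPrimitiveRoot.one_right_iff.1 hζ
    rw [h1, hc, hc]
    ring
  rw [X_pow_dvd_iff] at hflat
  have h1 := congrArg (coeff (2 * m)) (T.G3_fe i (one_ne_zero (α := ℂ))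
    ((T.del i : ℚ) : ℂ) ((T.del (i + 2) : ℚ) : ℂ))
  rw [one_pow] at h1
  have h2 : coeff (2 * m) (C ((T.del (i + 2) : ℚ) : ℂ) * T.D i 1 2 -
      C ((T.del i : ℚ) : ℂ) * T.D (i + 2) 1 2) =
      2 ^ (2 * m) * coeff (2 * m) (C ((T.del (i + 2) : ℚ) : ℂ) * T.D i 1 1 -
      C ((T.del i : ℚ) : ℂ) * T.D (i + 2) 1 1) := by
    rw [map_sub, map_sub, coeff_C_mul, coeff_C_mul, coeff_C_mul, coeff_C_mul,
      T.G3_coeff_D i 1 2, T.G3_coeff_D (i + 2) 1 2]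
    ring
  rw [h2, map_add, coeff_C_mul, (T.G3_prod_lt i one_pos hμ hone).2, hc, hc,
    G3_coeff_mul hflat, T.Q_one] at h1
  have hm := T.hm
  have h3 : ((2 : ℂ) ^ m * (2 ^ m - 1)) ≠ 0 := by
    refine mul_ne_zero (pow_ne_zero _ two_ne_zero) ?_
    intro h
    have h4 : (2 : ℂ) ^ m = 1 := sub_eq_zero.1 h
    have h5 : ((2 : ℕ) ^ m : ℕ) = 1 := by exact_mod_cast h4
    have h6 : 1 < 2 ^ m := Nat.one_lt_two_pow (by omega)
    omega
  push_cast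
  rw [eq_div_iff h3]
  have h4 : (2 : ℂ) ^ (2 * m) = 2 ^ m * 2 ^ m := by rw [two_mul, pow_add]
  rw [h4] at h1
  linear_combination h1

end Trip

end Pool.Agent.Lib_MP_e4b855_nt.Tri
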