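import Pool.Agent.Lib_MP_e4b855_nt.Tri.StructAux

namespace Pool.Agent.Lib_MP_e4b855_nt.Tri

open PowerSeries Finset


/-- the power series `ζ e^{st}` as a Laurent series -/
noncomputable def A5x (ζ s : ℂ) : LaurentSeries ℂ := ((C ζ * ee s : ℂ⟦X⟧) : LaurentSeries ℂ)

theorem A5_coeff_ee (a : ℂ) (k : ℕ) : coeff k (ee a) = a ^ k / k.factorial := by
  unfold ee
  rw [coeff_rescale, coeff_exp]
  simp [div_eq_mul_inv]

theorem A5_ee_add (a b : ℂ) : ee (a + b) = ee a * ee b :=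
  (exp_mul_exp_eq_exp_add a b).symm

theorem A5_ee_zero : ee 0 = 1 := by
  ext k
  rw [A5_coeff_ee, coeff_one]
  by_cases h : k = 0
  · subst h; simp
  · simp [h]

theorem A5x_pow (ζ s : ℂ) (n : ℕ) :
    A5x ζ s ^ n = ((C (ζ ^ n) * ee (s * n) : ℂ⟦X⟧) : LaurentSeries ℂ) := by
  induction n with
  | zero =>
    rw [pow_zero, pow_zero, Nat.cast_zero, mul_zero, A5_ee_zero, mul_one, map_one, PowerSeries.coe_one]
  | succ n ih =>
    rw [pow_succ, ih, A5x, ← PowerSeries.coe_mul]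
    congr 1
    rw [pow_succ, map_mul, Nat.cast_succ, mul_add, mul_one, A5_ee_add]
    ring

theorem A5x_ne_zero {ζ : ℂ} (hζ : ζ ≠ 0) (s : ℂ) : A5x ζ s ≠ 0 := by
  intro h
  have h1 : (C ζ * ee s : ℂ⟦X⟧) = 0 := by
    apply HahnSeries.ofPowerSeries_injective (Γ := ℤ)
    rw [map_zero]
    exact h
  have h2 := congrArg (coeff 0) h1
  rw [coeff_C_mul, A5_coeff_ee] at h2
  simp at h2
  exact hζ h2

theorem A5x_zpow {ζ : ℂ} (hζ : ζ ≠ 0) (s : ℂ) (a : ℤ) :
    A5x ζ s ^ a = ((C (ζ ^ a) * ee (s * a) : ℂ⟦X⟧) : LaurentSeries ℂ) := by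
  obtain ⟨n, rfl | rfl⟩ := a.eq_nat_or_neg
  · rw [zpow_natCast, zpow_natCast, A5x_pow]
    simp
  · rw [zpow_neg, zpow_natCast, zpow_neg, zpow_natCast, A5x_pow]
    apply inv_eq_of_mul_eq_one_right
    rw [← PowerSeries.coe_mul, ← PowerSeries.coe_one]
    congr 1
    have h1 : (C (ζ ^ n) * ee (s * n) : ℂ⟦X⟧) * (C ((ζ ^ n)⁻¹) * ee (s * ((-(n : ℤ) : ℤ) : ℂ))) =
        C (ζ ^ n * (ζ ^ n)⁻¹) * (ee (s * n) * ee (s * ((-(n : ℤ) : ℤ) : ℂ))) := by
      rw [map_mul]; ring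
    rw [h1, mul_inv_cancel₀ (pow_ne_zero n hζ), map_one, one_mul, ← A5_ee_add]
    push_cast
    rw [← mul_add, add_neg_cancel, mul_zero, A5_ee_zero]

theorem A5x_pow_ne_one {ζ s : ℂ} (hζ : ζ ≠ 0) (hs : s ≠ 0) (n : ℕ) (hn : 0 < n) :
    A5x ζ s ^ n ≠ 1 := by
  intro h
  rw [A5x_pow, ← PowerSeries.coe_one] at h
  have h1 : (C (ζ ^ n) * ee (s * n) : ℂ⟦X⟧) = 1 :=
    HahnSeries.ofPowerSeries_injective (Γ := ℤ) h
  have h2 := congrArg (coeff 1) h1
  rw [coeff_C_mul, A5_coeff_ee, coeff_one] at h2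
  simp only [pow_one, Nat.factorial_one, Nat.cast_one, div_one, one_ne_zero, if_false,
    mul_eq_zero] at h2
  rcases h2 with h2 | h2 | h2
  · exact pow_ne_zero n hζ h2
  · exact hs h2
  · exact hn.ne' (by exact_mod_cast h2)

theorem A5_J_eq (A : Finset ℤ) {ζ : ℂ} (hζ : ζ ≠ 0) (s : ℂ) :
    ((J A ζ s : ℂ⟦X⟧) : LaurentSeries ℂ) = ∑ a ∈ A, A5x ζ s ^ a := by
  unfold J
  change HahnSeries.ofPowerSeries ℤ ℂ _ = _
  rw [map_sum]
  apply Finset.sum_congr rfl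
  intro a _
  rw [A5x_zpow hζ]

theorem A5_aeval_pol {N : ℤ} {X : Finset ℤ} (hN : ∀ a ∈ X, 0 ≤ a + N) {x : LaurentSeries ℂ}
    (hx : x ≠ 0) : Polynomial.aeval x (pol N X) = x ^ N * ∑ a ∈ X, x ^ a := by
  unfold pol
  rw [map_sum, Finset.mul_sum]
  apply Finset.sum_congr rfl
  intro a ha
  rw [map_pow, Polynomial.aeval_X, ← zpow_add₀ hx, ← zpow_natCast, Int.toNat_of_nonneg (hN a ha)]
  congr 1; ring

theorem A5_exists_poly {A B : Finset ℤ} (hne : A ≠ B) :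
    ∃ (N : ℤ) (v : ℕ) (Q : Polynomial ℤ), (∀ a ∈ A, 0 ≤ a + N) ∧ (∀ a ∈ B, 0 ≤ a + N) ∧
      pol N A - pol N B = Polynomial.X ^ v * Q ∧ Q.coeff 0 ≠ 0 ∧
      (Q.leadingCoeff = 1 ∨ Q.leadingCoeff = -1) := by
  obtain ⟨N, hN⟩ : ∃ N : ℤ, ∀ a ∈ A ∪ B, 0 ≤ a + N := by
    obtain ⟨b, hb⟩ := (A ∪ B).finite_toSet.bddBelow
    refine ⟨-b, fun a ha => ?_⟩
    have := hb (by simpa using ha : a ∈ ((A ∪ B : Finset ℤ) : Set ℤ))
    omega
  have hX : ∀ a ∈ A, 0 ≤ a + N := fun a ha => hN a (Finset.mem_union_left _ ha)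
  have hY : ∀ a ∈ B, 0 ≤ a + N := fun a ha => hN a (Finset.mem_union_right _ ha)
  have hP : pol N A - pol N B ≠ 0 := by
    intro h0
    exact hne (pol_injective hX hY (sub_eq_zero.mp h0))
  obtain ⟨Q, hQ, hdvd⟩ := Polynomial.exists_eq_pow_rootMultiplicity_mul_and_not_dvd _ hP 0
  rw [Polynomial.C_0, sub_zero] at hQ hdvd
  refine ⟨N, Polynomial.rootMultiplicity 0 (pol N A - pol N B), Q, hX, hY, hQ,
    fun h0 => hdvd (Polynomial.X_dvd_iff.mpr h0), ?_⟩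
  have h1 : (pol N A - pol N B).leadingCoeff = Q.leadingCoeff := by
    conv_lhs => rw [hQ]
    rw [Polynomial.leadingCoeff_mul, Polynomial.leadingCoeff_X_pow, one_mul]
  have h2 : (pol N A - pol N B).leadingCoeff ≠ 0 := Polynomial.leadingCoeff_ne_zero.2 hP
  rw [← h1]
  unfold Polynomial.leadingCoeff at h2 ⊢
  rw [Polynomial.coeff_sub, coeff_pol hX, coeff_pol hY] at h2 ⊢
  split_ifs at h2 ⊢ <;> simp at h2 ⊢

theorem A5_g_inv {A : Finset ℤ} (hA : ∀ a ∈ A, -a ∈ A) (z : ℂ) : g A z⁻¹ = g A z := by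
  unfold g
  refine Finset.sum_nbij' (fun a => -a) (fun a => -a) hA hA ?_ ?_ ?_
  · intro a _; simp
  · intro a _; simp
  · intro a _
    rw [inv_zpow, zpow_neg]

/-- a root of unity: a nonzero complex number whose iterated squares stay in a finite set -/
theorem A5_root {Q : Polynomial ℤ} (h0 : Q.coeff 0 ≠ 0)
    (hsq : ∀ z : ℂ, z ≠ 0 → Polynomial.aeval z Q = 0 → Polynomial.aeval (z ^ 2) Q = 0) {z : ℂ}
    (hz : Polynomial.aeval z Q = 0) : ∃ n : ℕ, 0 < n ∧ z ^ n = 1 := by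
  have hQ : Q ≠ 0 := by rintro rfl; simp at h0
  have hne : ∀ w : ℂ, Polynomial.aeval w Q = 0 → w ≠ 0 := by
    rintro w hw rfl
    rw [Polynomial.aeval_def, Polynomial.eval₂_at_zero] at hw
    simp at hw
    exact h0 hw
  have hroots : ∀ j : ℕ, Polynomial.aeval (z ^ 2 ^ j) Q = 0 := by
    intro j
    induction j with
    | zero => simpa using hz
    | succ j ih =>
      rw [pow_succ, pow_mul]
      exact hsq _ (hne _ ih) ih
  obtain ⟨i, j, hij, heq⟩ : ∃ i j : ℕ, i < j ∧ z ^ 2 ^ i = z ^ 2 ^ j := by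
    by_contra hcon
    push Not at hcon
    have hinj : Function.Injective fun j : ℕ => z ^ 2 ^ j := by
      intro i j hij
      rcases lt_trichotomy i j with h | h | h
      · exact absurd hij (hcon i j h)
      · exact h
      · exact absurd hij.symm (hcon j i h)
    have hmaps : ∀ j : ℕ, z ^ 2 ^ j ∈ ((Q.aroots ℂ).toFinset : Set ℂ) := by
      intro j
      simp only [Finset.mem_coe, Multiset.mem_toFinset]
      rw [Polynomial.mem_aroots]
      exact ⟨hQ, hroots j⟩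
    have hinf := (Set.infinite_range_of_injective hinj).mono
      (t := ((Q.aroots ℂ).toFinset : Set ℂ)) (by rintro _ ⟨j, rfl⟩; exact hmaps j)
    exact hinf (Finset.finite_toSet _)
  have hlt : 2 ^ i < 2 ^ j := Nat.pow_lt_pow_right (by norm_num) hij
  refine ⟨2 ^ j - 2 ^ i, by omega, ?_⟩
  have hz0 : z ≠ 0 := hne z hz
  apply mul_left_cancel₀ (pow_ne_zero (2 ^ i) hz0)
  rw [← pow_add, mul_one, heq]
  congr 1
  omega

theorem A5_eq_of_aeval {P Q : Polynomial ℤ}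
    (h : ∀ z : ℂ, z ≠ 0 → Polynomial.aeval z P = Polynomial.aeval z Q) : P = Q := by
  apply Polynomial.map_injective _ (RingHom.injective_int (Int.castRingHom ℂ))
  apply Polynomial.eq_of_infinite_eval_eq
  apply ((Set.finite_singleton (0 : ℂ)).infinite_compl).mono
  intro z hz
  have hz0 : z ≠ 0 := hz
  have h1 := h z hz0
  simp only [Set.mem_ofPred_eq]
  rw [Polynomial.eval_map, Polynomial.eval_map]
  exact h1

/-- symmetry forces the degree to be `-2 w` -/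
theorem A5_deg {Q : Polynomial ℤ} (h0 : Q.coeff 0 ≠ 0) (w : ℤ)
    (h : ∀ z : ℂ, z ≠ 0 → z ^ w * Polynomial.aeval z Q = (z⁻¹) ^ w * Polynomial.aeval z⁻¹ Q) :
    (Q.natDegree : ℤ) = -(2 * w) := by
  have hQ : Q ≠ 0 := by rintro rfl; simp at h0
  have hrev : ∀ z : ℂ, z ≠ 0 → z ^ (2 * w + Q.natDegree) * Polynomial.aeval z Q =
      Polynomial.aeval z Q.reverse := by
    intro z hz
    have h1 : Polynomial.aeval z Q.reverse * (z⁻¹) ^ Q.natDegree = Polynomial.aeval z⁻¹ Q := by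
      let _ : Invertible z⁻¹ := invertibleOfNonzero (inv_ne_zero hz)
      have h2 := Polynomial.eval₂_reverse_mul_pow (algebraMap ℤ ℂ) z⁻¹ Q
      rw [invOf_eq_inv, inv_inv] at h2
      exact h2
    have h3 := h z hz
    rw [← h1] at h3
    have hw : z ^ w ≠ 0 := zpow_ne_zero _ hz
    have hn : z ^ Q.natDegree ≠ 0 := pow_ne_zero _ hz
    rw [inv_zpow, inv_pow] at h3
    rw [two_mul, zpow_add₀ hz, zpow_add₀ hz, zpow_natCast]
    field_simp at h3
    linear_combination h3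
  rcases lt_trichotomy (2 * w + (Q.natDegree : ℤ)) 0 with hm | hm | hm
  · exfalso
    obtain ⟨k, hk⟩ : ∃ k : ℕ, 2 * w + (Q.natDegree : ℤ) = -((k : ℤ) + 1) :=
      ⟨(-(2 * w + (Q.natDegree : ℤ)) - 1).toNat, by omega⟩
    have hP : Q = Polynomial.X ^ (k + 1) * Q.reverse := by
      apply A5_eq_of_aeval
      intro z hz
      have h1 := hrev z hz
      rw [hk, zpow_neg] at h1
      have h2 : z ^ ((k : ℤ) + 1) = z ^ (k + 1) := by exact_mod_cast zpow_natCast z (k + 1)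
      rw [h2] at h1
      rw [map_mul, map_pow, Polynomial.aeval_X, ← h1, ← mul_assoc,
        mul_inv_cancel₀ (pow_ne_zero _ hz), one_mul]
    apply h0
    rw [hP, Polynomial.mul_coeff_zero, Polynomial.coeff_X_pow]
    simp
  · omega
  · exfalso
    obtain ⟨k, hk⟩ : ∃ k : ℕ, 2 * w + (Q.natDegree : ℤ) = (k : ℤ) + 1 :=
      ⟨(2 * w + (Q.natDegree : ℤ) - 1).toNat, by omega⟩
    have hP : Polynomial.X ^ (k + 1) * Q = Q.reverse := by
      apply A5_eq_of_aeval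
      intro z hz
      have h1 := hrev z hz
      rw [hk] at h1
      have h2 : z ^ ((k : ℤ) + 1) = z ^ (k + 1) := by exact_mod_cast zpow_natCast z (k + 1)
      rw [h2] at h1
      rw [map_mul, map_pow, Polynomial.aeval_X, ← h1]
    have h1 := congrArg (fun P => Polynomial.coeff P 0) hP
    simp only [Polynomial.coeff_zero_reverse, Polynomial.mul_coeff_zero,
      Polynomial.coeff_X_pow] at h1
    simp at h1
    exact hQ (Polynomial.leadingCoeff_eq_zero.1 h1.symm)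

/-- Piece A5.  Structure theorem.  For symmetric `A ≠ B` with equal pair sums the difference of
the generating functions is `± x^{-M} ∏ (x^n - 1)^{d_n}` with `2 M = ∑ n d_n`.
Proof: `exists_poly` and `norm_eq_one` of `Reflection.lean` (adapted): `A(x) - B(x) = x^w Q(x)`,
`Q(0) = ±1` (smallest element of the symmetric difference), all complex roots of `Q` are closed
under squaring, hence roots of unity, hence `Q = ± ∏ Φ_e^{α_e}`; then
`Φ_e = ∏_{n ∣ e} (x^n - 1)^{μ(e/n)}` (`Polynomial.cyclotomic_eq_prod_X_pow_sub_one_pow_moebius`).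
Symmetry gives `w = -M`, `deg Q = 2 M`.  `lev d N` is the multiplicity `α_N` of `Φ_N`. -/
theorem structure_thm {A B : Finset ℤ} (hne : A ≠ B) (hps : pairSums A = pairSums B)
    (hA : ∀ a ∈ A, -a ∈ A) (hB : ∀ b ∈ B, -b ∈ B) :
    ∃ (d : ℕ →₀ ℤ) (ε M : ℤ), (ε = 1 ∨ ε = -1) ∧ d 0 = 0 ∧
      (d.sum fun n c => c * (n : ℤ)) = 2 * M ∧ (∀ N, 0 < N → 0 ≤ lev d N) ∧
      ∀ ζ s : ℂ, ζ ≠ 0 → s ≠ 0 → ((J A ζ s - J B ζ s : ℂ⟦X⟧) : LaurentSeries ℂ) =
        ((C ((ε : ℂ) * ζ ^ (-M)) * ee (-(s * M)) : ℂ⟦X⟧) : LaurentSeries ℂ) * FF d ζ s := by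
  obtain ⟨N, v, Q, hNA, hNB, hPQ, hQ0, hlc⟩ := A5_exists_poly hne
  have hD : ∀ z : ℂ, z ≠ 0 → g A z - g B z = z ^ ((v : ℤ) - N) * Polynomial.aeval z Q := by
    intro z hz
    have e1 := eval_pol hNA hz
    have e2 := eval_pol hNB hz
    have e3 : Polynomial.aeval z (pol N A - pol N B) = z ^ v * Polynomial.aeval z Q := by
      rw [hPQ]; simp
    rw [map_sub, e1, e2] at e3
    have hzN : z ^ N ≠ 0 := zpow_ne_zero _ hz
    rw [zpow_sub₀ hz, zpow_natCast]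
    field_simp
    linear_combination e3
  have hfe : ∀ z : ℂ, z ≠ 0 → z ^ ((v : ℤ) - N) * Polynomial.aeval (z ^ 2) Q =
      Polynomial.aeval z Q * (g A z + g B z) := by
    intro z hz
    have h1 := functional_eq hps hz
    rw [hD z hz, hD (z ^ 2) (pow_ne_zero 2 hz)] at h1
    have h2 : (z ^ 2) ^ ((v : ℤ) - N) = z ^ ((v : ℤ) - N) * z ^ ((v : ℤ) - N) := by
      rw [← zpow_natCast, ← zpow_mul, ← zpow_add₀ hz]; congr 1; push_cast; ring
    rw [h2] at h1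
    have h3 : z ^ ((v : ℤ) - N) ≠ 0 := zpow_ne_zero _ hz
    apply mul_left_cancel₀ h3
    linear_combination h1
  have hroot : ∀ z : ℂ, Polynomial.aeval z Q = 0 → ∃ n : ℕ, 0 < n ∧ z ^ n = 1 := by
    intro z hz
    refine A5_root hQ0 ?_ hz
    intro z hz hzQ
    have h1 := hfe z hz
    rw [hzQ, zero_mul] at h1
    rcases mul_eq_zero.mp h1 with h2 | h2
    · exact absurd h2 (zpow_ne_zero _ hz)
    · exact h2
  have hdeg := A5_deg hQ0 ((v : ℤ) - N) (by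
    intro z hz
    rw [← hD z hz, ← hD z⁻¹ (inv_ne_zero hz), A5_g_inv hA, A5_g_inv hB])
  obtain ⟨d, ε, hε, hd0, hdsum, hdlev, hdK⟩ := A5_fact Q.natDegree Q rfl hlc hroot
  refine ⟨d, ε, N - v, hε, hd0, ?_, hdlev, ?_⟩
  · rw [hdsum, hdeg]; ring
  · intro ζ s hζ hs
    have hx := A5x_ne_zero hζ s
    have e1 := A5_aeval_pol hNA hx
    have e2 := A5_aeval_pol hNB hx
    have e3 : Polynomial.aeval (A5x ζ s) (pol N A - pol N B) =
        A5x ζ s ^ v * Polynomial.aeval (A5x ζ s) Q := by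
      rw [hPQ]; simp
    have h9 := hdK (LaurentSeries ℂ) (A5x ζ s) (A5x_pow_ne_one hζ hs)
    have e4 : Polynomial.aeval (A5x ζ s) Q = (ε : LaurentSeries ℂ) * A5P d (A5x ζ s) := by
      refine Eq.trans ?_ h9
      exact congrArg (fun f : ℤ →+* LaurentSeries ℂ => Polynomial.eval₂ f (A5x ζ s) Q)
        (RingHom.ext_int _ _)
    rw [map_sub, e1, e2, e4, A5P_eq hd0] at e3
    have hF : FF d ζ s = d.prod fun n c => (A5x ζ s ^ n - 1) ^ c := by
      unfold FF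
      apply Finsupp.prod_congr
      intro n _
      rw [A5x_pow, PowerSeries.coe_sub, PowerSeries.coe_one]
    have hpre : ((C ((ε : ℂ) * ζ ^ (-(N - (v : ℤ)))) * ee (-(s * ((N - (v : ℤ) : ℤ) : ℂ))) : ℂ⟦X⟧) :
        LaurentSeries ℂ) = (ε : LaurentSeries ℂ) * A5x ζ s ^ ((v : ℤ) - N) := by
      rw [A5x_zpow hζ]
      have h1 : (ε : LaurentSeries ℂ) = ((C (ε : ℂ) : ℂ⟦X⟧) : LaurentSeries ℂ) := by
        change _ = HahnSeries.ofPowerSeries ℤ ℂ _
        rw [map_intCast, map_intCast]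
      rw [h1, ← PowerSeries.coe_mul]
      congr 1
      rw [map_mul, mul_assoc, neg_sub]
      congr 3
      push_cast
      ring
    rw [PowerSeries.coe_sub, A5_J_eq A hζ, A5_J_eq B hζ, hF, hpre]
    have hxN : A5x ζ s ^ N ≠ 0 := zpow_ne_zero _ hx
    apply mul_left_cancel₀ hxN
    rw [mul_sub, e3, zpow_sub₀ hx, zpow_natCast]
    field_simp

end Pool.Agent.Lib_MP_e4b855_nt.Tri
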