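import Pool.Agent.Lib_MP_e4b855_nt.Tri.Defs

/-!
# Auxiliary lemmas for the structure theorem (piece A5)
-/

namespace Pool.Agent.Lib_MP_e4b855_nt.Tri

open Finset Polynomial
open scoped ArithmeticFunction.Moebius

theorem A5_lev_add (u v : ℕ →₀ ℤ) (N : ℕ) : lev (u + v) N = lev u N + lev v N := by
  unfold lev
  rw [Finsupp.sum_add_index']
  · intro n; split_ifs <;> rfl
  · intro n a b; split_ifs <;> simp

/-- exponent vector of the `e`-th cyclotomic polynomial -/
noncomputable def A5cyc (e : ℕ) : ℕ →₀ ℤ :=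
  ∑ x ∈ e.divisorsAntidiagonal, Finsupp.single x.2 (μ x.1)

theorem A5cyc_zero_apply (e : ℕ) : A5cyc e 0 = 0 := by
  unfold A5cyc
  rw [Finsupp.finsetSum_apply]
  apply Finset.sum_eq_zero
  intro x hx
  rw [Nat.mem_divisorsAntidiagonal] at hx
  rw [Finsupp.single_apply, if_neg]
  intro h
  rw [h, mul_zero] at hx
  exact hx.2 hx.1.symm

theorem A5_lev_cyc {e N : ℕ} (he : 0 < e) :
    lev (A5cyc e) N = if e = N then 1 else 0 := by
  unfold lev A5cyc
  rw [← Finsupp.sum_finsetSum_index]
  · have h1 : ∀ x ∈ e.divisorsAntidiagonal,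
        ((Finsupp.single x.2 (μ x.1)).sum fun n c => if N ∣ n then c else 0) =
          μ x.1 * (if N ∣ x.2 then 1 else 0) := by
      intro x _
      rw [Finsupp.sum_single_index]
      · split_ifs <;> simp
      · split_ifs <;> rfl
    rw [Finset.sum_congr rfl h1]
    have h2 := (ArithmeticFunction.sum_eq_iff_sum_mul_moebius_eq
      (R := ℤ) (f := fun n => if n = N then 1 else 0) (g := fun n => if N ∣ n then 1 else 0)).1 ?_ e he
    · simpa using h2
    · intro n hn
      rw [Finset.sum_ite_eq']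
      simp only [Nat.mem_divisors, ne_eq]
      by_cases h : N ∣ n
      · rw [if_pos ⟨h, hn.ne'⟩, if_pos h]
      · rw [if_neg (fun h' => h h'.1), if_neg h]
  · intro n; split_ifs <;> rfl
  · intro n a b; split_ifs <;> simp

theorem A5_deg_cyc {e : ℕ} (he : 0 < e) :
    ((A5cyc e).sum fun n c => c * (n : ℤ)) = (Nat.totient e : ℤ) := by
  unfold A5cyc
  rw [← Finsupp.sum_finsetSum_index]
  · have h1 : ∀ x ∈ e.divisorsAntidiagonal,
        ((Finsupp.single x.2 (μ x.1)).sum fun n c => c * (n : ℤ)) = μ x.1 * (x.2 : ℤ) := by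
      intro x _
      rw [Finsupp.sum_single_index]
      simp
    rw [Finset.sum_congr rfl h1]
    have h2 := (ArithmeticFunction.sum_eq_iff_sum_mul_moebius_eq
      (R := ℤ) (f := fun n => (Nat.totient n : ℤ)) (g := fun n => (n : ℤ))).1 ?_ e he
    · simpa using h2
    · intro n _
      exact_mod_cast Nat.sum_totient n
  · intro n; simp
  · intro n a b; ring

/-- the product `∏ (x^n - 1)^{v_n}`, with the factor for `n = 0` omitted -/
noncomputable def A5P {K : Type} [Field K] (v : ℕ →₀ ℤ) (x : K) : K :=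
  v.prod fun n c => if n = 0 then 1 else (x ^ n - 1) ^ c

theorem A5P_eq {K : Type} [Field K] {v : ℕ →₀ ℤ} (hv : v 0 = 0) (x : K) :
    A5P v x = v.prod fun n c => (x ^ n - 1) ^ c := by
  unfold A5P
  apply Finsupp.prod_congr
  intro n hn
  rw [if_neg]
  rintro rfl
  exact Finsupp.mem_support_iff.1 hn hv

theorem A5P_add {K : Type} [Field K] (u v : ℕ →₀ ℤ) {x : K} (hx : ∀ n : ℕ, 0 < n → x ^ n ≠ 1) :
    A5P (u + v) x = A5P u x * A5P v x := by
  unfold A5P
  rw [Finsupp.prod_add_index']
  · intro n; simp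
  · intro n a b
    by_cases h : n = 0
    · simp [h]
    · simp only [h, if_false]
      exact zpow_add₀ (sub_ne_zero.2 (hx n (Nat.pos_of_ne_zero h))) a b

theorem A5P_cyc {K : Type} [Field K] {x : K} (hx : ∀ n : ℕ, 0 < n → x ^ n ≠ 1)
    {e : ℕ} (he : 0 < e) : A5P (A5cyc e) x = aeval x (cyclotomic e ℤ) := by
  unfold A5P A5cyc
  rw [← Finsupp.prod_finsetSum_index]
  · have h1 : ∀ y ∈ e.divisorsAntidiagonal,
        ((Finsupp.single y.2 (μ y.1)).prod fun n c => if n = 0 then 1 else (x ^ n - 1) ^ c) =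
          (x ^ y.2 - 1) ^ μ y.1 := by
      intro y hy
      rw [Nat.mem_divisorsAntidiagonal] at hy
      rw [Finsupp.prod_single_index, if_neg]
      · intro h
        rw [h, mul_zero] at hy
        exact hy.2 hy.1.symm
      · simp
    rw [Finset.prod_congr rfl h1]
    have hprod : ∀ n > 0, ∏ i ∈ n.divisors, aeval x (cyclotomic i ℤ) = x ^ n - 1 := by
      intro n hn
      rw [← map_prod, prod_cyclotomic_eq_X_pow_sub_one hn]
      simp
    refine (ArithmeticFunction.prod_eq_iff_prod_pow_moebius_eq_of_nonzero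
      (f := fun n => aeval x (cyclotomic n ℤ)) (g := fun n => x ^ n - 1) ?_ ?_).1 hprod e he
    · intro n hn h0
      have h2 := hprod n hn
      rw [Finset.prod_eq_zero (Nat.mem_divisors_self n hn.ne') h0] at h2
      exact sub_ne_zero.2 (hx n hn) h2.symm
    · intro n hn
      exact sub_ne_zero.2 (hx n hn)
  · intro n; simp
  · intro n a b
    by_cases h : n = 0
    · simp [h]
    · simp only [h, if_false]
      exact zpow_add₀ (sub_ne_zero.2 (hx n (Nat.pos_of_ne_zero h))) a b

/-- cyclotomic factorisation of an integer polynomial all of whose roots are roots of unity -/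
theorem A5_fact (m : ℕ) : ∀ Q : ℤ[X], Q.natDegree = m → (Q.leadingCoeff = 1 ∨ Q.leadingCoeff = -1) →
    (∀ z : ℂ, aeval z Q = 0 → ∃ n : ℕ, 0 < n ∧ z ^ n = 1) →
    ∃ (d : ℕ →₀ ℤ) (ε : ℤ), (ε = 1 ∨ ε = -1) ∧ d 0 = 0 ∧
      (d.sum fun n c => c * (n : ℤ)) = (Q.natDegree : ℤ) ∧ (∀ N, 0 < N → 0 ≤ lev d N) ∧
      ∀ (K : Type) [Field K] (x : K), (∀ n : ℕ, 0 < n → x ^ n ≠ 1) →
        aeval x Q = (ε : K) * A5P d x := by
  induction m using Nat.strong_induction_on with
  | _ m ih =>
  intro Q hm hlc hroot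
  rcases Nat.eq_zero_or_pos m with h0 | hpos
  · have hQ : Q = C (Q.coeff 0) := eq_C_of_natDegree_eq_zero (by rw [hm, h0])
    refine ⟨0, Q.coeff 0, ?_, by simp, ?_, ?_, ?_⟩
    · rw [leadingCoeff, hm, h0] at hlc
      exact hlc
    · rw [hm, h0]; simp
    · intro N _
      unfold lev
      simp
    · intro K _ x _
      conv_lhs => rw [hQ]
      unfold A5P
      simp
  · obtain ⟨z, hz⟩ : ∃ z : ℂ, aeval z Q = 0 := by
      have h1 : (Q.map (algebraMap ℤ ℂ)).degree ≠ 0 := by
        rw [degree_map_eq_of_injective (algebraMap ℤ ℂ).injective_int]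
        intro h
        have h2 : Q.natDegree = 0 := natDegree_eq_of_degree_eq_some (n := 0) (by simpa using h)
        omega
      obtain ⟨z, hz⟩ := IsAlgClosed.exists_root (Q.map (algebraMap ℤ ℂ)) h1
      refine ⟨z, ?_⟩
      rw [IsRoot.def, eval_map_algebraMap] at hz
      exact hz
    obtain ⟨n, hn, hzn⟩ := hroot z hz
    have hfin : 0 < orderOf z := orderOf_pos_iff.2 (isOfFinOrder_iff_pow_eq_one.2 ⟨n, hn, hzn⟩)
    have hprim : IsPrimitiveRoot z (orderOf z) := IsPrimitiveRoot.orderOf z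
    set e := orderOf z with he
    have hint : IsIntegral ℤ z := hprim.isIntegral hfin
    have hdvd : cyclotomic e ℤ ∣ Q := by
      rw [cyclotomic_eq_minpoly hprim hfin]
      exact minpoly.isIntegrallyClosed_dvd hint hz
    obtain ⟨Q', hQ'⟩ := hdvd
    have hmon : (cyclotomic e ℤ).Monic := cyclotomic.monic e ℤ
    have hlc' : Q'.leadingCoeff = Q.leadingCoeff := by
      rw [hQ', leadingCoeff_mul, hmon.leadingCoeff, one_mul]
    have hQ'0 : Q' ≠ 0 := by
      rintro rfl
      rw [leadingCoeff_zero] at hlc'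
      rw [← hlc'] at hlc
      rcases hlc with h | h <;> norm_num at h
    have hdeg : Q.natDegree = Nat.totient e + Q'.natDegree := by
      rw [hQ', natDegree_mul hmon.ne_zero hQ'0, natDegree_cyclotomic]
    have htot : 0 < Nat.totient e := Nat.totient_pos.2 hfin
    obtain ⟨d, ε, hε, hd0, hdsum, hdlev, hdK⟩ := ih Q'.natDegree (by omega) Q' rfl
      (by rw [hlc']; exact hlc) (by
        intro w hw
        apply hroot w
        rw [hQ', map_mul, hw, mul_zero])
    refine ⟨A5cyc e + d, ε, hε, ?_, ?_, ?_, ?_⟩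
    · rw [Finsupp.add_apply, A5cyc_zero_apply, hd0, add_zero]
    · rw [Finsupp.sum_add_index', A5_deg_cyc hfin, hdsum, hdeg]
      · push_cast; ring
      · intro n; simp
      · intro n a b; ring
    · intro N hN
      rw [A5_lev_add, A5_lev_cyc hfin]
      have := hdlev N hN
      split_ifs <;> omega
    · intro K _ x hx
      rw [A5P_add _ _ hx, A5P_cyc hx hfin, hQ', map_mul, hdK K x hx]
      ring

end Pool.Agent.Lib_MP_e4b855_nt.Tri
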