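import Pool.Agent.Lib_MP_e4b855_nt.Tri.Eps

/-!
# Part III: transfer of an identity from `ℂ` to a field with a primitive root of order 283
-/

namespace Pool.Agent.Lib_MP_e4b855_nt.Tri

open Finset

/-- the integer polynomial whose value at `z` is `(t_0 t_1 t_2)^M` times `eps e (z^(3^k))` -/
private noncomputable def trPol (M : ℕ) (e : ℕ → ℤ) (k : ℕ) : Polynomial ℤ :=
  th k Polynomial.X ^ (e 0 + M).toNat * th (k + 1) Polynomial.X ^ (e 1 + M).toNat *
    th (k + 2) Polynomial.X ^ (e 2 + M).toNat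

private theorem tr_aeval_th {K : Type*} [Field K] (z : K) (c : ℕ) :
    Polynomial.aeval z (th c (Polynomial.X : Polynomial ℤ)) = th c z := by
  have h := th_map ((Polynomial.aeval (R := ℤ) z : Polynomial ℤ →ₐ[ℤ] K) :
    Polynomial ℤ →+* K) c Polynomial.X
  simpa using h

private theorem tr_aeval {K : Type*} [Field K] {z : K} (hz : IsPrimitiveRoot z 283) {M : ℕ}
    (hM : Even M) {e : ℕ → ℤ} (h0 : 0 ≤ e 0 + M) (h1 : 0 ≤ e 1 + M) (h2 : 0 ≤ e 2 + M) {k : ℕ}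
    (hk : k < 3) :
    Polynomial.aeval z (trPol M e k) =
      eps e (z ^ 3 ^ k) * (th 0 z * th 1 z * th 2 z) ^ M := by
  have hne : ∀ c, th c z ≠ 0 := fun c => th_ne_zero hz c
  have hpow : ∀ (c : ℕ) (a : ℤ), 0 ≤ a + M → th c z ^ (a + M).toNat = th c z ^ a * th c z ^ M := by
    intro c a ha
    rw [← zpow_natCast, Int.toNat_of_nonneg ha, zpow_add₀ (hne c), zpow_natCast]
  unfold trPol
  rw [map_mul, map_mul, map_pow, map_pow, map_pow, tr_aeval_th, tr_aeval_th, tr_aeval_th,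
    hpow k _ h0, hpow (k + 1) _ h1, hpow (k + 2) _ h2, eps_eq]
  have hprod : (th k z * th (k + 1) z * th (k + 2) z) ^ M = (th 0 z * th 1 z * th 2 z) ^ M := by
    have h3 : th 3 z = -th 0 z := th_three hz.pow_eq_one 0
    have h4 : th 4 z = -th 1 z := th_three hz.pow_eq_one 1
    interval_cases k
    · rfl
    · have e1 : th 1 z * th 2 z * th 3 z = -(th 0 z * th 1 z * th 2 z) := by rw [h3]; ring
      change (th 1 z * th 2 z * th 3 z) ^ M = _
      rw [e1, hM.neg_pow]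
    · have e1 : th 2 z * th 3 z * th 4 z = th 0 z * th 1 z * th 2 z := by rw [h3, h4]; ring
      change (th 2 z * th 3 z * th 4 z) ^ M = _
      rw [e1]
  rw [← hprod, mul_pow, mul_pow]
  ring

/-- Let `t_k = th k η`, `t_3 = -t_0`, `t_4 = -t_1`; `eps e (η^(3^k)) = t_k^{e_0} t_{k+1}^{e_1}
t_{k+2}^{e_2}` (`eps_eq`).  Let `M` be even and at least all the `|e_c|`, `|e'_c|`.  Multiplying
`eps e (η^(3^k))` by `(t_0 t_1 t_2)^M = (t_k t_{k+1} t_{k+2})^M` one gets the value at `η` of the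
integer polynomial `th k X ^ (e_0 + M) * th (k+1) X ^ (e_1 + M) * th (k+2) X ^ (e_2 + M)`
(`th_map`).  So the identity multiplied by `(t_0 t_1 t_2)^(2M)` says that an integer polynomial
vanishes at `η`; it is divisible by `cyclotomic 283 ℤ` (the minimal polynomial of `η`), so vanishes
at `z`; divide by `(t_0 t_1 t_2)^(2M) ≠ 0` (`th_ne_zero`) at `z`. -/
theorem transfer_field {e e' : ℕ → ℤ} {η : ℂ} (hη : IsPrimitiveRoot η 283)
    (h : (eps e (η ^ 3 ^ 1) - eps e (η ^ 3 ^ 0)) * (eps e' (η ^ 3 ^ 2) - eps e' (η ^ 3 ^ 0)) =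
      (eps e' (η ^ 3 ^ 1) - eps e' (η ^ 3 ^ 0)) * (eps e (η ^ 3 ^ 2) - eps e (η ^ 3 ^ 0)))
    {K : Type*} [Field K] {z : K} (hz : IsPrimitiveRoot z 283) :
    (eps e (z ^ 3 ^ 1) - eps e (z ^ 3 ^ 0)) * (eps e' (z ^ 3 ^ 2) - eps e' (z ^ 3 ^ 0)) =
      (eps e' (z ^ 3 ^ 1) - eps e' (z ^ 3 ^ 0)) * (eps e (z ^ 3 ^ 2) - eps e (z ^ 3 ^ 0)) := by
  -- the exponent
  set m : ℕ := (e 0).natAbs + (e 1).natAbs + (e 2).natAbs +
    ((e' 0).natAbs + (e' 1).natAbs + (e' 2).natAbs) with hm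
  set M : ℕ := 2 * m with hMdef
  have hM : Even M := even_two_mul m
  have a0 : 0 ≤ e 0 + M := by omega
  have a1 : 0 ≤ e 1 + M := by omega
  have a2 : 0 ≤ e 2 + M := by omega
  have b0 : 0 ≤ e' 0 + M := by omega
  have b1 : 0 ≤ e' 1 + M := by omega
  have b2 : 0 ≤ e' 2 + M := by omega
  clear_value M
  set F : Polynomial ℤ :=
    (trPol M e 1 - trPol M e 0) * (trPol M e' 2 - trPol M e' 0) -
      (trPol M e' 1 - trPol M e' 0) * (trPol M e 2 - trPol M e 0) with hF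
  have hval : ∀ {L : Type _} [Field L] {w : L}, IsPrimitiveRoot w 283 →
      Polynomial.aeval w F =
        ((eps e (w ^ 3 ^ 1) - eps e (w ^ 3 ^ 0)) * (eps e' (w ^ 3 ^ 2) - eps e' (w ^ 3 ^ 0)) -
        (eps e' (w ^ 3 ^ 1) - eps e' (w ^ 3 ^ 0)) * (eps e (w ^ 3 ^ 2) - eps e (w ^ 3 ^ 0))) *
          ((th 0 w * th 1 w * th 2 w) ^ M * (th 0 w * th 1 w * th 2 w) ^ M) := by
    intro L _ w hw
    rw [hF, map_sub, map_mul, map_mul, map_sub, map_sub, map_sub, map_sub,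
      tr_aeval hw hM a0 a1 a2 (k := 0) (by norm_num), tr_aeval hw hM a0 a1 a2 (k := 1) (by norm_num),
      tr_aeval hw hM a0 a1 a2 (k := 2) (by norm_num), tr_aeval hw hM b0 b1 b2 (k := 0) (by norm_num),
      tr_aeval hw hM b0 b1 b2 (k := 1) (by norm_num), tr_aeval hw hM b0 b1 b2 (k := 2) (by norm_num)]
    ring
  have hη0 : Polynomial.aeval η F = 0 := by
    have h1 : ((eps e (η ^ 3 ^ 1) - eps e (η ^ 3 ^ 0)) * (eps e' (η ^ 3 ^ 2) - eps e' (η ^ 3 ^ 0)) -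
        (eps e' (η ^ 3 ^ 1) - eps e' (η ^ 3 ^ 0)) * (eps e (η ^ 3 ^ 2) - eps e (η ^ 3 ^ 0))) = 0 :=
      sub_eq_zero.2 h
    have h2 : Polynomial.aeval η F =
        ((eps e (η ^ 3 ^ 1) - eps e (η ^ 3 ^ 0)) * (eps e' (η ^ 3 ^ 2) - eps e' (η ^ 3 ^ 0)) -
        (eps e' (η ^ 3 ^ 1) - eps e' (η ^ 3 ^ 0)) * (eps e (η ^ 3 ^ 2) - eps e (η ^ 3 ^ 0))) *
          ((th 0 η * th 1 η * th 2 η) ^ M * (th 0 η * th 1 η * th 2 η) ^ M) := by
      rw [hF, map_sub, map_mul, map_mul, map_sub, map_sub, map_sub, map_sub,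
        tr_aeval hη hM a0 a1 a2 (k := 0) (by norm_num),
        tr_aeval hη hM a0 a1 a2 (k := 1) (by norm_num),
        tr_aeval hη hM a0 a1 a2 (k := 2) (by norm_num),
        tr_aeval hη hM b0 b1 b2 (k := 0) (by norm_num),
        tr_aeval hη hM b0 b1 b2 (k := 1) (by norm_num),
        tr_aeval hη hM b0 b1 b2 (k := 2) (by norm_num)]
      ring
    rw [h2, h1, zero_mul]
  have hdvd : Polynomial.cyclotomic 283 ℤ ∣ F := by
    rw [Polynomial.cyclotomic_eq_minpoly hη (by norm_num)]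
    exact minpoly.isIntegrallyClosed_dvd (hη.isIntegral (by norm_num)) hη0
  obtain ⟨R, hR⟩ := hdvd
  have hz0 : Polynomial.aeval z F = 0 := by
    have h1 : Polynomial.aeval z (Polynomial.cyclotomic 283 ℤ) = 0 := by
      have h2 := hz.isRoot_cyclotomic (by norm_num)
      rw [Polynomial.IsRoot.def] at h2
      rw [Polynomial.aeval_def, ← Polynomial.eval_map, Polynomial.map_cyclotomic]
      exact h2
    rw [hR, map_mul, h1, zero_mul]
  have h3 := hval (L := K) hz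
  rw [hz0] at h3
  have hne : th 0 z * th 1 z * th 2 z ≠ 0 :=
    mul_ne_zero (mul_ne_zero (th_ne_zero hz 0) (th_ne_zero hz 1)) (th_ne_zero hz 2)
  have hne2 : (th 0 z * th 1 z * th 2 z) ^ M * (th 0 z * th 1 z * th 2 z) ^ M ≠ 0 :=
    mul_ne_zero (pow_ne_zero _ hne) (pow_ne_zero _ hne)
  rcases mul_eq_zero.1 h3.symm with h4 | h4
  · exact sub_eq_zero.1 h4
  · exact absurd h4 hne2

end Pool.Agent.Lib_MP_e4b855_nt.Tri
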