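import Pool.Agent.Lib_MP_e4b855_nt.Tri.LowB
import Pool.Agent.Lib_MP_e4b855_nt.Tri.Eps

/-!
# Part III: the ratio of the leading coefficients is a rational number times a unit
-/

namespace Pool.Agent.Lib_MP_e4b855_nt.Tri

open PowerSeries Finset

namespace Trip

variable {m : ℕ} (T : Trip m)

theorem HU_coeff (i : ZMod 3) (ζ : ℂ) (μ : ℕ) :
    (μ.factorial : ℂ) * coeff μ (T.D i ζ 1) =
      ∑ a ∈ T.S i, ζ ^ a * (a : ℂ) ^ μ - ∑ a ∈ T.S (i + 1), ζ ^ a * (a : ℂ) ^ μ := by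
  have h0 : (μ.factorial : ℂ) ≠ 0 := by exact_mod_cast μ.factorial_ne_zero
  rw [D, map_sub, coeff_J, coeff_J, ← sub_div, mul_div_cancel₀ _ h0]
  simp only [one_mul]

theorem HU_poly (A : Finset ℤ) (μ : ℕ) {B : ℕ} (hB : ∀ a ∈ A, |a| ≤ B) {ζ : ℂ} (hζ : ζ ≠ 0) :
    ζ ^ B * ∑ a ∈ A, ζ ^ a * (a : ℂ) ^ μ =
      Polynomial.aeval ζ (∑ a ∈ A, Polynomial.C (a ^ μ) * Polynomial.X ^ ((B : ℤ) + a).toNat :
        Polynomial ℤ) := by
  rw [map_sum, Finset.mul_sum]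
  refine Finset.sum_congr rfl fun a ha => ?_
  have h1 : (0 : ℤ) ≤ (B : ℤ) + a := by
    have h2 := hB a ha
    have h3 := neg_abs_le a
    linarith
  have h4 : ζ ^ ((B : ℤ) + a).toNat = ζ ^ B * ζ ^ a := by
    rw [← zpow_natCast ζ ((B : ℤ) + a).toNat, Int.toNat_of_nonneg h1, zpow_add₀ hζ, zpow_natCast]
  rw [map_mul, Polynomial.aeval_C, map_pow (Polynomial.aeval ζ) Polynomial.X, Polynomial.aeval_X, h4]
  simp
  ring

/-- `μ! ζ^B coeff μ (D_i ζ 1)` is the value of an integer polynomial at `ζ` -/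
theorem lead_poly (i : ZMod 3) (μ : ℕ) : ∃ (B : ℕ) (P : Polynomial ℤ), ∀ ζ : ℂ, ζ ≠ 0 →
    (μ.factorial : ℂ) * ζ ^ B * coeff μ (T.D i ζ 1) = Polynomial.aeval ζ P := by
  classical
  have hB : ∃ B : ℕ, ∀ a ∈ T.S i ∪ T.S (i + 1), |a| ≤ (B : ℤ) := by
    refine ⟨∑ a ∈ T.S i ∪ T.S (i + 1), a.natAbs, fun a ha => ?_⟩
    have h1 := Finset.single_le_sum (f := fun a : ℤ => a.natAbs) (fun _ _ => Nat.zero_le _) ha
    rw [← Int.natCast_natAbs]
    exact_mod_cast h1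
  obtain ⟨B, hB⟩ := hB
  refine ⟨B, ∑ a ∈ T.S i, Polynomial.C (a ^ μ) * Polynomial.X ^ ((B : ℤ) + a).toNat -
    ∑ a ∈ T.S (i + 1), Polynomial.C (a ^ μ) * Polynomial.X ^ ((B : ℤ) + a).toNat,
    fun ζ hζ => ?_⟩
  rw [mul_right_comm, HU_coeff, map_sub,
    ← HU_poly (T.S i) μ (fun a ha => hB a (Finset.mem_union_left _ ha)) hζ,
    ← HU_poly (T.S (i + 1)) μ (fun a ha => hB a (Finset.mem_union_right _ ha)) hζ]
  ring

theorem HU_conj_sum {A : Finset ℤ} (hA : ∀ a ∈ A, -a ∈ A) (μ : ℕ) {ζ : ℂ} (hζ : ‖ζ‖ = 1) :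
    (starRingEnd ℂ) (∑ a ∈ A, ζ ^ a * (a : ℂ) ^ μ) = (-1) ^ μ * ∑ a ∈ A, ζ ^ a * (a : ℂ) ^ μ := by
  have hc : (starRingEnd ℂ) ζ = ζ⁻¹ := (Complex.inv_eq_conj hζ).symm
  have h1 : (starRingEnd ℂ) (∑ a ∈ A, ζ ^ a * (a : ℂ) ^ μ) =
      ∑ a ∈ A, ζ ^ (-a) * (a : ℂ) ^ μ := by
    rw [map_sum]
    refine Finset.sum_congr rfl fun a _ => ?_
    rw [map_mul, map_pow, map_zpow₀, hc, inv_zpow, zpow_neg]
    simp
  rw [h1, Finset.mul_sum]
  refine Finset.sum_bij' (fun a _ => -a) (fun a _ => -a) (fun a ha => hA a ha)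
    (fun a ha => hA a ha) (fun a _ => neg_neg a) (fun a _ => neg_neg a) (fun a _ => ?_)
  push_cast
  rw [neg_pow (a : ℂ) μ]
  have h2 : ((-1 : ℂ) ^ μ) * (-1) ^ μ = 1 := by rw [← mul_pow]; simp
  linear_combination (-(ζ ^ (-a) * (a : ℂ) ^ μ)) * h2

/-- `S_i = -S_i` and `conj ζ = ζ⁻¹` -/
theorem lead_conj (i : ZMod 3) (μ : ℕ) {ζ : ℂ} (hζ : ‖ζ‖ = 1) :
    (starRingEnd ℂ) (coeff μ (T.D i ζ 1)) = (-1) ^ μ * coeff μ (T.D i ζ 1) := by
  have h0 : (μ.factorial : ℂ) ≠ 0 := by exact_mod_cast μ.factorial_ne_zero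
  have h1 := T.HU_coeff i ζ μ
  have h2 := congrArg (starRingEnd ℂ) h1
  rw [map_sub, HU_conj_sum (T.symm i) μ hζ, HU_conj_sum (T.symm (i + 1)) μ hζ, ← mul_sub, ← h1,
    map_mul, map_natCast] at h2
  apply mul_left_cancel₀ h0
  rw [h2]
  ring

theorem HU_ne (l : ZMod 3) {N μ : ℕ} (hN : 0 < N) (hμ : T.al l N = μ) {ζ : ℂ}
    (hζ : IsPrimitiveRoot ζ N) : coeff μ (T.D l ζ 1) ≠ 0 := by
  obtain ⟨U, _, hU2, hU3⟩ := T.D_lead l hN hζ (one_ne_zero : (1 : ℂ) ≠ 0)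
  rw [hU3, hμ]
  have h := PowerSeries.coeff_X_pow_mul U μ 0
  rw [zero_add] at h
  rw [h, coeff_zero_eq_constantCoeff_apply]
  exact hU2

theorem HU_sign {z w : ℂ} {c : ℝ} (hw : w ≠ 0)
    (hreal : (starRingEnd ℂ) z * w = z * (starRingEnd ℂ) w) (hn : ‖z‖ = c * ‖w‖) :
    z = (c : ℂ) * w ∨ z = -(c : ℂ) * w := by
  have hw' : (starRingEnd ℂ) w ≠ 0 := by
    rw [Ne, _root_.map_eq_zero]; exact hw
  have h1 : (starRingEnd ℂ) (z / w) = z / w := by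
    rw [map_div₀, div_eq_div_iff hw' hw, hreal]
  obtain ⟨r, hr⟩ := Complex.conj_eq_iff_real.mp h1
  have hz : z = (r : ℂ) * w := by
    rw [← hr, div_mul_cancel₀ _ hw]
  have h2 : |r| = c := by
    rw [hz, norm_mul, Complex.norm_real, Real.norm_eq_abs] at hn
    exact mul_right_cancel₀ (norm_ne_zero_iff.mpr hw) hn
  rcases abs_eq_abs.mp (h2.trans (abs_of_nonneg (h2 ▸ abs_nonneg r)).symm) with h3 | h3
  · left; rw [hz, h3]
  · right; rw [hz, h3]; push_cast; ring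

theorem HU_all {N : ℕ} (hN : 0 < N) (R : Polynomial ℤ) {ζ₀ : ℂ} (h0 : IsPrimitiveRoot ζ₀ N)
    (hR : Polynomial.aeval ζ₀ R = 0) {ζ : ℂ} (hζ : IsPrimitiveRoot ζ N) :
    Polynomial.aeval ζ R = 0 := by
  have h1 : minpoly ℤ ζ₀ ∣ R := minpoly.isIntegrallyClosed_dvd (h0.isIntegral hN) hR
  have h2 : minpoly ℤ ζ₀ = minpoly ℤ ζ := by
    rw [← Polynomial.cyclotomic_eq_minpoly h0 hN, ← Polynomial.cyclotomic_eq_minpoly hζ hN]
  rw [h2] at h1
  obtain ⟨Q, rfl⟩ := h1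
  rw [map_mul, minpoly.aeval, zero_mul]

/-- `∏_c th c ^ (e_c)⁺` -/
def HU_up {R : Type*} [CommRing R] (e : ℕ → ℤ) (η : R) : R :=
  ∏ c ∈ range 3, th c η ^ (e c).toNat

theorem HU_up_map {R S : Type*} [CommRing R] [CommRing S] (f : R →+* S) (e : ℕ → ℤ) (η : R) :
    f (HU_up e η) = HU_up e (f η) := by
  unfold HU_up
  rw [map_prod]
  refine Finset.prod_congr rfl fun c _ => ?_
  rw [map_pow, th_map]

theorem HU_eps {η : ℂ} (h : IsPrimitiveRoot η 283) (e : ℕ → ℤ) :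
    eps e η * HU_up (fun c => -e c) η = HU_up e η := by
  unfold eps HU_up
  rw [← Finset.prod_mul_distrib]
  refine Finset.prod_congr rfl fun c _ => ?_
  have h0 := th_ne_zero h c
  rw [← zpow_natCast (th c η) (-e c).toNat, ← zpow_natCast (th c η) (e c).toNat, ← zpow_add₀ h0]
  congr 1
  omega

theorem HU_up_ne {η : ℂ} (h : IsPrimitiveRoot η 283) (e : ℕ → ℤ) : HU_up e η ≠ 0 := by
  unfold HU_up
  exact Finset.prod_ne_zero_iff.mpr fun c _ => pow_ne_zero _ (th_ne_zero h c)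

theorem HU_prim {j : ℕ} (hj : 0 < j) {ζ : ℂ} (hζ : IsPrimitiveRoot ζ (283 ^ j)) :
    IsPrimitiveRoot (ζ ^ 283 ^ (j - 1)) 283 := by
  refine hζ.pow (by positivity) ?_
  rw [← pow_succ]
  congr 1
  omega

/-- The absolute values of both sides agree for `ν = ∏_{N ∣ n} n^{v_n}` (`log_lead`, `hlog`,
`log_norm_eps`); both `λ_i(ζ)/λ_{i+2}(ζ)` and `eps` are real (`lead_conj`, `eps_conj`), so the
identity holds up to a sign depending on `ζ`; it is an identity between values at `ζ` of integer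
polynomials (`lead_poly`; write `eps` with nonnegative exponents on both sides), so if it holds with
the sign `+` (or `-`) for one primitive `ζ` it does for all (the minimal polynomial is
`cyclotomic`). -/
theorem unit_ratio (i : ZMod 3) {j μ : ℕ} (hj : 0 < j) (hμ : ∀ l, T.al l (283 ^ j) = μ)
    {e : ℕ → ℤ} (he : e 0 + e 1 + e 2 = 0)
    (hlog : ∀ ζ : ℂ, IsPrimitiveRoot ζ (283 ^ j) →
      ((T.d i - T.d (i + 2)).sum fun n a =>
        if 283 ^ j ∣ n then 0 else (a : ℝ) * Real.log ‖ζ ^ n - 1‖) =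
      ∑ c ∈ range 3, (e c : ℝ) * Real.log ‖th c (ζ ^ 283 ^ (j - 1))‖) :
    ∃ ν : ℚ, ν ≠ 0 ∧ ∀ ζ : ℂ, IsPrimitiveRoot ζ (283 ^ j) →
      coeff μ (T.D i ζ 1) = (ν : ℂ) * eps e (ζ ^ 283 ^ (j - 1)) * coeff μ (T.D (i + 2) ζ 1) := by
  have hN : 0 < 283 ^ j := by positivity
  set N := 283 ^ j with hNdef
  set v := T.d i - T.d (i + 2) with hv
  have hv0 : v 0 = 0 := by
    rw [hv, Finsupp.sub_apply, T.d_zero, T.d_zero, sub_zero]
  set ν₀ : ℚ := v.prod fun n a => if N ∣ n then (n : ℚ) ^ a else 1 with hν₀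
  have hνpos : 0 < ν₀ := by
    rw [hν₀]
    refine Finset.prod_pos fun n hn => ?_
    have hn0 : n ≠ 0 := by
      rintro rfl
      exact (Finsupp.mem_support_iff.mp hn) hv0
    have h1 : (0 : ℚ) < n := by exact_mod_cast Nat.pos_of_ne_zero hn0
    simp only
    split_ifs
    · exact zpow_pos h1 _
    · exact one_pos
  have hlogν : Real.log (ν₀ : ℝ) = v.sum fun n a => if N ∣ n then (a : ℝ) * Real.log n else 0 := by
    rw [hν₀, Finsupp.prod, Rat.cast_prod, Real.log_prod, Finsupp.sum]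
    · refine Finset.sum_congr rfl fun n _ => ?_
      split_ifs
      · rw [Rat.cast_zpow, Rat.cast_natCast, Real.log_zpow]
      · simp
    · intro n hn
      have hn0 : n ≠ 0 := by
        rintro rfl
        exact (Finsupp.mem_support_iff.mp hn) hv0
      have h1 : (n : ℚ) ≠ 0 := by exact_mod_cast hn0
      have h2 : (if N ∣ n then (n : ℚ) ^ (v n) else 1) ≠ 0 := by
        split_ifs
        · exact zpow_ne_zero _ h1
        · exact one_ne_zero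
      exact_mod_cast h2
  -- the identity up to sign
  have hsign : ∀ ζ : ℂ, IsPrimitiveRoot ζ N →
      coeff μ (T.D i ζ 1) = (ν₀ : ℂ) * (eps e (ζ ^ 283 ^ (j - 1)) * coeff μ (T.D (i + 2) ζ 1)) ∨
      coeff μ (T.D i ζ 1) = -(ν₀ : ℂ) * (eps e (ζ ^ 283 ^ (j - 1)) * coeff μ (T.D (i + 2) ζ 1)) := by
    intro ζ hζ
    have hη := HU_prim hj hζ
    have hη1 : (ζ ^ 283 ^ (j - 1)) ^ 283 = 1 := hη.pow_eq_one
    have hn1 : ‖ζ‖ = 1 := hζ.norm'_eq_one hN.ne'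
    have ha := T.HU_ne i hN (hμ i) hζ
    have hb := T.HU_ne (i + 2) hN (hμ (i + 2)) hζ
    have hc := eps_ne_zero hη e
    have hw : eps e (ζ ^ 283 ^ (j - 1)) * coeff μ (T.D (i + 2) ζ 1) ≠ 0 := mul_ne_zero hc hb
    have key : ‖coeff μ (T.D i ζ 1)‖ =
        (ν₀ : ℝ) * ‖eps e (ζ ^ 283 ^ (j - 1)) * coeff μ (T.D (i + 2) ζ 1)‖ := by
      have hνr : (0 : ℝ) < ν₀ := by exact_mod_cast hνpos
      apply Real.log_injOn_pos (Set.mem_Ioi.mpr (norm_pos_iff.mpr ha))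
        (Set.mem_Ioi.mpr (mul_pos hνr (norm_pos_iff.mpr hw)))
      rw [Real.log_mul hνr.ne' (norm_ne_zero_iff.mpr hw), norm_mul,
        Real.log_mul (norm_ne_zero_iff.mpr hc) (norm_ne_zero_iff.mpr hb), hlogν,
        log_norm_eps hη e, ← hlog ζ hζ]
      have h3 := T.log_lead i hN hμ hζ
      rw [← hv] at h3
      linarith
    have hreal : (starRingEnd ℂ) (coeff μ (T.D i ζ 1)) *
        (eps e (ζ ^ 283 ^ (j - 1)) * coeff μ (T.D (i + 2) ζ 1)) =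
        coeff μ (T.D i ζ 1) *
          (starRingEnd ℂ) (eps e (ζ ^ 283 ^ (j - 1)) * coeff μ (T.D (i + 2) ζ 1)) := by
      rw [map_mul, T.lead_conj i μ hn1, T.lead_conj (i + 2) μ hn1, eps_conj hη1 he]
      ring
    have h4 := HU_sign hw hreal key
    simpa using h4
  obtain ⟨B₁, P₁, hP₁⟩ := T.lead_poly i μ
  obtain ⟨B₂, P₂, hP₂⟩ := T.lead_poly (i + 2) μ
  -- the polynomial
  set q := 283 ^ (j - 1) with hq
  let R : ℤ → Polynomial ℤ := fun s =>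
    Polynomial.C (ν₀.den : ℤ) * Polynomial.X ^ B₂ * P₁ *
      HU_up (fun c => -e c) ((Polynomial.X : Polynomial ℤ) ^ q) -
    Polynomial.C (s * ν₀.num) * Polynomial.X ^ B₁ * P₂ * HU_up e ((Polynomial.X : Polynomial ℤ) ^ q)
  have hR : ∀ (s : ℤ) (ζ : ℂ), IsPrimitiveRoot ζ N → Polynomial.aeval ζ (R s) =
      (μ.factorial : ℂ) * ζ ^ (B₁ + B₂) * HU_up (fun c => -e c) (ζ ^ q) * (ν₀.den : ℂ) *
        (coeff μ (T.D i ζ 1) - (s : ℂ) * (ν₀ : ℂ) * eps e (ζ ^ q) * coeff μ (T.D (i + 2) ζ 1)) := by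
    intro s ζ hζ
    have hζ0 : ζ ≠ 0 := hζ.ne_zero hN.ne'
    have hη : IsPrimitiveRoot (ζ ^ q) 283 := HU_prim hj hζ
    have h1 : Polynomial.aeval ζ (R s) =
        (ν₀.den : ℂ) * ζ ^ B₂ * Polynomial.aeval ζ P₁ * HU_up (fun c => -e c) (ζ ^ q) -
        ((s : ℂ) * ν₀.num) * ζ ^ B₁ * Polynomial.aeval ζ P₂ * HU_up e (ζ ^ q) := by
      have h5 : ∀ e' : ℕ → ℤ, Polynomial.aeval ζ (HU_up e' ((Polynomial.X : Polynomial ℤ) ^ q)) =
          HU_up e' (ζ ^ q) := by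
        intro e'
        have h6 := HU_up_map (Polynomial.aeval ζ : Polynomial ℤ →ₐ[ℤ] ℂ).toRingHom e'
          ((Polynomial.X : Polynomial ℤ) ^ q)
        rw [map_pow] at h6
        have h7 : (Polynomial.aeval ζ : Polynomial ℤ →ₐ[ℤ] ℂ).toRingHom Polynomial.X = ζ :=
          Polynomial.aeval_X ζ
        rw [h7] at h6
        exact h6
      simp only [R]
      rw [map_sub, map_mul, map_mul, map_mul, map_mul, map_mul, map_mul, h5, h5,
        Polynomial.aeval_C, Polynomial.aeval_C, map_pow, map_pow, Polynomial.aeval_X]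
      simp
    have hd : (ν₀.num : ℂ) = ν₀ * ν₀.den := by
      have h8 := Rat.mul_den_eq_num ν₀
      exact_mod_cast h8.symm
    rw [h1, ← hP₁ ζ hζ0, ← hP₂ ζ hζ0, ← HU_eps hη e, hd, pow_add]
    ring
  have hfac : (μ.factorial : ℂ) ≠ 0 := by exact_mod_cast μ.factorial_ne_zero
  have hden : (ν₀.den : ℂ) ≠ 0 := by exact_mod_cast ν₀.den_ne_zero
  have hiff : ∀ (s : ℤ) (ζ : ℂ), IsPrimitiveRoot ζ N → (Polynomial.aeval ζ (R s) = 0 ↔
      coeff μ (T.D i ζ 1) = (s : ℂ) * (ν₀ : ℂ) * eps e (ζ ^ q) * coeff μ (T.D (i + 2) ζ 1)) := by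
    intro s ζ hζ
    have hζ0 : ζ ≠ 0 := hζ.ne_zero hN.ne'
    have hη : IsPrimitiveRoot (ζ ^ q) 283 := HU_prim hj hζ
    rw [hR s ζ hζ, mul_eq_zero, sub_eq_zero]
    constructor
    · rintro (h | h)
      · exfalso
        have h9 := HU_up_ne hη (fun c => -e c)
        exact (mul_ne_zero (mul_ne_zero (mul_ne_zero hfac (pow_ne_zero _ hζ0)) h9) hden) h
      · exact h
    · exact Or.inr
  have h0 := Complex.isPrimitiveRoot_exp N hN.ne'
  have hs : ∃ s : ℤ, s ≠ 0 ∧ Polynomial.aeval (Complex.exp (2 * Real.pi * Complex.I / N)) (R s) = 0 := by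
    rcases hsign _ h0 with h | h
    · refine ⟨1, one_ne_zero, (hiff 1 _ h0).mpr ?_⟩
      rw [h]; push_cast; ring
    · refine ⟨-1, by norm_num, (hiff (-1) _ h0).mpr ?_⟩
      rw [h]; push_cast; ring
  obtain ⟨s, hs0, hs⟩ := hs
  refine ⟨s * ν₀, mul_ne_zero (by exact_mod_cast hs0) hνpos.ne', fun ζ hζ => ?_⟩
  have h10 := (hiff s ζ hζ).mp (HU_all hN (R s) h0 hs hζ)
  rw [h10]
  push_cast
  ring

end Trip

end Pool.Agent.Lib_MP_e4b855_nt.Tri
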