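import Pool.Agent.Lib_MP_e4b855_nt.Tri.PartTwoMain
import Pool.Agent.Lib_MP_e4b855_nt.Tri.ClassE
import Pool.Agent.Lib_MP_e4b855_nt.Tri.Unit
import Pool.Agent.Lib_MP_e4b855_nt.Tri.BoundB
import Pool.Agent.Lib_MP_e4b855_nt.Tri.PerB
import Pool.Agent.Lib_MP_e4b855_nt.Tri.CheckB
import Pool.Agent.Lib_MP_e4b855_nt.Tri.Trans
import Pool.Agent.Lib_MP_e4b855_nt.Tri.Desc
import Pool.Agent.Lib_MP_e4b855_nt.Tri.Num

/-! # Part III: main theorem (helper56) -/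

namespace Pool.Agent.Lib_MP_e4b855_nt.Tri

open PowerSeries Finset

theorem eps_neg {K : Type*} [Field K] (e : ℕ → ℤ) (η : K) :
    eps (fun c => -e c) η = (eps e η)⁻¹ := by
  unfold eps
  rw [← Finset.prod_inv_distrib]
  exact Finset.prod_congr rfl fun c _ => zpow_neg _ _

theorem eps_zero {K : Type*} [Field K] {e : ℕ → ℤ} (h0 : e 0 = 0) (h1 : e 1 = 0) (h2 : e 2 = 0)
    (η : K) : eps e η = 1 := by
  unfold eps
  simp [Finset.prod_range_succ, h0, h1, h2]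

theorem norm_th_three {η : ℂ} (h : η ^ 283 = 1) (c : ℕ) : ‖th (c + 3) η‖ = ‖th c η‖ := by
  rw [th_three h, norm_neg]

theorem logb_zpow' (x : ℝ) (n : ℤ) : Real.logb 2 (x ^ n) = n * Real.logb 2 x := by
  unfold Real.logb
  rw [Real.log_zpow, mul_div_assoc]

/-- logarithms of the conjugates of a unit -/
theorem logb_eps {η : ℂ} (h : IsPrimitiveRoot η 283) (e : ℕ → ℤ) (k : ℕ) :
    Real.logb 2 ‖eps e (η ^ 3 ^ k)‖ = e 0 * Real.logb 2 ‖th k η‖ +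
      e 1 * Real.logb 2 ‖th (k + 1) η‖ + e 2 * Real.logb 2 ‖th (k + 2) η‖ := by
  have h0 : ∀ c, ‖th c η‖ ≠ 0 := fun c => norm_ne_zero_iff.mpr (th_ne_zero h c)
  rw [eps_eq, norm_mul, norm_mul, norm_zpow, norm_zpow, norm_zpow, Real.logb_mul, Real.logb_mul,
    logb_zpow', logb_zpow', logb_zpow']
  · exact zpow_ne_zero _ (h0 _)
  · exact zpow_ne_zero _ (h0 _)
  · exact mul_ne_zero (zpow_ne_zero _ (h0 _)) (zpow_ne_zero _ (h0 _))
  · exact zpow_ne_zero _ (h0 _)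

theorem abs_logb_le {x : ℝ} {R : ℕ} (hx0 : 0 < x) (h1 : x ≤ 2 ^ R) (h2 : 1 ≤ 2 ^ R * x) :
    |Real.logb 2 x| ≤ R := by
  have h3 : Real.logb 2 (2 ^ R) = R := by
    rw [← Real.rpow_natCast, Real.logb_rpow (by norm_num) (by norm_num)]
  rw [abs_le]
  constructor
  · have h4 : 0 ≤ Real.logb 2 (2 ^ R * x) := Real.logb_nonneg (by norm_num) h2
    rw [Real.logb_mul (by positivity) hx0.ne', h3] at h4
    linarith
  · rw [← h3]
    exact Real.logb_le_logb_of_le (by norm_num) hx0 h1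

/-- collinearity of three points -/
theorem collinear {K : Type*} [Field K] {a b : K} (ha : a ≠ 0) (hb : b ≠ 0)
    {x y : ℕ → K} (h : ∀ k < 3, 1 + a * x k + b * y k = 0) :
    (x 1 - x 0) * (y 2 - y 0) = (y 1 - y 0) * (x 2 - x 0) := by
  have h0 := h 0 (by norm_num)
  have h1 := h 1 (by norm_num)
  have h2 := h 2 (by norm_num)
  have e1 : a * (x 1 - x 0) = -(b * (y 1 - y 0)) := by linear_combination h1 - h0
  have e2 : a * (x 2 - x 0) = -(b * (y 2 - y 0)) := by linear_combination h2 - h0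
  apply mul_left_cancel₀ (mul_ne_zero ha hb)
  linear_combination (b * (y 2 - y 0)) * e1 - (b * (y 1 - y 0)) * e2

/-- the arithmetic core: two exponent vectors -/
theorem core {η : ℂ} (hη : IsPrimitiveRoot η 283)
    (l0 : |Real.logb 2 ‖th 0 η‖ + 4.7552| ≤ 0.0002)
    (l1 : |Real.logb 2 ‖th 1 η‖ - 12.1756| ≤ 0.0002)
    (l2 : |Real.logb 2 ‖th 2 η‖ + 3.3481| ≤ 0.0002)
    {e e' : ℕ → ℤ} (he : e 0 + e 1 + e 2 = 0) (he' : e' 0 + e' 1 + e' 2 = 0) {μ : ℕ} (hμ : 0 < μ)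
    (hd : ∀ c, (283 : ℤ) ^ (μ - 1) ∣ e c) (hd' : ∀ c, (283 : ℤ) ^ (μ - 1) ∣ e' c)
    (hb : ∀ ξ : ℂ, IsPrimitiveRoot ξ 283 → ‖eps e ξ‖ ≤ 2 ^ (3 * (10 + μ * 822)) ∧
      1 ≤ 2 ^ (3 * (10 + μ * 822)) * ‖eps e ξ‖)
    (hb' : ∀ ξ : ℂ, IsPrimitiveRoot ξ 283 → ‖eps e' ξ‖ ≤ 2 ^ (3 * (10 + μ * 822)) ∧
      1 ≤ 2 ^ (3 * (10 + μ * 822)) * ‖eps e' ξ‖)
    (hpos : 0 < e 0 ∨ (e 0 = 0 ∧ 0 < e 1)) (hpos' : 0 < e' 0 ∨ (e' 0 = 0 ∧ 0 < e' 1))
    (hcol : (eps e (η ^ 3 ^ 1) - eps e (η ^ 3 ^ 0)) * (eps e' (η ^ 3 ^ 2) - eps e' (η ^ 3 ^ 0)) =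
      (eps e' (η ^ 3 ^ 1) - eps e' (η ^ 3 ^ 0)) * (eps e (η ^ 3 ^ 2) - eps e (η ^ 3 ^ 0))) :
    e 0 = e' 0 ∧ e 1 = e' 1 := by
  have h1 : η ^ 283 = 1 := hη.pow_eq_one
  have n3 : ‖th 3 η‖ = ‖th 0 η‖ := norm_th_three h1 0
  have n4 : ‖th 4 η‖ = ‖th 1 η‖ := norm_th_three h1 1
  have hc3 : ∀ k : ℕ, Nat.Coprime (3 ^ k) 283 := fun k =>
    Nat.Coprime.pow_left k (by norm_num)
  -- the three logarithms
  have key : ∀ (f : ℕ → ℤ), f 0 + f 1 + f 2 = 0 →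
      (∀ ξ : ℂ, IsPrimitiveRoot ξ 283 → ‖eps f ξ‖ ≤ 2 ^ (3 * (10 + μ * 822)) ∧
        1 ≤ 2 ^ (3 * (10 + μ * 822)) * ‖eps f ξ‖) →
      (∀ c, (283 : ℤ) ^ (μ - 1) ∣ f c) → ∃ a b : ℤ, f 0 = 283 ^ (μ - 1) * a ∧
        f 1 = 283 ^ (μ - 1) * b ∧
        (283 : ℝ) ^ (μ - 1) * |(a : ℝ) * Real.logb 2 ‖th 0 η‖ + b * Real.logb 2 ‖th 1 η‖ +
          (-a - b) * Real.logb 2 ‖th 2 η‖| ≤ 3 * (10 + μ * 822) ∧
        (283 : ℝ) ^ (μ - 1) * |(a : ℝ) * Real.logb 2 ‖th 1 η‖ + b * Real.logb 2 ‖th 2 η‖ +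
          (-a - b) * Real.logb 2 ‖th 0 η‖| ≤ 3 * (10 + μ * 822) ∧
        (283 : ℝ) ^ (μ - 1) * |(a : ℝ) * Real.logb 2 ‖th 2 η‖ + b * Real.logb 2 ‖th 0 η‖ +
          (-a - b) * Real.logb 2 ‖th 1 η‖| ≤ 3 * (10 + μ * 822) := by
    intro f hf hfb hfd
    obtain ⟨a, ha⟩ := hfd 0
    obtain ⟨b, hb⟩ := hfd 1
    have hf2 : f 2 = 283 ^ (μ - 1) * (-a - b) := by linear_combination hf - ha - hb
    have hlog : ∀ k, |Real.logb 2 ‖eps f (η ^ 3 ^ k)‖| ≤ 3 * (10 + μ * 822) := by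
      intro k
      obtain ⟨u1, u2⟩ := hfb _ (hη.pow_of_coprime _ (hc3 k))
      have := abs_logb_le (norm_pos_iff.mpr (eps_ne_zero (hη.pow_of_coprime _ (hc3 k)) f)) u1 u2
      push_cast at this
      exact this
    have hpow : (0 : ℝ) ≤ 283 ^ (μ - 1) := by positivity
    refine ⟨a, b, ha, hb, ?_, ?_, ?_⟩
    · have := hlog 0
      rw [logb_eps hη, ha, hb, hf2] at this
      rw [← abs_of_nonneg hpow, ← abs_mul]
      push_cast at this
      refine le_of_eq_of_le ?_ this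
      congr 1
      ring
    · have := hlog 1
      rw [logb_eps hη, ha, hb, hf2, show (1 + 2 : ℕ) = 3 from rfl, n3] at this
      rw [← abs_of_nonneg hpow, ← abs_mul]
      push_cast at this
      refine le_of_eq_of_le ?_ this
      congr 1
      ring
    · have := hlog 2
      rw [logb_eps hη, ha, hb, hf2, show (2 + 1 : ℕ) = 3 from rfl, show (2 + 2 : ℕ) = 4 from rfl,
        n3, n4] at this
      rw [← abs_of_nonneg hpow, ← abs_mul]
      push_cast at this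
      refine le_of_eq_of_le ?_ this
      congr 1
      ring
  obtain ⟨a, b, ea, eb, A0, A1, A2⟩ := key e he hb hd
  obtain ⟨a', b', ea', eb', B0, B1, B2⟩ := key e' he' hb' hd'
  have e2 : e 2 = -e 0 - e 1 := by linear_combination he
  have e2' : e' 2 = -e' 0 - e' 1 := by linear_combination he'
  have hev : ∀ (f : ℕ → ℤ), f 2 = -f 0 - f 1 → ∀ k < 3, eps f (zell ^ 3 ^ k) =
      ev (f 0) (f 1) k := by
    intro f hf k hk
    rw [eps_eq, th_zell k (by omega), th_zell (k + 1) (by omega), th_zell (k + 2) (by omega), hf]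
    rfl
  have hcol2 := transfer_field hη hcol zell_prim
  rw [hev e e2 1 (by norm_num), hev e e2 0 (by norm_num), hev e e2 2 (by norm_num),
    hev e' e2' 1 (by norm_num), hev e' e2' 0 (by norm_num), hev e' e2' 2 (by norm_num)] at hcol2
  rcases Nat.lt_or_ge μ 3 with hlt | hge
  · rcases (by omega : μ = 1 ∨ μ = 2) with rfl | rfl
    · simp only [Nat.sub_self, pow_zero, one_mul] at ea eb ea' eb' A0 A1 A2 B0 B1 B2
      norm_num at A0 A1 A2 B0 B1 B2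
      have r1 := region_one l0 l1 l2 A0 A1 A2
      have r2 := region_one l0 l1 l2 B0 B1 B2
      rw [← ea, ← eb] at r1
      rw [← ea', ← eb'] at r2
      exact check_one r1 hpos r2 hpos' hcol2
    · norm_num at ea eb ea' eb' A0 A1 A2 B0 B1 B2
      have r1 := region_two l0 l1 l2 A0 A1 A2
      have r2 := region_two l0 l1 l2 B0 B1 B2
      have r1' : (a = 1 ∧ b = 0) ∨ (a = 0 ∧ b = 1) ∨ (a = 1 ∧ b = -1) := by omega
      have r2' : (a' = 1 ∧ b' = 0) ∨ (a' = 0 ∧ b' = 1) ∨ (a' = 1 ∧ b' = -1) := by omega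
      rw [ea, eb, ea', eb'] at hcol2
      obtain ⟨q1, q2⟩ := check_two r1' r2' hcol2
      rw [ea, eb, ea', eb', q1, q2]
      exact ⟨rfl, rfl⟩
  · exfalso
    obtain ⟨q1, q2⟩ := region_three l0 l1 l2 hge A0 A1 A2
    rw [q1, mul_zero] at ea
    rw [q2, mul_zero] at eb
    omega

namespace Trip

theorem idx3 (b : ZMod 3) : b + 1 + 2 = b ∧ b + 2 + 2 = b + 1 ∧ b + 1 + 1 = b + 2 := by
  revert b; decide

theorem idx3' (i : ZMod 3) : i + 1 ≠ i ∧ i + 2 ≠ i ∧ i + 2 ≠ i + 1 ∧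
    ∀ l : ZMod 3, l = i ∨ l = i + 1 ∨ l = i + 2 := by
  revert i; decide

variable (T : Trip 10)

include T in
theorem partThree : False := by
  obtain ⟨T, hb⟩ := T.small_trip
  haveI : Fact (Nat.Prime 283) := ⟨by norm_num⟩
  have hp : Nat.Prime 283 := Fact.out
  have hp2 : (283 : ℕ) ≠ 2 := by norm_num
  have hc : 2 ^ (10 - 1) < 2 * 283 := by norm_num
  -- the first level with irrational ratio
  have hex : ∃ j : ℕ, ∃ μ : ℕ, 0 < j ∧ 0 < μ ∧ (∀ l, T.al l (283 ^ j) = μ) ∧ ∃ i : ZMod 3,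
      ¬ ∃ a b : ℤ, a ≠ 0 ∧ b ≠ 0 ∧ ∀ ζ : ℂ, IsPrimitiveRoot ζ (283 ^ j) →
        (b : ℂ) * coeff μ (T.D i ζ 1) = a * coeff μ (T.D (i + 2) ζ 1) := by
    by_contra hcon
    push Not at hcon
    refine T.partTwo good_10 (fun j μ hj hμ hcom i => ?_)
    obtain ⟨a, b, h1, h2, h3⟩ := hcon j μ hj hμ hcom i
    exact ⟨a, b, h1, h2, h3⟩
  classical
  obtain ⟨μ, hj, hμ0, hμ, i₀, hi₀⟩ := Nat.find_spec hex
  have hmin : ∀ r, r < Nat.find hex → _ := fun r hr => Nat.find_min hex hr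
  set j := Nat.find hex with hjdef
  have hlow : ∀ r μ' : ℕ, 0 < r → r < j → 0 < μ' → (∀ l, T.al l (283 ^ r) = μ') → ∀ i : ZMod 3,
      ∃ a b : ℤ, a ≠ 0 ∧ b ≠ 0 ∧ ∀ ζ : ℂ, IsPrimitiveRoot ζ (283 ^ r) →
        (b : ℂ) * coeff μ' (T.D i ζ 1) = a * coeff μ' (T.D (i + 2) ζ 1) := by
    intro r μ' hr0 hr hμ' hcom i
    by_contra hcon
    exact hmin r hr ⟨μ', hr0, hμ', hcom, i, hcon⟩
  have htop : ∀ i, TopLev j μ (T.d i - T.d (i + 2)) := fun i =>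
    { hj := hj
      hμ := hμ0
      A := fun r hr0 hr ξ hξ => T.low_rational hp2 hc hμ0 hμ hlow i hr0 hr hξ
      B := fun ζ hζ => T.top_sq hp2 hc hj hμ0 hμ hlow i hζ
      C := fun r hr ξ hξ k hk0 hk => T.low_Pk hp2 hc hμ0 hμ i hr hk0 hk hξ
      D := fun r hr => T.low_lev hp hp2 hc hμ0 hμ i hr }
  -- the ratios
  have hun : ∀ i, ∃ ν : ℚ, ν ≠ 0 ∧ ∀ ζ : ℂ, IsPrimitiveRoot ζ (283 ^ j) →
      coeff μ (T.D i ζ 1) = (ν : ℂ) * eps (cls j (T.d i - T.d (i + 2))) (ζ ^ 283 ^ (j - 1)) *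
        coeff μ (T.D (i + 2) ζ 1) := fun i =>
    T.unit_ratio i hj hμ (htop i).sum (fun ζ hζ => (htop i).log hζ)
  choose ν hν hrat using hun
  set E : ZMod 3 → ℕ → ℤ := fun l c => cls j (T.d l) c with hE
  have hcls : ∀ i c, cls j (T.d i - T.d (i + 2)) c = E i c - E (i + 2) c := fun i c =>
    cls_sub _ _ _ _
  have hpj : 0 < 283 ^ j := pow_pos (by norm_num) j
  have hlne : ∀ l, ∀ ζ : ℂ, IsPrimitiveRoot ζ (283 ^ j) → coeff μ (T.D l ζ 1) ≠ 0 := fun l ζ hζ =>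
    T.G3_D_ne l hpj hμ hζ
  have hsum : ∀ l, ∀ ζ : ℂ, coeff μ (T.D l ζ 1) + coeff μ (T.D (l + 1) ζ 1) +
      coeff μ (T.D (l + 2) ζ 1) = 0 := by
    intro l ζ
    have := congrArg (coeff μ) (T.D_sum l ζ 1)
    simpa using this
  -- the exponents do not vanish
  have hne : ∀ i, ¬ (cls j (T.d i - T.d (i + 2)) 0 = 0 ∧ cls j (T.d i - T.d (i + 2)) 1 = 0) := by
    rintro i ⟨z0, z1⟩
    have z2 : cls j (T.d i - T.d (i + 2)) 2 = 0 := by
      have := (htop i).sum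
      omega
    have hr1 : ∀ ζ : ℂ, IsPrimitiveRoot ζ (283 ^ j) →
        coeff μ (T.D i ζ 1) = (ν i : ℂ) * coeff μ (T.D (i + 2) ζ 1) := by
      intro ζ hζ
      rw [hrat i ζ hζ, eps_zero z0 z1 z2, mul_one]
    have hr2 : ∀ ζ : ℂ, IsPrimitiveRoot ζ (283 ^ j) →
        coeff μ (T.D (i + 1) ζ 1) = (-(1 + ν i) : ℂ) * coeff μ (T.D (i + 2) ζ 1) := by
      intro ζ hζ
      have := hsum i ζ
      rw [hr1 ζ hζ] at this
      linear_combination this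
    have hζ₀ := Complex.isPrimitiveRoot_exp (283 ^ j) hpj.ne'
    have h1ν : (1 + ν i : ℚ) ≠ 0 := by
      intro h0
      apply hlne (i + 1) _ hζ₀
      rw [hr2 _ hζ₀]
      have : (1 + ν i : ℂ) = 0 := by exact_mod_cast h0
      rw [this]; simp
    -- a common multiple
    set q : ZMod 3 → ℚ := fun l => if l = i then ν i else if l = i + 1 then -(1 + ν i) else 1
      with hq
    obtain ⟨i1, i2, i12, hcases⟩ := idx3' i
    have hq0 : ∀ l, q l ≠ 0 := by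
      intro l
      rcases hcases l with h | h | h <;> subst h <;> simp only [hq, if_true, if_neg i1, if_neg i2,
        if_neg i12]
      · exact hν _
      · exact neg_ne_zero.mpr h1ν
      · exact one_ne_zero
    have hql : ∀ l, ∀ ζ : ℂ, IsPrimitiveRoot ζ (283 ^ j) →
        coeff μ (T.D l ζ 1) = (q l : ℂ) * coeff μ (T.D (i + 2) ζ 1) := by
      intro l ζ hζ
      rcases hcases l with h | h | h <;> subst h <;> simp only [hq, if_true, if_neg i1, if_neg i2,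
        if_neg i12]
      · exact hr1 ζ hζ
      · rw [hr2 ζ hζ]; push_cast; rfl
      · push_cast; ring
    apply hi₀
    have hab : ∀ x : ℚ, x ≠ 0 → ∃ a b : ℤ, a ≠ 0 ∧ b ≠ 0 ∧ (b : ℚ) * x = a := by
      intro x hx
      refine ⟨x.num, x.den, Rat.num_ne_zero.mpr hx, by exact_mod_cast x.den_ne_zero, ?_⟩
      rw [mul_comm]
      exact_mod_cast Rat.mul_den_eq_num x
    obtain ⟨a, b, ha, hb, hab⟩ := hab (q i₀ / q (i₀ + 2)) (div_ne_zero (hq0 _) (hq0 _))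
    refine ⟨a, b, ha, hb, fun ζ hζ => ?_⟩
    rw [hql i₀ ζ hζ, hql (i₀ + 2) ζ hζ]
    have h5 : (b : ℚ) * q i₀ = a * q (i₀ + 2) := by
      have := hq0 (i₀ + 2)
      field_simp at hab
      linear_combination hab
    have h6 : (b : ℂ) * (q i₀ : ℂ) = a * (q (i₀ + 2) : ℂ) := by exact_mod_cast h5
    linear_combination (coeff μ (T.D (i + 2) ζ 1)) * h6
  -- the base letter
  have hbase : ∃ b : ZMod 3, ∀ l, (E b 0 < E l 0) ∨ (E b 0 = E l 0 ∧ E b 1 ≤ E l 1) := by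
    obtain ⟨b, -, hb⟩ := Finset.exists_min_image (univ : Finset (ZMod 3))
      (fun l => toLex (E l 0, E l 1)) ⟨0, mem_univ _⟩
    refine ⟨b, fun l => ?_⟩
    have := hb l (mem_univ _)
    rw [Prod.Lex.toLex_le_toLex] at this
    exact this
  obtain ⟨b, hbm⟩ := hbase
  obtain ⟨ib1, ib2, ib3⟩ := idx3 b
  set e : ℕ → ℤ := cls j (T.d (b + 1) - T.d (b + 1 + 2)) with he
  set e' : ℕ → ℤ := fun c => -cls j (T.d b - T.d (b + 2)) c with he'
  have e_val : ∀ c, e c = E (b + 1) c - E b c := by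
    intro c
    have := hcls (b + 1) c
    rw [he, this, ib1]
  have e'_val : ∀ c, e' c = E (b + 2) c - E b c := by
    intro c
    have := hcls b c
    simp only [he', this]
    ring
  have esum : e 0 + e 1 + e 2 = 0 := (htop (b + 1)).sum
  have esum' : e' 0 + e' 1 + e' 2 = 0 := by
    have := (htop b).sum
    simp only [he']
    omega
  obtain ⟨η, hη, l0, l1, l2⟩ := exists_eta
  -- bounds
  have bd : ∀ ξ : ℂ, IsPrimitiveRoot ξ 283 → ‖eps e ξ‖ ≤ 2 ^ (3 * (10 + μ * 822)) ∧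
      1 ≤ 2 ^ (3 * (10 + μ * 822)) * ‖eps e ξ‖ := fun ξ hξ =>
    T.eps_bound (b + 1) hj hμ hb (htop (b + 1)).sum (hν (b + 1)) (hrat (b + 1)) hξ
  have bd' : ∀ ξ : ℂ, IsPrimitiveRoot ξ 283 → ‖eps e' ξ‖ ≤ 2 ^ (3 * (10 + μ * 822)) ∧
      1 ≤ 2 ^ (3 * (10 + μ * 822)) * ‖eps e' ξ‖ := by
    intro ξ hξ
    obtain ⟨u1, u2⟩ := T.eps_bound b hj hμ hb (htop b).sum (hν b) (hrat b) hξ
    have h0 : 0 < ‖eps (cls j (T.d b - T.d (b + 2))) ξ‖ :=
      norm_pos_iff.mpr (eps_ne_zero hξ _)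
    rw [he', eps_neg, norm_inv]
    constructor
    · rw [inv_le_iff_one_le_mul₀ h0]
      exact u2
    · rw [← div_eq_mul_inv, le_div_iff₀ h0, one_mul]
      exact u1
  -- positivity
  have hpos : 0 < e 0 ∨ (e 0 = 0 ∧ 0 < e 1) := by
    have h1 := hbm (b + 1)
    have h2 := hne (b + 1)
    rw [← he] at h2
    rw [e_val 0, e_val 1] at h2 ⊢
    omega
  have hpos' : 0 < e' 0 ∨ (e' 0 = 0 ∧ 0 < e' 1) := by
    have h1 := hbm (b + 2)
    have h2 := hne b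
    rw [hcls b 0, hcls b 1] at h2
    rw [e'_val 0, e'_val 1]
    omega
  -- a primitive root above `η`
  obtain ⟨ζ, hζ⟩ := IsAlgClosed.exists_pow_nat_eq η (pow_pos (by norm_num : 0 < 283) (j - 1))
  have hζp : IsPrimitiveRoot ζ (283 ^ j) := by
    have h1 : ζ ^ 283 ^ j = 1 := by
      have : 283 ^ j = 283 ^ (j - 1) * 283 := by
        rw [← pow_succ]; congr 1; omega
      rw [this, pow_mul, hζ, hη.pow_eq_one]
    have h2 : ¬ ζ ^ 283 ^ (j - 1) = 1 := by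
      rw [hζ]
      exact hη.ne_one (by norm_num)
    have h3 := orderOf_eq_prime_pow (p := 283) (n := j - 1) h2 (by
      rw [show j - 1 + 1 = j by omega]; exact h1)
    rw [show j - 1 + 1 = j by omega] at h3
    rw [← h3]
    exact IsPrimitiveRoot.orderOf ζ
  have hcop : ∀ k : ℕ, Nat.Coprime (3 ^ k) (283 ^ j) := fun k =>
    Nat.Coprime.pow k j (by norm_num)
  have hrel : ∀ k < 3, 1 + (ν (b + 1) : ℂ) * eps e (η ^ 3 ^ k) + ((ν b : ℂ))⁻¹ *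
      eps e' (η ^ 3 ^ k) = 0 := by
    intro k _
    have hζk := hζp.pow_of_coprime _ (hcop k)
    have r1 := hrat (b + 1) _ hζk
    have r2 := hrat b _ hζk
    have hs := hsum b (ζ ^ 3 ^ k)
    have hpow : (ζ ^ 3 ^ k) ^ 283 ^ (j - 1) = η ^ 3 ^ k := by
      rw [← pow_mul, mul_comm, pow_mul, hζ]
    rw [hpow] at r1 r2
    rw [ib1] at r1
    have hηk : IsPrimitiveRoot (η ^ 3 ^ k) 283 := hη.pow_of_coprime _
      (Nat.Coprime.pow_left k (by norm_num))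
    have n1 := eps_ne_zero hηk (cls j (T.d b - T.d (b + 2)))
    have n2 : (ν b : ℂ) ≠ 0 := by exact_mod_cast hν b
    have n3 := hlne b _ hζk
    have e1 : eps e (η ^ 3 ^ k) = eps (cls j (T.d (b + 1) - T.d b)) (η ^ 3 ^ k) := by
      rw [he, ib1]
    rw [e1]
    rw [he', eps_neg]
    apply mul_right_cancel₀ n3
    rw [zero_mul, ← hs, r1]
    have r3 : coeff μ (T.D (b + 2) (ζ ^ 3 ^ k) 1) = (ν b : ℂ)⁻¹ *
        (eps (cls j (T.d b - T.d (b + 2))) (η ^ 3 ^ k))⁻¹ * coeff μ (T.D b (ζ ^ 3 ^ k) 1) := by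
      rw [r2]
      field_simp
    rw [r3]
    ring
  have hcol := collinear (a := (ν (b + 1) : ℂ)) (b := ((ν b : ℂ))⁻¹)
    (by exact_mod_cast hν (b + 1)) (inv_ne_zero (by exact_mod_cast hν b))
    (x := fun k => eps e (η ^ 3 ^ k)) (y := fun k => eps e' (η ^ 3 ^ k)) hrel
  obtain ⟨q0, q1⟩ := core hη l0 l1 l2 esum esum' hμ0 (fun c => (htop (b + 1)).dvd c)
    (fun c => (dvd_neg).mpr ((htop b).dvd c)) bd bd' hpos hpos' hcol
  -- the remaining pair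
  apply hne (b + 2)
  rw [hcls (b + 2) 0, hcls (b + 2) 1, ib2]
  rw [e_val 0, e'_val 0] at q0
  rw [e_val 1, e'_val 1] at q1
  omega

end Trip

end Pool.Agent.Lib_MP_e4b855_nt.Tri
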