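import Pool.Agent.Lib_MP_e4b855_nt.Tri.FF
import Pool.Agent.Lib_MP_e4b855_nt.Tri.Fe
import Pool.Agent.Lib_MP_e4b855_nt.Tri.Struct

namespace Pool.Agent.Lib_MP_e4b855_nt.Tri

open PowerSeries Finset

/-- Three pairwise distinct symmetric sets of `2 ^ (m - 1)` integers with equal pair sums
(`m = k + 1`, the letters are indexed cyclically by `ZMod 3`). -/
structure Trip (m : ℕ) where
  S : ZMod 3 → Finset ℤ
  hm : 6 ≤ m
  hev : Even m
  card : ∀ i, (S i).card = 2 ^ (m - 1)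
  symm : ∀ i, ∀ a ∈ S i, -a ∈ S i
  ne : ∀ i, S i ≠ S (i + 1)
  ps : ∀ i j, pairSums (S i) = pairSums (S j)

namespace Trip

variable {m : ℕ} (T : Trip m)

/-- `D_i = S_i - S_{i+1}` at `x = ζ e^{s t}` -/
noncomputable def D (i : ZMod 3) (ζ s : ℂ) : ℂ⟦X⟧ := J (T.S i) ζ s - J (T.S (i + 1)) ζ s

/-- `Q_i = S_i + S_{i+1}` at `x = ζ e^{s t}` -/
noncomputable def Q (i : ZMod 3) (ζ s : ℂ) : ℂ⟦X⟧ := J (T.S i) ζ s + J (T.S (i + 1)) ζ s

theorem exists_struct (i : ZMod 3) :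
    ∃ (d : ℕ →₀ ℤ) (ε M : ℤ), (ε = 1 ∨ ε = -1) ∧ d 0 = 0 ∧
      (d.sum fun n c => c * (n : ℤ)) = 2 * M ∧ (∀ N, 0 < N → 0 ≤ lev d N) ∧
      ∀ ζ s : ℂ, ζ ≠ 0 → s ≠ 0 → ((T.D i ζ s : ℂ⟦X⟧) : LaurentSeries ℂ) =
        ((C ((ε : ℂ) * ζ ^ (-M)) * ee (-(s * M)) : ℂ⟦X⟧) : LaurentSeries ℂ) * FF d ζ s :=
  structure_thm (T.ne i) (T.ps i (i + 1)) (T.symm i) (T.symm (i + 1))

/-- the exponents `d_i`: `D_i = ε_i x^{-M_i} ∏ (x^n - 1)^{d_i(n)}` -/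
noncomputable def d (i : ZMod 3) : ℕ →₀ ℤ := (T.exists_struct i).choose

/-- the sign `ε_i` -/
noncomputable def e (i : ZMod 3) : ℤ := (T.exists_struct i).choose_spec.choose

/-- the degree `M_i` -/
noncomputable def M (i : ZMod 3) : ℤ := (T.exists_struct i).choose_spec.choose_spec.choose

theorem e_eq (i : ZMod 3) : T.e i = 1 ∨ T.e i = -1 :=
  (T.exists_struct i).choose_spec.choose_spec.choose_spec.1

theorem d_zero (i : ZMod 3) : T.d i 0 = 0 :=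
  (T.exists_struct i).choose_spec.choose_spec.choose_spec.2.1

theorem two_mul_M (i : ZMod 3) : ((T.d i).sum fun n c => c * (n : ℤ)) = 2 * T.M i :=
  (T.exists_struct i).choose_spec.choose_spec.choose_spec.2.2.1

theorem lev_d_nonneg (i : ZMod 3) {N : ℕ} (hN : 0 < N) : 0 ≤ lev (T.d i) N :=
  (T.exists_struct i).choose_spec.choose_spec.choose_spec.2.2.2.1 N hN

theorem D_eq (i : ZMod 3) {ζ s : ℂ} (hζ : ζ ≠ 0) (hs : s ≠ 0) :
    ((T.D i ζ s : ℂ⟦X⟧) : LaurentSeries ℂ) =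
      ((C ((T.e i : ℂ) * ζ ^ (-T.M i)) * ee (-(s * T.M i)) : ℂ⟦X⟧) : LaurentSeries ℂ) *
        FF (T.d i) ζ s :=
  (T.exists_struct i).choose_spec.choose_spec.choose_spec.2.2.2.2 ζ s hζ hs

/-- `α_i(N)`: the order of vanishing of `D_i` at the primitive `N`-th roots of unity -/
noncomputable def al (i : ZMod 3) (N : ℕ) : ℕ := (lev (T.d i) N).toNat

/-- the exponents of `G_i = Q_{i+2} / Q_{i+1}` -/
noncomputable def v (i : ZMod 3) : ℕ →₀ ℤ := tw (T.d (i + 2) - T.d (i + 1))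

/-- `G_i = Q_{i+2} / Q_{i+1} = 1 + D_i / Q_{i+1}` at `ζ e^t` -/
noncomputable def G (i : ZMod 3) (ζ : ℂ) : ℂ⟦X⟧ := T.Q (i + 2) ζ 1 * (T.Q (i + 1) ζ 1)⁻¹

/-- the leading coefficient of `D_i` at `1` -/
noncomputable def del (i : ZMod 3) : ℚ := T.e i * (T.d i).prod fun n c => (n : ℚ) ^ c

/-! ### Piece A6 -/

theorem A6_three (i : ZMod 3) : i + 1 + 1 = i + 2 ∧ i + 2 + 1 = i := by
  revert i; decide

theorem D_sum (i : ZMod 3) (ζ s : ℂ) : T.D i ζ s + T.D (i + 1) ζ s + T.D (i + 2) ζ s = 0 := by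
  obtain ⟨h1, h2⟩ := A6_three i
  simp only [D, h1, h2]
  ring

theorem Q_sub (i : ZMod 3) (ζ s : ℂ) : T.Q (i + 2) ζ s - T.Q (i + 1) ζ s = T.D i ζ s := by
  obtain ⟨h1, h2⟩ := A6_three i
  simp only [D, Q, h1, h2]
  ring

theorem D_mul_Q (i : ZMod 3) {ζ : ℂ} (hζ : ζ ≠ 0) (s : ℂ) :
    T.D i ζ s * T.Q i ζ s = T.D i (ζ ^ 2) (2 * s) :=
  J_fe (T.ps i (i + 1)) hζ s

theorem al_cast (i : ZMod 3) {N : ℕ} (hN : 0 < N) : (T.al i N : ℤ) = lev (T.d i) N :=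
  Int.toNat_of_nonneg (T.lev_d_nonneg i hN)

theorem A6_const_ee (a : ℂ) : constantCoeff (ee a) = 1 := by
  rw [← coeff_zero_eq_constantCoeff_apply, coeff_ee]
  simp

theorem A6_single (n : ℕ) :
    (HahnSeries.single (n : ℤ) (1 : ℂ) : LaurentSeries ℂ) = ((X ^ n : ℂ⟦X⟧) : LaurentSeries ℂ) := by
  rw [PowerSeries.coe_pow, PowerSeries.coe_X, HahnSeries.single_pow]
  simp

theorem A6_coe_inj {f g : ℂ⟦X⟧} (h : (f : LaurentSeries ℂ) = (g : LaurentSeries ℂ)) : f = g :=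
  HahnSeries.ofPowerSeries_injective h

/-- order and leading coefficient of `D_i` at a primitive `N`-th root of unity -/
theorem D_lead (i : ZMod 3) {N : ℕ} (hN : 0 < N) {ζ s : ℂ} (hζ : IsPrimitiveRoot ζ N)
    (hs : s ≠ 0) :
    ∃ U : ℂ⟦X⟧, constantCoeff U = (T.e i : ℂ) * ζ ^ (-T.M i) *
        ((T.d i).prod fun n c => (if N ∣ n then s * n else ζ ^ n - 1) ^ c) ∧
      constantCoeff U ≠ 0 ∧ T.D i ζ s = X ^ T.al i N * U := by
  have hζ0 : ζ ≠ 0 := hζ.ne_zero hN.ne'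
  obtain ⟨U, hU1, hU2, hU3⟩ := FF_lead (T.d i) (T.d_zero i) hN hζ hs
  have he : (T.e i : ℂ) ≠ 0 := by
    rcases T.e_eq i with h | h <;> rw [h] <;> simp
  refine ⟨C ((T.e i : ℂ) * ζ ^ (-T.M i)) * ee (-(s * T.M i)) * U, ?_, ?_, ?_⟩
  · rw [map_mul, map_mul, constantCoeff_C, A6_const_ee, hU1, mul_one]
  · rw [map_mul, map_mul, constantCoeff_C, A6_const_ee, mul_one]
    exact mul_ne_zero (mul_ne_zero he (zpow_ne_zero _ hζ0)) hU2
  · apply A6_coe_inj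
    rw [T.D_eq i hζ0 hs, hU3, ← T.al_cast i hN, A6_single]
    push_cast
    ring

theorem Q_one (i : ZMod 3) (s : ℂ) : constantCoeff (T.Q i 1 s) = 2 ^ m := by
  have hJ : ∀ j, constantCoeff (J (T.S j) 1 s) = 2 ^ (m - 1) := by
    intro j
    rw [← coeff_zero_eq_constantCoeff_apply, coeff_J]
    simp [T.card j]
  have hm := T.hm
  rw [Q, map_add, hJ, hJ, ← two_mul, ← pow_succ', Nat.sub_add_cancel (by omega)]

theorem A6_zpow_sum (a : ℂ) (ha : a ≠ 0) (v : ℕ →₀ ℤ) :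
    (v.prod fun _ c => a ^ c) = a ^ (v.sum fun _ c => c) := by
  classical
  unfold Finsupp.prod Finsupp.sum
  induction v.support using Finset.induction_on with
  | empty => simp
  | insert x t hx ih => rw [prod_insert hx, sum_insert hx, ih, zpow_add₀ ha]

theorem al_one (i : ZMod 3) : T.al i 1 = m := by
  have h1 : IsPrimitiveRoot (1 : ℂ) 1 := IsPrimitiveRoot.one
  obtain ⟨U, hU1, hU2, hU3⟩ := T.D_lead i one_pos h1 (one_ne_zero : (1 : ℂ) ≠ 0)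
  obtain ⟨V, hV1, hV2, hV3⟩ := T.D_lead i one_pos h1 (two_ne_zero : (2 : ℂ) ≠ 0)
  have hfe := T.D_mul_Q i (one_ne_zero : (1 : ℂ) ≠ 0) 1
  rw [one_pow, mul_one, hU3, hV3, mul_assoc] at hfe
  have hX : (X ^ T.al i 1 : ℂ⟦X⟧) ≠ 0 := pow_ne_zero _ X_ne_zero
  have h2 := mul_left_cancel₀ hX hfe
  have h3 : constantCoeff U * 2 ^ m = constantCoeff V := by
    rw [← T.Q_one i 1, ← map_mul, h2]
  have h4 : constantCoeff V = constantCoeff U * 2 ^ T.al i 1 := by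
    rw [hV1, hU1]
    have h5 : ((T.d i).prod fun n c => (if 1 ∣ n then (2 : ℂ) * n else 1 ^ n - 1) ^ c) =
        ((T.d i).prod fun n c => (if 1 ∣ n then (1 : ℂ) * n else 1 ^ n - 1) ^ c) *
          2 ^ T.al i 1 := by
      have h6 : (2 : ℂ) ^ T.al i 1 = (T.d i).prod fun _ c => (2 : ℂ) ^ c := by
        rw [A6_zpow_sum 2 two_ne_zero, ← zpow_natCast, T.al_cast i one_pos]
        congr 1
        simp [lev]
      rw [h6, ← Finsupp.prod_mul]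
      refine Finsupp.prod_congr (fun n _ => ?_)
      simp only [one_dvd, if_true]
      rw [one_mul, mul_zpow]
      ring
    rw [h5]
    ring
  rw [h4] at h3
  have h7 : (2 : ℂ) ^ m = 2 ^ T.al i 1 := mul_left_cancel₀ hU2 h3
  have h8 : (2 : ℕ) ^ m = 2 ^ T.al i 1 := by exact_mod_cast h7
  exact (Nat.pow_right_injective le_rfl h8).symm

theorem Q_const_ne (i : ZMod 3) {N : ℕ} (hN : Odd N) {ζ s : ℂ} (hζ : IsPrimitiveRoot ζ N)
    (hs : s ≠ 0) : constantCoeff (T.Q i ζ s) ≠ 0 := by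
  have hN0 : 0 < N := hN.pos
  have hζ0 : ζ ≠ 0 := hζ.ne_zero hN0.ne'
  have hζ2 : IsPrimitiveRoot (ζ ^ 2) N :=
    hζ.pow_of_coprime 2 (Nat.coprime_two_left.mpr hN)
  obtain ⟨U, hU1, hU2, hU3⟩ := T.D_lead i hN0 hζ hs
  obtain ⟨V, hV1, hV2, hV3⟩ := T.D_lead i hN0 hζ2 (mul_ne_zero two_ne_zero hs)
  have hfe := T.D_mul_Q i hζ0 s
  rw [hU3, hV3, mul_assoc] at hfe
  have hX : (X ^ T.al i N : ℂ⟦X⟧) ≠ 0 := pow_ne_zero _ X_ne_zero
  have h2 := mul_left_cancel₀ hX hfe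
  intro h0
  apply hV2
  rw [← h2, map_mul, h0, mul_zero]

end Trip

end Pool.Agent.Lib_MP_e4b855_nt.Tri
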