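import Pool.Agent.Lib_MP_e4b855_nt.Tri.One
import Pool.Agent.Lib_MP_e4b855_nt.Tri.Flat
import Pool.Agent.Lib_MP_e4b855_nt.Tri.Transfer
import Pool.Agent.Lib_MP_e4b855_nt.Tri.Transfer0
import Pool.Agent.Lib_MP_e4b855_nt.Tri.LogRatio
import Pool.Agent.Lib_MP_e4b855_nt.Tri.Mono
import Pool.Agent.Lib_MP_e4b855_nt.Tri.Jet
import Pool.Agent.Lib_MP_e4b855_nt.Tri.GaussW
import Pool.Agent.Lib_MP_e4b855_nt.Tri.HPoly

/-! Auxiliary lemmas for Part II (helper56) -/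

namespace Pool.Agent.Lib_MP_e4b855_nt.Tri

open PowerSeries Finset

/-! ### linearity -/

theorem sum_lin (v w : ℕ →₀ ℤ) (a b : ℤ) (F : ℕ → ℂ) :
    ((b • v - a • w).sum fun n c => (c : ℂ) * F n) =
      b * (v.sum fun n c => (c : ℂ) * F n) - a * (w.sum fun n c => (c : ℂ) * F n) := by
  have h0 : ∀ n : ℕ, ((0 : ℤ) : ℂ) * F n = 0 := by intro n; simp
  have hadd : ∀ (n : ℕ) (x y : ℤ), ((x + y : ℤ) : ℂ) * F n = (x : ℂ) * F n + (y : ℂ) * F n := by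
    intro n x y; push_cast; ring
  rw [sub_eq_add_neg, Finsupp.sum_add_index' h0 hadd]
  have h1 : ((b • v).sum fun n c => (c : ℂ) * F n) = b * (v.sum fun n c => (c : ℂ) * F n) := by
    rw [Finsupp.sum_smul_index' h0]
    simp only [Finsupp.sum, Finset.mul_sum, smul_eq_mul]
    apply Finset.sum_congr rfl
    intro n _; push_cast; ring
  have h2 : ((-(a • w)).sum fun n c => (c : ℂ) * F n) =
      -(a * (w.sum fun n c => (c : ℂ) * F n)) := by
    rw [← neg_smul, Finsupp.sum_smul_index' h0]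
    simp only [Finsupp.sum, Finset.mul_sum, smul_eq_mul, ← Finset.sum_neg_distrib]
    apply Finset.sum_congr rfl
    intro n _; push_cast; ring
  rw [h1, h2]; ring

theorem Pk_lin (v w : ℕ →₀ ℤ) (a b : ℤ) (k : ℕ) (ξ : ℂ) :
    Pk (b • v - a • w) k ξ = b * Pk v k ξ - a * Pk w k ξ := by
  unfold Pk
  have := sum_lin v w a b (fun n => (n : ℂ) ^ k * (ξ ^ n + (-1) ^ k * (ξ ^ n)⁻¹))
  simp only [← mul_assoc] at this
  simpa [mul_assoc] using this

theorem Lam_lin (N k : ℕ) (v w : ℕ →₀ ℤ) (a b : ℤ) (ζ : ℂ) :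
    Lam N k (b • v - a • w) ζ = b * Lam N k v ζ - a * Lam N k w ζ := by
  unfold Lam
  have := sum_lin v w a b (fun n => (n : ℂ) ^ k * (bk N k (ζ ^ n) + if k = 1 then 1 / 2 else 0))
  simp only [← mul_assoc] at this
  simpa [mul_assoc] using this

theorem Wk_lin (p j k : ℕ) (v w : ℕ →₀ ℤ) (a b : ℤ) (ζ : ℂ) :
    Wk p j (b • v - a • w) k ζ = b * Wk p j v k ζ - a * Wk p j w k ζ := by
  unfold Wk
  simp only [Pk_lin]
  rw [mul_add, mul_add, Finset.mul_sum, Finset.mul_sum]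
  have : ∑ i ∈ range j, ((p : ℂ) ^ i) ^ (k - 1) * ((b : ℂ) * Pk v k (ζ ^ p ^ i) -
      a * Pk w k (ζ ^ p ^ i)) = ∑ i ∈ range j, (b : ℂ) * (((p : ℂ) ^ i) ^ (k - 1) *
      Pk v k (ζ ^ p ^ i)) - ∑ i ∈ range j, (a : ℂ) * (((p : ℂ) ^ i) ^ (k - 1) *
      Pk w k (ζ ^ p ^ i)) := by
    rw [← Finset.sum_sub_distrib]
    apply Finset.sum_congr rfl
    intro i _; ring
  rw [this]; ring

/-! ### vanishing of `W` -/

namespace Trip

variable {m : ℕ} (T : Trip m)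

theorem v_lev' (i : ZMod 3) {N : ℕ} (hN : Odd N) : lev (T.v i) N = 0 := lev_tw _ hN

theorem Wz_van (i : ZMod 3) {p : ℕ} [Fact p.Prime] (hp2 : p ≠ 2) {j k : ℕ} (hj0 : 0 < j)
    (hk : k < T.al i (p ^ j)) (hkm : k < m) {ζ : ℂ} (hζ : IsPrimitiveRoot ζ (p ^ j)) :
    Wz p j (T.v i) k ζ = 0 := by
  have hp := (Fact.out : p.Prime)
  have hpodd : Odd p := hp.odd_of_ne_two hp2
  rcases Nat.eq_zero_or_pos k with rfl | hk0
  · obtain ⟨C₀, hC⟩ := T.flat_zero i hp hp2 (j := j) hk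
    exact transfer0 hp2 hj0 (T.v i) (T.v_zero i) hζ
      (fun i' _ => T.v_lev' i (hpodd.pow)) C₀
      (fun c hc => hC _ (hζ.pow_of_coprime c (hc.pow_right j)))
  · have h := transfer hp2 hj0 hk0 (T.v i) hζ
      (fun c hc => T.flat_k i hp hp2 (hζ.pow_of_coprime c (hc.pow_right j)) hk0 hk)
    have h1 := T.mom_zero i hkm
    unfold Wk at h
    rw [h1] at h
    unfold Wz
    have e : ((k : ℤ) - 1) = ((k - 1 : ℕ) : ℤ) := by omega
    simpa [e] using h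

theorem al_le_m (i : ZMod 3) {p : ℕ} (hp : p.Prime) (hp2 : p ≠ 2) (hc : 2 ^ (m - 1) < 2 * p)
    (j : ℕ) : T.al i (p ^ j) ≤ m := by
  induction j with
  | zero => rw [pow_zero, T.al_one]
  | succ j ih => exact (T.al_mono i hp hp2 hc j).trans ih

/-- `P_{v_i}` vanishes to order `α_i(p^j)` at the primitive `p^j`-th roots of unity -/
theorem Pk_van (i : ZMod 3) {p : ℕ} [Fact p.Prime] (hp2 : p ≠ 2) (hc : 2 ^ (m - 1) < 2 * p)
    {j k : ℕ} (hj0 : 0 < j) (hk : k < T.al i (p ^ j)) {ζ : ℂ} (hζ : IsPrimitiveRoot ζ (p ^ j)) :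
    Pk (T.v i) k ζ = 0 := by
  have hp := (Fact.out : p.Prime)
  have hkm : k < m := lt_of_lt_of_le hk (T.al_le_m i hp hp2 hc j)
  have h1 := T.Wz_van i hp2 hj0 hk hkm hζ
  obtain ⟨j, rfl⟩ : ∃ j', j = j' + 1 := ⟨j - 1, by omega⟩
  have e : Wz p (j + 1) (T.v i) k ζ = Pk (T.v i) k ζ +
      (p : ℂ) ^ ((k : ℤ) - 1) * Wz p j (T.v i) k (ζ ^ p) := by
    unfold Wz
    rw [Finset.sum_range_succ', Finset.mul_sum, add_comm]
    congr 1
    · simp
    · apply Finset.sum_congr rfl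
      intro r _
      have hp0 : (p : ℂ) ≠ 0 := by exact_mod_cast hp.ne_zero
      rw [pow_succ, mul_zpow, ← pow_mul, pow_succ]
      rw [mul_comm (p ^ r) p]
      ring
  rw [e] at h1
  have h2 : Wz p j (T.v i) k (ζ ^ p) = 0 := by
    rcases Nat.eq_zero_or_pos j with rfl | hj
    · simp [Wz]
    · apply T.Wz_van i hp2 hj (lt_of_lt_of_le hk (T.al_mono i hp hp2 hc j)) hkm
      exact hζ.pow (pow_pos hp.pos _) (by rw [pow_succ, mul_comm])
  rw [h2, mul_zero, add_zero] at h1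
  exact h1

/-- proportionality of the `W`'s at a common level -/
theorem Wk_ratio (i : ZMod 3) {p : ℕ} [Fact p.Prime] (hp2 : p ≠ 2) {j k μ : ℕ} (hj0 : 0 < j)
    (hμ0 : 0 < μ) (hμ : ∀ l, T.al l (p ^ j) = μ) {a b : ℤ}
    (hab : ∀ ζ : ℂ, IsPrimitiveRoot ζ (p ^ j) →
      (b : ℂ) * coeff μ (T.D i ζ 1) = a * coeff μ (T.D (i + 2) ζ 1))
    (hk0 : 0 < k) (hk : k < 2 * μ) {ζ : ℂ} (hζ : IsPrimitiveRoot ζ (p ^ j)) :
    (b : ℂ) * Wk p j (T.v i) k ζ = a * Wk p j (T.v (i + 2)) k ζ := by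
  have hp := (Fact.out : p.Prime)
  have hpodd : Odd (p ^ j) := (hp.odd_of_ne_two hp2).pow
  have key : ∀ ξ : ℂ, IsPrimitiveRoot ξ (p ^ j) →
      Lam (p ^ j) k (b • T.v i - a • T.v (i + 2)) ξ = 0 := by
    intro ξ hξ
    have h1 := T.ratio_flat i hpodd hμ hab hξ
    have h2 := T.LamS_ratio i hpodd hμ0 hμ hξ h1
    rw [X_pow_dvd_iff] at h2
    have h3 := h2 k hk
    rw [map_sub, coeff_C_mul, coeff_C_mul] at h3
    unfold LamS at h3
    rw [coeff_mk, coeff_mk] at h3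
    rw [Lam_lin]
    have hf : (k.factorial : ℂ) ≠ 0 := by exact_mod_cast k.factorial_ne_zero
    field_simp at h3
    simpa using h3
  have h := transfer hp2 hj0 hk0 (b • T.v i - a • T.v (i + 2)) hζ
    (fun c hc => key _ (hζ.pow_of_coprime c (hc.pow_right j)))
  rw [Wk_lin] at h
  exact sub_eq_zero.mp h

end Trip

end Pool.Agent.Lib_MP_e4b855_nt.Tri
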