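import Pool.Agent.Lib_MP_e4b855_nt.Tri.TwoAux

/-! Polynomials for Part II (helper56) -/

namespace Pool.Agent.Lib_MP_e4b855_nt.Tri

open PowerSeries Finset

/-- `∑ P_v^{(k)}(ξ) t^k / k!` -/
noncomputable def PS (v : ℕ →₀ ℤ) (ξ : ℂ) : ℂ⟦X⟧ := PowerSeries.mk fun k => Pk v k ξ / k.factorial

/-- `x^N P_v(x)` -/
noncomputable def PP (N : ℕ) (v : ℕ →₀ ℤ) : Polynomial ℤ :=
  v.sum fun n c => Polynomial.C c * (Polynomial.X ^ (N + n) + Polynomial.X ^ (N - n))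

theorem jt_map_X_pow (ζ : ℂ) (n : ℕ) :
    jt ζ ((Polynomial.X ^ n : Polynomial ℤ).map (Int.castRingHom ℚ)) = C (ζ ^ n) * ee n := by
  rw [Polynomial.map_pow, Polynomial.map_X, jt_X_pow]

theorem jt_pol {N : ℕ} {A : Finset ℤ} (hN : ∀ a ∈ A, 0 ≤ a + N) {ζ : ℂ} (hζ : ζ ≠ 0) :
    jt ζ ((pol N A).map (Int.castRingHom ℚ)) = C (ζ ^ N) * ee N * J A ζ 1 := by
  unfold pol J
  rw [Polynomial.map_sum, map_sum, Finset.mul_sum]
  apply Finset.sum_congr rfl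
  intro a ha
  rw [jt_map_X_pow]
  have h1 := hN a ha
  have h2 : ((a + N).toNat : ℤ) = a + N := Int.toNat_of_nonneg h1
  have h3 : ζ ^ (a + N).toNat = ζ ^ a * ζ ^ N := by
    rw [← zpow_natCast, h2, zpow_add₀ hζ, zpow_natCast]
  have h4 : (((a + N).toNat : ℕ) : ℂ) = a + N := by
    have : (((a + N).toNat : ℤ) : ℂ) = ((a + N : ℤ) : ℂ) := by rw [h2]
    rw [Int.cast_natCast] at this
    rw [this]; push_cast; ring
  rw [h3, h4, one_mul, ee_add, map_mul]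
  ring

theorem jt_PP {N : ℕ} {v : ℕ →₀ ℤ} (hN : ∀ n ∈ v.support, n ≤ N) {ζ : ℂ} (hζ : ζ ≠ 0) :
    jt ζ ((PP N v).map (Int.castRingHom ℚ)) = C (ζ ^ N) * ee N * PS v ζ := by
  have h1 : PS v ζ = v.sum fun n c => C (c : ℂ) * (C (ζ ^ n) * ee n + C (ζ ^ n)⁻¹ * ee (-n)) := by
    ext k
    unfold PS Pk
    rw [coeff_mk, Finsupp.sum, Finsupp.sum, map_sum, Finset.sum_div]
    apply Finset.sum_congr rfl
    intro n _
    rw [coeff_C_mul, map_add, coeff_C_mul, coeff_C_mul, coeff_ee, coeff_ee]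
    rw [neg_pow (n : ℂ) k]
    ring
  rw [h1]
  unfold PP
  rw [Finsupp.sum, Finsupp.sum, Polynomial.map_sum, map_sum, Finset.mul_sum]
  apply Finset.sum_congr rfl
  intro n hn
  have hnN := hN n hn
  rw [Polynomial.map_mul, Polynomial.map_C, Polynomial.map_add, map_mul, map_add, jt_map_X_pow,
    jt_map_X_pow]
  have hC : jt ζ (Polynomial.C ((Int.castRingHom ℚ) (v n))) = C ((v n : ℤ) : ℂ) := by
    unfold jt
    rw [Polynomial.aeval_C]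
    simp
  rw [hC]
  have e1 : ζ ^ (N + n) = ζ ^ N * ζ ^ n := pow_add _ _ _
  have e2 : ζ ^ (N - n) = ζ ^ N * (ζ ^ n)⁻¹ := by
    rw [pow_sub₀ _ hζ hnN]
  have e3 : ((N + n : ℕ) : ℂ) = N + n := by push_cast; ring
  have e4 : ((N - n : ℕ) : ℂ) = N + (-n) := by rw [Nat.cast_sub hnN]; ring
  rw [e1, e2, e3, e4, ee_add, ee_add, map_mul, map_mul]
  ring

/-- the polynomial `x^{N p^K} W^*(x)` -/
noncomputable def WP (p N K m : ℕ) (v : ℕ →₀ ℤ) (H : Polynomial ℚ) : Polynomial ℚ :=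
  ∑ r ∈ range K, Polynomial.C (((p : ℚ) ^ r)⁻¹) * (Polynomial.X ^ (N * (p ^ K - p ^ r)) *
    Polynomial.expand ℚ (p ^ r) ((PP N v).map (Int.castRingHom ℚ))) +
  Polynomial.C (((p : ℚ) ^ K)⁻¹) * Polynomial.expand ℚ (p ^ K)
    (Polynomial.X ^ N * ((Polynomial.X - 1) ^ m * H))

/-- the jet of `W^*` -/
noncomputable def WS (p K m : ℕ) (v : ℕ →₀ ℤ) (H : Polynomial ℚ) (ζ : ℂ) : ℂ⟦X⟧ :=
  ∑ r ∈ range K, C (((p : ℂ) ^ r)⁻¹) * rescale ((p : ℂ) ^ r) (PS v (ζ ^ p ^ r)) +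
    C (((p : ℂ) ^ K)⁻¹) * rescale ((p : ℂ) ^ K) (jt 1 ((Polynomial.X - 1) ^ m * H))

theorem rescale_ee (a b : ℂ) : rescale b (ee a) = ee (b * a) := by
  unfold ee
  rw [← RingHom.comp_apply, ← rescale_mul, mul_comm]

theorem jt_C (ζ : ℂ) (c : ℚ) : jt ζ (Polynomial.C c) = C (c : ℂ) := by
  unfold jt
  rw [Polynomial.aeval_C, PowerSeries.algebraMap_apply, eq_ratCast]

theorem jt_WP {p N K m : ℕ} (hp : 0 < p) {v : ℕ →₀ ℤ} (hN : ∀ n ∈ v.support, n ≤ N)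
    (H : Polynomial ℚ) {ζ : ℂ} (hζ : ζ ≠ 0) (hK : ζ ^ p ^ K = 1) :
    jt ζ (WP p N K m v H) = C (ζ ^ (N * p ^ K)) * ee ((N * p ^ K : ℕ) : ℂ) * WS p K m v H ζ := by
  unfold WP WS
  rw [map_add, map_sum, mul_add, Finset.mul_sum]
  congr 1
  · apply Finset.sum_congr rfl
    intro r hr
    have hr' : p ^ r ≤ p ^ K := Nat.pow_le_pow_right hp (Finset.mem_range.mp hr).le
    rw [map_mul, map_mul, jt_C, jt_X_pow, jt_expand, jt_PP hN (pow_ne_zero _ hζ), map_mul, map_mul,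
      rescale_ee]
    have e1 : rescale ((p ^ r : ℕ) : ℂ) (C ((ζ ^ p ^ r) ^ N)) = C ((ζ ^ p ^ r) ^ N) := by
      ext k; rw [coeff_rescale]
      rcases Nat.eq_zero_or_pos k with rfl | hk
      · simp
      · rw [coeff_C, if_neg hk.ne', mul_zero]
    rw [e1]
    have e2 : ((N * p ^ K : ℕ) : ℂ) = ((N * (p ^ K - p ^ r) : ℕ) : ℂ) + ((p ^ r : ℕ) : ℂ) * N := by
      have : N * p ^ K = N * (p ^ K - p ^ r) + p ^ r * N := by
        rw [Nat.mul_sub, mul_comm (p ^ r) N]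
        have : N * p ^ r ≤ N * p ^ K := Nat.mul_le_mul_left _ hr'
        omega
      rw [this]; push_cast; ring
    have e3 : ζ ^ (N * p ^ K) = ζ ^ (N * (p ^ K - p ^ r)) * (ζ ^ p ^ r) ^ N := by
      rw [← pow_mul, ← pow_add]
      congr 1
      rw [Nat.mul_sub, mul_comm (p ^ r) N]
      have : N * p ^ r ≤ N * p ^ K := Nat.mul_le_mul_left _ hr'
      omega
    rw [e2, ee_add, e3, map_mul]
    push_cast
    ring
  · rw [map_mul, jt_C, jt_expand, hK, map_mul, map_mul, jt_X_pow, one_pow, map_mul, rescale_ee]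
    have e0 : rescale ((p ^ K : ℕ) : ℂ) (C (1 : ℂ)) = 1 := by rw [map_one, map_one]
    rw [e0]
    have e3 : ζ ^ (N * p ^ K) = 1 := by rw [mul_comm, pow_mul, hK, one_pow]
    rw [e3, map_one, one_mul, one_mul]
    have e4 : ((p ^ K : ℕ) : ℂ) * (N : ℂ) = ((N * p ^ K : ℕ) : ℂ) := by push_cast; ring
    rw [e4]
    push_cast
    ring

/-- coefficients of the jet of `W^*`, `k ≥ 1`, when `H` has the right moments -/
theorem coeff_WS {p K m j k : ℕ} (hp : 1 < p) (v : ℕ →₀ ℤ) (H : Polynomial ℚ) {ζ : ℂ}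
    (hζ : ζ ^ p ^ j = 1) (hjK : j ≤ K) (hk : 0 < k)
    (hH : ((((Polynomial.X - 1) ^ m * H).sum fun n c => c * (n : ℚ) ^ k : ℚ) : ℂ) =
      Pk v k 1 / (1 - (p : ℂ) ^ (k - 1))) (h1 : k = 1 → Pk v k 1 = 0) :
    coeff k (WS p K m v H ζ) = Wk p j v k ζ / k.factorial := by
  have hp0 : (p : ℂ) ≠ 0 := by exact_mod_cast (by omega : p ≠ 0)
  have hf : (k.factorial : ℂ) ≠ 0 := by exact_mod_cast k.factorial_ne_zero
  unfold WS Wk
  rw [map_add, map_sum, coeff_C_mul, coeff_rescale, coeff_jt]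
  have e1 : (((Polynomial.X - 1) ^ m * H : Polynomial ℚ).sum
      fun n c => (c : ℂ) * 1 ^ n * (n : ℂ) ^ k) = Pk v k 1 / (1 - (p : ℂ) ^ (k - 1)) := by
    rw [← hH]
    rw [Polynomial.sum_def, Polynomial.sum_def]
    push_cast
    apply Finset.sum_congr rfl
    intro n _
    rw [one_pow, mul_one]
  rw [e1]
  have e2 : ∀ r, ((p : ℂ) ^ r)⁻¹ * ((p : ℂ) ^ r) ^ k = ((p : ℂ) ^ r) ^ (k - 1) := by
    intro r
    obtain ⟨k', rfl⟩ : ∃ k', k = k' + 1 := ⟨k - 1, by omega⟩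
    rw [pow_succ, Nat.add_sub_cancel]
    have : (p : ℂ) ^ r ≠ 0 := pow_ne_zero _ hp0
    field_simp
  have e3 : ∑ r ∈ range K, coeff k (C (((p : ℂ) ^ r)⁻¹) * rescale ((p : ℂ) ^ r) (PS v (ζ ^ p ^ r))) =
      (∑ r ∈ range K, ((p : ℂ) ^ r) ^ (k - 1) * Pk v k (ζ ^ p ^ r)) / k.factorial := by
    rw [Finset.sum_div]
    apply Finset.sum_congr rfl
    intro r _
    rw [coeff_C_mul, coeff_rescale]
    unfold PS
    rw [coeff_mk, ← mul_assoc, e2]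
    ring
  rw [e3]
  have e4 : ∑ r ∈ range K, ((p : ℂ) ^ r) ^ (k - 1) * Pk v k (ζ ^ p ^ r) =
      ∑ r ∈ range j, ((p : ℂ) ^ r) ^ (k - 1) * Pk v k (ζ ^ p ^ r) +
      (∑ r ∈ Ico j K, ((p : ℂ) ^ r) ^ (k - 1)) * Pk v k 1 := by
    rw [← Finset.sum_range_add_sum_Ico _ hjK]
    congr 1
    rw [Finset.sum_mul]
    apply Finset.sum_congr rfl
    intro r hr
    have : ζ ^ p ^ r = 1 := by
      obtain ⟨d, hd⟩ : p ^ j ∣ p ^ r := pow_dvd_pow _ (Finset.mem_Ico.mp hr).1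
      rw [hd, pow_mul, hζ, one_pow]
    rw [this]
  rw [e4, ← mul_assoc, e2]
  rcases Nat.lt_or_ge 1 k with hk1 | hk1
  · have hq : (p : ℂ) ^ (k - 1) ≠ 1 := by
      have : (p : ℕ) ^ (k - 1) ≠ 1 := (Nat.one_lt_pow (by omega) hp).ne'
      exact_mod_cast this
    have hq' : 1 - (p : ℂ) ^ (k - 1) ≠ 0 := sub_ne_zero.mpr hq.symm
    have e5 : ∑ r ∈ Ico j K, ((p : ℂ) ^ r) ^ (k - 1) =
        (((p : ℂ) ^ j) ^ (k - 1) - ((p : ℂ) ^ K) ^ (k - 1)) / (1 - (p : ℂ) ^ (k - 1)) := by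
      have : ∀ r, ((p : ℂ) ^ r) ^ (k - 1) = ((p : ℂ) ^ (k - 1)) ^ r := by
        intro r; rw [← pow_mul, ← pow_mul, mul_comm]
      simp only [this]
      rw [geom_sum_Ico hq hjK]
      rw [div_eq_div_iff (sub_ne_zero.mpr hq) hq']
      ring
    rw [e5]
    field_simp
    ring
  · have hk1' : k = 1 := by omega
    rw [h1 hk1']
    simp

theorem coeff_WS_zero {p K m j : ℕ} (hp : 1 < p) (hm : 0 < m) (v : ℕ →₀ ℤ) (H : Polynomial ℚ)
    {ζ : ℂ} (hζ : ζ ^ p ^ j = 1) (hjK : j ≤ K) (h0 : Pk v 0 1 = 0) :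
    coeff 0 (WS p K m v H ζ) = Wz p j v 0 ζ := by
  have hp0 : (p : ℂ) ≠ 0 := by exact_mod_cast (by omega : p ≠ 0)
  unfold WS Wz
  rw [map_add, map_sum, coeff_C_mul, coeff_rescale, coeff_jt]
  have e1 : (((Polynomial.X - 1) ^ m * H : Polynomial ℚ).sum
      fun n c => (c : ℂ) * 1 ^ n * (n : ℂ) ^ 0) = 0 := by
    have h2 : (((Polynomial.X - 1) ^ m * H : Polynomial ℚ).sum
      fun n c => (c : ℂ) * 1 ^ n * (n : ℂ) ^ 0) =
      ((((Polynomial.X - 1) ^ m * H : Polynomial ℚ).eval 1 : ℚ) : ℂ) := by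
      rw [Polynomial.eval_eq_sum, Polynomial.sum_def, Polynomial.sum_def]
      push_cast
      apply Finset.sum_congr rfl
      intro n _
      simp
    rw [h2, Polynomial.eval_mul, Polynomial.eval_pow]
    simp [hm.ne']
  rw [e1, zero_div, mul_zero, mul_zero, add_zero, ← Finset.sum_range_add_sum_Ico _ hjK]
  have e2 : ∑ r ∈ Ico j K, coeff 0 (C (((p : ℂ) ^ r)⁻¹) *
      rescale ((p : ℂ) ^ r) (PS v (ζ ^ p ^ r))) = 0 := by
    apply Finset.sum_eq_zero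
    intro r hr
    have : ζ ^ p ^ r = 1 := by
      obtain ⟨d, hd⟩ : p ^ j ∣ p ^ r := pow_dvd_pow _ (Finset.mem_Ico.mp hr).1
      rw [hd, pow_mul, hζ, one_pow]
    rw [this, coeff_C_mul, coeff_rescale]
    unfold PS
    rw [coeff_mk, h0]
    simp
  rw [e2, add_zero]
  apply Finset.sum_congr rfl
  intro r _
  rw [coeff_C_mul, coeff_rescale]
  unfold PS
  rw [coeff_mk]
  have : ((p : ℂ) ^ r) ^ (((0 : ℕ) : ℤ) - 1) = ((p : ℂ) ^ r)⁻¹ := by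
    simp
  rw [this]
  simp

end Pool.Agent.Lib_MP_e4b855_nt.Tri
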